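import Mathlib
import Pool.Agent.X3.NfaPi
import Pool.Agent.TH629.RidM

/-!
# Words accepted by small automata: sequences whose periodic stretches are short

The variant of `Pool.Agent.X3.NfaWords` in which the length of a stretch with period `s` which
begins at the place `N` is at most `(ρ - 1) N + A s`; by Ridout's theorem the digits of an irrational
algebraic number have this property for every `ρ > 1`.
-/

set_option autoImplicit false

namespace Pool.Agent.X1.NfaAlg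

open Finset Pool.Agent.X3.NfaWords

variable {α σ : Type}

/-- no long periodic stretches -/
def NoPer2 (x : ℕ → α) (ρ A : ℝ) (N₀ : ℕ) : Prop :=
  ∀ N : ℕ, N₀ ≤ N → ∀ s : ℕ, 1 ≤ s → ∃ i : ℕ, N ≤ i ∧ ((i + s : ℕ) : ℝ) ≤ ρ * N + A * s ∧
    x (i + s) ≠ x i

/-- a periodic stretch of digits gives a good rational approximation -/
lemma run_upper (x : ℝ) (b : ℕ) (hb : 2 ≤ b) (N s l : ℕ)
    (h : ∀ i : ℕ, N < i → i ≤ N + l →
      ⌊x * (b : ℝ) ^ (i + s)⌋ % (b : ℤ) = ⌊x * (b : ℝ) ^ i⌋ % (b : ℤ)) :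
    |((b ^ N * (b ^ s - 1) : ℕ) : ℝ) * x -
      ((⌊x * (b : ℝ) ^ (N + s)⌋ - ⌊x * (b : ℝ) ^ N⌋ : ℤ) : ℝ)| * (b : ℝ) ^ l < 1 := by
  have hrun := H346R2.Pi.run_imp_b x b (by omega) N s l h
  have hbs : 1 ≤ b ^ s := Nat.one_le_pow _ _ (by omega)
  have hqR : ((b ^ N * (b ^ s - 1) : ℕ) : ℝ) = b ^ N * (b ^ s - 1) := by
    push_cast [Nat.cast_sub hbs]; ring
  have e1 : |((b ^ N * (b ^ s - 1) : ℕ) : ℝ) * x -
      ((⌊x * (b : ℝ) ^ (N + s)⌋ - ⌊x * (b : ℝ) ^ N⌋ : ℤ) : ℝ)| * (b : ℝ) ^ l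
      = |(x * (b : ℝ) ^ (N + l + s) - ⌊x * (b : ℝ) ^ (N + l + s)⌋)
      - (x * (b : ℝ) ^ (N + l) - ⌊x * (b : ℝ) ^ (N + l)⌋)| := by
    have hb0 : (0 : ℝ) < b := by
      have : 0 < b := by omega
      exact_mod_cast this
    rw [← abs_of_pos (show (0 : ℝ) < b ^ l by positivity), ← abs_mul]
    congr 1
    have h1 : ((⌊x * (b : ℝ) ^ (N + l + s)⌋ : ℤ) : ℝ) - ⌊x * (b : ℝ) ^ (N + l)⌋
        = b ^ l * ((⌊x * (b : ℝ) ^ (N + s)⌋ : ℤ) - ⌊x * (b : ℝ) ^ N⌋) := by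
      exact_mod_cast hrun
    rw [hqR]
    push_cast
    have p1 : (b : ℝ) ^ (N + l + s) = b ^ N * b ^ l * b ^ s := by rw [pow_add, pow_add]
    have p2 : (b : ℝ) ^ (N + l) = b ^ N * b ^ l := by rw [pow_add]
    linear_combination h1 - x * p1 + x * p2
  rw [e1, abs_lt]
  have a1 := Int.floor_le (x * (b : ℝ) ^ (N + l + s))
  have a2 := Int.lt_floor_add_one (x * (b : ℝ) ^ (N + l + s))
  have a3 := Int.floor_le (x * (b : ℝ) ^ (N + l))
  have a4 := Int.lt_floor_add_one (x * (b : ℝ) ^ (N + l))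
  constructor <;> linarith

/-- Ridout's theorem for the digits of an algebraic number -/
theorem alg_noPer {y : ℝ} (hy : 0 ≤ y) (halg : IsAlgebraic ℚ y) (hirr : Irrational y)
    (S : Finset ℕ) (hS : ∀ p ∈ S, p.Prime) (ε : ℝ) (hε : 0 < ε) (hε1 : ε ≤ 1 / 2) :
    ∃ N₀ : ℕ, ∀ (b : ℕ) [NeZero b], 2 ≤ b → (∀ p : ℕ, p.Prime → p ∣ b → p ∈ S) →
      NoPer2 (Real.digits y b) (1 + ε) (5 / 2) N₀ := by
  obtain ⟨c, hc, hR⟩ := Pool.Agent.TH629.RidM.ridout_meas y halg hirr S hS (ε / 2) (by positivity)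
  obtain ⟨N₀, hN₀⟩ := exists_nat_gt ((|Real.log c| / Real.log 2 + 2) / (ε / 2))
  refine ⟨N₀, fun b _ hb hbS N hN s hs => ?_⟩
  have hl2 : 0 < Real.log 2 := Real.log_pos (by norm_num)
  have hbR : (2 : ℝ) ≤ b := by exact_mod_cast hb
  have hb0 : (0 : ℝ) < b := by linarith
  have hlb : 0 < Real.log b := Real.log_pos (by linarith)
  have hlb2 : Real.log 2 ≤ Real.log b := Real.log_le_log (by norm_num) hbR
  have hNR : (N₀ : ℝ) ≤ N := by exact_mod_cast hN
  have hsR : (1 : ℝ) ≤ s := by exact_mod_cast hs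
  have hbig : |Real.log c| / Real.log 2 + 2 < ε / 2 * N := by
    rw [div_lt_iff₀ (by positivity)] at hN₀
    nlinarith
  obtain ⟨l, hl⟩ : ∃ l, l = ⌈ε / 2 * N + (1 + ε / 2) * s + |Real.log c| / Real.log 2⌉₊ := ⟨_, rfl⟩
  have hl1 : ε / 2 * N + (1 + ε / 2) * s + |Real.log c| / Real.log 2 ≤ l := by
    rw [hl]; exact Nat.le_ceil _
  have hl3 : (l : ℝ) < ε / 2 * N + (1 + ε / 2) * s + |Real.log c| / Real.log 2 + 1 := by
    rw [hl]; exact Nat.ceil_lt_add_one (by positivity)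
  -- the digits
  have key : ∀ j : ℕ, ⌊y * (b : ℝ) ^ (j + 1)⌋ % (b : ℤ) = ((Real.digits y b j : ℕ) : ℤ) := by
    intro j
    unfold Real.digits
    rw [Fin.val_ofNat]
    push_cast
    congr 1
    rw [Int.natCast_floor_eq_floor (by positivity)]
  by_contra hcon
  push Not at hcon
  have hup := run_upper y b hb N s l (by
    intro i hi1 hi2
    obtain ⟨t, rfl⟩ : ∃ t, i = t + 1 := ⟨i - 1, by omega⟩
    have e : t + 1 + s = (t + s) + 1 := by ring
    rw [e, key, key]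
    have h1 : ((t + s : ℕ) : ℝ) ≤ (1 + ε) * N + 5 / 2 * s := by
      have h2 : ((t + 1 : ℕ) : ℝ) ≤ ((N + l : ℕ) : ℝ) := by exact_mod_cast hi2
      push_cast at h2 ⊢
      nlinarith
    rw [hcon t (by omega) h1])
  have hbs : 1 ≤ b ^ s := Nat.one_le_pow _ _ (by omega)
  have hbs1 : 1 ≤ b ^ s - 1 := by
    have : b ^ 1 ≤ b ^ s := Nat.pow_le_pow_right (by omega) hs
    rw [pow_one] at this
    omega
  obtain ⟨Q, hQ⟩ : ∃ Q : ℕ, Q = b ^ N * (b ^ s - 1) := ⟨_, rfl⟩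
  have hQ1 : 1 ≤ Q := by rw [hQ]; exact Nat.mul_pos (by positivity) hbs1
  have hRQ := hR Q hQ1 (b ^ N) (by rw [hQ]; exact Dvd.intro _ rfl)
    (fun p hp hpd => hbS p hp (hp.dvd_of_dvd_pow hpd))
    (⌊y * (b : ℝ) ^ (N + s)⌋ - ⌊y * (b : ℝ) ^ N⌋)
  rw [← hQ] at hup
  obtain ⟨D, hD⟩ : ∃ D : ℝ, D = |(Q : ℝ) * y -
      ((⌊y * (b : ℝ) ^ (N + s)⌋ - ⌊y * (b : ℝ) ^ N⌋ : ℤ) : ℝ)| := ⟨_, rfl⟩
  rw [← hD] at hup hRQ
  have hQpos : (0 : ℝ) < Q := by exact_mod_cast hQ1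
  have hQle : (Q : ℝ) ≤ (b : ℝ) ^ (N + s) := by
    have h1 : Q ≤ b ^ (N + s) := by
      rw [hQ, pow_add]
      exact Nat.mul_le_mul_left _ (Nat.sub_le _ _)
    exact_mod_cast h1
  have h1 : c * (b : ℝ) ^ N * (b : ℝ) ^ l < (Q : ℝ) ^ (1 + ε / 2) := by
    have h2 : 0 < (Q : ℝ) ^ (1 + ε / 2) := Real.rpow_pos_of_pos hQpos _
    calc c * (b : ℝ) ^ N * (b : ℝ) ^ l ≤ (Q : ℝ) ^ (1 + ε / 2) * D * (b : ℝ) ^ l := by
          apply mul_le_mul_of_nonneg_right _ (by positivity)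
          push_cast at hRQ
          exact hRQ
      _ = (Q : ℝ) ^ (1 + ε / 2) * (D * (b : ℝ) ^ l) := by ring
      _ < (Q : ℝ) ^ (1 + ε / 2) * 1 := mul_lt_mul_of_pos_left hup h2
      _ = _ := mul_one _
  have h2 := Real.log_lt_log (by positivity) h1
  rw [Real.log_mul (by positivity) (by positivity), Real.log_mul hc.ne' (by positivity),
    Real.log_pow, Real.log_pow, Real.log_rpow hQpos] at h2
  have h3 : Real.log Q ≤ (N + s) * Real.log b := by
    have := Real.log_le_log hQpos hQle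
    rw [Real.log_pow] at this
    push_cast at this
    exact this
  have h4 : (1 + ε / 2) * Real.log Q ≤ (1 + ε / 2) * ((N + s) * Real.log b) :=
    mul_le_mul_of_nonneg_left h3 (by positivity)
  have h5 : -(|Real.log c| / Real.log 2 * Real.log b) ≤ Real.log c := by
    have h6 : |Real.log c| / Real.log 2 * Real.log 2 ≤ |Real.log c| / Real.log 2 * Real.log b :=
      mul_le_mul_of_nonneg_left hlb2 (by positivity)
    rw [div_mul_cancel₀ _ hl2.ne'] at h6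
    have := neg_abs_le (Real.log c)
    linarith
  have h6 : ((N : ℝ) + l - |Real.log c| / Real.log 2 - (1 + ε / 2) * (N + s)) * Real.log b < 0 := by
    nlinarith
  have h7 : (N : ℝ) + l - |Real.log c| / Real.log 2 - (1 + ε / 2) * (N + s) < 0 := by
    by_contra hcc
    push Not at hcc
    nlinarith [mul_nonneg hcc hlb.le]
  nlinarith

/-- the exchange of loops -/
theorem exchange2 [Fintype σ] {M : NFA α σ} {z x : ℕ → α} {ρ A : ℝ} {N₀ : ℕ} (hz : NoPer2 z ρ A N₀)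
    (hA : 0 ≤ A)
    (hρ : 0 ≤ ρ) {f : ℕ → σ} {N : ℕ} (hf : Run M x f N) {T U : ℕ} (hT : N₀ ≤ T)
    (hTU : T + Fintype.card σ ^ 2 ≤ U) 
    (hU : ρ * ((T : ℝ) + (Fintype.card σ : ℝ) ^ 2) + A * (Fintype.card σ : ℝ) ^ 2 ≤ U)
    (hN : U + Fintype.card σ ≤ N) (hzx : ∀ i, T ≤ i → i < U + Fintype.card σ → x i = z i) :
    ∃ w : List α, w ≠ seg x T (U + Fintype.card σ) ∧ w.length = U + Fintype.card σ - T ∧
      P M (f T) w (f (U + Fintype.card σ)) := by
  classical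
  obtain ⟨q, hq⟩ : ∃ q, q = Fintype.card σ := ⟨_, rfl⟩
  rw [← hq] at hTU hU hN hzx ⊢
  -- the late loop
  obtain ⟨u, v, huv, hu1, hv1, hfuv⟩ : ∃ u v : ℕ, u < v ∧ U ≤ u ∧ v ≤ U + q ∧ f u = f v := by
    have h1 : (univ : Finset σ).card < (range (q + 1)).card := by
      rw [card_univ, card_range, hq]; exact Nat.lt_succ_self _
    obtain ⟨i, hi, j, hj, hij, he⟩ := exists_ne_map_eq_of_card_lt_of_maps_to h1
      (f := fun i => f (U + i)) (fun i _ => mem_univ _)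
    rw [mem_range] at hi hj
    rcases lt_or_gt_of_ne hij with h | h
    · exact ⟨U + i, U + j, by omega, by omega, by omega, he⟩
    · exact ⟨U + j, U + i, by omega, by omega, by omega, he.symm⟩
  obtain ⟨c, hc⟩ : ∃ c, c = v - u := ⟨_, rfl⟩
  have hc1 : 1 ≤ c := by omega
  have hcq : c ≤ q := by omega
  -- the early loop
  obtain ⟨u', v', huv', hu1', hv1', hfuv', hmod⟩ : ∃ u' v' : ℕ, u' < v' ∧ T ≤ u' ∧ v' ≤ T + q ^ 2 ∧
      f u' = f v' ∧ c ∣ v' - u' := by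
    have h1 : ((univ : Finset σ) ×ˢ range c).card < (range (q ^ 2 + 1)).card := by
      rw [card_product, card_univ, card_range, card_range, ← hq]
      have : q * c ≤ q * q := Nat.mul_le_mul_left _ hcq
      nlinarith
    obtain ⟨i, hi, j, hj, hij, he⟩ := exists_ne_map_eq_of_card_lt_of_maps_to h1
      (f := fun i => (f (T + i), i % c)) (fun i _ => by
        simp only [coe_product, coe_univ, coe_range, Set.mem_prod, Set.mem_univ, true_and,
          Set.mem_Iio]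
        exact Nat.mod_lt _ hc1)
    rw [mem_range] at hi hj
    simp only [Prod.mk.injEq] at he
    rcases lt_or_gt_of_ne hij with h | h
    · refine ⟨T + i, T + j, by omega, by omega, by omega, he.1, ?_⟩
      have e : T + j - (T + i) = j - i := by omega
      rw [e]
      exact (Nat.modEq_iff_dvd' h.le).1 he.2
    · refine ⟨T + j, T + i, by omega, by omega, by omega, he.1.symm, ?_⟩
      have e : T + i - (T + j) = i - j := by omega
      rw [e]
      exact (Nat.modEq_iff_dvd' h.le).1 he.2.symm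
  obtain ⟨m, hm⟩ := hmod
  have hmc : m * c = v' - u' := by rw [hm]; ring
  refine ⟨seg x T u' ++ (seg x v' v ++ ((List.replicate m (seg x u v)).flatten ++
    seg x v (U + q))), ?_, ?_, ?_⟩
  · intro he
    obtain ⟨i, hi1, hi2, hi3⟩ := hz u' (by omega) (v' - u') (by omega)
    have hi4 : ((i + (v' - u') : ℕ) : ℝ) ≤ U := by
      refine hi2.trans (le_trans ?_ hU)
      have h3 : ((v' - u' : ℕ) : ℝ) ≤ (q : ℝ) ^ 2 := by
        exact_mod_cast (by omega : v' - u' ≤ q ^ 2)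
      have h4 : (u' : ℝ) ≤ T + (q : ℝ) ^ 2 := by exact_mod_cast (by omega : u' ≤ T + q ^ 2)
      have h5 := mul_le_mul_of_nonneg_left h4 hρ
      have h6 := mul_le_mul_of_nonneg_left h3 hA
      linarith
    have hi5 : i + (v' - u') ≤ U := by exact_mod_cast hi4
    have e1 : (seg x T (U + q))[i - T]? = some (x i) := by
      rw [seg_get x T (U + q) (i - T) (by omega)]
      congr 2; omega
    rw [← he] at e1
    have e2 : (seg x T u' ++ (seg x v' v ++ ((List.replicate m (seg x u v)).flatten ++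
        seg x v (U + q))))[i - T]? = some (x (i + (v' - u'))) := by
      rw [List.getElem?_append_right (by rw [seg_length]; omega), seg_length,
        List.getElem?_append_left (by rw [seg_length]; omega),
        seg_get x v' v _ (by omega)]
      congr 2; omega
    rw [e2] at e1
    apply hi3
    rw [← hzx (i + (v' - u')) (by omega) (by omega), ← hzx i (by omega) (by omega)]
    exact Option.some.inj e1
  · simp only [List.length_append, seg_length, List.length_flatten, List.map_replicate,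
      List.sum_replicate, smul_eq_mul]
    rw [← hc, hmc]
    omega
  · have p1 := P_of_run hf (show T ≤ u' by omega) (by omega)
    have p2 := P_of_run hf (show v' ≤ v by omega) (by omega)
    have p3 := P_of_run hf (show u ≤ v by omega) (by omega)
    have p4 := P_of_run hf (show v ≤ U + q by omega) (by omega)
    rw [hfuv] at p3
    rw [← hfuv'] at p2
    exact P_append p1 (P_append p2 (P_append (P_loop p3 m) p4))

/-- the thresholds -/
noncomputable def Th2 (ρ A : ℝ) (q T₀ : ℕ) : ℕ → ℕ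
  | 0 => T₀
  | j + 1 => ⌈ρ * ((Th2 ρ A q T₀ j : ℝ) + (q : ℝ) ^ 2) + A * (q : ℝ) ^ 2⌉₊ + q

lemma Th2_step {ρ A : ℝ} (hρ : 1 ≤ ρ) (hA : 0 ≤ A) (q T₀ j : ℕ) :
    Th2 ρ A q T₀ j + q ^ 2 ≤ ⌈ρ * ((Th2 ρ A q T₀ j : ℝ) + (q : ℝ) ^ 2) + A * (q : ℝ) ^ 2⌉₊ := by
  have h : ((Th2 ρ A q T₀ j + q ^ 2 : ℕ) : ℝ) ≤
      ρ * ((Th2 ρ A q T₀ j : ℝ) + (q : ℝ) ^ 2) + A * (q : ℝ) ^ 2 := by
    push_cast
    have h1 : (0 : ℝ) ≤ (Th2 ρ A q T₀ j : ℝ) + (q : ℝ) ^ 2 := by positivity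
    have h2 : 0 ≤ A * (q : ℝ) ^ 2 := by positivity
    nlinarith
  exact_mod_cast h.trans (Nat.le_ceil _)

lemma Th2_lt {ρ A : ℝ} (hρ : 1 ≤ ρ) (hA : 0 ≤ A) {q : ℕ} (hq : 1 ≤ q) (T₀ j : ℕ) :
    Th2 ρ A q T₀ j < Th2 ρ A q T₀ (j + 1) := by
  have h := Th2_step hρ hA q T₀ j
  show _ < ⌈ρ * ((Th2 ρ A q T₀ j : ℝ) + (q : ℝ) ^ 2) + A * (q : ℝ) ^ 2⌉₊ + q
  omega

lemma Th2_ge {ρ A : ℝ} (hρ : 1 ≤ ρ) (hA : 0 ≤ A) (q T₀ j : ℕ) : T₀ ≤ Th2 ρ A q T₀ j := by
  induction j with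
  | zero => exact le_rfl
  | succ j ih =>
    have h := Th2_step hρ hA q T₀ j
    show _ ≤ ⌈ρ * ((Th2 ρ A q T₀ j : ℝ) + (q : ℝ) ^ 2) + A * (q : ℝ) ^ 2⌉₊ + q
    omega

lemma Th2_le {ρ A B : ℝ} (hρ : 1 < ρ) (hA : 0 ≤ A) (hB : B * (ρ - 1) = ρ + A + 2) {q : ℕ}
    (hq : 1 ≤ q) (T₀ j : ℕ) :
    (Th2 ρ A q T₀ j : ℝ) + B * (q : ℝ) ^ 2 ≤ ρ ^ j * (T₀ + B * (q : ℝ) ^ 2) := by
  induction j with
  | zero => simp [Th2]
  | succ j ih =>
    have hqR : (1 : ℝ) ≤ q := by exact_mod_cast hq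
    have h1 : ((Th2 ρ A q T₀ (j + 1) : ℕ) : ℝ) ≤
        ρ * ((Th2 ρ A q T₀ j : ℝ) + (q : ℝ) ^ 2) + A * (q : ℝ) ^ 2 + 1 + q := by
      show ((⌈ρ * ((Th2 ρ A q T₀ j : ℝ) + (q : ℝ) ^ 2) + A * (q : ℝ) ^ 2⌉₊ + q : ℕ) : ℝ) ≤ _
      push_cast
      have := Nat.ceil_lt_add_one (show 0 ≤ ρ * ((Th2 ρ A q T₀ j : ℝ) + (q : ℝ) ^ 2) +
        A * (q : ℝ) ^ 2 by positivity)
      linarith
    have h2 : (1 : ℝ) + q ≤ 2 * (q : ℝ) ^ 2 := by nlinarith
    have h3 : (Th2 ρ A q T₀ (j + 1) : ℝ) + B * (q : ℝ) ^ 2 ≤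
        ρ * ((Th2 ρ A q T₀ j : ℝ) + B * (q : ℝ) ^ 2) := by
      have e : B * ρ = ρ + A + 2 + B := by linarith
      have e2 : ρ * ((Th2 ρ A q T₀ j : ℝ) + B * (q : ℝ) ^ 2) =
        ρ * (Th2 ρ A q T₀ j : ℝ) + (B * ρ) * (q : ℝ) ^ 2 := by ring
      rw [e2, e]
      nlinarith
    calc _ ≤ ρ * ((Th2 ρ A q T₀ j : ℝ) + B * (q : ℝ) ^ 2) := h3
      _ ≤ ρ * (ρ ^ j * (T₀ + B * (q : ℝ) ^ 2)) := mul_le_mul_of_nonneg_left ih (by linarith)
      _ = _ := by ring

/-- many words -/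
theorem many2 [Fintype σ] {M : NFA α σ} {z x : ℕ → α} {ρ A : ℝ} {N₀ : ℕ} (hz : NoPer2 z ρ A N₀)
    (hA : 0 ≤ A) (hρ : 1 ≤ ρ) {f : ℕ → σ} {N : ℕ} (hf : Run M x f N) (E : Finset ℕ)
    (hE : ∀ i, i < N → i ∉ E → x i = z i) (J : ℕ)
    (hJ : Th2 ρ A (Fintype.card σ) N₀ J ≤ N) (l : ℕ) : ∀ j, j + l = J →
    ∃ W : Finset (List α),
      2 ^ l ≤ W.card * 2 ^ (E.filter fun i => Th2 ρ A (Fintype.card σ) N₀ j ≤ i).card ∧ ∀ w ∈ W,
      w.length = N - Th2 ρ A (Fintype.card σ) N₀ j ∧ P M (f (Th2 ρ A (Fintype.card σ) N₀ j)) w (f N) := by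
  classical
  have hq : 1 ≤ Fintype.card σ := Fintype.card_pos_iff.2 ⟨f 0⟩
  have hmono : StrictMono (Th2 ρ A (Fintype.card σ) N₀) := strictMono_nat_of_lt_succ (Th2_lt hρ hA hq N₀)
  induction l with
  | zero =>
    intro j hj
    have : j = J := by omega
    subst this
    refine ⟨{seg x (Th2 ρ A (Fintype.card σ) N₀ j) N}, ?_, fun w hw => ?_⟩
    · rw [card_singleton, one_mul, pow_zero]
      exact Nat.one_le_two_pow
    rw [mem_singleton] at hw
    subst hw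
    exact ⟨seg_length _ _ _, P_of_run hf hJ le_rfl⟩
  | succ l ih =>
    intro j hj
    obtain ⟨W, hW1, hW2⟩ := ih (j + 1) (by omega)
    have hle : Th2 ρ A (Fintype.card σ) N₀ (j + 1) ≤ N :=
      le_trans (hmono.monotone (by omega)) hJ
    have hlt : Th2 ρ A (Fintype.card σ) N₀ j < Th2 ρ A (Fintype.card σ) N₀ (j + 1) := Th2_lt hρ hA hq N₀ j
    have hdef : Th2 ρ A (Fintype.card σ) N₀ (j + 1) =
      ⌈ρ * ((Th2 ρ A (Fintype.card σ) N₀ j : ℝ) + (Fintype.card σ : ℝ) ^ 2) +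
        A * (Fintype.card σ : ℝ) ^ 2⌉₊ + Fintype.card σ := rfl
    obtain ⟨w0, hw0⟩ : ∃ w0, w0 = seg x (Th2 ρ A (Fintype.card σ) N₀ j)
      (Th2 ρ A (Fintype.card σ) N₀ (j + 1)) := ⟨_, rfl⟩
    have hw0l : w0.length = Th2 ρ A (Fintype.card σ) N₀ (j + 1) - Th2 ρ A (Fintype.card σ) N₀ j := by
      rw [hw0, seg_length]
    have hw0p : P M (f (Th2 ρ A (Fintype.card σ) N₀ j)) w0 (f (Th2 ρ A (Fintype.card σ) N₀ (j + 1))) := by
      rw [hw0]; exact P_of_run hf hlt.le hle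
    have inj : ∀ p : List α, Function.Injective (fun w => p ++ w) := fun p a b h =>
      List.append_cancel_left h
    have hsub : (E.filter fun i => Th2 ρ A (Fintype.card σ) N₀ (j + 1) ≤ i) ⊆
        (E.filter fun i => Th2 ρ A (Fintype.card σ) N₀ j ≤ i) := by
      intro i hi
      rw [mem_filter] at hi ⊢
      exact ⟨hi.1, hlt.le.trans hi.2⟩
    by_cases hgood : ∀ i, Th2 ρ A (Fintype.card σ) N₀ j ≤ i → i < Th2 ρ A (Fintype.card σ) N₀ (j + 1) →
        i ∉ E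
    · obtain ⟨w', hw1, hw2, hw3⟩ := exchange2 hz hA (by linarith) hf (T := Th2 ρ A (Fintype.card σ) N₀ j)
        (U := ⌈ρ * ((Th2 ρ A (Fintype.card σ) N₀ j : ℝ) + (Fintype.card σ : ℝ) ^ 2) +
        A * (Fintype.card σ : ℝ) ^ 2⌉₊)
        (Th2_ge hρ hA _ _ _) (Th2_step hρ hA _ _ _) (Nat.le_ceil _) (by rw [← hdef]; exact hle)
        (by
          rw [← hdef]
          intro i hi1 hi2
          exact hE i (by omega) (hgood i hi1 hi2))
      rw [← hdef] at hw1 hw2 hw3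
      rw [← hw0] at hw1
      refine ⟨W.image (fun w => w0 ++ w) ∪ W.image (fun w => w' ++ w), ?_, ?_⟩
      · rw [card_union_of_disjoint, card_image_of_injective _ (inj w0),
          card_image_of_injective _ (inj w'), pow_succ]
        · have h1 := Nat.pow_le_pow_right (show 0 < 2 by norm_num) (card_le_card hsub)
          have h2 := Nat.mul_le_mul_left W.card h1
          calc 2 ^ l * 2 ≤ (W.card *
                2 ^ (E.filter fun i => Th2 ρ A (Fintype.card σ) N₀ (j + 1) ≤ i).card) * 2 :=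
                Nat.mul_le_mul_right _ hW1
            _ ≤ (W.card * 2 ^ (E.filter fun i => Th2 ρ A (Fintype.card σ) N₀ j ≤ i).card) * 2 :=
                Nat.mul_le_mul_right _ h2
            _ = _ := by ring
        · rw [disjoint_left]
          intro a ha hb
          rw [mem_image] at ha hb
          obtain ⟨u, -, hu⟩ := ha
          obtain ⟨v, -, hv⟩ := hb
          rw [← hv] at hu
          exact hw1 (List.append_inj_left hu (by rw [hw0l, hw2])).symm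
      · intro w hw
        rw [mem_union, mem_image, mem_image] at hw
        rcases hw with ⟨v, hv, rfl⟩ | ⟨v, hv, rfl⟩
        · obtain ⟨h1, h2⟩ := hW2 v hv
          refine ⟨?_, P_append hw0p h2⟩
          rw [List.length_append, h1, hw0l]
          omega
        · obtain ⟨h1, h2⟩ := hW2 v hv
          refine ⟨?_, P_append hw3 h2⟩
          rw [List.length_append, h1, hw2]
          omega
    · push Not at hgood
      obtain ⟨e, he1, he2, he3⟩ := hgood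
      refine ⟨W.image (fun w => w0 ++ w), ?_, ?_⟩
      · rw [card_image_of_injective _ (inj w0), pow_succ]
        have hss : (E.filter fun i => Th2 ρ A (Fintype.card σ) N₀ (j + 1) ≤ i).card + 1 ≤
            (E.filter fun i => Th2 ρ A (Fintype.card σ) N₀ j ≤ i).card := by
          apply card_lt_card
          refine ⟨hsub, fun h => ?_⟩
          have h1 : e ∈ E.filter fun i => Th2 ρ A (Fintype.card σ) N₀ j ≤ i :=
            mem_filter.2 ⟨he3, he1⟩
          have h2 := (mem_filter.1 (h h1)).2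
          omega
        have h1 := Nat.pow_le_pow_right (show 0 < 2 by norm_num) hss
        have h2 := Nat.mul_le_mul_left W.card h1
        calc 2 ^ l * 2 ≤ (W.card *
              2 ^ (E.filter fun i => Th2 ρ A (Fintype.card σ) N₀ (j + 1) ≤ i).card) * 2 :=
              Nat.mul_le_mul_right _ hW1
          _ = W.card *
              2 ^ ((E.filter fun i => Th2 ρ A (Fintype.card σ) N₀ (j + 1) ≤ i).card + 1) := by
              rw [pow_succ]; ring
          _ ≤ _ := h2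
      · intro w hw
        rw [mem_image] at hw
        obtain ⟨v, hv, rfl⟩ := hw
        obtain ⟨h1, h2⟩ := hW2 v hv
        refine ⟨?_, P_append hw0p h2⟩
        rw [List.length_append, h1, hw0l]
        omega

/-- The main statement for a sequence without long periodic stretches. -/
theorem main2 {ρ A κ : ℝ} (hρ : 1 < ρ) (hA : 0 ≤ A) (hκ : 0 ≤ κ) (hρκ : ρ ^ κ ≤ 2) (N₀ : ℕ) :
    ∃ C : ℝ, 0 < C ∧ ∀ (α σ : Type) [Fintype σ] (z : ℕ → α), NoPer2 z ρ A N₀ →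
      ∀ (x : ℕ → α) (M : NFA α σ) (N : ℕ), seg x 0 N ∈ M.accepts →
        ∀ E : Finset ℕ, (∀ i, i < N → i ∉ E → x i = z i) →
        ∃ W : Finset (List α), (∀ w ∈ W, w.length = N ∧ w ∈ M.accepts) ∧
          ((N : ℝ) / (C * (Fintype.card σ : ℝ) ^ 2)) ^ κ ≤ W.card * 2 ^ E.card := by
  obtain ⟨B, hB⟩ : ∃ B : ℝ, B = (ρ + A + 2) / (ρ - 1) := ⟨_, rfl⟩
  have hρ1 : 0 < ρ - 1 := by linarith
  have hB1 : B * (ρ - 1) = ρ + A + 2 := by rw [hB]; field_simp
  have hB0 : 0 < B := by rw [hB]; positivity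
  refine ⟨ρ * (N₀ + B), by positivity, ?_⟩
  intro α σ _ z hz x M N hacc E hE
  classical
  rw [NFA.accepts_iff_exists_path] at hacc
  obtain ⟨s, hs, t, ht, ⟨p⟩⟩ := hacc
  obtain ⟨f, hf0, hfN, hf⟩ := run_of_P N 0 s t (by simpa using P_of_path p)
  rw [Nat.zero_add] at hfN
  have hrun : Run M x f N := fun i hi => hf i (Nat.zero_le _) (by omega)
  have hq : 1 ≤ Fintype.card σ := Fintype.card_pos_iff.2 ⟨s⟩
  obtain ⟨q, hqe⟩ : ∃ q, q = Fintype.card σ := ⟨_, rfl⟩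
  rw [← hqe] at hq
  have hqR : (1 : ℝ) ≤ q := by exact_mod_cast hq
  have hq2 : (1 : ℝ) ≤ (q : ℝ) ^ 2 := one_le_pow₀ hqR
  have hacc' : ∀ w, P M s w t → w ∈ M.accepts := by
    intro w hw
    rw [NFA.accepts_iff_exists_path]
    exact ⟨s, hs, t, ht, path_of_P hw⟩
  rw [← hqe]
  have hCq : (N₀ : ℝ) + B ≤ ρ * (N₀ + B) * (q : ℝ) ^ 2 := by
    have h1 : (0 : ℝ) ≤ N₀ + B := by positivity
    have h2 : (N₀ : ℝ) + B ≤ ρ * (N₀ + B) := by nlinarith
    have h3 : ρ * (N₀ + B) * 1 ≤ ρ * (N₀ + B) * (q : ℝ) ^ 2 :=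
      mul_le_mul_of_nonneg_left hq2 (by positivity)
    linarith
  have hpos : 0 < ρ * (N₀ + B) * (q : ℝ) ^ 2 := by positivity
  rcases lt_or_ge N N₀ with hN | hN
  · refine ⟨{seg x 0 N}, fun w hw => ?_, ?_⟩
    · rw [mem_singleton] at hw
      subst hw
      refine ⟨by rw [seg_length]; omega, hacc' _ (P_of_path p)⟩
    · rw [card_singleton, Nat.cast_one, one_mul]
      refine le_trans ?_ (one_le_pow₀ (by norm_num) : (1 : ℝ) ≤ 2 ^ E.card)
      refine Real.rpow_le_one (by positivity) ?_ hκ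
      rw [div_le_one hpos]
      have : (N : ℝ) ≤ N₀ := by exact_mod_cast hN.le
      linarith
  · have hmono : StrictMono (Th2 ρ A q N₀) := strictMono_nat_of_lt_succ (Th2_lt hρ.le hA hq N₀)
    obtain ⟨J, hJ1, hJ2⟩ : ∃ J, Th2 ρ A q N₀ J ≤ N ∧ N < Th2 ρ A q N₀ (J + 1) := by
      by_contra hcon
      push Not at hcon
      have : ∀ J, Th2 ρ A q N₀ J ≤ N := by
        intro J
        induction J with
        | zero => exact hN
        | succ J ih => exact hcon J ih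
      have h1 := this (N + 1)
      have h2 := hmono.id_le (N + 1)
      simp only [id] at h2
      omega
    obtain ⟨W, hW1, hW2⟩ := many2 hz hA hρ.le hrun E hE J (by rw [← hqe]; exact hJ1) J 0 (by omega)
    rw [← hqe] at hW2
    have hT0 : Th2 ρ A q N₀ 0 = N₀ := rfl
    rw [hT0] at hW2
    have p0 : P M s (seg x 0 N₀) (f N₀) := by
      have := P_of_run hrun (Nat.zero_le N₀) hN
      rwa [hf0] at this
    have inj : Function.Injective (fun w => seg x 0 N₀ ++ w) := fun a b h =>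
      List.append_cancel_left h
    refine ⟨W.image (fun w => seg x 0 N₀ ++ w), ?_, ?_⟩
    · intro w hw
      rw [mem_image] at hw
      obtain ⟨v, hv, rfl⟩ := hw
      obtain ⟨h1, h2⟩ := hW2 v hv
      refine ⟨by rw [List.length_append, h1, seg_length]; omega, hacc' _ ?_⟩
      rw [hfN] at h2
      exact P_append p0 h2
    · rw [card_image_of_injective _ inj]
      have h0 : 2 ^ J ≤ W.card * 2 ^ E.card :=
        hW1.trans (Nat.mul_le_mul_left _ (Nat.pow_le_pow_right (by norm_num)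
          (card_le_card (filter_subset _ _))))
      have h1 : ((2 : ℝ) ^ J) ≤ W.card * 2 ^ E.card := by exact_mod_cast h0
      refine le_trans ?_ h1
      have h2 : (N : ℝ) / (ρ * (N₀ + B) * (q : ℝ) ^ 2) ≤ ρ ^ J := by
        rw [div_le_iff₀ hpos]
        have h3 : (N : ℝ) ≤ Th2 ρ A q N₀ (J + 1) := by exact_mod_cast hJ2.le
        have h4 := Th2_le hρ hA hB1 hq N₀ (J + 1)
        have h5 : (N₀ : ℝ) + B * (q : ℝ) ^ 2 ≤ (N₀ + B) * (q : ℝ) ^ 2 := by
          have : (0 : ℝ) ≤ N₀ := Nat.cast_nonneg _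
          nlinarith
        have h6 : (0 : ℝ) ≤ B * (q : ℝ) ^ 2 := by positivity
        have h7 : ρ ^ (J + 1) * (N₀ + B * (q : ℝ) ^ 2) ≤ ρ ^ (J + 1) * ((N₀ + B) * (q : ℝ) ^ 2) :=
          mul_le_mul_of_nonneg_left h5 (by positivity)
        calc (N : ℝ) ≤ ρ ^ (J + 1) * ((N₀ + B) * (q : ℝ) ^ 2) := by linarith
          _ = _ := by ring
      calc ((N : ℝ) / (ρ * (N₀ + B) * (q : ℝ) ^ 2)) ^ κ ≤ (ρ ^ J) ^ κ :=
            Real.rpow_le_rpow (by positivity) h2 hκ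
        _ = (ρ ^ κ) ^ J := by
            rw [← Real.rpow_natCast, ← Real.rpow_mul (by linarith), mul_comm,
              Real.rpow_mul (by linarith), Real.rpow_natCast]
        _ ≤ 2 ^ J := pow_le_pow_left₀ (by positivity) hρκ J

/-- the general form for the digits of a number -/
theorem digits_main2 {y ρ A κ : ℝ} (hρ : 1 < ρ) (hA : 0 ≤ A) (hκ : 0 ≤ κ) (hρκ : ρ ^ κ ≤ 2)
    (N₀ : ℕ) (Pb : ℕ → Prop)
    (h : ∀ (b : ℕ) [NeZero b], 2 ≤ b → Pb b → NoPer2 (Real.digits y b) ρ A N₀) :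
    ∃ C : ℝ, 0 < C ∧ ∀ (b : ℕ) [NeZero b], 2 ≤ b → Pb b →
    ∀ (σ : Type) [Fintype σ] (M : NFA (Fin b) σ) (N : ℕ) (d : ℕ → Fin b),
      (List.range N).map d ∈ M.accepts →
        ((N : ℝ) / (C * (Fintype.card σ : ℝ) ^ 2)) ^ κ ≤
          2 ^ ((Finset.range N).filter fun i => d i ≠ Real.digits y b i).card *
          ({w : List (Fin b) | w ∈ M.accepts ∧ w.length = N}.ncard : ℝ) := by
  obtain ⟨C, hC, h'⟩ := main2 hρ hA hκ hρκ N₀
  refine ⟨C, hC, fun b _ hb hPb σ _ M N d hacc => ?_⟩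
  obtain ⟨W, hW1, hW2⟩ := h' (Fin b) σ (Real.digits y b) (h b hb hPb) d M N
    (by rw [seg_zero]; exact hacc)
    ((Finset.range N).filter fun i => d i ≠ Real.digits y b i) (by
      intro i hi hn
      by_contra hne
      exact hn (Finset.mem_filter.2 ⟨Finset.mem_range.2 hi, hne⟩))
  refine hW2.trans ?_
  have hfin : {w : List (Fin b) | w ∈ M.accepts ∧ w.length = N}.Finite :=
    (List.finite_length_eq (Fin b) N).subset fun w hw => hw.2
  have : ((W : Set (List (Fin b)))).ncard ≤ {w : List (Fin b) | w ∈ M.accepts ∧ w.length = N}.ncard :=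
    Set.ncard_le_ncard (fun w hw => ⟨(hW1 w hw).2, (hW1 w hw).1⟩) hfin
  rw [Set.ncard_coe_finset] at this
  rw [mul_comm]
  refine mul_le_mul_of_nonneg_left ?_ (by positivity)
  exact_mod_cast this

/-- irrational algebraic numbers: superpolynomially many accepted words -/
theorem alg_main {y : ℝ} (hy : 0 ≤ y) (halg : IsAlgebraic ℚ y) (hirr : Irrational y)
    (S : Finset ℕ) (hS : ∀ p ∈ S, p.Prime) (κ : ℝ) (hκ : 0 ≤ κ) :
    ∃ C : ℝ, 0 < C ∧ ∀ (b : ℕ) [NeZero b], 2 ≤ b → (∀ p : ℕ, p.Prime → p ∣ b → p ∈ S) →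
    ∀ (σ : Type) [Fintype σ] (M : NFA (Fin b) σ) (N : ℕ) (d : ℕ → Fin b),
      (List.range N).map d ∈ M.accepts →
        ((N : ℝ) / (C * (Fintype.card σ : ℝ) ^ 2)) ^ κ ≤
          2 ^ ((Finset.range N).filter fun i => d i ≠ Real.digits y b i).card *
          ({w : List (Fin b) | w ∈ M.accepts ∧ w.length = N}.ncard : ℝ) := by
  have hl2 : 0 < Real.log 2 := Real.log_pos (by norm_num)
  obtain ⟨ε, hε⟩ : ∃ ε : ℝ, ε = min (1 / 2) (Real.log 2 / (κ + 1)) := ⟨_, rfl⟩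
  have hε0 : 0 < ε := by rw [hε]; exact lt_min (by norm_num) (by positivity)
  have hε1 : ε ≤ 1 / 2 := by rw [hε]; exact min_le_left _ _
  have hε2 : ε ≤ Real.log 2 / (κ + 1) := by rw [hε]; exact min_le_right _ _
  obtain ⟨N₀, hN₀⟩ := alg_noPer hy halg hirr S hS ε hε0 hε1
  have hρκ : (1 + ε) ^ κ ≤ 2 := by
    have h1 : (1 + ε) ^ κ ≤ Real.exp ε ^ κ :=
      Real.rpow_le_rpow (by positivity) (by linarith [Real.add_one_le_exp ε]) hκ
    have h2 : Real.exp ε ^ κ = Real.exp (ε * κ) := (Real.exp_mul ε κ).symm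
    rw [h2] at h1
    refine h1.trans ?_
    rw [← Real.le_log_iff_exp_le (by norm_num)]
    rw [le_div_iff₀ (by positivity)] at hε2
    nlinarith
  exact digits_main2 (ρ := 1 + ε) (A := 5 / 2) (by linarith) (by norm_num) hκ hρκ N₀
    (fun b => ∀ p : ℕ, p.Prime → p ∣ b → p ∈ S) (fun b _ hb hPb => hN₀ b hb hPb)

end Pool.Agent.X1.NfaAlg
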