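import Mathlib
import Pool.Agent.X1.NfaAlg
import Pool.Agent.X3.NfaDigits

/-!
# Many accepted words: the two-parameter form

The variant of `Pool.Agent.X3.NfaGeo` for sequences whose stretches with period `s` beginning at `T`
end before `ρ T + A s`, with the explicit dependence on `ρ`.
-/

set_option autoImplicit false

namespace Pool.Agent.X1.NfaAlg

open Finset Pool.Agent.X3.NfaWords

/-- the beginnings of the regions -/
noncomputable def Bt (ρ A : ℝ) (l N₀ : ℕ) : ℕ → ℕ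
  | 0 => N₀
  | i + 1 => ⌈ρ * ((Bt ρ A l N₀ i : ℝ) + l) + A * l⌉₊ + 1 + l

lemma Bt_step {ρ A : ℝ} (hρ : 1 ≤ ρ) (hA : 0 ≤ A) (l N₀ i : ℕ) :
    Bt ρ A l N₀ i + 2 * l + 1 ≤ Bt ρ A l N₀ (i + 1) := by
  have h : ((Bt ρ A l N₀ i + l : ℕ) : ℝ) ≤ ρ * ((Bt ρ A l N₀ i : ℝ) + l) + A * l := by
    push_cast
    have h1 : (0 : ℝ) ≤ (Bt ρ A l N₀ i : ℝ) + l := by positivity
    have h2 : 0 ≤ A * (l : ℝ) := by positivity
    nlinarith
  have h2 : Bt ρ A l N₀ i + l ≤ ⌈ρ * ((Bt ρ A l N₀ i : ℝ) + l) + A * l⌉₊ := by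
    exact_mod_cast h.trans (Nat.le_ceil _)
  show _ ≤ ⌈ρ * ((Bt ρ A l N₀ i : ℝ) + l) + A * l⌉₊ + 1 + l
  omega

lemma Bt_mono {ρ A : ℝ} (hρ : 1 ≤ ρ) (hA : 0 ≤ A) (l N₀ : ℕ) : StrictMono (Bt ρ A l N₀) :=
  strictMono_nat_of_lt_succ fun i => by
    have := Bt_step hρ hA l N₀ i
    omega

lemma Bt_ge {ρ A : ℝ} (hρ : 1 ≤ ρ) (hA : 0 ≤ A) (l N₀ i : ℕ) : N₀ ≤ Bt ρ A l N₀ i :=
  (Bt_mono hρ hA l N₀).monotone (Nat.zero_le i)

lemma Bt_le {ρ A B : ℝ} (hρ : 1 < ρ) (hA : 0 ≤ A) (hB : B * (ρ - 1) = ρ + A + 3) {l : ℕ}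
    (hl : 1 ≤ l) (N₀ i : ℕ) :
    (Bt ρ A l N₀ i : ℝ) + B * l ≤ ρ ^ i * (N₀ + B * l) := by
  induction i with
  | zero => simp [Bt]
  | succ i ih =>
    have hlR : (1 : ℝ) ≤ l := by exact_mod_cast hl
    have h1 : ((Bt ρ A l N₀ (i + 1) : ℕ) : ℝ) ≤
        ρ * ((Bt ρ A l N₀ i : ℝ) + l) + A * l + 1 + 1 + l := by
      show ((⌈ρ * ((Bt ρ A l N₀ i : ℝ) + l) + A * l⌉₊ + 1 + l : ℕ) : ℝ) ≤ _
      push_cast
      have := Nat.ceil_lt_add_one (show 0 ≤ ρ * ((Bt ρ A l N₀ i : ℝ) + l) + A * l by positivity)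
      linarith
    have h3 : (Bt ρ A l N₀ (i + 1) : ℝ) + B * l ≤ ρ * ((Bt ρ A l N₀ i : ℝ) + B * l) := by
      have e : B * ρ = ρ + A + 3 + B := by linarith
      have e2 : ρ * ((Bt ρ A l N₀ i : ℝ) + B * l) = ρ * (Bt ρ A l N₀ i : ℝ) + (B * ρ) * l := by
        ring
      rw [e2, e]
      nlinarith
    calc _ ≤ ρ * ((Bt ρ A l N₀ i : ℝ) + B * l) := h3
      _ ≤ ρ * (ρ ^ i * (N₀ + B * l)) := mul_le_mul_of_nonneg_left ih (by linarith)
      _ = _ := by ring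

variable {α σ : Type}

/-- Bernoulli -/
lemma bern {ρ : ℝ} (hρ : 1 ≤ ρ) (K : ℕ) : 1 + K * (ρ - 1) ≤ ρ ^ K := by
  have := one_add_mul_le_pow (a := ρ - 1) (by linarith) K
  have e : 1 + (ρ - 1) = ρ := by ring
  rwa [e] at this

/-- **Many words, parametric form.** -/
theorem many_geo2 {ρ A : ℝ} (hρ : 1 < ρ) (hA : 0 ≤ A) (N₀ : ℕ) :
    ∃ D : ℝ, 1 ≤ D ∧ ∀ (α σ : Type) [Fintype σ] (z : ℕ → α), NoPer2 z ρ A N₀ →
      ∀ (x : ℕ → α) (M : NFA α σ) (N : ℕ), seg x 0 N ∈ M.accepts →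
        ∀ E : Finset ℕ, (∀ i, i < N → i ∉ E → x i = z i) → ∀ K : ℕ, 1 ≤ K →
        ∃ W : Finset (List α), (∀ w ∈ W, w.length = N ∧ w ∈ M.accepts) ∧
          ((N : ℝ) / (D * ρ ^ (K + E.card) * (Fintype.card σ : ℝ))) ^ K ≤ N * W.card := by
  classical
  obtain ⟨B, hB⟩ : ∃ B : ℝ, B = (ρ + A + 3) / (ρ - 1) := ⟨_, rfl⟩
  have hρ1 : 0 < ρ - 1 := by linarith
  have hB1 : B * (ρ - 1) = ρ + A + 3 := by rw [hB]; field_simp
  have hB0 : 0 < B := by rw [hB]; positivity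
  obtain ⟨D, hD⟩ : ∃ D : ℝ, D = N₀ + B + 4 / (ρ - 1) + 1 := ⟨_, rfl⟩
  have hN₀R : (0 : ℝ) ≤ N₀ := Nat.cast_nonneg _
  have h4ρ : 0 < 4 / (ρ - 1) := by positivity
  have hD1 : 1 ≤ D := by rw [hD]; linarith
  have hDB : N₀ + B ≤ D := by rw [hD]; linarith
  have hD4 : 4 / (ρ - 1) ≤ D := by rw [hD]; linarith
  have hD0 : 0 < D := by linarith
  have hD4K : ∀ n K : ℕ, K ≤ n → 4 * (K : ℝ) ≤ D * ρ ^ n := by
    intro n K hKn
    have h1 := bern hρ.le K
    have h2 : ρ ^ K ≤ ρ ^ n := pow_le_pow_right₀ hρ.le hKn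
    have h3 : 4 / (ρ - 1) * (1 + K * (ρ - 1)) = 4 / (ρ - 1) + 4 * K := by field_simp
    have h4 : 4 / (ρ - 1) * (1 + K * (ρ - 1)) ≤ D * ρ ^ n :=
      mul_le_mul hD4 (h1.trans h2) (by positivity) hD0.le
    linarith
  refine ⟨D, hD1, ?_⟩
  intro α σ _ z hz x M N hacc E hE K hK
  rw [NFA.accepts_iff_exists_path] at hacc
  obtain ⟨s, hs, t, ht, ⟨p⟩⟩ := hacc
  obtain ⟨f, hf0, hfN, hf⟩ := run_of_P N 0 s t (by simpa using P_of_path p)
  rw [Nat.zero_add] at hfN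
  have hrun : Run M x f N := fun i hi => hf i (Nat.zero_le _) (by omega)
  have hacc' : ∀ w, P M s w t → w ∈ M.accepts := by
    intro w hw
    rw [NFA.accepts_iff_exists_path]
    exact ⟨s, hs, t, ht, path_of_P hw⟩
  obtain ⟨q, hqe⟩ : ∃ q, q = Fintype.card σ := ⟨_, rfl⟩
  have hq : 1 ≤ q := by rw [hqe]; exact Fintype.card_pos_iff.2 ⟨s⟩
  have hqR : (1 : ℝ) ≤ q := by exact_mod_cast hq
  rw [← hqe]
  obtain ⟨k, hk⟩ : ∃ k, k = E.card := ⟨_, rfl⟩
  rw [← hk]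
  obtain ⟨X, hX⟩ : ∃ X : ℝ, X = (N : ℝ) / (D * ρ ^ (K + k) * (q : ℝ)) := ⟨_, rfl⟩
  rw [← hX]
  have hρ0 : (0 : ℝ) < ρ := by linarith
  have hCk : (0 : ℝ) < D * ρ ^ (K + k) := by positivity
  have hX0 : 0 ≤ X := by rw [hX]; positivity
  -- the trivial set
  have htriv : X ^ K ≤ N → ∃ W : Finset (List α), (∀ w ∈ W, w.length = N ∧ w ∈ M.accepts) ∧
      X ^ K ≤ N * W.card := by
    intro h
    refine ⟨{seg x 0 N}, fun w hw => ?_, by rw [card_singleton]; simpa using h⟩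
    rw [mem_singleton] at hw
    subst hw
    exact ⟨by rw [seg_length]; omega, hacc' _ (by simpa using P_of_path p)⟩
  rcases Nat.eq_zero_or_pos N with hN0 | hNpos
  · apply htriv
    rw [hX, hN0]
    simp [show K ≠ 0 by omega]
  have hN1 : (1 : ℝ) ≤ N := by exact_mod_cast hNpos
  rcases le_or_gt X 1 with hX1 | hX1
  · apply htriv
    exact (pow_le_one₀ hX0 hX1).trans hN1
  -- the length of the regions
  obtain ⟨l, hl⟩ : ∃ l : ℕ, l = ⌊(N : ℝ) / (D * ρ ^ (K + k))⌋₊ := ⟨_, rfl⟩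
  have hNC : (N : ℝ) / (D * ρ ^ (K + k)) = X * q := by
    rw [hX]; field_simp
  have hl1 : (l : ℝ) ≤ N / (D * ρ ^ (K + k)) := by rw [hl]; exact Nat.floor_le (by positivity)
  have hl2 : (N : ℝ) / (D * ρ ^ (K + k)) < l + 1 := by rw [hl]; exact Nat.lt_floor_add_one _
  have hl3 : 1 ≤ l := by
    rw [hl]
    apply Nat.le_floor
    rw [hNC]
    push_cast
    nlinarith
  have hlR : (1 : ℝ) ≤ l := by exact_mod_cast hl3
  have hlN : (l : ℝ) * (D * ρ ^ (K + k)) ≤ N := by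
    rwa [le_div_iff₀ hCk] at hl1
  -- all regions are before `N`
  have hBN : Bt ρ A l N₀ (K + k) ≤ N := by
    have h1 := Bt_le hρ hA hB1 hl3 N₀ (K + k)
    have h2 : (Bt ρ A l N₀ (K + k) : ℝ) ≤ N := by
      have h3 : (N₀ : ℝ) + B * l ≤ (N₀ + B) * l := by nlinarith
      have h7 : (0 : ℝ) ≤ B * l := by positivity
      have h8 : (0 : ℝ) ≤ ρ ^ (K + k) := by positivity
      calc (Bt ρ A l N₀ (K + k) : ℝ) ≤ ρ ^ (K + k) * (N₀ + B * l) := by linarith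
        _ ≤ ρ ^ (K + k) * ((N₀ + B) * l) := mul_le_mul_of_nonneg_left h3 h8
        _ ≤ ρ ^ (K + k) * (D * l) :=
            mul_le_mul_of_nonneg_left (mul_le_mul_of_nonneg_right hDB (by linarith)) h8
        _ = l * (D * ρ ^ (K + k)) := by ring
        _ ≤ N := hlN
    exact_mod_cast h2
  have hBmono := Bt_mono hρ.le hA l N₀
  -- the good regions
  obtain ⟨G, hG⟩ : ∃ G : Finset ℕ, G = (range (K + k)).filter fun i =>
      ∀ e ∈ E, ¬ (Bt ρ A l N₀ i ≤ e ∧ e < Bt ρ A l N₀ (i + 1)) := ⟨_, rfl⟩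
  have hGcard : K ≤ G.card := by
    have h1 : ((range (K + k)).filter fun i =>
        ¬ ∀ e ∈ E, ¬ (Bt ρ A l N₀ i ≤ e ∧ e < Bt ρ A l N₀ (i + 1))).card ≤ E.card := by
      have hch : ∀ i ∈ (range (K + k)).filter (fun i =>
          ¬ ∀ e ∈ E, ¬ (Bt ρ A l N₀ i ≤ e ∧ e < Bt ρ A l N₀ (i + 1))),
          ∃ e ∈ E, Bt ρ A l N₀ i ≤ e ∧ e < Bt ρ A l N₀ (i + 1) := by
        intro i hi
        have := (mem_filter.1 hi).2
        push Not at this
        exact this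
      choose! g hg1 hg2 using hch
      refine card_le_card_of_injOn g (fun i hi => hg1 i hi) ?_
      intro i hi j hj he
      have a1 := hg2 i hi
      have a2 := hg2 j hj
      rw [he] at a1
      rcases lt_trichotomy i j with h | h | h
      · have := hBmono.monotone (show i + 1 ≤ j by omega)
        omega
      · exact h
      · have := hBmono.monotone (show j + 1 ≤ i by omega)
        omega
    have h2 := card_filter_add_card_filter_not (s := range (K + k)) (fun i =>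
      ∀ e ∈ E, ¬ (Bt ρ A l N₀ i ≤ e ∧ e < Bt ρ A l N₀ (i + 1)))
    rw [card_range] at h2
    rw [hG]
    omega
  obtain ⟨g, hg⟩ : ∃ g : Fin K ↪o ℕ, g = G.orderEmbOfCardLe hGcard := ⟨_, rfl⟩
  have hgm : ∀ i, g i ∈ G := by
    intro i
    rw [hg]
    exact orderEmbOfCardLe_mem _ _ _
  have hgK : ∀ i, g i < K + k := by
    intro i
    have := hgm i
    rw [hG, mem_filter, mem_range] at this
    exact this.1
  obtain ⟨a, ha⟩ : ∃ a : ℕ → ℕ, a = fun m => if h : m < K then Bt ρ A l N₀ (g ⟨m, h⟩) else N :=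
    ⟨_, rfl⟩
  have ha1 : ∀ m (h : m < K), a m = Bt ρ A l N₀ (g ⟨m, h⟩) := by
    intro m h
    rw [ha]
    simp [h]
  have haK : a K = N := by
    rw [ha]
    simp
  have hnext : ∀ m (h : m < K), Bt ρ A l N₀ (g ⟨m, h⟩ + 1) ≤ a (m + 1) := by
    intro m h
    rcases Nat.lt_or_ge (m + 1) K with h2 | h2
    · rw [ha1 _ h2]
      apply hBmono.monotone
      have : g ⟨m, h⟩ < g ⟨m + 1, h2⟩ := g.strictMono (by simp)
      omega
    · have : m + 1 = K := by omega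
      rw [this, haK]
      refine le_trans (hBmono.monotone ?_) hBN
      have := hgK ⟨m, h⟩
      omega
  have hsep : ∀ i, i < K → a i + l ≤ a (i + 1) ∧ Sep x l (a i) (a (i + 1)) := by
    intro i hi
    have h1 := hnext i hi
    have h2 := Bt_step hρ.le hA l N₀ (g ⟨i, hi⟩)
    rw [ha1 i hi]
    refine ⟨by omega, ?_⟩
    intro u s' hu1 hu2 hs1 hs2
    have hGi := hgm ⟨i, hi⟩
    rw [hG, mem_filter] at hGi
    obtain ⟨j, hj1, hj2, hj3⟩ := hz u ((Bt_ge hρ.le hA l N₀ _).trans hu1) s' hs1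
    have hj4 : ((j + s' : ℕ) : ℝ) ≤
        (⌈ρ * ((Bt ρ A l N₀ (g ⟨i, hi⟩) : ℝ) + l) + A * l⌉₊ : ℝ) := by
      refine hj2.trans (le_trans ?_ (Nat.le_ceil _))
      have b1 : (u : ℝ) ≤ Bt ρ A l N₀ (g ⟨i, hi⟩) + l := by exact_mod_cast hu2
      have b2 : (s' : ℝ) ≤ l := by exact_mod_cast hs2
      have b3 := mul_le_mul_of_nonneg_left b1 hρ0.le
      have b4 := mul_le_mul_of_nonneg_left b2 hA
      linarith
    have hj5 : j + s' ≤ ⌈ρ * ((Bt ρ A l N₀ (g ⟨i, hi⟩) : ℝ) + l) + A * l⌉₊ := by exact_mod_cast hj4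
    have hj6 : j + s' < Bt ρ A l N₀ (g ⟨i, hi⟩ + 1) := by
      show _ < ⌈ρ * ((Bt ρ A l N₀ (g ⟨i, hi⟩) : ℝ) + l) + A * l⌉₊ + 1 + l
      omega
    have hBl : Bt ρ A l N₀ (g ⟨i, hi⟩ + 1) ≤ N :=
      le_trans (hBmono.monotone (by have := hgK ⟨i, hi⟩; omega)) hBN
    have hxz : ∀ n, Bt ρ A l N₀ (g ⟨i, hi⟩) ≤ n → n < Bt ρ A l N₀ (g ⟨i, hi⟩ + 1) → x n = z n := by
      intro n hn1 hn2
      refine hE n (by omega) fun hmem => ?_
      exact hGi.2 n hmem ⟨hn1, hn2⟩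
    refine ⟨j, hj1, by omega, ?_⟩
    rw [hxz (j + s') (by omega) hj6, hxz j (by omega) (by omega)]
    exact hj3
  obtain ⟨W, hW1, hW2⟩ := regions hrun K l ⌈X⌉₊ a haK.le hsep (by
    intro n hn
    apply Nat.ceil_le.2
    rw [← hqe] at hn
    have hnR : ((l : ℝ) + 1) ≤ n * q := by exact_mod_cast hn
    rw [hNC] at hl2
    have : X * q < n * q := by linarith
    exact (lt_of_mul_lt_mul_right this (by linarith)).le)
  rcases Nat.eq_zero_or_pos W.card with hWc | hWc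
  · -- the bound is trivial
    apply htriv
    rw [hWc] at hW2
    have h1 : ⌈X⌉₊ ^ K < K * l + 1 := by
      by_contra hcon
      push Not at hcon
      have := Nat.div_pos hcon (by omega)
      omega
    have h2 : X ^ K ≤ (⌈X⌉₊ : ℝ) ^ K := pow_le_pow_left₀ hX0 (Nat.le_ceil _) _
    have h3 : ((⌈X⌉₊ ^ K : ℕ) : ℝ) ≤ ((K * l : ℕ) : ℝ) := by exact_mod_cast (by omega)
    push_cast at h3
    have h4 : (K : ℝ) * l ≤ N := by
      have h5 : (K : ℝ) ≤ D * ρ ^ (K + k) := by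
        have := hD4K (K + k) K (by omega)
        have h6 : (0 : ℝ) ≤ K := Nat.cast_nonneg _
        linarith
      calc (K : ℝ) * l ≤ (D * ρ ^ (K + k)) * l := mul_le_mul_of_nonneg_right h5 (by linarith)
        _ = l * (D * ρ ^ (K + k)) := by ring
        _ ≤ N := hlN
    linarith
  · refine ⟨W, fun w hw => ⟨(hW1 w hw).1, hacc' _ ?_⟩, ?_⟩
    · have := (hW1 w hw).2
      rwa [hf0, hfN] at this
    · have h1 : ⌈X⌉₊ ^ K < (K * l + 1) * (W.card + 1) := by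
        calc ⌈X⌉₊ ^ K < (K * l + 1) * (⌈X⌉₊ ^ K / (K * l + 1) + 1) :=
              Nat.lt_mul_div_succ _ (by omega)
          _ ≤ _ := Nat.mul_le_mul_left _ (by omega)
      have h2 : X ^ K ≤ (⌈X⌉₊ : ℝ) ^ K := pow_le_pow_left₀ hX0 (Nat.le_ceil _) _
      have h3 : ((⌈X⌉₊ ^ K : ℕ) : ℝ) ≤ (((K * l + 1) * (W.card + 1) : ℕ) : ℝ) := by
        exact_mod_cast h1.le
      push_cast at h3
      have hWR : (1 : ℝ) ≤ W.card := by exact_mod_cast hWc
      have hKR : (1 : ℝ) ≤ K := by exact_mod_cast hK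
      have h4 : 4 * ((K : ℝ) * l) ≤ N := by
        have h5 := hD4K (K + k) K (by omega)
        calc 4 * ((K : ℝ) * l) = (4 * K) * l := by ring
          _ ≤ (D * ρ ^ (K + k)) * l := mul_le_mul_of_nonneg_right h5 (by linarith)
          _ = l * (D * ρ ^ (K + k)) := by ring
          _ ≤ N := hlN
      have h6 : (1 : ℝ) ≤ (K : ℝ) * l := by nlinarith
      calc X ^ K ≤ ((K : ℝ) * l + 1) * (W.card + 1) := h2.trans h3
        _ ≤ (2 * ((K : ℝ) * l)) * (2 * W.card) := by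
            apply mul_le_mul <;> first | positivity | linarith
        _ = (4 * ((K : ℝ) * l)) * W.card := by ring
        _ ≤ N * W.card := mul_le_mul_of_nonneg_right h4 (by linarith)

/-- from the parametric bound to the number of states -/
theorem num_states2 {ρ c D : ℝ} (hρ : 1 < ρ) (hc : 2 * √(Real.log ρ) < c) (hD : 1 ≤ D) :
    ∃ N₁ : ℕ, ∀ N q : ℕ, N₁ ≤ N → 1 ≤ q →
    (∀ K : ℕ, 1 ≤ K → ((N : ℝ) / (D * ρ ^ K * (q : ℝ))) ^ K ≤ N) →
    (N : ℝ) * Real.exp (-(c * √(Real.log N))) ≤ q := by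
  obtain ⟨a, ha⟩ : ∃ a, a = Real.log ρ := ⟨_, rfl⟩
  have ha0 : 0 < a := by rw [ha]; exact Real.log_pos hρ
  rw [← ha] at hc
  obtain ⟨η, hη⟩ : ∃ η, η = c - 2 * √a := ⟨_, rfl⟩
  have hη0 : 0 < η := by rw [hη]; linarith
  have hlD : 0 ≤ Real.log D := Real.log_nonneg hD
  refine ⟨⌈Real.exp (((Real.log D + a) / η) ^ 2 + 1)⌉₊, fun N q hN hq h => ?_⟩
  have hqR : (1 : ℝ) ≤ q := by exact_mod_cast hq
  have hN2 : Real.exp (((Real.log D + a) / η) ^ 2 + 1) ≤ N :=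
    (Nat.le_ceil _).trans (by exact_mod_cast hN)
  have hN0 : (0 : ℝ) < N := lt_of_lt_of_le (Real.exp_pos _) hN2
  obtain ⟨L, hL⟩ : ∃ L, L = Real.log N := ⟨_, rfl⟩
  have hLge : ((Real.log D + a) / η) ^ 2 + 1 ≤ L := by
    rw [hL]
    have := Real.log_le_log (Real.exp_pos _) hN2
    rwa [Real.log_exp] at this
  have hsq : 0 ≤ ((Real.log D + a) / η) ^ 2 := sq_nonneg _
  have hL1 : 1 ≤ L := by linarith
  have hL0 : 0 < L := by linarith
  have hLD : Real.log D + a ≤ η * √L := by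
    have h1 : (Real.log D + a) / η ≤ √L := by
      apply Real.le_sqrt_of_sq_le
      linarith
    rw [div_le_iff₀ hη0] at h1
    linarith
  have hNL : (N : ℝ) = Real.exp L := by rw [hL, Real.exp_log hN0]
  have hgoal : L - c * √L ≤ Real.log q → (N : ℝ) * Real.exp (-(c * √L)) ≤ q := by
    intro h1
    rw [hNL, ← Real.exp_add]
    calc Real.exp (L + -(c * √L)) ≤ Real.exp (Real.log q) := Real.exp_le_exp.2 (by linarith)
      _ = q := Real.exp_log (by linarith)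
  rw [← hL]
  apply hgoal
  have hsa : 0 < √a := Real.sqrt_pos.2 ha0
  have hsL : 0 < √L := Real.sqrt_pos.2 hL0
  obtain ⟨K, hK⟩ : ∃ K : ℕ, K = ⌈√L / √a⌉₊ := ⟨_, rfl⟩
  have hK1 : √L / √a ≤ K := by rw [hK]; exact Nat.le_ceil _
  have hK2 : (K : ℝ) < √L / √a + 1 := by rw [hK]; exact Nat.ceil_lt_add_one (by positivity)
  have hKR : (0 : ℝ) < K := lt_of_lt_of_le (by positivity) hK1
  have hKpos : 1 ≤ K := by exact_mod_cast hKR
  have h2 := h K hKpos
  have h3 := Real.log_le_log (by positivity) h2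
  rw [Real.log_pow, Real.log_div (by positivity) (by positivity),
    Real.log_mul (by positivity) (by positivity), Real.log_mul (by positivity) (by positivity),
    Real.log_pow, ← hL, ← ha] at h3
  have h4 : L - (Real.log D + (K : ℝ) * a + Real.log q) ≤ L / K := by
    rw [le_div_iff₀ hKR]
    linarith
  have haa : √a * √a = a := Real.mul_self_sqrt ha0.le
  have hLL : √L * √L = L := Real.mul_self_sqrt hL0.le
  have h5 : L / K ≤ √a * √L := by
    rw [div_le_iff₀ hKR]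
    rw [div_le_iff₀ hsa] at hK1
    calc L = √L * √L := hLL.symm
      _ ≤ √L * (K * √a) := mul_le_mul_of_nonneg_left hK1 hsL.le
      _ = √a * √L * K := by ring
  have h6 : (K : ℝ) * a ≤ √a * √L + a := by
    have h7 : (K : ℝ) * a ≤ (√L / √a + 1) * a := mul_le_mul_of_nonneg_right hK2.le ha0.le
    have h8 : (√L / √a + 1) * a = √a * √L + a := by
      rw [add_mul, one_mul]
      congr 1
      rw [div_mul_eq_mul_div, div_eq_iff hsa.ne']
      calc √L * a = √L * (√a * √a) := by rw [haa]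
        _ = √a * √L * √a := by ring
    linarith
  have hηc : c * √L = η * √L + 2 * (√a * √L) := by rw [hη]; ring
  linarith

/-- from the parametric bound to many words -/
theorem num_words2 {ρ δ κ e c D : ℝ} (hρ : 1 < ρ) (hκ : 0 < κ)
    (hc : c < κ * (δ - (κ + e) * Real.log ρ)) (hc0 : 0 ≤ c) (hD : 1 ≤ D) :
    ∃ N₁ : ℕ, ∀ N q k : ℕ, N₁ ≤ N → 1 ≤ q → (q : ℝ) ≤ (N : ℝ) ^ (1 - δ) →
      (k : ℝ) ≤ e * Real.log N → ∀ m : ℝ, 0 < m →
      (∀ K : ℕ, 1 ≤ K → ((N : ℝ) / (D * ρ ^ (K + k) * (q : ℝ))) ^ K ≤ N * m) →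
      Real.exp (c * Real.log N ^ 2) ≤ m := by
  obtain ⟨a, ha⟩ : ∃ a, a = Real.log ρ := ⟨_, rfl⟩
  have ha0 : 0 < a := by rw [ha]; exact Real.log_pos hρ
  rw [← ha] at hc
  have hlD : 0 ≤ Real.log D := Real.log_nonneg hD
  obtain ⟨θ, hθ⟩ : ∃ θ, θ = δ - (κ + e) * a := ⟨_, rfl⟩
  rw [← hθ] at hc
  have hθ0 : 0 < θ := by
    by_contra hcon
    push Not at hcon
    nlinarith
  obtain ⟨η, hη⟩ : ∃ η, η = κ * θ - c := ⟨_, rfl⟩
  have hη0 : 0 < η := by rw [hη]; linarith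
  obtain ⟨R, hR⟩ : ∃ R, R = (κ * (Real.log D + a) + 1) / η + (Real.log D + a) / θ + 1 := ⟨_, rfl⟩
  refine ⟨⌈Real.exp R⌉₊, fun N q k hN hq hqN hk m hm h => ?_⟩
  have hqR : (1 : ℝ) ≤ q := by exact_mod_cast hq
  have hN2 : Real.exp R ≤ N := (Nat.le_ceil _).trans (by exact_mod_cast hN)
  have hN0 : (0 : ℝ) < N := lt_of_lt_of_le (Real.exp_pos _) hN2
  obtain ⟨L, hL⟩ : ∃ L, L = Real.log N := ⟨_, rfl⟩
  have hLge : R ≤ L := by
    rw [hL]
    have := Real.log_le_log (Real.exp_pos _) hN2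
    rwa [Real.log_exp] at this
  have h1' : 0 ≤ (κ * (Real.log D + a) + 1) / η := by positivity
  have h2' : 0 ≤ (Real.log D + a) / θ := by positivity
  have hL0 : 0 < L := by rw [hR] at hLge; linarith
  have hLa : κ * (Real.log D + a) + 1 ≤ η * L := by
    have : (κ * (Real.log D + a) + 1) / η ≤ L := by rw [hR] at hLge; linarith
    rw [div_le_iff₀ hη0] at this
    linarith
  have hLb : Real.log D + a ≤ θ * L := by
    have : (Real.log D + a) / θ ≤ L := by rw [hR] at hLge; linarith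
    rw [div_le_iff₀ hθ0] at this
    linarith
  rw [← hL] at hk ⊢
  obtain ⟨K, hK⟩ : ∃ K : ℕ, K = ⌈κ * L⌉₊ := ⟨_, rfl⟩
  have hK1 : κ * L ≤ K := by rw [hK]; exact Nat.le_ceil _
  have hK2 : (K : ℝ) < κ * L + 1 := by rw [hK]; exact Nat.ceil_lt_add_one (by positivity)
  have hKR : (0 : ℝ) < K := lt_of_lt_of_le (by positivity) hK1
  have hKpos : 1 ≤ K := by exact_mod_cast hKR
  have h2 := h K hKpos
  have h3 := Real.log_le_log (by positivity) h2
  rw [Real.log_pow, Real.log_div (by positivity) (by positivity),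
    Real.log_mul (by positivity) (by positivity), Real.log_mul (by positivity) (by positivity),
    Real.log_pow, Real.log_mul (by positivity) hm.ne', ← hL, ← ha] at h3
  push_cast at h3
  have hlq : Real.log q ≤ (1 - δ) * L := by
    have := Real.log_le_log (by linarith) hqN
    rwa [Real.log_rpow hN0, ← hL] at this
  have h5 : ((K : ℝ) + k) * a ≤ (κ + e) * a * L + a := by
    have a1 : ((K : ℝ) + k) * a ≤ (κ * L + 1 + e * L) * a :=
      mul_le_mul_of_nonneg_right (by linarith) ha0.le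
    linarith
  have h6 : θ * L - (Real.log D + a) ≤
      L - (Real.log D + ((K : ℝ) + k) * a + Real.log q) := by
    have e1 : θ * L = δ * L - (κ + e) * a * L := by rw [hθ]; ring
    linarith
  have h7 : (κ * L) * (θ * L - (Real.log D + a)) ≤
      K * (L - (Real.log D + ((K : ℝ) + k) * a + Real.log q)) :=
    mul_le_mul hK1 h6 (by linarith) hKR.le
  have h8 : (κ * L) * (θ * L - (Real.log D + a)) = (κ * θ) * L ^ 2 - κ * (Real.log D + a) * L := by
    ring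
  have h9 : (κ * (Real.log D + a) + 1) * L ≤ η * L * L := mul_le_mul_of_nonneg_right hLa hL0.le
  have h10 : κ * θ = c + η := by rw [hη]; ring
  have h11 : c * L ^ 2 ≤ Real.log m := by
    rw [h10] at h8
    nlinarith
  calc Real.exp (c * L ^ 2) ≤ Real.exp (Real.log m) := Real.exp_le_exp.2 h11
    _ = m := Real.exp_log hm

end Pool.Agent.X1.NfaAlg
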