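import Mathlib
import Pool.Agent.X1.NfaAlg

/-!
# Automata which accept a single word of a given length

If the periodic stretches of a sequence are short, then an automaton which accepts the first `N`
terms and no other word of length `N` has more than `K √N` states, for every `K` and all large `N`.
-/

set_option autoImplicit false

namespace Pool.Agent.X1.NfaAlg

open Finset Pool.Agent.X3.NfaWords

variable {α σ : Type}

/-- the automaton accepts a single word of length `N` -/
structure Uniq (M : NFA α σ) (z : ℕ → α) (f : ℕ → σ) (N : ℕ) : Prop where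
  run : Run M z f N
  uniq : ∀ w : List α, P M (f 0) w (f N) → w.length = N → w = seg z 0 N

lemma Uniq.swap {M : NFA α σ} {z : ℕ → α} {f : ℕ → σ} {N : ℕ} (h : Uniq M z f N) {a b c : ℕ}
    (hab : a ≤ b) (hbc : b ≤ c) (hc : c ≤ N) (e1 : f a = f b) (e2 : f b = f c) :
    seg z a b ++ seg z b c = seg z b c ++ seg z a b := by
  have p0 := P_of_run h.run (Nat.zero_le a) (by omega)
  have p1 := P_of_run h.run hab (by omega)
  have p2 := P_of_run h.run hbc hc
  have p3 := P_of_run h.run hc le_rfl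
  rw [← e1] at p1
  rw [← e2, ← e1] at p2
  rw [← e2, ← e1] at p3
  have hw := h.uniq (seg z 0 a ++ ((seg z b c ++ seg z a b) ++ seg z c N))
    (P_append p0 (P_append (P_append p2 p1) p3)) (by
      simp only [List.length_append, seg_length]; omega)
  have e : seg z 0 N = seg z 0 a ++ ((seg z a b ++ seg z b c) ++ seg z c N) := by
    rw [seg_append z hab hbc, seg_append z (by omega) hc, seg_append z (Nat.zero_le _) (by omega)]
  rw [e] at hw
  exact (List.append_cancel_right (List.append_cancel_left hw)).symm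

lemma Uniq.per {M : NFA α σ} {z : ℕ → α} {f : ℕ → σ} {N : ℕ} (h : Uniq M z f N) {a b c : ℕ}
    (hab : a ≤ b) (hbc : b ≤ c) (hc : c ≤ N) (e1 : f a = f b) (e2 : f b = f c) :
    (∀ i, a ≤ i → i + (b - a) < c → z (i + (b - a)) = z i) ∧
    (∀ i, a ≤ i → i + (c - b) < c → z (i + (c - b)) = z i) := by
  have hs := h.swap hab hbc hc e1 e2
  constructor
  · intro i hi hic
    have h1 : (seg z a b ++ seg z b c)[i - a]? = some (z i) := by
      rw [seg_append z hab hbc, seg_get z a c _ (by omega)]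
      congr 2; omega
    rw [hs, List.getElem?_append_left (by rw [seg_length]; omega), seg_get z b c _ (by omega)] at h1
    have h2 := Option.some.inj h1
    rw [← h2]
    congr 1; omega
  · intro i hi hic
    have h1 : (seg z a b ++ seg z b c)[i - a + (c - b)]? = some (z (i + (c - b))) := by
      rw [seg_append z hab hbc, seg_get z a c _ (by omega)]
      congr 2; omega
    rw [hs, List.getElem?_append_right (by rw [seg_length]; omega), seg_length,
      seg_get z a b _ (by omega)] at h1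
    have h2 := Option.some.inj h1
    rw [← h2]
    congr 1; omega

/-- four visits of the same state are close to each other -/
lemma Uniq.four {M : NFA α σ} {z : ℕ → α} {f : ℕ → σ} {N N₀ : ℕ} (h : Uniq M z f N) {ε : ℝ}
    (hz : NoPer2 z (1 + ε) (5 / 2) N₀) {a b c d : ℕ} (ha : N₀ ≤ a)
    (hab : a < b) (hbc : b < c) (hcd : c < d) (hd : d ≤ N) (e1 : f a = f b) (e2 : f b = f c)
    (e3 : f c = f d) : ((d : ℝ) - a) ≤ 6 * (ε * a) := by
  obtain ⟨g, hg0, hg, hper⟩ : ∃ g, 1 ≤ g ∧ 3 * g ≤ d - a ∧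
      ∀ i, a ≤ i → i + g < d → z (i + g) = z i := by
    rcases le_or_gt (b - a) (c - b) with h1 | h1
    · rcases le_or_gt (b - a) (d - c) with h2 | h2
      · exact ⟨b - a, by omega, by omega,
          (h.per hab.le (by omega) hd e1 (e2.trans e3)).1⟩
      · exact ⟨d - c, by omega, by omega,
          (h.per (a := a) (b := c) (c := d) (by omega) hcd.le hd (e1.trans e2) e3).2⟩
    · rcases le_or_gt (c - b) (d - c) with h2 | h2
      · refine ⟨c - b, by omega, by omega, fun i hi hid => ?_⟩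
        rcases le_or_gt b i with h3 | h3
        · exact (h.per hbc.le hcd.le hd e2 e3).1 i h3 hid
        · exact (h.per hab.le hbc.le (by omega) e1 e2).2 i hi (by omega)
      · exact ⟨d - c, by omega, by omega,
          (h.per (a := a) (b := c) (c := d) (by omega) hcd.le hd (e1.trans e2) e3).2⟩
  obtain ⟨i, hi1, hi2, hi3⟩ := hz a ha g hg0
  have h1 : d ≤ i + g := by
    by_contra hcon
    exact hi3 (hper i hi1 (by omega))
  have h2 : (d : ℝ) ≤ ((i + g : ℕ) : ℝ) := by exact_mod_cast h1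
  have h3 : (3 : ℝ) * g ≤ d - a := by
    have : 3 * g + a ≤ d := by omega
    have : (3 : ℝ) * g + a ≤ d := by exact_mod_cast this
    linarith
  linarith

/-- a state visited at least four times is visited in a short interval -/
lemma Uniq.span {M : NFA α σ} {z : ℕ → α} {f : ℕ → σ} {N N₀ : ℕ} (h : Uniq M z f N) {ε : ℝ}
    (hε : 0 ≤ ε) (hz : NoPer2 z (1 + ε) (5 / 2) N₀) {a : ℕ} (ha : N₀ ≤ a) (V : Finset ℕ) (v : σ)
    (hV : ∀ t ∈ V, a ≤ t ∧ t < N ∧ f t = v) (hcard : 4 ≤ V.card) {t t' : ℕ} (ht : t ∈ V)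
    (ht' : t' ∈ V) : ((t' : ℝ) - t) ≤ 6 * (ε * N) := by
  have hne : V.Nonempty := ⟨t, ht⟩
  obtain ⟨p, hp⟩ : ∃ p, p = V.min' hne := ⟨_, rfl⟩
  obtain ⟨r, hr⟩ : ∃ r, r = V.max' hne := ⟨_, rfl⟩
  have hpV : p ∈ V := by rw [hp]; exact V.min'_mem hne
  have hrV : r ∈ V := by rw [hr]; exact V.max'_mem hne
  have hple : ∀ x ∈ V, p ≤ x := fun x hx => by rw [hp]; exact V.min'_le x hx
  have hler : ∀ x ∈ V, x ≤ r := fun x hx => by rw [hr]; exact V.le_max' x hx
  have hc2 : 1 < ((V.erase p).erase r).card := by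
    have h1 := card_erase_of_mem hpV
    have h2 : (V.erase p).card - 1 ≤ ((V.erase p).erase r).card := pred_card_le_card_erase
    omega
  obtain ⟨x, hx, y, hy, hxy⟩ := one_lt_card.1 hc2
  wlog hlt : x < y generalizing x y
  · exact this y hy x hx hxy.symm (by omega)
  rw [mem_erase, mem_erase] at hx hy
  have h1 := hple x hx.2.2
  have h2 := hler y hy.2.2
  have hpx : p < x := lt_of_le_of_ne h1 (Ne.symm hx.2.1)
  have hyr : y < r := lt_of_le_of_ne h2 hy.1
  have hh := h.four hz (a := p) (b := x) (c := y) (d := r) (le_trans ha (hV p hpV).1) hpx hlt hyr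
    (hV r hrV).2.1.le ((hV p hpV).2.2.trans (hV x hx.2.2).2.2.symm)
    ((hV x hx.2.2).2.2.trans (hV y hy.2.2).2.2.symm) ((hV y hy.2.2).2.2.trans (hV r hrV).2.2.symm)
  have h3 : (p : ℝ) ≤ t := by exact_mod_cast hple t ht
  have h4 : (t' : ℝ) ≤ r := by exact_mod_cast hler t' ht'
  have h5 : (p : ℝ) ≤ N := by exact_mod_cast (hV p hpV).2.1.le
  have h6 := mul_le_mul_of_nonneg_left h5 hε
  linarith

/-- the exchange of an early stretch for copies of a late loop -/
lemma Uniq.exch {M : NFA α σ} {z : ℕ → α} {f : ℕ → σ} {N : ℕ} (h : Uniq M z f N) {t t' u v : ℕ}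
    (h1 : t < t') (h2 : t' ≤ u) (h3 : u < v) (h4 : v ≤ N) (e1 : f t = f t') (e2 : f u = f v)
    (hdvd : v - u ∣ t' - t) : ∀ i, t ≤ i → i + (t' - t) < v → z (i + (t' - t)) = z i := by
  obtain ⟨m, hm⟩ := hdvd
  have p1 := P_of_run h.run (Nat.zero_le t) (by omega)
  have p2 := P_of_run h.run (show t' ≤ v by omega) (by omega)
  have p3 := P_of_run h.run (show u ≤ v by omega) (by omega)
  have p4 := P_of_run h.run h4 le_rfl
  rw [← e1] at p2
  rw [e2] at p3
  have hw := h.uniq (seg z 0 t ++ (seg z t' v ++ ((List.replicate m (seg z u v)).flatten ++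
    seg z v N))) (P_append p1 (P_append p2 (P_append (P_loop p3 m) p4))) (by
      simp only [List.length_append, seg_length, List.length_flatten, List.map_replicate,
        List.sum_replicate, smul_eq_mul]
      have : m * (v - u) = t' - t := by rw [hm]; ring
      rw [this]
      omega)
  intro i hi hiv
  have e3 : (seg z 0 N)[i]? = some (z i) := by
    rw [seg_get z 0 N i (by omega)]
    congr 2; omega
  rw [← hw, List.getElem?_append_right (by rw [seg_length]; omega), seg_length,
    List.getElem?_append_left (by rw [seg_length]; omega), seg_get z t' v _ (by omega)] at e3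
  have e4 := Option.some.inj e3
  rw [← e4]
  congr 1; omega

/-- the pigeonhole principle for pairs of times -/
lemma pig {β : Type} [DecidableEq β] (G : Finset ℕ) (g : ℕ → β) (T : Finset β)
    (hT : ∀ t ∈ G, g t ∈ T) (h : T.card < G.card) : ∃ t ∈ G, ∃ t' ∈ G, t < t' ∧ g t = g t' := by
  obtain ⟨t, ht, t', ht', hne, he⟩ := exists_ne_map_eq_of_card_lt_of_maps_to h
    (f := g) (fun t ht => hT t ht)
  rcases lt_or_gt_of_ne hne with h1 | h1
  · exact ⟨t, ht, t', ht', h1, he⟩
  · exact ⟨t', ht', t, ht, h1, he.symm⟩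

/-- among numbers with sum at most `q` two are at most twice the average -/
lemma two_small (m q : ℕ) (hm : 2 ≤ m) (g : ℕ → ℕ) (hsum : ∑ j ∈ range m, g j ≤ q) :
    ∃ i j, i < j ∧ j < m ∧ m * g i ≤ 2 * q ∧ m * g j ≤ 2 * q := by
  obtain ⟨J, hJ⟩ : ∃ J, J = (range m).filter fun j => m * g j ≤ 2 * q := ⟨_, rfl⟩
  obtain ⟨J', hJ'⟩ : ∃ J', J' = (range m).filter fun j => ¬ m * g j ≤ 2 * q := ⟨_, rfl⟩
  have hJc : 1 < J.card := by
    by_contra hc
    push Not at hc
    have h1 : ∑ j ∈ J', (2 * q + 1) ≤ ∑ j ∈ J', m * g j := by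
      apply sum_le_sum
      intro j hj
      rw [hJ', mem_filter] at hj
      omega
    have h2 : ∑ j ∈ J', m * g j ≤ ∑ j ∈ range m, m * g j := by
      rw [hJ']; exact sum_le_sum_of_subset (filter_subset _ _)
    have h2' : ∑ j ∈ range m, m * g j = m * ∑ j ∈ range m, g j := (mul_sum _ _ _).symm
    have h3 := Nat.mul_le_mul_left m hsum
    rw [sum_const, smul_eq_mul] at h1
    have h4 : m ≤ J.card + J'.card := by
      have h5 : range m ⊆ J ∪ J' := by
        intro x hx
        rw [mem_union, hJ, hJ', mem_filter, mem_filter]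
        by_cases hr : m * g x ≤ 2 * q
        · exact Or.inl ⟨hx, hr⟩
        · exact Or.inr ⟨hx, hr⟩
      have h6 := card_le_card h5
      rw [card_range] at h6
      exact h6.trans (card_union_le _ _)
    have h5 : (m - 1) * (2 * q + 1) ≤ m * q := by
      have h6 : (m - 1) * (2 * q + 1) ≤ J'.card * (2 * q + 1) := Nat.mul_le_mul_right _ (by omega)
      rw [h2'] at h2
      exact h6.trans (h1.trans (h2.trans h3))
    obtain ⟨m', rfl⟩ : ∃ m', m = m' + 1 := ⟨m - 1, by omega⟩
    rw [Nat.add_sub_cancel] at h5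
    have h6 : 1 * q ≤ m' * q := Nat.mul_le_mul_right _ (by omega)
    have h7 : m' * (2 * q + 1) = 2 * (m' * q) + m' := by ring
    have h8 : (m' + 1) * q = m' * q + q := by ring
    omega
  obtain ⟨i, hi, j, hj, hne⟩ := one_lt_card.1 hJc
  rw [hJ, mem_filter, mem_range] at hi hj
  rcases lt_or_gt_of_ne hne with h | h
  · exact ⟨i, j, h, hj.1, hi.2, hj.2⟩
  · exact ⟨j, i, h, hi.1, hj.2, hi.2⟩

set_option maxHeartbeats 4000000 in
theorem uniq_main (K : ℕ) (hK : 1 ≤ K) (N₀ : ℕ) : ∃ N₁ : ℕ, ∀ (α σ : Type) [Fintype σ]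
    (z : ℕ → α), NoPer2 z (1 + 1 / (16 * (512 * (K : ℝ)))) (5 / 2) N₀ →
    ∀ (M : NFA α σ) (f : ℕ → σ) (N : ℕ), N₁ ≤ N → Uniq M z f N →
      K * N ≤ Fintype.card σ ^ 2 := by
  obtain ⟨m, hm⟩ : ∃ m, m = 512 * K := ⟨_, rfl⟩
  refine ⟨57600 * K * m ^ 2 + 256 * m + 2 * N₀ + 2, ?_⟩
  intro α σ _ z hz M f N hN hu
  classical
  obtain ⟨ε, hε⟩ : ∃ ε : ℝ, ε = 1 / (16 * (512 * (K : ℝ))) := ⟨_, rfl⟩
  rw [← hε] at hz
  have hKR : (1 : ℝ) ≤ K := by exact_mod_cast hK
  have hmR : (m : ℝ) = 512 * K := by rw [hm]; push_cast; ring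
  have hε0 : 0 < ε := by rw [hε]; positivity
  have hεm : ε * (16 * m) = 1 := by rw [hε, hmR]; field_simp
  by_contra hcon
  push Not at hcon
  obtain ⟨q, hq⟩ : ∃ q, q = Fintype.card σ := ⟨_, rfl⟩
  rw [← hq] at hcon
  have hq1 : 1 ≤ q := by rw [hq]; exact Fintype.card_pos_iff.2 ⟨f 0⟩
  have hm1 : 512 ≤ m := by omega
  obtain ⟨w, hw⟩ : ∃ w, w = N / (16 * m) := ⟨_, rfl⟩
  have hW1 : 16 * m * w ≤ N := by rw [hw]; exact Nat.mul_div_le N (16 * m)
  have hW2 : N < 16 * m * w + 16 * m := by
    have := Nat.lt_mul_div_succ N (show 0 < 16 * m by omega)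
    rw [← hw] at this
    linarith
  -- w is large
  have hF1 : 14 * q < w := by
    by_contra hc
    push Not at hc
    have h1 : N < 240 * m * q := by
      have h2 : 16 * m * w ≤ 16 * m * (14 * q) := Nat.mul_le_mul_left _ hc
      have h3 : 16 * m * 1 ≤ 16 * m * q := Nat.mul_le_mul_left _ hq1
      nlinarith
    have h2 : N * N < (240 * m * q) * (240 * m * q) := Nat.mul_self_lt_mul_self h1
    have h3 : (240 * m * q) * (240 * m * q) = 57600 * m ^ 2 * q ^ 2 := by ring
    have h4 : 57600 * m ^ 2 * q ^ 2 ≤ 57600 * m ^ 2 * (K * N) := Nat.mul_le_mul_left _ hcon.le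
    have h5 : N * N < (57600 * K * m ^ 2) * N := by
      calc N * N < 57600 * m ^ 2 * q ^ 2 := by rw [← h3]; exact h2
        _ ≤ 57600 * m ^ 2 * (K * N) := h4
        _ = _ := by ring
    have h6 := Nat.lt_of_mul_lt_mul_right h5
    omega
  obtain ⟨a, ha⟩ : ∃ a : ℕ → ℕ, a = fun j => N / 2 + 8 * w * j := ⟨_, rfl⟩
  have haN : ∀ j, j < m → a j + w ≤ N := by
    intro j hj
    rw [ha]
    simp only
    have h1 : 8 * w * (j + 1) ≤ 8 * w * m := Nat.mul_le_mul_left _ (by omega)
    have h2 : 8 * w * (j + 1) = 8 * w * j + 8 * w := by ring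
    have h3 : 2 * (8 * w * m) = 16 * m * w := by ring
    omega
  have haj : ∀ i j, i < j → a i + 8 * w ≤ a j := by
    intro i j hij
    rw [ha]
    simp only
    have h1 : 8 * w * (i + 1) ≤ 8 * w * j := Nat.mul_le_mul_left _ (by omega)
    have h2 : 8 * w * (i + 1) = 8 * w * i + 8 * w := by ring
    omega
  have ha2 : ∀ j, N / 2 ≤ a j := by
    intro j; rw [ha]; simp only; omega
  -- rich states
  obtain ⟨V, hV⟩ : ∃ V : σ → Finset ℕ, V = fun v => (Ico (N / 2) N).filter fun t => f t = v :=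
    ⟨_, rfl⟩
  have hVmem : ∀ v t, t ∈ V v ↔ (N / 2 ≤ t ∧ t < N) ∧ f t = v := by
    intro v t; rw [hV]; simp [mem_filter]
  obtain ⟨rich, hrich⟩ : ∃ rich : σ → Prop, rich = fun v => 4 ≤ (V v).card := ⟨_, rfl⟩
  have hbad : ((Ico (N / 2) N).filter fun t => ¬ rich (f t)).card ≤ 3 * q := by
    have h1 := card_le_mul_card_image (f := f) ((Ico (N / 2) N).filter fun t => ¬ rich (f t)) 3 (by
      intro v hv
      rw [mem_image] at hv
      obtain ⟨t, ht, rfl⟩ := hv
      rw [mem_filter] at ht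
      have h2 : (filter (fun x => f x = f t) ((Ico (N / 2) N).filter fun t => ¬ rich (f t))) ⊆
          V (f t) := by
        intro x hx
        rw [mem_filter, mem_filter, mem_Ico] at hx
        rw [hVmem]
        exact ⟨hx.1.1, hx.2⟩
      have h3 := card_le_card h2
      have h4 := ht.2
      rw [hrich] at h4
      simp only [not_le] at h4
      omega)
    have h2 : (image f ((Ico (N / 2) N).filter fun t => ¬ rich (f t))).card ≤ q := by
      rw [hq]; exact card_le_univ _
    calc _ ≤ _ := h1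
      _ ≤ 3 * q := Nat.mul_le_mul_left _ h2
  obtain ⟨G, hG⟩ : ∃ G : ℕ → Finset ℕ, G = fun j => (Ico (a j) (a j + w)).filter
    fun t => rich (f t) := ⟨_, rfl⟩
  have hGmem : ∀ j t, t ∈ G j ↔ (a j ≤ t ∧ t < a j + w) ∧ rich (f t) := by
    intro j t; rw [hG]; simp [mem_filter]
  have hGcard : ∀ j, j < m → w ≤ (G j).card + 3 * q := by
    intro j hj
    have h1 : Ico (a j) (a j + w) ⊆ G j ∪ ((Ico (N / 2) N).filter fun t => ¬ rich (f t)) := by
      intro t ht
      rw [mem_Ico] at ht
      rw [mem_union, hGmem, mem_filter, mem_Ico]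
      have := haN j hj
      have := ha2 j
      by_cases hr : rich (f t)
      · exact Or.inl ⟨ht, hr⟩
      · exact Or.inr ⟨by omega, hr⟩
    have h2 := card_le_card h1
    rw [Nat.card_Ico] at h2
    have h3 := card_union_le (G j) ((Ico (N / 2) N).filter fun t => ¬ rich (f t))
    omega
  have hGV : ∀ j, j < m → ∀ t ∈ G j, t ∈ V (f t) := by
    intro j hj t ht
    rw [hGmem] at ht
    rw [hVmem]
    have := haN j hj
    have := ha2 j
    exact ⟨by omega, rfl⟩
  -- the sets of states of different windows are disjoint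
  have hdis : ∀ i j, i < j → j < m → Disjoint ((G i).image f) ((G j).image f) := by
    intro i j hij hj
    rw [disjoint_left]
    intro v hv1 hv2
    rw [mem_image] at hv1 hv2
    obtain ⟨t, ht, htv⟩ := hv1
    obtain ⟨t', ht', htv'⟩ := hv2
    have h1 := hGV i (by omega) t ht
    have h2 := hGV j hj t' ht'
    rw [htv] at h1
    rw [htv'] at h2
    have hr := ((hGmem i t).1 ht).2
    rw [htv, hrich] at hr
    have h3 := hu.span hε0.le hz (a := N / 2) (by omega) (V v) v (fun x hx => by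
      rw [hVmem] at hx; exact ⟨hx.1.1, hx.1.2, hx.2⟩) hr h1 h2
    have h4 : 7 * w ≤ t' - t ∧ t ≤ t' := by
      have h5 := ((hGmem i t).1 ht).1
      have h6 := ((hGmem j t').1 ht').1
      have h7 := haj i j hij
      omega
    have h5 : (7 : ℝ) * w ≤ t' - t := by
      have : 7 * w + t ≤ t' := by omega
      have : (7 : ℝ) * w + t ≤ t' := by exact_mod_cast this
      linarith
    have h6 : ε * N ≤ w + 1 := by
      have h7 : (N : ℝ) ≤ 16 * m * (w + 1) := by
        have : N ≤ 16 * m * (w + 1) := by nlinarith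
        exact_mod_cast this
      calc ε * N ≤ ε * (16 * m * (w + 1)) := mul_le_mul_of_nonneg_left h7 hε0.le
        _ = (ε * (16 * m)) * (w + 1) := by ring
        _ = w + 1 := by rw [hεm, one_mul]
    have h7 : (14 : ℝ) ≤ w := by
      have : 14 ≤ w := by omega
      exact_mod_cast this
    linarith
  -- two windows with few states
  obtain ⟨i, j, hij, hj, hqi, hqj⟩ : ∃ i j, i < j ∧ j < m ∧ m * ((G i).image f).card ≤ 2 * q ∧
      m * ((G j).image f).card ≤ 2 * q := by
    have hsum : ∑ j ∈ range m, ((G j).image f).card ≤ q := by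
      rw [← card_biUnion]
      · rw [hq]; exact card_le_univ _
      · intro i hi j hj hne
        rw [coe_range, Set.mem_Iio] at hi hj
        rcases lt_or_gt_of_ne hne with h | h
        · exact hdis i j h hj
        · exact (hdis j i h hi).symm
    exact two_small m q (by omega) _ hsum
  -- a short loop in the late window
  obtain ⟨L, hL⟩ : ∃ L, L = 4 * q / m + 1 := ⟨_, rfl⟩
  have hL0 : 0 < L := by rw [hL]; exact Nat.succ_pos _
  have hL1 : 4 * q < m * L := by
    rw [hL]; exact Nat.lt_mul_div_succ (4 * q) (by omega)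
  have hL2 : m * (L - 1) ≤ 4 * q := by
    rw [hL, Nat.add_sub_cancel]; exact Nat.mul_div_le _ _
  obtain ⟨u, hu1, v, hv1, huv, huvf, huvL⟩ : ∃ u ∈ G j, ∃ v ∈ G j, u < v ∧ f u = f v ∧
      v - u < L := by
    obtain ⟨B, hB⟩ : ∃ B, B = w / L := ⟨_, rfl⟩
    have hBL : L * B ≤ w := by rw [hB]; exact Nat.mul_div_le _ _
    have hBL2 : w < L * (B + 1) := by
      rw [hB]; exact Nat.lt_mul_div_succ w (by omega)
    obtain ⟨t, ht, t', ht', htt, he⟩ := pig (G j) (fun t => (f t, (t - a j) / L))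
      ((G j).image f ×ˢ range (B + 1)) (by
        intro t ht
        rw [mem_product]
        refine ⟨mem_image_of_mem _ ht, ?_⟩
        rw [mem_range]
        have := ((hGmem j t).1 ht).1
        simp only
        rw [Nat.div_lt_iff_lt_mul (by omega)]
        rw [mul_comm] at hBL2
        omega) (by
        rw [card_product, card_range]
        have h1 := hGcard j hj
        obtain ⟨qj, hqj'⟩ : ∃ qj, qj = ((G j).image f).card := ⟨_, rfl⟩
        rw [← hqj'] at hqj ⊢
        have h2 : m * qj * (B + 1) ≤ 2 * q * (B + 1) := Nat.mul_le_mul_right _ hqj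
        have h3 : 4 * q * B ≤ m * L * B := Nat.mul_le_mul_right _ hL1.le
        have h4 : m * (L * B) ≤ m * w := Nat.mul_le_mul_left _ hBL
        have h5 : m * (14 * q) < m * w := Nat.mul_lt_mul_of_pos_left hF1 (by omega)
        have h6 : 1 * q ≤ m * q := Nat.mul_le_mul_right _ (by omega)
        by_contra hc
        push Not at hc
        have h7 : m * w ≤ m * (qj * (B + 1) + 3 * q) := Nat.mul_le_mul_left _ (by omega)
        nlinarith)
    simp only [Prod.mk.injEq] at he
    refine ⟨t, ht, t', ht', htt, he.1, ?_⟩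
    have h1 := ((hGmem j t).1 ht).1
    have h2 := ((hGmem j t').1 ht').1
    have h3 := Nat.div_add_mod (t - a j) L
    have h4 := Nat.div_add_mod (t' - a j) L
    have h5 := Nat.mod_lt (t' - a j) (show 0 < L by omega)
    rw [← he.2] at h4
    omega
  obtain ⟨c, hc⟩ : ∃ c, c = v - u := ⟨_, rfl⟩
  have hc1 : 1 ≤ c := by omega
  have hmc : m * c ≤ 4 * q := le_trans (Nat.mul_le_mul_left _ (by omega)) hL2
  -- the early window
  obtain ⟨t, ht, t', ht', htt, htf, hmod⟩ : ∃ t ∈ G i, ∃ t' ∈ G i, t < t' ∧ f t = f t' ∧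
      c ∣ t' - t := by
    obtain ⟨t, ht, t', ht', htt, he⟩ := pig (G i) (fun t => (f t, t % c))
      ((G i).image f ×ˢ range c) (by
        intro t ht
        rw [mem_product, mem_range]
        exact ⟨mem_image_of_mem _ ht, Nat.mod_lt _ hc1⟩) (by
        rw [card_product, card_range]
        have h1 := hGcard i (by omega)
        obtain ⟨qi, hqi'⟩ : ∃ qi, qi = ((G i).image f).card := ⟨_, rfl⟩
        rw [← hqi'] at hqi ⊢
        have h2 : (m * qi) * (m * c) ≤ (2 * q) * (4 * q) := Nat.mul_le_mul hqi hmc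
        have h3 : m * (16 * m * w + 16 * m) > m * N := Nat.mul_lt_mul_of_pos_left hW2 (by omega)
        by_contra hc'
        push Not at hc'
        have h4 : w ≤ 2 * (qi * c) := by omega
        have h5 : m * m * w ≤ m * m * (2 * (qi * c)) := Nat.mul_le_mul_left _ h4
        have h6 : m * m * (2 * (qi * c)) = 2 * ((m * qi) * (m * c)) := by ring
        have h7 : m * m * w ≤ 16 * q ^ 2 := by
          rw [h6] at h5
          calc m * m * w ≤ 2 * ((m * qi) * (m * c)) := h5
            _ ≤ 2 * ((2 * q) * (4 * q)) := Nat.mul_le_mul_left _ h2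
            _ = 16 * q ^ 2 := by ring
        have h8 : 16 * (m * m * w) + 16 * m * m > 512 * K * N := by
          calc 16 * (m * m * w) + 16 * m * m = m * (16 * m * w + 16 * m) := by ring
            _ > m * N := h3
            _ = 512 * K * N := by rw [hm]
        have h9 : 256 * (m * m) ≤ 512 * K * N := by
          have h10 : 256 * m ≤ N := by omega
          calc 256 * (m * m) = m * (256 * m) := by ring
            _ ≤ m * N := Nat.mul_le_mul_left _ h10
            _ = 512 * K * N := by rw [hm]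
        have h10 : 512 * K * N = 512 * (K * N) := by ring
        have h11 : 16 * m * m = 16 * (m * m) := by ring
        rw [h10] at h8 h9
        rw [h11] at h8
        obtain ⟨X, hX⟩ : ∃ X, X = m * m * w := ⟨_, rfl⟩
        obtain ⟨Y, hY⟩ : ∃ Y, Y = m * m := ⟨_, rfl⟩
        obtain ⟨Z, hZ⟩ : ∃ Z, Z = K * N := ⟨_, rfl⟩
        rw [← hX] at h7 h8
        rw [← hY] at h8 h9
        rw [← hZ] at h8 h9 hcon
        clear hX hY hZ
        omega)
    simp only [Prod.mk.injEq] at he
    exact ⟨t, ht, t', ht', htt, he.1, (Nat.modEq_iff_dvd' htt.le).1 he.2⟩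
  have a1 := ((hGmem i t).1 ht).1
  have a2 := ((hGmem i t').1 ht').1
  have a3 := ((hGmem j u).1 hu1).1
  have a4 := ((hGmem j v).1 hv1).1
  have a5 := haj i j hij
  have a6 := haN j hj
  have hex := hu.exch htt (by omega) huv (by omega) htf huvf (by rw [← hc]; exact hmod)
  obtain ⟨r, hr1, hr2, hr3⟩ := hz t (by have := ha2 i; omega) (t' - t) (by omega)
  apply hr3
  apply hex r hr1
  have b1 : ((t' - t : ℕ) : ℝ) = (t' : ℝ) - t := by
    rw [Nat.cast_sub htt.le]
  have b2 : (t : ℝ) ≤ N := by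
    have : t ≤ N := by omega
    exact_mod_cast this
  have b3 : ε * t ≤ w + 1 := by
    have h7 : (N : ℝ) ≤ 16 * m * (w + 1) := by
      have : N ≤ 16 * m * (w + 1) := by nlinarith
      exact_mod_cast this
    calc ε * t ≤ ε * (16 * m * (w + 1)) := mul_le_mul_of_nonneg_left (b2.trans h7) hε0.le
      _ = (ε * (16 * m)) * (w + 1) := by ring
      _ = w + 1 := by rw [hεm, one_mul]
  have b4 : (t' : ℝ) - t ≤ w := by
    have : t' ≤ t + w := by omega
    have : (t' : ℝ) ≤ t + w := by exact_mod_cast this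
    linarith
  have b5 : (t : ℝ) ≤ a i + w := by
    have : t ≤ a i + w := by omega
    exact_mod_cast this
  have b6 : (a i : ℝ) + 8 * w ≤ u := by
    have : a i + 8 * w ≤ u := by omega
    exact_mod_cast this
  have b7 : (14 : ℝ) ≤ w := by
    have : 14 ≤ w := by omega
    exact_mod_cast this
  have b8 : ((r + (t' - t) : ℕ) : ℝ) ≤ u := by
    refine hr2.trans ?_
    rw [b1]
    linarith
  have b9 : r + (t' - t) ≤ u := by exact_mod_cast b8
  omega

/-- automata which accept only the first `N` digits of an irrational algebraic number -/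
theorem alg_unique {y : ℝ} (hy : 0 ≤ y) (halg : IsAlgebraic ℚ y) (hirr : Irrational y)
    (S : Finset ℕ) (hS : ∀ p ∈ S, p.Prime) (K : ℝ) :
    ∃ N₁ : ℕ, ∀ (b : ℕ) [NeZero b], 2 ≤ b → (∀ p : ℕ, p.Prime → p ∣ b → p ∈ S) →
    ∀ (σ : Type) [Fintype σ] (M : NFA (Fin b) σ) (N : ℕ), N₁ ≤ N →
      (List.range N).map (Real.digits y b) ∈ M.accepts →
      (∀ w ∈ M.accepts, w.length = N → w = (List.range N).map (Real.digits y b)) →
      K * √N ≤ Fintype.card σ := by
  obtain ⟨k, hk⟩ := exists_nat_gt (K ^ 2 + 1)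
  have hk1 : 1 ≤ k := by
    have : (0 : ℝ) < k := lt_of_le_of_lt (by positivity) hk
    have : 0 < k := by exact_mod_cast this
    omega
  have hkR : (1 : ℝ) ≤ k := by exact_mod_cast hk1
  have hε : (1 : ℝ) / (16 * (512 * (k : ℝ))) ≤ 1 / 2 := by
    rw [div_le_div_iff₀ (by positivity) (by norm_num)]
    linarith
  obtain ⟨N₀, hN₀⟩ := alg_noPer hy halg hirr S hS (1 / (16 * (512 * (k : ℝ)))) (by positivity) hε
  obtain ⟨N₁, hN₁⟩ := uniq_main k hk1 N₀
  refine ⟨N₁, fun b _ hb hbS σ _ M N hN hacc huniq => ?_⟩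
  rw [← seg_zero] at hacc
  rw [NFA.accepts_iff_exists_path] at hacc
  obtain ⟨s, hs, t, ht, ⟨p⟩⟩ := hacc
  obtain ⟨f, hf0, hfN, hf⟩ := run_of_P N 0 s t (by simpa using P_of_path p)
  rw [Nat.zero_add] at hfN
  have hu : Uniq M (Real.digits y b) f N := by
    refine ⟨fun i hi => hf i (Nat.zero_le _) (by omega), fun w hw hwl => ?_⟩
    rw [seg_zero]
    refine huniq w ?_ hwl
    rw [NFA.accepts_iff_exists_path]
    rw [hf0, hfN] at hw
    exact ⟨s, hs, t, ht, path_of_P hw⟩
  have h1 := hN₁ (Fin b) σ (Real.digits y b) (hN₀ b hb hbS) M f N hN hu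
  have h2 : (k : ℝ) * N ≤ (Fintype.card σ : ℝ) ^ 2 := by exact_mod_cast h1
  have h3 : (K * √N) ^ 2 ≤ (Fintype.card σ : ℝ) ^ 2 := by
    rw [mul_pow, Real.sq_sqrt (Nat.cast_nonneg N)]
    refine le_trans (mul_le_mul_of_nonneg_right ?_ (Nat.cast_nonneg N)) h2
    linarith
  exact (le_abs_self _).trans (abs_le_of_sq_le_sq h3 (Nat.cast_nonneg _))

end Pool.Agent.X1.NfaAlg
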