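import Mathlib
import Pool.Agent.X1.NfaUnique

/-!
# Automata which accept a single word of a given length: the general form

If for every `ε > 0` the stretches of a sequence with period `s` which begin at the place `T` have
length at most `ε T + A(ε) s`, then an automaton which accepts the first `N` terms and no other word
of length `N` has more than `K √N` states, for every `K` and all large `N`.
-/

set_option autoImplicit false

namespace Pool.Agent.X1.NfaAlg

open Finset Pool.Agent.X3.NfaWords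

variable {α σ : Type}

/-- two visits of the same state between two others give a period -/
lemma Uniq.per4 {M : NFA α σ} {z : ℕ → α} {f : ℕ → σ} {N : ℕ} (h : Uniq M z f N) {a b c d : ℕ}
    (hab : a ≤ b) (hbc : b ≤ c) (hcd : c ≤ d) (hd : d ≤ N) (e1 : f a = f b) (e2 : f b = f c)
    (e3 : f c = f d) : ∀ i, a ≤ i → i + (c - b) < d → z (i + (c - b)) = z i := by
  intro i hi hid
  rcases le_or_gt b i with h3 | h3
  · exact (h.per hbc hcd hd e2 e3).1 i h3 hid
  · exact (h.per hab hbc (by omega) e1 e2).2 i hi (by omega)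

/-- a state visited at least `r + 1` times is visited in a short interval -/
lemma Uniq.span' {M : NFA α σ} {z : ℕ → α} {f : ℕ → σ} {N N₀ r : ℕ} (h : Uniq M z f N) {ε : ℝ}
    (hr : 1 ≤ r) (hε : 0 ≤ ε) (hz : NoPer2 z (1 + ε) ((r : ℝ) / 2) N₀) {a : ℕ} (ha : N₀ ≤ a)
    (V : Finset ℕ) (v : σ) (hV : ∀ t ∈ V, a ≤ t ∧ t < N ∧ f t = v) (hcard : r + 1 ≤ V.card)
    {t t' : ℕ} (ht : t ∈ V) (ht' : t' ∈ V) : ((t' : ℝ) - t) ≤ 2 * (ε * N) := by
  have hne : V.Nonempty := ⟨t, ht⟩
  obtain ⟨p, hp⟩ : ∃ p, p = V.min' hne := ⟨_, rfl⟩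
  obtain ⟨d, hd⟩ : ∃ d, d = V.max' hne := ⟨_, rfl⟩
  have hpV : p ∈ V := by rw [hp]; exact V.min'_mem hne
  have hdV : d ∈ V := by rw [hd]; exact V.max'_mem hne
  have hple : ∀ x ∈ V, p ≤ x := fun x hx => by rw [hp]; exact V.min'_le x hx
  have hled : ∀ x ∈ V, x ≤ d := fun x hx => by rw [hd]; exact V.le_max' x hx
  -- two close visits
  obtain ⟨g, hg⟩ : ∃ g, g = (d - p) / r + 1 := ⟨_, rfl⟩
  have hg0 : 0 < g := by rw [hg]; exact Nat.succ_pos _
  have hg1 : d - p < r * g := by rw [hg]; exact Nat.lt_mul_div_succ _ (by omega)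
  have hg2 : r * (g - 1) ≤ d - p := by
    rw [hg, Nat.add_sub_cancel]; exact Nat.mul_div_le _ _
  obtain ⟨b, hb, c, hc, hbc, he⟩ := pig V (fun t => (t - p) / g) (range r) (by
      intro t ht
      rw [mem_range, Nat.div_lt_iff_lt_mul hg0]
      have := hled t ht
      omega) (by rw [card_range]; omega)
  have hgap : c - b < g := by
    have h1 := hple b hb
    have h2 := hple c hc
    have h3 := Nat.div_add_mod (b - p) g
    have h4 := Nat.div_add_mod (c - p) g
    have h5 := Nat.mod_lt (c - p) hg0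
    have he' : (b - p) / g = (c - p) / g := he
    rw [← he'] at h4
    omega
  have hper := h.per4 (a := p) (b := b) (c := c) (d := d) (hple b hb) hbc.le (hled c hc)
    (hV d hdV).2.1.le ((hV p hpV).2.2.trans (hV b hb).2.2.symm)
    ((hV b hb).2.2.trans (hV c hc).2.2.symm) ((hV c hc).2.2.trans (hV d hdV).2.2.symm)
  obtain ⟨i, hi1, hi2, hi3⟩ := hz p (le_trans ha (hV p hpV).1) (c - b) (by omega)
  have h1 : d ≤ i + (c - b) := by
    by_contra hcon
    exact hi3 (hper i hi1 (by omega))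
  have h2 : (d : ℝ) ≤ ((i + (c - b) : ℕ) : ℝ) := by exact_mod_cast h1
  have h3 : (r : ℝ) * ((c - b : ℕ) : ℝ) ≤ d - p := by
    have h4 : r * (c - b) ≤ d - p := (Nat.mul_le_mul_left _ (by omega)).trans hg2
    have h5 := hple d hdV
    have h6 : r * (c - b) + p ≤ d := by omega
    have h7 : (r : ℝ) * ((c - b : ℕ) : ℝ) + p ≤ d := by exact_mod_cast h6
    linarith
  have h4 : (p : ℝ) ≤ t := by exact_mod_cast hple t ht
  have h5 : (t' : ℝ) ≤ d := by exact_mod_cast hled t' ht'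
  have h6 : (p : ℝ) ≤ N := by exact_mod_cast (hV p hpV).2.1.le
  have h7 := mul_le_mul_of_nonneg_left h6 hε
  nlinarith

/-- among numbers with sum at most `q` one is at most the average -/
lemma one_small (m q : ℕ) (hm : 1 ≤ m) (g : ℕ → ℕ) (hsum : ∑ j ∈ range m, g j ≤ q) :
    ∃ i, i < m ∧ m * g i ≤ q := by
  by_contra hcon
  push Not at hcon
  have h1 : ∑ j ∈ range m, (q + 1) ≤ ∑ j ∈ range m, m * g j := by
    apply sum_le_sum
    intro j hj
    exact hcon j (mem_range.1 hj)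
  rw [sum_const, card_range, smul_eq_mul, ← mul_sum] at h1
  have h2 := Nat.mul_le_mul_left m hsum
  have h3 : m * (q + 1) ≤ m * q := h1.trans h2
  have h4 := Nat.le_of_mul_le_mul_left h3 (by omega)
  omega

set_option maxHeartbeats 4000000 in
theorem uniq_gen (K : ℕ) (hK : 1 ≤ K) (A₂ : ℕ) : ∃ m : ℕ, 1 ≤ m ∧ ∀ r N₀ : ℕ, 1 ≤ r →
    ∃ N₁ : ℕ, ∀ (α σ : Type) [Fintype σ] (z : ℕ → α),
    NoPer2 z (1 + 1 / 10) A₂ N₀ → NoPer2 z (1 + 1 / (128 * (m : ℝ))) ((r : ℝ) / 2) N₀ →
    ∀ (M : NFA α σ) (f : ℕ → σ) (N : ℕ), N₁ ≤ N → Uniq M z f N →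
      K * N ≤ Fintype.card σ ^ 2 := by
  obtain ⟨m, hm⟩ : ∃ m, m = 256 * K * (A₂ + 1) := ⟨_, rfl⟩
  have hm1 : 256 * K ≤ m := by
    rw [hm]; exact Nat.le_mul_of_pos_right _ (Nat.succ_pos _)
  refine ⟨m, by omega, fun r N₀ hr1 => ⟨256 * m ^ 2 * (2 * r + 3) ^ 2 * K + 64 * m + 2 * N₀ + 64,
    ?_⟩⟩
  intro α σ _ z hz2 hz M f N hN hu
  classical
  obtain ⟨ε, hε⟩ : ∃ ε : ℝ, ε = 1 / (128 * (m : ℝ)) := ⟨_, rfl⟩
  rw [← hε] at hz
  have hmR : (1 : ℝ) ≤ m := by
    have : 1 ≤ m := by omega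
    exact_mod_cast this
  have hε0 : 0 < ε := by rw [hε]; positivity
  have hεm : ε * (128 * m) = 1 := by rw [hε]; field_simp
  by_contra hcon
  push Not at hcon
  obtain ⟨q, hq⟩ : ∃ q, q = Fintype.card σ := ⟨_, rfl⟩
  rw [← hq] at hcon
  have hq1 : 1 ≤ q := by rw [hq]; exact Fintype.card_pos_iff.2 ⟨f 0⟩
  obtain ⟨w, hw⟩ : ∃ w, w = N / (16 * m) := ⟨_, rfl⟩
  have hW1 : 16 * m * w ≤ N := by rw [hw]; exact Nat.mul_div_le N (16 * m)
  have hW2 : N < 16 * m * w + 16 * m := by
    have := Nat.lt_mul_div_succ N (show 0 < 16 * m by omega)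
    rw [← hw] at this
    linarith
  obtain ⟨W, hW⟩ : ∃ W, W = m * w := ⟨_, rfl⟩
  have hW3 : 16 * W ≤ N := by rw [hW]; linarith
  -- w is large
  have hF1 : (2 * r + 2) * q < w := by
    by_contra hc
    push Not at hc
    have h1 : N < 16 * m * (2 * r + 3) * q := by
      have h2 : 16 * m * w ≤ 16 * m * ((2 * r + 2) * q) := Nat.mul_le_mul_left _ hc
      have h3 : 16 * m * 1 ≤ 16 * m * q := Nat.mul_le_mul_left _ hq1
      nlinarith
    have h2 : N * N < (16 * m * (2 * r + 3) * q) * (16 * m * (2 * r + 3) * q) :=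
      Nat.mul_self_lt_mul_self h1
    have h3 : (16 * m * (2 * r + 3) * q) * (16 * m * (2 * r + 3) * q) =
      256 * m ^ 2 * (2 * r + 3) ^ 2 * q ^ 2 := by ring
    have h4 : 256 * m ^ 2 * (2 * r + 3) ^ 2 * q ^ 2 ≤ 256 * m ^ 2 * (2 * r + 3) ^ 2 * (K * N) :=
      Nat.mul_le_mul_left _ hcon.le
    have h5 : N * N < (256 * m ^ 2 * (2 * r + 3) ^ 2 * K) * N := by
      calc N * N < 256 * m ^ 2 * (2 * r + 3) ^ 2 * q ^ 2 := by rw [← h3]; exact h2
        _ ≤ 256 * m ^ 2 * (2 * r + 3) ^ 2 * (K * N) := h4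
        _ = _ := by ring
    have h6 := Nat.lt_of_mul_lt_mul_right h5
    omega
  obtain ⟨rq, hrq⟩ : ∃ rq, rq = r * q := ⟨_, rfl⟩
  have hF2 : 2 * rq + 2 * q < w := by
    rw [hrq]
    calc 2 * (r * q) + 2 * q = (2 * r + 2) * q := by ring
      _ < w := hF1
  have hrq1 : q ≤ rq := by rw [hrq]; exact Nat.le_mul_of_pos_left _ hr1
  -- rich states
  obtain ⟨V, hV⟩ : ∃ V : σ → Finset ℕ, V = fun v => (Ico (N / 2) N).filter fun t => f t = v :=
    ⟨_, rfl⟩
  have hVmem : ∀ v t, t ∈ V v ↔ (N / 2 ≤ t ∧ t < N) ∧ f t = v := by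
    intro v t; rw [hV]; simp [mem_filter]
  obtain ⟨rich, hrich⟩ : ∃ rich : σ → Prop, rich = fun v => r + 1 ≤ (V v).card := ⟨_, rfl⟩
  have hbad : ((Ico (N / 2) N).filter fun t => ¬ rich (f t)).card ≤ rq := by
    have h1 := card_le_mul_card_image (f := f) ((Ico (N / 2) N).filter fun t => ¬ rich (f t)) r (by
      intro v hv
      rw [mem_image] at hv
      obtain ⟨t, ht, rfl⟩ := hv
      rw [mem_filter] at ht
      have h2 : (filter (fun x => f x = f t) ((Ico (N / 2) N).filter fun t => ¬ rich (f t))) ⊆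
          V (f t) := by
        intro x hx
        rw [mem_filter, mem_filter, mem_Ico] at hx
        rw [hVmem]
        exact ⟨hx.1.1, hx.2⟩
      have h3 := card_le_card h2
      have h4 := ht.2
      rw [hrich] at h4
      simp only [not_le] at h4
      omega)
    have h2 : (image f ((Ico (N / 2) N).filter fun t => ¬ rich (f t))).card ≤ q := by
      rw [hq]; exact card_le_univ _
    calc _ ≤ _ := h1
      _ ≤ r * q := Nat.mul_le_mul_left _ h2
      _ = rq := hrq.symm
  -- the windows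
  have key : ∀ A₀ : ℕ, N / 2 ≤ A₀ → A₀ + 2 * W ≤ N → ∃ x : ℕ, A₀ ≤ x ∧ x + w ≤ A₀ + 2 * W ∧
      ∃ G : Finset ℕ, (∀ t ∈ G, x ≤ t ∧ t < x + w) ∧ w ≤ G.card + rq ∧
        m * (G.image f).card ≤ q := by
    intro A₀ hA1 hA2
    obtain ⟨a, ha⟩ : ∃ a : ℕ → ℕ, a = fun j => A₀ + 2 * w * j := ⟨_, rfl⟩
    have haN : ∀ j, j < m → a j + w ≤ A₀ + 2 * W := by
      intro j hj
      rw [ha]
      simp only
      have h1 : 2 * w * (j + 1) ≤ 2 * w * m := Nat.mul_le_mul_left _ (by omega)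
      have h2 : 2 * w * (j + 1) = 2 * w * j + 2 * w := by ring
      have h3 : 2 * w * m = 2 * W := by rw [hW]; ring
      omega
    have haj : ∀ i j, i < j → a i + 2 * w ≤ a j := by
      intro i j hij
      rw [ha]
      simp only
      have h1 : 2 * w * (i + 1) ≤ 2 * w * j := Nat.mul_le_mul_left _ (by omega)
      have h2 : 2 * w * (i + 1) = 2 * w * i + 2 * w := by ring
      omega
    have ha2 : ∀ j, A₀ ≤ a j := by
      intro j; rw [ha]; simp only; omega
    obtain ⟨G, hG⟩ : ∃ G : ℕ → Finset ℕ, G = fun j => (Ico (a j) (a j + w)).filter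
      fun t => rich (f t) := ⟨_, rfl⟩
    have hGmem : ∀ j t, t ∈ G j ↔ (a j ≤ t ∧ t < a j + w) ∧ rich (f t) := by
      intro j t; rw [hG]; simp [mem_filter]
    have hGcard : ∀ j, j < m → w ≤ (G j).card + rq := by
      intro j hj
      have h1 : Ico (a j) (a j + w) ⊆ G j ∪ ((Ico (N / 2) N).filter fun t => ¬ rich (f t)) := by
        intro t ht
        rw [mem_Ico] at ht
        rw [mem_union, hGmem, mem_filter, mem_Ico]
        have := haN j hj
        have := ha2 j
        by_cases hr : rich (f t)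
        · exact Or.inl ⟨ht, hr⟩
        · exact Or.inr ⟨by omega, hr⟩
      have h2 := card_le_card h1
      rw [Nat.card_Ico] at h2
      have h3 := card_union_le (G j) ((Ico (N / 2) N).filter fun t => ¬ rich (f t))
      omega
    have hGV : ∀ j, j < m → ∀ t ∈ G j, t ∈ V (f t) := by
      intro j hj t ht
      rw [hGmem] at ht
      rw [hVmem]
      have := haN j hj
      have := ha2 j
      exact ⟨by omega, rfl⟩
    have hdis : ∀ i j, i < j → j < m → Disjoint ((G i).image f) ((G j).image f) := by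
      intro i j hij hj
      rw [disjoint_left]
      intro v hv1 hv2
      rw [mem_image] at hv1 hv2
      obtain ⟨t, ht, htv⟩ := hv1
      obtain ⟨t', ht', htv'⟩ := hv2
      have h1 := hGV i (by omega) t ht
      have h2 := hGV j hj t' ht'
      rw [htv] at h1
      rw [htv'] at h2
      have hr := ((hGmem i t).1 ht).2
      rw [htv, hrich] at hr
      have h3 := hu.span' hr1 hε0.le hz (a := N / 2) (by omega) (V v) v (fun x hx => by
        rw [hVmem] at hx; exact ⟨hx.1.1, hx.1.2, hx.2⟩) hr h1 h2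
      have h4 : w ≤ t' - t ∧ t ≤ t' := by
        have h5 := ((hGmem i t).1 ht).1
        have h6 := ((hGmem j t').1 ht').1
        have h7 := haj i j hij
        omega
      have h5 : (w : ℝ) ≤ t' - t := by
        have : w + t ≤ t' := by omega
        have : (w : ℝ) + t ≤ t' := by exact_mod_cast this
        linarith
      have h6 : 8 * (ε * N) ≤ w + 1 := by
        have h7 : (N : ℝ) ≤ 16 * m * (w + 1) := by
          have : N ≤ 16 * m * (w + 1) := by nlinarith
          exact_mod_cast this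
        calc 8 * (ε * N) ≤ 8 * (ε * (16 * m * (w + 1))) :=
              mul_le_mul_of_nonneg_left (mul_le_mul_of_nonneg_left h7 hε0.le) (by norm_num)
          _ = (ε * (128 * m)) * (w + 1) := by ring
          _ = w + 1 := by rw [hεm, one_mul]
      have h7 : (4 : ℝ) ≤ w := by
        have : 4 ≤ w := by omega
        exact_mod_cast this
      linarith
    have hsum : ∑ j ∈ range m, ((G j).image f).card ≤ q := by
      rw [← card_biUnion]
      · rw [hq]; exact card_le_univ _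
      · intro i hi j hj hne
        rw [coe_range, Set.mem_Iio] at hi hj
        rcases lt_or_gt_of_ne hne with h | h
        · exact hdis i j h hj
        · exact (hdis j i h hi).symm
    obtain ⟨i, hi, hqi⟩ := one_small m q (by omega) _ hsum
    exact ⟨a i, ha2 i, haN i hi, G i, fun t ht => ((hGmem i t).1 ht).1, hGcard i hi, hqi⟩
  obtain ⟨x, hx1, hx2, G, hG1, hG2, hG3⟩ := key (N / 2) le_rfl (by omega)
  obtain ⟨y, hy1, hy2, H, hH1, hH2, hH3⟩ := key (3 * N / 4) (by omega) (by omega)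
  -- a short loop in the late window
  obtain ⟨L, hL⟩ : ∃ L, L = 2 * q / m + 1 := ⟨_, rfl⟩
  have hL0 : 0 < L := by rw [hL]; exact Nat.succ_pos _
  have hL1 : 2 * q < m * L := by
    rw [hL]; exact Nat.lt_mul_div_succ (2 * q) (by omega)
  have hL2 : m * (L - 1) ≤ 2 * q := by
    rw [hL, Nat.add_sub_cancel]; exact Nat.mul_div_le _ _
  have hmw : m * w = W := hW.symm
  obtain ⟨u, hu1, v, hv1, huv, huvf, huvL⟩ : ∃ u ∈ H, ∃ v ∈ H, u < v ∧ f u = f v ∧
      v - u < L := by
    obtain ⟨B, hB⟩ : ∃ B, B = w / L := ⟨_, rfl⟩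
    have hBL : L * B ≤ w := by rw [hB]; exact Nat.mul_div_le _ _
    have hBL2 : w < L * (B + 1) := by
      rw [hB]; exact Nat.lt_mul_div_succ w hL0
    obtain ⟨t, ht, t', ht', htt, he⟩ := pig H (fun t => (f t, (t - y) / L))
      (H.image f ×ˢ range (B + 1)) (by
        intro t ht
        rw [mem_product]
        refine ⟨mem_image_of_mem _ ht, ?_⟩
        rw [mem_range]
        have := hH1 t ht
        simp only
        rw [Nat.div_lt_iff_lt_mul hL0]
        rw [mul_comm] at hBL2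
        omega) (by
        rw [card_product, card_range]
        obtain ⟨qj, hqj'⟩ : ∃ qj, qj = (H.image f).card := ⟨_, rfl⟩
        rw [← hqj'] at hH3 ⊢
        have h2 : m * qj * (B + 1) ≤ q * (B + 1) := Nat.mul_le_mul_right _ hH3
        have h3 : 2 * q * B ≤ m * L * B := Nat.mul_le_mul_right _ hL1.le
        have h4 : m * (L * B) ≤ m * w := Nat.mul_le_mul_left _ hBL
        have h5 : m * (2 * rq + 2 * q) < m * w := Nat.mul_lt_mul_of_pos_left hF2 (by omega)
        have h6 : 1 * q ≤ m * q := Nat.mul_le_mul_right _ (by omega)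
        by_contra hc
        push Not at hc
        have h7 : m * w ≤ m * (qj * (B + 1) + rq) := Nat.mul_le_mul_left _ (by omega)
        nlinarith)
    simp only [Prod.mk.injEq] at he
    refine ⟨t, ht, t', ht', htt, he.1, ?_⟩
    have h1 := hH1 t ht
    have h2 := hH1 t' ht'
    have h3 := Nat.div_add_mod (t - y) L
    have h4 := Nat.div_add_mod (t' - y) L
    have h5 := Nat.mod_lt (t' - y) hL0
    rw [← he.2] at h4
    omega
  obtain ⟨c, hc⟩ : ∃ c, c = v - u := ⟨_, rfl⟩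
  have hc1 : 1 ≤ c := by omega
  have hmc : m * c ≤ 2 * q := le_trans (Nat.mul_le_mul_left _ (by omega)) hL2
  -- the early window
  obtain ⟨X, hX⟩ : ∃ X, X = (G.image f).card * c := ⟨_, rfl⟩
  have hmX : m * m * X ≤ 2 * q ^ 2 := by
    calc m * m * X = (m * (G.image f).card) * (m * c) := by rw [hX]; ring
      _ ≤ q * (2 * q) := Nat.mul_le_mul hG3 hmc
      _ = 2 * q ^ 2 := by ring
  have hX2 : 4 * X ≤ w := by
    by_contra hcc
    push Not at hcc
    have h1 : m * m * w ≤ m * m * (4 * X) := Nat.mul_le_mul_left _ hcc.le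
    have h2 : m * m * (4 * X) ≤ 8 * q ^ 2 := by
      calc m * m * (4 * X) = 4 * (m * m * X) := by ring
        _ ≤ 4 * (2 * q ^ 2) := Nat.mul_le_mul_left _ hmX
        _ = 8 * q ^ 2 := by ring
    have h3 : m * N < m * (16 * m * w + 16 * m) := Nat.mul_lt_mul_of_pos_left hW2 (by omega)
    have h4 : m * (16 * m * w + 16 * m) = 16 * (m * m * w) + 16 * m * m := by ring
    have h5 : 256 * K * N ≤ m * N := Nat.mul_le_mul_right _ hm1
    have h6 : 64 * m * m ≤ N * m := Nat.mul_le_mul_right _ (by omega)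
    have h7 : N * m = m * N := Nat.mul_comm _ _
    have h8 : 64 * m * m = 4 * (16 * m * m) := by ring
    have h9 : 256 * K * N = 256 * (K * N) := by ring
    obtain ⟨Z1, hZ1⟩ : ∃ Z, Z = m * N := ⟨_, rfl⟩
    obtain ⟨Z2, hZ2⟩ : ∃ Z, Z = m * m * w := ⟨_, rfl⟩
    obtain ⟨Z3, hZ3⟩ : ∃ Z, Z = 16 * m * m := ⟨_, rfl⟩
    obtain ⟨Z4, hZ4⟩ : ∃ Z, Z = K * N := ⟨_, rfl⟩
    obtain ⟨Z5, hZ5⟩ : ∃ Z, Z = q ^ 2 := ⟨_, rfl⟩
    rw [h7, h8] at h6
    rw [h4] at h3
    rw [h9] at h5
    rw [← hZ1] at h3 h5 h6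
    rw [← hZ2] at h1 h3
    rw [← hZ3] at h3 h6
    rw [← hZ4] at h5 hcon
    rw [← hZ5] at h2 hcon
    have h10 := h1.trans h2
    clear hZ1 hZ2 hZ3 hZ4 hZ5 h1 h2 h4 h7 h8 h9
    omega
  obtain ⟨s0, hs0⟩ : ∃ s0, s0 = 4 * X + 1 := ⟨_, rfl⟩
  obtain ⟨t, ht, t', ht', htt, htf, hmod, hts⟩ : ∃ t ∈ G, ∃ t' ∈ G, t < t' ∧ f t = f t' ∧
      c ∣ t' - t ∧ t' - t < s0 := by
    obtain ⟨B, hB⟩ : ∃ B, B = w / s0 := ⟨_, rfl⟩
    have hBL : s0 * B ≤ w := by rw [hB]; exact Nat.mul_div_le _ _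
    have hBL2 : w < s0 * (B + 1) := by
      rw [hB]; exact Nat.lt_mul_div_succ w (by omega)
    obtain ⟨t, ht, t', ht', htt, he⟩ := pig G (fun t => ((f t, t % c), (t - x) / s0))
      ((G.image f ×ˢ range c) ×ˢ range (B + 1)) (by
        intro t ht
        rw [mem_product, mem_product, mem_range, mem_range]
        refine ⟨⟨mem_image_of_mem _ ht, Nat.mod_lt _ hc1⟩, ?_⟩
        have := hG1 t ht
        simp only
        rw [Nat.div_lt_iff_lt_mul (by omega)]
        rw [mul_comm] at hBL2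
        omega) (by
        rw [card_product, card_product, card_range, card_range, ← hX]
        have h1 : 4 * (X * B) ≤ s0 * B := by
          rw [hs0]
          calc 4 * (X * B) ≤ 4 * (X * B) + B := Nat.le_add_right _ _
            _ = (4 * X + 1) * B := by ring
        have h2 : X * (B + 1) = X * B + X := by ring
        rw [h2]
        omega)
    simp only [Prod.mk.injEq] at he
    refine ⟨t, ht, t', ht', htt, he.1.1, (Nat.modEq_iff_dvd' htt.le).1 he.1.2, ?_⟩
    have h1 := hG1 t ht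
    have h2 := hG1 t' ht'
    have h3 := Nat.div_add_mod (t - x) s0
    have h4 := Nat.div_add_mod (t' - x) s0
    have h5 := Nat.mod_lt (t' - x) (show 0 < s0 by omega)
    rw [← he.2] at h4
    omega
  have a1 := hG1 t ht
  have a2 := hG1 t' ht'
  have a3 := hH1 u hu1
  have a4 := hH1 v hv1
  have hex := hu.exch htt (by omega) huv (by omega) htf huvf (by rw [← hc]; exact hmod)
  obtain ⟨p, hp1, hp2, hp3⟩ := hz2 t (by omega) (t' - t) (by omega)
  apply hp3
  apply hex p hp1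
  obtain ⟨s, hs⟩ : ∃ s, s = t' - t := ⟨_, rfl⟩
  rw [← hs] at hp2 ⊢
  have b1 : A₂ * s ≤ N / 32 := by
    rw [Nat.le_div_iff_mul_le (by norm_num)]
    have h1 : s ≤ 4 * X := by omega
    -- m² s ≤ 8 q² < 8 K N
    have h2 : m * m * s ≤ 8 * (K * N) := by
      calc m * m * s ≤ m * m * (4 * X) := Nat.mul_le_mul_left _ h1
        _ = 4 * (m * m * X) := by ring
        _ ≤ 4 * (2 * q ^ 2) := Nat.mul_le_mul_left _ hmX
        _ = 8 * q ^ 2 := by ring
        _ ≤ 8 * (K * N) := Nat.mul_le_mul_left _ hcon.le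
    have h3 : 256 * K * (A₂ + 1) * (m * s) ≤ 8 * (K * N) := by
      calc 256 * K * (A₂ + 1) * (m * s) = m * m * s := by rw [← hm]; ring
        _ ≤ _ := h2
    have h4 : (8 * K) * (32 * (A₂ * s)) ≤ (8 * K) * N := by
      calc (8 * K) * (32 * (A₂ * s)) = 256 * K * A₂ * (1 * s) := by ring
        _ ≤ 256 * K * (A₂ + 1) * (m * s) :=
            Nat.mul_le_mul (Nat.mul_le_mul_left _ (by omega)) (Nat.mul_le_mul_right _ (by omega))
        _ ≤ 8 * (K * N) := h3
        _ = (8 * K) * N := by ring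
    have h5 := Nat.le_of_mul_le_mul_left h4 (by omega)
    linarith
  have b2 : 8 * t ≤ 5 * N := by omega
  have b3 : 3 * N ≤ 4 * u + 4 := by omega
  have b4 : (8 : ℝ) * t ≤ 5 * N := by exact_mod_cast b2
  have b5 : (3 : ℝ) * N ≤ 4 * u + 4 := by exact_mod_cast b3
  have b6 : 32 * (A₂ * s) ≤ N := by omega
  have b7 : (32 : ℝ) * (A₂ * s) ≤ N := by exact_mod_cast b6
  have b8 : (64 : ℝ) ≤ N := by
    have : 64 ≤ N := by omega
    exact_mod_cast this
  have b9 : ((p + s : ℕ) : ℝ) ≤ u := by linarith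
  have b10 : p + s ≤ u := by exact_mod_cast b9
  omega

end Pool.Agent.X1.NfaAlg
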