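import Mathlib
import Pool.Agent.X1.NfaGen

/-!
# Automata and completely multiplicative functions with values `±1`

The values of a completely multiplicative function which is not identically one have only short
periodic stretches: this follows from the dilation `n ↦ k n`.
-/

set_option autoImplicit false

namespace Pool.Agent.X1.NfaAlg

open Finset Pool.Agent.X3.NfaWords

/-- periodic stretches of completely multiplicative functions are short -/
theorem mult_noPer {G : Type} [Group G] (f : ℕ → G)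
    (hf : ∀ m n : ℕ, 1 ≤ m → 1 ≤ n → f (m * n) = f m * f n) (p : ℕ) (hp : 1 ≤ p) (hfp : f p ≠ 1)
    (T : ℕ) (hT : 1 ≤ T) :
    NoPer2 (fun i => f (i + 1)) (1 + 1 / (T : ℝ)) ((p * T + 3 : ℕ) : ℝ) 0 := by
  intro N _ s hs
  by_contra hcon
  push Not at hcon
  have hTR : (1 : ℝ) ≤ T := by exact_mod_cast hT
  have hsR : (1 : ℝ) ≤ s := by exact_mod_cast hs
  have hcon' : ∀ n : ℕ, N + 1 ≤ n →
      ((n + s : ℕ) : ℝ) ≤ (1 + 1 / (T : ℝ)) * (N + 1) + (p * T + 2) * s → f (n + s) = f n := by
    intro n hn h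
    obtain ⟨i, rfl⟩ : ∃ i, n = i + 1 := ⟨n - 1, by omega⟩
    have h1 := hcon i (by omega) (by
      push_cast at h ⊢
      have h2 : 1 / (T : ℝ) ≤ 1 := by
        rw [div_le_one (by linarith)]; exact hTR
      nlinarith)
    have e : i + 1 + s = i + s + 1 := by ring
    rw [e]
    exact h1
  have hstep : ∀ t : ℕ, T ≤ t → t ≤ p * T → f (t + 1) = f t := by
    intro t ht1 ht2
    have ht0 : 1 ≤ t := by omega
    have hst : 0 < s * t := Nat.mul_pos (by omega) (by omega)
    obtain ⟨k, hk⟩ : ∃ k, k = (N + 1) / (s * t) + 1 := ⟨_, rfl⟩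
    have hk1 : N + 1 < s * t * k := by rw [hk]; exact Nat.lt_mul_div_succ _ hst
    have hk2 : s * t * (k - 1) ≤ N + 1 := by
      rw [hk, Nat.add_sub_cancel]; exact Nat.mul_div_le _ _
    have hk0 : 1 ≤ k := by rw [hk]; exact Nat.succ_pos _
    have hk3 : s * t * k ≤ N + 1 + s * t := by
      obtain ⟨k', rfl⟩ : ∃ k', k = k' + 1 := ⟨k - 1, by omega⟩
      rw [Nat.add_sub_cancel] at hk2
      have : s * t * (k' + 1) = s * t * k' + s * t := by ring
      omega
    have hk4 : (t : ℝ) * (k * s) ≤ (N + 1) + s * t := by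
      have h1 : t * (k * s) ≤ N + 1 + s * t := by
        calc t * (k * s) = s * t * k := by ring
          _ ≤ _ := hk3
      exact_mod_cast h1
    have htR : (T : ℝ) ≤ t := by exact_mod_cast ht1
    have htR2 : (t : ℝ) ≤ p * T := by exact_mod_cast ht2
    have ht0R : (0 : ℝ) < t := by linarith
    -- k s ≤ (N + 1) / T + s
    have hk5 : (k : ℝ) * s ≤ (N + 1) / T + s := by
      have h1 : (k : ℝ) * s ≤ ((N + 1) + s * t) / t := by
        rw [le_div_iff₀ ht0R]
        linarith
      have h2 : ((N : ℝ) + 1 + s * t) / t = (N + 1) / t + s := by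
        field_simp
      have h3 : ((N : ℝ) + 1) / t ≤ (N + 1) / T :=
        div_le_div_of_nonneg_left (by positivity) (by linarith) htR
      rw [h2] at h1
      linarith
    have hchain : ∀ j : ℕ, j ≤ k → f (s * t * k + j * s) = f (s * t * k) := by
      intro j
      induction j with
      | zero => intro _; simp
      | succ j ih =>
        intro hj
        rw [← ih (by omega)]
        have e : s * t * k + (j + 1) * s = (s * t * k + j * s) + s := by ring
        rw [e]
        apply hcon'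
        · have : N + 1 < s * t * k := hk1
          omega
        · have h1 : (((s * t * k + j * s) + s : ℕ) : ℝ) ≤ t * (k * s) + k * s := by
            have h2 : (s * t * k + j * s) + s ≤ t * (k * s) + k * s := by
              have h3 : (j + 1) * s ≤ k * s := Nat.mul_le_mul_right _ hj
              calc (s * t * k + j * s) + s = t * (k * s) + (j + 1) * s := by ring
                _ ≤ _ := Nat.add_le_add_left h3 _
            exact_mod_cast h2
          have h2 : (s : ℝ) * t ≤ s * (p * T) := mul_le_mul_of_nonneg_left htR2 (by linarith)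
          have h3 : (1 + 1 / (T : ℝ)) * (N + 1) = (N + 1) + (N + 1) / T := by ring
          rw [h3]
          nlinarith
    have h1 := hchain k le_rfl
    have e1 : s * t * k + k * s = (k * s) * (t + 1) := by ring
    have e2 : s * t * k = (k * s) * t := by ring
    have hks : 1 ≤ k * s := Nat.mul_pos (by omega) (by omega)
    rw [e1, e2, hf _ _ hks (by omega), hf _ _ hks ht0] at h1
    exact mul_left_cancel h1
  have hconst : ∀ j : ℕ, T + j ≤ p * T → f (T + j) = f T := by
    intro j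
    induction j with
    | zero => intro _; rfl
    | succ j ih =>
      intro hj
      rw [← ih (by omega)]
      exact hstep (T + j) (by omega) (by omega)
  have hpT : T ≤ p * T := Nat.le_mul_of_pos_left _ hp
  have h1 := hconst (p * T - T) (by omega)
  have e : T + (p * T - T) = p * T := by omega
  rw [e, hf p T hp hT] at h1
  exact hfp (mul_eq_right.1 h1)

/-- the number of accepted words for completely multiplicative functions -/
theorem mult_main (p : ℕ) (hp : 1 ≤ p) (κ : ℝ) (hκ : 0 ≤ κ) : ∃ C : ℝ, 0 < C ∧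
    ∀ (f : ℕ → ℤˣ), (∀ m n : ℕ, 1 ≤ m → 1 ≤ n → f (m * n) = f m * f n) → f p = -1 →
    ∀ (σ : Type) [Fintype σ] (M : NFA ℤˣ σ) (N : ℕ) (d : ℕ → ℤˣ),
      (List.range N).map d ∈ M.accepts →
        ((N : ℝ) / (C * (Fintype.card σ : ℝ) ^ 2)) ^ κ ≤
          2 ^ ((Finset.range N).filter fun i => d i ≠ f (i + 1)).card *
          ({w : List ℤˣ | w ∈ M.accepts ∧ w.length = N}.ncard : ℝ) := by
  have hl2 : 0 < Real.log 2 := Real.log_pos (by norm_num)
  obtain ⟨T, hT⟩ := exists_nat_gt ((κ + 1) / Real.log 2)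
  have hT0 : (0 : ℝ) < T := lt_of_le_of_lt (by positivity) hT
  have hT1 : 1 ≤ T := by
    have : 0 < T := by exact_mod_cast hT0
    omega
  have hρκ : (1 + 1 / (T : ℝ)) ^ κ ≤ 2 := by
    have h1 : (1 + 1 / (T : ℝ)) ^ κ ≤ Real.exp (1 / (T : ℝ)) ^ κ :=
      Real.rpow_le_rpow (by positivity) (by linarith [Real.add_one_le_exp (1 / (T : ℝ))]) hκ
    have h2 : Real.exp (1 / (T : ℝ)) ^ κ = Real.exp (1 / (T : ℝ) * κ) := (Real.exp_mul _ κ).symm
    rw [h2] at h1
    refine h1.trans ?_
    rw [← Real.le_log_iff_exp_le (by norm_num)]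
    rw [div_lt_iff₀ hl2] at hT
    rw [one_div_mul_eq_div, div_le_iff₀ hT0]
    nlinarith
  obtain ⟨C, hC, h'⟩ := main2 (ρ := 1 + 1 / (T : ℝ)) (A := ((p * T + 3 : ℕ) : ℝ)) (κ := κ)
    (by have : 0 < 1 / (T : ℝ) := by positivity
        linarith) (Nat.cast_nonneg _) hκ hρκ 0
  refine ⟨C, hC, fun f hf hfp σ _ M N d hacc => ?_⟩
  have hne : f p ≠ 1 := by rw [hfp]; decide
  obtain ⟨W, hW1, hW2⟩ := h' ℤˣ σ (fun i => f (i + 1)) (mult_noPer f hf p hp hne T hT1) d M N
    (by rw [seg_zero]; exact hacc)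
    ((Finset.range N).filter fun i => d i ≠ f (i + 1)) (by
      intro i hi hn
      by_contra hne
      exact hn (Finset.mem_filter.2 ⟨Finset.mem_range.2 hi, hne⟩))
  refine hW2.trans ?_
  have hfin : {w : List ℤˣ | w ∈ M.accepts ∧ w.length = N}.Finite :=
    (List.finite_length_eq ℤˣ N).subset fun w hw => hw.2
  have : ((W : Set (List ℤˣ))).ncard ≤ {w : List ℤˣ | w ∈ M.accepts ∧ w.length = N}.ncard :=
    Set.ncard_le_ncard (fun w hw => ⟨(hW1 w hw).2, (hW1 w hw).1⟩) hfin
  rw [Set.ncard_coe_finset] at this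
  rw [mul_comm]
  refine mul_le_mul_of_nonneg_left ?_ (by positivity)
  exact_mod_cast this

/-- automata which accept only the first `N` values of a completely multiplicative function -/
theorem mult_unique (p : ℕ) (hp : 1 ≤ p) (K : ℝ) :
    ∃ N₁ : ℕ, ∀ (f : ℕ → ℤˣ), (∀ m n : ℕ, 1 ≤ m → 1 ≤ n → f (m * n) = f m * f n) → f p = -1 →
    ∀ (σ : Type) [Fintype σ] (M : NFA ℤˣ σ) (N : ℕ), N₁ ≤ N →
      (List.range N).map (fun i => f (i + 1)) ∈ M.accepts →
      (∀ w ∈ M.accepts, w.length = N → w = (List.range N).map (fun i => f (i + 1))) →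
      K * √N ≤ Fintype.card σ := by
  obtain ⟨k, hk⟩ := exists_nat_gt (K ^ 2 + 1)
  have hk1 : 1 ≤ k := by
    have : (0 : ℝ) < k := lt_of_le_of_lt (by positivity) hk
    have : 0 < k := by exact_mod_cast this
    omega
  obtain ⟨m, hm1, hm⟩ := uniq_gen k hk1 (p * 10 + 3)
  obtain ⟨N₁, hN₁⟩ := hm (2 * (p * (128 * m) + 3)) 0 (by omega)
  refine ⟨N₁, fun f hf hfp σ _ M N hN hacc huniq => ?_⟩
  have hne : f p ≠ 1 := by rw [hfp]; decide
  rw [← seg_zero] at hacc
  rw [NFA.accepts_iff_exists_path] at hacc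
  obtain ⟨s, hs, t, ht, ⟨pt⟩⟩ := hacc
  obtain ⟨g, hg0, hgN, hg⟩ := run_of_P N 0 s t (by simpa using P_of_path pt)
  rw [Nat.zero_add] at hgN
  have hu : Uniq M (fun i => f (i + 1)) g N := by
    refine ⟨fun i hi => hg i (Nat.zero_le _) (by omega), fun w hw hwl => ?_⟩
    rw [seg_zero]
    refine huniq w ?_ hwl
    rw [NFA.accepts_iff_exists_path]
    rw [hg0, hgN] at hw
    exact ⟨s, hs, t, ht, path_of_P hw⟩
  have hz2 : NoPer2 (fun i => f (i + 1)) (1 + 1 / 10) ((p * 10 + 3 : ℕ) : ℝ) 0 := by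
    have := mult_noPer f hf p hp hne 10 (by norm_num)
    simpa using this
  have hz1 : NoPer2 (fun i => f (i + 1)) (1 + 1 / (128 * (m : ℝ)))
      (((2 * (p * (128 * m) + 3) : ℕ) : ℝ) / 2) 0 := by
    have := mult_noPer f hf p hp hne (128 * m) (by omega)
    have e : (((2 * (p * (128 * m) + 3) : ℕ) : ℝ) / 2) = ((p * (128 * m) + 3 : ℕ) : ℝ) := by
      push_cast; ring
    rw [e]
    have e2 : (1 : ℝ) + 1 / ((128 * m : ℕ) : ℝ) = 1 + 1 / (128 * (m : ℝ)) := by push_cast; ring
    rw [← e2]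
    exact this
  have h1 := hN₁ ℤˣ σ (fun i => f (i + 1)) hz2 hz1 M g N hN hu
  have h2 : (k : ℝ) * N ≤ (Fintype.card σ : ℝ) ^ 2 := by exact_mod_cast h1
  have h3 : (K * √N) ^ 2 ≤ (Fintype.card σ : ℝ) ^ 2 := by
    rw [mul_pow, Real.sq_sqrt (Nat.cast_nonneg N)]
    refine le_trans (mul_le_mul_of_nonneg_right ?_ (Nat.cast_nonneg N)) h2
    linarith
  exact (le_abs_self _).trans (abs_le_of_sq_le_sq h3 (Nat.cast_nonneg _))

end Pool.Agent.X1.NfaAlg
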