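import Mathlib
import Pool.Agent.X1.NfaGeo2
import Pool.Agent.X1.NfaMult

/-!
# Many accepted words and many states for sequences with short periodic stretches
-/

set_option autoImplicit false

namespace Pool.Agent.X1.NfaAlg

open Finset Pool.Agent.X3.NfaWords

variable {α σ : Type}

/-- number of words of length `N` accepted -/
noncomputable def naccG (M : NFA α σ) (N : ℕ) : ℕ :=
  {w : List α | w ∈ M.accepts ∧ w.length = N}.ncard

lemma naccG_ge [Finite α] (M : NFA α σ) (N : ℕ) (W : Finset (List α))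
    (hW : ∀ w ∈ W, w.length = N ∧ w ∈ M.accepts) : W.card ≤ naccG M N := by
  have hfin : {w : List α | w ∈ M.accepts ∧ w.length = N}.Finite :=
    (List.finite_length_eq α N).subset fun w hw => hw.2
  have : ((W : Set (List α))).ncard ≤ {w : List α | w ∈ M.accepts ∧ w.length = N}.ncard :=
    Set.ncard_le_ncard (fun w hw => ⟨(hW w hw).2, (hW w hw).1⟩) hfin
  rwa [Set.ncard_coe_finset] at this

lemma cardG_pos [Fintype σ] {M : NFA α σ} {w : List α} (hacc : w ∈ M.accepts) :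
    1 ≤ Fintype.card σ := by
  rw [NFA.accepts_iff_exists_path] at hacc
  obtain ⟨s, -⟩ := hacc
  exact Fintype.card_pos_iff.2 ⟨s⟩

lemma naccG_pos [Finite α] {N : ℕ} {M : NFA α σ} {d : ℕ → α}
    (hacc : (List.range N).map d ∈ M.accepts) : 1 ≤ naccG M N := by
  have := naccG_ge M N {(List.range N).map d} (fun w hw => by
    rw [Finset.mem_singleton] at hw
    subst hw
    exact ⟨by simp, hacc⟩)
  simpa using this

/-- many words -/
theorem aper_words {δ C : ℝ} (hδ : 0 < δ) (hC : 0 ≤ C) : ∃ T : ℕ, 2 ≤ T ∧ ∀ (A : ℝ) (N₀ : ℕ),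
    0 ≤ A → ∃ N₁ : ℕ, ∀ (α σ : Type) [Finite α] [DecidableEq α] [Fintype σ] (z : ℕ → α),
    NoPer2 z (1 + 1 / (T : ℝ)) A N₀ → ∀ (M : NFA α σ) (N : ℕ), N₁ ≤ N →
      (Fintype.card σ : ℝ) ≤ (N : ℝ) ^ (1 - δ) → ∀ d : ℕ → α,
      (((Finset.range N).filter fun i => d i ≠ z i).card : ℝ) ≤ C * Real.log N →
      (List.range N).map d ∈ M.accepts → Real.exp (C * Real.log N ^ 2) ≤ naccG M N := by
  obtain ⟨κ, hκ⟩ : ∃ κ, κ = 4 * (C + 1) / δ := ⟨_, rfl⟩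
  have hκ0 : 0 < κ := by rw [hκ]; positivity
  have hκδ : κ * δ = 4 * (C + 1) := by rw [hκ]; field_simp
  obtain ⟨T, hT⟩ := exists_nat_gt (2 * (κ + C) / δ + 2)
  have hpos : 0 ≤ 2 * (κ + C) / δ := by positivity
  have hT2 : 2 ≤ T := by
    have : (2 : ℝ) < T := by linarith
    exact_mod_cast this.le
  have hTR : (0 : ℝ) < T := by linarith
  obtain ⟨ρ, hρe⟩ : ∃ ρ : ℝ, ρ = 1 + 1 / (T : ℝ) := ⟨_, rfl⟩
  have hρ : 1 < ρ := by
    rw [hρe]
    have : 0 < 1 / (T : ℝ) := by positivity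
    linarith
  have hlog : Real.log ρ ≤ 1 / (T : ℝ) := by
    have := Real.log_le_sub_one_of_pos (show 0 < ρ by linarith)
    rw [hρe] at this ⊢
    linarith
  have hkey : (κ + C) * Real.log ρ ≤ δ / 2 := by
    have h1 : (κ + C) * Real.log ρ ≤ (κ + C) * (1 / (T : ℝ)) :=
      mul_le_mul_of_nonneg_left hlog (by positivity)
    have h2 : (κ + C) * (1 / (T : ℝ)) ≤ δ / 2 := by
      rw [mul_one_div, div_le_iff₀ hTR]
      have h3 : 2 * (κ + C) / δ < T := by linarith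
      rw [div_lt_iff₀ hδ] at h3
      linarith
    linarith
  have hc : C < κ * (δ - (κ + C) * Real.log ρ) := by
    have h1 : κ * (δ / 2) ≤ κ * (δ - (κ + C) * Real.log ρ) :=
      mul_le_mul_of_nonneg_left (by linarith) hκ0.le
    linarith
  refine ⟨T, hT2, fun A N₀ hA => ?_⟩
  rw [← hρe]
  obtain ⟨D, hD, hmain⟩ := many_geo2 hρ hA N₀
  obtain ⟨N₁, hnum⟩ := num_words2 hρ hκ0 hc hC hD
  refine ⟨N₁, fun α σ _ _ _ z hz M N hN hq d hk hacc => ?_⟩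
  refine hnum N (Fintype.card σ) _ hN (cardG_pos hacc) hq hk (naccG M N)
    (by exact_mod_cast naccG_pos hacc) (fun K hK => ?_)
  obtain ⟨W, hW1, hW2⟩ := hmain α σ z hz d M N (by rw [seg_zero]; exact hacc)
    ((Finset.range N).filter fun i => d i ≠ z i) (by
      intro i hi hn
      by_contra hne
      exact hn (Finset.mem_filter.2 ⟨Finset.mem_range.2 hi, hne⟩)) K hK
  refine hW2.trans (mul_le_mul_of_nonneg_left ?_ (Nat.cast_nonneg _))
  exact_mod_cast naccG_ge M N W hW1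

/-- many states -/
theorem aper_states {ε : ℝ} (hε : 0 < ε) : ∃ T : ℕ, 2 ≤ T ∧ ∀ (A : ℝ) (N₀ : ℕ),
    0 ≤ A → ∃ N₁ : ℕ, ∀ (α σ : Type) [Finite α] [Fintype σ] (z : ℕ → α),
    NoPer2 z (1 + 1 / (T : ℝ)) A N₀ → ∀ (M : NFA α σ) (N : ℕ), N₁ ≤ N →
      (List.range N).map z ∈ M.accepts →
      (∀ w ∈ M.accepts, w.length = N → w = (List.range N).map z) →
      (N : ℝ) * Real.exp (-(ε * √(Real.log N))) ≤ Fintype.card σ := by
  obtain ⟨T, hT⟩ := exists_nat_gt ((4 / ε) ^ 2 + 2)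
  have hsq : 0 ≤ (4 / ε) ^ 2 := sq_nonneg _
  have hT2 : 2 ≤ T := by
    have : (2 : ℝ) < T := by linarith
    exact_mod_cast this.le
  have hTR : (0 : ℝ) < T := by linarith
  obtain ⟨ρ, hρe⟩ : ∃ ρ : ℝ, ρ = 1 + 1 / (T : ℝ) := ⟨_, rfl⟩
  have hρ : 1 < ρ := by
    rw [hρe]
    have : 0 < 1 / (T : ℝ) := by positivity
    linarith
  have hlog : Real.log ρ ≤ 1 / (T : ℝ) := by
    have := Real.log_le_sub_one_of_pos (show 0 < ρ by linarith)
    rw [hρe] at this ⊢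
    linarith
  have hc : 2 * √(Real.log ρ) < ε := by
    have h1 : √(Real.log ρ) ≤ ε / 4 := by
      apply Real.sqrt_le_iff.2
      refine ⟨by positivity, hlog.trans ?_⟩
      rw [div_le_iff₀ hTR]
      have h2 : (4 / ε) ^ 2 < T := by linarith
      rw [div_pow, div_lt_iff₀ (by positivity)] at h2
      nlinarith
    linarith
  refine ⟨T, hT2, fun A N₀ hA => ?_⟩
  rw [← hρe]
  obtain ⟨D, hD, hmain⟩ := many_geo2 hρ hA N₀
  obtain ⟨N₁, hnum⟩ := num_states2 hρ hc hD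
  refine ⟨N₁, fun α σ _ _ z hz M N hN hacc huniq => ?_⟩
  refine hnum N (Fintype.card σ) hN (cardG_pos hacc) (fun K hK => ?_)
  obtain ⟨W, hW1, hW2⟩ := hmain α σ z hz z M N (by rw [seg_zero]; exact hacc) ∅
    (fun i _ _ => rfl) K hK
  have h2 : W.card ≤ 1 := by
    rw [Finset.card_le_one]
    intro u hu v hv
    rw [huniq u (hW1 u hu).2 (hW1 u hu).1, huniq v (hW1 v hv).2 (hW1 v hv).1]
  have h3 : (W.card : ℝ) ≤ 1 := by exact_mod_cast h2
  rw [card_empty, Nat.add_zero] at hW2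
  refine hW2.trans ?_
  have : (0 : ℝ) ≤ N := Nat.cast_nonneg _
  nlinarith

/-- irrational algebraic numbers -/
theorem alg_all {y : ℝ} (hy : 0 ≤ y) (halg : IsAlgebraic ℚ y) (hirr : Irrational y)
    (S : Finset ℕ) (hS : ∀ p ∈ S, p.Prime) :
    (∀ δ C : ℝ, 0 < δ → 0 ≤ C → ∃ N₁ : ℕ, ∀ (b : ℕ) [NeZero b], 2 ≤ b →
      (∀ p : ℕ, p.Prime → p ∣ b → p ∈ S) → ∀ (σ : Type) [Fintype σ] (M : NFA (Fin b) σ) (N : ℕ),
      N₁ ≤ N → (Fintype.card σ : ℝ) ≤ (N : ℝ) ^ (1 - δ) → ∀ d : ℕ → Fin b,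
      (((Finset.range N).filter fun i => d i ≠ Real.digits y b i).card : ℝ) ≤ C * Real.log N →
      (List.range N).map d ∈ M.accepts → Real.exp (C * Real.log N ^ 2) ≤ naccG M N) ∧
    (∀ ε : ℝ, 0 < ε → ∃ N₁ : ℕ, ∀ (b : ℕ) [NeZero b], 2 ≤ b →
      (∀ p : ℕ, p.Prime → p ∣ b → p ∈ S) → ∀ (σ : Type) [Fintype σ] (M : NFA (Fin b) σ) (N : ℕ),
      N₁ ≤ N → (List.range N).map (Real.digits y b) ∈ M.accepts →
      (∀ w ∈ M.accepts, w.length = N → w = (List.range N).map (Real.digits y b)) →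
      (N : ℝ) * Real.exp (-(ε * √(Real.log N))) ≤ Fintype.card σ) := by
  have hT' : ∀ T : ℕ, 2 ≤ T → (1 : ℝ) / T ≤ 1 / 2 := by
    intro T hT
    have : (2 : ℝ) ≤ T := by exact_mod_cast hT
    exact div_le_div_of_nonneg_left (by norm_num) (by norm_num) this
  have hT0 : ∀ T : ℕ, 2 ≤ T → (0 : ℝ) < 1 / T := by
    intro T hT
    have : (2 : ℝ) ≤ T := by exact_mod_cast hT
    positivity
  constructor
  · intro δ C hδ hC
    obtain ⟨T, hT, h⟩ := aper_words hδ hC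
    obtain ⟨N₀, hN₀⟩ := alg_noPer hy halg hirr S hS (1 / (T : ℝ)) (hT0 T hT) (hT' T hT)
    obtain ⟨N₁, hN₁⟩ := h (5 / 2) N₀ (by norm_num)
    exact ⟨N₁, fun b _ hb hbS σ _ M N hN hq d hk hacc =>
      hN₁ (Fin b) σ (Real.digits y b) (hN₀ b hb hbS) M N hN hq d hk hacc⟩
  · intro ε hε
    obtain ⟨T, hT, h⟩ := aper_states hε
    obtain ⟨N₀, hN₀⟩ := alg_noPer hy halg hirr S hS (1 / (T : ℝ)) (hT0 T hT) (hT' T hT)
    obtain ⟨N₁, hN₁⟩ := h (5 / 2) N₀ (by norm_num)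
    exact ⟨N₁, fun b _ hb hbS σ _ M N hN hacc huniq =>
      hN₁ (Fin b) σ (Real.digits y b) (hN₀ b hb hbS) M N hN hacc huniq⟩

/-- completely multiplicative functions with values `±1`: many words -/
theorem mult_words (p : ℕ) (hp : 1 ≤ p) (δ C : ℝ) (hδ : 0 < δ) (hC : 0 ≤ C) :
    ∃ N₁ : ℕ, ∀ (f : ℕ → ℤˣ), (∀ m n : ℕ, 1 ≤ m → 1 ≤ n → f (m * n) = f m * f n) → f p = -1 →
      ∀ (σ : Type) [Fintype σ] (M : NFA ℤˣ σ) (N : ℕ), N₁ ≤ N →
      (Fintype.card σ : ℝ) ≤ (N : ℝ) ^ (1 - δ) → ∀ d : ℕ → ℤˣ,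
      (((Finset.range N).filter fun i => d i ≠ f (i + 1)).card : ℝ) ≤ C * Real.log N →
      (List.range N).map d ∈ M.accepts → Real.exp (C * Real.log N ^ 2) ≤ naccG M N := by
  obtain ⟨T, hT, h⟩ := aper_words hδ hC
  obtain ⟨N₁, hN₁⟩ := h ((p * T + 3 : ℕ) : ℝ) 0 (Nat.cast_nonneg _)
  refine ⟨N₁, fun f hf hfp σ _ M N hN hq d hk hacc => ?_⟩
  have hne : f p ≠ 1 := by rw [hfp]; decide
  exact hN₁ ℤˣ σ (fun i => f (i + 1)) (mult_noPer f hf p hp hne T (by omega)) M N hN hq d hk hacc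

/-- completely multiplicative functions with values `±1`: many states -/
theorem mult_states (p : ℕ) (hp : 1 ≤ p) (ε : ℝ) (hε : 0 < ε) :
    ∃ N₁ : ℕ, ∀ (f : ℕ → ℤˣ), (∀ m n : ℕ, 1 ≤ m → 1 ≤ n → f (m * n) = f m * f n) → f p = -1 →
      ∀ (σ : Type) [Fintype σ] (M : NFA ℤˣ σ) (N : ℕ), N₁ ≤ N →
      (List.range N).map (fun i => f (i + 1)) ∈ M.accepts →
      (∀ w ∈ M.accepts, w.length = N → w = (List.range N).map (fun i => f (i + 1))) →
      (N : ℝ) * Real.exp (-(ε * √(Real.log N))) ≤ Fintype.card σ := by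
  obtain ⟨T, hT, h⟩ := aper_states hε
  obtain ⟨N₁, hN₁⟩ := h ((p * T + 3 : ℕ) : ℝ) 0 (Nat.cast_nonneg _)
  refine ⟨N₁, fun f hf hfp σ _ M N hN hacc huniq => ?_⟩
  have hne : f p ≠ 1 := by rw [hfp]; decide
  exact hN₁ ℤˣ σ (fun i => f (i + 1)) (mult_noPer f hf p hp hne T (by omega)) M N hN hacc huniq

end Pool.Agent.X1.NfaAlg
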