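import Mathlib

/-!
# Continued logarithms of rational numbers: basic recursion

`clist p q` is the list of terms of the continued logarithm expansion of `p / q` (`p ≥ q ≥ 1`).
-/

namespace Pool.Agent.X1.ContLog

/-- The continued logarithm expansion of `p / q` for `p ≥ q ≥ 1`. With
`k = ⌊log₂ (p / q)⌋`, it is `[k]` if `p = 2 ^ k q`, and otherwise `k` followed by the expansion of
`2 ^ k q / (p - 2 ^ k q)`. -/
def clist (p q : ℕ) : List ℕ :=
  if 0 < q ∧ q ≤ p ∧ p ≠ 2 ^ Nat.log 2 (p / q) * q then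
    Nat.log 2 (p / q) ::
      clist (2 ^ Nat.log 2 (p / q) * q) (p - 2 ^ Nat.log 2 (p / q) * q)
  else [Nat.log 2 (p / q)]
termination_by p + q
decreasing_by
  rename_i h
  obtain ⟨h1, h2, h3⟩ := h
  have h4 : 1 ≤ p / q := (Nat.one_le_div_iff h1).2 h2
  have h5 : 2 ^ Nat.log 2 (p / q) ≤ p / q := Nat.pow_log_le_self 2 (by omega)
  have h6 : 2 ^ Nat.log 2 (p / q) * q ≤ p := (Nat.le_div_iff_mul_le h1).1 h5
  omega

/-- Length of the expansion of `p / q`. -/
def len (p q : ℕ) : ℕ := (clist p q).length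

lemma log_bounds {p q : ℕ} (hq : 0 < q) (h : q ≤ p) :
    2 ^ Nat.log 2 (p / q) * q ≤ p ∧ p < 2 ^ (Nat.log 2 (p / q) + 1) * q := by
  have h4 : 1 ≤ p / q := (Nat.one_le_div_iff hq).2 h
  have h5 : 2 ^ Nat.log 2 (p / q) ≤ p / q := Nat.pow_log_le_self 2 (by omega)
  have h6 : p / q < 2 ^ (Nat.log 2 (p / q) + 1) := Nat.lt_pow_succ_log_self (by norm_num) _
  exact ⟨(Nat.le_div_iff_mul_le hq).1 h5, (Nat.div_lt_iff_lt_mul hq).1 h6⟩

lemma log_eq {p q k : ℕ} (hq : 0 < q) (h1 : 2 ^ k * q ≤ p) (h2 : p < 2 ^ (k + 1) * q) :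
    Nat.log 2 (p / q) = k := by
  rw [Nat.log_eq_iff (Or.inr ⟨by norm_num, ?_⟩)]
  · exact ⟨(Nat.le_div_iff_mul_le hq).2 h1, (Nat.div_lt_iff_lt_mul hq).2 h2⟩
  · have : 2 ^ k ≤ p / q := (Nat.le_div_iff_mul_le hq).2 h1
    have h3 : 0 < 2 ^ k := by positivity
    omega

lemma len_pow {q k : ℕ} (hq : 0 < q) : len (2 ^ k * q) q = 1 := by
  unfold len
  rw [clist]
  have hlog : Nat.log 2 (2 ^ k * q / q) = k := by
    rw [Nat.mul_div_cancel _ hq, Nat.log_pow (by norm_num)]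
  rw [hlog, if_neg (by tauto)]
  rfl

lemma len_step {p q k : ℕ} (hq : 0 < q) (h1 : 2 ^ k * q < p) (h2 : p < 2 ^ (k + 1) * q) :
    len p q = 1 + len (2 ^ k * q) (p - 2 ^ k * q) := by
  unfold len
  rw [clist]
  have hlog := log_eq hq h1.le h2
  have hk : 1 ≤ 2 ^ k := Nat.one_le_two_pow
  rw [hlog, if_pos ⟨hq, by nlinarith, by omega⟩, List.length_cons]
  ring

lemma len_pos (p q : ℕ) : 1 ≤ len p q := by
  unfold len
  rw [clist]
  split_ifs <;> simp

lemma len_congr : ∀ (s p q p' q' : ℕ), p + q ≤ s → 0 < q → 0 < q' → q ≤ p → p * q' = p' * q →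
    len p q = len p' q' := by
  intro s
  induction s with
  | zero => intro p q p' q' h1 h2; omega
  | succ s ih =>
    intro p q p' q' hs hq hq' hqp hcross
    obtain ⟨k, hk⟩ : ∃ k, Nat.log 2 (p / q) = k := ⟨_, rfl⟩
    obtain ⟨hb1, hb2⟩ := log_bounds hq hqp
    rw [hk] at hb1 hb2
    have hb1' : 2 ^ k * q' ≤ p' := by
      have : 2 ^ k * q' * q ≤ p' * q := by
        rw [← hcross]
        calc 2 ^ k * q' * q = (2 ^ k * q) * q' := by ring
          _ ≤ p * q' := Nat.mul_le_mul_right _ hb1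
      exact Nat.le_of_mul_le_mul_right this hq
    have hb2' : p' < 2 ^ (k + 1) * q' := by
      have : p' * q < 2 ^ (k + 1) * q' * q := by
        rw [← hcross]
        calc p * q' < (2 ^ (k + 1) * q) * q' := Nat.mul_lt_mul_of_pos_right hb2 hq'
          _ = 2 ^ (k + 1) * q' * q := by ring
      exact Nat.lt_of_mul_lt_mul_right this
    rcases hb1.eq_or_lt with he | hl
    · have he' : 2 ^ k * q' = p' := by
        have : 2 ^ k * q' * q = p' * q := by rw [← hcross, ← he]; ring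
        exact Nat.eq_of_mul_eq_mul_right hq this
      rw [← he, ← he', len_pow hq, len_pow hq']
    · have hl' : 2 ^ k * q' < p' := by
        have : 2 ^ k * q' * q < p' * q := by
          rw [← hcross]
          calc 2 ^ k * q' * q = (2 ^ k * q) * q' := by ring
            _ < p * q' := Nat.mul_lt_mul_of_pos_right hl hq'
        exact Nat.lt_of_mul_lt_mul_right this
      rw [len_step hq hl hb2, len_step hq' hl' hb2']
      congr 1
      have hk1 : 0 < 2 ^ k := by positivity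
      have hk2 : 2 ^ (k + 1) * q = 2 * (2 ^ k * q) := by rw [pow_succ]; ring
      apply ih
      · omega
      · omega
      · omega
      · omega
      · zify [hl.le, hl'.le] at hcross ⊢
        linear_combination (-(2 : ℤ) ^ k) * hcross

/-- The length of the expansion of a rational number `x ≥ 1`. -/
def LQ (x : ℚ) : ℕ := len x.num.toNat x.den

lemma LQ_div {p q : ℕ} (hq : 0 < q) (h : q ≤ p) : LQ ((p : ℚ) / q) = len p q := by
  unfold LQ
  set x : ℚ := (p : ℚ) / q with hx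
  have hqQ : (0 : ℚ) < q := by exact_mod_cast hq
  have hx0 : 0 ≤ x := by positivity
  have hnum : 0 ≤ x.num := Rat.num_nonneg.2 hx0
  have hcross : p * x.den = x.num.toNat * q := by
    have h1 : (x.num : ℚ) / x.den = (p : ℚ) / q := by rw [Rat.num_div_den]
    have hden : (0 : ℚ) < x.den := by exact_mod_cast x.den_pos
    rw [div_eq_div_iff hden.ne' hqQ.ne'] at h1
    have h2 : x.num * q = p * x.den := by exact_mod_cast h1
    zify
    rw [Int.toNat_of_nonneg hnum, h2]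
  exact (len_congr _ p q _ _ le_rfl hq x.den_pos h hcross).symm

lemma exists_rep {x : ℚ} (hx : 1 ≤ x) : ∃ p q : ℕ, 0 < q ∧ q ≤ p ∧ x = (p : ℚ) / q := by
  refine ⟨x.num.toNat, x.den, x.den_pos, ?_, ?_⟩
  · have hnum : 0 ≤ x.num := Rat.num_nonneg.2 (by linarith)
    have h1 : (x.den : ℚ) ≤ x.num := by
      have := Rat.num_div_den x
      have hden : (0 : ℚ) < x.den := by exact_mod_cast x.den_pos
      rw [← this, le_div_iff₀ hden] at hx
      linarith
    have h2 : (x.den : ℤ) ≤ x.num := by exact_mod_cast h1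
    omega
  · have hnum : 0 ≤ x.num := Rat.num_nonneg.2 (by linarith)
    have : ((x.num.toNat : ℕ) : ℚ) = x.num := by
      exact_mod_cast Int.toNat_of_nonneg hnum
    rw [this, Rat.num_div_den]

lemma LQ_pos (x : ℚ) : 1 ≤ LQ x := len_pos _ _

lemma LQ_pow (k : ℕ) : LQ ((2 : ℚ) ^ k) = 1 := by
  have h := LQ_div (p := 2 ^ k * 1) (q := 1) one_pos (by simpa using Nat.one_le_two_pow)
  rw [len_pow one_pos] at h
  rw [← h]
  congr 1
  push_cast
  ring

lemma LQ_step {x : ℚ} (k : ℕ) (h1 : (2 : ℚ) ^ k < x) (h2 : x < 2 ^ (k + 1)) :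
    LQ x = 1 + LQ (2 ^ k / (x - 2 ^ k)) := by
  have hk1 : (1 : ℚ) ≤ 2 ^ k := one_le_pow₀ (by norm_num)
  obtain ⟨p, q, hq, hqp, rfl⟩ := exists_rep (x := x) (by linarith)
  have hqQ : (0 : ℚ) < q := by exact_mod_cast hq
  have h1' : 2 ^ k * q < p := by
    rw [lt_div_iff₀ hqQ] at h1
    exact_mod_cast h1
  have h2' : p < 2 ^ (k + 1) * q := by
    rw [div_lt_iff₀ hqQ] at h2
    exact_mod_cast h2
  have hk2 : 2 ^ (k + 1) * q = 2 * (2 ^ k * q) := by rw [pow_succ]; ring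
  rw [LQ_div hq hqp, len_step hq h1' h2']
  congr 1
  rw [← LQ_div (by omega) (by omega)]
  congr 1
  rw [Nat.cast_sub h1'.le]
  push_cast
  have h3 : (p : ℚ) - 2 ^ k * q ≠ 0 := by
    have : ((2 ^ k * q : ℕ) : ℚ) < p := by exact_mod_cast h1'
    push_cast at this
    linarith
  have h4 : (p : ℚ) / q - 2 ^ k ≠ 0 := by
    intro h
    apply h3
    field_simp at h
    linarith
  rw [div_eq_div_iff h3 h4]
  field_simp

lemma exists_k {x : ℚ} (hx : 1 ≤ x) : ∃ k : ℕ, (2 : ℚ) ^ k ≤ x ∧ x < 2 ^ (k + 1) := by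
  obtain ⟨p, q, hq, hqp, rfl⟩ := exists_rep hx
  have hqQ : (0 : ℚ) < q := by exact_mod_cast hq
  obtain ⟨h1, h2⟩ := log_bounds hq hqp
  refine ⟨Nat.log 2 (p / q), ?_, ?_⟩
  · rw [le_div_iff₀ hqQ]
    exact_mod_cast h1
  · rw [div_lt_iff₀ hqQ]
    exact_mod_cast h2

lemma LQ_two_mul {x : ℚ} (hx : 1 ≤ x) : LQ (2 * x) = LQ x := by
  obtain ⟨k, h1, h2⟩ := exists_k hx
  rcases h1.eq_or_lt with h | h
  · rw [← h, LQ_pow, show 2 * (2 : ℚ) ^ k = 2 ^ (k + 1) by ring, LQ_pow]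
  · rw [LQ_step k h h2, LQ_step (k + 1) (by rw [pow_succ]; linarith)
      (by rw [pow_succ _ (k + 1)]; linarith)]
    congr 2
    rw [show (2 : ℚ) ^ (k + 1) = 2 * 2 ^ k by ring, ← mul_sub]
    rw [mul_div_mul_left _ _ (by norm_num)]

lemma LQ_pow_mul {x : ℚ} (hx : 1 ≤ x) (t : ℕ) : LQ (2 ^ t * x) = LQ x := by
  induction t with
  | zero => simp
  | succ t ih =>
    have h1 : (1 : ℚ) ≤ 2 ^ t := one_le_pow₀ (by norm_num)
    rw [show (2 : ℚ) ^ (t + 1) * x = 2 * (2 ^ t * x) by ring, LQ_two_mul (by nlinarith), ih]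

/-- `L(n)`, the length of the expansion of the integer `n`. -/
def L (n : ℕ) : ℕ := (clist n 1).length

lemma L_eq_LQ {n : ℕ} (hn : 1 ≤ n) : L n = LQ (n : ℚ) := by
  have h := LQ_div (p := n) (q := 1) one_pos hn
  rw [Nat.cast_one, div_one] at h
  rw [h]
  rfl

lemma L_pow (k : ℕ) : L (2 ^ k) = 1 := by
  rw [L_eq_LQ Nat.one_le_two_pow]
  push_cast
  exact LQ_pow k

lemma L_pos (n : ℕ) : 1 ≤ L n := len_pos n 1

/-- `L(2^j + r)` is eventually constant in `j`. -/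
lemma L_pow_add {r : ℕ} (hr : 1 ≤ r) : ∀ j, r ≤ j → L (2 ^ j + r) = L (2 ^ r + r) := by
  have key : ∀ j, r ≤ j → L (2 ^ j + r) = 1 + LQ ((2 : ℚ) ^ j / r) := by
    intro j hj
    have h2 : j < 2 ^ j := Nat.lt_two_pow_self
    rw [L_eq_LQ (by omega)]
    have h3 : (r : ℚ) < 2 ^ j := by exact_mod_cast (lt_of_le_of_lt hj h2)
    have h4 : (0 : ℚ) < r := by exact_mod_cast hr
    push_cast
    rw [LQ_step j (by linarith) (by rw [pow_succ]; linarith)]
    congr 2
    ring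
  intro j hj
  rw [key j hj, key r le_rfl]
  congr 1
  obtain ⟨t, rfl⟩ : ∃ t, j = r + t := ⟨j - r, by omega⟩
  have h4 : (0 : ℚ) < r := by exact_mod_cast hr
  have h5 : (1 : ℚ) ≤ 2 ^ r / r := by
    rw [le_div_iff₀ h4, one_mul]
    exact_mod_cast (Nat.lt_two_pow_self (n := r)).le
  rw [show (2 : ℚ) ^ (r + t) / r = 2 ^ t * (2 ^ r / r) by rw [pow_add]; ring, LQ_pow_mul h5]

end Pool.Agent.X1.ContLog
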