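import Mathlib
import Pool.Agent.X1.ContLog

/-!
# Continued logarithms: growth bounds and special identities
-/

namespace Pool.Agent.X1.ContLogIds

open Pool.Agent.X1.ContLog

/-! ### Upper bound -/

/-- The weight used in the upper bound. -/
def W (p q : ℕ) : ℕ := (p + q) * (if p % 2 = 1 then 5 else 4)

lemma W_le (p q : ℕ) : W p q ≤ (p + q) * 5 := by
  unfold W
  split_ifs <;> omega

lemma W_ge (p q : ℕ) : (p + q) * 4 ≤ W p q := by
  unfold W
  split_ifs <;> omega

lemma len_upper : ∀ (s p q : ℕ), p + q ≤ s → 0 < q → q ≤ p →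
    (6 / 5 : ℚ) ^ len p q ≤ W p q := by
  intro s
  induction s with
  | zero => intro p q h1 h2; omega
  | succ s ih =>
    intro p q hs hq hqp
    obtain ⟨k, hk⟩ : ∃ k, Nat.log 2 (p / q) = k := ⟨_, rfl⟩
    obtain ⟨hb1, hb2⟩ := log_bounds hq hqp
    rw [hk] at hb1 hb2
    have hWge := W_ge p q
    rcases hb1.eq_or_lt with he | hl
    · rw [← he, len_pow hq, he]
      have h8 : (8 : ℚ) ≤ W p q := by
        have : 8 ≤ W p q := by omega
        exact_mod_cast this
      norm_num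
      linarith
    · have hk2 : 2 ^ (k + 1) * q = 2 * (2 ^ k * q) := by rw [pow_succ]; ring
      rw [len_step hq hl hb2, pow_add, pow_one]
      rcases Nat.eq_zero_or_pos k with hk0 | hk0
      · -- x < 2
        subst hk0
        simp only [pow_zero, one_mul] at *
        have h1 := ih q (p - q) (by omega) (by omega) (by omega)
        have h2 := W_le q (p - q)
        have h3 : (W q (p - q) : ℚ) * 6 ≤ 5 * W p q := by
          have : W q (p - q) * 6 ≤ 5 * W p q := by omega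
          exact_mod_cast this
        linarith
      · obtain ⟨k', rfl⟩ : ∃ k', k = k' + 1 := ⟨k - 1, by omega⟩
        have hk3 : 2 ^ (k' + 1) * q = 2 * (2 ^ k' * q) := by rw [pow_succ]; ring
        rcases Nat.mod_two_eq_zero_or_one p with hp | hp
        · -- p even
          have hc : len (2 ^ (k' + 1) * q) (p - 2 ^ (k' + 1) * q)
              = len (2 ^ k' * q) ((p - 2 ^ (k' + 1) * q) / 2) := by
            apply len_congr _ _ _ _ _ le_rfl
            · omega
            · omega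
            · omega
            · have e1 : p - 2 ^ (k' + 1) * q = 2 * ((p - 2 ^ (k' + 1) * q) / 2) := by omega
              generalize (p - 2 ^ (k' + 1) * q) / 2 = z at *
              rw [e1, hk3]
              ring
          rw [hc]
          have h1 := ih (2 ^ k' * q) ((p - 2 ^ (k' + 1) * q) / 2) (by omega) (by omega) (by omega)
          have h2 := W_le (2 ^ k' * q) ((p - 2 ^ (k' + 1) * q) / 2)
          have h3 : (W (2 ^ k' * q) ((p - 2 ^ (k' + 1) * q) / 2) : ℚ) * 6 ≤ 5 * W p q := by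
            have : W (2 ^ k' * q) ((p - 2 ^ (k' + 1) * q) / 2) * 6 ≤ 5 * W p q := by omega
            exact_mod_cast this
          linarith
        · -- p odd
          have h1 := ih (2 ^ (k' + 1) * q) (p - 2 ^ (k' + 1) * q) (by omega) (by omega) (by omega)
          have h2 : W (2 ^ (k' + 1) * q) (p - 2 ^ (k' + 1) * q) = p * 4 := by
            unfold W
            rw [if_neg (by omega)]
            congr 1
            omega
          have h4 : W p q = (p + q) * 5 := by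
            unfold W
            rw [if_pos hp]
          have h3 : (W (2 ^ (k' + 1) * q) (p - 2 ^ (k' + 1) * q) : ℚ) * 6 ≤ 5 * W p q := by
            have : W (2 ^ (k' + 1) * q) (p - 2 ^ (k' + 1) * q) * 6 ≤ 5 * W p q := by omega
            exact_mod_cast this
          linarith

/-- `L(n) ≤ 4 N + 9` for `1 ≤ n < 2 ^ N`. -/
theorem L_upper {n N : ℕ} (hn : 1 ≤ n) (hN : n < 2 ^ N) : L n ≤ 4 * N + 9 := by
  have h1 := len_upper (n + 1) n 1 le_rfl one_pos hn
  have h2 := W_le n 1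
  have h3 : (W n 1 : ℚ) ≤ 2 ^ N * 5 := by
    have : W n 1 ≤ 2 ^ N * 5 := le_trans h2 (Nat.mul_le_mul_right _ (by omega))
    exact_mod_cast this
  have h4 : (2 : ℚ) ^ N ≤ (6 / 5 : ℚ) ^ (4 * N) := by
    rw [pow_mul]
    exact pow_le_pow_left₀ (by norm_num) (by norm_num) N
  have h5 : (5 : ℚ) ≤ (6 / 5 : ℚ) ^ 9 := by norm_num
  have h6 : (6 / 5 : ℚ) ^ len n 1 ≤ (6 / 5 : ℚ) ^ (4 * N + 9) := by
    rw [pow_add]
    calc (6 / 5 : ℚ) ^ len n 1 ≤ 2 ^ N * 5 := h1.trans h3
      _ ≤ (6 / 5 : ℚ) ^ (4 * N) * (6 / 5 : ℚ) ^ 9 := by gcongr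
  exact (pow_le_pow_iff_right₀ (by norm_num)).1 h6

/-! ### Lower bound by the number of binary ones -/

/-- The number of ones in the binary expansion. -/
def pc (n : ℕ) : ℕ := if n = 0 then 0 else n % 2 + pc (n / 2)
decreasing_by omega

lemma pc_zero : pc 0 = 0 := by rw [pc]; simp

lemma pc_two_mul (n : ℕ) : pc (2 * n) = pc n := by
  rcases Nat.eq_zero_or_pos n with h | h
  · subst h; rfl
  · rw [pc, if_neg (by omega)]
    have h1 : 2 * n % 2 = 0 := by omega
    have h2 : 2 * n / 2 = n := by omega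
    rw [h1, h2, zero_add]

lemma pc_two_mul_add_one (n : ℕ) : pc (2 * n + 1) = pc n + 1 := by
  rw [pc, if_neg (by omega)]
  have h1 : (2 * n + 1) % 2 = 1 := by omega
  have h2 : (2 * n + 1) / 2 = n := by omega
  rw [h1, h2, add_comm]

lemma pc_one : pc 1 = 1 := by
  have := pc_two_mul_add_one 0
  rw [pc_zero] at this
  simpa using this

lemma pc_pow_mul (t n : ℕ) : pc (2 ^ t * n) = pc n := by
  induction t with
  | zero => simp
  | succ t ih => rw [pow_succ, show 2 ^ t * 2 * n = 2 * (2 ^ t * n) by ring, pc_two_mul, ih]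

lemma pc_pow (t : ℕ) : pc (2 ^ t) = 1 := by
  have := pc_pow_mul t 1
  rw [mul_one, pc_one] at this
  exact this

lemma pc_add : ∀ (s a b : ℕ), a + b ≤ s → pc (a + b) ≤ pc a + pc b := by
  intro s
  induction s with
  | zero =>
    intro a b h
    have ha : a = 0 := by omega
    have hb : b = 0 := by omega
    subst ha; subst hb
    simp [pc_zero]
  | succ s ih =>
    intro a b h
    rcases Nat.even_or_odd' a with ⟨a', rfl | rfl⟩ <;>
      rcases Nat.even_or_odd' b with ⟨b', rfl | rfl⟩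
    · rcases Nat.eq_zero_or_pos (a' + b') with h0 | h0
      · have ha : a' = 0 := by omega
        have hb : b' = 0 := by omega
        subst ha; subst hb
        simp [pc_zero]
      · rw [← mul_add, pc_two_mul, pc_two_mul, pc_two_mul]
        exact ih a' b' (by omega)
    · rw [show 2 * a' + (2 * b' + 1) = 2 * (a' + b') + 1 by ring, pc_two_mul_add_one,
        pc_two_mul_add_one, pc_two_mul]
      have := ih a' b' (by omega)
      omega
    · rw [show 2 * a' + 1 + 2 * b' = 2 * (a' + b') + 1 by ring, pc_two_mul_add_one,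
        pc_two_mul_add_one, pc_two_mul]
      have := ih a' b' (by omega)
      omega
    · rw [show 2 * a' + 1 + (2 * b' + 1) = 2 * (a' + b' + 1) by ring, pc_two_mul,
        pc_two_mul_add_one, pc_two_mul_add_one]
      have h1 := ih (a' + b') 1 (by omega)
      have h2 := ih a' b' (by omega)
      rw [pc_one] at h1
      omega

lemma pc_pow_sub_one (g : ℕ) : pc (2 ^ g - 1) = g := by
  induction g with
  | zero => simp [pc_zero]
  | succ g ih =>
    have h1 : 1 ≤ 2 ^ g := Nat.one_le_two_pow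
    rw [show 2 ^ (g + 1) - 1 = 2 * (2 ^ g - 1) + 1 by rw [pow_succ]; omega, pc_two_mul_add_one, ih]

/-- Numerator and denominator (unreduced) of a continued logarithm. -/
def UV : List ℕ → ℕ × ℕ
  | [] => (1, 0)
  | k :: l => (2 ^ k * ((UV l).1 + (UV l).2), (UV l).1)

lemma UV_spec : ∀ (s p q : ℕ), p + q ≤ s → 0 < q → q ≤ p →
    p * (UV (clist p q)).2 = q * (UV (clist p q)).1 := by
  intro s
  induction s with
  | zero => intro p q h1 h2; omega
  | succ s ih =>
    intro p q hs hq hqp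
    obtain ⟨hb1, hb2⟩ := log_bounds hq hqp
    rw [clist]
    split_ifs with h
    · obtain ⟨k, hk⟩ : ∃ k, Nat.log 2 (p / q) = k := ⟨_, rfl⟩
      rw [hk] at hb1 hb2 h ⊢
      have hk2 : 2 ^ (k + 1) * q = 2 * (2 ^ k * q) := by rw [pow_succ]; ring
      have hk1 : 1 * q ≤ 2 ^ k * q := Nat.mul_le_mul_right _ Nat.one_le_two_pow
      have hlt : 2 ^ k * q < p := lt_of_le_of_ne hb1 (Ne.symm h.2.2)
      have := ih (2 ^ k * q) (p - 2 ^ k * q) (by omega) (by omega) (by omega)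
      simp only [UV]
      generalize (UV (clist (2 ^ k * q) (p - 2 ^ k * q))).1 = U at *
      generalize (UV (clist (2 ^ k * q) (p - 2 ^ k * q))).2 = V at *
      zify [hlt.le] at this ⊢
      linear_combination (-1 : ℤ) * this
    · have he : p = 2 ^ Nat.log 2 (p / q) * q := by
        by_contra hne
        exact h ⟨hq, hqp, hne⟩
      simp only [UV]
      generalize Nat.log 2 (p / q) = k at *
      rw [he]
      ring

lemma UV_gcd (l : List ℕ) : ∃ S, Nat.gcd (UV l).1 (UV l).2 ∣ 2 ^ S := by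
  induction l with
  | nil => exact ⟨0, by simp [UV]⟩
  | cons k l ih =>
    obtain ⟨S, hS⟩ := ih
    refine ⟨k + S, ?_⟩
    simp only [UV]
    generalize (UV l).1 = U at *
    generalize (UV l).2 = V at *
    calc Nat.gcd (2 ^ k * (U + V)) U ∣ Nat.gcd (2 ^ k) U * Nat.gcd (U + V) U :=
          Nat.gcd_mul_left_dvd_mul_gcd _ _ _
      _ ∣ 2 ^ k * 2 ^ S := by
          apply mul_dvd_mul (Nat.gcd_dvd_left _ _)
          have : Nat.gcd (U + V) U = Nat.gcd U V := by
            rw [Nat.gcd_comm, Nat.gcd_self_add_right]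
          rw [this]
          exact hS
      _ = 2 ^ (k + S) := by rw [pow_add]

lemma UV_pc (l : List ℕ) : pc (UV l).1 ≤ 2 ^ l.length ∧ pc (UV l).2 ≤ 2 ^ l.length := by
  induction l with
  | nil => simp [UV, pc_one, pc_zero]
  | cons k l ih =>
    obtain ⟨h1, h2⟩ := ih
    simp only [UV, List.length_cons, pow_succ]
    constructor
    · rw [pc_pow_mul]
      have := pc_add _ (UV l).1 (UV l).2 le_rfl
      omega
    · omega

theorem pc_le {n : ℕ} (hn : 1 ≤ n) : pc n ≤ 2 ^ L n := by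
  have h1 := UV_spec (n + 1) n 1 le_rfl one_pos hn
  rw [one_mul] at h1
  obtain ⟨S, hS⟩ := UV_gcd (clist n 1)
  have h2 : Nat.gcd (UV (clist n 1)).1 (UV (clist n 1)).2 = (UV (clist n 1)).2 := by
    rw [← h1, mul_comm]
    exact Nat.gcd_eq_right (Dvd.intro _ rfl)
  rw [h2] at hS
  obtain ⟨γ, _, hγ⟩ := (Nat.dvd_prime_pow Nat.prime_two).1 hS
  have h3 := (UV_pc (clist n 1)).1
  rw [← h1, hγ, mul_comm, pc_pow_mul] at h3
  exact h3

/-- `L(2^g - c)` is unbounded: explicit lower bound. -/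
theorem L_lower {g c : ℕ} (hc : 1 ≤ c) (hg : c < 2 ^ g) :
    g ≤ 2 ^ L (2 ^ g - c) + pc (c - 1) := by
  have h1 := pc_le (n := 2 ^ g - c) (by omega)
  have h2 := pc_add _ (2 ^ g - c) (c - 1) le_rfl
  rw [show 2 ^ g - c + (c - 1) = 2 ^ g - 1 by omega, pc_pow_sub_one] at h2
  omega

/-! ### The two identities -/

/-- `cseq j` is `c_{j+1}`: `0, 1, 5, 41, …`. -/
def cseq : ℕ → ℕ
  | 0 => 0
  | j + 1 => 2 ^ (j + 1) * cseq j + 1

/-- triangular numbers `T_j = 1 + … + j`. -/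
def tri : ℕ → ℕ
  | 0 => 0
  | j + 1 => tri j + (j + 1)

/-- `L(2^{j+1} - 1 + 1/X) = 2j + 1 + L((X - c_{j+1})/2^{T_j})`. -/
theorem identity_one (j : ℕ) : ∀ X : ℚ, (2 : ℚ) ^ tri j < X - cseq j →
    LQ (2 ^ (j + 1) - 1 + 1 / X) = 2 * j + 1 + LQ ((X - cseq j) / 2 ^ tri j) := by
  induction j with
  | zero =>
    intro X hX
    simp only [tri, cseq, pow_zero, Nat.cast_zero, sub_zero] at hX
    have hX0 : 0 < X := by linarith
    have h1 : 1 / X < 1 := by rw [div_lt_one hX0]; exact hX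
    have h2 : 0 < 1 / X := by positivity
    rw [LQ_step 0 (by norm_num; positivity) (by norm_num at h1 ⊢; linarith)]
    simp only [tri, cseq, zero_add, pow_zero, Nat.cast_zero, sub_zero, pow_one, mul_zero, div_one]
    congr 2
    rw [show (2 : ℚ) - 1 + 1 / X - 1 = 1 / X by ring, one_div_one_div]
  | succ j ih =>
    intro X hX
    simp only [tri, cseq] at hX
    have hpow : (1 : ℚ) ≤ 2 ^ (j + 1) := one_le_pow₀ (by norm_num)
    have htri : (1 : ℚ) ≤ 2 ^ tri j := one_le_pow₀ (by norm_num)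
    have hcs : (0 : ℚ) ≤ cseq j := Nat.cast_nonneg _
    push_cast at hX
    rw [pow_add] at hX
    -- X' = (X - 1) / 2^(j+1)
    have hX1 : 2 ^ (j + 1) * (2 ^ tri j + (cseq j : ℚ)) < X - 1 := by
      rw [mul_add]; linarith
    have hX' : (2 : ℚ) ^ tri j < (X - 1) / 2 ^ (j + 1) - cseq j := by
      rw [lt_sub_iff_add_lt, lt_div_iff₀ (by positivity)]
      linarith
    have hX0 : 1 < X := by nlinarith
    have hXpos : 0 < X := by linarith
    have hinv : 0 < 1 / X := by positivity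
    have hinv1 : 1 / X < 1 := by rw [div_lt_one hXpos]; exact hX0
    have hP : (2 : ℚ) ^ (j + 1 + 1) = 2 * 2 ^ (j + 1) := by ring
    -- first step: digit j+1
    have hpos1 : 0 < (2 : ℚ) ^ (j + 1) - 1 + 1 / X := by linarith
    rw [LQ_step (j + 1) (by rw [hP]; linarith) (by rw [hP]; linarith)]
    have e1 : (2 : ℚ) ^ (j + 1 + 1) - 1 + 1 / X - 2 ^ (j + 1) = 2 ^ (j + 1) - 1 + 1 / X := by
      rw [hP]; ring
    rw [e1]
    -- second step: digit 0
    have hlt1 : (2 : ℚ) ^ 0 < 2 ^ (j + 1) / (2 ^ (j + 1) - 1 + 1 / X) := by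
      rw [pow_zero, lt_div_iff₀ hpos1]; linarith
    have hX2 : 1 / X < 1 / 2 := by
      rw [div_lt_div_iff₀ hXpos (by norm_num)]
      nlinarith
    have hlt2 : 2 ^ (j + 1) / ((2 : ℚ) ^ (j + 1) - 1 + 1 / X) < 2 ^ (0 + 1) := by
      rw [div_lt_iff₀ hpos1]
      have : (2 : ℚ) ≤ 2 ^ (j + 1) := by
        calc (2 : ℚ) = 2 ^ 1 := by norm_num
          _ ≤ 2 ^ (j + 1) := pow_le_pow_right₀ (by norm_num) (by omega)
      norm_num
      rw [one_div] at hinv
      linarith
    rw [LQ_step 0 hlt1 hlt2]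
    have e2 : (2 : ℚ) ^ 0 / (2 ^ (j + 1) / (2 ^ (j + 1) - 1 + 1 / X) - 2 ^ 0)
        = 2 ^ (j + 1) - 1 + 1 / ((X - 1) / 2 ^ (j + 1)) := by
      have h1 : 1 - 1 / X ≠ 0 := by linarith
      have h2 : X - 1 ≠ 0 := by linarith
      have h3 : X ≠ 0 := hXpos.ne'
      have h4 : (2 : ℚ) ^ (j + 1) ≠ 0 := by positivity
      have e3 : 2 ^ (j + 1) / ((2 : ℚ) ^ (j + 1) - 1 + 1 / X) - 2 ^ 0
          = (1 - 1 / X) / ((2 : ℚ) ^ (j + 1) - 1 + 1 / X) := by
        rw [pow_zero, div_sub_one hpos1.ne']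
        congr 1
        ring
      rw [e3, pow_zero, one_div_div, div_eq_iff h1, one_div_div]
      generalize (2 : ℚ) ^ (j + 1) = Y at *
      field_simp
      ring
    rw [e2, ih _ hX']
    have e4 : ((X - 1) / 2 ^ (j + 1) - (cseq j : ℚ)) / 2 ^ tri j
        = (X - ((cseq (j + 1) : ℕ) : ℚ)) / 2 ^ tri (j + 1) := by
      simp only [tri, cseq]
      push_cast
      rw [pow_add]
      field_simp
      ring
    rw [e4]
    ring

/-- `A_1 = 2`, `A_{g+1} = 2^{g+1} A_g - 1` (here `aseq g = A_{g+1}`). -/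
def aseq : ℕ → ℕ
  | 0 => 2
  | g + 1 => 2 ^ (g + 2) * aseq g - 1

lemma aseq_ge (g : ℕ) : 2 ≤ aseq g := by
  induction g with
  | zero => simp [aseq]
  | succ g ih =>
    simp only [aseq]
    have : 2 ≤ 2 ^ (g + 2) := by
      calc 2 = 2 ^ 1 := by norm_num
        _ ≤ 2 ^ (g + 2) := Nat.pow_le_pow_right (by norm_num) (by omega)
    have : 2 * 2 ≤ 2 ^ (g + 2) * aseq g := Nat.mul_le_mul this ih
    omega

/-- `L(A_{g+1} - 1/ρ) = 2 (g+1) + L((ρ+1)/2^{g+1} - 1)` for `ρ > 2^{g+2} - 1`. -/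
theorem identity_two (g : ℕ) : ∀ ρ : ℚ, (2 : ℚ) ^ (g + 2) - 1 < ρ →
    LQ (aseq g - 1 / ρ) = 2 * (g + 1) + LQ ((ρ + 1) / 2 ^ (g + 1) - 1) := by
  induction g with
  | zero =>
    intro ρ hρ
    norm_num at hρ
    have h0 : 0 < ρ := by linarith
    have h1 : 1 / ρ < 1 / 3 := by
      rw [div_lt_div_iff₀ h0 (by norm_num)]; linarith
    have h2 : 0 < 1 / ρ := by positivity
    simp only [aseq, Nat.cast_ofNat]
    rw [LQ_step 0 (by norm_num at h1 ⊢; linarith) (by norm_num at h2 ⊢; linarith)]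
    have e1 : (2 : ℚ) ^ 0 / (2 - 1 / ρ - 2 ^ 0) = ρ / (ρ - 1) := by
      rw [pow_zero]
      have h3 : ρ - 1 ≠ 0 := by linarith
      have h4 : (2 : ℚ) - 1 / ρ - 1 ≠ 0 := by linarith
      rw [div_eq_div_iff h4 h3]
      field_simp
      ring
    rw [e1]
    have h3 : 0 < ρ - 1 := by linarith
    rw [LQ_step 0 (by rw [pow_zero, lt_div_iff₀ h3]; linarith)
      (by rw [div_lt_iff₀ h3]; norm_num; linarith)]
    have e2 : (2 : ℚ) ^ 0 / (ρ / (ρ - 1) - 2 ^ 0) = 2 ^ 1 * ((ρ + 1) / 2 - 1) := by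
      rw [pow_zero, div_sub_one h3.ne', one_div_div]
      rw [show ρ - (ρ - 1) = 1 by ring, div_one]
      ring
    rw [e2, LQ_pow_mul (by linarith)]
    norm_num
    ring
  | succ g ih =>
    intro ρ hρ
    have hP0 : (1 : ℚ) ≤ 2 ^ (g + 1) := one_le_pow₀ (by norm_num)
    have hP2 : (2 : ℚ) ^ (g + 2) = 2 * 2 ^ (g + 1) := by ring
    have hP3 : (2 : ℚ) ^ (g + 1 + 2) = 4 * 2 ^ (g + 1) := by ring
    rw [hP3] at hρ
    have hρ0 : 0 < ρ := by linarith
    set P : ℚ := 2 ^ (g + 1) with hP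
    -- ρ' = 2P ρ / (ρ + 1)
    have hρ' : 2 * P - 1 < 2 * P * ρ / (ρ + 1) := by
      rw [lt_div_iff₀ (by linarith)]
      nlinarith
    have key := ih (2 * P * ρ / (ρ + 1)) (by rw [hP2]; exact hρ')
    have hA := aseq_ge g
    have ha1 : ((aseq (g + 1) : ℕ) : ℚ) = 2 * P * aseq g - 1 := by
      simp only [aseq]
      have h1 : 1 ≤ 2 ^ (g + 2) * aseq g := by
        have : 0 < 2 ^ (g + 2) := by positivity
        nlinarith
      rw [Nat.cast_sub h1]
      push_cast
      rw [hP2]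
    have hval : (aseq (g + 1) : ℚ) - 1 / ρ
        = 2 ^ (g + 2) * ((aseq g : ℚ) - 1 / (2 * P * ρ / (ρ + 1))) := by
      rw [ha1, hP2, one_div_div]
      field_simp
      ring
    have hge1 : (1 : ℚ) ≤ (aseq g : ℚ) - 1 / (2 * P * ρ / (ρ + 1)) := by
      have h1 : (2 : ℚ) ≤ aseq g := by exact_mod_cast hA
      have h2 : 1 / (2 * P * ρ / (ρ + 1)) ≤ 1 := by
        rw [div_le_one (by positivity)]
        linarith
      linarith
    rw [hval, LQ_pow_mul hge1, key]
    -- now the two extra digits 0, g+1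
    have hy : (2 * P * ρ / (ρ + 1) + 1) / P - 1 = 1 + (ρ + 1 - 2 * P) / (P * (ρ + 1)) := by
      have h1 : ρ + 1 ≠ 0 := by linarith
      have h2 : P ≠ 0 := by linarith
      field_simp
      ring
    have hnum : 0 < ρ + 1 - 2 * P := by linarith
    have hden : 0 < P * (ρ + 1) := by nlinarith
    rw [hy]
    have hfr : 0 < (ρ + 1 - 2 * P) / (P * (ρ + 1)) := by positivity
    have hfr1 : (ρ + 1 - 2 * P) / (P * (ρ + 1)) < 1 := by
      rw [div_lt_one hden]; nlinarith
    rw [LQ_step 0 (by rw [pow_zero]; linarith) (by norm_num; linarith)]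
    have e1 : (2 : ℚ) ^ 0 / (1 + (ρ + 1 - 2 * P) / (P * (ρ + 1)) - 2 ^ 0)
        = P * (ρ + 1) / (ρ + 1 - 2 * P) := by
      rw [pow_zero, show 1 + (ρ + 1 - 2 * P) / (P * (ρ + 1)) - 1
        = (ρ + 1 - 2 * P) / (P * (ρ + 1)) by ring, one_div_div]
    rw [e1]
    have hPP : (2 : ℚ) ^ (g + 1 + 1) = 2 * P := by rw [pow_succ, ← hP]; ring
    rw [LQ_step (g + 1) (by rw [← hP, lt_div_iff₀ hnum]; nlinarith)
      (by rw [hPP, div_lt_iff₀ hnum]; nlinarith)]
    have e2 : (2 : ℚ) ^ (g + 1) / (P * (ρ + 1) / (ρ + 1 - 2 * P) - 2 ^ (g + 1))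
        = (ρ + 1) / 2 ^ (g + 1 + 1) - 1 := by
      rw [hPP, ← hP]
      have h1 : ρ + 1 - 2 * P ≠ 0 := hnum.ne'
      have h2 : P ≠ 0 := by linarith
      have h3 : P * (ρ + 1) / (ρ + 1 - 2 * P) - P = 2 * P ^ 2 / (ρ + 1 - 2 * P) := by
        rw [div_sub' h1]
        congr 1
        ring
      rw [h3, div_div_eq_mul_div]
      field_simp
    rw [e2]
    ring

/-- The combined identity: for `j ≥ 0` and `2^{g+1} - c_{j+1} > 2^{T_j}`,
`L(A_{g+1} 2^{g+1+j+1} - 1) = 2 (g+1) + 2j + 1 + L(2^{g+1} - c_{j+1})`. -/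
theorem identity_three {g j : ℕ} (h : 2 ^ tri j + cseq j < 2 ^ (g + 1)) :
    L (aseq g * 2 ^ (g + 1 + (j + 1)) - 1)
      = 2 * (g + 1) + (2 * j + 1) + L (2 ^ (g + 1) - cseq j) := by
  have hA := aseq_ge g
  have hpw : 1 ≤ 2 ^ (g + 1 + (j + 1)) := Nat.one_le_two_pow
  have hge : 2 ≤ aseq g * 2 ^ (g + 1 + (j + 1)) := by nlinarith
  have htri : 1 ≤ 2 ^ tri j := Nat.one_le_two_pow
  rw [L_eq_LQ (by omega), L_eq_LQ (by omega)]
  rw [Nat.cast_sub (by omega), Nat.cast_sub (by omega)]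
  push_cast
  set R : ℚ := 2 ^ (g + 1 + (j + 1)) with hR
  have hRpos : 0 < R := by positivity
  have hR1 : (1 : ℚ) ≤ R := one_le_pow₀ (by norm_num)
  have e1 : (aseq g : ℚ) * R - 1 = 2 ^ (g + 1 + (j + 1)) * ((aseq g : ℚ) - 1 / R) := by
    rw [← hR]
    field_simp
  have hinv : 1 / R ≤ 1 := by rw [div_le_one hRpos]; exact hR1
  have hAQ : (2 : ℚ) ≤ aseq g := by exact_mod_cast hA
  rw [e1, LQ_pow_mul (by linarith)]
  have hR2 : (2 : ℚ) ^ (g + 2) - 1 < R := by
    have : (2 : ℚ) ^ (g + 2) ≤ R := pow_le_pow_right₀ (by norm_num) (by omega)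
    linarith
  rw [identity_two g R hR2]
  have e2 : (R + 1) / 2 ^ (g + 1) - 1 = 2 ^ (j + 1) - 1 + 1 / ((2 : ℚ) ^ (g + 1)) := by
    rw [hR, pow_add _ (g + 1) (j + 1)]
    have : (2 : ℚ) ^ (g + 1) ≠ 0 := by positivity
    field_simp
    ring
  have hX : (2 : ℚ) ^ tri j < 2 ^ (g + 1) - cseq j := by
    rw [lt_sub_iff_add_lt]
    exact_mod_cast h
  rw [e2, identity_one j _ hX]
  have e3 : ((2 : ℚ) ^ (g + 1) - cseq j) = 2 ^ tri j * (((2 : ℚ) ^ (g + 1) - cseq j) / 2 ^ tri j) := by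
    rw [mul_div_cancel₀ _ (by positivity)]
  have h4 : (1 : ℚ) ≤ ((2 : ℚ) ^ (g + 1) - cseq j) / 2 ^ tri j := by
    rw [le_div_iff₀ (by positivity), one_mul]
    exact hX.le
  conv_rhs => rw [e3, LQ_pow_mul h4]
  ring

end Pool.Agent.X1.ContLogIds
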