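import Mathlib

/-!
# Quasi-linearity of slowly growing `k`-regular sequences along `k^ι (n+1) - 1`

If `K` is a finitely generated `ℤ`-module of integer sequences, stable under
`b ↦ (n ↦ b (k n + k - 1))`, and `b (k^ι (n+1) - 1)` grows at most linearly in `ι` for all `b ∈ K`,
then these sequences are arithmetic progressions along all progressions `ι₀ + t P`, `ι₀ ≥ m`,
with `m` and `P` independent of `b` and `n`.
-/

namespace Pool.Agent.X1.RegQuasi

open Filter

/-! ### Sequences with vanishing differences and linear growth -/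

/-- difference operator -/
def dd (z : ℕ → ℤ) : ℕ → ℤ := fun t => z (t + 1) - z t

lemma tendsto_of_dd {w : ℕ → ℤ} (h : ∀ᶠ t in atTop, 1 ≤ dd w t) : Tendsto w atTop atTop := by
  obtain ⟨t0, ht0⟩ := eventually_atTop.1 h
  have key : ∀ s : ℕ, w t0 + s ≤ w (t0 + s) := by
    intro s
    induction s with
    | zero => simp
    | succ s ih =>
      have := ht0 (t0 + s) (by omega)
      unfold dd at this
      rw [show t0 + (s + 1) = t0 + s + 1 by ring]
      push_cast
      linarith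
  rw [tendsto_atTop_atTop]
  intro B
  refine ⟨t0 + (B - w t0).toNat, fun t ht => ?_⟩
  obtain ⟨s, rfl⟩ : ∃ s, t = t0 + s := ⟨t - t0, by omega⟩
  have := key s
  omega

lemma no_superlinear {z : ℕ → ℤ} {C : ℤ} (hC : ∀ t : ℕ, z t ≤ C * (t + 1))
    (h : Tendsto (dd z) atTop atTop) : False := by
  have h1 := h.eventually_ge_atTop (C + 1)
  obtain ⟨t0, ht0⟩ := eventually_atTop.1 h1
  have key : ∀ s : ℕ, z t0 + (C + 1) * s ≤ z (t0 + s) := by
    intro s
    induction s with
    | zero => simp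
    | succ s ih =>
      have := ht0 (t0 + s) (by omega)
      unfold dd at this
      rw [show t0 + (s + 1) = t0 + s + 1 by ring]
      push_cast
      linarith
  have h2 := key (C * (t0 + 1) - z t0 + 1).toNat
  have h3 := hC (t0 + (C * (t0 + 1) - z t0 + 1).toNat)
  have h4 : C * (t0 + 1) - z t0 + 1 ≤ ((C * (t0 + 1) - z t0 + 1).toNat : ℤ) :=
    Int.self_le_toNat _
  generalize (C * (t0 + 1) - z t0 + 1).toNat = s at *
  push_cast at h3
  nlinarith

lemma iter_tendsto {z : ℕ → ℤ} : ∀ i : ℕ, Tendsto (dd^[i + 1] z) atTop atTop →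
    Tendsto (dd z) atTop atTop := by
  intro i
  induction i with
  | zero => intro h; simpa using h
  | succ i ih =>
    intro h
    apply ih
    apply tendsto_of_dd
    rw [Function.iterate_succ_apply'] at h
    exact h.eventually_ge_atTop 1

lemma dd_neg (z : ℕ → ℤ) : dd (fun t => - z t) = fun t => - dd z t := by
  funext t; unfold dd; ring

lemma iter_dd_neg (i : ℕ) : ∀ z : ℕ → ℤ, dd^[i] (fun t => - z t) = fun t => - dd^[i] z t := by
  induction i with
  | zero => intro z; rfl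
  | succ i ih =>
    intro z
    rw [Function.iterate_succ_apply, dd_neg, ih]
    rfl

lemma const_of_dd_zero {z : ℕ → ℤ} (h : ∀ t, dd z t = 0) (t : ℕ) : z t = z 0 := by
  induction t with
  | zero => rfl
  | succ t ih => have := h t; unfold dd at this; omega

lemma kappa_nonpos {z : ℕ → ℤ} {C κ : ℤ} (hC : ∀ t : ℕ, z t ≤ C * (t + 1)) {r : ℕ}
    (h : ∀ t, dd^[r + 2] z t = κ) : κ ≤ 0 := by
  by_contra hk
  push Not at hk
  have h1 : Tendsto (dd^[r + 1] z) atTop atTop := by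
    apply tendsto_of_dd
    refine Eventually.of_forall fun t => ?_
    have := h t
    rw [Function.iterate_succ_apply'] at this
    omega
  exact no_superlinear hC (iter_tendsto r h1)

/-- A sequence of linear growth with a vanishing higher difference has vanishing second
difference. -/
lemma second_difference {z : ℕ → ℤ} {C : ℤ} (hC : ∀ t : ℕ, |z t| ≤ C * (t + 1)) :
    ∀ r : ℕ, (∀ t, dd^[r + 2] z t = 0) → ∀ t, dd^[2] z t = 0 := by
  intro r
  induction r with
  | zero => intro h; simpa using h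
  | succ r ih =>
    intro h
    apply ih
    have hconst : ∀ t, dd^[r + 2] z t = dd^[r + 2] z 0 := by
      apply const_of_dd_zero
      intro t
      have := h t
      rw [show r + 1 + 2 = (r + 2) + 1 by ring, Function.iterate_succ_apply'] at this
      exact this
    have h1 : dd^[r + 2] z 0 ≤ 0 :=
      kappa_nonpos (fun t => (le_abs_self _).trans (hC t)) hconst
    have h2 : - dd^[r + 2] z 0 ≤ 0 := by
      apply kappa_nonpos (z := fun t => - z t) (C := C) (r := r)
      · intro t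
        exact (neg_le_abs _).trans (hC t)
      · intro t
        rw [iter_dd_neg]
        simp only [hconst t]
    intro t
    rw [hconst t]
    omega

lemma linear_of_second {z : ℕ → ℤ} (h : ∀ t, dd^[2] z t = 0) (t : ℕ) :
    z t = z 0 + t * (z 1 - z 0) := by
  have h' : ∀ t, z (t + 2) - 2 * z (t + 1) + z t = 0 := by
    intro t
    have := h t
    simp only [Function.iterate_succ, Function.iterate_zero, Function.comp_apply, id_eq, dd] at this
    rw [show t + 1 + 1 = t + 2 by ring] at this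
    linarith
  induction t using Nat.twoStepInduction with
  | zero => simp
  | one => simp
  | more t ih1 ih2 =>
    have := h' t
    push_cast at ih2 ⊢
    linarith

/-! ### Matrices -/

/-- Uniform nilpotency exponent. -/
lemma nilp {s : ℕ} (E : Matrix (Fin s) (Fin s) ℤ) :
    ∃ u, ∀ w : Fin s → ℤ, (∃ I, (E ^ I).mulVec w = 0) → (E ^ u).mulVec w = 0 := by
  let N : ℕ →o Submodule ℤ (Fin s → ℤ) :=
    ⟨fun i => LinearMap.ker (Matrix.mulVecLin (E ^ i)), by
      apply monotone_nat_of_le_succ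
      intro i w hw
      simp only [LinearMap.mem_ker, Matrix.mulVecLin_apply] at hw ⊢
      rw [pow_succ', ← Matrix.mulVec_mulVec, hw, Matrix.mulVec_zero]⟩
  obtain ⟨u, hu⟩ := monotone_stabilizes_iff_noetherian.2 (inferInstance :
    IsNoetherian ℤ (Fin s → ℤ)) N
  refine ⟨u, fun w hw => ?_⟩
  obtain ⟨I, hI⟩ := hw
  have h1 : w ∈ N I := by
    change w ∈ LinearMap.ker (Matrix.mulVecLin (E ^ I))
    simpa using hI
  have h2 : w ∈ N (max I u) := N.monotone (le_max_left _ _) h1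
  rw [← hu (max I u) (le_max_right _ _)] at h2
  have h3 : w ∈ LinearMap.ker (Matrix.mulVecLin (E ^ u)) := h2
  simpa using h3

lemma exists_period {s : ℕ} (A : Matrix (Fin s) (Fin s) ℤ) :
    ∃ (D P : ℕ) (E : Matrix (Fin s) (Fin s) ℤ), 1 ≤ P ∧ A ^ (D + P) - A ^ D = 3 • E := by
  obtain ⟨x, y, hne, hxy⟩ := Finite.exists_ne_map_eq_of_infinite
    (fun i : ℕ => (A ^ i).map (Int.castRingHom (ZMod 3)))
  wlog hlt : x < y generalizing x y
  · exact this y x hne.symm hxy.symm (lt_of_le_of_ne (not_lt.1 hlt) hne.symm)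
  refine ⟨x, y - x, Matrix.of fun i j => ((A ^ y - A ^ x) i j) / 3, by omega, ?_⟩
  rw [show x + (y - x) = y by omega]
  ext i j
  have h1 : (((A ^ x) i j : ℤ) : ZMod 3) = (((A ^ y) i j : ℤ) : ZMod 3) := by
    have := congrFun (congrFun hxy i) j
    simpa using this
  have h2 : (3 : ℤ) ∣ (A ^ y - A ^ x) i j := by
    rw [Matrix.sub_apply]
    exact (ZMod.intCast_eq_intCast_iff_dvd_sub _ _ 3).1 h1
  rw [Matrix.smul_apply, Matrix.of_apply]
  obtain ⟨c, hc⟩ := h2
  rw [hc]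
  simp

/-- growth of iterated differences -/
lemma growth_bound {s : ℕ} {A : Matrix (Fin s) (Fin s) ℤ} {w : Fin s → ℤ} {C : ℤ}
    (hC : ∀ (ι : ℕ) (l : Fin s), |((A ^ ι).mulVec w) l| ≤ C * (ι + 1)) (D P : ℕ) (i : ℕ) :
    ∀ (ι : ℕ) (l : Fin s), |(((A ^ (D + P) - A ^ D) ^ i * A ^ ι).mulVec w) l|
      ≤ 2 ^ i * (C * ((D + P) * i + ι + 1)) := by
  have hC0 : ∀ l : Fin s, 0 ≤ C := fun l => by
    have := hC 0 l
    have h2 := abs_nonneg (((A ^ 0).mulVec w) l)
    push_cast at this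
    linarith
  induction i with
  | zero =>
    intro ι l
    simpa using hC ι l
  | succ i ih =>
    intro ι l
    have e : (A ^ (D + P) - A ^ D) ^ (i + 1) * A ^ ι
        = (A ^ (D + P) - A ^ D) ^ i * A ^ (D + P + ι) - (A ^ (D + P) - A ^ D) ^ i * A ^ (D + ι) := by
      rw [pow_succ, mul_assoc, sub_mul, ← pow_add, ← pow_add, mul_sub]
    rw [e, Matrix.sub_mulVec]
    have h1 := ih (D + P + ι) l
    have h2 := ih (D + ι) l
    have hc := hC0 l
    simp only [Pi.sub_apply]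
    have h3 : (2 : ℤ) ^ i * (C * ((D + P) * i + ((D + ι : ℕ) : ℤ) + 1))
        ≤ 2 ^ i * (C * ((D + P) * i + ((D + P + ι : ℕ) : ℤ) + 1)) := by
      gcongr
      omega
    calc |(((A ^ (D + P) - A ^ D) ^ i * A ^ (D + P + ι)).mulVec w) l
          - (((A ^ (D + P) - A ^ D) ^ i * A ^ (D + ι)).mulVec w) l|
        ≤ |(((A ^ (D + P) - A ^ D) ^ i * A ^ (D + P + ι)).mulVec w) l|
          + |(((A ^ (D + P) - A ^ D) ^ i * A ^ (D + ι)).mulVec w) l| := abs_sub _ _
      _ ≤ 2 ^ i * (C * ((D + P) * i + ((D + P + ι : ℕ) : ℤ) + 1))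
          + 2 ^ i * (C * ((D + P) * i + ((D + P + ι : ℕ) : ℤ) + 1)) := by linarith
      _ = 2 ^ (i + 1) * (C * ((D + P) * ((i + 1 : ℕ) : ℤ) + ι + 1)) := by
        push_cast; ring

lemma eventually_zero {s : ℕ} {A E : Matrix (Fin s) (Fin s) ℤ} {w : Fin s → ℤ} {C : ℤ}
    (hC : ∀ (ι : ℕ) (l : Fin s), |((A ^ ι).mulVec w) l| ≤ C * (ι + 1)) {D P : ℕ}
    (hE : A ^ (D + P) - A ^ D = 3 • E) : ∃ I, (E ^ I).mulVec w = 0 := by
  have hlim : Tendsto (fun i : ℕ => (C : ℝ) * ((D + P : ℕ) : ℝ) * ((i : ℝ) ^ 1 * (2 / 3) ^ i)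
      + (C : ℝ) * ((i : ℝ) ^ 0 * (2 / 3) ^ i)) atTop (nhds 0) := by
    have h1 := tendsto_pow_const_mul_const_pow_of_abs_lt_one 1 (r := (2 / 3 : ℝ))
      (by rw [abs_of_pos] <;> norm_num)
    have h0 := tendsto_pow_const_mul_const_pow_of_abs_lt_one 0 (r := (2 / 3 : ℝ))
      (by rw [abs_of_pos] <;> norm_num)
    have := (h1.const_mul ((C : ℝ) * ((D + P : ℕ) : ℝ))).add (h0.const_mul (C : ℝ))
    simpa using this
  obtain ⟨I, hI⟩ := (hlim.eventually_lt_const (show (0 : ℝ) < 1 by norm_num)).exists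
  refine ⟨I, ?_⟩
  funext l
  have h1 := growth_bound hC D P I 0 l
  rw [pow_zero, mul_one, hE] at h1
  have h2 : (3 • E) ^ I = (3 : ℤ) ^ I • E ^ I := by
    rw [← Nat.cast_smul_eq_nsmul ℤ, smul_pow]
    norm_num
  rw [h2, Matrix.smul_mulVec] at h1
  simp only [Pi.smul_apply, smul_eq_mul, abs_mul, abs_pow] at h1
  have h3 : |(3 : ℤ)| = 3 := by norm_num
  rw [h3] at h1
  have h4 : ((3 : ℝ) ^ I) * |((((E ^ I).mulVec w) l : ℤ) : ℝ)|
      ≤ 2 ^ I * (C * ((D + P) * I + (0 : ℕ) + 1)) := by exact_mod_cast h1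
  have h5 : |((((E ^ I).mulVec w) l : ℤ) : ℝ)| < 1 := by
    have h6 : |((((E ^ I).mulVec w) l : ℤ) : ℝ)|
        ≤ (C : ℝ) * ((D + P : ℕ) : ℝ) * ((I : ℝ) ^ 1 * (2 / 3) ^ I)
      + (C : ℝ) * ((I : ℝ) ^ 0 * (2 / 3) ^ I) := by
      have h7 : (0 : ℝ) < 3 ^ I := by positivity
      have h8 : (C : ℝ) * ((D + P : ℕ) : ℝ) * ((I : ℝ) ^ 1 * (2 / 3) ^ I)
          + (C : ℝ) * ((I : ℝ) ^ 0 * (2 / 3) ^ I)
          = (2 ^ I * (C * ((D + P) * I + (0 : ℕ) + 1))) / 3 ^ I := by
        rw [div_pow]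
        push_cast
        field_simp
        ring
      rw [h8, le_div_iff₀ h7]
      linarith
    linarith
  have h9 : |((E ^ I).mulVec w) l| < 1 := by exact_mod_cast h5
  simpa using Int.abs_lt_one_iff.1 h9

/-- Differences of the sequence `ι ↦ (A^ι w)_l` along steps `P`. -/
lemma iter_dd_mulVec {s : ℕ} (A : Matrix (Fin s) (Fin s) ℤ) (w : Fin s → ℤ) (P : ℕ) (l : Fin s)
    (u : ℕ) : ∀ ι t, dd^[u] (fun t => ((A ^ (ι + t * P)).mulVec w) l) t
      = (((A ^ P - 1) ^ u * A ^ (ι + t * P)).mulVec w) l := by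
  induction u with
  | zero => intro ι t; simp
  | succ u ih =>
    intro ι t
    rw [Function.iterate_succ_apply']
    change dd^[u] (fun t => ((A ^ (ι + t * P)).mulVec w) l) (t + 1)
      - dd^[u] (fun t => ((A ^ (ι + t * P)).mulVec w) l) t = _
    rw [ih, ih, ← Pi.sub_apply, ← Matrix.sub_mulVec]
    congr 2
    rw [← mul_sub, show ι + (t + 1) * P = P + (ι + t * P) by ring, pow_add, ← sub_one_mul,
      ← mul_assoc, ← pow_succ]

/-- **Quasi-linearity for matrices.** -/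
theorem matrix_quasi {s : ℕ} (A : Matrix (Fin s) (Fin s) ℤ) : ∃ m P : ℕ, 1 ≤ P ∧
    ∀ w : Fin s → ℤ,
      (∃ C : ℤ, ∀ (ι : ℕ) (l : Fin s), |((A ^ ι).mulVec w) l| ≤ C * (ι + 1)) →
      ∀ (l : Fin s) (ι : ℕ), m ≤ ι → ∀ t, dd^[2] (fun t => ((A ^ (ι + t * P)).mulVec w) l) t = 0 := by
  obtain ⟨D, P, E, hP, hE⟩ := exists_period A
  obtain ⟨u, hu⟩ := nilp E
  refine ⟨D * (u + 2), P, hP, ?_⟩
  intro w ⟨C, hC⟩ l ι hι
  have hzero := hu w (eventually_zero hC hE)
  have hz2 : (E ^ (u + 2)).mulVec w = 0 := by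
    rw [add_comm, pow_add, ← Matrix.mulVec_mulVec, hzero, Matrix.mulVec_zero]
  have hA : ((A ^ P - 1) ^ (u + 2) * A ^ (D * (u + 2))).mulVec w = 0 := by
    have hcomm : Commute (A ^ P - 1) (A ^ D) := by
      have h1 : Commute (A ^ P) (A ^ D) := Commute.pow_pow_self A P D
      exact h1.sub_left (Commute.one_left _)
    have e : (A ^ P - 1) ^ (u + 2) * A ^ (D * (u + 2)) = (A ^ (D + P) - A ^ D) ^ (u + 2) := by
      rw [pow_mul, ← hcomm.mul_pow, sub_mul, one_mul, ← pow_add, add_comm P D]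
    rw [e, hE, ← Nat.cast_smul_eq_nsmul ℤ, smul_pow, Matrix.smul_mulVec, hz2, smul_zero]
  obtain ⟨ι', rfl⟩ : ∃ x, ι = x + D * (u + 2) := ⟨ι - D * (u + 2), by omega⟩
  -- linear growth of the subsequence
  have hC0 : 0 ≤ C := by
    have := hC 0 l
    have h2 := abs_nonneg (((A ^ 0).mulVec w) l)
    push_cast at this
    linarith
  have hgrow : ∀ t : ℕ, |(fun t => ((A ^ (ι' + D * (u + 2) + t * P)).mulVec w) l) t|
      ≤ (C * (ι' + D * (u + 2) + P + 1)) * (t + 1) := by
    intro t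
    refine (hC _ l).trans ?_
    rw [mul_assoc]
    apply mul_le_mul_of_nonneg_left _ hC0
    push_cast
    have h1 : (0 : ℤ) ≤ ι' + D * (u + 2) := by positivity
    have h2 : (0 : ℤ) ≤ t := by positivity
    have h3 : (0 : ℤ) ≤ P := by positivity
    nlinarith [mul_nonneg h1 h2, mul_nonneg h3 h2]
  apply second_difference hgrow u
  intro t
  rw [iter_dd_mulVec]
  have e : (A ^ P - 1) ^ (u + 2) * A ^ (ι' + D * (u + 2) + t * P)
      = A ^ (ι' + t * P) * ((A ^ P - 1) ^ (u + 2) * A ^ (D * (u + 2))) := by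
    have hcomm : Commute (A ^ (ι' + t * P)) ((A ^ P - 1) ^ (u + 2)) := by
      apply Commute.pow_right
      have h1 : Commute (A ^ (ι' + t * P)) (A ^ P) := Commute.pow_pow_self A _ _
      exact h1.sub_right (Commute.one_right _)
    rw [← mul_assoc, hcomm.eq, mul_assoc, ← pow_add]
    congr 2
    ring
  rw [e, ← Matrix.mulVec_mulVec, hA, Matrix.mulVec_zero]
  rfl

/-! ### Modules of sequences -/

/-- The decimation `b ↦ (n ↦ b (k n + k - 1))`. -/
def dec (k : ℕ) (b : ℕ → ℤ) : ℕ → ℤ := fun n => b (k * (n + 1) - 1)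

/-- **Quasi-linearity for finitely generated modules of sequences.** -/
theorem module_quasi {k : ℕ} (hk : 1 ≤ k) {K : Submodule ℤ (ℕ → ℤ)} (hfg : K.FG)
    (hst : ∀ b ∈ K, dec k b ∈ K)
    (hgr : ∀ b ∈ K, ∀ n : ℕ, ∃ C : ℤ, ∀ ι : ℕ, |b (k ^ ι * (n + 1) - 1)| ≤ C * (ι + 1)) :
    ∃ m P : ℕ, 1 ≤ P ∧ ∀ b ∈ K, ∀ n ι : ℕ, m ≤ ι → ∀ t : ℕ,
      b (k ^ (ι + t * P) * (n + 1) - 1)
        = b (k ^ ι * (n + 1) - 1)
          + t * (b (k ^ (ι + P) * (n + 1) - 1) - b (k ^ ι * (n + 1) - 1)) := by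
  obtain ⟨s, v, hv⟩ := Submodule.fg_iff_exists_fin_generating_family.1 hfg
  have hvK : ∀ i, v i ∈ K := fun i => hv ▸ Submodule.subset_span ⟨i, rfl⟩
  have hex : ∀ i, ∃ c : Fin s → ℤ, ∑ j, c j • v j = dec k (v i) := by
    intro i
    have := hst _ (hvK i)
    rw [← hv, Submodule.mem_span_range_iff_exists_fun] at this
    exact this
  choose A hA using hex
  set M : Matrix (Fin s) (Fin s) ℤ := Matrix.of A with hM
  have hstep : ∀ n : ℕ, (fun i => v i (k * (n + 1) - 1)) = M.mulVec (fun j => v j n) := by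
    intro n
    funext i
    have := congrFun (hA i) n
    simp only [dec, Finset.sum_apply, Pi.smul_apply, smul_eq_mul] at this
    rw [← this]
    rfl
  have hiter : ∀ (ι n : ℕ), (fun i => v i (k ^ ι * (n + 1) - 1))
      = (M ^ ι).mulVec (fun j => v j n) := by
    intro ι
    induction ι with
    | zero => intro n; simp
    | succ ι ih =>
      intro n
      have h1 : 1 ≤ k ^ ι * (n + 1) := by
        have : 0 < k ^ ι := pow_pos hk ι
        exact Nat.mul_pos this (by omega)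
      have h2 : k ^ (ι + 1) * (n + 1) - 1 = k * ((k ^ ι * (n + 1) - 1) + 1) - 1 := by
        rw [Nat.sub_add_cancel h1, pow_succ]
        congr 1
        ring
      rw [h2, hstep, ih, Matrix.mulVec_mulVec, ← pow_succ']
  obtain ⟨m, P, hP, hquasi⟩ := matrix_quasi M
  refine ⟨m, P, hP, ?_⟩
  have hgen : ∀ i : Fin s, ∀ n ι : ℕ, m ≤ ι → ∀ t : ℕ,
      v i (k ^ (ι + t * P) * (n + 1) - 1)
        = v i (k ^ ι * (n + 1) - 1)
          + t * (v i (k ^ (ι + P) * (n + 1) - 1) - v i (k ^ ι * (n + 1) - 1)) := by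
    intro i n ι hι t
    have hgr' : ∃ C : ℤ, ∀ (ι : ℕ) (l : Fin s),
        |((M ^ ι).mulVec (fun j => v j n)) l| ≤ C * (ι + 1) := by
      choose C hC using fun l : Fin s => hgr (v l) (hvK l) n
      refine ⟨∑ l, |C l|, fun ι l => ?_⟩
      rw [← hiter]
      refine (hC l ι).trans ?_
      have h1 : C l ≤ ∑ l, |C l| :=
        (le_abs_self _).trans (Finset.single_le_sum (f := fun l => |C l|)
          (fun _ _ => abs_nonneg _) (Finset.mem_univ l))
      have h2 : (0 : ℤ) ≤ (ι : ℤ) + 1 := by positivity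
      exact mul_le_mul_of_nonneg_right h1 h2
    have h := linear_of_second (hquasi _ hgr' i ι hι) t
    simp only [← hiter, zero_mul, add_zero, one_mul] at h
    exact h
  intro b hb
  rw [← hv, Submodule.mem_span_range_iff_exists_fun] at hb
  obtain ⟨c, rfl⟩ := hb
  intro n ι hι t
  simp only [Finset.sum_apply, Pi.smul_apply, smul_eq_mul]
  rw [← Finset.sum_sub_distrib, Finset.mul_sum, ← Finset.sum_add_distrib]
  apply Finset.sum_congr rfl
  intro i _
  rw [hgen i n ι hι t]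
  ring

end Pool.Agent.X1.RegQuasi
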