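import Mathlib
import Pool.Agent.TH286.GT.All

/-!
# Schmidt's theorem on products of distances to the nearest integers

From the subspace theorem of the starting library (`Pool.Agent.TH286.GT`).
-/

set_option autoImplicit false

namespace Pool.Agent.X1.SchP

open Finset Filter Topology
open Pool.Agent.TH286.GT

/-- distance to the nearest integer -/
noncomputable def nd (x : ℝ) : ℝ := |x - round x|

lemma nd_nonneg (x : ℝ) : 0 ≤ nd x := abs_nonneg _

lemma nd_le_half (x : ℝ) : nd x ≤ 1 / 2 := abs_sub_round x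

lemma nd_le (x : ℝ) (p : ℤ) : nd x ≤ |x - p| := round_le x p

/-- the matrix of the forms -/
def M0 {O : Type} [CommRing O] {T : ℕ} (a : O) (d : Fin T → O) :
    Matrix (Fin (T + 1)) (Fin (T + 1)) O :=
  fun i j => Fin.cases (motive := fun _ => O) (Fin.cases (motive := fun _ => O) 1 (fun _ => 0) j)
    (fun i' => Fin.cases (motive := fun _ => O) (d i') (fun j' => if i' = j' then -a else 0) j) i

@[simp] lemma M0_00 {O : Type} [CommRing O] {T : ℕ} (a : O) (d : Fin T → O) :
    M0 a d 0 0 = 1 := rfl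
@[simp] lemma M0_0s {O : Type} [CommRing O] {T : ℕ} (a : O) (d : Fin T → O) (j : Fin T) :
    M0 a d 0 j.succ = 0 := rfl
@[simp] lemma M0_s0 {O : Type} [CommRing O] {T : ℕ} (a : O) (d : Fin T → O) (i : Fin T) :
    M0 a d i.succ 0 = d i := rfl
@[simp] lemma M0_ss {O : Type} [CommRing O] {T : ℕ} (a : O) (d : Fin T → O) (i j : Fin T) :
    M0 a d i.succ j.succ = if i = j then -a else 0 := rfl

lemma det_M0 {O : Type} [CommRing O] {T : ℕ} (a : O) (d : Fin T → O) :
    (M0 a d).det = (-a) ^ T := by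
  rw [← Matrix.det_transpose, Matrix.det_of_isUpperTriangular, Fin.prod_univ_succ]
  · simp [Matrix.transpose_apply]
  · intro i j hij
    simp only [id] at hij
    rw [Matrix.transpose_apply]
    induction i using Fin.cases with
    | zero => exact absurd hij (Fin.not_lt_zero _)
    | succ i =>
      induction j using Fin.cases with
      | zero => rfl
      | succ j =>
        rw [M0_ss, if_neg]
        rintro rfl
        exact lt_irrefl _ hij

/-- Schmidt's theorem, for a sequence of denominators -/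
theorem sub_seq {T : ℕ} (ξ : Fin T → ℝ) (hξ : ∀ i, IsAlgebraic ℚ (ξ i))
    (hind : ∀ (y0 : ℤ) (y : Fin T → ℤ), (y0 : ℝ) + ∑ i, (y i : ℝ) * ξ i = 0 → y0 = 0 ∧ y = 0)
    (ε : ℝ) (hε : 0 < ε) (hε1 : ε ≤ 1) (k : ℕ → ℕ) (hk : Tendsto k atTop atTop)
    (hk1 : ∀ t, (k t : ℝ) ^ (1 + ε) * ∏ i, nd (k t * ξ i) < 1) :
    False := by
  -- the number field
  set F : IntermediateField ℚ ℝ := IntermediateField.adjoin ℚ (Set.range ξ) with hFdef
  have hF : FiniteDimensional ℚ F := by
    apply IntermediateField.finiteDimensional_adjoin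
    rintro x ⟨i, rfl⟩
    exact (hξ i).isIntegral
  have : NumberField F := { to_charZero := inferInstance, to_finiteDimensional := hF }
  let c : Fin T → F := fun i => ⟨ξ i, IntermediateField.subset_adjoin ℚ _ ⟨i, rfl⟩⟩
  obtain ⟨Nn, hNn⟩ := IsLocalization.exist_integer_multiples_of_finite
    (nonZeroDivisors (NumberField.RingOfIntegers F)) c
  have hN0 : (Nn : NumberField.RingOfIntegers F) ≠ 0 := nonZeroDivisors.ne_zero Nn.2
  have hN' : ∀ i, ∃ M : NumberField.RingOfIntegers F,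
      algebraMap (NumberField.RingOfIntegers F) F M
        = algebraMap (NumberField.RingOfIntegers F) F (Nn : NumberField.RingOfIntegers F)
          * c i := by
    intro i
    obtain ⟨M, hM⟩ := hNn i
    refine ⟨M, ?_⟩
    rw [hM, Algebra.smul_def]
  choose d hd using hN'
  have hinj : Function.Injective (algebraMap (NumberField.RingOfIntegers F) F) :=
    IsFractionRing.injective _ _
  set ψ : NumberField.RingOfIntegers F →+* ℝ :=
    (algebraMap F ℝ).comp (algebraMap (NumberField.RingOfIntegers F) F) with hψ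
  set φ : NumberField.RingOfIntegers F →+* ℂ := Complex.ofRealHom.comp ψ with hφ
  set ν : ℝ := ψ (Nn : NumberField.RingOfIntegers F) with hν
  have hν0 : ν ≠ 0 := by
    intro h
    apply hN0
    apply hinj
    rw [map_zero]
    apply (algebraMap F ℝ).injective
    rw [map_zero]
    exact h
  have hνp : 0 < |ν| := abs_pos.2 hν0
  set lν : ℝ := Real.log |ν| with hlν
  have hψd : ∀ i, ψ (d i) = ν * ξ i := by
    intro i
    have h1 := congrArg (algebraMap F ℝ) (hd i)
    rw [map_mul] at h1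
    exact h1
  set γ : ℝ := ε / 2 with hγ
  have hγ0 : 0 < γ := by positivity
  -- the tail
  have hkR : Tendsto (fun t => (k t : ℝ)) atTop atTop := tendsto_natCast_atTop_atTop.comp hk
  have hlog : Tendsto (fun t => Real.log (k t : ℝ)) atTop atTop := Real.tendsto_log_atTop.comp hkR
  obtain ⟨t0, ht0⟩ : ∃ t0, ∀ t, t0 ≤ t → (1 : ℝ) ≤ k t ∧ 1 ≤ Real.log (k t) ∧
      T * |lν| ≤ ε / 2 * Real.log (k t) := by
    have h2 : ∀ᶠ t in atTop, (1 : ℝ) ≤ k t := hkR.eventually (eventually_ge_atTop 1)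
    have h3 : ∀ᶠ t in atTop, (1 : ℝ) ≤ Real.log (k t) := hlog.eventually (eventually_ge_atTop 1)
    have h4 : ∀ᶠ t in atTop, T * |lν| / (ε / 2) ≤ Real.log (k t) :=
      hlog.eventually (eventually_ge_atTop _)
    obtain ⟨t0, ht0⟩ := eventually_atTop.1 (h2.and (h3.and h4))
    refine ⟨t0, fun t ht => ⟨(ht0 t ht).1, (ht0 t ht).2.1, ?_⟩⟩
    have h4 := (ht0 t ht).2.2
    rw [div_le_iff₀ (by positivity)] at h4
    linarith
  -- the data
  let x : ℕ → Fin (T + 1) → ℤ := fun t =>
    Fin.cons (k (t + t0) : ℤ) (fun i => round ((k (t + t0) : ℝ) * ξ i))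
  have hx0 : ∀ t, x t 0 = (k (t + t0) : ℤ) := fun t => rfl
  have hxs : ∀ t i, x t (Fin.succ i) = round ((k (t + t0) : ℝ) * ξ i) := fun t i => rfl
  let mx : ℕ → Fin T → ℝ := fun t i => max (nd ((k (t + t0) : ℝ) * ξ i)) (((k (t + t0) : ℝ) ^ 2)⁻¹)
  let A : ℕ → Fin (T + 1) → ℝ := fun t =>
    Fin.cons (k (t + t0) : ℝ) (fun i => |ν| * mx t i)
  have hA0 : ∀ t, A t 0 = (k (t + t0) : ℝ) := fun t => rfl
  have hAs : ∀ t i, A t (Fin.succ i) = |ν| * mx t i := fun t i => rfl
  have hk0 : ∀ t, (1 : ℝ) ≤ k (t + t0) := fun t => (ht0 (t + t0) (Nat.le_add_left _ _)).1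
  have hk00 : ∀ t, (0 : ℝ) < k (t + t0) := fun t => by have := hk0 t; linarith
  have hinv1 : ∀ t, ((k (t + t0) : ℝ) ^ 2)⁻¹ ≤ 1 := fun t =>
    inv_le_one_of_one_le₀ (one_le_pow₀ (hk0 t))
  have hmx0 : ∀ t i, 0 < mx t i := fun t i =>
    lt_of_lt_of_le (by have := hk00 t; positivity) (le_max_right _ _)
  have hmx1 : ∀ t i, mx t i ≤ 1 := fun t i =>
    max_le ((nd_le_half _).trans (by norm_num)) (hinv1 t)
  have hprod : ∀ t, ∏ i, mx t i ≤ (k (t + t0) : ℝ) ^ (-(1 + ε)) := by
    intro t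
    have hkp := hk00 t
    by_cases hall : ∀ i, ((k (t + t0) : ℝ) ^ 2)⁻¹ ≤ nd ((k (t + t0) : ℝ) * ξ i)
    · have h1 : ∏ i, mx t i = ∏ i, nd ((k (t + t0) : ℝ) * ξ i) :=
        Finset.prod_congr rfl fun i _ => max_eq_left (hall i)
      rw [h1, Real.rpow_neg hkp.le, ← one_div, le_div_iff₀ (Real.rpow_pos_of_pos hkp _), mul_comm]
      exact (hk1 (t + t0)).le
    · push Not at hall
      obtain ⟨j, hj⟩ := hall
      have h1 : mx t j = ((k (t + t0) : ℝ) ^ 2)⁻¹ := max_eq_right hj.le
      have h2 : ∏ i, mx t i ≤ mx t j := by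
        rw [← Finset.mul_prod_erase univ (mx t) (mem_univ j)]
        have h3 : ∏ i ∈ univ.erase j, mx t i ≤ 1 :=
          Finset.prod_le_one (fun i _ => (hmx0 t i).le) fun i _ => hmx1 t i
        exact mul_le_of_le_one_right (hmx0 t j).le h3
      refine h2.trans ?_
      rw [h1, ← Real.rpow_natCast, ← Real.rpow_neg hkp.le]
      apply Real.rpow_le_rpow_of_exponent_le (hk0 t)
      push_cast
      linarith
  set C : ℝ := |lν| + 2 with hC
  have hC1 : 1 ≤ C := by
    have := abs_nonneg lν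
    linarith
  have hlogA0 : ∀ t, Real.log (A t 0) = Real.log (k (t + t0)) := fun t => by rw [hA0]
  have hlogAs : ∀ t i, Real.log (A t (Fin.succ i)) = lν + Real.log (mx t i) := by
    intro t i
    rw [hAs, Real.log_mul hνp.ne' (hmx0 t i).ne']
  have hlogmx : ∀ t i, -(2 * Real.log (k (t + t0))) ≤ Real.log (mx t i) ∧
      Real.log (mx t i) ≤ 0 := by
    intro t i
    refine ⟨?_, Real.log_nonpos (hmx0 t i).le (hmx1 t i)⟩
    have h1 : Real.log (((k (t + t0) : ℝ) ^ 2)⁻¹) ≤ Real.log (mx t i) :=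
      Real.log_le_log (by have := hk00 t; positivity) (le_max_right _ _)
    rw [Real.log_inv, Real.log_pow] at h1
    push_cast at h1
    linarith
  have hsize : ∀ t, SizeO C γ (Real.log (k (t + t0))) (1 : Matrix (Fin (T + 1)) (Fin (T + 1)) ℤ)
      (A t) := by
    intro t
    obtain ⟨h1, h2, h3⟩ := ht0 (t + t0) (Nat.le_add_left _ _)
    have hlp : 0 ≤ Real.log (k (t + t0)) := by linarith
    have e3 : |lν| ≤ |lν| * Real.log (k (t + t0)) := le_mul_of_one_le_right (abs_nonneg _) h2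
    have hdet : Real.log |((1 : Matrix (Fin (T + 1)) (Fin (T + 1)) ℤ).det : ℝ)| = 0 := by
      rw [Matrix.det_one]; simp
    refine ⟨?_, ?_, ?_, ?_⟩
    · rw [hdet]; positivity
    · intro l
      induction l using Fin.cases with
      | zero => rw [hA0]; exact hk00 t
      | succ i => rw [hAs]; exact mul_pos hνp (hmx0 t i)
    · intro l
      induction l using Fin.cases with
      | zero =>
        rw [hlogA0, abs_of_nonneg hlp, hC]
        have := mul_nonneg (abs_nonneg lν) hlp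
        nlinarith
      | succ i =>
        rw [hlogAs, abs_le, hC]
        obtain ⟨g1, g2⟩ := hlogmx t i
        have e7 := neg_abs_le lν
        have e8 := le_abs_self lν
        constructor <;> nlinarith
    · rw [hdet, Fin.sum_univ_succ, hlogA0]
      simp only [hlogAs]
      rw [Finset.sum_add_distrib, Finset.sum_const, Finset.card_univ, Fintype.card_fin,
        nsmul_eq_mul, ← Real.log_prod (fun i _ => (hmx0 t i).ne')]
      have h4 : (T : ℝ) * lν ≤ T * |lν| :=
        mul_le_mul_of_nonneg_left (le_abs_self _) (Nat.cast_nonneg _)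
      have h5 : Real.log (∏ i, mx t i) ≤ -(1 + ε) * Real.log (k (t + t0)) := by
        rw [← Real.log_rpow (hk00 t)]
        exact Real.log_le_log (Finset.prod_pos fun i _ => hmx0 t i) (hprod t)
      rw [hγ]
      nlinarith
  have hsol : ∀ t, SolO φ (M0 (Nn : NumberField.RingOfIntegers F) d)
      (1 : Matrix (Fin (T + 1)) (Fin (T + 1)) ℤ) (A t) (x t) := by
    intro t
    refine ⟨?_, x t, by rw [Matrix.one_mulVec]⟩
    intro l
    have hre : ∀ z, ‖φ z‖ = |ψ z| := by
      intro z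
      rw [hφ, RingHom.comp_apply, Complex.ofRealHom_eq_coe, Complex.norm_real, Real.norm_eq_abs]
    rw [hre, map_sum]
    induction l using Fin.cases with
    | zero =>
      rw [Fin.sum_univ_succ, hA0]
      simp only [M0_00, M0_0s, zero_mul, map_zero, sum_const_zero, add_zero, one_mul, map_intCast,
        hx0]
      push_cast
      rw [abs_of_nonneg (by positivity)]
    | succ i =>
      rw [Fin.sum_univ_succ, hAs]
      simp only [M0_s0, M0_ss, map_mul, map_intCast, hxs, hx0, hψd]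
      rw [Finset.sum_eq_single i]
      · rw [if_pos rfl, map_neg, ← hν]
        push_cast
        have h1 : ν * ξ i * (k (t + t0) : ℝ) + -ν * (round ((k (t + t0) : ℝ) * ξ i) : ℝ) =
            ν * ((k (t + t0) : ℝ) * ξ i - round ((k (t + t0) : ℝ) * ξ i)) := by ring
        rw [h1, abs_mul]
        exact mul_le_mul_of_nonneg_left (le_max_left _ _) (abs_nonneg _)
      · intro j _ hj
        rw [if_neg (Ne.symm hj), map_zero, zero_mul]
      · intro h; exact absurd (Finset.mem_univ i) h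
  have hdata : DataO φ (M0 (Nn : NumberField.RingOfIntegers F) d)
      (1 : Matrix (Fin (T + 1)) (Fin (T + 1)) (NumberField.RingOfIntegers F))
      (fun (_ : Fin 0) (_ : Fin (T + 1)) => (1 : NumberField.RingOfIntegers F)) := by
    refine ⟨?_, ?_, ?_, ?_⟩
    · rw [det_M0]
      exact pow_ne_zero _ (neg_ne_zero.2 hN0)
    · intro i j
      rw [hφ, RingHom.comp_apply, Complex.ofRealHom_eq_coe, Complex.ofReal_im]
    · rw [Matrix.det_one]; exact one_ne_zero
    · intro v
      exact v.elim0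
  have hNt : Tendsto (fun t => Real.log (k (t + t0) : ℝ)) atTop atTop :=
    hlog.comp (tendsto_add_atTop_nat t0)
  have hxne : ∀ t, x t ≠ 0 := by
    intro t h
    have h1 := congrFun h 0
    rw [hx0] at h1
    have h2 := hk00 t
    have h3 : (k (t + t0) : ℤ) = 0 := h1
    have h4 : (k (t + t0) : ℝ) = 0 := by exact_mod_cast h3
    linarith
  obtain ⟨y, hy0, hy⟩ := subspaceO (NumberField.RingOfIntegers F) φ (T + 1) 0 (by omega)
    (M0 (Nn : NumberField.RingOfIntegers F) d) 1 _
    hdata C γ hC1 hγ0 (fun t => Real.log (k (t + t0) : ℝ)) hNt (fun _ => fun _ => 0)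
    (fun _ => 1) (fun t => by
      refine ⟨by rw [Matrix.det_one]; exact one_ne_zero, ?_⟩
      rw [one_mul, mul_one, Matrix.map_one _ (map_zero _) (map_one _)]
      ext i j
      simp [bet, Matrix.diagonal_apply, Matrix.one_apply]) A hsize x hxne hsol
  -- the relation
  set S : ℝ := ∑ i : Fin T, |(y (Fin.succ i) : ℝ)| with hS
  have hS0 : 0 ≤ S := Finset.sum_nonneg fun i _ => abs_nonneg _
  set Y : ℝ := (y 0 : ℝ) + ∑ i : Fin T, (y (Fin.succ i) : ℝ) * ξ i with hY
  have hbound : ∃ᶠ t in atTop, (k (t + t0) : ℝ) * |Y| ≤ S := by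
    refine hy.mono fun t ht => ?_
    rw [Fin.sum_univ_succ] at ht
    have h1 : ((y 0 * x t 0 + ∑ i : Fin T, y (Fin.succ i) * x t (Fin.succ i) : ℤ) : ℝ) = 0 := by
      rw [ht]; simp
    push_cast at h1
    simp only [hx0, hxs] at h1
    push_cast at h1
    have h2 : (k (t + t0) : ℝ) * Y =
        ∑ i : Fin T, (y (Fin.succ i) : ℝ) * ((k (t + t0) : ℝ) * ξ i -
          round ((k (t + t0) : ℝ) * ξ i)) := by
      rw [hY]
      simp only [mul_sub, Finset.sum_sub_distrib]
      have h3 : ∑ i : Fin T, (y (Fin.succ i) : ℝ) * ((k (t + t0) : ℝ) * ξ i) =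
          (k (t + t0) : ℝ) * ∑ i : Fin T, (y (Fin.succ i) : ℝ) * ξ i := by
        rw [Finset.mul_sum]
        exact Finset.sum_congr rfl fun i _ => by ring
      rw [h3]
      linarith
    have h4 : |(k (t + t0) : ℝ) * Y| ≤ S := by
      rw [h2]
      refine (Finset.abs_sum_le_sum_abs _ _).trans ?_
      rw [hS]
      refine Finset.sum_le_sum fun i _ => ?_
      rw [abs_mul]
      refine mul_le_of_le_one_right (abs_nonneg _) ?_
      exact (nd_le_half ((k (t + t0) : ℝ) * ξ i)).trans (by norm_num)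
    rwa [abs_mul, abs_of_pos (hk00 t)] at h4
  have hY0 : Y = 0 := by
    by_contra hne
    have hYp : 0 < |Y| := abs_pos.2 hne
    have h1 : Tendsto (fun t => (k (t + t0) : ℝ) * |Y|) atTop atTop :=
      (hkR.comp (tendsto_add_atTop_nat t0)).atTop_mul_const hYp
    have h2 : ∀ᶠ t in atTop, S < (k (t + t0) : ℝ) * |Y| := h1.eventually (eventually_gt_atTop S)
    obtain ⟨t, ht1, ht2⟩ := (hbound.and_eventually h2).exists
    linarith
  obtain ⟨h1, h2⟩ := hind (y 0) (fun i => y (Fin.succ i)) hY0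
  apply hy0
  funext l
  induction l using Fin.cases with
  | zero => exact h1
  | succ i => exact congrFun h2 i

lemma nd_pos {T : ℕ} (ξ : Fin T → ℝ)
    (hind : ∀ (y0 : ℤ) (y : Fin T → ℤ), (y0 : ℝ) + ∑ i, (y i : ℝ) * ξ i = 0 → y0 = 0 ∧ y = 0)
    (k : ℕ) (hk : 1 ≤ k) (i : Fin T) : 0 < nd (k * ξ i) := by
  unfold nd
  rw [abs_pos]
  intro h
  have h1 := hind (-round ((k : ℝ) * ξ i)) (fun j => if j = i then (k : ℤ) else 0) (by
    push_cast
    simp only [ite_mul, zero_mul, Finset.sum_ite_eq', Finset.mem_univ, if_true]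
    linarith)
  have h2 := congrFun h1.2 i
  simp only [if_true, Pi.zero_apply] at h2
  omega

/-- **Schmidt's theorem**: for real algebraic numbers `ξ_i` which are linearly independent over the
rationals together with `1`, the product of `k^(1+ε)` and the distances of the `k ξ_i` to the
nearest integers is bounded from below. -/
theorem schmidt {T : ℕ} (ξ : Fin T → ℝ) (hξ : ∀ i, IsAlgebraic ℚ (ξ i))
    (hind : ∀ (y0 : ℤ) (y : Fin T → ℤ), (y0 : ℝ) + ∑ i, (y i : ℝ) * ξ i = 0 → y0 = 0 ∧ y = 0)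
    (ε : ℝ) (hε : 0 < ε) (hε1 : ε ≤ 1) : ∃ c : ℝ, 0 < c ∧ ∀ k : ℕ, 1 ≤ k →
      c ≤ (k : ℝ) ^ (1 + ε) * ∏ i, nd (k * ξ i) := by
  by_contra hcon
  push Not at hcon
  have hval : ∀ k : ℕ, 1 ≤ k → 0 < (k : ℝ) ^ (1 + ε) * ∏ i, nd (k * ξ i) := fun k hk => by
    have h1 : (0 : ℝ) < k := by exact_mod_cast hk
    exact mul_pos (Real.rpow_pos_of_pos h1 _) (Finset.prod_pos fun i _ => nd_pos ξ hind k hk i)
  have hex : ∀ B : ℕ, ∃ k : ℕ, B < k ∧ (k : ℝ) ^ (1 + ε) * ∏ i, nd (k * ξ i) < 1 := by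
    intro B
    obtain ⟨c0, hc0, hc⟩ : ∃ c0 : ℝ, 0 < c0 ∧ ∀ k ∈ Icc 1 B,
        c0 ≤ (k : ℝ) ^ (1 + ε) * ∏ i, nd (k * ξ i) := by
      induction B with
      | zero => exact ⟨1, one_pos, fun k hk => by simp at hk⟩
      | succ B ih =>
        obtain ⟨c0, h1, h2⟩ := ih
        refine ⟨min c0 ((((B + 1 : ℕ) : ℝ)) ^ (1 + ε) * ∏ i, nd (((B + 1 : ℕ) : ℝ) * ξ i)),
          lt_min h1 (hval _ (by omega)), fun k hk => ?_⟩
        rw [mem_Icc] at hk
        rcases Nat.lt_or_ge k (B + 1) with h | h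
        · exact (min_le_left _ _).trans (h2 k (mem_Icc.2 ⟨hk.1, by omega⟩))
        · have : k = B + 1 := by omega
          rw [this]
          exact min_le_right _ _
    obtain ⟨k, hk1, hk2⟩ := hcon (min c0 1) (lt_min hc0 one_pos)
    refine ⟨k, ?_, lt_of_lt_of_le hk2 (min_le_right _ _)⟩
    by_contra hle
    have h1 := hc k (mem_Icc.2 ⟨hk1, by omega⟩)
    have h2 := min_le_left c0 (1 : ℝ)
    linarith
  choose k hk1 hk2 using hex
  have hk : Tendsto k atTop atTop :=
    tendsto_atTop_mono (fun t => (hk1 t).le) tendsto_id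
  exact sub_seq ξ hξ hind ε hε hε1 k hk hk2

end Pool.Agent.X1.SchP
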