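import Mathlib
import Pool.Agent.X1.SchP

/-!
# Sums of reciprocal products of distances to the nearest integers
-/

set_option autoImplicit false

namespace Pool.Agent.X1.SchP

open Finset Filter Topology

/-- a set of separated natural numbers is small -/
lemma spacing (S : Finset ℕ) (K : ℕ) (D : ℝ) (hD : 0 < D) (h1 : ∀ k ∈ S, D ≤ k ∧ k ≤ K)
    (h2 : ∀ k ∈ S, ∀ l ∈ S, k < l → D ≤ (l : ℝ) - k) : (S.card : ℝ) ≤ K / D := by
  have h3 : S.card ≤ (Icc 1 ⌊(K : ℝ) / D⌋₊).card := by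
    apply Finset.card_le_card_of_injOn (fun k : ℕ => ⌊(k : ℝ) / D⌋₊)
    · intro k hk
      have hk' := h1 k hk
      rw [mem_coe, mem_Icc]
      refine ⟨?_, ?_⟩
      · apply Nat.le_floor
        rw [Nat.cast_one, le_div_iff₀ hD, one_mul]
        exact hk'.1
      · apply Nat.floor_le_floor
        exact div_le_div_of_nonneg_right (by exact_mod_cast hk'.2) hD.le
    · have key : ∀ k ∈ S, ∀ l ∈ S, k < l → ⌊(k : ℝ) / D⌋₊ < ⌊(l : ℝ) / D⌋₊ := by
        intro k hk l hl hkl
        have e1 := h2 k hk l hl hkl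
        have e2 : (k : ℝ) / D + 1 ≤ (l : ℝ) / D := by
          rw [div_add_one hD.ne']
          exact div_le_div_of_nonneg_right (by linarith) hD.le
        have e3 : ⌊(k : ℝ) / D⌋₊ + 1 ≤ ⌊(l : ℝ) / D⌋₊ := by
          apply Nat.le_floor
          push_cast
          have := Nat.floor_le (a := (k : ℝ) / D) (by positivity)
          linarith
        omega
      intro k hk l hl hkl
      simp only at hkl
      rcases lt_trichotomy k l with h | h | h
      · exact absurd hkl (key k hk l hl h).ne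
      · exact h
      · exact absurd hkl (key l hl k hk h).ne'
  have h4 : (S.card : ℝ) ≤ ⌊(K : ℝ) / D⌋₊ := by
    rw [Nat.card_Icc, Nat.add_sub_cancel] at h3
    exact_mod_cast h3
  exact h4.trans (Nat.floor_le (by positivity))

lemma nd_sub (x y : ℝ) : nd (x - y) ≤ nd x + nd y := by
  have h1 := nd_le (x - y) (round x - round y)
  push_cast at h1
  refine h1.trans ?_
  have h2 : x - y - ((round x : ℝ) - round y) = (x - round x) - (y - round y) := by ring
  rw [h2]
  exact abs_sub _ _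

/-- the number of denominators for which all distances are small -/
lemma box_count {T : ℕ} (ξ : Fin T → ℝ) (ε c : ℝ) (hε : 0 < ε) (hc : 0 < c)
    (hS : ∀ k : ℕ, 1 ≤ k → c ≤ (k : ℝ) ^ (1 + ε) * ∏ i, nd (k * ξ i))
    (η : Fin T → ℝ) (hη : ∀ i, 0 < η i) (K : ℕ) :
    (((Icc 1 K).filter fun k : ℕ => ∀ i, nd (k * ξ i) ≤ η i).card : ℝ) ≤
      K * (2 ^ T * (∏ i, η i) / c) ^ (1 / (1 + ε)) := by
  have hP : 0 < ∏ i, η i := Finset.prod_pos fun i _ => hη i
  have hε1 : 0 < 1 + ε := by linarith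
  set R : ℝ := c / (2 ^ T * ∏ i, η i) with hR
  have hR0 : 0 < R := by positivity
  set D : ℝ := R ^ (1 / (1 + ε)) with hD
  have hD0 : 0 < D := Real.rpow_pos_of_pos hR0 _
  -- a denominator with small distances is large
  have key : ∀ k : ℕ, 1 ≤ k → (∀ i, nd (k * ξ i) ≤ 2 * η i) → D ≤ k := by
    intro k hk h
    have hk0 : (0 : ℝ) ≤ k := Nat.cast_nonneg k
    have h1 := hS k hk
    have h2 : ∏ i, nd (k * ξ i) ≤ 2 ^ T * ∏ i, η i := by
      calc ∏ i, nd (k * ξ i) ≤ ∏ i, 2 * η i :=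
            Finset.prod_le_prod (fun i _ => nd_nonneg _) fun i _ => h i
        _ = 2 ^ T * ∏ i, η i := by
            rw [Finset.prod_mul_distrib, Finset.prod_const, Finset.card_univ, Fintype.card_fin]
    have h3 : R ≤ (k : ℝ) ^ (1 + ε) := by
      rw [hR, div_le_iff₀ (by positivity)]
      exact h1.trans (mul_le_mul_of_nonneg_left h2 (Real.rpow_nonneg hk0 _))
    calc D ≤ ((k : ℝ) ^ (1 + ε)) ^ (1 / (1 + ε)) :=
          Real.rpow_le_rpow hR0.le h3 (by positivity)
      _ = k := by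
          rw [← Real.rpow_mul hk0, mul_one_div, div_self hε1.ne', Real.rpow_one]
  have h := spacing ((Icc 1 K).filter fun k : ℕ => ∀ i, nd (k * ξ i) ≤ η i) K D hD0
    (by
      intro k hk
      rw [mem_filter, mem_Icc] at hk
      exact ⟨key k hk.1.1 fun i => (hk.2 i).trans (by have := hη i; linarith), hk.1.2⟩)
    (by
      intro k hk l hl hkl
      rw [mem_filter] at hk hl
      have h1 := key (l - k) (by omega) (fun i => by
        rw [Nat.cast_sub hkl.le, sub_mul]
        refine (nd_sub _ _).trans ?_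
        have := hk.2 i
        have := hl.2 i
        linarith)
      rwa [Nat.cast_sub hkl.le] at h1)
  refine h.trans (le_of_eq ?_)
  rw [div_eq_mul_inv, hD, ← Real.inv_rpow hR0.le, hR, inv_div]

/-- **Sums of reciprocal products.** -/
theorem sum_bound {T : ℕ} (ξ : Fin T → ℝ) (ε c : ℝ) (hε : 0 < ε) (hc : 0 < c)
    (hS : ∀ k : ℕ, 1 ≤ k → c ≤ (k : ℝ) ^ (1 + ε) * ∏ i, nd (k * ξ i)) :
    ∃ C : ℝ, 0 < C ∧ ∀ K B : ℕ, 1 ≤ B →
      ∑ k ∈ Icc 1 K, ∏ i, min (B : ℝ) (1 / (2 * nd (k * ξ i))) ≤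
        C * K * (B : ℝ) ^ ((T + 1) * ε) := by
  classical
  -- a power of `J + 1` against an exponential
  obtain ⟨C1, hC10, hC1⟩ : ∃ C1 : ℝ, 0 < C1 ∧ ∀ J : ℕ, ((J : ℝ) + 1) ^ T ≤
      C1 * ((2 : ℝ) ^ ε) ^ J := by
    have hr : (1 : ℝ) < (2 : ℝ) ^ ε := Real.one_lt_rpow (by norm_num) hε
    have h1 : Tendsto (fun n : ℕ => (n : ℝ) ^ T / ((2 : ℝ) ^ ε) ^ n) atTop (nhds 0) :=
      tendsto_pow_const_div_const_pow_of_one_lt T hr
    obtain ⟨B, hB⟩ := h1.bddAbove_range
    have hB0 : 0 ≤ B := by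
      have h2 := hB ⟨0, rfl⟩
      simp only at h2
      refine le_trans ?_ h2
      positivity
    refine ⟨(B + 1) * (2 : ℝ) ^ ε, by positivity, fun J => ?_⟩
    have h2 := hB ⟨J + 1, rfl⟩
    simp only at h2
    have h3 : (0 : ℝ) < ((2 : ℝ) ^ ε) ^ (J + 1) := by positivity
    rw [div_le_iff₀ h3, pow_succ] at h2
    push_cast at h2
    have h4 : (0 : ℝ) ≤ ((2 : ℝ) ^ ε) ^ J * (2 : ℝ) ^ ε := by positivity
    nlinarith
  set C2 : ℝ := (2 ^ T / c) ^ (1 / (1 + ε)) with hC2
  have hC20 : 0 < C2 := Real.rpow_pos_of_pos (by positivity) _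
  refine ⟨C1 * C2 * (2 : ℝ) ^ ((T + 1) * ε), by positivity, fun K B hB => ?_⟩
  have hε1 : 0 < 1 + ε := by linarith
  set J : ℕ := Nat.clog 2 B with hJ
  have hJB : (B : ℝ) ≤ 2 ^ J := by exact_mod_cast Nat.le_pow_clog (by norm_num) B
  have hJ2 : (2 : ℝ) ^ J ≤ 2 * B := by
    rcases Nat.eq_or_lt_of_le hB with h | h
    · rw [hJ, ← h]; simp
    · have h1 := Nat.pow_pred_clog_lt_self (b := 2) (by norm_num) h
      have h2 : 1 ≤ J := Nat.clog_pos (by norm_num) h
      have h3 : 2 ^ J ≤ 2 * B := by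
        obtain ⟨j, hj⟩ : ∃ j, J = j + 1 := ⟨J - 1, by omega⟩
        rw [← hJ, hj, Nat.pred_succ] at h1
        rw [hj, pow_succ]
        omega
      exact_mod_cast h3
  have hpos : ∀ k : ℕ, 1 ≤ k → ∀ i, 0 < nd (k * ξ i) := by
    intro k hk i
    by_contra h0
    have h1 : nd (k * ξ i) = 0 := le_antisymm (not_lt.1 h0) (nd_nonneg _)
    have h2 := hS k hk
    rw [Finset.prod_eq_zero (mem_univ i) h1, mul_zero] at h2
    linarith
  -- the buckets
  let b : ℕ → Fin T → ℕ := fun k i => min J ⌊Real.logb 2 (1 / nd (k * ξ i))⌋₊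
  have hb1 : ∀ k : ℕ, 1 ≤ k → ∀ i, nd (k * ξ i) ≤ 1 / (2 : ℝ) ^ (b k i) := by
    intro k hk i
    have hp := hpos k hk i
    rw [le_one_div hp (by positivity)]
    have h1 : ((b k i : ℕ) : ℝ) ≤ Real.logb 2 (1 / nd (k * ξ i)) := by
      refine le_trans ?_ (Nat.floor_le (Real.logb_nonneg (by norm_num) ?_))
      · exact_mod_cast min_le_right _ _
      · rw [le_div_iff₀ hp]
        have := nd_le_half (k * ξ i)
        linarith
    have h2 := (Real.le_logb_iff_rpow_le (by norm_num) (by positivity)).1 h1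
    rwa [Real.rpow_natCast] at h2
  have hb2 : ∀ k : ℕ, 1 ≤ k → ∀ i, min (B : ℝ) (1 / (2 * nd (k * ξ i))) ≤ (2 : ℝ) ^ (b k i) := by
    intro k hk i
    have hp := hpos k hk i
    rcases le_total J ⌊Real.logb 2 (1 / nd (k * ξ i))⌋₊ with h | h
    · have h1 : b k i = J := min_eq_left h
      rw [h1]
      exact (min_le_left _ _).trans hJB
    · have h1 : b k i = ⌊Real.logb 2 (1 / nd (k * ξ i))⌋₊ := min_eq_right h
      have h2 : Real.logb 2 (1 / nd (k * ξ i)) < (b k i : ℝ) + 1 := by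
        rw [h1]; exact Nat.lt_floor_add_one _
      have h3 := (Real.logb_lt_iff_lt_rpow (by norm_num) (by positivity)).1 h2
      have h4 : (2 : ℝ) ^ ((b k i : ℝ) + 1) = 2 * 2 ^ (b k i) := by
        rw [Real.rpow_add (by norm_num), Real.rpow_natCast, Real.rpow_one, mul_comm]
      rw [h4] at h3
      refine (min_le_right _ _).trans ?_
      rw [one_div, mul_inv, ← one_div, ← one_div]
      linarith
  -- the sum over one bucket
  have hbucket : ∀ v ∈ Fintype.piFinset (fun _ : Fin T => range (J + 1)),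
      ∑ k ∈ (Icc 1 K).filter (fun k => b k = v), ∏ i, min (B : ℝ) (1 / (2 * nd (k * ξ i))) ≤
        C2 * K * ((2 : ℝ) ^ ε) ^ (T * J) := by
    intro v hv
    rw [Fintype.mem_piFinset] at hv
    set P : ℝ := ∏ i, (2 : ℝ) ^ (v i) with hP
    have hP0 : 0 < P := Finset.prod_pos fun i _ => by positivity
    have hP1 : 1 ≤ P := by
      calc (1 : ℝ) = ∏ _i : Fin T, (1 : ℝ) := by simp
        _ ≤ P := Finset.prod_le_prod (fun _ _ => zero_le_one) fun i _ =>
          one_le_pow₀ (by norm_num)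
    have hPJ : P ≤ (2 : ℝ) ^ (T * J) := by
      calc P ≤ ∏ _i : Fin T, (2 : ℝ) ^ J := Finset.prod_le_prod (fun i _ => by positivity)
            fun i _ => pow_le_pow_right₀ (by norm_num) (by have := mem_range.1 (hv i); omega)
        _ = (2 : ℝ) ^ (T * J) := by
            rw [Finset.prod_const, Finset.card_univ, Fintype.card_fin, ← pow_mul, mul_comm]
    have h1 : ∑ k ∈ (Icc 1 K).filter (fun k => b k = v),
        ∏ i, min (B : ℝ) (1 / (2 * nd (k * ξ i))) ≤
        ∑ k ∈ (Icc 1 K).filter (fun k => b k = v), P := by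
      apply Finset.sum_le_sum
      intro k hk
      rw [mem_filter, mem_Icc] at hk
      rw [hP]
      apply Finset.prod_le_prod
      · intro i _
        exact le_min (Nat.cast_nonneg B) (by have := nd_nonneg (k * ξ i); positivity)
      · intro i _
        rw [← hk.2]
        exact hb2 k hk.1.1 i
    have h2 : (((Icc 1 K).filter (fun k => b k = v)).card : ℝ) ≤
        K * (2 ^ T * (∏ i, 1 / (2 : ℝ) ^ (v i)) / c) ^ (1 / (1 + ε)) := by
      refine le_trans ?_ (box_count ξ ε c hε hc hS (fun i => 1 / (2 : ℝ) ^ (v i))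
        (fun i => by positivity) K)
      refine Nat.cast_le.2 (Finset.card_le_card ?_)
      intro k hk
      rw [mem_filter, mem_Icc] at hk
      rw [mem_filter, mem_Icc]
      refine ⟨hk.1, fun i => ?_⟩
      rw [← hk.2]
      exact hb1 k hk.1.1 i
    have h3 : (2 ^ T * (∏ i, 1 / (2 : ℝ) ^ (v i)) / c) ^ (1 / (1 + ε)) =
        C2 * P ^ (-(1 / (1 + ε))) := by
      have h4 : (∏ i, 1 / (2 : ℝ) ^ (v i)) = P⁻¹ := by
        rw [hP, ← Finset.prod_inv_distrib]
        exact Finset.prod_congr rfl fun i _ => one_div _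
      rw [h4, hC2, Real.rpow_neg hP0.le, ← Real.inv_rpow hP0.le,
        ← Real.mul_rpow (by positivity) (by positivity)]
      congr 1
      ring
    rw [h3] at h2
    refine h1.trans ?_
    rw [Finset.sum_const, nsmul_eq_mul]
    calc (((Icc 1 K).filter (fun k => b k = v)).card : ℝ) * P
        ≤ (K * (C2 * P ^ (-(1 / (1 + ε))))) * P := mul_le_mul_of_nonneg_right h2 hP0.le
      _ = C2 * K * P ^ (1 - 1 / (1 + ε)) := by
          have h5 : P ^ (1 - 1 / (1 + ε)) = P ^ (-(1 / (1 + ε))) * P := by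
            rw [sub_eq_neg_add, Real.rpow_add hP0, Real.rpow_one]
          rw [h5]; ring
      _ ≤ C2 * K * P ^ ε := by
          apply mul_le_mul_of_nonneg_left _ (by positivity)
          apply Real.rpow_le_rpow_of_exponent_le hP1
          rw [sub_le_iff_le_add, ← sub_le_iff_le_add', le_div_iff₀ hε1]
          nlinarith
      _ ≤ C2 * K * ((2 : ℝ) ^ (T * J)) ^ ε := by
          apply mul_le_mul_of_nonneg_left _ (by positivity)
          exact Real.rpow_le_rpow hP0.le hPJ hε.le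
      _ = C2 * K * ((2 : ℝ) ^ ε) ^ (T * J) := by
          rw [← Real.rpow_natCast, ← Real.rpow_natCast, ← Real.rpow_mul (by norm_num),
            ← Real.rpow_mul (by norm_num), mul_comm (((T * J : ℕ) : ℝ)) ε]
  -- all buckets
  have hmaps : ∀ k ∈ Icc 1 K, b k ∈ Fintype.piFinset (fun _ : Fin T => range (J + 1)) := by
    intro k _
    rw [Fintype.mem_piFinset]
    intro i
    rw [mem_range]
    exact Nat.lt_succ_of_le (min_le_left _ _)
  rw [← Finset.sum_fiberwise_of_maps_to hmaps]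
  refine (Finset.sum_le_sum hbucket).trans ?_
  rw [Finset.sum_const, Fintype.card_piFinset_const, card_range, nsmul_eq_mul]
  push_cast
  have h5 : ((2 : ℝ) ^ ε) ^ J * ((2 : ℝ) ^ ε) ^ (T * J) ≤
      (2 : ℝ) ^ ((T + 1) * ε) * (B : ℝ) ^ ((T + 1) * ε) := by
    rw [← pow_add, ← Real.mul_rpow (by norm_num) (Nat.cast_nonneg B)]
    have h6 : ((2 : ℝ) ^ ε) ^ (J + T * J) = ((2 : ℝ) ^ J) ^ ((T + 1) * ε) := by
      rw [← Real.rpow_natCast, ← Real.rpow_natCast, ← Real.rpow_mul (by norm_num),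
        ← Real.rpow_mul (by norm_num)]
      congr 1
      push_cast
      ring
    rw [h6]
    exact Real.rpow_le_rpow (by positivity) hJ2 (by positivity)
  calc ((J : ℝ) + 1) ^ T * (C2 * K * ((2 : ℝ) ^ ε) ^ (T * J))
      ≤ (C1 * ((2 : ℝ) ^ ε) ^ J) * (C2 * K * ((2 : ℝ) ^ ε) ^ (T * J)) :=
        mul_le_mul_of_nonneg_right (hC1 J) (by positivity)
    _ = C1 * C2 * K * (((2 : ℝ) ^ ε) ^ J * ((2 : ℝ) ^ ε) ^ (T * J)) := by ring
    _ ≤ C1 * C2 * K * ((2 : ℝ) ^ ((T + 1) * ε) * (B : ℝ) ^ ((T + 1) * ε)) :=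
        mul_le_mul_of_nonneg_left h5 (by positivity)
    _ = C1 * C2 * (2 : ℝ) ^ ((T + 1) * ε) * K * (B : ℝ) ^ ((T + 1) * ε) := by ring

end Pool.Agent.X1.SchP
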