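import Mathlib
import Pool.Agent.X1.SchS

/-!
# Counting pairs (element, denominator) with small distance to the nearest integer
-/

set_option autoImplicit false

namespace Pool.Agent.X1.SchP

open Finset Filter Topology

/-- `e(x) = exp(2 π i x)` -/
noncomputable def E (x : ℝ) : ℂ := Complex.exp (Complex.I * ((2 * Real.pi * x : ℝ) : ℂ))

lemma E_add (x y : ℝ) : E (x + y) = E x * E y := by
  unfold E
  rw [← Complex.exp_add]
  congr 1
  push_cast
  ring

lemma E_zero : E 0 = 1 := by simp [E]

lemma norm_E (x : ℝ) : ‖E x‖ = 1 := by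
  unfold E
  rw [mul_comm]
  exact Complex.norm_exp_ofReal_mul_I _

lemma E_nat_mul (n : ℕ) (x : ℝ) : E (n * x) = E x ^ n := by
  unfold E
  rw [← Complex.exp_nat_mul]
  congr 1
  push_cast
  ring

lemma E_int (n : ℤ) : E n = 1 := by
  unfold E
  rw [Complex.exp_eq_one_iff]
  exact ⟨n, by push_cast; ring⟩

lemma E_sum {ι : Type*} (s : Finset ι) (f : ι → ℝ) : E (∑ i ∈ s, f i) = ∏ i ∈ s, E (f i) := by
  classical
  induction s using Finset.induction_on with
  | empty => simp [E_zero]
  | insert a s ha ih => rw [sum_insert ha, prod_insert ha, E_add, ih]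

lemma E_nd (x : ℝ) : ‖E x - 1‖ = ‖E (x - round x) - 1‖ := by
  have h : E x = E (x - round x) * E (round x : ℤ) := by
    rw [← E_add]; congr 1; ring
  rw [h, E_int, mul_one]

lemma norm_E_sub_one (x : ℝ) : 4 * nd x ≤ ‖E x - 1‖ := by
  rw [E_nd]
  unfold E
  rw [Complex.norm_exp_I_mul_ofReal_sub_one]
  have h0 : |x - round x| ≤ 1 / 2 := abs_sub_round x
  have h1 : 2 * Real.pi * (x - round x) / 2 = Real.pi * (x - round x) := by ring
  rw [h1, norm_mul, Real.norm_eq_abs, Real.norm_eq_abs, abs_two]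
  have h2 : |Real.sin (Real.pi * (x - round x))| = Real.sin (Real.pi * |x - round x|) := by
    rcases abs_cases (x - round x) with ⟨h, h'⟩ | ⟨h, h'⟩
    · rw [h]
      apply abs_of_nonneg
      apply Real.sin_nonneg_of_nonneg_of_le_pi (by positivity)
      rw [h] at h0
      nlinarith [Real.pi_pos]
    · rw [h]
      rw [h] at h0
      rw [mul_neg, Real.sin_neg]
      apply abs_of_nonpos
      apply Real.sin_nonpos_of_nonpos_of_neg_pi_le
      · nlinarith [Real.pi_pos]
      · nlinarith [Real.pi_pos]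
  rw [h2]
  have h3 := Real.mul_le_sin (x := Real.pi * |x - round x|) (by positivity)
    (by nlinarith [Real.pi_pos])
  have h4 : 2 / Real.pi * (Real.pi * |x - round x|) = 2 * |x - round x| := by
    field_simp
  rw [h4] at h3
  unfold nd
  linarith

/-- the geometric sum -/
lemma geo (N : ℕ) (x : ℝ) (hx : 0 < nd x) :
    ‖∑ n ∈ range N, E (n * x)‖ ≤ min (N : ℝ) (1 / (2 * nd x)) := by
  apply le_min
  · refine (norm_sum_le _ _).trans ?_
    simp [norm_E]
  · have h1 := norm_E_sub_one x
    have h2 : 0 < ‖E x - 1‖ := by linarith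
    have h3 : E x ≠ 1 := by
      intro h
      rw [h, sub_self, norm_zero] at h2
      exact lt_irrefl _ h2
    have h4 : ∑ n ∈ range N, E (n * x) = (E x ^ N - 1) / (E x - 1) := by
      rw [← geom_sum_eq h3]
      exact Finset.sum_congr rfl fun n _ => E_nat_mul n x
    rw [h4, norm_div, div_le_div_iff₀ h2 (by positivity)]
    have h5 : ‖E x ^ N - 1‖ ≤ 2 := by
      refine (norm_sub_le _ _).trans ?_
      rw [norm_pow, norm_E, one_pow, norm_one]
      norm_num
    calc ‖E x ^ N - 1‖ * (2 * nd x) ≤ 2 * (2 * nd x) :=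
          mul_le_mul_of_nonneg_right h5 (by positivity)
      _ ≤ 1 * ‖E x - 1‖ := by linarith

/-- near an integer the Dirichlet kernel is large -/
lemma kernel_large (H : ℕ) (x : ℝ) (hx : nd x ≤ 1 / (8 * H)) :
    (H : ℝ) / 2 ≤ ‖∑ j ∈ range H, E (j * x)‖ := by
  have h0 : ∀ j : ℕ, E (j * x) = E (j * (x - round x)) := by
    intro j
    have h : (j : ℝ) * x = j * (x - round x) + ((j * round x : ℤ) : ℝ) := by push_cast; ring
    rw [h, E_add, E_int, mul_one]
  have h1 : ∀ j ∈ range H, (1 : ℝ) / 2 ≤ (E (j * x)).re := by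
    intro j hj
    rw [mem_range] at hj
    have hH : (0 : ℝ) < H := by exact_mod_cast (by omega : 0 < H)
    have hjH : (j : ℝ) ≤ H := by exact_mod_cast hj.le
    rw [h0]
    unfold E
    rw [mul_comm, Complex.exp_ofReal_mul_I_re]
    have h2 : |2 * Real.pi * (j * (x - round x))| ≤ Real.pi / 3 := by
      rw [abs_mul, abs_of_pos (by positivity : 0 < 2 * Real.pi), abs_mul, Nat.abs_cast]
      have h3 : (j : ℝ) * |x - round x| ≤ 1 / 8 := by
        calc (j : ℝ) * |x - round x| ≤ H * (1 / (8 * H)) :=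
              mul_le_mul hjH hx (abs_nonneg _) hH.le
          _ = 1 / 8 := by field_simp
      nlinarith [Real.pi_pos]
    rw [← Real.cos_abs, ← Real.cos_pi_div_three]
    exact Real.cos_le_cos_of_nonneg_of_le_pi (abs_nonneg _)
      (by nlinarith [Real.pi_pos]) h2
  calc (H : ℝ) / 2 = ∑ _j ∈ range H, (1 : ℝ) / 2 := by simp; ring
    _ ≤ ∑ j ∈ range H, (E (j * x)).re := Finset.sum_le_sum h1
    _ = (∑ j ∈ range H, E (j * x)).re := by rw [Complex.re_sum]
    _ ≤ ‖∑ j ∈ range H, E (j * x)‖ := Complex.re_le_norm _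

/-- the general counting inequality -/
lemma count_general {ι : Type*} (Ω : Finset ι) (x : ι → ℝ) (H : ℕ) (hH : 1 ≤ H) :
    ((Ω.filter fun z => nd (x z) ≤ 1 / (8 * H)).card : ℝ) ≤
      4 * (Ω.card / H) + 8 / H * ∑ h ∈ Ico 1 H, ‖∑ z ∈ Ω, E (h * x z)‖ := by
  classical
  have hH0 : (0 : ℝ) < H := by exact_mod_cast hH
  set Sn : ℕ → ℝ := fun h => ‖∑ z ∈ Ω, E (h * x z)‖ with hSn
  have hSn0 : ∀ h, 0 ≤ Sn h := fun h => norm_nonneg _
  -- the sum of the squares
  set W : ℝ := ∑ z ∈ Ω, ‖∑ j ∈ range H, E (j * x z)‖ ^ 2 with hW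
  have h1 : ((Ω.filter fun z => nd (x z) ≤ 1 / (8 * H)).card : ℝ) * (H / 2) ^ 2 ≤ W := by
    rw [← nsmul_eq_mul, ← Finset.sum_const, hW]
    calc ∑ _z ∈ Ω.filter fun z => nd (x z) ≤ 1 / (8 * H), ((H : ℝ) / 2) ^ 2
        ≤ ∑ z ∈ Ω.filter fun z => nd (x z) ≤ 1 / (8 * H), ‖∑ j ∈ range H, E (j * x z)‖ ^ 2 := by
          apply Finset.sum_le_sum
          intro z hz
          rw [mem_filter] at hz
          exact pow_le_pow_left₀ (by positivity) (kernel_large H (x z) hz.2) 2
      _ ≤ _ := Finset.sum_le_sum_of_subset_of_nonneg (filter_subset _ _)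
          fun z _ _ => by positivity
  -- expansion
  have h2 : W ≤ ∑ j ∈ range H, ∑ l ∈ range H, Sn ((j - l) + (l - j)) := by
    have h3 : (W : ℂ) = ∑ j ∈ range H, ∑ l ∈ range H,
        ∑ z ∈ Ω, E (j * x z) * (starRingEnd ℂ) (E (l * x z)) := by
      rw [hW]
      push_cast
      have h4 : ∀ z ∈ Ω, ((‖∑ j ∈ range H, E (j * x z)‖ : ℂ)) ^ 2 =
          ∑ j ∈ range H, ∑ l ∈ range H, E (j * x z) * (starRingEnd ℂ) (E (l * x z)) := by
        intro z _
        rw [← Complex.mul_conj', map_sum, Finset.sum_mul_sum]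
      rw [Finset.sum_congr rfl h4, Finset.sum_comm]
      apply Finset.sum_congr rfl
      intro j _
      rw [Finset.sum_comm]
    have h5 : ∀ j l : ℕ, ‖∑ z ∈ Ω, E (j * x z) * (starRingEnd ℂ) (E (l * x z))‖ =
        Sn ((j - l) + (l - j)) := by
      intro j l
      have hconj : ∀ y : ℝ, E y * (starRingEnd ℂ) (E y) = 1 := by
        intro y
        rw [Complex.mul_conj, Complex.normSq_eq_norm_sq, norm_E]
        simp
      rcases le_total l j with h | h
      · have h6 : (j - l) + (l - j) = j - l := by omega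
        rw [h6, hSn]
        congr 1
        apply Finset.sum_congr rfl
        intro z _
        have h7 : (j : ℝ) * x z = ((j - l : ℕ) : ℝ) * x z + l * x z := by
          rw [Nat.cast_sub h]; ring
        rw [h7, E_add, mul_assoc, hconj, mul_one]
      · have h6 : (j - l) + (l - j) = l - j := by omega
        rw [h6, hSn]
        simp only
        rw [← Complex.norm_conj (∑ z ∈ Ω, E (((l - j : ℕ) : ℝ) * x z)), map_sum]
        congr 1
        apply Finset.sum_congr rfl
        intro z _
        have h7 : (l : ℝ) * x z = ((l - j : ℕ) : ℝ) * x z + j * x z := by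
          rw [Nat.cast_sub h]; ring
        rw [h7, E_add, map_mul]
        have h8 := hconj (j * x z)
        calc E (j * x z) * ((starRingEnd ℂ) (E (((l - j : ℕ) : ℝ) * x z)) *
              (starRingEnd ℂ) (E (j * x z)))
            = (E (j * x z) * (starRingEnd ℂ) (E (j * x z))) *
              (starRingEnd ℂ) (E (((l - j : ℕ) : ℝ) * x z)) := by ring
          _ = _ := by rw [h8, one_mul]
    have hW0 : 0 ≤ W := Finset.sum_nonneg fun z _ => by positivity
    calc W = ‖(W : ℂ)‖ := by rw [Complex.norm_real, Real.norm_of_nonneg hW0]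
      _ ≤ ∑ j ∈ range H, ∑ l ∈ range H, Sn ((j - l) + (l - j)) := by
          rw [h3]
          refine (norm_sum_le _ _).trans (Finset.sum_le_sum fun j _ => ?_)
          refine (norm_sum_le _ _).trans (Finset.sum_le_sum fun l _ => ?_)
          rw [h5]
  have h6 : ∀ j ∈ range H, ∑ l ∈ range H, Sn ((j - l) + (l - j)) ≤
      Ω.card + 2 * ∑ h ∈ Ico 1 H, Sn h := by
    intro j hj
    rw [mem_range] at hj
    have e1 : ∀ l ∈ range H, Sn ((j - l) + (l - j)) = (if l = j then (Ω.card : ℝ) else 0) +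
        ((if l < j then Sn (j - l) else 0) + (if j < l then Sn (l - j) else 0)) := by
      intro l _
      rcases lt_trichotomy l j with h | h | h
      · rw [if_neg h.ne, if_pos h, if_neg (by omega)]
        have : (j - l) + (l - j) = j - l := by omega
        rw [this]; ring
      · rw [if_pos h, if_neg (by omega), if_neg (by omega), h, Nat.sub_self]
        simp [hSn, E_zero]
      · rw [if_neg h.ne', if_neg (by omega), if_pos h]
        have : (j - l) + (l - j) = l - j := by omega
        rw [this]; ring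
    rw [Finset.sum_congr rfl e1, Finset.sum_add_distrib, Finset.sum_add_distrib,
      Finset.sum_ite_eq' (range H) j, if_pos (mem_range.2 hj), ← Finset.sum_filter,
      ← Finset.sum_filter]
    have e2 : ∑ l ∈ (range H).filter (fun l => l < j), Sn (j - l) ≤ ∑ h ∈ Ico 1 H, Sn h := by
      rw [← Finset.sum_image (g := fun l => j - l) (f := Sn)]
      · apply Finset.sum_le_sum_of_subset_of_nonneg
        · intro h hh
          rw [mem_image] at hh
          obtain ⟨l, hl, rfl⟩ := hh
          rw [mem_filter] at hl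
          rw [mem_Ico]
          omega
        · intro h _ _; exact hSn0 h
      · intro l hl l' hl' hll
        rw [mem_coe, mem_filter] at hl hl'
        simp only at hll
        omega
    have e3 : ∑ l ∈ (range H).filter (fun l => j < l), Sn (l - j) ≤ ∑ h ∈ Ico 1 H, Sn h := by
      rw [← Finset.sum_image (g := fun l => l - j) (f := Sn)]
      · apply Finset.sum_le_sum_of_subset_of_nonneg
        · intro h hh
          rw [mem_image] at hh
          obtain ⟨l, hl, rfl⟩ := hh
          rw [mem_filter, mem_range] at hl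
          rw [mem_Ico]
          omega
        · intro h _ _; exact hSn0 h
      · intro l hl l' hl' hll
        rw [mem_coe, mem_filter] at hl hl'
        simp only at hll
        omega
    linarith
  have h7 : W ≤ H * (Ω.card + 2 * ∑ h ∈ Ico 1 H, Sn h) := by
    refine h2.trans ((Finset.sum_le_sum h6).trans (le_of_eq ?_))
    rw [Finset.sum_const, card_range, nsmul_eq_mul]
  have h8 := h1.trans h7
  have h9 : ((Ω.filter fun z => nd (x z) ≤ 1 / (8 * H)).card : ℝ) ≤
      H * (Ω.card + 2 * ∑ h ∈ Ico 1 H, Sn h) / (H / 2) ^ 2 := by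
    rw [le_div_iff₀ (by positivity)]
    exact h8
  refine h9.trans (le_of_eq ?_)
  field_simp
  ring

/-- the exponential sum over the pairs -/
lemma expsum {T : ℕ} (ξ : Fin T → ℝ) (hpos : ∀ k : ℕ, 1 ≤ k → ∀ i, 0 < nd (k * ξ i))
    (B Q : ℕ) (hQ : 1 ≤ Q) (s : ℕ → ℝ) (h : ℕ) (hh : 1 ≤ h) :
    ‖∑ z ∈ (Ico Q (2 * Q)) ×ˢ (Fintype.piFinset fun _ : Fin T => range B),
        E (h * (z.1 * ∑ i, (z.2 i : ℝ) * ξ i + s z.1))‖ ≤
      ∑ q ∈ Ico Q (2 * Q), ∏ i, min (B : ℝ) (1 / (2 * nd ((h * q : ℕ) * ξ i))) := by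
  rw [Finset.sum_product]
  refine (norm_sum_le _ _).trans (Finset.sum_le_sum fun q hq => ?_)
  have hq1 : 1 ≤ q := hQ.trans (mem_Ico.1 hq).1
  have h1 : ∀ a ∈ (Fintype.piFinset fun _ : Fin T => range B),
      E (h * (q * ∑ i, (a i : ℝ) * ξ i + s q)) =
        E (h * s q) * ∏ i, E ((a i : ℝ) * ((h * q : ℕ) * ξ i)) := by
    intro a _
    rw [← E_sum, ← E_add]
    congr 1
    push_cast
    rw [mul_add, add_comm]
    congr 1
    rw [Finset.mul_sum, Finset.mul_sum]
    apply Finset.sum_congr rfl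
    intro i _
    ring
  rw [Finset.sum_congr rfl h1, ← Finset.mul_sum, norm_mul, norm_E, one_mul,
    ← Finset.prod_univ_sum (fun _ : Fin T => range B)
      (fun i n => E ((n : ℝ) * ((h * q : ℕ) * ξ i))), norm_prod]
  apply Finset.prod_le_prod
  · intro i _; exact norm_nonneg _
  · intro i _
    exact geo B _ (hpos (h * q) (Nat.mul_pos hh hq1) i)

end Pool.Agent.X1.SchP
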