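import Mathlib
import Pool.Agent.X1.SchC
import Pool.Agent.H353R2.Z2

/-!
# Lang's inequality for almost all elements of a number field
-/

set_option autoImplicit false

namespace Pool.Agent.X1.SchP

open Finset Filter Topology

/-- one dyadic block of denominators -/
theorem block {T : ℕ} (ξ : Fin T → ℝ) (hξ : ∀ i, IsAlgebraic ℚ (ξ i))
    (hind : ∀ (y0 : ℤ) (y : Fin T → ℤ), (y0 : ℝ) + ∑ i, (y i : ℝ) * ξ i = 0 → y0 = 0 ∧ y = 0)
    (ε : ℝ) (hε : 0 < ε) (hε1 : ε ≤ 1) : ∃ C : ℝ, 0 < C ∧ ∀ B Q H : ℕ, 1 ≤ B → 1 ≤ Q → 1 ≤ H →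
      ∀ s : ℕ → ℝ,
      ((((Ico Q (2 * Q)) ×ˢ (Fintype.piFinset fun _ : Fin T => range B)).filter
        fun z => nd (z.1 * ∑ i, (z.2 i : ℝ) * ξ i + s z.1) ≤ 1 / (8 * H)).card : ℝ) ≤
      4 * ((B : ℝ) ^ T * Q / H) + C * Q * ((Q : ℝ) * H) ^ ε * (B : ℝ) ^ ((T + 1) * ε) := by
  classical
  obtain ⟨c, hc, hS⟩ := schmidt ξ hξ hind ε hε hε1
  obtain ⟨C1, hC1, hsum⟩ := sum_bound ξ ε c hε hc hS
  obtain ⟨C2, hC2, hdiv⟩ := H353.divisor_bound_real ε hε
  refine ⟨16 * C1 * C2 * (2 : ℝ) ^ ε, by positivity, fun B Q H hB hQ hH s => ?_⟩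
  have hH0 : (0 : ℝ) < H := by exact_mod_cast hH
  have hQ0 : (0 : ℝ) < Q := by exact_mod_cast hQ
  have hB0 : (0 : ℝ) < B := by exact_mod_cast hB
  have hpos := fun k hk i => nd_pos ξ hind k hk i
  have h1 := count_general ((Ico Q (2 * Q)) ×ˢ (Fintype.piFinset fun _ : Fin T => range B))
    (fun z => z.1 * ∑ i, (z.2 i : ℝ) * ξ i + s z.1) H hH
  refine h1.trans ?_
  have hcard : (((Ico Q (2 * Q)) ×ˢ (Fintype.piFinset fun _ : Fin T => range B)).card : ℝ) =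
      (B : ℝ) ^ T * Q := by
    rw [card_product, Nat.card_Ico, Fintype.card_piFinset_const, card_range]
    push_cast
    rw [show 2 * Q - Q = Q by omega]
    ring
  rw [hcard]
  apply add_le_add le_rfl
  set G : ℕ → ℝ := fun k => ∏ i, min (B : ℝ) (1 / (2 * nd (k * ξ i))) with hG
  have hG0 : ∀ k, 0 ≤ G k := fun k => Finset.prod_nonneg fun i _ =>
    le_min hB0.le (by have := nd_nonneg (k * ξ i); positivity)
  have h2 : ∑ h ∈ Ico 1 H, ‖∑ z ∈ (Ico Q (2 * Q)) ×ˢ (Fintype.piFinset fun _ : Fin T => range B),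
      E (h * (z.1 * ∑ i, (z.2 i : ℝ) * ξ i + s z.1))‖ ≤
      ∑ w ∈ (Ico 1 H) ×ˢ (Ico Q (2 * Q)), G (w.1 * w.2) := by
    rw [Finset.sum_product]
    exact Finset.sum_le_sum fun h hh => expsum ξ hpos B Q hQ s h (mem_Ico.1 hh).1
  have hmaps : ∀ w ∈ (Ico 1 H) ×ˢ (Ico Q (2 * Q)), w.1 * w.2 ∈ Icc 1 (2 * Q * H) := by
    intro w hw
    rw [mem_product, mem_Ico, mem_Ico] at hw
    rw [mem_Icc]
    refine ⟨Nat.mul_pos hw.1.1 (hQ.trans hw.2.1), ?_⟩
    calc w.1 * w.2 ≤ H * (2 * Q) := Nat.mul_le_mul hw.1.2.le hw.2.2.le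
      _ = 2 * Q * H := by ring
  have h3 : ∑ w ∈ (Ico 1 H) ×ˢ (Ico Q (2 * Q)), G (w.1 * w.2) ≤
      ∑ k ∈ Icc 1 (2 * Q * H), C2 * ((2 * Q * H : ℕ) : ℝ) ^ ε * G k := by
    rw [← Finset.sum_fiberwise_of_maps_to hmaps]
    apply Finset.sum_le_sum
    intro k hk
    rw [mem_Icc] at hk
    have h4 : ∑ w ∈ ((Ico 1 H) ×ˢ (Ico Q (2 * Q))).filter (fun w => w.1 * w.2 = k), G (w.1 * w.2) =
        ((((Ico 1 H) ×ˢ (Ico Q (2 * Q))).filter (fun w => w.1 * w.2 = k)).card : ℝ) * G k := by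
      rw [← nsmul_eq_mul, ← Finset.sum_const]
      apply Finset.sum_congr rfl
      intro w hw
      rw [(mem_filter.1 hw).2]
    rw [h4]
    apply mul_le_mul_of_nonneg_right _ (hG0 k)
    have h5 : (((Ico 1 H) ×ˢ (Ico Q (2 * Q))).filter (fun w => w.1 * w.2 = k)).card ≤
        k.divisors.card := by
      apply Finset.card_le_card_of_injOn (fun w => w.1)
      · intro w hw
        rw [mem_coe, mem_filter] at hw
        rw [mem_coe, Nat.mem_divisors]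
        exact ⟨⟨w.2, hw.2.symm⟩, by omega⟩
      · intro w hw w' hw' hww
        rw [mem_coe, mem_filter, mem_product, mem_Ico] at hw hw'
        simp only at hww
        have h6 : w.1 * w.2 = w.1 * w'.2 := by rw [hw.2]; rw [hww]; exact hw'.2.symm
        have h7 : w.2 = w'.2 := Nat.eq_of_mul_eq_mul_left (by omega) h6
        exact Prod.ext hww h7
    calc ((((Ico 1 H) ×ˢ (Ico Q (2 * Q))).filter (fun w => w.1 * w.2 = k)).card : ℝ)
        ≤ (k.divisors.card : ℝ) := by exact_mod_cast h5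
      _ ≤ C2 * (k : ℝ) ^ ε := hdiv k (by omega)
      _ ≤ C2 * ((2 * Q * H : ℕ) : ℝ) ^ ε :=
          mul_le_mul_of_nonneg_left (Real.rpow_le_rpow (Nat.cast_nonneg k)
            (by exact_mod_cast hk.2) hε.le) hC2.le
  have h8 := hsum (2 * Q * H) B hB
  rw [← Finset.mul_sum] at h3
  have h9 : 8 / (H : ℝ) * ∑ h ∈ Ico 1 H,
      ‖∑ z ∈ (Ico Q (2 * Q)) ×ˢ (Fintype.piFinset fun _ : Fin T => range B),
      E (h * (z.1 * ∑ i, (z.2 i : ℝ) * ξ i + s z.1))‖ ≤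
      8 / (H : ℝ) * (C2 * ((2 * Q * H : ℕ) : ℝ) ^ ε *
        (C1 * ((2 * Q * H : ℕ) : ℝ) * (B : ℝ) ^ ((T + 1) * ε))) := by
    apply mul_le_mul_of_nonneg_left _ (by positivity)
    refine h2.trans (h3.trans ?_)
    exact mul_le_mul_of_nonneg_left h8 (by positivity)
  refine h9.trans (le_of_eq ?_)
  push_cast
  have h10 : ((2 : ℝ) * Q * H) ^ ε = (2 : ℝ) ^ ε * ((Q : ℝ) * H) ^ ε := by
    rw [mul_assoc, Real.mul_rpow (by norm_num) (by positivity)]
  rw [h10]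
  field_simp
  ring

/-- the tail sum -/
lemma tail_summable (ε : ℝ) (hε : 0 < ε) :
    Summable (fun n : ℕ => 1 / ((n : ℝ) * Real.log 2) ^ (1 + ε)) := by
  have hlog2 : 0 < Real.log 2 := Real.log_pos (by norm_num)
  have h : (fun n : ℕ => 1 / ((n : ℝ) * Real.log 2) ^ (1 + ε)) =
      fun n : ℕ => (1 / Real.log 2 ^ (1 + ε)) * (1 / (n : ℝ) ^ (1 + ε)) := by
    funext n
    rw [Real.mul_rpow (Nat.cast_nonneg n) hlog2.le]
    rw [one_div_mul_one_div, mul_comm]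
  rw [h]
  exact (Real.summable_one_div_nat_rpow.2 (by linarith)).mul_left _

open Classical in
/-- **almost all elements**, large boxes, uniformly in the shift -/
theorem large {T : ℕ} (ξ : Fin T → ℝ) (hξ : ∀ i, IsAlgebraic ℚ (ξ i))
    (hind : ∀ (y0 : ℤ) (y : Fin T → ℤ), (y0 : ℝ) + ∑ i, (y i : ℝ) * ξ i = 0 → y0 = 0 ∧ y = 0)
    (κ ε η c : ℝ) (hκ0 : 0 ≤ κ) (hκ : κ < T) (hε : 0 < ε) (hη : 0 < η) (hc : 0 < c)
    (hc1 : c ≤ Real.log 2 ^ (1 + ε) / 4)
    (hc2 : 64 * c * ∑' n : ℕ, 1 / ((n : ℝ) * Real.log 2) ^ (1 + ε) ≤ η / 2) :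
    ∃ B₀ : ℕ, ∀ B : ℕ, B₀ ≤ B → ∀ t : ℝ,
      (((Fintype.piFinset fun _ : Fin T => range B).filter fun a => ∃ (p : ℤ) (q : ℕ), 2 ≤ q ∧
        (q : ℝ) ≤ (B : ℝ) ^ κ ∧ |t + ∑ i, (a i : ℝ) * ξ i - (p : ℝ) / q| ≤
          c / ((q : ℝ) ^ 2 * Real.log q ^ (1 + ε))).card : ℝ) ≤ η * (B : ℝ) ^ T := by
  have hlog2 : 0 < Real.log 2 := Real.log_pos (by norm_num)
  have hgap : 0 < (T : ℝ) - κ := by linarith
  -- the small exponent
  obtain ⟨ε1, hε10, hε11, hε12⟩ : ∃ ε1 : ℝ, 0 < ε1 ∧ ε1 ≤ 1 ∧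
      ε1 * (κ * (3 + ε) + (T + 1)) ≤ (T - κ) / 4 := by
    have hD : 0 < κ * (3 + ε) + (T + 1) := by positivity
    refine ⟨min 1 ((T - κ) / 4 / (κ * (3 + ε) + (T + 1))), lt_min one_pos (by positivity),
      min_le_left _ _, ?_⟩
    calc min 1 ((T - κ) / 4 / (κ * (3 + ε) + (T + 1))) * (κ * (3 + ε) + (T + 1))
        ≤ ((T - κ) / 4 / (κ * (3 + ε) + (T + 1))) * (κ * (3 + ε) + (T + 1)) :=
          mul_le_mul_of_nonneg_right (min_le_right _ _) hD.le
      _ = (T - κ) / 4 := by field_simp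
  obtain ⟨C, hC, hblock⟩ := block ξ hξ hind ε1 hε10 hε11
  set Z : ℝ := ∑' n : ℕ, 1 / ((n : ℝ) * Real.log 2) ^ (1 + ε) with hZ
  set a4 : ℝ := (T - κ) / 4 with ha4
  have ha40 : 0 < a4 := by positivity
  set C3 : ℝ := C * (1 / (8 * c)) ^ ε1 * (κ / (a4 * Real.log 2)) with hC3
  have hC30 : 0 ≤ C3 := by positivity
  -- the threshold
  have hev : ∀ᶠ B : ℕ in atTop, C3 * (B : ℝ) ^ (κ + 2 * a4) ≤ η / 2 * (B : ℝ) ^ (T : ℝ) := by
    have h1 : Tendsto (fun B : ℕ => (B : ℝ) ^ ((T : ℝ) - κ - 2 * a4)) atTop atTop :=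
      (tendsto_rpow_atTop (by rw [ha4]; linarith)).comp tendsto_natCast_atTop_atTop
    filter_upwards [h1.eventually (eventually_ge_atTop (C3 / (η / 2))), eventually_ge_atTop 1]
      with B hB hB1
    have hB0 : (0 : ℝ) < B := by exact_mod_cast hB1
    rw [div_le_iff₀ (by positivity)] at hB
    have h2 : (B : ℝ) ^ (T : ℝ) = (B : ℝ) ^ ((T : ℝ) - κ - 2 * a4) * (B : ℝ) ^ (κ + 2 * a4) := by
      rw [← Real.rpow_add hB0]
      congr 1
      ring
    rw [h2]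
    calc C3 * (B : ℝ) ^ (κ + 2 * a4)
        ≤ ((B : ℝ) ^ ((T : ℝ) - κ - 2 * a4) * (η / 2)) * (B : ℝ) ^ (κ + 2 * a4) :=
          mul_le_mul_of_nonneg_right hB (by positivity)
      _ = _ := by ring
  obtain ⟨B₀, hB₀⟩ := eventually_atTop.1 (hev.and (eventually_ge_atTop 1))
  refine ⟨B₀, fun B hB t => ?_⟩
  obtain ⟨hbig, hB1⟩ := hB₀ B hB
  have hBR : (1 : ℝ) ≤ B := by exact_mod_cast hB1
  have hB0 : (0 : ℝ) < B := by linarith
  set J : ℕ := Nat.log 2 ⌊(B : ℝ) ^ κ⌋₊ with hJ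
  -- the sizes
  set X : ℕ → ℝ := fun j => (2 : ℝ) ^ j * ((j : ℝ) * Real.log 2) ^ (1 + ε) / (8 * c) with hX
  set H : ℕ → ℕ := fun j => ⌊X j⌋₊ with hH
  have hX1 : ∀ j, 1 ≤ j → 1 ≤ X j := by
    intro j hj
    have hj1 : (1 : ℝ) ≤ j := by exact_mod_cast hj
    simp only [hX]
    rw [le_div_iff₀ (by positivity)]
    have h1 : (2 : ℝ) ≤ (2 : ℝ) ^ j := by
      calc (2 : ℝ) = 2 ^ 1 := by norm_num
        _ ≤ 2 ^ j := pow_le_pow_right₀ (by norm_num) hj
    have h2 : Real.log 2 ^ (1 + ε) ≤ ((j : ℝ) * Real.log 2) ^ (1 + ε) :=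
      Real.rpow_le_rpow hlog2.le (by nlinarith) (by linarith)
    calc 1 * (8 * c) ≤ 2 * Real.log 2 ^ (1 + ε) := by linarith
      _ ≤ (2 : ℝ) ^ j * ((j : ℝ) * Real.log 2) ^ (1 + ε) :=
          mul_le_mul h1 h2 (by positivity) (by positivity)
  have hH1 : ∀ j, 1 ≤ j → 1 ≤ H j := fun j hj => Nat.le_floor (by rw [Nat.cast_one]; exact hX1 j hj)
  have hHX : ∀ j, 1 ≤ j → (H j : ℝ) ≤ X j ∧ X j / 2 ≤ H j := by
    intro j hj
    have h1 := hX1 j hj
    refine ⟨Nat.floor_le (by linarith), ?_⟩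
    have h2 := Nat.lt_floor_add_one (X j)
    have h3 : (1 : ℝ) ≤ H j := by exact_mod_cast hH1 j hj
    change X j < (H j : ℝ) + 1 at h2
    linarith
  -- the covering by the blocks
  set S : ℕ → Finset (ℕ × (Fin T → ℕ)) := fun j =>
    ((Ico (2 ^ j) (2 * 2 ^ j)) ×ˢ (Fintype.piFinset fun _ : Fin T => range B)).filter
      fun z => nd (z.1 * ∑ i, (z.2 i : ℝ) * ξ i + z.1 * t) ≤ 1 / (8 * H j) with hS
  have hcover : ((Fintype.piFinset fun _ : Fin T => range B).filter fun a => ∃ (p : ℤ) (q : ℕ),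
      2 ≤ q ∧ (q : ℝ) ≤ (B : ℝ) ^ κ ∧ |t + ∑ i, (a i : ℝ) * ξ i - (p : ℝ) / q| ≤
        c / ((q : ℝ) ^ 2 * Real.log q ^ (1 + ε))) ⊆
      (Icc 1 J).biUnion fun j => (S j).image Prod.snd := by
    intro a ha
    rw [mem_filter] at ha
    obtain ⟨haB, p, q, hq2, hqκ, hle⟩ := ha
    have hq0 : (0 : ℝ) < q := by exact_mod_cast (by omega : 0 < q)
    set j : ℕ := Nat.log 2 q with hj
    have hj1 : 1 ≤ j := (Nat.le_log_iff_pow_le (by norm_num) (by omega)).2 (by omega)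
    have hjq : 2 ^ j ≤ q := Nat.pow_log_le_self 2 (by omega)
    have hqj : q < 2 * 2 ^ j := by
      have := Nat.lt_pow_succ_log_self (b := 2) (by norm_num) q
      rw [← hj, Nat.pow_succ] at this
      omega
    rw [mem_biUnion]
    refine ⟨j, ?_, ?_⟩
    · rw [mem_Icc]
      exact ⟨hj1, Nat.log_mono_right (Nat.le_floor hqκ)⟩
    · rw [mem_image]
      refine ⟨(q, a), ?_, rfl⟩
      simp only [hS]
      rw [mem_filter, mem_product, mem_Ico]
      refine ⟨⟨⟨hjq, hqj⟩, haB⟩, ?_⟩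
      have hj0 : (0 : ℝ) < j := by exact_mod_cast hj1
      have hlogq : (j : ℝ) * Real.log 2 ≤ Real.log q := by
        rw [← Real.log_pow]
        exact Real.log_le_log (by positivity) (by exact_mod_cast hjq)
      have hlq0 : 0 < Real.log q := lt_of_lt_of_le (by positivity) hlogq
      have h1 : nd ((q : ℝ) * ∑ i, (a i : ℝ) * ξ i + q * t) ≤ c / (q * Real.log q ^ (1 + ε)) := by
        refine (nd_le _ p).trans ?_
        have h2 : (q : ℝ) * ∑ i, (a i : ℝ) * ξ i + q * t - p =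
            q * (t + ∑ i, (a i : ℝ) * ξ i - (p : ℝ) / q) := by
          field_simp
          ring
        rw [h2, abs_mul, abs_of_pos hq0]
        calc (q : ℝ) * |t + ∑ i, (a i : ℝ) * ξ i - (p : ℝ) / q|
            ≤ q * (c / ((q : ℝ) ^ 2 * Real.log q ^ (1 + ε))) :=
              mul_le_mul_of_nonneg_left hle hq0.le
          _ = c / (q * Real.log q ^ (1 + ε)) := by field_simp
      refine h1.trans ?_
      have hHp : (0 : ℝ) < H j := by exact_mod_cast hH1 j hj1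
      have h3 : c / (q * Real.log q ^ (1 + ε)) ≤
          c / ((2 : ℝ) ^ j * ((j : ℝ) * Real.log 2) ^ (1 + ε)) := by
        apply div_le_div_of_nonneg_left hc.le (by positivity)
        apply mul_le_mul (by exact_mod_cast hjq)
          (Real.rpow_le_rpow (by positivity) hlogq (by linarith)) (by positivity) hq0.le
      refine h3.trans ?_
      have h4 : c / ((2 : ℝ) ^ j * ((j : ℝ) * Real.log 2) ^ (1 + ε)) = 1 / (8 * X j) := by
        simp only [hX]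
        field_simp
      rw [h4]
      apply div_le_div_of_nonneg_left zero_le_one (by positivity)
      have := (hHX j hj1).1
      linarith
  have hcard : (((Fintype.piFinset fun _ : Fin T => range B).filter fun a => ∃ (p : ℤ) (q : ℕ),
      2 ≤ q ∧ (q : ℝ) ≤ (B : ℝ) ^ κ ∧ |t + ∑ i, (a i : ℝ) * ξ i - (p : ℝ) / q| ≤
        c / ((q : ℝ) ^ 2 * Real.log q ^ (1 + ε))).card : ℝ) ≤
      ∑ j ∈ Icc 1 J, ((S j).card : ℝ) := by
    have h1 := (Finset.card_le_card hcover).trans Finset.card_biUnion_le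
    have h2 : ∑ j ∈ Icc 1 J, ((S j).image Prod.snd).card ≤ ∑ j ∈ Icc 1 J, (S j).card :=
      Finset.sum_le_sum fun j _ => Finset.card_image_le
    exact_mod_cast h1.trans h2
  refine hcard.trans ?_
  -- each block
  have hJκ : ∀ j ∈ Icc 1 J, (2 : ℝ) ^ j ≤ (B : ℝ) ^ κ := by
    intro j hj
    rw [mem_Icc] at hj
    have hfl : ⌊(B : ℝ) ^ κ⌋₊ ≠ 0 := by
      intro h0
      rw [hJ, h0] at hj
      simp at hj
      omega
    have h1 : (2 : ℕ) ^ j ≤ ⌊(B : ℝ) ^ κ⌋₊ :=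
      (Nat.pow_le_pow_right (by norm_num) hj.2).trans (Nat.pow_log_le_self 2 hfl)
    have h2 : ((2 ^ j : ℕ) : ℝ) ≤ (B : ℝ) ^ κ :=
      (Nat.cast_le.2 h1).trans (Nat.floor_le (by positivity))
    exact_mod_cast h2
  have hone : ∀ j ∈ Icc 1 J, ((S j).card : ℝ) ≤
      64 * c * (B : ℝ) ^ T * (1 / ((j : ℝ) * Real.log 2) ^ (1 + ε)) +
        C * (1 / (8 * c)) ^ ε1 * (B : ℝ) ^ (κ + a4) := by
    intro j hj
    have hj1 := (mem_Icc.1 hj).1
    have hjκ := hJκ j hj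
    have hj0 : (0 : ℝ) < j := by exact_mod_cast hj1
    have h1 := hblock B (2 ^ j) (H j) hB1 (Nat.one_le_two_pow) (hH1 j hj1) (fun q => q * t)
    have h2 : ((S j).card : ℝ) ≤ 4 * ((B : ℝ) ^ T * ((2 ^ j : ℕ) : ℝ) / (H j : ℝ)) +
        C * ((2 ^ j : ℕ) : ℝ) * (((2 ^ j : ℕ) : ℝ) * (H j : ℝ)) ^ ε1 *
          (B : ℝ) ^ ((T + 1) * ε1) := h1
    refine h2.trans ?_
    push_cast
    have hXp : 0 < X j := by have := hX1 j hj1; linarith
    have hHp : (0 : ℝ) < H j := by exact_mod_cast hH1 j hj1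
    apply add_le_add
    · have h3 : (B : ℝ) ^ T * (2 : ℝ) ^ j / (H j : ℝ) ≤ (B : ℝ) ^ T * (2 : ℝ) ^ j / (X j / 2) :=
        div_le_div_of_nonneg_left (by positivity) (by positivity) (hHX j hj1).2
      calc 4 * ((B : ℝ) ^ T * (2 : ℝ) ^ j / (H j : ℝ))
          ≤ 4 * ((B : ℝ) ^ T * (2 : ℝ) ^ j / (X j / 2)) := by linarith
        _ = 64 * c * (B : ℝ) ^ T * (1 / ((j : ℝ) * Real.log 2) ^ (1 + ε)) := by
            simp only [hX]
            field_simp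
            norm_num
    · have hj2 : (j : ℝ) * Real.log 2 ≤ (2 : ℝ) ^ j := by
        have e1 : (j : ℝ) ≤ (2 : ℝ) ^ j := by exact_mod_cast (Nat.lt_two_pow_self).le
        have e2 : Real.log 2 ≤ 1 := by
          have := Real.log_two_lt_d9
          linarith
        nlinarith
      have h4 : X j ≤ (B : ℝ) ^ (κ * (2 + ε)) * (1 / (8 * c)) := by
        simp only [hX]
        rw [div_eq_mul_one_div]
        apply mul_le_mul_of_nonneg_right _ (by positivity)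
        calc (2 : ℝ) ^ j * ((j : ℝ) * Real.log 2) ^ (1 + ε)
            ≤ (B : ℝ) ^ κ * ((B : ℝ) ^ κ) ^ (1 + ε) := by
              apply mul_le_mul hjκ _ (by positivity) (by positivity)
              exact Real.rpow_le_rpow (by positivity) (hj2.trans hjκ) (by linarith)
          _ = (B : ℝ) ^ (κ * (2 + ε)) := by
              rw [← Real.rpow_mul hB0.le, ← Real.rpow_add hB0]
              congr 1
              ring
      have h5 : (2 : ℝ) ^ j * (H j : ℝ) ≤ (B : ℝ) ^ (κ * (3 + ε)) * (1 / (8 * c)) := by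
        calc (2 : ℝ) ^ j * (H j : ℝ) ≤ (B : ℝ) ^ κ * ((B : ℝ) ^ (κ * (2 + ε)) * (1 / (8 * c))) :=
              mul_le_mul hjκ ((hHX j hj1).1.trans h4) hHp.le (by positivity)
          _ = (B : ℝ) ^ (κ * (3 + ε)) * (1 / (8 * c)) := by
              rw [← mul_assoc, ← Real.rpow_add hB0]
              congr 2
              ring
      calc C * (2 : ℝ) ^ j * ((2 : ℝ) ^ j * (H j : ℝ)) ^ ε1 * (B : ℝ) ^ ((T + 1) * ε1)
          ≤ C * (B : ℝ) ^ κ * ((B : ℝ) ^ (κ * (3 + ε)) * (1 / (8 * c))) ^ ε1 *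
            (B : ℝ) ^ ((T + 1) * ε1) := by
            apply mul_le_mul_of_nonneg_right _ (by positivity)
            apply mul_le_mul (mul_le_mul_of_nonneg_left hjκ hC.le) _ (by positivity)
              (by positivity)
            exact Real.rpow_le_rpow (by positivity) h5 hε10.le
        _ = C * (1 / (8 * c)) ^ ε1 *
            (B : ℝ) ^ (κ + ε1 * (κ * (3 + ε) + (T + 1))) := by
            rw [Real.mul_rpow (by positivity) (by positivity), ← Real.rpow_mul hB0.le]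
            have e3 : (B : ℝ) ^ (κ + ε1 * (κ * (3 + ε) + (T + 1))) =
                (B : ℝ) ^ κ * ((B : ℝ) ^ (κ * (3 + ε) * ε1) * (B : ℝ) ^ ((T + 1) * ε1)) := by
              rw [← Real.rpow_add hB0, ← Real.rpow_add hB0]
              congr 1
              ring
            rw [e3]
            ring
        _ ≤ C * (1 / (8 * c)) ^ ε1 * (B : ℝ) ^ (κ + a4) := by
            apply mul_le_mul_of_nonneg_left _ (by positivity)
            apply Real.rpow_le_rpow_of_exponent_le hBR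
            linarith
  refine (Finset.sum_le_sum hone).trans ?_
  rw [Finset.sum_add_distrib, ← Finset.mul_sum, Finset.sum_const, Nat.card_Icc,
    Nat.add_sub_cancel, nsmul_eq_mul]
  have h6 : ∑ j ∈ Icc 1 J, 1 / ((j : ℝ) * Real.log 2) ^ (1 + ε) ≤ Z :=
    (tail_summable ε hε).sum_le_tsum _ fun j _ => by positivity
  have h7 : 64 * c * (B : ℝ) ^ T * ∑ j ∈ Icc 1 J, 1 / ((j : ℝ) * Real.log 2) ^ (1 + ε) ≤
      η / 2 * (B : ℝ) ^ T := by
    calc 64 * c * (B : ℝ) ^ T * ∑ j ∈ Icc 1 J, 1 / ((j : ℝ) * Real.log 2) ^ (1 + ε)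
        ≤ 64 * c * (B : ℝ) ^ T * Z := mul_le_mul_of_nonneg_left h6 (by positivity)
      _ = (64 * c * Z) * (B : ℝ) ^ T := by ring
      _ ≤ η / 2 * (B : ℝ) ^ T := mul_le_mul_of_nonneg_right hc2 (by positivity)
  have hJB : (J : ℝ) ≤ κ / (a4 * Real.log 2) * (B : ℝ) ^ a4 := by
    rcases Nat.eq_zero_or_pos J with h0 | h0
    · rw [h0, Nat.cast_zero]; positivity
    · have h1 := hJκ J (mem_Icc.2 ⟨h0, le_rfl⟩)
      have h2 : (J : ℝ) * Real.log 2 ≤ κ * Real.log B := by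
        rw [← Real.log_pow, ← Real.log_rpow hB0]
        exact Real.log_le_log (by positivity) h1
      have h3 : Real.log B ≤ (B : ℝ) ^ a4 / a4 := Real.log_le_rpow_div hB0.le ha40
      have h4 : (J : ℝ) * Real.log 2 ≤ κ * ((B : ℝ) ^ a4 / a4) :=
        h2.trans (mul_le_mul_of_nonneg_left h3 hκ0)
      rw [← le_div_iff₀ hlog2] at h4
      refine h4.trans (le_of_eq ?_)
      field_simp
  have h8 : (J : ℝ) * (C * (1 / (8 * c)) ^ ε1 * (B : ℝ) ^ (κ + a4)) ≤ η / 2 * (B : ℝ) ^ T := by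
    calc (J : ℝ) * (C * (1 / (8 * c)) ^ ε1 * (B : ℝ) ^ (κ + a4))
        ≤ (κ / (a4 * Real.log 2) * (B : ℝ) ^ a4) *
          (C * (1 / (8 * c)) ^ ε1 * (B : ℝ) ^ (κ + a4)) :=
          mul_le_mul_of_nonneg_right hJB (by positivity)
      _ = C3 * (B : ℝ) ^ (κ + 2 * a4) := by
          have e4 : (B : ℝ) ^ (κ + 2 * a4) = (B : ℝ) ^ a4 * (B : ℝ) ^ (κ + a4) := by
            rw [← Real.rpow_add hB0]
            congr 1
            ring
          rw [e4, hC3]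
          ring
      _ ≤ η / 2 * (B : ℝ) ^ (T : ℝ) := hbig
      _ = η / 2 * (B : ℝ) ^ T := by rw [Real.rpow_natCast]
  linarith

end Pool.Agent.X1.SchP
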