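import Mathlib
import Pool.Agent.X1.SchM

/-!
# Exponential sums with bounded coefficients at almost all elements of a number field
-/

set_option autoImplicit false

namespace Pool.Agent.X1.SchP

open Finset Filter Topology

/-- the product which bounds the sum over the box -/
noncomputable def G {T : ℕ} (ξ : Fin T → ℝ) (B : ℕ) (k : ℕ) : ℝ :=
  ∏ i, min (B : ℝ) (1 / (2 * nd (k * ξ i)))

lemma G_nonneg {T : ℕ} (ξ : Fin T → ℝ) (B k : ℕ) : 0 ≤ G ξ B k :=
  Finset.prod_nonneg fun i _ => le_min (Nat.cast_nonneg B) (by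
    have := nd_nonneg (k * ξ i); positivity)

/-- the box -/
def box (T B : ℕ) : Finset (Fin T → ℕ) := Fintype.piFinset fun _ : Fin T => range B

lemma card_box (T B : ℕ) : ((box T B).card : ℝ) = (B : ℝ) ^ T := by
  rw [box, Fintype.card_piFinset_const, card_range]
  push_cast
  rfl

lemma E_neg (x : ℝ) : E (-x) = (starRingEnd ℂ) (E x) := by
  unfold E
  rw [← Complex.exp_conj]
  congr 1
  rw [map_mul, Complex.conj_I, Complex.conj_ofReal]
  push_cast
  ring

/-- the exponential sum over the box -/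
lemma boxsum {T : ℕ} (ξ : Fin T → ℝ) (hpos : ∀ k : ℕ, 1 ≤ k → ∀ i, 0 < nd (k * ξ i))
    (B : ℕ) (s : ℝ) (k : ℕ) (hk : 1 ≤ k) :
    ‖∑ a ∈ box T B, E (k * (s + ∑ i, (a i : ℝ) * ξ i))‖ ≤ G ξ B k := by
  have h1 : ∀ a ∈ box T B, E (k * (s + ∑ i, (a i : ℝ) * ξ i)) =
        E (k * s) * ∏ i, E ((a i : ℝ) * (k * ξ i)) := by
    intro a _
    rw [← E_sum, ← E_add]
    congr 1
    rw [mul_add, Finset.mul_sum]
    congr 1
    apply Finset.sum_congr rfl
    intro i _
    ring
  rw [Finset.sum_congr rfl h1, ← Finset.mul_sum, norm_mul, norm_E, one_mul, box,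
    ← Finset.prod_univ_sum (fun _ : Fin T => range B)
      (fun i n => E ((n : ℝ) * (k * ξ i))), norm_prod]
  apply Finset.prod_le_prod
  · intro i _; exact norm_nonneg _
  · intro i _
    exact geo B _ (hpos k hk i)

/-- differences -/
lemma boxsum_int {T : ℕ} (ξ : Fin T → ℝ) (hpos : ∀ k : ℕ, 1 ≤ k → ∀ i, 0 < nd (k * ξ i))
    (B : ℕ) (s : ℝ) (m n : ℕ) (hmn : m ≠ n) :
    ‖∑ a ∈ box T B, E (m * (s + ∑ i, (a i : ℝ) * ξ i)) *
      (starRingEnd ℂ) (E (n * (s + ∑ i, (a i : ℝ) * ξ i)))‖ ≤ G ξ B (m - n + (n - m)) := by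
  have h0 : ∀ m n : ℕ, n < m → ‖∑ a ∈ box T B, E (m * (s + ∑ i, (a i : ℝ) * ξ i)) *
      (starRingEnd ℂ) (E (n * (s + ∑ i, (a i : ℝ) * ξ i)))‖ ≤ G ξ B (m - n) := by
    intro m n hnm
    have h1 : ∀ a ∈ box T B, E (m * (s + ∑ i, (a i : ℝ) * ξ i)) *
        (starRingEnd ℂ) (E (n * (s + ∑ i, (a i : ℝ) * ξ i))) =
        E ((m - n : ℕ) * (s + ∑ i, (a i : ℝ) * ξ i)) := by
      intro a _
      rw [← E_neg, ← E_add, Nat.cast_sub hnm.le]
      congr 1
      ring
    rw [Finset.sum_congr rfl h1]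
    exact boxsum ξ hpos B s (m - n) (by omega)
  rcases Nat.lt_or_gt_of_ne hmn with h | h
  · have h1 := h0 n m h
    have h2 : m - n + (n - m) = n - m := by omega
    rw [h2]
    refine le_trans (le_of_eq ?_) h1
    rw [← Complex.norm_conj, map_sum]
    congr 1
    apply Finset.sum_congr rfl
    intro a _
    rw [map_mul, Complex.conj_conj, mul_comm]
  · have h2 : m - n + (n - m) = m - n := by omega
    rw [h2]
    exact h0 m n h

/-- the sum over a block -/
noncomputable def blk (c : ℕ → ℂ) (u v : ℕ) (x : ℝ) : ℂ := ∑ n ∈ Ico u v, c n * E (n * x)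

/-- the second moment over the box, with its main term -/
lemma second_abs {T : ℕ} (ξ : Fin T → ℝ) (hpos : ∀ k : ℕ, 1 ≤ k → ∀ i, 0 < nd (k * ξ i))
    (c : ℕ → ℂ) (hc : ∀ n, ‖c n‖ ≤ 1) (B : ℕ) (s : ℝ) (u L : ℕ) :
    |∑ a ∈ box T B, ‖blk c u (u + L) (s + ∑ i, (a i : ℝ) * ξ i)‖ ^ 2 -
      (∑ n ∈ Ico u (u + L), ‖c n‖ ^ 2) * (B : ℝ) ^ T| ≤
      2 * L * ∑ k ∈ Icc 1 L, G ξ B k := by
  classical
  set x : (Fin T → ℕ) → ℝ := fun a => s + ∑ i, (a i : ℝ) * ξ i with hx
  have hsq : ∀ a, ((‖blk c u (u + L) (x a)‖ ^ 2 : ℝ) : ℂ) =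
      ∑ m ∈ Ico u (u + L), ∑ n ∈ Ico u (u + L), (c m * (starRingEnd ℂ) (c n)) *
        (E (m * x a) * (starRingEnd ℂ) (E (n * x a))) := by
    intro a
    rw [Complex.ofReal_pow, ← Complex.mul_conj', blk, map_sum, Finset.sum_mul_sum]
    apply Finset.sum_congr rfl
    intro m _
    apply Finset.sum_congr rfl
    intro n _
    rw [map_mul]
    ring
  have h1 : ((∑ a ∈ box T B, ‖blk c u (u + L) (x a)‖ ^ 2 : ℝ) : ℂ) =
      ∑ m ∈ Ico u (u + L), ∑ n ∈ Ico u (u + L), (c m * (starRingEnd ℂ) (c n)) *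
        ∑ a ∈ box T B, (E (m * x a) * (starRingEnd ℂ) (E (n * x a))) := by
    rw [Complex.ofReal_sum, Finset.sum_congr rfl fun a _ => hsq a, Finset.sum_comm]
    apply Finset.sum_congr rfl
    intro m _
    rw [Finset.sum_comm]
    apply Finset.sum_congr rfl
    intro n _
    rw [Finset.mul_sum]
  have h1' : (((∑ n ∈ Ico u (u + L), ‖c n‖ ^ 2) * (B : ℝ) ^ T : ℝ) : ℂ) =
      ∑ m ∈ Ico u (u + L), ∑ n ∈ Ico u (u + L),
        (if m = n then (c m * (starRingEnd ℂ) (c n)) * ((B : ℝ) ^ T : ℝ) else 0) := by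
    rw [Complex.ofReal_mul, Complex.ofReal_sum, Finset.sum_mul]
    apply Finset.sum_congr rfl
    intro m hm
    rw [Finset.sum_ite_eq, if_pos hm, Complex.ofReal_pow, ← Complex.mul_conj']
  have h2 : |∑ a ∈ box T B, ‖blk c u (u + L) (x a)‖ ^ 2 -
      (∑ n ∈ Ico u (u + L), ‖c n‖ ^ 2) * (B : ℝ) ^ T| ≤
      ∑ m ∈ Ico u (u + L), ∑ n ∈ Ico u (u + L),
        (if m = n then 0 else G ξ B (m - n + (n - m))) := by
    rw [← Real.norm_eq_abs, ← Complex.norm_real, Complex.ofReal_sub, h1, h1',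
      ← Finset.sum_sub_distrib]
    refine (norm_sum_le _ _).trans (Finset.sum_le_sum fun m _ => ?_)
    rw [← Finset.sum_sub_distrib]
    refine (norm_sum_le _ _).trans (Finset.sum_le_sum fun n _ => ?_)
    split_ifs with hmn
    · subst hmn
      have h3 : ∑ a ∈ box T B, (E (m * x a) * (starRingEnd ℂ) (E (m * x a))) =
          (((B : ℝ) ^ T : ℝ) : ℂ) := by
        rw [← card_box]
        have : ∀ a ∈ box T B, (E (m * x a) * (starRingEnd ℂ) (E (m * x a))) = 1 := by
          intro a _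
          rw [Complex.mul_conj', norm_E]
          norm_num
        rw [Finset.sum_congr rfl this, Finset.sum_const, nsmul_eq_mul, mul_one]
        push_cast
        rfl
      rw [h3, sub_self, norm_zero]
    · rw [sub_zero, norm_mul, norm_mul, Complex.norm_conj]
      have h4 : ‖c m‖ * ‖c n‖ ≤ 1 := mul_le_one₀ (hc m) (norm_nonneg _) (hc n)
      calc ‖c m‖ * ‖c n‖ * ‖∑ a ∈ box T B, (E (m * x a) * (starRingEnd ℂ) (E (n * x a)))‖
          ≤ 1 * ‖∑ a ∈ box T B, (E (m * x a) * (starRingEnd ℂ) (E (n * x a)))‖ :=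
            mul_le_mul_of_nonneg_right h4 (norm_nonneg _)
        _ ≤ _ := by rw [one_mul]; exact boxsum_int ξ hpos B s m n hmn
  refine h2.trans ?_
  have h6 : ∀ m ∈ Ico u (u + L), ∑ n ∈ Ico u (u + L),
      (if m = n then 0 else G ξ B (m - n + (n - m))) ≤ 2 * ∑ k ∈ Icc 1 L, G ξ B k := by
    intro m hm
    rw [mem_Ico] at hm
    have e1 : ∑ n ∈ Ico u (u + L), (if m = n then 0 else G ξ B (m - n + (n - m))) ≤
        ∑ n ∈ Ico u (u + L),
          ((if n < m then G ξ B (m - n) else 0) + (if m < n then G ξ B (n - m) else 0)) := by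
      apply Finset.sum_le_sum
      intro n _
      rcases lt_trichotomy m n with h | h | h
      · rw [if_neg h.ne, if_neg (by omega), if_pos h]
        have : m - n + (n - m) = n - m := by omega
        rw [this]; simp
      · subst h; simp
      · rw [if_neg h.ne', if_pos h, if_neg (by omega)]
        have : m - n + (n - m) = m - n := by omega
        rw [this]; simp
    refine e1.trans ?_
    rw [Finset.sum_add_distrib]
    have e2 : ∑ n ∈ Ico u (u + L), (if n < m then G ξ B (m - n) else 0) ≤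
        ∑ k ∈ Icc 1 L, G ξ B k := by
      rw [← Finset.sum_filter]
      have : ∑ n ∈ (Ico u (u + L)).filter (fun n => n < m), G ξ B (m - n) =
          ∑ k ∈ ((Ico u (u + L)).filter (fun n => n < m)).image (fun n => m - n), G ξ B k := by
        rw [Finset.sum_image]
        intro n hn n' hn' hnn
        rw [mem_coe, mem_filter, mem_Ico] at hn hn'
        simp only at hnn
        omega
      rw [this]
      apply Finset.sum_le_sum_of_subset_of_nonneg
      · intro k hk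
        rw [mem_image] at hk
        obtain ⟨n, hn, rfl⟩ := hk
        rw [mem_filter, mem_Ico] at hn
        rw [mem_Icc]
        omega
      · intro k _ _; exact G_nonneg ξ B k
    have e3 : ∑ n ∈ Ico u (u + L), (if m < n then G ξ B (n - m) else 0) ≤
        ∑ k ∈ Icc 1 L, G ξ B k := by
      rw [← Finset.sum_filter]
      have : ∑ n ∈ (Ico u (u + L)).filter (fun n => m < n), G ξ B (n - m) =
          ∑ k ∈ ((Ico u (u + L)).filter (fun n => m < n)).image (fun n => n - m), G ξ B k := by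
        rw [Finset.sum_image]
        intro n hn n' hn' hnn
        rw [mem_coe, mem_filter, mem_Ico] at hn hn'
        simp only at hnn
        omega
      rw [this]
      apply Finset.sum_le_sum_of_subset_of_nonneg
      · intro k hk
        rw [mem_image] at hk
        obtain ⟨n, hn, rfl⟩ := hk
        rw [mem_filter, mem_Ico] at hn
        rw [mem_Icc]
        omega
      · intro k _ _; exact G_nonneg ξ B k
    linarith
  refine (Finset.sum_le_sum h6).trans (le_of_eq ?_)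
  rw [Finset.sum_const, Nat.card_Ico, Nat.add_sub_cancel_left, nsmul_eq_mul]
  ring

/-- the second moment over the box -/
lemma second {T : ℕ} (ξ : Fin T → ℝ) (hpos : ∀ k : ℕ, 1 ≤ k → ∀ i, 0 < nd (k * ξ i))
    (c : ℕ → ℂ) (hc : ∀ n, ‖c n‖ ≤ 1) (B : ℕ) (s : ℝ) (u L : ℕ) :
    ∑ a ∈ box T B, ‖blk c u (u + L) (s + ∑ i, (a i : ℝ) * ξ i)‖ ^ 2 ≤
      L * (B : ℝ) ^ T + 2 * L * ∑ k ∈ Icc 1 L, G ξ B k := by
  have h1 := (abs_le.1 (second_abs ξ hpos c hc B s u L)).2
  have h2 : (∑ n ∈ Ico u (u + L), ‖c n‖ ^ 2) * (B : ℝ) ^ T ≤ L * (B : ℝ) ^ T := by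
    apply mul_le_mul_of_nonneg_right _ (by positivity)
    calc ∑ n ∈ Ico u (u + L), ‖c n‖ ^ 2 ≤ ∑ n ∈ Ico u (u + L), (1 : ℝ) :=
          Finset.sum_le_sum fun n _ => pow_le_one₀ (norm_nonneg _) (hc n)
      _ = L := by simp
  linarith

/-- the second moment of the Dirichlet kernel, from below -/
lemma second_low {T : ℕ} (ξ : Fin T → ℝ) (hpos : ∀ k : ℕ, 1 ≤ k → ∀ i, 0 < nd (k * ξ i))
    (B : ℕ) (s : ℝ) (L : ℕ) :
    L * (B : ℝ) ^ T - 2 * L * ∑ k ∈ Icc 1 L, G ξ B k ≤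
    ∑ a ∈ box T B, ‖∑ j ∈ range L, E (j * (s + ∑ i, (a i : ℝ) * ξ i))‖ ^ 2 := by
  have h1 := (abs_le.1 (second_abs ξ hpos (fun _ => 1) (fun _ => by simp) B s 0 L)).1
  have h2 : ∀ a : Fin T → ℕ, blk (fun _ => 1) 0 (0 + L) (s + ∑ i, (a i : ℝ) * ξ i) =
      ∑ j ∈ range L, E (j * (s + ∑ i, (a i : ℝ) * ξ i)) := by
    intro a
    rw [blk, zero_add, Finset.range_eq_Ico]
    simp
  have h3 : ∑ n ∈ Ico 0 (0 + L), ‖(fun _ : ℕ => (1 : ℂ)) n‖ ^ 2 = L := by simp
  rw [h3] at h1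
  simp only [h2] at h1
  linarith

/-- the dyadic maximal inequality, first powers -/
lemma dyadic1 (J : ℕ) : ∀ (f : ℕ → ℂ) (r : ℕ), r < 2 ^ J →
    ‖∑ n ∈ range r, f n‖ ≤ ∑ i ∈ range J,
      Real.sqrt (∑ j ∈ range (2 ^ (J - i)), ‖∑ n ∈ Ico (j * 2 ^ i) (j * 2 ^ i + 2 ^ i), f n‖ ^ 2) := by
  induction J with
  | zero =>
    intro f r hr
    have : r = 0 := by simpa using hr
    subst this
    simp
  | succ J ih =>
    intro f r hr
    have hpow : 2 ^ (J + 1) = 2 ^ J + 2 ^ J := by ring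
    rcases Nat.lt_or_ge r (2 ^ J) with h | h
    · refine (ih f r h).trans ?_
      rw [Finset.sum_range_succ]
      refine le_add_of_le_of_nonneg (Finset.sum_le_sum fun i hi => ?_) (Real.sqrt_nonneg _)
      apply Real.sqrt_le_sqrt
      apply Finset.sum_le_sum_of_subset_of_nonneg
      · intro j hj
        rw [mem_range] at hj ⊢
        exact hj.trans_le (Nat.pow_le_pow_right (by norm_num) (by omega))
      · intro j _ _; positivity
    · obtain ⟨r', rfl⟩ := Nat.exists_eq_add_of_le h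
      have hr' : r' < 2 ^ J := by omega
      have h1 := ih (fun n => f (2 ^ J + n)) r' hr'
      rw [Finset.sum_range_add]
      refine (norm_add_le _ _).trans ?_
      rw [Finset.sum_range_succ, add_comm]
      apply add_le_add
      · refine h1.trans (Finset.sum_le_sum fun i hi => ?_)
        rw [mem_range] at hi
        apply Real.sqrt_le_sqrt
        -- shift of the blocks
        have h2 : ∀ j, ∑ n ∈ Ico (j * 2 ^ i) (j * 2 ^ i + 2 ^ i), f (2 ^ J + n) =
            ∑ n ∈ Ico ((2 ^ (J - i) + j) * 2 ^ i) ((2 ^ (J - i) + j) * 2 ^ i + 2 ^ i), f n := by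
          intro j
          have e1 : (2 ^ (J - i) + j) * 2 ^ i = 2 ^ J + j * 2 ^ i := by
            rw [add_mul, ← pow_add]
            congr 2
            omega
          rw [e1, Finset.sum_Ico_eq_sum_range, Finset.sum_Ico_eq_sum_range,
            Nat.add_sub_cancel_left, Nat.add_sub_cancel_left]
          apply Finset.sum_congr rfl
          intro n _
          rw [add_assoc]
        simp only [h2]
        have e2 : ∑ j ∈ range (2 ^ (J - i)),
            ‖∑ n ∈ Ico ((2 ^ (J - i) + j) * 2 ^ i) ((2 ^ (J - i) + j) * 2 ^ i + 2 ^ i), f n‖ ^ 2 =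
            ∑ j ∈ Ico (2 ^ (J - i)) (2 ^ (J - i) + 2 ^ (J - i)),
              ‖∑ n ∈ Ico (j * 2 ^ i) (j * 2 ^ i + 2 ^ i), f n‖ ^ 2 := by
          rw [Finset.sum_Ico_eq_sum_range, Nat.add_sub_cancel_left]
        rw [e2]
        apply Finset.sum_le_sum_of_subset_of_nonneg
        · intro j hj
          rw [mem_Ico] at hj
          rw [mem_range, show J + 1 - i = (J - i) + 1 by omega, pow_succ, mul_two]
          exact hj.2
        · intro j _ _; positivity
      · have h3 : ‖∑ n ∈ range (2 ^ J), f n‖ = Real.sqrt (‖∑ n ∈ range (2 ^ J), f n‖ ^ 2) := by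
          rw [Real.sqrt_sq (norm_nonneg _)]
        rw [h3]
        apply Real.sqrt_le_sqrt
        have h4 : ‖∑ n ∈ range (2 ^ J), f n‖ ^ 2 =
            ‖∑ n ∈ Ico (0 * 2 ^ J) (0 * 2 ^ J + 2 ^ J), f n‖ ^ 2 := by
          rw [zero_mul, zero_add, Finset.range_eq_Ico]
        rw [h4]
        exact Finset.single_le_sum
          (f := fun j => ‖∑ n ∈ Ico (j * 2 ^ J) (j * 2 ^ J + 2 ^ J), f n‖ ^ 2)
          (fun j _ => by positivity) (mem_range.2 (by positivity))

/-- the dyadic maximal inequality -/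
lemma dyadic2 (J : ℕ) (f : ℕ → ℂ) (r : ℕ) (hr : r < 2 ^ J) :
    ‖∑ n ∈ range r, f n‖ ^ 2 ≤ J * ∑ i ∈ range J,
      ∑ j ∈ range (2 ^ (J - i)), ‖∑ n ∈ Ico (j * 2 ^ i) (j * 2 ^ i + 2 ^ i), f n‖ ^ 2 := by
  have h1 := dyadic1 J f r hr
  have h2 := pow_le_pow_left₀ (norm_nonneg _) h1 2
  refine h2.trans ?_
  have h3 := sq_sum_le_card_mul_sum_sq (s := range J) (f := fun i =>
    Real.sqrt (∑ j ∈ range (2 ^ (J - i)), ‖∑ n ∈ Ico (j * 2 ^ i) (j * 2 ^ i + 2 ^ i), f n‖ ^ 2))
  refine h3.trans (le_of_eq ?_)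
  rw [card_range]
  congr 1
  apply Finset.sum_congr rfl
  intro i _
  rw [Real.sq_sqrt (Finset.sum_nonneg fun j _ => by positivity)]

end Pool.Agent.X1.SchP
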