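import Mathlib
import Pool.Agent.X1.MobA

/-!
# Exponential sums with bounded coefficients at almost all elements of a number field, II
-/

set_option autoImplicit false

namespace Pool.Agent.X1.SchP

open Finset Filter Topology

/-- the sum up to `r` -/
noncomputable def Fs (c : ℕ → ℂ) (r : ℕ) (x : ℝ) : ℂ := ∑ n ∈ range (r + 1), c n * E (n * x)

/-- the dyadic majorant -/
noncomputable def Vs (c : ℕ → ℂ) (J : ℕ) (x : ℝ) : ℝ := J * ∑ i ∈ range J,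
  ∑ j ∈ range (2 ^ (J - i)), ‖blk c (j * 2 ^ i) (j * 2 ^ i + 2 ^ i) x‖ ^ 2

lemma Fs_le (c : ℕ → ℂ) (J r : ℕ) (x : ℝ) (hr : r + 1 < 2 ^ J) : ‖Fs c r x‖ ^ 2 ≤ Vs c J x :=
  dyadic2 J (fun n => c n * E (n * x)) (r + 1) hr

lemma Vs_sum {T : ℕ} (ξ : Fin T → ℝ) (hpos : ∀ k : ℕ, 1 ≤ k → ∀ i, 0 < nd (k * ξ i))
    (c : ℕ → ℂ) (hc : ∀ n, ‖c n‖ ≤ 1) (B : ℕ) (s : ℝ) (J : ℕ) (D : ℝ)
    (hD : ∀ K : ℕ, ∑ k ∈ Icc 1 K, G ξ B k ≤ D * K) :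
    ∑ a ∈ box T B, Vs c J (s + ∑ i, (a i : ℝ) * ξ i) ≤
      J * (J * 2 ^ J * (B : ℝ) ^ T + 2 * D * 4 ^ J) := by
  have hD0 : 0 ≤ D := by
    have := hD 1
    rw [Nat.cast_one, mul_one] at this
    exact le_trans (Finset.sum_nonneg fun k _ => G_nonneg ξ B k) this
  unfold Vs
  rw [← Finset.mul_sum]
  apply mul_le_mul_of_nonneg_left _ (Nat.cast_nonneg J)
  rw [Finset.sum_comm]
  have h1 : ∀ i ∈ range J, ∑ a ∈ box T B, ∑ j ∈ range (2 ^ (J - i)),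
      ‖blk c (j * 2 ^ i) (j * 2 ^ i + 2 ^ i) (s + ∑ i, (a i : ℝ) * ξ i)‖ ^ 2 ≤
      2 ^ J * (B : ℝ) ^ T + 2 * D * 2 ^ J * 2 ^ i := by
    intro i hi
    rw [mem_range] at hi
    rw [Finset.sum_comm]
    have h2 : ∀ j ∈ range (2 ^ (J - i)), ∑ a ∈ box T B,
        ‖blk c (j * 2 ^ i) (j * 2 ^ i + 2 ^ i) (s + ∑ i, (a i : ℝ) * ξ i)‖ ^ 2 ≤
        2 ^ i * (B : ℝ) ^ T + 2 * 2 ^ i * (D * 2 ^ i) := by
      intro j _
      have h3 := second ξ hpos c hc B s (j * 2 ^ i) (2 ^ i)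
      push_cast at h3
      refine h3.trans (add_le_add le_rfl ?_)
      have h4 := hD (2 ^ i)
      push_cast at h4
      exact mul_le_mul_of_nonneg_left h4 (by positivity)
    refine (Finset.sum_le_sum h2).trans (le_of_eq ?_)
    rw [Finset.sum_const, card_range, nsmul_eq_mul]
    push_cast
    have h5 : (2 : ℝ) ^ J = 2 ^ (J - i) * 2 ^ i := by
      rw [← pow_add]; congr 1; omega
    rw [h5]
    ring
  refine (Finset.sum_le_sum h1).trans ?_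
  rw [Finset.sum_add_distrib, Finset.sum_const, card_range, nsmul_eq_mul, ← Finset.mul_sum]
  have h6 : ∑ i ∈ range J, (2 : ℝ) ^ i ≤ 2 ^ J := by
    rw [geom_sum_eq (by norm_num)]
    have : (0 : ℝ) < 2 ^ J := by positivity
    rw [div_le_iff₀ (by norm_num)]
    linarith
  have h7 : 2 * D * 2 ^ J * ∑ i ∈ range J, (2 : ℝ) ^ i ≤ 2 * D * 4 ^ J := by
    calc 2 * D * 2 ^ J * ∑ i ∈ range J, (2 : ℝ) ^ i ≤ 2 * D * 2 ^ J * 2 ^ J :=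
          mul_le_mul_of_nonneg_left h6 (by positivity)
      _ = 2 * D * 4 ^ J := by
          rw [mul_assoc, ← mul_pow]; norm_num
  have h8 : (J : ℝ) * (2 ^ J * (B : ℝ) ^ T) = J * 2 ^ J * (B : ℝ) ^ T := by ring
  linarith

/-- Markov for one scale -/
lemma one_scale {T : ℕ} (ξ : Fin T → ℝ) (hpos : ∀ k : ℕ, 1 ≤ k → ∀ i, 0 < nd (k * ξ i))
    (c : ℕ → ℂ) (hc : ∀ n, ‖c n‖ ≤ 1) (B : ℕ) (hB : 1 ≤ B) (s : ℝ) (D : ℝ)
    (hD : ∀ K : ℕ, ∑ k ∈ Icc 1 K, G ξ B k ≤ D * K) (W : ℝ) (hW : 0 < W) (k : ℕ)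
    (S : Finset (Fin T → ℕ)) (hS : S ⊆ box T B)
    (hS2 : ∀ a ∈ S, ∃ r : ℕ, 2 ^ k ≤ r ∧ r < 2 ^ (k + 1) ∧
      W * (Real.sqrt r + r * ((B : ℝ) ^ T)⁻¹.sqrt) < ‖Fs c r (s + ∑ i, (a i : ℝ) * ξ i)‖) :
    (S.card : ℝ) * W ^ 2 ≤ ((k : ℝ) + 2) ^ 2 * (4 * (B : ℝ) ^ T + 32 * D * (B : ℝ) ^ T) := by
  have hD0 : 0 ≤ D := by
    have := hD 1
    rw [Nat.cast_one, mul_one] at this
    exact le_trans (Finset.sum_nonneg fun k _ => G_nonneg ξ B k) this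
  have hB0 : (0 : ℝ) < B := by exact_mod_cast hB
  set N : ℝ := (B : ℝ) ^ T with hN
  have hN0 : 0 < N := by positivity
  have h1 := Vs_sum ξ hpos c hc B s (k + 2) D hD
  have h2 : ∀ a ∈ S, W ^ 2 * ((2 : ℝ) ^ k + 4 ^ k * N⁻¹) ≤
      Vs c (k + 2) (s + ∑ i, (a i : ℝ) * ξ i) := by
    intro a ha
    obtain ⟨r, hr1, hr2, hr3⟩ := hS2 a ha
    have h3 := Fs_le c (k + 2) r (s + ∑ i, (a i : ℝ) * ξ i) (by
      rw [pow_succ 2 (k + 1)]; omega)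
    refine le_trans ?_ h3
    have hrR : (2 : ℝ) ^ k ≤ r := by exact_mod_cast hr1
    have hr0 : (0 : ℝ) < r := lt_of_lt_of_le (by positivity) hrR
    have h4 : W ^ 2 * (r + (r : ℝ) ^ 2 * N⁻¹) ≤
        (W * (Real.sqrt r + r * (N⁻¹).sqrt)) ^ 2 := by
      rw [mul_pow]
      apply mul_le_mul_of_nonneg_left _ (by positivity)
      have e1 := Real.sq_sqrt hr0.le
      have e2 := Real.sq_sqrt (inv_nonneg.2 hN0.le)
      have e3 : 0 ≤ Real.sqrt r := Real.sqrt_nonneg _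
      have e4 : 0 ≤ (N⁻¹).sqrt := Real.sqrt_nonneg _
      have e5 : 0 ≤ Real.sqrt r * (r * (N⁻¹).sqrt) := by positivity
      have e6 : (Real.sqrt r + r * (N⁻¹).sqrt) ^ 2 =
          Real.sqrt r ^ 2 + 2 * (Real.sqrt r * (r * (N⁻¹).sqrt)) + (r : ℝ) ^ 2 * (N⁻¹).sqrt ^ 2 := by
        ring
      rw [e6, e1, e2]
      linarith
    have h5 : (W * (Real.sqrt r + r * (N⁻¹).sqrt)) ^ 2 ≤
        ‖Fs c r (s + ∑ i, (a i : ℝ) * ξ i)‖ ^ 2 :=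
      pow_le_pow_left₀ (by positivity) hr3.le 2
    refine le_trans ?_ (h4.trans h5)
    apply mul_le_mul_of_nonneg_left _ (by positivity)
    apply add_le_add hrR
    apply mul_le_mul_of_nonneg_right _ (by positivity)
    calc (4 : ℝ) ^ k = (2 ^ k) ^ 2 := by rw [← pow_mul, mul_comm, pow_mul]; norm_num
      _ ≤ (r : ℝ) ^ 2 := pow_le_pow_left₀ (by positivity) hrR 2
  have h6 : (S.card : ℝ) * (W ^ 2 * ((2 : ℝ) ^ k + 4 ^ k * N⁻¹)) ≤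
      ∑ a ∈ box T B, Vs c (k + 2) (s + ∑ i, (a i : ℝ) * ξ i) := by
    calc (S.card : ℝ) * (W ^ 2 * ((2 : ℝ) ^ k + 4 ^ k * N⁻¹))
        = ∑ _a ∈ S, W ^ 2 * ((2 : ℝ) ^ k + 4 ^ k * N⁻¹) := by
          rw [Finset.sum_const, nsmul_eq_mul]
      _ ≤ ∑ a ∈ S, Vs c (k + 2) (s + ∑ i, (a i : ℝ) * ξ i) := Finset.sum_le_sum h2
      _ ≤ _ := by
          apply Finset.sum_le_sum_of_subset_of_nonneg hS
          intro a _ _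
          unfold Vs
          positivity
  have h7 := h6.trans h1
  -- divide
  have hden : (0 : ℝ) < (2 : ℝ) ^ k + 4 ^ k * N⁻¹ := by positivity
  have h8 : ((k + 2 : ℕ) : ℝ) * (((k + 2 : ℕ) : ℝ) * 2 ^ (k + 2) * N + 2 * D * 4 ^ (k + 2)) ≤
      ((k : ℝ) + 2) ^ 2 * (4 * N + 32 * D * N) * ((2 : ℝ) ^ k + 4 ^ k * N⁻¹) := by
    push_cast
    have e1 : (2 : ℝ) ^ (k + 2) = 4 * 2 ^ k := by rw [pow_add]; ring
    have e2 : (4 : ℝ) ^ (k + 2) = 16 * 4 ^ k := by rw [pow_add]; ring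
    rw [e1, e2]
    have e3 : N * (4 ^ k * N⁻¹) = 4 ^ k := by field_simp
    have hk : (0 : ℝ) ≤ k := Nat.cast_nonneg k
    have e4 : ((k : ℝ) + 2) ^ 2 * (4 * N + 32 * D * N) * ((2 : ℝ) ^ k + 4 ^ k * N⁻¹) =
        ((k : ℝ) + 2) ^ 2 * (4 * N * 2 ^ k) + ((k : ℝ) + 2) ^ 2 * (32 * D * N * 2 ^ k) +
        ((k : ℝ) + 2) ^ 2 * (4 * 4 ^ k) + ((k : ℝ) + 2) ^ 2 * (32 * D * 4 ^ k) := by
      calc ((k : ℝ) + 2) ^ 2 * (4 * N + 32 * D * N) * ((2 : ℝ) ^ k + 4 ^ k * N⁻¹)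
          = ((k : ℝ) + 2) ^ 2 * (4 * N * 2 ^ k) + ((k : ℝ) + 2) ^ 2 * (32 * D * N * 2 ^ k) +
            ((k : ℝ) + 2) ^ 2 * (4 * (N * (4 ^ k * N⁻¹))) +
            ((k : ℝ) + 2) ^ 2 * (32 * D * (N * (4 ^ k * N⁻¹))) := by ring
        _ = _ := by rw [e3]
    rw [e4]
    have e5 : ((k : ℝ) + 2) * (2 * D * (16 * 4 ^ k)) ≤ ((k : ℝ) + 2) ^ 2 * (32 * D * 4 ^ k) := by
      have : ((k : ℝ) + 2) * 1 ≤ ((k : ℝ) + 2) ^ 2 := by nlinarith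
      calc ((k : ℝ) + 2) * (2 * D * (16 * 4 ^ k)) = (((k : ℝ) + 2) * 1) * (32 * D * 4 ^ k) := by ring
        _ ≤ _ := mul_le_mul_of_nonneg_right this (by positivity)
    have e6 : 0 ≤ ((k : ℝ) + 2) ^ 2 * (32 * D * N * 2 ^ k) := by positivity
    have e7 : 0 ≤ ((k : ℝ) + 2) ^ 2 * (4 * (4 : ℝ) ^ k) := by positivity
    nlinarith
  have h9 := h7.trans h8
  have h10 : (S.card : ℝ) * W ^ 2 * ((2 : ℝ) ^ k + 4 ^ k * N⁻¹) ≤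
      ((k : ℝ) + 2) ^ 2 * (4 * N + 32 * D * N) * ((2 : ℝ) ^ k + 4 ^ k * N⁻¹) := by
    calc (S.card : ℝ) * W ^ 2 * ((2 : ℝ) ^ k + 4 ^ k * N⁻¹) =
        (S.card : ℝ) * (W ^ 2 * ((2 : ℝ) ^ k + 4 ^ k * N⁻¹)) := by ring
      _ ≤ _ := h9
  exact le_of_mul_le_mul_right h10 hden

end Pool.Agent.X1.SchP
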