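import Mathlib
import Pool.Agent.X1.MobB

/-!
# Exponential sums with bounded coefficients at almost all elements of a number field, III
-/

set_option autoImplicit false

namespace Pool.Agent.X1.SchP

open Finset Filter Topology

open Classical in
/-- **almost all elements** -/
theorem almost {T : ℕ} (ξ : Fin T → ℝ) (hξ : ∀ i, IsAlgebraic ℚ (ξ i))
    (hind : ∀ (y0 : ℤ) (y : Fin T → ℤ), (y0 : ℝ) + ∑ i, (y i : ℝ) * ξ i = 0 → y0 = 0 ∧ y = 0)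
    (δ A : ℝ) (hδ : 0 < δ) (hA : 0 ≤ A) :
    ∃ B₀ : ℕ, ∀ B : ℕ, B₀ ≤ B → ∀ c : ℕ → ℂ, (∀ n, ‖c n‖ ≤ 1) → ∀ s : ℝ,
      (((box T B).filter fun a => ∃ r : ℕ, 1 ≤ r ∧ (r : ℝ) ≤ (B : ℝ) ^ A ∧
        (B : ℝ) ^ δ * (Real.sqrt r + r * ((B : ℝ) ^ T)⁻¹.sqrt) <
          ‖Fs c r (s + ∑ i, (a i : ℝ) * ξ i)‖).card : ℝ) ≤ (B : ℝ) ^ ((T : ℝ) - δ) := by
  have hlog2 : 0 < Real.log 2 := Real.log_pos (by norm_num)
  obtain ⟨ε, hε0, hε1, hε2⟩ : ∃ ε : ℝ, 0 < ε ∧ ε ≤ 1 ∧ ((T : ℝ) + 1) * ε ≤ δ / 4 := by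
    refine ⟨min 1 (δ / (4 * (T + 1))), lt_min one_pos (by positivity), min_le_left _ _, ?_⟩
    calc ((T : ℝ) + 1) * min 1 (δ / (4 * (T + 1))) ≤ ((T : ℝ) + 1) * (δ / (4 * (T + 1))) :=
          mul_le_mul_of_nonneg_left (min_le_right _ _) (by positivity)
      _ = δ / 4 := by field_simp
  obtain ⟨c0, hc0, hS⟩ := schmidt ξ hξ hind ε hε0 hε1
  obtain ⟨C1, hC1, hsum⟩ := sum_bound ξ ε c0 hε0 hc0 hS
  have hpos := fun k hk i => nd_pos ξ hind k hk i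
  set C4 : ℝ := 8 * A / (δ * Real.log 2) + 2 with hC4
  have hC40 : 0 < C4 := by positivity
  set C5 : ℝ := C4 ^ 3 * (4 + 32 * C1) with hC5
  have hC50 : 0 < C5 := by positivity
  have hev : ∀ᶠ B : ℕ in atTop, C5 ≤ (B : ℝ) ^ (3 * δ / 8) :=
    ((tendsto_rpow_atTop (by positivity)).comp tendsto_natCast_atTop_atTop).eventually
      (eventually_ge_atTop C5)
  obtain ⟨B₀, hB₀⟩ := eventually_atTop.1 (hev.and (eventually_ge_atTop 1))
  refine ⟨B₀, fun B hB c hc s => ?_⟩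
  obtain ⟨hbig, hB1⟩ := hB₀ B hB
  have hBR : (1 : ℝ) ≤ B := by exact_mod_cast hB1
  have hB0 : (0 : ℝ) < B := by linarith
  set D : ℝ := C1 * (B : ℝ) ^ ((T + 1) * ε) with hD
  have hDK : ∀ K : ℕ, ∑ k ∈ Icc 1 K, G ξ B k ≤ D * K := by
    intro K
    refine (hsum K B hB1).trans (le_of_eq ?_)
    rw [hD]; ring
  set W : ℝ := (B : ℝ) ^ δ with hW
  have hW0 : 0 < W := Real.rpow_pos_of_pos hB0 _
  set K : ℕ := Nat.log 2 ⌊(B : ℝ) ^ A⌋₊ with hK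
  set P : (Fin T → ℕ) → ℕ → Prop := fun a r =>
    W * (Real.sqrt r + r * ((B : ℝ) ^ T)⁻¹.sqrt) < ‖Fs c r (s + ∑ i, (a i : ℝ) * ξ i)‖ with hP
  set S : ℕ → Finset (Fin T → ℕ) := fun k =>
    (box T B).filter fun a => ∃ r : ℕ, 2 ^ k ≤ r ∧ r < 2 ^ (k + 1) ∧ P a r with hSdef
  have hcover : ((box T B).filter fun a => ∃ r : ℕ, 1 ≤ r ∧ (r : ℝ) ≤ (B : ℝ) ^ A ∧
        (B : ℝ) ^ δ * (Real.sqrt r + r * ((B : ℝ) ^ T)⁻¹.sqrt) <
          ‖Fs c r (s + ∑ i, (a i : ℝ) * ξ i)‖) ⊆ (range (K + 1)).biUnion S := by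
    intro a ha
    rw [mem_filter] at ha
    obtain ⟨haB, r, hr1, hrA, hr2⟩ := ha
    rw [mem_biUnion]
    refine ⟨Nat.log 2 r, ?_, ?_⟩
    · rw [mem_range, Nat.lt_succ_iff]
      exact Nat.log_mono_right (Nat.le_floor hrA)
    · simp only [hSdef]
      rw [mem_filter]
      exact ⟨haB, r, Nat.pow_log_le_self 2 (by omega), Nat.lt_pow_succ_log_self (by norm_num) r, hr2⟩
  have hone : ∀ k ∈ range (K + 1), ((S k).card : ℝ) ≤
      ((K : ℝ) + 2) ^ 2 * ((4 + 32 * D) * (B : ℝ) ^ T) / W ^ 2 := by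
    intro k hk
    rw [mem_range, Nat.lt_succ_iff] at hk
    rw [le_div_iff₀ (by positivity)]
    have h1 := one_scale ξ hpos c hc B hB1 s D hDK W hW0 k (S k) (filter_subset _ _) (by
      intro a ha
      exact (mem_filter.1 ha).2)
    refine h1.trans ?_
    have hD0 : 0 ≤ D := by positivity
    have hkK : (k : ℝ) ≤ K := by exact_mod_cast hk
    have h2 : ((k : ℝ) + 2) ^ 2 ≤ ((K : ℝ) + 2) ^ 2 := pow_le_pow_left₀ (by positivity) (by linarith) 2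
    calc ((k : ℝ) + 2) ^ 2 * (4 * (B : ℝ) ^ T + 32 * D * (B : ℝ) ^ T)
        = ((k : ℝ) + 2) ^ 2 * ((4 + 32 * D) * (B : ℝ) ^ T) := by ring
      _ ≤ _ := mul_le_mul_of_nonneg_right h2 (by positivity)
  have hcard : (((box T B).filter fun a => ∃ r : ℕ, 1 ≤ r ∧ (r : ℝ) ≤ (B : ℝ) ^ A ∧
        (B : ℝ) ^ δ * (Real.sqrt r + r * ((B : ℝ) ^ T)⁻¹.sqrt) <
          ‖Fs c r (s + ∑ i, (a i : ℝ) * ξ i)‖).card : ℝ) ≤ ∑ k ∈ range (K + 1), ((S k).card : ℝ) := by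
    have h1 := (Finset.card_le_card hcover).trans Finset.card_biUnion_le
    exact_mod_cast h1
  refine hcard.trans ((Finset.sum_le_sum hone).trans ?_)
  rw [Finset.sum_const, card_range, nsmul_eq_mul]
  push_cast
  -- the bound for `K`
  have hKB : (K : ℝ) + 2 ≤ C4 * (B : ℝ) ^ (δ / 8) := by
    have hone' : (1 : ℝ) ≤ (B : ℝ) ^ (δ / 8) := Real.one_le_rpow hBR (by positivity)
    have hfl : ⌊(B : ℝ) ^ A⌋₊ ≠ 0 := by
      have h1 : 1 ≤ ⌊(B : ℝ) ^ A⌋₊ := Nat.le_floor (by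
        rw [Nat.cast_one]; exact Real.one_le_rpow hBR hA)
      omega
    have h1 : ((2 ^ K : ℕ) : ℝ) ≤ (B : ℝ) ^ A :=
      (Nat.cast_le.2 (Nat.pow_log_le_self 2 hfl)).trans (Nat.floor_le (by positivity))
    have h2 : (K : ℝ) * Real.log 2 ≤ A * Real.log B := by
      rw [← Real.log_pow, ← Real.log_rpow hB0]
      apply Real.log_le_log (by positivity)
      exact_mod_cast h1
    have h3 : Real.log B ≤ (B : ℝ) ^ (δ / 8) / (δ / 8) := Real.log_le_rpow_div hB0.le (by positivity)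
    have h4 : (K : ℝ) * Real.log 2 ≤ A * ((B : ℝ) ^ (δ / 8) / (δ / 8)) :=
      h2.trans (mul_le_mul_of_nonneg_left h3 hA)
    rw [← le_div_iff₀ hlog2] at h4
    have h5 : A * ((B : ℝ) ^ (δ / 8) / (δ / 8)) / Real.log 2 =
        8 * A / (δ * Real.log 2) * (B : ℝ) ^ (δ / 8) := by
      field_simp
    rw [h5] at h4
    rw [hC4, add_mul]
    linarith
  have hD4 : 4 + 32 * D ≤ (4 + 32 * C1) * (B : ℝ) ^ (δ / 4) := by
    have h1 : (B : ℝ) ^ ((T + 1) * ε) ≤ (B : ℝ) ^ (δ / 4) :=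
      Real.rpow_le_rpow_of_exponent_le hBR hε2
    have h2 : (1 : ℝ) ≤ (B : ℝ) ^ (δ / 4) := Real.one_le_rpow hBR (by positivity)
    have h3 : D ≤ C1 * (B : ℝ) ^ (δ / 4) := mul_le_mul_of_nonneg_left h1 hC1.le
    rw [add_mul, mul_assoc]
    linarith
  have hKp : (0 : ℝ) ≤ K := Nat.cast_nonneg K
  have hTr : (B : ℝ) ^ T = (B : ℝ) ^ (T : ℝ) := by rw [Real.rpow_natCast]
  have hW2 : W ^ 2 = (B : ℝ) ^ (2 * δ) := by
    rw [hW, ← Real.rpow_natCast, ← Real.rpow_mul hB0.le]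
    congr 1
    push_cast
    ring
  have hD0 : 0 ≤ D := by positivity
  calc ((K : ℝ) + 1) * (((K : ℝ) + 2) ^ 2 * ((4 + 32 * D) * (B : ℝ) ^ T) / W ^ 2)
      = ((K : ℝ) + 1) * ((K : ℝ) + 2) ^ 2 * (4 + 32 * D) * ((B : ℝ) ^ T / W ^ 2) := by ring
    _ ≤ (C4 * (B : ℝ) ^ (δ / 8)) * (C4 * (B : ℝ) ^ (δ / 8)) ^ 2 *
        ((4 + 32 * C1) * (B : ℝ) ^ (δ / 4)) * ((B : ℝ) ^ T / W ^ 2) := by
        apply mul_le_mul_of_nonneg_right _ (by positivity)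
        apply mul_le_mul _ hD4 (by positivity) (by positivity)
        apply mul_le_mul (by linarith) (pow_le_pow_left₀ (by positivity) hKB 2) (by positivity)
          (by positivity)
    _ = C5 * (((B : ℝ) ^ (δ / 8)) ^ 3 * (B : ℝ) ^ (δ / 4) * (B : ℝ) ^ (T : ℝ) / (B : ℝ) ^ (2 * δ)) := by
        rw [hTr, hW2, hC5]; ring
    _ = C5 * (B : ℝ) ^ ((T : ℝ) - 11 * δ / 8) := by
        congr 1
        rw [← Real.rpow_natCast ((B : ℝ) ^ (δ / 8)) 3, ← Real.rpow_mul hB0.le,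
          ← Real.rpow_add hB0, ← Real.rpow_add hB0, ← Real.rpow_sub hB0]
        congr 1
        push_cast
        ring
    _ ≤ (B : ℝ) ^ (3 * δ / 8) * (B : ℝ) ^ ((T : ℝ) - 11 * δ / 8) :=
        mul_le_mul_of_nonneg_right hbig (by positivity)
    _ = (B : ℝ) ^ ((T : ℝ) - δ) := by
        rw [← Real.rpow_add hB0]
        congr 1
        ring

/-- the layers -/
lemma layer (R : ℕ) (hR : 1 ≤ R) (y : ℝ) (hy : 1 / (R : ℝ) < nd y) :
    (1 / (2 * nd y)) ^ 2 ≤ ∑ i ∈ range (Nat.log 2 R + 1),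
      (if nd y ≤ 2 ^ (i + 1) / (R : ℝ) then (R : ℝ) ^ 2 / 4 ^ (i + 1) else 0) := by
  classical
  have hR0 : (0 : ℝ) < R := by exact_mod_cast hR
  have hex : ∃ i : ℕ, nd y ≤ 2 ^ (i + 1) / (R : ℝ) := by
    refine ⟨Nat.log 2 R, (nd_le_half y).trans ?_⟩
    rw [le_div_iff₀ hR0]
    have h1 : (R : ℝ) < 2 ^ (Nat.log 2 R + 1) := by
      exact_mod_cast Nat.lt_pow_succ_log_self (b := 2) (by norm_num) R
    linarith
  set i := Nat.find hex with hi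
  have hi1 : nd y ≤ 2 ^ (i + 1) / (R : ℝ) := Nat.find_spec hex
  have hi2 : 2 ^ i / (R : ℝ) < nd y := by
    rcases Nat.eq_zero_or_pos i with h | h
    · rw [h, pow_zero]; exact hy
    · have h1 := Nat.find_min hex (m := i - 1) (by omega)
      rw [not_le, Nat.sub_add_cancel h] at h1
      exact h1
  have hi3 : i ≤ Nat.log 2 R := by
    apply Nat.find_min' hex
    refine (nd_le_half y).trans ?_
    rw [le_div_iff₀ hR0]
    have h1 : (R : ℝ) < 2 ^ (Nat.log 2 R + 1) := by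
      exact_mod_cast Nat.lt_pow_succ_log_self (b := 2) (by norm_num) R
    linarith
  have h2 : (1 / (2 * nd y)) ^ 2 ≤ (R : ℝ) ^ 2 / 4 ^ (i + 1) := by
    have h0 : 0 < nd y := lt_trans (by positivity) hy
    have h3 : 1 / (2 * nd y) ≤ R / 2 ^ (i + 1) := by
      rw [div_le_div_iff₀ (by positivity) (by positivity), one_mul]
      rw [div_lt_iff₀ hR0] at hi2
      rw [pow_succ]
      nlinarith
    calc (1 / (2 * nd y)) ^ 2 ≤ (R / 2 ^ (i + 1)) ^ 2 := pow_le_pow_left₀ (by positivity) h3 2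
      _ = (R : ℝ) ^ 2 / 4 ^ (i + 1) := by
          rw [div_pow, ← pow_mul, mul_comm, pow_mul]; norm_num
  refine h2.trans ?_
  have h4 : (R : ℝ) ^ 2 / 4 ^ (i + 1) =
      (if nd y ≤ 2 ^ (i + 1) / (R : ℝ) then (R : ℝ) ^ 2 / 4 ^ (i + 1) else 0) := by
    rw [if_pos hi1]
  rw [h4]
  refine Finset.single_le_sum (f := fun i => (if nd y ≤ 2 ^ (i + 1) / (R : ℝ) then
    (R : ℝ) ^ 2 / 4 ^ (i + 1) else 0)) (fun j _ => ?_) (mem_range.2 (by omega))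
  split_ifs
  · positivity
  · exact le_rfl

end Pool.Agent.X1.SchP
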