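import Mathlib
import Pool.Agent.X1.MobC

/-!
# Weyl sums at almost all elements of a number field, I
-/

set_option autoImplicit false

namespace Pool.Agent.X1.SchP

open Finset Filter Topology

/-- the second moment over the box, general phases -/
lemma gen_second {T : ℕ} {ι : Type*} [DecidableEq ι] (ξ : Fin T → ℝ)
    (hpos : ∀ k : ℕ, 1 ≤ k → ∀ i, 0 < nd (k * ξ i))
    (s : Finset ι) (φ : ι → ℕ) (hφ : ∀ m ∈ s, ∀ n ∈ s, φ m = φ n → m = n)
    (c : ι → ℂ) (hc : ∀ n ∈ s, ‖c n‖ ≤ 1) (B : ℕ) (t : ℝ) :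
    ∑ a ∈ box T B, ‖∑ n ∈ s, c n * E (φ n * (t + ∑ i, (a i : ℝ) * ξ i))‖ ^ 2 ≤
      s.card * (B : ℝ) ^ T +
        2 * ∑ p ∈ (s ×ˢ s).filter (fun p => φ p.2 < φ p.1), G ξ B (φ p.1 - φ p.2) := by
  classical
  set x : (Fin T → ℕ) → ℝ := fun a => t + ∑ i, (a i : ℝ) * ξ i with hx
  have hsq : ∀ a, ((‖∑ n ∈ s, c n * E (φ n * x a)‖ ^ 2 : ℝ) : ℂ) =
      ∑ m ∈ s, ∑ n ∈ s, (c m * (starRingEnd ℂ) (c n)) *
        (E (φ m * x a) * (starRingEnd ℂ) (E (φ n * x a))) := by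
    intro a
    rw [Complex.ofReal_pow, ← Complex.mul_conj', map_sum, Finset.sum_mul_sum]
    apply Finset.sum_congr rfl
    intro m _
    apply Finset.sum_congr rfl
    intro n _
    rw [map_mul]
    ring
  have h1 : ((∑ a ∈ box T B, ‖∑ n ∈ s, c n * E (φ n * x a)‖ ^ 2 : ℝ) : ℂ) =
      ∑ m ∈ s, ∑ n ∈ s, (c m * (starRingEnd ℂ) (c n)) *
        ∑ a ∈ box T B, (E (φ m * x a) * (starRingEnd ℂ) (E (φ n * x a))) := by
    rw [Complex.ofReal_sum, Finset.sum_congr rfl fun a _ => hsq a, Finset.sum_comm]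
    apply Finset.sum_congr rfl
    intro m _
    rw [Finset.sum_comm]
    apply Finset.sum_congr rfl
    intro n _
    rw [Finset.mul_sum]
  have h2 : ∑ a ∈ box T B, ‖∑ n ∈ s, c n * E (φ n * x a)‖ ^ 2 ≤
      ∑ m ∈ s, ∑ n ∈ s, ((if m = n then (B : ℝ) ^ T else 0) +
        ((if φ n < φ m then G ξ B (φ m - φ n) else 0) +
          (if φ m < φ n then G ξ B (φ n - φ m) else 0))) := by
    have h3 : ∑ a ∈ box T B, ‖∑ n ∈ s, c n * E (φ n * x a)‖ ^ 2 =
        ‖((∑ a ∈ box T B, ‖∑ n ∈ s, c n * E (φ n * x a)‖ ^ 2 : ℝ) : ℂ)‖ := by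
      rw [Complex.norm_real, Real.norm_of_nonneg (Finset.sum_nonneg fun a _ => by positivity)]
    rw [h3, h1]
    refine (norm_sum_le _ _).trans (Finset.sum_le_sum fun m hm => ?_)
    refine (norm_sum_le _ _).trans (Finset.sum_le_sum fun n hn => ?_)
    rw [norm_mul, norm_mul, Complex.norm_conj]
    have h4 : ‖c m‖ * ‖c n‖ ≤ 1 := mul_le_one₀ (hc m hm) (norm_nonneg _) (hc n hn)
    have h5 : ‖∑ a ∈ box T B, (E (φ m * x a) * (starRingEnd ℂ) (E (φ n * x a)))‖ ≤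
        ((if m = n then (B : ℝ) ^ T else 0) + ((if φ n < φ m then G ξ B (φ m - φ n) else 0) +
          (if φ m < φ n then G ξ B (φ n - φ m) else 0))) := by
      by_cases hmn : m = n
      · subst hmn
        rw [if_pos rfl, if_neg (lt_irrefl _), add_zero, add_zero]
        refine (norm_sum_le _ _).trans ?_
        rw [← card_box]
        refine le_of_eq ?_
        rw [Finset.card_eq_sum_ones, Nat.cast_sum]
        apply Finset.sum_congr rfl
        intro a _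
        rw [norm_mul, Complex.norm_conj, norm_E, one_mul, Nat.cast_one]
      · have hne : φ m ≠ φ n := fun h => hmn (hφ m hm n hn h)
        have h6 := boxsum_int ξ hpos B t (φ m) (φ n) hne
        refine h6.trans ?_
        rw [if_neg hmn, zero_add]
        rcases Nat.lt_or_gt_of_ne hne with h | h
        · rw [if_neg (by omega), if_pos h, zero_add]
          have : φ m - φ n + (φ n - φ m) = φ n - φ m := by omega
          rw [this]
        · rw [if_pos h, if_neg (by omega), add_zero]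
          have : φ m - φ n + (φ n - φ m) = φ m - φ n := by omega
          rw [this]
    calc ‖c m‖ * ‖c n‖ * ‖∑ a ∈ box T B, (E (φ m * x a) * (starRingEnd ℂ) (E (φ n * x a)))‖
        ≤ 1 * ‖∑ a ∈ box T B, (E (φ m * x a) * (starRingEnd ℂ) (E (φ n * x a)))‖ :=
          mul_le_mul_of_nonneg_right h4 (norm_nonneg _)
      _ ≤ _ := by rw [one_mul]; exact h5
  refine h2.trans (le_of_eq ?_)
  simp only [Finset.sum_add_distrib]
  have e1 : ∑ m ∈ s, ∑ n ∈ s, (if m = n then (B : ℝ) ^ T else 0) = s.card * (B : ℝ) ^ T := by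
    rw [← nsmul_eq_mul, ← Finset.sum_const]
    apply Finset.sum_congr rfl
    intro m hm
    rw [Finset.sum_ite_eq, if_pos hm]
  have e2 : ∑ m ∈ s, ∑ n ∈ s, (if φ n < φ m then G ξ B (φ m - φ n) else 0) =
      ∑ p ∈ (s ×ˢ s).filter (fun p => φ p.2 < φ p.1), G ξ B (φ p.1 - φ p.2) := by
    rw [Finset.sum_filter, Finset.sum_product]
  have e3 : ∑ m ∈ s, ∑ n ∈ s, (if φ m < φ n then G ξ B (φ n - φ m) else 0) =
      ∑ p ∈ (s ×ˢ s).filter (fun p => φ p.2 < φ p.1), G ξ B (φ p.1 - φ p.2) := by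
    rw [Finset.sum_comm, ← e2]
  rw [e1, e2, e3]
  ring

/-- the sum over pairs through the differences -/
lemma pair_sum {T : ℕ} {κ : Type*} (ξ : Fin T → ℝ) (B : ℕ) (Q : Finset κ) (D : κ → ℕ) (K : ℕ)
    (M Dc : ℝ) (hM : 0 ≤ M) (hQ : ∀ p ∈ Q, 1 ≤ D p ∧ D p ≤ K)
    (hfib : ∀ D0 : ℕ, 1 ≤ D0 → D0 ≤ K → ((Q.filter fun p => D p = D0).card : ℝ) ≤ M)
    (hD : ∑ k ∈ Icc 1 K, G ξ B k ≤ Dc * K) :
    ∑ p ∈ Q, G ξ B (D p) ≤ M * (Dc * K) := by
  classical
  have hmaps : ∀ p ∈ Q, D p ∈ Icc 1 K := fun p hp => mem_Icc.2 (hQ p hp)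
  rw [← Finset.sum_fiberwise_of_maps_to hmaps]
  calc ∑ D0 ∈ Icc 1 K, ∑ p ∈ Q with D p = D0, G ξ B (D p)
      ≤ ∑ D0 ∈ Icc 1 K, M * G ξ B D0 := by
        apply Finset.sum_le_sum
        intro D0 hD0
        rw [mem_Icc] at hD0
        have h1 : ∑ p ∈ Q with D p = D0, G ξ B (D p) = ((Q.filter fun p => D p = D0).card : ℝ) *
            G ξ B D0 := by
          rw [← nsmul_eq_mul, ← Finset.sum_const]
          apply Finset.sum_congr rfl
          intro p hp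
          rw [(mem_filter.1 hp).2]
        rw [h1]
        exact mul_le_mul_of_nonneg_right (hfib D0 hD0.1 hD0.2) (G_nonneg ξ B D0)
    _ = M * ∑ D0 ∈ Icc 1 K, G ξ B D0 := by rw [Finset.mul_sum]
    _ ≤ M * (Dc * K) := mul_le_mul_of_nonneg_left hD hM

/-- strict convexity -/
lemma conv2 (k : ℕ) (hk : 2 ≤ k) (a h u : ℕ) (hh : 1 ≤ h) (hu : 1 ≤ u) :
    (a + h) ^ k + (a + u) ^ k < (a + h + u) ^ k + a ^ k := by
  induction k, hk using Nat.le_induction with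
  | base => nlinarith [Nat.mul_pos hh hu]
  | succ k hk ih =>
    have h1 : (a + h) ^ (k + 1) + (a + u) ^ (k + 1) =
        a * ((a + h) ^ k + (a + u) ^ k) + (h * (a + h) ^ k + u * (a + u) ^ k) := by ring
    have h2 : (a + h + u) ^ (k + 1) + a ^ (k + 1) =
        a * ((a + h + u) ^ k + a ^ k) + (h * (a + h + u) ^ k + u * (a + h + u) ^ k) := by ring
    rw [h1, h2]
    have h3 : a * ((a + h) ^ k + (a + u) ^ k) ≤ a * ((a + h + u) ^ k + a ^ k) :=
      Nat.mul_le_mul_left _ ih.le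
    have h4 : (a + h) ^ k < (a + h + u) ^ k := Nat.pow_lt_pow_left (by omega) (by omega)
    have h5 : (a + u) ^ k ≤ (a + h + u) ^ k := Nat.pow_le_pow_left (by omega) k
    have h6 : h * (a + h) ^ k < h * (a + h + u) ^ k := Nat.mul_lt_mul_of_pos_left h4 hh
    have h7 : u * (a + u) ^ k ≤ u * (a + h + u) ^ k := Nat.mul_le_mul_left _ h5
    omega

/-- the first differences determine the point -/
lemma diff1_inj (k : ℕ) (hk : 2 ≤ k) (h : ℕ) (hh : 1 ≤ h) (n n' : ℕ)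
    (he : (n + h) ^ k - n ^ k = (n' + h) ^ k - n' ^ k) : n = n' := by
  have key : ∀ a b : ℕ, a < b → (a + h) ^ k - a ^ k < (b + h) ^ k - b ^ k := by
    intro a b hab
    obtain ⟨u, rfl⟩ := Nat.exists_eq_add_of_lt hab
    have h1 := conv2 k hk a h (u + 1) hh (by omega)
    have h2 : a ^ k ≤ (a + h) ^ k := Nat.pow_le_pow_left (by omega) k
    have h3 : (a + u + 1) ^ k ≤ (a + u + 1 + h) ^ k := Nat.pow_le_pow_left (by omega) k
    have e1 : a + h + (u + 1) = a + u + 1 + h := by ring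
    have e2 : a + (u + 1) = a + u + 1 := by ring
    rw [e1, e2] at h1
    omega
  rcases lt_trichotomy n n' with h1 | h1 | h1
  · exact absurd he (key n n' h1).ne
  · exact h1
  · exact absurd he (key n' n h1).ne'

/-- the second differences are nondecreasing -/
lemma diff2_mono (k : ℕ) (h u a : ℕ) :
    ((a + h + u : ℕ) : ℤ) ^ k + (a : ℤ) ^ k - (a + h : ℕ) ^ k - (a + u : ℕ) ^ k ≤
      ((a + 1 + h + u : ℕ) : ℤ) ^ k + ((a + 1 : ℕ) : ℤ) ^ k - (a + 1 + h : ℕ) ^ k -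
        (a + 1 + u : ℕ) ^ k ∧
    0 ≤ ((a + h + u : ℕ) : ℤ) ^ k + (a : ℤ) ^ k - (a + h : ℕ) ^ k - (a + u : ℕ) ^ k := by
  induction k with
  | zero => simp
  | succ k ih =>
    obtain ⟨ih1, ih2⟩ := ih
    have mono : ∀ x y z : ℕ, (((x + y : ℕ) : ℤ) ^ k - (x : ℤ) ^ k) ≥ 0 := by
      intro x y _
      have : (x : ℤ) ^ k ≤ ((x + y : ℕ) : ℤ) ^ k :=
        pow_le_pow_left₀ (by positivity) (by push_cast; linarith [Int.natCast_nonneg y]) k
      linarith
    have cv : ∀ x y : ℕ, ((x + y : ℕ) : ℤ) ^ k - (x : ℤ) ^ k ≤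
        ((x + 1 + y : ℕ) : ℤ) ^ k - ((x + 1 : ℕ) : ℤ) ^ k := by
      intro x y
      rcases Nat.eq_zero_or_pos y with hy | hy
      · subst hy; simp
      · rcases Nat.lt_or_ge k 2 with hk | hk
        · interval_cases k
          · simp
          · push_cast; linarith
        · have h1 := conv2 k hk x 1 y le_rfl hy
          have h2 : ((x + 1 : ℕ) : ℤ) ^ k + ((x + y : ℕ) : ℤ) ^ k <
              ((x + 1 + y : ℕ) : ℤ) ^ k + (x : ℤ) ^ k := by exact_mod_cast h1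
          linarith
    constructor
    · have e1 : ((a + h + u : ℕ) : ℤ) ^ (k + 1) + (a : ℤ) ^ (k + 1) - (a + h : ℕ) ^ (k + 1) -
          (a + u : ℕ) ^ (k + 1) =
          a * (((a + h + u : ℕ) : ℤ) ^ k + (a : ℤ) ^ k - (a + h : ℕ) ^ k - (a + u : ℕ) ^ k) +
          h * (((a + h + u : ℕ) : ℤ) ^ k - (a + h : ℕ) ^ k) +
          u * (((a + u + h : ℕ) : ℤ) ^ k - (a + u : ℕ) ^ k) := by
        push_cast; ring
      have e2 : ((a + 1 + h + u : ℕ) : ℤ) ^ (k + 1) + ((a + 1 : ℕ) : ℤ) ^ (k + 1) -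
          (a + 1 + h : ℕ) ^ (k + 1) - (a + 1 + u : ℕ) ^ (k + 1) =
          (a + 1 : ℕ) * (((a + 1 + h + u : ℕ) : ℤ) ^ k + ((a + 1 : ℕ) : ℤ) ^ k -
            (a + 1 + h : ℕ) ^ k - (a + 1 + u : ℕ) ^ k) +
          h * (((a + h + 1 + u : ℕ) : ℤ) ^ k - (a + h + 1 : ℕ) ^ k) +
          u * (((a + u + 1 + h : ℕ) : ℤ) ^ k - (a + u + 1 : ℕ) ^ k) := by
        push_cast; ring
      rw [e1, e2]
      have h1 := cv (a + h) u
      have h2 := cv (a + u) h
      have h3 : (0 : ℤ) ≤ a := Int.natCast_nonneg a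
      have h4 : (0 : ℤ) ≤ h := Int.natCast_nonneg h
      have h5 : (0 : ℤ) ≤ u := Int.natCast_nonneg u
      have h6 := mul_le_mul_of_nonneg_left h1 h4
      have h7 := mul_le_mul_of_nonneg_left h2 h5
      have h8 := mul_le_mul_of_nonneg_left ih1 h3
      have h9 : (0 : ℤ) ≤ ((a + 1 + h + u : ℕ) : ℤ) ^ k + ((a + 1 : ℕ) : ℤ) ^ k -
            (a + 1 + h : ℕ) ^ k - (a + 1 + u : ℕ) ^ k := ih2.trans ih1
      have h10 : ((a + 1 : ℕ) : ℤ) = a + 1 := by push_cast; ring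
      have h11 : ((a + 1 : ℕ) : ℤ) * (((a + 1 + h + u : ℕ) : ℤ) ^ k + ((a + 1 : ℕ) : ℤ) ^ k -
            (a + 1 + h : ℕ) ^ k - (a + 1 + u : ℕ) ^ k) =
          a * (((a + 1 + h + u : ℕ) : ℤ) ^ k + ((a + 1 : ℕ) : ℤ) ^ k -
            (a + 1 + h : ℕ) ^ k - (a + 1 + u : ℕ) ^ k) +
          (((a + 1 + h + u : ℕ) : ℤ) ^ k + ((a + 1 : ℕ) : ℤ) ^ k -
            (a + 1 + h : ℕ) ^ k - (a + 1 + u : ℕ) ^ k) := by
        rw [h10]; ring
      rw [h11]
      linarith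
    · have e1 : ((a + h + u : ℕ) : ℤ) ^ (k + 1) + (a : ℤ) ^ (k + 1) - (a + h : ℕ) ^ (k + 1) -
          (a + u : ℕ) ^ (k + 1) =
          a * (((a + h + u : ℕ) : ℤ) ^ k + (a : ℤ) ^ k - (a + h : ℕ) ^ k - (a + u : ℕ) ^ k) +
          h * (((a + h + u : ℕ) : ℤ) ^ k - (a + h : ℕ) ^ k) +
          u * (((a + u + h : ℕ) : ℤ) ^ k - (a + u : ℕ) ^ k) := by
        push_cast; ring
      rw [e1]
      have h1 := mono (a + h) u 0
      have h2 := mono (a + u) h 0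
      have h3 : (0 : ℤ) ≤ a := Int.natCast_nonneg a
      have h4 : (0 : ℤ) ≤ h := Int.natCast_nonneg h
      have h5 : (0 : ℤ) ≤ u := Int.natCast_nonneg u
      positivity

end Pool.Agent.X1.SchP
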