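import Mathlib
import Pool.Agent.X1.WeyA

/-!
# Weyl sums at almost all elements of a number field, II
-/

set_option autoImplicit false

namespace Pool.Agent.X1.SchP

open Finset Filter Topology

/-- the second differences are strictly increasing for `k ≥ 3` -/
lemma diff2_strict (k : ℕ) (hk : 3 ≤ k) (h u a : ℕ) (hh : 1 ≤ h) (hu : 1 ≤ u) :
    ((a + h + u : ℕ) : ℤ) ^ k + (a : ℤ) ^ k - (a + h : ℕ) ^ k - (a + u : ℕ) ^ k <
      ((a + 1 + h + u : ℕ) : ℤ) ^ k + ((a + 1 : ℕ) : ℤ) ^ k - (a + 1 + h : ℕ) ^ k -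
        (a + 1 + u : ℕ) ^ k := by
  obtain ⟨k, rfl⟩ : ∃ l, k = l + 1 := ⟨k - 1, by omega⟩
  have hk2 : 2 ≤ k := by omega
  obtain ⟨ih1, ih2⟩ := diff2_mono k h u a
  have cv : ∀ x y : ℕ, 1 ≤ y → ((x + y : ℕ) : ℤ) ^ k - (x : ℤ) ^ k <
      ((x + 1 + y : ℕ) : ℤ) ^ k - ((x + 1 : ℕ) : ℤ) ^ k := by
    intro x y hy
    have h1 := conv2 k hk2 x 1 y le_rfl hy
    have h2 : ((x + 1 : ℕ) : ℤ) ^ k + ((x + y : ℕ) : ℤ) ^ k <
        ((x + 1 + y : ℕ) : ℤ) ^ k + (x : ℤ) ^ k := by exact_mod_cast h1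
    linarith
  have e1 : ((a + h + u : ℕ) : ℤ) ^ (k + 1) + (a : ℤ) ^ (k + 1) - (a + h : ℕ) ^ (k + 1) -
      (a + u : ℕ) ^ (k + 1) =
      a * (((a + h + u : ℕ) : ℤ) ^ k + (a : ℤ) ^ k - (a + h : ℕ) ^ k - (a + u : ℕ) ^ k) +
      h * (((a + h + u : ℕ) : ℤ) ^ k - (a + h : ℕ) ^ k) +
      u * (((a + u + h : ℕ) : ℤ) ^ k - (a + u : ℕ) ^ k) := by
    push_cast; ring
  have e2 : ((a + 1 + h + u : ℕ) : ℤ) ^ (k + 1) + ((a + 1 : ℕ) : ℤ) ^ (k + 1) -
      (a + 1 + h : ℕ) ^ (k + 1) - (a + 1 + u : ℕ) ^ (k + 1) =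
      (a + 1 : ℕ) * (((a + 1 + h + u : ℕ) : ℤ) ^ k + ((a + 1 : ℕ) : ℤ) ^ k -
        (a + 1 + h : ℕ) ^ k - (a + 1 + u : ℕ) ^ k) +
      h * (((a + h + 1 + u : ℕ) : ℤ) ^ k - (a + h + 1 : ℕ) ^ k) +
      u * (((a + u + 1 + h : ℕ) : ℤ) ^ k - (a + u + 1 : ℕ) ^ k) := by
    push_cast; ring
  rw [e1, e2]
  have h1 := cv (a + h) u hu
  have h2 := cv (a + u) h hh
  have h3 : (0 : ℤ) ≤ a := Int.natCast_nonneg a
  have h4 : (0 : ℤ) < h := by exact_mod_cast hh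
  have h5 : (0 : ℤ) < u := by exact_mod_cast hu
  have h6 := mul_lt_mul_of_pos_left h1 h4
  have h7 := mul_lt_mul_of_pos_left h2 h5
  have h8 := mul_le_mul_of_nonneg_left ih1 h3
  have h9 : (0 : ℤ) ≤ ((a + 1 + h + u : ℕ) : ℤ) ^ k + ((a + 1 : ℕ) : ℤ) ^ k -
        (a + 1 + h : ℕ) ^ k - (a + 1 + u : ℕ) ^ k := ih2.trans ih1
  have h10 : ((a + 1 : ℕ) : ℤ) = a + 1 := by push_cast; ring
  have h11 : ((a + 1 : ℕ) : ℤ) * (((a + 1 + h + u : ℕ) : ℤ) ^ k + ((a + 1 : ℕ) : ℤ) ^ k -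
        (a + 1 + h : ℕ) ^ k - (a + 1 + u : ℕ) ^ k) =
      a * (((a + 1 + h + u : ℕ) : ℤ) ^ k + ((a + 1 : ℕ) : ℤ) ^ k -
        (a + 1 + h : ℕ) ^ k - (a + 1 + u : ℕ) ^ k) +
      (((a + 1 + h + u : ℕ) : ℤ) ^ k + ((a + 1 : ℕ) : ℤ) ^ k -
        (a + 1 + h : ℕ) ^ k - (a + 1 + u : ℕ) ^ k) := by
    rw [h10]; ring
  rw [h11]
  linarith

/-- the difference of the powers with step `h` -/
def Pw (k h n : ℕ) : ℕ := (n + h) ^ k - n ^ k

lemma Pw_cast (k h n : ℕ) : ((Pw k h n : ℕ) : ℤ) = ((n + h : ℕ) : ℤ) ^ k - (n : ℤ) ^ k := by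
  unfold Pw
  rw [Nat.cast_sub (Nat.pow_le_pow_left (by omega) k)]
  push_cast
  ring

lemma Pw_le (k h n : ℕ) : Pw k h n ≤ (n + h) ^ k := Nat.sub_le _ _

lemma Pw_dvd (k h n : ℕ) : h ∣ Pw k h n := by
  have h1 := Nat.sub_dvd_pow_sub_pow (n + h) n k
  rwa [Nat.add_sub_cancel_left] at h1

/-- the second difference as a natural number -/
lemma Pw_sub (k h u n : ℕ) : ((Pw k h (n + u) : ℕ) : ℤ) - (Pw k h n : ℕ) =
    ((n + h + u : ℕ) : ℤ) ^ k + (n : ℤ) ^ k - (n + h : ℕ) ^ k - (n + u : ℕ) ^ k := by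
  rw [Pw_cast, Pw_cast]
  push_cast
  ring

lemma Pw_mono (k h u n : ℕ) : Pw k h n ≤ Pw k h (n + u) := by
  have h1 := (diff2_mono k h u n).2
  rw [← Pw_sub] at h1
  have : ((Pw k h n : ℕ) : ℤ) ≤ (Pw k h (n + u) : ℕ) := by linarith
  exact_mod_cast this

lemma Pw_symm (k h u n : ℕ) : Pw k h (n + u) - Pw k h n = Pw k u (n + h) - Pw k u n := by
  have h1 := Pw_sub k h u n
  have h2 := Pw_sub k u h n
  have h3 := Pw_mono k h u n
  have h4 := Pw_mono k u h n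
  have h5 : ((n + h + u : ℕ) : ℤ) = ((n + u + h : ℕ) : ℤ) := by push_cast; ring
  rw [h5] at h1
  zify [h3, h4]
  linarith

/-- the second differences determine the point -/
lemma diff2_inj (k : ℕ) (hk : 3 ≤ k) (h u : ℕ) (hh : 1 ≤ h) (hu : 1 ≤ u) (n n' : ℕ)
    (he : Pw k h (n + u) - Pw k h n = Pw k h (n' + u) - Pw k h n') : n = n' := by
  set f : ℕ → ℤ := fun n => ((n + h + u : ℕ) : ℤ) ^ k + (n : ℤ) ^ k - (n + h : ℕ) ^ k -
    (n + u : ℕ) ^ k with hf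
  have hmono : StrictMono f := strictMono_nat_of_lt_succ fun a => diff2_strict k hk h u a hh hu
  have h1 := Pw_sub k h u n
  have h2 := Pw_sub k h u n'
  have h3 := Pw_mono k h u n
  have h4 := Pw_mono k h u n'
  apply hmono.injective
  simp only [hf]
  rw [← h1, ← h2]
  zify [h3, h4] at he
  exact he

lemma Pw_inj (k : ℕ) (hk : 2 ≤ k) (h : ℕ) (hh : 1 ≤ h) (n n' : ℕ) (he : Pw k h n = Pw k h n') :
    n = n' := diff1_inj k hk h hh n n' he

/-- van der Corput's identity -/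
lemma vdc (z : ℕ → ℂ) (L : ℕ) : ‖∑ n ∈ range L, z n‖ ^ 2 ≤ ∑ n ∈ range L, ‖z n‖ ^ 2 +
    2 * ∑ h ∈ Ico 1 L, ‖∑ n ∈ range (L - h), z (n + h) * (starRingEnd ℂ) (z n)‖ := by
  classical
  have h1 : ((‖∑ n ∈ range L, z n‖ ^ 2 : ℝ) : ℂ) =
      ∑ m ∈ range L, ∑ n ∈ range L, z m * (starRingEnd ℂ) (z n) := by
    rw [Complex.ofReal_pow, ← Complex.mul_conj', map_sum, Finset.sum_mul_sum]
  have h2 : ∑ m ∈ range L, ∑ n ∈ range L, z m * (starRingEnd ℂ) (z n) =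
      ∑ m ∈ range L, z m * (starRingEnd ℂ) (z m) +
      (∑ p ∈ (range L ×ˢ range L).filter (fun p => p.2 < p.1), z p.1 * (starRingEnd ℂ) (z p.2) +
      ∑ p ∈ (range L ×ˢ range L).filter (fun p => p.2 < p.1), z p.2 * (starRingEnd ℂ) (z p.1)) := by
    have e1 : ∀ m ∈ range L, ∀ n ∈ range L, z m * (starRingEnd ℂ) (z n) =
        (if m = n then z m * (starRingEnd ℂ) (z n) else 0) +
        ((if n < m then z m * (starRingEnd ℂ) (z n) else 0) +
          (if m < n then z m * (starRingEnd ℂ) (z n) else 0)) := by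
      intro m _ n _
      rcases lt_trichotomy m n with h | h | h
      · rw [if_neg h.ne, if_neg (by omega), if_pos h]; ring
      · subst h; simp
      · rw [if_neg h.ne', if_pos h, if_neg (by omega)]; ring
    rw [Finset.sum_congr rfl fun m hm => Finset.sum_congr rfl fun n hn => e1 m hm n hn]
    simp only [Finset.sum_add_distrib]
    congr 1
    · apply Finset.sum_congr rfl
      intro m hm
      rw [Finset.sum_ite_eq, if_pos hm]
    · congr 1
      · rw [Finset.sum_filter, Finset.sum_product]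
      · rw [Finset.sum_filter, Finset.sum_product, Finset.sum_comm]
  have h3 : ∑ p ∈ (range L ×ˢ range L).filter (fun p => p.2 < p.1),
      z p.1 * (starRingEnd ℂ) (z p.2) =
      ∑ h ∈ Ico 1 L, ∑ n ∈ range (L - h), z (n + h) * (starRingEnd ℂ) (z n) := by
    rw [Finset.sum_sigma']
    apply Finset.sum_nbij' (fun p => (⟨p.1 - p.2, p.2⟩ : Σ _ : ℕ, ℕ)) (fun q => (q.2 + q.1, q.2))
    · intro p hp
      rw [mem_filter, mem_product, mem_range, mem_range] at hp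
      rw [mem_sigma, mem_Ico, mem_range]
      simp only
      omega
    · intro q hq
      rw [mem_sigma, mem_Ico, mem_range] at hq
      rw [mem_filter, mem_product, mem_range, mem_range]
      simp only
      omega
    · intro p hp
      rw [mem_filter, mem_product, mem_range, mem_range] at hp
      apply Prod.ext
      · simp only; omega
      · rfl
    · intro q hq
      simp
    · intro p hp
      rw [mem_filter, mem_product, mem_range, mem_range] at hp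
      simp only
      rw [Nat.add_sub_cancel' hp.2.le]
  have h4 : ∑ p ∈ (range L ×ˢ range L).filter (fun p => p.2 < p.1),
      z p.2 * (starRingEnd ℂ) (z p.1) = (starRingEnd ℂ)
      (∑ p ∈ (range L ×ˢ range L).filter (fun p => p.2 < p.1), z p.1 * (starRingEnd ℂ) (z p.2)) := by
    rw [map_sum]
    apply Finset.sum_congr rfl
    intro p _
    rw [map_mul, Complex.conj_conj, mul_comm]
  have h5 : ‖∑ n ∈ range L, z n‖ ^ 2 = ‖((‖∑ n ∈ range L, z n‖ ^ 2 : ℝ) : ℂ)‖ := by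
    rw [Complex.norm_real, Real.norm_of_nonneg (by positivity)]
  rw [h5, h1, h2, h4]
  refine (norm_add_le _ _).trans ?_
  apply add_le_add
  · refine (norm_sum_le _ _).trans (le_of_eq ?_)
    apply Finset.sum_congr rfl
    intro n _
    rw [norm_mul, Complex.norm_conj, sq]
  · refine (norm_add_le _ _).trans ?_
    rw [Complex.norm_conj, ← two_mul, h3]
    exact mul_le_mul_of_nonneg_left (norm_sum_le _ _) (by norm_num)

end Pool.Agent.X1.SchP
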