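import Mathlib
import Pool.Agent.X1.WeyB

/-!
# Weyl sums at almost all elements of a number field, III
-/

set_option autoImplicit false

namespace Pool.Agent.X1.SchP

open Finset Filter Topology

/-- the Weyl sum with coefficients -/
noncomputable def Ws (c : ℕ → ℂ) (k r : ℕ) (x : ℝ) : ℂ :=
  ∑ n ∈ range (r + 1), c n * E ((n ^ k : ℕ) * x)

/-- the dyadic majorant -/
noncomputable def V1 (c : ℕ → ℂ) (k J : ℕ) (x : ℝ) : ℝ := J * ∑ i ∈ range J,
  ∑ j ∈ range (2 ^ (J - i)), ‖∑ n ∈ Ico (j * 2 ^ i) (j * 2 ^ i + 2 ^ i), c n * E ((n ^ k : ℕ) * x)‖ ^ 2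

lemma Ws_le (c : ℕ → ℂ) (k J r : ℕ) (x : ℝ) (hr : r + 1 < 2 ^ J) : ‖Ws c k r x‖ ^ 2 ≤ V1 c k J x :=
  dyadic2 J (fun n => c n * E ((n ^ k : ℕ) * x)) (r + 1) hr

lemma V1_sum {T : ℕ} (ξ : Fin T → ℝ) (hpos : ∀ k : ℕ, 1 ≤ k → ∀ i, 0 < nd (k * ξ i))
    (c : ℕ → ℂ) (hc : ∀ n, ‖c n‖ ≤ 1) (k : ℕ) (hk : 2 ≤ k) (B : ℕ) (s : ℝ) (J : ℕ) (Dc M : ℝ)
    (hD : ∀ K : ℕ, ∑ k ∈ Icc 1 K, G ξ B k ≤ Dc * K)
    (hM : ∀ D0 : ℕ, 1 ≤ D0 → D0 ≤ (2 ^ J) ^ k → (D0.divisors.card : ℝ) ≤ M) :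
    ∑ a ∈ box T B, V1 c k J (s + ∑ i, (a i : ℝ) * ξ i) ≤
      J * (J * (2 ^ J * (B : ℝ) ^ T + 2 * (M * (Dc * ((2 : ℝ) ^ J) ^ k)))) := by
  classical
  have hM0 : 0 ≤ M := le_trans (Nat.cast_nonneg _) (hM 1 le_rfl (Nat.one_le_pow _ _ (by positivity)))
  unfold V1
  rw [← Finset.mul_sum]
  apply mul_le_mul_of_nonneg_left _ (Nat.cast_nonneg J)
  rw [Finset.sum_comm]
  have h1 : ∀ i ∈ range J, ∑ a ∈ box T B, ∑ j ∈ range (2 ^ (J - i)),
      ‖∑ n ∈ Ico (j * 2 ^ i) (j * 2 ^ i + 2 ^ i),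
        c n * E ((n ^ k : ℕ) * (s + ∑ i, (a i : ℝ) * ξ i))‖ ^ 2 ≤
      2 ^ J * (B : ℝ) ^ T + 2 * (M * (Dc * ((2 : ℝ) ^ J) ^ k)) := by
    intro i hi
    rw [mem_range] at hi
    rw [Finset.sum_comm]
    set pairs : ℕ → Finset (ℕ × ℕ) := fun j =>
      ((Ico (j * 2 ^ i) (j * 2 ^ i + 2 ^ i)) ×ˢ (Ico (j * 2 ^ i) (j * 2 ^ i + 2 ^ i))).filter
        (fun p => p.2 ^ k < p.1 ^ k) with hpairs
    have h2 : ∀ j ∈ range (2 ^ (J - i)), ∑ a ∈ box T B,
        ‖∑ n ∈ Ico (j * 2 ^ i) (j * 2 ^ i + 2 ^ i),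
          c n * E ((n ^ k : ℕ) * (s + ∑ i, (a i : ℝ) * ξ i))‖ ^ 2 ≤
        2 ^ i * (B : ℝ) ^ T + 2 * ∑ p ∈ pairs j, G ξ B (p.1 ^ k - p.2 ^ k) := by
      intro j _
      have h3 := gen_second ξ hpos (Ico (j * 2 ^ i) (j * 2 ^ i + 2 ^ i)) (fun n => n ^ k)
        (fun m _ n _ h => Nat.pow_left_injective (by omega : k ≠ 0) h) c (fun n _ => hc n) B s
      rw [Nat.card_Ico, Nat.add_sub_cancel_left] at h3
      push_cast at h3 ⊢
      exact h3
    refine (Finset.sum_le_sum h2).trans ?_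
    rw [Finset.sum_add_distrib, Finset.sum_const, card_range, nsmul_eq_mul, ← Finset.mul_sum]
    apply add_le_add
    · apply le_of_eq
      push_cast
      have h5 : (2 : ℝ) ^ J = 2 ^ (J - i) * 2 ^ i := by
        rw [← pow_add]; congr 1; omega
      rw [h5]
      ring
    · apply mul_le_mul_of_nonneg_left _ (by norm_num)
      rw [Finset.sum_sigma']
      have h6 := pair_sum ξ B ((range (2 ^ (J - i))).sigma pairs)
        (fun q : (Σ _ : ℕ, ℕ × ℕ) => q.2.1 ^ k - q.2.2 ^ k) ((2 ^ J) ^ k) M Dc hM0 (by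
          intro q hq
          rw [mem_sigma, mem_range] at hq
          obtain ⟨hj, hp⟩ := hq
          rw [hpairs] at hp
          simp only at hp
          rw [mem_filter, mem_product, mem_Ico, mem_Ico] at hp
          obtain ⟨⟨⟨_, h8⟩, _⟩, h9⟩ := hp
          have h10 : q.2.1 ≤ 2 ^ J := by
            have e1 : q.1 * 2 ^ i + 2 ^ i ≤ 2 ^ J := by
              calc q.1 * 2 ^ i + 2 ^ i = (q.1 + 1) * 2 ^ i := by ring
                _ ≤ 2 ^ (J - i) * 2 ^ i := Nat.mul_le_mul_right _ hj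
                _ = 2 ^ J := by rw [← pow_add]; congr 1; omega
            omega
          have h11 : q.2.1 ^ k ≤ (2 ^ J) ^ k := Nat.pow_le_pow_left h10 k
          omega) (by
          intro D0 hD0 hD1
          refine le_trans ?_ (hM D0 hD0 hD1)
          refine Nat.cast_le.2 (Finset.card_le_card_of_injOn (fun q => q.2.1 - q.2.2) ?_ ?_)
          · intro q hq
            rw [mem_coe, mem_filter] at hq
            rw [mem_coe, Nat.mem_divisors]
            exact ⟨hq.2 ▸ Nat.sub_dvd_pow_sub_pow q.2.1 q.2.2 k, by omega⟩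
          · intro q hq q' hq' hqq
            rw [mem_coe, mem_filter, mem_sigma, mem_range] at hq hq'
            obtain ⟨⟨_, hp⟩, hd⟩ := hq
            obtain ⟨⟨_, hp'⟩, hd'⟩ := hq'
            rw [hpairs] at hp hp'
            simp only at hp hp' hqq
            rw [mem_filter, mem_product, mem_Ico, mem_Ico] at hp hp'
            obtain ⟨⟨⟨a1, a2⟩, a3, a4⟩, a5⟩ := hp
            obtain ⟨⟨⟨b1, b2⟩, b3, b4⟩, b5⟩ := hp'
            have c1 : q.2.2 < q.2.1 := lt_of_pow_lt_pow_left₀ k (Nat.zero_le _) a5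
            have c2 : q'.2.2 < q'.2.1 := lt_of_pow_lt_pow_left₀ k (Nat.zero_le _) b5
            obtain ⟨h, hh⟩ : ∃ h, h = q.2.1 - q.2.2 := ⟨_, rfl⟩
            have d1 : q.2.1 = q.2.2 + h := by omega
            have d2 : q'.2.1 = q'.2.2 + h := by omega
            have d3 : q.2.2 = q'.2.2 := diff1_inj k hk h (by omega) _ _ (by
              rw [← d1, ← d2, hd, hd'])
            have d4 : q.2.1 = q'.2.1 := by omega
            have d5 : q.1 = q'.1 := by
              rw [← d3] at b3 b4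
              have e1 : q.1 * 2 ^ i < q'.1 * 2 ^ i + 2 ^ i := by omega
              have e2 : q'.1 * 2 ^ i < q.1 * 2 ^ i + 2 ^ i := by omega
              have e3 : q.1 < q'.1 + 1 := by
                by_contra hc
                push Not at hc
                have := Nat.mul_le_mul_right (2 ^ i) hc
                rw [add_mul, one_mul] at this
                omega
              have e4 : q'.1 < q.1 + 1 := by
                by_contra hc
                push Not at hc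
                have := Nat.mul_le_mul_right (2 ^ i) hc
                rw [add_mul, one_mul] at this
                omega
              omega
            exact Sigma.ext d5 (heq_of_eq (Prod.ext d4 d3))) (hD _)
      push_cast at h6
      exact h6
  refine (Finset.sum_le_sum h1).trans ?_
  rw [Finset.sum_const, card_range, nsmul_eq_mul]

/-- the differenced sums -/
noncomputable def Th (c : ℕ → ℂ) (k u L h : ℕ) (x : ℝ) : ℂ :=
  ∑ n ∈ range (L - h), c (u + n + h) * (starRingEnd ℂ) (c (u + n)) * E (Pw k h (u + n) * x)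

/-- the square of a block, uniformly in the linear coefficient -/
lemma blk_le (c : ℕ → ℂ) (hc : ∀ n, ‖c n‖ ≤ 1) (k u L : ℕ) (x y : ℝ) :
    ‖∑ n ∈ Ico u (u + L), c n * E ((n ^ k : ℕ) * x + n * y)‖ ^ 2 ≤
      L + 2 * ∑ h ∈ Ico 1 L, ‖Th c k u L h x‖ := by
  have h1 : ∑ n ∈ Ico u (u + L), c n * E ((n ^ k : ℕ) * x + n * y) =
      ∑ n ∈ range L, (fun n => c (u + n) * E (((u + n) ^ k : ℕ) * x + (u + n : ℕ) * y)) n := by
    rw [Finset.sum_Ico_eq_sum_range, Nat.add_sub_cancel_left]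
  rw [h1]
  refine (vdc _ L).trans ?_
  apply add_le_add
  · calc ∑ n ∈ range L, ‖(fun n => c (u + n) * E (((u + n) ^ k : ℕ) * x + (u + n : ℕ) * y)) n‖ ^ 2
        ≤ ∑ n ∈ range L, (1 : ℝ) := by
          apply Finset.sum_le_sum
          intro n _
          simp only
          rw [norm_mul, norm_E, mul_one]
          exact pow_le_one₀ (norm_nonneg _) (hc _)
      _ = L := by simp
  · apply mul_le_mul_of_nonneg_left _ (by norm_num)
    apply Finset.sum_le_sum
    intro h _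
    apply le_of_eq
    have h2 : ∑ n ∈ range (L - h),
        (fun n => c (u + n) * E (((u + n) ^ k : ℕ) * x + (u + n : ℕ) * y)) (n + h) *
        (starRingEnd ℂ) ((fun n => c (u + n) * E (((u + n) ^ k : ℕ) * x + (u + n : ℕ) * y)) n) =
        E (h * y) * Th c k u L h x := by
      unfold Th
      rw [Finset.mul_sum]
      apply Finset.sum_congr rfl
      intro n _
      simp only
      rw [map_mul, ← E_neg]
      have e1 : E (((u + (n + h)) ^ k : ℕ) * x + (u + (n + h) : ℕ) * y) *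
          E (-(((u + n) ^ k : ℕ) * x + (u + n : ℕ) * y)) =
          E (h * y) * E (Pw k h (u + n) * x) := by
        rw [← E_add, ← E_add]
        congr 1
        have e2 : ((Pw k h (u + n) : ℕ) : ℝ) = (((u + n + h) ^ k : ℕ) : ℝ) - ((u + n) ^ k : ℕ) := by
          unfold Pw
          rw [Nat.cast_sub (Nat.pow_le_pow_left (by omega) k)]
        rw [e2]
        push_cast
        ring
      have e3 : u + (n + h) = u + n + h := by ring
      rw [e3] at e1 ⊢
      calc c (u + n + h) * E (((u + n + h) ^ k : ℕ) * x + (u + n + h : ℕ) * y) *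
            ((starRingEnd ℂ) (c (u + n)) * E (-(((u + n) ^ k : ℕ) * x + (u + n : ℕ) * y)))
          = c (u + n + h) * (starRingEnd ℂ) (c (u + n)) *
            (E (((u + n + h) ^ k : ℕ) * x + (u + n + h : ℕ) * y) *
              E (-(((u + n) ^ k : ℕ) * x + (u + n : ℕ) * y))) := by ring
        _ = _ := by rw [e1]; ring
    rw [h2, norm_mul, norm_E, one_mul]

/-- the Weyl sum with coefficients and a linear term -/
noncomputable def Wx (c : ℕ → ℂ) (k r : ℕ) (x y : ℝ) : ℂ :=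
  ∑ n ∈ range (r + 1), c n * E ((n ^ k : ℕ) * x + n * y)

/-- the dyadic majorant -/
noncomputable def U1 (c : ℕ → ℂ) (k J : ℕ) (x : ℝ) : ℝ := J * ∑ i ∈ range J,
  ∑ j ∈ range (2 ^ (J - i)), (2 ^ i + 2 * ∑ h ∈ Ico 1 (2 ^ i), ‖Th c k (j * 2 ^ i) (2 ^ i) h x‖)

lemma U1_nonneg (c : ℕ → ℂ) (k J : ℕ) (x : ℝ) : 0 ≤ U1 c k J x := by
  unfold U1
  positivity

lemma Wx_le (c : ℕ → ℂ) (hc : ∀ n, ‖c n‖ ≤ 1) (k J r : ℕ) (x y : ℝ) (hr : r + 1 < 2 ^ J) :
    ‖Wx c k r x y‖ ^ 2 ≤ U1 c k J x := by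
  refine (dyadic2 J (fun n => c n * E ((n ^ k : ℕ) * x + n * y)) (r + 1) hr).trans ?_
  unfold U1
  apply mul_le_mul_of_nonneg_left _ (Nat.cast_nonneg J)
  apply Finset.sum_le_sum
  intro i _
  apply Finset.sum_le_sum
  intro j _
  have h1 := blk_le c hc k (j * 2 ^ i) (2 ^ i) x y
  push_cast at h1 ⊢
  exact h1

end Pool.Agent.X1.SchP
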