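import Mathlib
import Pool.Agent.X1.WeyC

/-!
# Weyl sums at almost all elements of a number field, IV
-/

set_option autoImplicit false

namespace Pool.Agent.X1.SchP

open Finset Filter Topology

lemma U1_sum {T : ℕ} (ξ : Fin T → ℝ) (hpos : ∀ k : ℕ, 1 ≤ k → ∀ i, 0 < nd (k * ξ i))
    (c : ℕ → ℂ) (hc : ∀ n, ‖c n‖ ≤ 1) (k : ℕ) (hk : 3 ≤ k) (B : ℕ) (s : ℝ) (J : ℕ) (Dc M : ℝ)
    (hD : ∀ K : ℕ, ∑ k ∈ Icc 1 K, G ξ B k ≤ Dc * K)
    (hM : ∀ D0 : ℕ, 1 ≤ D0 → D0 ≤ (2 ^ J) ^ k → (D0.divisors.card : ℝ) ≤ M) (lam : ℝ)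
    (hlam : 1 ≤ lam)
    (hlam2 : lam ^ 2 * (2 ^ J * (B : ℝ) ^ T) =
      (2 ^ J) ^ 2 * (B : ℝ) ^ T + 2 * (M ^ 2 * (Dc * ((2 : ℝ) ^ J) ^ k))) :
    ∑ a ∈ box T B, U1 c k J (s + ∑ i, (a i : ℝ) * ξ i) ≤
      3 * (J : ℝ) ^ 2 * (2 ^ J * (B : ℝ) ^ T) * lam := by
  classical
  have hM0 : 0 ≤ M := le_trans (Nat.cast_nonneg _) (hM 1 le_rfl (Nat.one_le_pow _ _ (by positivity)))
  have hlam0 : 0 < lam := by linarith
  set N : ℝ := (B : ℝ) ^ T with hN
  have hN0 : 0 ≤ N := by positivity
  -- the second moments of the differenced sums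
  have hT2 : ∀ i ∈ range J, ∑ j ∈ range (2 ^ (J - i)), ∑ h ∈ Ico 1 (2 ^ i), ∑ a ∈ box T B,
      ‖Th c k (j * 2 ^ i) (2 ^ i) h (s + ∑ i, (a i : ℝ) * ξ i)‖ ^ 2 ≤
      (2 ^ J) ^ 2 * N + 2 * (M ^ 2 * (Dc * ((2 : ℝ) ^ J) ^ k)) := by
    intro i hi
    rw [mem_range] at hi
    have h2J : (2 : ℝ) ^ J = 2 ^ (J - i) * 2 ^ i := by
      rw [← pow_add]; congr 1; omega
    set pairs : ℕ × ℕ → Finset (ℕ × ℕ) := fun jh =>
      ((range (2 ^ i - jh.2)) ×ˢ (range (2 ^ i - jh.2))).filter
        (fun p => Pw k jh.2 (jh.1 * 2 ^ i + p.2) < Pw k jh.2 (jh.1 * 2 ^ i + p.1)) with hpairs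
    have h1 : ∀ j ∈ range (2 ^ (J - i)), ∀ h ∈ Ico 1 (2 ^ i), ∑ a ∈ box T B,
        ‖Th c k (j * 2 ^ i) (2 ^ i) h (s + ∑ i, (a i : ℝ) * ξ i)‖ ^ 2 ≤
        2 ^ i * N + 2 * ∑ p ∈ pairs (j, h), G ξ B (Pw k h (j * 2 ^ i + p.1) -
          Pw k h (j * 2 ^ i + p.2)) := by
      intro j _ h hh
      rw [mem_Ico] at hh
      have h3 := gen_second ξ hpos (range (2 ^ i - h)) (fun n => Pw k h (j * 2 ^ i + n))
        (fun m _ n _ he => by
          have := Pw_inj k (by omega) h hh.1 _ _ he
          omega)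
        (fun n => c (j * 2 ^ i + n + h) * (starRingEnd ℂ) (c (j * 2 ^ i + n)))
        (fun n _ => by
          rw [norm_mul, Complex.norm_conj]
          exact mul_le_one₀ (hc _) (norm_nonneg _) (hc _)) B s
      refine h3.trans (add_le_add ?_ le_rfl)
      apply mul_le_mul_of_nonneg_right _ hN0
      rw [card_range]
      have : ((2 ^ i - h : ℕ) : ℝ) ≤ ((2 ^ i : ℕ) : ℝ) := Nat.cast_le.2 (Nat.sub_le _ _)
      refine this.trans (le_of_eq ?_)
      push_cast
      rfl
    calc ∑ j ∈ range (2 ^ (J - i)), ∑ h ∈ Ico 1 (2 ^ i), ∑ a ∈ box T B,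
          ‖Th c k (j * 2 ^ i) (2 ^ i) h (s + ∑ i, (a i : ℝ) * ξ i)‖ ^ 2
        ≤ ∑ j ∈ range (2 ^ (J - i)), ∑ h ∈ Ico 1 (2 ^ i), (2 ^ i * N + 2 * ∑ p ∈ pairs (j, h),
            G ξ B (Pw k h (j * 2 ^ i + p.1) - Pw k h (j * 2 ^ i + p.2))) :=
          Finset.sum_le_sum fun j hj => Finset.sum_le_sum fun h hh => h1 j hj h hh
      _ = ((range (2 ^ (J - i)) ×ˢ Ico 1 (2 ^ i)).card : ℝ) * (2 ^ i * N) +
          2 * ∑ q ∈ (range (2 ^ (J - i)) ×ˢ Ico 1 (2 ^ i)).sigma pairs,
            G ξ B (Pw k q.1.2 (q.1.1 * 2 ^ i + q.2.1) - Pw k q.1.2 (q.1.1 * 2 ^ i + q.2.2)) := by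
          rw [← Finset.sum_product', Finset.sum_add_distrib, Finset.sum_const, nsmul_eq_mul,
            ← Finset.mul_sum, Finset.sum_sigma]
      _ ≤ (2 ^ J) ^ 2 * N + 2 * (M ^ 2 * (Dc * ((2 : ℝ) ^ J) ^ k)) := by
          apply add_le_add
          · have e1 : ((range (2 ^ (J - i)) ×ˢ Ico 1 (2 ^ i)).card : ℝ) ≤ 2 ^ J := by
              have e2 : (range (2 ^ (J - i)) ×ˢ Ico 1 (2 ^ i)).card ≤ 2 ^ J := by
                rw [card_product, card_range, Nat.card_Ico]
                calc 2 ^ (J - i) * (2 ^ i - 1) ≤ 2 ^ (J - i) * 2 ^ i :=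
                      Nat.mul_le_mul_left _ (Nat.sub_le _ _)
                  _ = 2 ^ J := by rw [← pow_add]; congr 1; omega
              exact_mod_cast e2
            have e3 : (2 : ℝ) ^ i ≤ 2 ^ J := pow_le_pow_right₀ (by norm_num) hi.le
            calc ((range (2 ^ (J - i)) ×ˢ Ico 1 (2 ^ i)).card : ℝ) * (2 ^ i * N)
                ≤ 2 ^ J * (2 ^ J * N) :=
                  mul_le_mul e1 (mul_le_mul_of_nonneg_right e3 hN0) (by positivity) (by positivity)
              _ = (2 ^ J) ^ 2 * N := by ring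
          · apply mul_le_mul_of_nonneg_left _ (by norm_num)
            have h6 := pair_sum ξ B ((range (2 ^ (J - i)) ×ˢ Ico 1 (2 ^ i)).sigma pairs)
              (fun q : (Σ _ : ℕ × ℕ, ℕ × ℕ) => Pw k q.1.2 (q.1.1 * 2 ^ i + q.2.1) -
                Pw k q.1.2 (q.1.1 * 2 ^ i + q.2.2)) ((2 ^ J) ^ k) (M ^ 2) Dc (by positivity) (by
                intro q hq
                rw [mem_sigma, mem_product, mem_range, mem_Ico] at hq
                obtain ⟨⟨hj, hh⟩, hp⟩ := hq
                rw [hpairs] at hp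
                simp only at hp
                rw [mem_filter, mem_product, mem_range, mem_range] at hp
                obtain ⟨⟨a1, a2⟩, a3⟩ := hp
                have h10 : q.1.1 * 2 ^ i + q.2.1 + q.1.2 ≤ 2 ^ J := by
                  have e1 : q.1.1 * 2 ^ i + 2 ^ i ≤ 2 ^ J := by
                    calc q.1.1 * 2 ^ i + 2 ^ i = (q.1.1 + 1) * 2 ^ i := by ring
                      _ ≤ 2 ^ (J - i) * 2 ^ i := Nat.mul_le_mul_right _ hj
                      _ = 2 ^ J := by rw [← pow_add]; congr 1; omega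
                  omega
                have h11 : Pw k q.1.2 (q.1.1 * 2 ^ i + q.2.1) ≤ (2 ^ J) ^ k :=
                  (Pw_le k _ _).trans (Nat.pow_le_pow_left h10 k)
                omega) (by
                intro D0 hD0 hD1
                have hM1 := hM D0 hD0 hD1
                have hcard : (((range (2 ^ (J - i)) ×ˢ Ico 1 (2 ^ i)).sigma pairs).filter
                    (fun q : (Σ _ : ℕ × ℕ, ℕ × ℕ) => Pw k q.1.2 (q.1.1 * 2 ^ i + q.2.1) -
                      Pw k q.1.2 (q.1.1 * 2 ^ i + q.2.2) = D0)).card ≤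
                    (D0.divisors ×ˢ D0.divisors).card := by
                  apply Finset.card_le_card_of_injOn (fun q => (q.1.2, q.2.1 - q.2.2))
                  · intro q hq
                    rw [mem_coe, mem_filter, mem_sigma, mem_product, mem_range, mem_Ico] at hq
                    obtain ⟨⟨⟨hj, hh⟩, hp⟩, hd⟩ := hq
                    rw [hpairs] at hp
                    simp only at hp
                    rw [mem_filter, mem_product, mem_range, mem_range] at hp
                    obtain ⟨⟨a1, a2⟩, a3⟩ := hp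
                    have c1 : q.2.2 < q.2.1 := by
                      by_contra hcon
                      push Not at hcon
                      obtain ⟨w, hw⟩ := Nat.exists_eq_add_of_le hcon
                      have := Pw_mono k q.1.2 w (q.1.1 * 2 ^ i + q.2.1)
                      rw [add_assoc, ← hw] at this
                      omega
                    obtain ⟨w, hw⟩ : ∃ w, q.2.1 = q.2.2 + w := ⟨q.2.1 - q.2.2, by omega⟩
                    rw [mem_coe, mem_product, Nat.mem_divisors, Nat.mem_divisors]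
                    refine ⟨⟨?_, by omega⟩, ?_, by omega⟩
                    · rw [← hd]
                      exact Nat.dvd_sub (Pw_dvd _ _ _) (Pw_dvd _ _ _)
                    · have e1 : q.2.1 - q.2.2 = w := by omega
                      simp only
                      rw [e1, ← hd, hw, ← add_assoc, Pw_symm]
                      exact Nat.dvd_sub (Pw_dvd _ _ _) (Pw_dvd _ _ _)
                  · intro q hq q' hq' hqq
                    rw [mem_coe, mem_filter, mem_sigma, mem_product, mem_range, mem_Ico] at hq hq'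
                    obtain ⟨⟨⟨hj, hh⟩, hp⟩, hd⟩ := hq
                    obtain ⟨⟨⟨hj', hh'⟩, hp'⟩, hd'⟩ := hq'
                    rw [hpairs] at hp hp'
                    simp only at hp hp'
                    rw [mem_filter, mem_product, mem_range, mem_range] at hp hp'
                    obtain ⟨⟨a1, a2⟩, a3⟩ := hp
                    obtain ⟨⟨b1, b2⟩, b3⟩ := hp'
                    have c1 : q.2.2 < q.2.1 := by
                      by_contra hcon
                      push Not at hcon
                      obtain ⟨w, hw⟩ := Nat.exists_eq_add_of_le hcon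
                      have := Pw_mono k q.1.2 w (q.1.1 * 2 ^ i + q.2.1)
                      rw [add_assoc, ← hw] at this
                      omega
                    have c2 : q'.2.2 < q'.2.1 := by
                      by_contra hcon
                      push Not at hcon
                      obtain ⟨w, hw⟩ := Nat.exists_eq_add_of_le hcon
                      have := Pw_mono k q'.1.2 w (q'.1.1 * 2 ^ i + q'.2.1)
                      rw [add_assoc, ← hw] at this
                      omega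
                    have hq1 : q.1.2 = q'.1.2 := (Prod.ext_iff.1 hqq).1
                    have hq2 : q.2.1 - q.2.2 = q'.2.1 - q'.2.2 := (Prod.ext_iff.1 hqq).2
                    obtain ⟨w, hw⟩ : ∃ w, q.2.1 = q.2.2 + w := ⟨q.2.1 - q.2.2, by omega⟩
                    have hw' : q'.2.1 = q'.2.2 + w := by omega
                    have hw1 : 1 ≤ w := by omega
                    rw [hw, ← add_assoc] at hd
                    rw [hw', ← add_assoc, ← hq1] at hd'
                    have e1 := diff2_inj k hk q.1.2 w hh.1 hw1 _ _ (hd.trans hd'.symm)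
                    have l1 : q.2.2 < 2 ^ i := by omega
                    have l2 : q'.2.2 < 2 ^ i := by omega
                    have e3 : q.1.1 < q'.1.1 + 1 := by
                      by_contra hc
                      push Not at hc
                      have := Nat.mul_le_mul_right (2 ^ i) hc
                      rw [add_mul, one_mul] at this
                      omega
                    have e4 : q'.1.1 < q.1.1 + 1 := by
                      by_contra hc
                      push Not at hc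
                      have := Nat.mul_le_mul_right (2 ^ i) hc
                      rw [add_mul, one_mul] at this
                      omega
                    have e5 : q.1.1 = q'.1.1 := by omega
                    rw [e5] at e1
                    have e6 : q.2.2 = q'.2.2 := by omega
                    have e7 : q.2.1 = q'.2.1 := by omega
                    exact Sigma.ext (Prod.ext e5 hq1) (heq_of_eq (Prod.ext e7 e6))
                rw [card_product] at hcard
                have h12 : (((((range (2 ^ (J - i)) ×ˢ Ico 1 (2 ^ i)).sigma pairs).filter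
                    (fun q : (Σ _ : ℕ × ℕ, ℕ × ℕ) => Pw k q.1.2 (q.1.1 * 2 ^ i + q.2.1) -
                      Pw k q.1.2 (q.1.1 * 2 ^ i + q.2.2) = D0)).card : ℕ) : ℝ) ≤
                    (D0.divisors.card : ℝ) * (D0.divisors.card : ℝ) := by exact_mod_cast hcard
                refine h12.trans ?_
                rw [sq]
                exact mul_le_mul hM1 hM1 (Nat.cast_nonneg _) hM0) (hD _)
            push_cast at h6
            exact h6
  -- the first moments
  have hT1 : ∀ i ∈ range J, ∑ j ∈ range (2 ^ (J - i)), ∑ h ∈ Ico 1 (2 ^ i), ∑ a ∈ box T B,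
      ‖Th c k (j * 2 ^ i) (2 ^ i) h (s + ∑ i, (a i : ℝ) * ξ i)‖ ≤ 2 ^ J * N * lam := by
    intro i hi
    have h2 := hT2 i hi
    rw [mem_range] at hi
    calc ∑ j ∈ range (2 ^ (J - i)), ∑ h ∈ Ico 1 (2 ^ i), ∑ a ∈ box T B,
          ‖Th c k (j * 2 ^ i) (2 ^ i) h (s + ∑ i, (a i : ℝ) * ξ i)‖
        ≤ ∑ j ∈ range (2 ^ (J - i)), ∑ h ∈ Ico 1 (2 ^ i), ∑ a ∈ box T B,
          (lam / 2 + ‖Th c k (j * 2 ^ i) (2 ^ i) h (s + ∑ i, (a i : ℝ) * ξ i)‖ ^ 2 / (2 * lam)) := by
          apply Finset.sum_le_sum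
          intro j _
          apply Finset.sum_le_sum
          intro h _
          apply Finset.sum_le_sum
          intro a _
          set y := ‖Th c k (j * 2 ^ i) (2 ^ i) h (s + ∑ i, (a i : ℝ) * ξ i)‖
          have e1 : lam / 2 + y ^ 2 / (2 * lam) - y = (lam - y) ^ 2 / (2 * lam) := by
            field_simp
            ring
          have e2 : 0 ≤ (lam - y) ^ 2 / (2 * lam) := by positivity
          linarith
      _ = ((range (2 ^ (J - i))).card : ℝ) * (((Ico 1 (2 ^ i)).card : ℝ) *
            (((box T B).card : ℝ) * (lam / 2))) +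
          (∑ j ∈ range (2 ^ (J - i)), ∑ h ∈ Ico 1 (2 ^ i), ∑ a ∈ box T B,
            ‖Th c k (j * 2 ^ i) (2 ^ i) h (s + ∑ i, (a i : ℝ) * ξ i)‖ ^ 2) / (2 * lam) := by
          simp only [Finset.sum_add_distrib, Finset.sum_const, nsmul_eq_mul, Finset.sum_div]
      _ ≤ 2 ^ J * (N * (lam / 2)) +
          ((2 ^ J) ^ 2 * N + 2 * (M ^ 2 * (Dc * ((2 : ℝ) ^ J) ^ k))) / (2 * lam) := by
          apply add_le_add
          · rw [card_box, ← mul_assoc]
            apply mul_le_mul_of_nonneg_right _ (by positivity)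
            have e2 : (range (2 ^ (J - i))).card * (Ico 1 (2 ^ i)).card ≤ 2 ^ J := by
              rw [card_range, Nat.card_Ico]
              calc 2 ^ (J - i) * (2 ^ i - 1) ≤ 2 ^ (J - i) * 2 ^ i :=
                    Nat.mul_le_mul_left _ (Nat.sub_le _ _)
                _ = 2 ^ J := by rw [← pow_add]; congr 1; omega
            exact_mod_cast e2
          · exact div_le_div_of_nonneg_right h2 (by positivity)
      _ = 2 ^ J * N * lam := by
          rw [← hlam2]
          field_simp
          ring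
  unfold U1
  rw [← Finset.mul_sum, Finset.sum_comm]
  have h3 : ∀ i ∈ range J, ∑ a ∈ box T B, ∑ j ∈ range (2 ^ (J - i)),
      ((2 : ℝ) ^ i + 2 * ∑ h ∈ Ico 1 (2 ^ i), ‖Th c k (j * 2 ^ i) (2 ^ i) h
        (s + ∑ i, (a i : ℝ) * ξ i)‖) ≤ 3 * (2 ^ J * N * lam) := by
    intro i hi
    have h4 := hT1 i hi
    rw [mem_range] at hi
    have h5 : ∑ a ∈ box T B, ∑ j ∈ range (2 ^ (J - i)),
        ((2 : ℝ) ^ i + 2 * ∑ h ∈ Ico 1 (2 ^ i), ‖Th c k (j * 2 ^ i) (2 ^ i) h
          (s + ∑ i, (a i : ℝ) * ξ i)‖) =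
        ((box T B).card : ℝ) * (2 ^ (J - i) * 2 ^ i) +
        2 * ∑ j ∈ range (2 ^ (J - i)), ∑ h ∈ Ico 1 (2 ^ i), ∑ a ∈ box T B,
          ‖Th c k (j * 2 ^ i) (2 ^ i) h (s + ∑ i, (a i : ℝ) * ξ i)‖ := by
      simp only [Finset.sum_add_distrib, Finset.sum_const, nsmul_eq_mul, card_range,
        ← Finset.mul_sum]
      push_cast
      congr 1
      congr 1
      rw [Finset.sum_comm]
      apply Finset.sum_congr rfl
      intro j _
      rw [Finset.sum_comm]
    rw [h5, card_box]
    have h6 : (2 : ℝ) ^ (J - i) * 2 ^ i = 2 ^ J := by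
      rw [← pow_add]; congr 1; omega
    rw [h6]
    have h7 : N * 2 ^ J ≤ 2 ^ J * N * lam := by
      have : 0 ≤ 2 ^ J * N := by positivity
      nlinarith
    linarith
  calc (J : ℝ) * ∑ i ∈ range J, ∑ a ∈ box T B, ∑ j ∈ range (2 ^ (J - i)),
        ((2 : ℝ) ^ i + 2 * ∑ h ∈ Ico 1 (2 ^ i), ‖Th c k (j * 2 ^ i) (2 ^ i) h
          (s + ∑ i, (a i : ℝ) * ξ i)‖)
      ≤ (J : ℝ) * ∑ _i ∈ range J, 3 * (2 ^ J * N * lam) :=
        mul_le_mul_of_nonneg_left (Finset.sum_le_sum h3) (Nat.cast_nonneg J)
    _ = 3 * (J : ℝ) ^ 2 * (2 ^ J * N) * lam := by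
        rw [Finset.sum_const, card_range, nsmul_eq_mul]
        ring

end Pool.Agent.X1.SchP
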