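import Mathlib
import Pool.Agent.X1.WeyD

/-!
# Weyl sums at almost all elements of a number field, V
-/

set_option autoImplicit false

namespace Pool.Agent.X1.SchP

open Finset Filter Topology

open Classical in
/-- from the dyadic scales to all lengths -/
lemma assemble (T : ℕ) (δ A C6 : ℝ) (hδ : 0 < δ) (hA : 0 ≤ A) (hC6 : 0 < C6) :
    ∃ B₀ : ℕ, 1 ≤ B₀ ∧ ∀ B : ℕ, B₀ ≤ B → ∀ P : (Fin T → ℕ) → ℕ → Prop,
      (∀ k : ℕ, (2 : ℝ) ^ k ≤ (B : ℝ) ^ A → ∀ S : Finset (Fin T → ℕ), S ⊆ box T B →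
        (∀ a ∈ S, ∃ r : ℕ, 2 ^ k ≤ r ∧ r < 2 ^ (k + 1) ∧ P a r) →
        (S.card : ℝ) * ((B : ℝ) ^ δ) ^ 2 ≤
          ((k : ℝ) + 2) ^ 2 * (C6 * (B : ℝ) ^ (δ / 4)) * (B : ℝ) ^ T) →
      (((box T B).filter fun a => ∃ r : ℕ, 1 ≤ r ∧ (r : ℝ) ≤ (B : ℝ) ^ A ∧ P a r).card : ℝ) ≤
        (B : ℝ) ^ ((T : ℝ) - δ) := by
  have hlog2 : 0 < Real.log 2 := Real.log_pos (by norm_num)
  set C4 : ℝ := 8 * A / (δ * Real.log 2) + 2 with hC4
  have hC40 : 0 < C4 := by positivity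
  set C5 : ℝ := C4 ^ 3 * C6 with hC5
  have hC50 : 0 < C5 := by positivity
  have hev : ∀ᶠ B : ℕ in atTop, C5 ≤ (B : ℝ) ^ (3 * δ / 8) :=
    ((tendsto_rpow_atTop (by positivity)).comp tendsto_natCast_atTop_atTop).eventually
      (eventually_ge_atTop C5)
  obtain ⟨B₀, hB₀⟩ := eventually_atTop.1 hev
  refine ⟨max B₀ 1, le_max_right _ _, fun B hB P hP => ?_⟩
  have hbig := hB₀ B ((le_max_left _ _).trans hB)
  have hB1 : 1 ≤ B := (le_max_right _ _).trans hB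
  have hBR : (1 : ℝ) ≤ B := by exact_mod_cast hB1
  have hB0 : (0 : ℝ) < B := by linarith
  set W : ℝ := (B : ℝ) ^ δ with hW
  have hW0 : 0 < W := Real.rpow_pos_of_pos hB0 _
  set K : ℕ := Nat.log 2 ⌊(B : ℝ) ^ A⌋₊ with hK
  have hfl : ⌊(B : ℝ) ^ A⌋₊ ≠ 0 := by
    have h1 : 1 ≤ ⌊(B : ℝ) ^ A⌋₊ := Nat.le_floor (by
      rw [Nat.cast_one]; exact Real.one_le_rpow hBR hA)
    omega
  have hK1 : ((2 ^ K : ℕ) : ℝ) ≤ (B : ℝ) ^ A :=
    (Nat.cast_le.2 (Nat.pow_log_le_self 2 hfl)).trans (Nat.floor_le (by positivity))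
  set S : ℕ → Finset (Fin T → ℕ) := fun k =>
    (box T B).filter fun a => ∃ r : ℕ, 2 ^ k ≤ r ∧ r < 2 ^ (k + 1) ∧ P a r with hSdef
  have hcover : ((box T B).filter fun a => ∃ r : ℕ, 1 ≤ r ∧ (r : ℝ) ≤ (B : ℝ) ^ A ∧ P a r) ⊆
      (range (K + 1)).biUnion S := by
    intro a ha
    rw [mem_filter] at ha
    obtain ⟨haB, r, hr1, hrA, hr2⟩ := ha
    rw [mem_biUnion]
    refine ⟨Nat.log 2 r, ?_, ?_⟩
    · rw [mem_range, Nat.lt_succ_iff]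
      exact Nat.log_mono_right (Nat.le_floor hrA)
    · simp only [hSdef]
      rw [mem_filter]
      exact ⟨haB, r, Nat.pow_log_le_self 2 (by omega), Nat.lt_pow_succ_log_self (by norm_num) r, hr2⟩
  have hone : ∀ k ∈ range (K + 1), ((S k).card : ℝ) ≤
      ((K : ℝ) + 2) ^ 2 * (C6 * (B : ℝ) ^ (δ / 4)) * (B : ℝ) ^ T / W ^ 2 := by
    intro k hk
    rw [mem_range, Nat.lt_succ_iff] at hk
    rw [le_div_iff₀ (by positivity)]
    have h0 : (2 : ℝ) ^ k ≤ (B : ℝ) ^ A := by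
      refine le_trans ?_ hK1
      push_cast
      exact pow_le_pow_right₀ (by norm_num) hk
    have h1 := hP k h0 (S k) (filter_subset _ _) (by
      intro a ha
      exact (mem_filter.1 ha).2)
    refine h1.trans ?_
    have hkK : (k : ℝ) ≤ K := by exact_mod_cast hk
    have h2 : ((k : ℝ) + 2) ^ 2 ≤ ((K : ℝ) + 2) ^ 2 := pow_le_pow_left₀ (by positivity) (by linarith) 2
    apply mul_le_mul_of_nonneg_right _ (by positivity)
    exact mul_le_mul_of_nonneg_right h2 (by positivity)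
  have hcard : (((box T B).filter fun a => ∃ r : ℕ, 1 ≤ r ∧ (r : ℝ) ≤ (B : ℝ) ^ A ∧ P a r).card : ℝ) ≤
      ∑ k ∈ range (K + 1), ((S k).card : ℝ) := by
    have h1 := (Finset.card_le_card hcover).trans Finset.card_biUnion_le
    exact_mod_cast h1
  refine hcard.trans ((Finset.sum_le_sum hone).trans ?_)
  rw [Finset.sum_const, card_range, nsmul_eq_mul]
  push_cast
  have hKB : (K : ℝ) + 2 ≤ C4 * (B : ℝ) ^ (δ / 8) := by
    have hone' : (1 : ℝ) ≤ (B : ℝ) ^ (δ / 8) := Real.one_le_rpow hBR (by positivity)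
    have h2 : (K : ℝ) * Real.log 2 ≤ A * Real.log B := by
      rw [← Real.log_pow, ← Real.log_rpow hB0]
      apply Real.log_le_log (by positivity)
      exact_mod_cast hK1
    have h3 : Real.log B ≤ (B : ℝ) ^ (δ / 8) / (δ / 8) := Real.log_le_rpow_div hB0.le (by positivity)
    have h4 : (K : ℝ) * Real.log 2 ≤ A * ((B : ℝ) ^ (δ / 8) / (δ / 8)) :=
      h2.trans (mul_le_mul_of_nonneg_left h3 hA)
    rw [← le_div_iff₀ hlog2] at h4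
    have h5 : A * ((B : ℝ) ^ (δ / 8) / (δ / 8)) / Real.log 2 =
        8 * A / (δ * Real.log 2) * (B : ℝ) ^ (δ / 8) := by
      field_simp
    rw [h5] at h4
    rw [hC4, add_mul]
    linarith
  have hKp : (0 : ℝ) ≤ K := Nat.cast_nonneg K
  have hTr : (B : ℝ) ^ T = (B : ℝ) ^ (T : ℝ) := by rw [Real.rpow_natCast]
  have hW2 : W ^ 2 = (B : ℝ) ^ (2 * δ) := by
    rw [hW, ← Real.rpow_natCast, ← Real.rpow_mul hB0.le]
    congr 1
    push_cast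
    ring
  calc ((K : ℝ) + 1) * (((K : ℝ) + 2) ^ 2 * (C6 * (B : ℝ) ^ (δ / 4)) * (B : ℝ) ^ T / W ^ 2)
      = ((K : ℝ) + 1) * ((K : ℝ) + 2) ^ 2 * (C6 * (B : ℝ) ^ (δ / 4)) * ((B : ℝ) ^ T / W ^ 2) := by
        ring
    _ ≤ (C4 * (B : ℝ) ^ (δ / 8)) * (C4 * (B : ℝ) ^ (δ / 8)) ^ 2 *
        (C6 * (B : ℝ) ^ (δ / 4)) * ((B : ℝ) ^ T / W ^ 2) := by
        apply mul_le_mul_of_nonneg_right _ (by positivity)
        apply mul_le_mul_of_nonneg_right _ (by positivity)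
        apply mul_le_mul (by linarith) (pow_le_pow_left₀ (by positivity) hKB 2) (by positivity)
          (by positivity)
    _ = C5 * (((B : ℝ) ^ (δ / 8)) ^ 3 * (B : ℝ) ^ (δ / 4) * (B : ℝ) ^ (T : ℝ) / (B : ℝ) ^ (2 * δ)) := by
        rw [hTr, hW2, hC5]; ring
    _ = C5 * (B : ℝ) ^ ((T : ℝ) - 11 * δ / 8) := by
        congr 1
        rw [← Real.rpow_natCast ((B : ℝ) ^ (δ / 8)) 3, ← Real.rpow_mul hB0.le,
          ← Real.rpow_add hB0, ← Real.rpow_add hB0, ← Real.rpow_sub hB0]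
        congr 1
        push_cast
        ring
    _ ≤ (B : ℝ) ^ (3 * δ / 8) * (B : ℝ) ^ ((T : ℝ) - 11 * δ / 8) :=
        mul_le_mul_of_nonneg_right hbig (by positivity)
    _ = (B : ℝ) ^ ((T : ℝ) - δ) := by
        rw [← Real.rpow_add hB0]
        congr 1
        ring

lemma sqrt_add_le' (x y : ℝ) (hx : 0 ≤ x) (hy : 0 ≤ y) :
    Real.sqrt (x + y) ≤ Real.sqrt x + Real.sqrt y := by
  rw [Real.sqrt_le_iff]
  refine ⟨by positivity, ?_⟩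
  have h1 := Real.sq_sqrt hx
  have h2 := Real.sq_sqrt hy
  have h3 : 0 ≤ Real.sqrt x * Real.sqrt y := by positivity
  nlinarith

lemma k0aux (q : ℝ) (hq : 1 ≤ q) (g : ℝ) (hg : 0 ≤ g) :
    2 ≤ (2 + g) * q ∧ g * q ≤ (2 + g) * q := by
  constructor
  · nlinarith
  · exact mul_le_mul_of_nonneg_right (by linarith) (by linarith)

/-- Markov's inequality -/
lemma markov {ι : Type*} (S Ω : Finset ι) (hS : S ⊆ Ω) (V : ι → ℝ) (hV : ∀ a, 0 ≤ V a) (z : ℝ)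
    (h : ∀ a ∈ S, z ≤ V a) (Z : ℝ) (hZ : ∑ a ∈ Ω, V a ≤ Z) : (S.card : ℝ) * z ≤ Z := by
  calc (S.card : ℝ) * z = ∑ _a ∈ S, z := by rw [Finset.sum_const, nsmul_eq_mul]
    _ ≤ ∑ a ∈ S, V a := Finset.sum_le_sum h
    _ ≤ ∑ a ∈ Ω, V a := Finset.sum_le_sum_of_subset_of_nonneg hS fun a _ _ => hV a
    _ ≤ Z := hZ

/-- the constants -/
lemma constants {T : ℕ} (ξ : Fin T → ℝ) (hξ : ∀ i, IsAlgebraic ℚ (ξ i))
    (hind : ∀ (y0 : ℤ) (y : Fin T → ℤ), (y0 : ℝ) + ∑ i, (y i : ℝ) * ξ i = 0 → y0 = 0 ∧ y = 0)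
    (k : ℕ) (η A : ℝ) (hη : 0 < η) (hA : 0 ≤ A) : ∃ C : ℝ, 1 ≤ C ∧ ∀ B : ℕ, 1 ≤ B →
      (∀ K : ℕ, ∑ k ∈ Icc 1 K, G ξ B k ≤ (C * (B : ℝ) ^ η) * K) ∧
      ∀ j : ℕ, (2 : ℝ) ^ j ≤ (B : ℝ) ^ A → ∀ D0 : ℕ, 1 ≤ D0 → D0 ≤ (2 ^ (j + 2)) ^ k →
        (D0.divisors.card : ℝ) ≤ C * (B : ℝ) ^ η := by
  obtain ⟨ε, hε0, hε1, hε2, hε3⟩ : ∃ ε : ℝ, 0 < ε ∧ ε ≤ 1 ∧ ((T : ℝ) + 1) * ε ≤ η ∧
      A * k * ε ≤ η := by
    refine ⟨min 1 (η / (T + 1 + A * k)), lt_min one_pos (by positivity), min_le_left _ _, ?_, ?_⟩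
    · calc ((T : ℝ) + 1) * min 1 (η / (T + 1 + A * k)) ≤ ((T : ℝ) + 1) * (η / (T + 1 + A * k)) :=
            mul_le_mul_of_nonneg_left (min_le_right _ _) (by positivity)
        _ ≤ (T + 1 + A * k) * (η / (T + 1 + A * k)) := by
            apply mul_le_mul_of_nonneg_right _ (by positivity)
            have : 0 ≤ A * k := by positivity
            linarith
        _ = η := by field_simp
    · calc A * k * min 1 (η / (T + 1 + A * k)) ≤ A * k * (η / (T + 1 + A * k)) :=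
            mul_le_mul_of_nonneg_left (min_le_right _ _) (by positivity)
        _ ≤ (T + 1 + A * k) * (η / (T + 1 + A * k)) := by
            apply mul_le_mul_of_nonneg_right _ (by positivity)
            have : (0 : ℝ) ≤ T := Nat.cast_nonneg T
            linarith
        _ = η := by field_simp
  obtain ⟨c0, hc0, hS⟩ := schmidt ξ hξ hind ε hε0 hε1
  obtain ⟨C1, hC1, hsum⟩ := sum_bound ξ ε c0 hε0 hc0 hS
  obtain ⟨C2, hC2, hdiv⟩ := H353.divisor_bound_real ε hε0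
  refine ⟨max 1 (max C1 (C2 * 4 ^ k)), le_max_left _ _, fun B hB => ?_⟩
  have hBR : (1 : ℝ) ≤ B := by exact_mod_cast hB
  have hB0 : (0 : ℝ) < B := by linarith
  refine ⟨fun K => ?_, fun j hj D0 hD0 hD1 => ?_⟩
  · refine (hsum K B hB).trans ?_
    have h1 : (B : ℝ) ^ ((T + 1) * ε) ≤ (B : ℝ) ^ η := Real.rpow_le_rpow_of_exponent_le hBR hε2
    have h2 : C1 ≤ max 1 (max C1 (C2 * 4 ^ k)) := (le_max_left _ _).trans (le_max_right _ _)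
    calc C1 * (K : ℝ) * (B : ℝ) ^ ((T + 1) * ε) = (C1 * (B : ℝ) ^ ((T + 1) * ε)) * K := by ring
      _ ≤ _ := by
          apply mul_le_mul_of_nonneg_right _ (Nat.cast_nonneg K)
          exact mul_le_mul h2 h1 (by positivity) (by positivity)
  · refine (hdiv D0 (by omega)).trans ?_
    have h1 : (D0 : ℝ) ≤ (4 * (B : ℝ) ^ A) ^ k := by
      have h2 : (D0 : ℝ) ≤ (((2 ^ (j + 2)) ^ k : ℕ) : ℝ) := by exact_mod_cast hD1
      refine h2.trans ?_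
      push_cast
      apply pow_le_pow_left₀ (by positivity)
      rw [pow_add]
      linarith
    have h3 : (D0 : ℝ) ^ ε ≤ 4 ^ k * (B : ℝ) ^ η := by
      calc (D0 : ℝ) ^ ε ≤ ((4 * (B : ℝ) ^ A) ^ k) ^ ε :=
            Real.rpow_le_rpow (Nat.cast_nonneg _) h1 hε0.le
        _ = ((4 : ℝ) ^ k) ^ ε * (((B : ℝ) ^ A) ^ k) ^ ε := by
            rw [mul_pow, Real.mul_rpow (by positivity) (by positivity)]
        _ ≤ 4 ^ k * (B : ℝ) ^ η := by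
            apply mul_le_mul _ _ (by positivity) (by positivity)
            · calc ((4 : ℝ) ^ k) ^ ε ≤ ((4 : ℝ) ^ k) ^ (1 : ℝ) :=
                    Real.rpow_le_rpow_of_exponent_le (one_le_pow₀ (by norm_num)) hε1
                _ = 4 ^ k := Real.rpow_one _
            · rw [← Real.rpow_natCast ((B : ℝ) ^ A) k, ← Real.rpow_mul hB0.le,
                ← Real.rpow_mul hB0.le]
              exact Real.rpow_le_rpow_of_exponent_le hBR hε3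
    have h4 : C2 * 4 ^ k ≤ max 1 (max C1 (C2 * 4 ^ k)) := (le_max_right _ _).trans (le_max_right _ _)
    calc C2 * (D0 : ℝ) ^ ε ≤ C2 * (4 ^ k * (B : ℝ) ^ η) := mul_le_mul_of_nonneg_left h3 hC2.le
      _ = (C2 * 4 ^ k) * (B : ℝ) ^ η := by ring
      _ ≤ _ := mul_le_mul_of_nonneg_right h4 (by positivity)

open Classical in
/-- **Weyl sums with coefficients at almost all elements.** -/
theorem weylA {T : ℕ} (ξ : Fin T → ℝ) (hξ : ∀ i, IsAlgebraic ℚ (ξ i))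
    (hind : ∀ (y0 : ℤ) (y : Fin T → ℤ), (y0 : ℝ) + ∑ i, (y i : ℝ) * ξ i = 0 → y0 = 0 ∧ y = 0)
    (k : ℕ) (hk : 2 ≤ k) (δ A : ℝ) (hδ : 0 < δ) (hA : 0 ≤ A) :
    ∃ B₀ : ℕ, ∀ B : ℕ, B₀ ≤ B → ∀ c : ℕ → ℂ, (∀ n, ‖c n‖ ≤ 1) → ∀ s : ℝ,
      (((box T B).filter fun a => ∃ r : ℕ, 1 ≤ r ∧ (r : ℝ) ≤ (B : ℝ) ^ A ∧
        (B : ℝ) ^ δ * (Real.sqrt r + Real.sqrt ((r : ℝ) ^ k / (B : ℝ) ^ T)) <
          ‖Ws c k r (s + ∑ i, (a i : ℝ) * ξ i)‖).card : ℝ) ≤ (B : ℝ) ^ ((T : ℝ) - δ) := by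
  obtain ⟨C, hC1, hC⟩ := constants ξ hξ hind k (δ / 8) A (by positivity) hA
  have hpos := fun k hk i => nd_pos ξ hind k hk i
  obtain ⟨B₀, hB₀1, hB₀⟩ := assemble T δ A (4 + 2 * 4 ^ k * C ^ 2) hδ hA (by positivity)
  refine ⟨B₀, fun B hB c hc s => ?_⟩
  have hB1 : 1 ≤ B := hB₀1.trans hB
  have hBR : (1 : ℝ) ≤ B := by exact_mod_cast hB1
  have hB0 : (0 : ℝ) < B := by linarith
  obtain ⟨hD, hM⟩ := hC B hB1
  refine hB₀ B hB (fun a r => (B : ℝ) ^ δ * (Real.sqrt r + Real.sqrt ((r : ℝ) ^ k / (B : ℝ) ^ T)) <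
          ‖Ws c k r (s + ∑ i, (a i : ℝ) * ξ i)‖) ?_
  intro j hj S hS hS2
  set N : ℝ := (B : ℝ) ^ T with hN
  have hN0 : 0 < N := by positivity
  set W : ℝ := (B : ℝ) ^ δ with hW
  have hW0 : 0 < W := Real.rpow_pos_of_pos hB0 _
  set m : ℝ := C * (B : ℝ) ^ (δ / 8) with hm
  have hm1 : 1 ≤ m := by
    have h1 : (1 : ℝ) ≤ (B : ℝ) ^ (δ / 8) := Real.one_le_rpow hBR (by positivity)
    rw [hm]; nlinarith
  have hX0 : (0 : ℝ) < 2 ^ j := by positivity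
  have h1 := V1_sum ξ hpos c hc k hk B s (j + 2) m m hD (hM j hj)
  have h2 : ∀ a ∈ S, W ^ 2 * ((2 : ℝ) ^ j + (2 ^ j) ^ k / N) ≤
      V1 c k (j + 2) (s + ∑ i, (a i : ℝ) * ξ i) := by
    intro a ha
    obtain ⟨r, hr1, hr2, hr3⟩ := hS2 a ha
    have h3 := Ws_le c k (j + 2) r (s + ∑ i, (a i : ℝ) * ξ i) (by
      rw [pow_succ 2 (j + 1)]; omega)
    refine le_trans ?_ h3
    have hrR : (2 : ℝ) ^ j ≤ r := by exact_mod_cast hr1
    have hr0 : (0 : ℝ) < r := lt_of_lt_of_le hX0 hrR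
    have h5 : (W * (Real.sqrt r + Real.sqrt ((r : ℝ) ^ k / N))) ^ 2 ≤
        ‖Ws c k r (s + ∑ i, (a i : ℝ) * ξ i)‖ ^ 2 :=
      pow_le_pow_left₀ (by positivity) hr3.le 2
    refine le_trans ?_ h5
    rw [mul_pow]
    apply mul_le_mul_of_nonneg_left _ (by positivity)
    have e1 := Real.sq_sqrt hr0.le
    have e2 := Real.sq_sqrt (by positivity : 0 ≤ (r : ℝ) ^ k / N)
    have e3 : 0 ≤ Real.sqrt r := Real.sqrt_nonneg _
    have e4 : 0 ≤ Real.sqrt ((r : ℝ) ^ k / N) := Real.sqrt_nonneg _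
    have e5 : (2 ^ j : ℝ) ^ k / N ≤ (r : ℝ) ^ k / N :=
      div_le_div_of_nonneg_right (pow_le_pow_left₀ hX0.le hrR k) hN0.le
    nlinarith [mul_nonneg e3 e4]
  have h6 := markov S (box T B) hS (fun a => V1 c k (j + 2) (s + ∑ i, (a i : ℝ) * ξ i))
    (fun a => by unfold V1; positivity) _ h2 _ h1
  have hden : (0 : ℝ) < (2 : ℝ) ^ j + (2 ^ j) ^ k / N := by positivity
  apply le_of_mul_le_mul_right _ hden
  calc (S.card : ℝ) * W ^ 2 * ((2 : ℝ) ^ j + (2 ^ j) ^ k / N)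
      = (S.card : ℝ) * (W ^ 2 * ((2 : ℝ) ^ j + (2 ^ j) ^ k / N)) := by ring
    _ ≤ ((j + 2 : ℕ) : ℝ) * (((j + 2 : ℕ) : ℝ) * (2 ^ (j + 2) * N +
          2 * (m * (m * ((2 : ℝ) ^ (j + 2)) ^ k)))) := h6
    _ = ((j : ℝ) + 2) ^ 2 * (4 * 2 ^ j * N + 2 * m ^ 2 * 4 ^ k * (2 ^ j) ^ k) := by
        push_cast
        have e1 : (2 : ℝ) ^ (j + 2) = 4 * 2 ^ j := by rw [pow_add]; ring
        rw [e1, mul_pow]
        ring
    _ ≤ ((j : ℝ) + 2) ^ 2 * (((4 + 2 * 4 ^ k * C ^ 2) * (B : ℝ) ^ (δ / 4)) * N *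
          ((2 : ℝ) ^ j + (2 ^ j) ^ k / N)) := by
        apply mul_le_mul_of_nonneg_left _ (by positivity)
        have hq : (1 : ℝ) ≤ (B : ℝ) ^ (δ / 4) := Real.one_le_rpow hBR (by positivity)
        have hmm : m ^ 2 = C ^ 2 * (B : ℝ) ^ (δ / 4) := by
          rw [hm, mul_pow, ← Real.rpow_natCast ((B : ℝ) ^ (δ / 8)) 2, ← Real.rpow_mul hB0.le]
          congr 2
          push_cast
          ring
        rw [hmm]
        have e2 : ((4 + 2 * 4 ^ k * C ^ 2) * (B : ℝ) ^ (δ / 4)) * N *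
            ((2 : ℝ) ^ j + (2 ^ j) ^ k / N) =
            4 * (B : ℝ) ^ (δ / 4) * N * 2 ^ j + 4 * (B : ℝ) ^ (δ / 4) * (2 ^ j) ^ k +
            2 * 4 ^ k * C ^ 2 * (B : ℝ) ^ (δ / 4) * N * 2 ^ j +
            2 * 4 ^ k * C ^ 2 * (B : ℝ) ^ (δ / 4) * (2 ^ j) ^ k := by
          field_simp
          ring
        rw [e2]
        have e3 : 4 * 2 ^ j * N ≤ 4 * (B : ℝ) ^ (δ / 4) * N * 2 ^ j := by
          have : 0 ≤ 4 * 2 ^ j * N := by positivity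
          nlinarith
        have e4 : 0 ≤ 4 * (B : ℝ) ^ (δ / 4) * ((2 : ℝ) ^ j) ^ k := by positivity
        have e5 : 0 ≤ 2 * 4 ^ k * C ^ 2 * (B : ℝ) ^ (δ / 4) * N * (2 : ℝ) ^ j := by positivity
        have e6 : 2 * (C ^ 2 * (B : ℝ) ^ (δ / 4)) * 4 ^ k * ((2 : ℝ) ^ j) ^ k =
            2 * 4 ^ k * C ^ 2 * (B : ℝ) ^ (δ / 4) * (2 ^ j) ^ k := by ring
        rw [e6]
        linarith
    _ = ((j : ℝ) + 2) ^ 2 * ((4 + 2 * 4 ^ k * C ^ 2) * (B : ℝ) ^ (δ / 4)) * N *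
          ((2 : ℝ) ^ j + (2 ^ j) ^ k / N) := by ring

open Classical in
/-- **Weyl sums at almost all elements, uniformly in the linear coefficient.** -/
theorem weylB {T : ℕ} (ξ : Fin T → ℝ) (hξ : ∀ i, IsAlgebraic ℚ (ξ i))
    (hind : ∀ (y0 : ℤ) (y : Fin T → ℤ), (y0 : ℝ) + ∑ i, (y i : ℝ) * ξ i = 0 → y0 = 0 ∧ y = 0)
    (k : ℕ) (hk : 3 ≤ k) (δ A : ℝ) (hδ : 0 < δ) (hA : 0 ≤ A) :
    ∃ B₀ : ℕ, ∀ B : ℕ, B₀ ≤ B → ∀ c : ℕ → ℂ, (∀ n, ‖c n‖ ≤ 1) → ∀ s : ℝ,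
      (((box T B).filter fun a => ∃ r : ℕ, 1 ≤ r ∧ (r : ℝ) ≤ (B : ℝ) ^ A ∧ ∃ y : ℝ,
        (B : ℝ) ^ δ * ((r : ℝ) ^ (3 / 4 : ℝ) + ((r : ℝ) ^ (k + 1) / (B : ℝ) ^ T) ^ (1 / 4 : ℝ)) <
          ‖Wx c k r (s + ∑ i, (a i : ℝ) * ξ i) y‖).card : ℝ) ≤ (B : ℝ) ^ ((T : ℝ) - δ) := by
  obtain ⟨C, hC1, hC⟩ := constants ξ hξ hind k (δ / 8) A (by positivity) hA
  have hpos := fun k hk i => nd_pos ξ hind k hk i
  obtain ⟨B₀, hB₀1, hB₀⟩ := assemble T δ A (12 * (2 + C * Real.sqrt (2 * 4 ^ (k - 1) * C))) hδ hA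
    (by positivity)
  refine ⟨B₀, fun B hB c hc s => ?_⟩
  have hB1 : 1 ≤ B := hB₀1.trans hB
  have hBR : (1 : ℝ) ≤ B := by exact_mod_cast hB1
  have hB0 : (0 : ℝ) < B := by linarith
  obtain ⟨hD, hM⟩ := hC B hB1
  refine hB₀ B hB (fun a r => ∃ y : ℝ,
        (B : ℝ) ^ δ * ((r : ℝ) ^ (3 / 4 : ℝ) + ((r : ℝ) ^ (k + 1) / (B : ℝ) ^ T) ^ (1 / 4 : ℝ)) <
          ‖Wx c k r (s + ∑ i, (a i : ℝ) * ξ i) y‖) ?_
  intro j hj S hS hS2
  set N : ℝ := (B : ℝ) ^ T with hN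
  have hN0 : 0 < N := by positivity
  set W : ℝ := (B : ℝ) ^ δ with hW
  have hW0 : 0 < W := Real.rpow_pos_of_pos hB0 _
  set q : ℝ := (B : ℝ) ^ (δ / 8) with hq
  have hq1 : 1 ≤ q := Real.one_le_rpow hBR (by positivity)
  set m : ℝ := C * q with hm
  have hm1 : 1 ≤ m := by rw [hm]; nlinarith
  set X : ℝ := (2 : ℝ) ^ j with hX
  have hX0 : 0 < X := by positivity
  have hX1 : 1 ≤ X := one_le_pow₀ (by norm_num)
  have e1 : (2 : ℝ) ^ (j + 2) = 4 * X := by rw [hX, pow_add]; ring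
  set lam : ℝ := Real.sqrt (4 * X + 2 * (m ^ 2 * m * (4 * X) ^ (k - 1)) / N) with hlam
  have hlam2 : lam ^ 2 = 4 * X + 2 * (m ^ 2 * m * (4 * X) ^ (k - 1)) / N :=
    Real.sq_sqrt (by positivity)
  have hlam1 : 1 ≤ lam := by
    rw [hlam, ← Real.sqrt_one]
    apply Real.sqrt_le_sqrt
    have : 0 ≤ 2 * (m ^ 2 * m * (4 * X) ^ (k - 1)) / N := by positivity
    linarith
  have h1 := U1_sum ξ hpos c hc k hk B s (j + 2) m m hD (hM j hj) lam hlam1 (by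
    rw [e1, hlam2]
    have e2 : (4 * X) ^ k = 4 * X * (4 * X) ^ (k - 1) := by
      rw [← pow_succ']; congr 1; omega
    rw [e2]
    rw [← hN]
    field_simp)
  rw [e1] at h1
  have h2 : ∀ a ∈ S, W ^ 2 * (X * (Real.sqrt X + Real.sqrt (X ^ (k - 1) / N))) ≤
      U1 c k (j + 2) (s + ∑ i, (a i : ℝ) * ξ i) := by
    intro a ha
    obtain ⟨r, hr1, hr2, y, hr3⟩ := hS2 a ha
    have h3 := Wx_le c hc k (j + 2) r (s + ∑ i, (a i : ℝ) * ξ i) y (by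
      rw [pow_succ 2 (j + 1)]; omega)
    refine le_trans ?_ h3
    have hrR : X ≤ r := by rw [hX]; exact_mod_cast hr1
    have hr0 : (0 : ℝ) < r := lt_of_lt_of_le hX0 hrR
    have h5 : (W * ((r : ℝ) ^ (3 / 4 : ℝ) + ((r : ℝ) ^ (k + 1) / N) ^ (1 / 4 : ℝ))) ^ 2 ≤
        ‖Wx c k r (s + ∑ i, (a i : ℝ) * ξ i) y‖ ^ 2 :=
      pow_le_pow_left₀ (by positivity) hr3.le 2
    refine le_trans ?_ h5
    rw [mul_pow]
    apply mul_le_mul_of_nonneg_left _ (by positivity)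
    have f1 : ((r : ℝ) ^ (3 / 4 : ℝ)) ^ 2 = r * Real.sqrt r := by
      rw [← Real.rpow_natCast ((r : ℝ) ^ (3 / 4 : ℝ)) 2, ← Real.rpow_mul hr0.le, Real.sqrt_eq_rpow]
      nth_rewrite 2 [← Real.rpow_one (r : ℝ)]
      rw [← Real.rpow_add hr0]
      norm_num
    have f2 : (((r : ℝ) ^ (k + 1) / N) ^ (1 / 4 : ℝ)) ^ 2 = Real.sqrt ((r : ℝ) ^ (k + 1) / N) := by
      rw [← Real.rpow_natCast (((r : ℝ) ^ (k + 1) / N) ^ (1 / 4 : ℝ)) 2,
        ← Real.rpow_mul (by positivity), Real.sqrt_eq_rpow]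
      norm_num
    have f3 : X * Real.sqrt X ≤ r * Real.sqrt r :=
      mul_le_mul hrR (Real.sqrt_le_sqrt hrR) (Real.sqrt_nonneg _) hr0.le
    have f4 : X * Real.sqrt (X ^ (k - 1) / N) ≤ Real.sqrt ((r : ℝ) ^ (k + 1) / N) := by
      have g1 : X * Real.sqrt (X ^ (k - 1) / N) = Real.sqrt (X ^ (k + 1) / N) := by
        have g2 : X ^ (k + 1) / N = X ^ 2 * (X ^ (k - 1) / N) := by
          rw [← mul_div_assoc, ← pow_add]
          congr 2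
          omega
        rw [g2, Real.sqrt_mul (by positivity), Real.sqrt_sq hX0.le]
      rw [g1]
      apply Real.sqrt_le_sqrt
      exact div_le_div_of_nonneg_right (pow_le_pow_left₀ hX0.le hrR _) hN0.le
    have f5 : 0 ≤ (r : ℝ) ^ (3 / 4 : ℝ) * ((r : ℝ) ^ (k + 1) / N) ^ (1 / 4 : ℝ) := by positivity
    have f6 : ((r : ℝ) ^ (3 / 4 : ℝ) + ((r : ℝ) ^ (k + 1) / N) ^ (1 / 4 : ℝ)) ^ 2 =
        ((r : ℝ) ^ (3 / 4 : ℝ)) ^ 2 + (((r : ℝ) ^ (k + 1) / N) ^ (1 / 4 : ℝ)) ^ 2 +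
        2 * ((r : ℝ) ^ (3 / 4 : ℝ) * ((r : ℝ) ^ (k + 1) / N) ^ (1 / 4 : ℝ)) := by ring
    rw [f6, f1, f2, mul_add]
    linarith
  have h6 := markov S (box T B) hS (fun a => U1 c k (j + 2) (s + ∑ i, (a i : ℝ) * ξ i))
    (fun a => U1_nonneg c k (j + 2) _) _ h2 _ h1
  have hden : (0 : ℝ) < X * (Real.sqrt X + Real.sqrt (X ^ (k - 1) / N)) := by
    have := Real.sqrt_pos.2 hX0
    positivity
  apply le_of_mul_le_mul_right _ hden
  have hlamle : lam ≤ (2 + C * Real.sqrt (2 * 4 ^ (k - 1) * C)) * (B : ℝ) ^ (δ / 4) *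
      (Real.sqrt X + Real.sqrt (X ^ (k - 1) / N)) := by
    have g1 : lam ≤ Real.sqrt (4 * X) + Real.sqrt (2 * (m ^ 2 * m * (4 * X) ^ (k - 1)) / N) := by
      rw [hlam]
      exact sqrt_add_le' _ _ (by positivity) (by positivity)
    have g2 : Real.sqrt (4 * X) = 2 * Real.sqrt X := by
      rw [Real.sqrt_mul (by norm_num), show (4 : ℝ) = 2 ^ 2 by norm_num,
        Real.sqrt_sq (by norm_num)]
    have g3 : Real.sqrt (2 * (m ^ 2 * m * (4 * X) ^ (k - 1)) / N) =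
        m * Real.sqrt (2 * 4 ^ (k - 1) * m) * Real.sqrt (X ^ (k - 1) / N) := by
      have g4 : 2 * (m ^ 2 * m * (4 * X) ^ (k - 1)) / N =
          m ^ 2 * ((2 * 4 ^ (k - 1) * m) * (X ^ (k - 1) / N)) := by
        rw [mul_pow]
        ring
      rw [g4, Real.sqrt_mul (by positivity), Real.sqrt_sq (by linarith),
        Real.sqrt_mul (by positivity)]
      ring
    have hq4 : (B : ℝ) ^ (δ / 4) = q * q := by
      rw [hq, ← Real.rpow_add hB0]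
      congr 1
      ring
    have g5 : m * Real.sqrt (2 * 4 ^ (k - 1) * m) ≤
        C * Real.sqrt (2 * 4 ^ (k - 1) * C) * (q * q) := by
      have g6 : Real.sqrt (2 * 4 ^ (k - 1) * m) = Real.sqrt (2 * 4 ^ (k - 1) * C) * Real.sqrt q := by
        rw [← Real.sqrt_mul (by positivity)]
        congr 1
        rw [hm]; ring
      have g7 : Real.sqrt q ≤ q := Real.sqrt_le_iff.2 ⟨by linarith, by
        rw [sq]; exact le_mul_of_one_le_left (by linarith) hq1⟩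
      rw [g6, hm]
      calc C * q * (Real.sqrt (2 * 4 ^ (k - 1) * C) * Real.sqrt q)
          = C * Real.sqrt (2 * 4 ^ (k - 1) * C) * (q * Real.sqrt q) := by ring
        _ ≤ _ := by
            apply mul_le_mul_of_nonneg_left _ (by positivity)
            exact mul_le_mul_of_nonneg_left g7 (by linarith)
    refine g1.trans ?_
    rw [g2, g3, hq4]
    have g8 : 0 ≤ Real.sqrt X := Real.sqrt_nonneg _
    have g9 : 0 ≤ Real.sqrt (X ^ (k - 1) / N) := Real.sqrt_nonneg _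
    have g10 : (1 : ℝ) ≤ q * q := one_le_mul_of_one_le_of_one_le hq1 hq1
    have g11 : 0 ≤ C * Real.sqrt (2 * 4 ^ (k - 1) * C) := by positivity
    have k0 : ∀ g : ℝ, 0 ≤ g → 2 ≤ (2 + g) * (q * q) ∧ g * (q * q) ≤ (2 + g) * (q * q) :=
      fun g hg => k0aux (q * q) g10 g hg
    have k1 : 2 * Real.sqrt X ≤ (2 + C * Real.sqrt (2 * 4 ^ (k - 1) * C)) * (q * q) * Real.sqrt X :=
      mul_le_mul_of_nonneg_right (k0 _ g11).1 g8
    have k2 : m * Real.sqrt (2 * 4 ^ (k - 1) * m) * Real.sqrt (X ^ (k - 1) / N) ≤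
        (2 + C * Real.sqrt (2 * 4 ^ (k - 1) * C)) * (q * q) * Real.sqrt (X ^ (k - 1) / N) := by
      apply mul_le_mul_of_nonneg_right _ g9
      exact g5.trans (k0 _ g11).2
    rw [mul_add]
    linarith
  calc (S.card : ℝ) * W ^ 2 * (X * (Real.sqrt X + Real.sqrt (X ^ (k - 1) / N)))
      = (S.card : ℝ) * (W ^ 2 * (X * (Real.sqrt X + Real.sqrt (X ^ (k - 1) / N)))) := by ring
    _ ≤ 3 * ((j + 2 : ℕ) : ℝ) ^ 2 * (4 * X * N) * lam := h6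
    _ ≤ 3 * ((j + 2 : ℕ) : ℝ) ^ 2 * (4 * X * N) *
          ((2 + C * Real.sqrt (2 * 4 ^ (k - 1) * C)) * (B : ℝ) ^ (δ / 4) *
            (Real.sqrt X + Real.sqrt (X ^ (k - 1) / N))) :=
        mul_le_mul_of_nonneg_left hlamle (by positivity)
    _ = ((j : ℝ) + 2) ^ 2 * (12 * (2 + C * Real.sqrt (2 * 4 ^ (k - 1) * C)) * (B : ℝ) ^ (δ / 4)) * N *
          (X * (Real.sqrt X + Real.sqrt (X ^ (k - 1) / N))) := by
        push_cast
        ring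

end Pool.Agent.X1.SchP
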