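import Mathlib
import Pool.Agent.X1.NfaAper

/-!
# Expansions with arbitrary bounded integer digits

Periodic stretches of sequences of integers `d` with `F (m + 1) = b F m + d m` and
`|b ^ m X - F m| ≤ C`, where `X` is an irrational algebraic number; many accepted words over an
infinite alphabet.
-/

set_option autoImplicit false

namespace Pool.Agent.X1.NfaAlg

open Finset Pool.Agent.X3.NfaWords

/-- the remainders of two places which agree along `l` digits -/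
lemma rem_agree {b : ℕ} {X : ℝ} {d F : ℕ → ℤ} (hF : ∀ m, F (m + 1) = b * F m + d m) (N s l : ℕ)
    (h : ∀ i, N ≤ i → i < N + l → d (i + s) = d i) :
    (b : ℝ) ^ l * (((b : ℝ) ^ (N + s) * X - F (N + s)) - ((b : ℝ) ^ N * X - F N)) =
      ((b : ℝ) ^ (N + l + s) * X - F (N + l + s)) - ((b : ℝ) ^ (N + l) * X - F (N + l)) := by
  induction l with
  | zero => simp
  | succ l ih =>
    have ih' := ih (fun i hi1 hi2 => h i hi1 (by omega))
    have h1 := h (N + l) (by omega) (by omega)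
    have e1 : N + (l + 1) + s = (N + l + s) + 1 := by ring
    have e2 : N + (l + 1) = (N + l) + 1 := by ring
    have h2 : (F (N + l + s + 1) : ℝ) = b * F (N + l + s) + d (N + l + s) := by
      exact_mod_cast hF (N + l + s)
    have h3 : (F (N + l + 1) : ℝ) = b * F (N + l) + d (N + l) := by
      exact_mod_cast hF (N + l)
    have h4 : (d (N + l + s) : ℝ) = d (N + l) := by exact_mod_cast h1
    rw [e1, e2, h2, h3, h4]
    have e3 : (b : ℝ) ^ (l + 1) * (((b : ℝ) ^ (N + s) * X - F (N + s)) - ((b : ℝ) ^ N * X - F N)) =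
        b * ((b : ℝ) ^ l * (((b : ℝ) ^ (N + s) * X - F (N + s)) - ((b : ℝ) ^ N * X - F N))) := by
      ring
    rw [e3, ih']
    ring

set_option maxHeartbeats 1000000 in
/-- Ridout's theorem for expansions with integer digits -/
theorem lin_noPer {X : ℝ} (halg : IsAlgebraic ℚ X) (hirr : Irrational X) {b : ℕ} (hb : 2 ≤ b)
    (C : ℝ) (ε : ℝ) (hε : 0 < ε) (hε1 : ε ≤ 1 / 2) :
    ∃ N₀ : ℕ, ∀ d F : ℕ → ℤ, (∀ m, F (m + 1) = b * F m + d m) →
      (∀ m, |(b : ℝ) ^ m * X - F m| ≤ C) → NoPer2 d (1 + ε) (5 / 2) N₀ := by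
  obtain ⟨c, hc, hR⟩ := Pool.Agent.TH629.RidM.ridout_meas X halg hirr b.primeFactors
    (fun p hp => Nat.prime_of_mem_primeFactors hp) (ε / 2) (by positivity)
  obtain ⟨C', hC'⟩ : ∃ C', C' = |C| + 1 := ⟨_, rfl⟩
  have hC'0 : 0 < C' := by rw [hC']; positivity
  obtain ⟨G, hG⟩ : ∃ G, G = |Real.log (2 * C' / c)| / Real.log 2 + 1 := ⟨_, rfl⟩
  obtain ⟨N₀, hN₀⟩ := exists_nat_gt ((G + 2) / (ε / 2))
  refine ⟨N₀, fun d F hF hr N hN s hs => ?_⟩
  have hl2 : 0 < Real.log 2 := Real.log_pos (by norm_num)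
  have hbR : (2 : ℝ) ≤ b := by exact_mod_cast hb
  have hb0 : (0 : ℝ) < b := by linarith
  have hlb : 0 < Real.log b := Real.log_pos (by linarith)
  have hlb2 : Real.log 2 ≤ Real.log b := Real.log_le_log (by norm_num) hbR
  have hNR : (N₀ : ℝ) ≤ N := by exact_mod_cast hN
  have hsR : (1 : ℝ) ≤ s := by exact_mod_cast hs
  have hG0 : 0 < G := by rw [hG]; positivity
  have hbig : G + 2 < ε / 2 * N := by
    rw [div_lt_iff₀ (by positivity)] at hN₀
    nlinarith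
  obtain ⟨l, hl⟩ : ∃ l, l = ⌈ε / 2 * N + (1 + ε / 2) * s + G⌉₊ := ⟨_, rfl⟩
  have hl1 : ε / 2 * N + (1 + ε / 2) * s + G ≤ l := by
    rw [hl]; exact Nat.le_ceil _
  have hl3 : (l : ℝ) < ε / 2 * N + (1 + ε / 2) * s + G + 1 := by
    rw [hl]; exact Nat.ceil_lt_add_one (by positivity)
  by_contra hcon
  push Not at hcon
  have hag := rem_agree (X := X) hF N s l (by
    intro i hi1 hi2
    refine hcon i hi1 ?_
    have h2 : (i : ℝ) ≤ ((N + l : ℕ) : ℝ) := by exact_mod_cast hi2.le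
    push_cast at h2 ⊢
    nlinarith)
  have hup : (b : ℝ) ^ l * |((b : ℝ) ^ (N + s) * X - F (N + s)) - ((b : ℝ) ^ N * X - F N)| ≤
      2 * C' := by
    have h0 : (0 : ℝ) < (b : ℝ) ^ l := by positivity
    have e0 : (b : ℝ) ^ l * |((b : ℝ) ^ (N + s) * X - F (N + s)) - ((b : ℝ) ^ N * X - F N)| =
        |((b : ℝ) ^ (N + l + s) * X - F (N + l + s)) - ((b : ℝ) ^ (N + l) * X - F (N + l))| := by
      rw [← hag, abs_mul, abs_of_pos h0]
    rw [e0]
    have a1 := hr (N + l + s)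
    have a2 := hr (N + l)
    have a3 : C ≤ C' := by rw [hC']; linarith [le_abs_self C]
    refine (abs_sub _ _).trans ?_
    linarith
  have hbs : 1 ≤ b ^ s := Nat.one_le_pow _ _ (by omega)
  have hbs1 : 1 ≤ b ^ s - 1 := by
    have : b ^ 1 ≤ b ^ s := Nat.pow_le_pow_right (by omega) hs
    rw [pow_one] at this
    omega
  obtain ⟨Q, hQ⟩ : ∃ Q : ℕ, Q = b ^ N * (b ^ s - 1) := ⟨_, rfl⟩
  have hQ1 : 1 ≤ Q := by rw [hQ]; exact Nat.mul_pos (by positivity) hbs1
  have hQR : (Q : ℝ) = (b : ℝ) ^ (N + s) - (b : ℝ) ^ N := by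
    rw [hQ]
    push_cast [Nat.cast_sub hbs]
    rw [pow_add]
    ring
  have hRQ := hR Q hQ1 (b ^ N) (by rw [hQ]; exact Dvd.intro _ rfl)
    (fun p hp hpd => Nat.mem_primeFactors.2 ⟨hp, hp.dvd_of_dvd_pow hpd, by omega⟩)
    (F (N + s) - F N)
  obtain ⟨D, hD⟩ : ∃ D : ℝ, D = |(Q : ℝ) * X - ((F (N + s) - F N : ℤ) : ℝ)| := ⟨_, rfl⟩
  have hDe : D = |((b : ℝ) ^ (N + s) * X - F (N + s)) - ((b : ℝ) ^ N * X - F N)| := by
    rw [hD, hQR]
    congr 1
    push_cast
    ring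
  rw [← hDe] at hup
  rw [← hD] at hRQ
  have hD0 : 0 ≤ D := by rw [hD]; exact abs_nonneg _
  have hQpos : (0 : ℝ) < Q := by exact_mod_cast hQ1
  have hQle : (Q : ℝ) ≤ (b : ℝ) ^ (N + s) := by
    rw [hQR]
    have : (0 : ℝ) < (b : ℝ) ^ N := by positivity
    linarith
  have h1 : c * (b : ℝ) ^ N * (b : ℝ) ^ l ≤ (Q : ℝ) ^ (1 + ε / 2) * (2 * C') := by
    have h2 : 0 < (Q : ℝ) ^ (1 + ε / 2) := Real.rpow_pos_of_pos hQpos _
    calc c * (b : ℝ) ^ N * (b : ℝ) ^ l ≤ (Q : ℝ) ^ (1 + ε / 2) * D * (b : ℝ) ^ l := by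
          apply mul_le_mul_of_nonneg_right _ (by positivity)
          push_cast at hRQ
          exact hRQ
      _ = (Q : ℝ) ^ (1 + ε / 2) * ((b : ℝ) ^ l * D) := by ring
      _ ≤ (Q : ℝ) ^ (1 + ε / 2) * (2 * C') := mul_le_mul_of_nonneg_left hup h2.le
  have h1' : (b : ℝ) ^ N * (b : ℝ) ^ l ≤ (Q : ℝ) ^ (1 + ε / 2) * (2 * C' / c) := by
    have e : (Q : ℝ) ^ (1 + ε / 2) * (2 * C' / c) = (Q : ℝ) ^ (1 + ε / 2) * (2 * C') / c := by ring
    rw [e, le_div_iff₀ hc]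
    calc (b : ℝ) ^ N * (b : ℝ) ^ l * c = c * (b : ℝ) ^ N * (b : ℝ) ^ l := by ring
      _ ≤ _ := h1
  have hrp : (0 : ℝ) < (Q : ℝ) ^ (1 + ε / 2) := Real.rpow_pos_of_pos hQpos _
  have h2 := Real.log_le_log (by positivity) h1'
  rw [Real.log_mul (by positivity) (by positivity), Real.log_mul hrp.ne' (by positivity),
    Real.log_pow, Real.log_pow, Real.log_rpow hQpos] at h2
  have h3 : Real.log Q ≤ (N + s) * Real.log b := by
    have := Real.log_le_log hQpos hQle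
    rw [Real.log_pow] at this
    push_cast at this
    exact this
  have h4 : (1 + ε / 2) * Real.log Q ≤ (1 + ε / 2) * ((N + s) * Real.log b) :=
    mul_le_mul_of_nonneg_left h3 (by positivity)
  have h5 : Real.log (2 * C' / c) < G * Real.log b := by
    have h6 : |Real.log (2 * C' / c)| / Real.log 2 * Real.log 2 ≤
        |Real.log (2 * C' / c)| / Real.log 2 * Real.log b :=
      mul_le_mul_of_nonneg_left hlb2 (by positivity)
    rw [div_mul_cancel₀ _ hl2.ne'] at h6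
    have h7 := le_abs_self (Real.log (2 * C' / c))
    have h8 : G * Real.log b =
        |Real.log (2 * C' / c)| / Real.log 2 * Real.log b + Real.log b := by
      rw [hG]; ring
    linarith
  have h6 : ((N : ℝ) + l) * Real.log b < ((1 + ε / 2) * (N + s) + G) * Real.log b := by
    have e1 : ((N : ℝ) + l) * Real.log b = N * Real.log b + l * Real.log b := by ring
    have e2 : ((1 + ε / 2) * ((N : ℝ) + s) + G) * Real.log b =
        (1 + ε / 2) * ((N + s) * Real.log b) + G * Real.log b := by ring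
    rw [e1, e2]
    linarith
  have h7 : (N : ℝ) + l < (1 + ε / 2) * (N + s) + G := lt_of_mul_lt_mul_right h6 hlb.le
  have h8 : (1 + ε / 2) * ((N : ℝ) + s) = N + ε / 2 * N + (1 + ε / 2) * s := by ring
  linarith

/-- many words, over any alphabet -/
theorem aper_words_inf {δ C : ℝ} (hδ : 0 < δ) (hC : 0 ≤ C) : ∃ T : ℕ, 2 ≤ T ∧ ∀ (A : ℝ) (N₀ : ℕ),
    0 ≤ A → ∃ N₁ : ℕ, ∀ (α σ : Type) [DecidableEq α] [Fintype σ] (z : ℕ → α),
    NoPer2 z (1 + 1 / (T : ℝ)) A N₀ → ∀ (M : NFA α σ) (N : ℕ), N₁ ≤ N →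
      (Fintype.card σ : ℝ) ≤ (N : ℝ) ^ (1 - δ) → ∀ d : ℕ → α,
      (((Finset.range N).filter fun i => d i ≠ z i).card : ℝ) ≤ C * Real.log N →
      (List.range N).map d ∈ M.accepts →
      {w : List α | w ∈ M.accepts ∧ w.length = N}.Infinite ∨
        Real.exp (C * Real.log N ^ 2) ≤ naccG M N := by
  obtain ⟨κ, hκ⟩ : ∃ κ, κ = 4 * (C + 1) / δ := ⟨_, rfl⟩
  have hκ0 : 0 < κ := by rw [hκ]; positivity
  have hκδ : κ * δ = 4 * (C + 1) := by rw [hκ]; field_simp
  obtain ⟨T, hT⟩ := exists_nat_gt (2 * (κ + C) / δ + 2)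
  have hpos : 0 ≤ 2 * (κ + C) / δ := by positivity
  have hT2 : 2 ≤ T := by
    have : (2 : ℝ) < T := by linarith
    exact_mod_cast this.le
  have hTR : (0 : ℝ) < T := by linarith
  obtain ⟨ρ, hρe⟩ : ∃ ρ : ℝ, ρ = 1 + 1 / (T : ℝ) := ⟨_, rfl⟩
  have hρ : 1 < ρ := by
    rw [hρe]
    have : 0 < 1 / (T : ℝ) := by positivity
    linarith
  have hlog : Real.log ρ ≤ 1 / (T : ℝ) := by
    have := Real.log_le_sub_one_of_pos (show 0 < ρ by linarith)
    rw [hρe] at this ⊢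
    linarith
  have hkey : (κ + C) * Real.log ρ ≤ δ / 2 := by
    have h1 : (κ + C) * Real.log ρ ≤ (κ + C) * (1 / (T : ℝ)) :=
      mul_le_mul_of_nonneg_left hlog (by positivity)
    have h2 : (κ + C) * (1 / (T : ℝ)) ≤ δ / 2 := by
      rw [mul_one_div, div_le_iff₀ hTR]
      have h3 : 2 * (κ + C) / δ < T := by linarith
      rw [div_lt_iff₀ hδ] at h3
      linarith
    linarith
  have hc : C < κ * (δ - (κ + C) * Real.log ρ) := by
    have h1 : κ * (δ / 2) ≤ κ * (δ - (κ + C) * Real.log ρ) :=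
      mul_le_mul_of_nonneg_left (by linarith) hκ0.le
    linarith
  refine ⟨T, hT2, fun A N₀ hA => ?_⟩
  rw [← hρe]
  obtain ⟨D, hD, hmain⟩ := many_geo2 hρ hA N₀
  obtain ⟨N₁, hnum⟩ := num_words2 hρ hκ0 hc hC hD
  refine ⟨N₁, fun α σ _ _ z hz M N hN hq d hk hacc => ?_⟩
  by_cases hfin : {w : List α | w ∈ M.accepts ∧ w.length = N}.Infinite
  · exact Or.inl hfin
  right
  rw [Set.not_infinite] at hfin
  have hge : ∀ W : Finset (List α), (∀ w ∈ W, w.length = N ∧ w ∈ M.accepts) →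
      W.card ≤ naccG M N := by
    intro W hW
    have : ((W : Set (List α))).ncard ≤ {w : List α | w ∈ M.accepts ∧ w.length = N}.ncard :=
      Set.ncard_le_ncard (fun w hw => ⟨(hW w hw).2, (hW w hw).1⟩) hfin
    rwa [Set.ncard_coe_finset] at this
  have hpos1 : 1 ≤ naccG M N := by
    have := hge {(List.range N).map d} (fun w hw => by
      rw [Finset.mem_singleton] at hw
      subst hw
      exact ⟨by simp, hacc⟩)
    simpa using this
  refine hnum N (Fintype.card σ) _ hN (cardG_pos hacc) hq hk (naccG M N)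
    (by exact_mod_cast hpos1) (fun K hK => ?_)
  obtain ⟨W, hW1, hW2⟩ := hmain α σ z hz d M N (by rw [seg_zero]; exact hacc)
    ((Finset.range N).filter fun i => d i ≠ z i) (by
      intro i hi hn
      by_contra hne
      exact hn (Finset.mem_filter.2 ⟨Finset.mem_range.2 hi, hne⟩)) K hK
  refine hW2.trans (mul_le_mul_of_nonneg_left ?_ (Nat.cast_nonneg _))
  exact_mod_cast hge W hW1

/-- many states, over any alphabet -/
theorem aper_states_inf {ε : ℝ} (hε : 0 < ε) : ∃ T : ℕ, 2 ≤ T ∧ ∀ (A : ℝ) (N₀ : ℕ),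
    0 ≤ A → ∃ N₁ : ℕ, ∀ (α σ : Type) [Fintype σ] (z : ℕ → α),
    NoPer2 z (1 + 1 / (T : ℝ)) A N₀ → ∀ (M : NFA α σ) (N : ℕ), N₁ ≤ N →
      (List.range N).map z ∈ M.accepts →
      (∀ w ∈ M.accepts, w.length = N → w = (List.range N).map z) →
      (N : ℝ) * Real.exp (-(ε * √(Real.log N))) ≤ Fintype.card σ := by
  obtain ⟨T, hT⟩ := exists_nat_gt ((4 / ε) ^ 2 + 2)
  have hsq : 0 ≤ (4 / ε) ^ 2 := sq_nonneg _
  have hT2 : 2 ≤ T := by
    have : (2 : ℝ) < T := by linarith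
    exact_mod_cast this.le
  have hTR : (0 : ℝ) < T := by linarith
  obtain ⟨ρ, hρe⟩ : ∃ ρ : ℝ, ρ = 1 + 1 / (T : ℝ) := ⟨_, rfl⟩
  have hρ : 1 < ρ := by
    rw [hρe]
    have : 0 < 1 / (T : ℝ) := by positivity
    linarith
  have hlog : Real.log ρ ≤ 1 / (T : ℝ) := by
    have := Real.log_le_sub_one_of_pos (show 0 < ρ by linarith)
    rw [hρe] at this ⊢
    linarith
  have hc : 2 * √(Real.log ρ) < ε := by
    have h1 : √(Real.log ρ) ≤ ε / 4 := by
      apply Real.sqrt_le_iff.2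
      refine ⟨by positivity, hlog.trans ?_⟩
      rw [div_le_iff₀ hTR]
      have h2 : (4 / ε) ^ 2 < T := by linarith
      rw [div_pow, div_lt_iff₀ (by positivity)] at h2
      nlinarith
    linarith
  refine ⟨T, hT2, fun A N₀ hA => ?_⟩
  rw [← hρe]
  obtain ⟨D, hD, hmain⟩ := many_geo2 hρ hA N₀
  obtain ⟨N₁, hnum⟩ := num_states2 hρ hc hD
  refine ⟨N₁, fun α σ _ z hz M N hN hacc huniq => ?_⟩
  refine hnum N (Fintype.card σ) hN (cardG_pos hacc) (fun K hK => ?_)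
  obtain ⟨W, hW1, hW2⟩ := hmain α σ z hz z M N (by rw [seg_zero]; exact hacc) ∅
    (fun i _ _ => rfl) K hK
  have h2 : W.card ≤ 1 := by
    rw [Finset.card_le_one]
    intro u hu v hv
    rw [huniq u (hW1 u hu).2 (hW1 u hu).1, huniq v (hW1 v hv).2 (hW1 v hv).1]
  have h3 : (W.card : ℝ) ≤ 1 := by exact_mod_cast h2
  rw [card_empty, Nat.add_zero] at hW2
  refine hW2.trans ?_
  have : (0 : ℝ) ≤ N := Nat.cast_nonneg _
  nlinarith

end Pool.Agent.X1.NfaAlg
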