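import Mathlib
import Pool.Agent.X1.NfaLin

/-!
# Linear block codes of the digits of several algebraic numbers
-/

set_option autoImplicit false

namespace Pool.Agent.X1.NfaAlg

open Finset Pool.Agent.X3.NfaWords

/-- integer linear block codes of the digits of a tuple of algebraic numbers have no long periodic
stretches -/
theorem code_noPer {n m : ℕ} (α : Fin n → ℝ) (halg : ∀ j, IsAlgebraic ℚ (α j))
    (hind : LinearIndependent ℚ (Fin.cons 1 α : Fin (n + 1) → ℝ)) {b : ℕ} (hb : 2 ≤ b)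
    (c : Fin n → Fin m → ℤ) (hc : ∃ j, ∑ t, c j t * (b : ℤ) ^ (t : ℕ) ≠ 0)
    (ε : ℝ) (hε : 0 < ε) (hε1 : ε ≤ 1 / 2) :
    ∃ N₀ : ℕ, NoPer2 (fun i => ∑ j, ∑ t, c j t * (⌊(b : ℝ) ^ (i + (t : ℕ) + 1) * α j⌋ -
      b * ⌊(b : ℝ) ^ (i + (t : ℕ)) * α j⌋)) (1 + ε) (5 / 2) N₀ := by
  obtain ⟨X, hX⟩ : ∃ X : ℝ, X = ∑ j, ∑ t, (c j t : ℝ) * ((b : ℝ) ^ (t : ℕ) * α j) := ⟨_, rfl⟩
  have hXalg : IsAlgebraic ℚ X := by
    rw [hX, isAlgebraic_iff_isIntegral]
    refine IsIntegral.sum _ fun j _ => IsIntegral.sum _ fun t _ => ?_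
    rw [← isAlgebraic_iff_isIntegral]
    refine IsAlgebraic.mul ?_ (IsAlgebraic.mul ?_ (halg j))
    · exact isAlgebraic_int _
    · exact (isAlgebraic_nat _).pow _
  have hX2 : X = ∑ j, ((∑ t, c j t * (b : ℤ) ^ (t : ℕ) : ℤ) : ℝ) * α j := by
    rw [hX]
    refine Finset.sum_congr rfl fun j _ => ?_
    push_cast
    rw [Finset.sum_mul]
    refine Finset.sum_congr rfl fun t _ => ?_
    ring
  have hXirr : Irrational X := by
    rintro ⟨r, hr⟩
    rw [Fintype.linearIndependent_iff] at hind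
    obtain ⟨j, hj⟩ := hc
    have h := hind (Fin.cons (-r) fun j => ((∑ t, c j t * (b : ℤ) ^ (t : ℕ) : ℤ) : ℚ)) (by
      rw [Fin.sum_univ_succ]
      simp only [Fin.cons_zero, Fin.cons_succ, Rat.smul_def]
      have e : ∑ x, (((∑ t, c x t * (b : ℤ) ^ (t : ℕ) : ℤ) : ℚ) : ℝ) * α x = X := by
        rw [hX2]
        refine Finset.sum_congr rfl fun j _ => ?_
        push_cast
        rfl
      rw [e, ← hr]
      push_cast
      ring) j.succ
    simp only [Fin.cons_succ] at h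
    exact hj (by exact_mod_cast h)
  obtain ⟨N₀, hN₀⟩ := lin_noPer hXalg hXirr hb (∑ j, ∑ t, |(c j t : ℝ)|) ε hε hε1
  refine ⟨N₀, hN₀ _ (fun i => ∑ j, ∑ t, c j t * ⌊(b : ℝ) ^ (i + (t : ℕ)) * α j⌋) ?_ ?_⟩
  · intro i
    rw [Finset.mul_sum, ← Finset.sum_add_distrib]
    refine Finset.sum_congr rfl fun j _ => ?_
    rw [Finset.mul_sum, ← Finset.sum_add_distrib]
    refine Finset.sum_congr rfl fun t _ => ?_
    have e : i + 1 + (t : ℕ) = i + (t : ℕ) + 1 := by ring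
    rw [e]
    ring
  · intro i
    have e : (b : ℝ) ^ i * X - ((∑ j, ∑ t, c j t * ⌊(b : ℝ) ^ (i + (t : ℕ)) * α j⌋ : ℤ) : ℝ) =
        ∑ j, ∑ t, (c j t : ℝ) * ((b : ℝ) ^ (i + (t : ℕ)) * α j -
          ⌊(b : ℝ) ^ (i + (t : ℕ)) * α j⌋) := by
      rw [hX, Finset.mul_sum]
      push_cast
      rw [← Finset.sum_sub_distrib]
      refine Finset.sum_congr rfl fun j _ => ?_
      rw [Finset.mul_sum, ← Finset.sum_sub_distrib]
      refine Finset.sum_congr rfl fun t _ => ?_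
      rw [pow_add]
      ring
    rw [e]
    refine (Finset.abs_sum_le_sum_abs _ _).trans (Finset.sum_le_sum fun j _ => ?_)
    refine (Finset.abs_sum_le_sum_abs _ _).trans (Finset.sum_le_sum fun t _ => ?_)
    rw [abs_mul]
    refine mul_le_of_le_one_right (abs_nonneg _) ?_
    have a1 := Int.floor_le ((b : ℝ) ^ (i + (t : ℕ)) * α j)
    have a2 := Int.lt_floor_add_one ((b : ℝ) ^ (i + (t : ℕ)) * α j)
    rw [abs_le]
    constructor <;> linarith

end Pool.Agent.X1.NfaAlg
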