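import Mathlib

/-!
# The Thue–Morse-twisted Fibonacci sequence: basic structure

`h 0 = 0`, `h 1 = 1`, `h n = t n * h (n - 1) + h (n - 2)` with the Thue–Morse sequence `t n = ±1`.
We reduce it to `G n = - h (2 n)`, which satisfies `G (n + 2) = G (n + 1) + (-1)^{v_2(n+2)} G n`.
-/

set_option autoImplicit false

namespace Pool.Agent.X1.TMFib

/-- The Thue–Morse sequence `t_n = (-1)^{s_2(n)}`, where `s_2(n)` is the sum of the binary digits. -/
def t (n : ℕ) : ℤ := (-1) ^ (Nat.digits 2 n).sum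

/-- The sequence `h_0 = 0`, `h_1 = 1`, `h_n = t_n h_{n-1} + h_{n-2}`. -/
def h : ℕ → ℤ
  | 0 => 0
  | 1 => 1
  | n + 2 => t (n + 2) * h (n + 1) + h n

lemma t_two_mul (n : ℕ) : t (2 * n) = t n := by
  unfold t
  rcases Nat.eq_zero_or_pos n with rfl | hn
  · simp
  · rw [Nat.digits_def' (by norm_num) (by omega)]
    simp

lemma t_two_mul_add_one (n : ℕ) : t (2 * n + 1) = - t n := by
  unfold t
  rw [Nat.digits_def' (by norm_num) (by omega)]
  have h1 : (2 * n + 1) % 2 = 1 := by omega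
  have h2 : (2 * n + 1) / 2 = n := by omega
  rw [h1, h2]
  simp [pow_add]

lemma t_sq (n : ℕ) : t n * t n = 1 := by
  unfold t
  rw [← pow_add, ← two_mul, pow_mul]
  simp

/-- The sign `(-1)^{v_2(n)}`. -/
def p (n : ℕ) : ℤ := (-1) ^ (padicValNat 2 n)

lemma p_odd (n : ℕ) : p (2 * n + 1) = 1 := by
  unfold p
  rw [padicValNat.eq_zero_of_not_dvd (by omega)]
  simp

lemma p_two_mul (n : ℕ) (hn : 0 < n) : p (2 * n) = - p n := by
  unfold p
  rw [padicValNat.mul (by norm_num) (by omega)]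
  simp [pow_add]

lemma p_pm (n : ℕ) : p n = 1 ∨ p n = -1 := by
  unfold p
  rcases Nat.even_or_odd (padicValNat 2 n) with h | h
  · left; exact h.neg_one_pow
  · right; exact h.neg_one_pow

lemma t_mul_t (n : ℕ) : t n * t (n + 1) = - p (n + 1) := by
  induction n using Nat.strong_induction_on with
  | _ n ih =>
    obtain ⟨m, hm | hm⟩ := Nat.even_or_odd' n
    · subst hm
      rw [t_two_mul_add_one, t_two_mul, p_odd]
      have := t_sq m
      linarith
    · subst hm
      have h1 : 2 * m + 1 + 1 = 2 * (m + 1) := by ring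
      rw [h1, t_two_mul_add_one, t_two_mul, p_two_mul _ (by omega)]
      have := ih m (by omega)
      linarith

lemma h_odd (n : ℕ) : h (2 * n + 3) = - t (n + 1) * h (2 * n) := by
  have h1 : h (2 * n + 3) = t (2 * n + 3) * h (2 * n + 2) + h (2 * n + 1) := rfl
  have h2 : h (2 * n + 2) = t (2 * n + 2) * h (2 * n + 1) + h (2 * n) := rfl
  have h3 : t (2 * n + 3) = - t (n + 1) := by
    rw [show 2 * n + 3 = 2 * (n + 1) + 1 by ring, t_two_mul_add_one]
  have h4 : t (2 * n + 2) = t (n + 1) := by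
    rw [show 2 * n + 2 = 2 * (n + 1) by ring, t_two_mul]
  rw [h1, h2, h3, h4]
  have := t_sq (n + 1)
  linear_combination (- h (2 * n + 1)) * this

/-- `G n = - h (2 n)`. -/
def G (n : ℕ) : ℤ := - h (2 * n)

lemma G_zero : G 0 = 0 := by simp [G, h]

lemma G_one : G 1 = 1 := by decide

lemma G_rec (n : ℕ) : G (n + 2) = G (n + 1) + p (n + 2) * G n := by
  unfold G
  have h1 : h (2 * (n + 2)) = t (2 * (n + 2)) * h (2 * n + 3) + h (2 * (n + 1)) := rfl
  rw [h1, h_odd, t_two_mul]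
  have := t_mul_t (n + 1)
  linear_combination (h (2 * n)) * this

lemma G_two : G 2 = 1 := by decide
lemma G_three : G 3 = 2 := by decide
lemma G_four : G 4 = 3 := by decide

lemma G_odd (n : ℕ) : G (2 * n + 3) = G (2 * n + 2) + G (2 * n + 1) := by
  have h1 := G_rec (2 * n + 1)
  rw [show 2 * n + 1 + 2 = 2 * (n + 1) + 1 by ring, p_odd] at h1
  rw [show 2 * n + 3 = 2 * (n + 1) + 1 by ring, h1]
  ring

lemma abs_t (n : ℕ) : |t n| = 1 := by
  unfold t
  simp

lemma abs_h_odd (n : ℕ) : |h (2 * n + 3)| = |G n| := by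
  rw [h_odd, abs_mul, abs_neg, abs_t, one_mul, G, abs_neg]

lemma abs_h_even (n : ℕ) : |h (2 * n)| = |G n| := by
  rw [G, abs_neg]

/-- The solution of the recurrence with `y_0 = u`, `y_{-1} = v`. -/
def sol (u v : ℤ) : ℕ → ℤ
  | 0 => u
  | 1 => u + v
  | n + 2 => sol u v (n + 1) + p (n + 2) * sol u v n

lemma sol_rec (u v : ℤ) (n : ℕ) : sol u v (n + 2) = sol u v (n + 1) + p (n + 2) * sol u v n := rfl

lemma sol_linear (u v : ℤ) (n : ℕ) : sol u v n = u * sol 1 0 n + v * sol 0 1 n := by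
  induction n using Nat.twoStepInduction with
  | zero => simp [sol]
  | one => simp [sol]
  | more n ih1 ih2 =>
    rw [sol_rec, sol_rec, sol_rec, ih1, ih2]
    ring

lemma G_eq_sol (n : ℕ) : G n = sol 0 1 n := by
  induction n using Nat.twoStepInduction with
  | zero => simp [sol, G_zero]
  | one => simp [sol, G_one]
  | more n ih1 ih2 => rw [sol_rec, G_rec, ih1, ih2]

lemma sol_nonneg (u v : ℤ) (hu : 0 ≤ u) (hv : 0 ≤ v) (m : ℕ) :
    0 ≤ sol u v (2 * m) ∧ sol u v (2 * m) ≤ sol u v (2 * m + 1) := by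
  induction m with
  | zero => simp [sol, hu, hv]
  | succ m ih =>
    have h1 : sol u v (2 * (m + 1)) = sol u v (2 * m + 1) + p (2 * m + 2) * sol u v (2 * m) := rfl
    have h2 : sol u v (2 * (m + 1) + 1) = sol u v (2 * m + 2) + p (2 * m + 3) * sol u v (2 * m + 1) := rfl
    have h3 : p (2 * m + 3) = 1 := by
      rw [show 2 * m + 3 = 2 * (m + 1) + 1 by ring, p_odd]
    have h4 : sol u v (2 * (m + 1)) = sol u v (2 * m + 2) := rfl
    rw [h3] at h2
    constructor
    · rcases p_pm (2 * m + 2) with h | h <;> rw [h1, h] <;> linarith [ih.1, ih.2]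
    · rw [h2, ← h4]
      linarith [ih.1, ih.2]

lemma sol_nonneg' (u v : ℤ) (hu : 0 ≤ u) (hv : 0 ≤ v) (n : ℕ) : 0 ≤ sol u v n := by
  obtain ⟨m, hm | hm⟩ := Nat.even_or_odd' n
  · rw [hm]; exact (sol_nonneg u v hu hv m).1
  · rw [hm]; exact (sol_nonneg u v hu hv m).1.trans (sol_nonneg u v hu hv m).2

/-- `G_{2m+2} ≥ 1`, `G_{2m+1} ≥ 1`. -/
lemma G_pos_aux (m : ℕ) : 1 ≤ G (2 * m + 1) ∧ 1 ≤ G (2 * m + 2) ∧ G (2 * m + 1) ≤ G (2 * m + 3) := by
  induction m with
  | zero => rw [show 2 * 0 + 1 = 1 by ring, show 2 * 0 + 2 = 2 by ring, show 2 * 0 + 3 = 3 by ring,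
      G_one, G_two, G_three]; norm_num
  | succ m ih =>
    have h1 := G_odd m
    have h2 := G_odd (m + 1)
    have h3 := G_rec (2 * m + 2)
    have e1 : 2 * (m + 1) + 1 = 2 * m + 3 := by ring
    have e2 : 2 * (m + 1) + 2 = 2 * m + 4 := by ring
    have e3 : 2 * (m + 1) + 3 = 2 * m + 5 := by ring
    have e4 : 2 * m + 2 + 2 = 2 * m + 4 := by ring
    have e5 : 2 * m + 2 + 1 = 2 * m + 3 := by ring
    rw [e1, e2, e3] at h2
    rw [e4, e5] at h3
    rw [e1, e2, e3]
    rcases p_pm (2 * m + 4) with h | h <;> rw [h] at h3 <;> refine ⟨?_, ?_, ?_⟩ <;> linarith [ih.1, ih.2.1, ih.2.2]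

lemma G_pos (n : ℕ) (hn : 1 ≤ n) : 1 ≤ G n := by
  obtain ⟨m, hm | hm⟩ := Nat.even_or_odd' n
  · obtain ⟨m', rfl⟩ : ∃ m', m = m' + 1 := ⟨m - 1, by omega⟩
    rw [hm, show 2 * (m' + 1) = 2 * m' + 2 by ring]
    exact (G_pos_aux m').2.1
  · rw [hm]; exact (G_pos_aux m).1

lemma G_nonneg (n : ℕ) : 0 ≤ G n := by
  rcases Nat.eq_zero_or_pos n with rfl | hn
  · rw [G_zero]
  · linarith [G_pos n hn]

/-- `p (2^K a + b) = p b` for `0 < b < 2^K`. -/
lemma p_add (K a b : ℕ) (hb : 0 < b) (hb2 : b < 2 ^ K) : p (2 ^ K * a + b) = p b := by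
  unfold p
  congr 1
  have hlt : padicValNat 2 b < K := by
    by_contra hge
    push Not at hge
    have h1 : 2 ^ K ∣ b := (padicValNat_dvd_iff_le (by omega)).2 hge
    exact absurd (Nat.le_of_dvd hb h1) (by omega)
  have hb0 : b ≠ 0 := by omega
  obtain ⟨c, hc⟩ := (padicValNat_dvd_iff_le (p := 2) hb0).2 (le_refl (padicValNat 2 b))
  set v := padicValNat 2 b with hv
  have hcodd : ¬ 2 ∣ c := by
    rintro ⟨d, hd⟩
    have : 2 ^ (v + 1) ∣ b := ⟨d, by rw [hc, hd]; ring⟩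
    have := (padicValNat_dvd_iff_le (p := 2) hb0).1 this
    omega
  obtain ⟨e, he⟩ : ∃ e, K = v + 1 + e := ⟨K - v - 1, by omega⟩
  have heq : 2 ^ K * a + b = 2 ^ v * (2 * (2 ^ e * a) + c) := by
    rw [he, hc]
    ring
  rw [heq, padicValNat.mul (by positivity) (by omega), padicValNat.prime_pow,
    padicValNat.eq_zero_of_not_dvd (by omega), add_zero]

/-- `V N = G (N - 1)`, with the natural value `1` at `N = 0`. -/
def V (N : ℕ) : ℤ := if N = 0 then 1 else G (N - 1)

lemma V_zero : V 0 = 1 := rfl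
lemma V_succ (N : ℕ) : V (N + 1) = G N := by simp [V]

lemma V_pos (N : ℕ) (hN : N ≠ 1) : 1 ≤ V N := by
  unfold V
  split_ifs with h
  · exact le_rfl
  · exact G_pos _ (by omega)

lemma V_nonneg (N : ℕ) : 0 ≤ V N := by
  unfold V
  split_ifs with h
  · norm_num
  · exact G_nonneg _

/-- Transfer lemma: for `K ≥ 1` and `b < 2^K` we have `G(2^K a + b) = X_b G(2^K a) + G_b V(2^K a)`. -/
lemma transfer (K a b : ℕ) (hK : 1 ≤ K) (hb : b < 2 ^ K) :
    G (2 ^ K * a + b) = G (2 ^ K * a) * sol 1 0 b + V (2 ^ K * a) * G b := by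
  rw [G_eq_sol b, ← sol_linear]
  induction b using Nat.twoStepInduction with
  | zero => simp [sol]
  | one =>
    simp only [sol]
    obtain ⟨K', rfl⟩ : ∃ K', K = K' + 1 := ⟨K - 1, by omega⟩
    rcases Nat.eq_zero_or_pos (2 ^ (K' + 1) * a) with h0 | h0
    · rw [h0]; simp [G_zero, G_one, V_zero]
    · obtain ⟨m, hm⟩ : ∃ m, 2 ^ (K' + 1) * a = 2 * m + 2 := by
        refine ⟨2 ^ K' * a - 1, ?_⟩
        have : 2 ^ (K' + 1) * a = 2 * (2 ^ K' * a) := by ring
        have h1 : 0 < 2 ^ K' * a := by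
          by_contra hcon
          have : 2 ^ K' * a = 0 := by omega
          omega
        omega
      rw [hm, V_succ]
      exact G_odd m
  | more b ih1 ih2 =>
    have h1 := ih1 (by omega)
    have h2 := ih2 (by omega)
    rw [sol_rec, ← h1, ← h2, ← p_add K a (b + 2) (by omega) hb]
    exact G_rec (2 ^ K * a + b)

/-- `X_b ≤ G_b` for `b ≥ 1`. -/
lemma X_le_G (b : ℕ) (hb : 1 ≤ b) : sol 1 0 b ≤ G b := by
  -- `D b = G b - X b` is nonneg for `b ≥ 1`
  have key : ∀ m : ℕ, 0 ≤ G (2 * m + 2) - sol 1 0 (2 * m + 2) ∧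
      G (2 * m + 2) - sol 1 0 (2 * m + 2) ≤ G (2 * m + 3) - sol 1 0 (2 * m + 3) := by
    intro m
    induction m with
    | zero =>
      have e2 : sol 1 0 2 = 0 := by
        have : p 2 = -1 := by
          have := p_two_mul 1 (by norm_num)
          have h1 := p_odd 0
          simp at this h1
          rw [this, h1]
        have h1 : sol 1 0 2 = sol 1 0 1 + p 2 * sol 1 0 0 := rfl
        rw [h1, this]
        simp [sol]
      have e3 : sol 1 0 3 = 1 := by
        have : p 3 = 1 := p_odd 1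
        have h1 : sol 1 0 3 = sol 1 0 2 + p 3 * sol 1 0 1 := rfl
        rw [h1, this, e2]
        simp [sol]
      simp only [Nat.mul_zero, Nat.zero_add, G_two, G_three, e2, e3]
      norm_num
    | succ m ih =>
      have h1 := G_rec (2 * m + 2)
      have h2 := G_rec (2 * m + 3)
      have h3 : sol 1 0 (2 * m + 4) = sol 1 0 (2 * m + 3) + p (2 * m + 4) * sol 1 0 (2 * m + 2) := rfl
      have h4 : sol 1 0 (2 * m + 5) = sol 1 0 (2 * m + 4) + p (2 * m + 5) * sol 1 0 (2 * m + 3) := rfl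
      have h5 : p (2 * m + 5) = 1 := by
        rw [show 2 * m + 5 = 2 * (m + 2) + 1 by ring, p_odd]
      have e1 : 2 * (m + 1) + 2 = 2 * m + 4 := by ring
      have e2 : 2 * (m + 1) + 3 = 2 * m + 5 := by ring
      have e3 : 2 * m + 2 + 2 = 2 * m + 4 := by ring
      have e4 : 2 * m + 2 + 1 = 2 * m + 3 := by ring
      have e5 : 2 * m + 3 + 2 = 2 * m + 5 := by ring
      have e6 : 2 * m + 3 + 1 = 2 * m + 4 := by ring
      rw [e3, e4] at h1
      rw [e5, e6, h5] at h2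
      rw [h5] at h4
      rw [e1, e2]
      rcases p_pm (2 * m + 4) with h | h <;> rw [h] at h1 h3 <;> constructor <;>
        linarith [ih.1, ih.2]
  rcases Nat.lt_or_ge b 2 with h | h
  · have : b = 1 := by omega
    subst this
    simp [sol, G_one]
  · obtain ⟨m, hm | hm⟩ := Nat.even_or_odd' b
    · obtain ⟨m', rfl⟩ : ∃ m', m = m' + 1 := ⟨m - 1, by omega⟩
      rw [hm, show 2 * (m' + 1) = 2 * m' + 2 by ring]
      linarith [(key m').1]
    · obtain ⟨m', rfl⟩ : ∃ m', m = m' + 1 := ⟨m - 1, by omega⟩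
      rw [hm, show 2 * (m' + 1) + 1 = 2 * m' + 3 by ring]
      linarith [(key m').1, (key m').2]

end Pool.Agent.X1.TMFib
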