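import Mathlib
import Pool.Agent.X1.NfaAlg
import Pool.Agent.H43R2.Cplx.EFinal

/-!
# Automata and the digits of numbers with irrationality exponent two
-/

set_option autoImplicit false

namespace Pool.Agent.X1.NfaAlg

open Finset Pool.Agent.X3.NfaWords

/-- numbers with irrationality exponent two have no long periodic stretches of digits -/
theorem exp2_noPer {y : ℝ} (hy : 0 ≤ y) (h2 : Pool.Agent.H43R2.Cplx.Exp2 y) (ε : ℝ) (hε : 0 < ε) :
    ∃ N₀ : ℕ, ∀ (b : ℕ) [NeZero b], 2 ≤ b →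
      NoPer2 (Real.digits y b) (2 + ε) (3 + ε) N₀ := by
  obtain ⟨c, hc, hR⟩ := h2 (ε / 2) (by positivity)
  obtain ⟨N₀, hN₀⟩ := exists_nat_gt ((|Real.log c| / Real.log 2 + 2) / (ε / 2))
  refine ⟨N₀, fun b _ hb N hN s hs => ?_⟩
  have hl2 : 0 < Real.log 2 := Real.log_pos (by norm_num)
  have hbR : (2 : ℝ) ≤ b := by exact_mod_cast hb
  have hb0 : (0 : ℝ) < b := by linarith
  have hlb : 0 < Real.log b := Real.log_pos (by linarith)
  have hlb2 : Real.log 2 ≤ Real.log b := Real.log_le_log (by norm_num) hbR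
  have hNR : (N₀ : ℝ) ≤ N := by exact_mod_cast hN
  have hsR : (1 : ℝ) ≤ s := by exact_mod_cast hs
  have hbig : |Real.log c| / Real.log 2 + 2 < ε / 2 * N := by
    rw [div_lt_iff₀ (by positivity)] at hN₀
    nlinarith
  obtain ⟨l, hl⟩ : ∃ l, l = ⌈(1 + ε / 2) * (N + s) + |Real.log c| / Real.log 2⌉₊ := ⟨_, rfl⟩
  have hl1 : (1 + ε / 2) * (N + s) + |Real.log c| / Real.log 2 ≤ l := by
    rw [hl]; exact Nat.le_ceil _
  have hl3 : (l : ℝ) < (1 + ε / 2) * (N + s) + |Real.log c| / Real.log 2 + 1 := by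
    rw [hl]; exact Nat.ceil_lt_add_one (by positivity)
  have key : ∀ j : ℕ, ⌊y * (b : ℝ) ^ (j + 1)⌋ % (b : ℤ) = ((Real.digits y b j : ℕ) : ℤ) := by
    intro j
    unfold Real.digits
    rw [Fin.val_ofNat]
    push_cast
    congr 1
    rw [Int.natCast_floor_eq_floor (by positivity)]
  by_contra hcon
  push Not at hcon
  have hup := run_upper y b hb N s l (by
    intro i hi1 hi2
    obtain ⟨t, rfl⟩ : ∃ t, i = t + 1 := ⟨i - 1, by omega⟩
    have e : t + 1 + s = (t + s) + 1 := by ring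
    rw [e, key, key]
    have h1 : ((t + s : ℕ) : ℝ) ≤ (2 + ε) * N + (3 + ε) * s := by
      have h2 : ((t + 1 : ℕ) : ℝ) ≤ ((N + l : ℕ) : ℝ) := by exact_mod_cast hi2
      push_cast at h2 ⊢
      nlinarith
    rw [hcon t (by omega) h1])
  have hbs : 1 ≤ b ^ s := Nat.one_le_pow _ _ (by omega)
  have hbs1 : 1 ≤ b ^ s - 1 := by
    have : b ^ 1 ≤ b ^ s := Nat.pow_le_pow_right (by omega) hs
    rw [pow_one] at this
    omega
  obtain ⟨Q, hQ⟩ : ∃ Q : ℕ, Q = b ^ N * (b ^ s - 1) := ⟨_, rfl⟩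
  have hQ1 : 1 ≤ Q := by rw [hQ]; exact Nat.mul_pos (by positivity) hbs1
  have hRQ := hR Q hQ1 (⌊y * (b : ℝ) ^ (N + s)⌋ - ⌊y * (b : ℝ) ^ N⌋)
  rw [← hQ] at hup
  obtain ⟨D, hD⟩ : ∃ D : ℝ, D = |(Q : ℝ) * y -
      ((⌊y * (b : ℝ) ^ (N + s)⌋ - ⌊y * (b : ℝ) ^ N⌋ : ℤ) : ℝ)| := ⟨_, rfl⟩
  rw [← hD] at hup hRQ
  have hQpos : (0 : ℝ) < Q := by exact_mod_cast hQ1
  have hQle : (Q : ℝ) ≤ (b : ℝ) ^ (N + s) := by
    have h1 : Q ≤ b ^ (N + s) := by
      rw [hQ, pow_add]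
      exact Nat.mul_le_mul_left _ (Nat.sub_le _ _)
    exact_mod_cast h1
  have h1 : c * (b : ℝ) ^ l < (Q : ℝ) ^ (1 + ε / 2) := by
    have h2 : 0 < (Q : ℝ) ^ (1 + ε / 2) := Real.rpow_pos_of_pos hQpos _
    calc c * (b : ℝ) ^ l ≤ (Q : ℝ) ^ (1 + ε / 2) * D * (b : ℝ) ^ l :=
          mul_le_mul_of_nonneg_right hRQ (by positivity)
      _ = (Q : ℝ) ^ (1 + ε / 2) * (D * (b : ℝ) ^ l) := by ring
      _ < (Q : ℝ) ^ (1 + ε / 2) * 1 := mul_lt_mul_of_pos_left hup h2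
      _ = _ := mul_one _
  have h2 := Real.log_lt_log (by positivity) h1
  rw [Real.log_mul hc.ne' (by positivity), Real.log_pow, Real.log_rpow hQpos] at h2
  have h3 : Real.log Q ≤ (N + s) * Real.log b := by
    have := Real.log_le_log hQpos hQle
    rw [Real.log_pow] at this
    push_cast at this
    exact this
  have h4 : (1 + ε / 2) * Real.log Q ≤ (1 + ε / 2) * ((N + s) * Real.log b) :=
    mul_le_mul_of_nonneg_left h3 (by positivity)
  have h5 : -(|Real.log c| / Real.log 2 * Real.log b) ≤ Real.log c := by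
    have h6 : |Real.log c| / Real.log 2 * Real.log 2 ≤ |Real.log c| / Real.log 2 * Real.log b :=
      mul_le_mul_of_nonneg_left hlb2 (by positivity)
    rw [div_mul_cancel₀ _ hl2.ne'] at h6
    have := neg_abs_le (Real.log c)
    linarith
  have h6 : ((l : ℝ) - |Real.log c| / Real.log 2 - (1 + ε / 2) * (N + s)) * Real.log b < 0 := by
    nlinarith
  have h7 : (l : ℝ) - |Real.log c| / Real.log 2 - (1 + ε / 2) * (N + s) < 0 := by
    by_contra hcc
    push Not at hcc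
    nlinarith [mul_nonneg hcc hlb.le]
  linarith

/-- the number of accepted words for numbers with irrationality exponent two -/
theorem exp2_main {y : ℝ} (hy : 0 ≤ y) (h2 : Pool.Agent.H43R2.Cplx.Exp2 y) (κ : ℝ) (hκ : 0 ≤ κ)
    (hκ1 : κ < 1) :
    ∃ C : ℝ, 0 < C ∧ ∀ (b : ℕ) [NeZero b], 2 ≤ b →
    ∀ (σ : Type) [Fintype σ] (M : NFA (Fin b) σ) (N : ℕ) (d : ℕ → Fin b),
      (List.range N).map d ∈ M.accepts →
        ((N : ℝ) / (C * (Fintype.card σ : ℝ) ^ 2)) ^ κ ≤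
          2 ^ ((Finset.range N).filter fun i => d i ≠ Real.digits y b i).card *
          ({w : List (Fin b) | w ∈ M.accepts ∧ w.length = N}.ncard : ℝ) := by
  -- choose ε with (2 + ε) ^ κ ≤ 2
  obtain ⟨ε, hε0, hε⟩ : ∃ ε : ℝ, 0 < ε ∧ (2 + ε) ^ κ ≤ 2 := by
    rcases eq_or_lt_of_le hκ with h0 | h0
    · exact ⟨1, one_pos, by rw [← h0, Real.rpow_zero]; norm_num⟩
    · have h1 : (2 : ℝ) < 2 ^ (1 / κ) := by
        have h3 : (1 : ℝ) < 1 / κ := by rw [one_lt_div h0]; exact hκ1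
        calc (2 : ℝ) = 2 ^ (1 : ℝ) := (Real.rpow_one 2).symm
          _ < 2 ^ (1 / κ) := Real.rpow_lt_rpow_of_exponent_lt (by norm_num) h3
      refine ⟨2 ^ (1 / κ) - 2, by linarith, ?_⟩
      have e : (2 : ℝ) + (2 ^ (1 / κ) - 2) = 2 ^ (1 / κ) := by ring
      rw [e, ← Real.rpow_mul (by norm_num), one_div, inv_mul_cancel₀ h0.ne', Real.rpow_one]
  obtain ⟨N₀, hN₀⟩ := exp2_noPer hy h2 ε hε0
  obtain ⟨C, hC, h⟩ := digits_main2 (y := y) (ρ := 2 + ε) (A := 3 + ε) (κ := κ) (by linarith)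
    (by linarith) hκ hε N₀ (fun _ => True) (fun b _ hb _ => hN₀ b hb)
  exact ⟨C, hC, fun b _ hb σ _ M N d hd => h b hb trivial σ M N d hd⟩

end Pool.Agent.X1.NfaAlg
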