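import Mathlib
import Pool.Agent.X1.NfaE
import Pool.Agent.X1.NfaAper

/-!
# Automata and the digits of numbers with irrationality exponent two
-/

set_option autoImplicit false

namespace Pool.Agent.X1.NfaAlg

open Finset Pool.Agent.X3.NfaWords

/-- many words, irrationality exponent two -/
theorem exp2_words {y : ℝ} (hy : 0 ≤ y) (h2 : Pool.Agent.H43R2.Cplx.Exp2 y) {δ η c : ℝ}
    (hη : 0 ≤ η) (hηδ : η * Real.log 2 < δ) (hc0 : 0 ≤ c)
    (hc : c < (δ - η * Real.log 2) ^ 2 / (4 * Real.log 2)) :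
    ∃ N₁ : ℕ, ∀ (b : ℕ) [NeZero b], 2 ≤ b →
      ∀ (σ : Type) [Fintype σ] (M : NFA (Fin b) σ) (N : ℕ), N₁ ≤ N →
      (Fintype.card σ : ℝ) ≤ (N : ℝ) ^ (1 - δ) → ∀ d : ℕ → Fin b,
      (((Finset.range N).filter fun i => d i ≠ Real.digits y b i).card : ℝ) ≤ η * Real.log N →
      (List.range N).map d ∈ M.accepts → Real.exp (c * Real.log N ^ 2) ≤ naccG M N := by
  have hl2 : 0 < Real.log 2 := Real.log_pos (by norm_num)
  obtain ⟨κ, hκ⟩ : ∃ κ, κ = (δ - η * Real.log 2) / (2 * Real.log 2) := ⟨_, rfl⟩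
  have hκ0 : 0 < κ := by rw [hκ]; apply div_pos (by linarith) (by positivity)
  have hval : κ * (δ - (κ + η) * Real.log 2) = (δ - η * Real.log 2) ^ 2 / (4 * Real.log 2) := by
    rw [hκ]; field_simp; ring
  obtain ⟨ε, hε0, hε⟩ : ∃ ε : ℝ, 0 < ε ∧ c < κ * (δ - (κ + η) * Real.log (2 + ε)) := by
    have hcont : ContinuousAt (fun ε : ℝ => κ * (δ - (κ + η) * Real.log (2 + ε))) 0 := by
      apply ContinuousAt.mul continuousAt_const
      apply ContinuousAt.sub continuousAt_const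
      apply ContinuousAt.mul continuousAt_const
      apply ContinuousAt.log
      · fun_prop
      · norm_num
    have h0 : c < κ * (δ - (κ + η) * Real.log (2 + 0)) := by
      rw [add_zero, hval]; exact hc
    have hev := hcont.eventually (lt_mem_nhds h0)
    rw [Metric.eventually_nhds_iff] at hev
    obtain ⟨r, hr, h⟩ := hev
    refine ⟨r / 2, by positivity, h ?_⟩
    rw [Real.dist_eq, sub_zero, abs_of_pos (by positivity)]
    linarith
  obtain ⟨N₀, hN₀⟩ := exp2_noPer hy h2 ε hε0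
  obtain ⟨D, hD, hmain⟩ := many_geo2 (ρ := 2 + ε) (A := 3 + ε) (by linarith) (by linarith) N₀
  obtain ⟨N₁, hnum⟩ := num_words2 (ρ := 2 + ε) (by linarith) hκ0 hε hc0 hD
  refine ⟨N₁, fun b _ hb σ _ M N hN hq d hk hacc => ?_⟩
  refine hnum N (Fintype.card σ) _ hN (cardG_pos hacc) hq hk (naccG M N)
    (by exact_mod_cast naccG_pos hacc) (fun K hK => ?_)
  obtain ⟨W, hW1, hW2⟩ := hmain (Fin b) σ (Real.digits y b) (hN₀ b hb) d M N
    (by rw [seg_zero]; exact hacc)
    ((Finset.range N).filter fun i => d i ≠ Real.digits y b i) (by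
      intro i hi hn
      by_contra hne
      exact hn (Finset.mem_filter.2 ⟨Finset.mem_range.2 hi, hne⟩)) K hK
  refine hW2.trans (mul_le_mul_of_nonneg_left ?_ (Nat.cast_nonneg _))
  exact_mod_cast naccG_ge M N W hW1

/-- many states, irrationality exponent two -/
theorem exp2_states {y : ℝ} (hy : 0 ≤ y) (h2 : Pool.Agent.H43R2.Cplx.Exp2 y) {c : ℝ}
    (hc : 2 * √(Real.log 2) < c) :
    ∃ N₁ : ℕ, ∀ (b : ℕ) [NeZero b], 2 ≤ b →
      ∀ (σ : Type) [Fintype σ] (M : NFA (Fin b) σ) (N : ℕ), N₁ ≤ N →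
      (List.range N).map (Real.digits y b) ∈ M.accepts →
      (∀ w ∈ M.accepts, w.length = N → w = (List.range N).map (Real.digits y b)) →
      (N : ℝ) * Real.exp (-(c * √(Real.log N))) ≤ Fintype.card σ := by
  obtain ⟨ε, hε0, hε⟩ : ∃ ε : ℝ, 0 < ε ∧ 2 * √(Real.log (2 + ε)) < c := by
    have hcont : ContinuousAt (fun ε : ℝ => 2 * √(Real.log (2 + ε))) 0 := by
      apply ContinuousAt.mul continuousAt_const
      apply ContinuousAt.sqrt
      apply ContinuousAt.log
      · fun_prop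
      · norm_num
    have h0 : 2 * √(Real.log (2 + 0)) < c := by rw [add_zero]; exact hc
    have hev := hcont.eventually (gt_mem_nhds h0)
    rw [Metric.eventually_nhds_iff] at hev
    obtain ⟨r, hr, h⟩ := hev
    refine ⟨r / 2, by positivity, h ?_⟩
    rw [Real.dist_eq, sub_zero, abs_of_pos (by positivity)]
    linarith
  obtain ⟨N₀, hN₀⟩ := exp2_noPer hy h2 ε hε0
  obtain ⟨D, hD, hmain⟩ := many_geo2 (ρ := 2 + ε) (A := 3 + ε) (by linarith) (by linarith) N₀
  obtain ⟨N₁, hnum⟩ := num_states2 (ρ := 2 + ε) (by linarith) hε hD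
  refine ⟨N₁, fun b _ hb σ _ M N hN hacc huniq => ?_⟩
  refine hnum N (Fintype.card σ) hN (cardG_pos hacc) (fun K hK => ?_)
  obtain ⟨W, hW1, hW2⟩ := hmain (Fin b) σ (Real.digits y b) (hN₀ b hb) (Real.digits y b) M N
    (by rw [seg_zero]; exact hacc) ∅ (fun i _ _ => rfl) K hK
  have h2 : W.card ≤ 1 := by
    rw [Finset.card_le_one]
    intro u hu v hv
    rw [huniq u (hW1 u hu).2 (hW1 u hu).1, huniq v (hW1 v hv).2 (hW1 v hv).1]
  have h3 : (W.card : ℝ) ≤ 1 := by exact_mod_cast h2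
  rw [card_empty, Nat.add_zero] at hW2
  refine hW2.trans ?_
  have : (0 : ℝ) ≤ N := Nat.cast_nonneg _
  nlinarith

end Pool.Agent.X1.NfaAlg
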