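import Mathlib
import Pool.Agent.X1.NfaAper

/-!
# Automata and sequences without long periodic stretches, fixed ratio

If a periodic stretch of `z` of period `s` which starts at `N` ends before `ρ N + A s` for some constants
`ρ, A` (no matter how large), then automata which accept a word close to a prefix of `z` have almost linearly
many states or accept many words.
-/

set_option autoImplicit false

namespace Pool.Agent.X1.NfaConst

open Finset Pool.Agent.X3.NfaWords Pool.Agent.X1.NfaAlg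

/-- the counting inequality -/
theorem const_words {ρ A : ℝ} (hρ : 1 < ρ) (hA : 0 ≤ A) (N₀ : ℕ) : ∃ D : ℝ, 1 ≤ D ∧
    ∀ (α σ : Type) [Finite α] [DecidableEq α] [Fintype σ] (z : ℕ → α), NoPer2 z ρ A N₀ →
    ∀ (M : NFA α σ) (N : ℕ) (d : ℕ → α), (List.range N).map d ∈ M.accepts → ∀ K : ℕ, 1 ≤ K →
      ((N : ℝ) / (D * ρ ^ (K + ((Finset.range N).filter fun i => d i ≠ z i).card) *
        (Fintype.card σ : ℝ))) ^ K ≤ N * (naccG M N : ℝ) := by
  obtain ⟨D, hD, hmain⟩ := many_geo2 hρ hA N₀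
  refine ⟨D, hD, fun α σ _ _ _ z hz M N d hacc K hK => ?_⟩
  obtain ⟨W, hW1, hW2⟩ := hmain α σ z hz d M N (by rw [seg_zero]; exact hacc)
    ((Finset.range N).filter fun i => d i ≠ z i) (by
      intro i hi hn
      by_contra hne
      exact hn (Finset.mem_filter.2 ⟨Finset.mem_range.2 hi, hne⟩)) K hK
  refine hW2.trans (mul_le_mul_of_nonneg_left ?_ (Nat.cast_nonneg _))
  exact_mod_cast naccG_ge M N W hW1

/-- numerics for the number of states -/
lemma num_states {ρ D : ℝ} (hρ : 1 < ρ) (hD : 1 ≤ D) : ∃ C : ℝ, 0 < C ∧ ∀ (N : ℕ) (q : ℝ), 2 ≤ N →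
    0 < q → (∀ K : ℕ, 1 ≤ K → ((N : ℝ) / (D * ρ ^ K * q)) ^ K ≤ N) →
      (N : ℝ) * Real.exp (-C * √(Real.log N)) ≤ q := by
  have hlρ : 0 < Real.log ρ := Real.log_pos hρ
  have hlD : 0 ≤ Real.log D := Real.log_nonneg hD
  refine ⟨1 + Real.log ρ + 2 * (Real.log D + Real.log ρ), by positivity, ?_⟩
  intro N q hN hq h
  have hNR : (2 : ℝ) ≤ N := by exact_mod_cast hN
  have hN0 : (0 : ℝ) < N := by linarith
  have hlog2 : Real.log 2 ≤ Real.log N := Real.log_le_log (by norm_num) hNR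
  have hl2 : (0.6931471803 : ℝ) < Real.log 2 := Real.log_two_gt_d9
  have hlogN : 0 < Real.log N := by linarith
  obtain ⟨s, hs⟩ : ∃ s, s = √(Real.log N) := ⟨_, rfl⟩
  have hs2 : s * s = Real.log N := by rw [hs]; exact Real.mul_self_sqrt hlogN.le
  have hs0 : 0 < s := by rw [hs]; exact Real.sqrt_pos.2 hlogN
  have hs1 : 1 ≤ 2 * s := by nlinarith
  obtain ⟨K, hK⟩ : ∃ K, K = ⌈s⌉₊ := ⟨_, rfl⟩
  have hK1 : 1 ≤ K := by rw [hK]; exact Nat.one_le_ceil_iff.2 hs0
  have hKs : s ≤ K := by rw [hK]; exact Nat.le_ceil s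
  have hKs1 : (K : ℝ) < s + 1 := by rw [hK]; exact Nat.ceil_lt_add_one hs0.le
  have h1 := h K hK1
  rw [← hs]
  have hpos : 0 < D * ρ ^ K * q := by positivity
  have hx : 0 < (N : ℝ) / (D * ρ ^ K * q) := by positivity
  -- take logarithms
  have h2 : (K : ℝ) * Real.log ((N : ℝ) / (D * ρ ^ K * q)) ≤ Real.log N := by
    rw [← Real.log_pow]
    exact Real.log_le_log (by positivity) h1
  have hK0 : (0 : ℝ) < K := by exact_mod_cast hK1
  have h3 : Real.log ((N : ℝ) / (D * ρ ^ K * q)) ≤ s := by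
    by_contra hcon
    push Not at hcon
    have h4 : s * s < K * Real.log ((N : ℝ) / (D * ρ ^ K * q)) := by
      have : K * s < K * Real.log ((N : ℝ) / (D * ρ ^ K * q)) := mul_lt_mul_of_pos_left hcon hK0
      nlinarith
    linarith
  rw [Real.log_div hN0.ne' hpos.ne', Real.log_mul (by positivity) hq.ne',
    Real.log_mul (by positivity) (by positivity), Real.log_pow] at h3
  have h5 : (K : ℝ) * Real.log ρ ≤ (s + 1) * Real.log ρ :=
    mul_le_mul_of_nonneg_right hKs1.le hlρ.le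
  have h6 : Real.log N - (1 + Real.log ρ + 2 * (Real.log D + Real.log ρ)) * s ≤ Real.log q := by
    have h7 : Real.log D + Real.log ρ ≤ (Real.log D + Real.log ρ) * (2 * s) := by
      nlinarith [add_nonneg hlD hlρ.le]
    nlinarith
  rw [← Real.log_le_log_iff (by positivity) hq, Real.log_mul hN0.ne' (Real.exp_pos _).ne',
    Real.log_exp]
  linarith

/-- numerics for the number of words -/
lemma num_words {ρ D δ : ℝ} (hρ : 1 < ρ) (hD : 1 ≤ D) (hδ : 0 < δ) : ∃ c : ℝ, 0 < c ∧ ∃ N₁ : ℕ,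
    ∀ (N e : ℕ) (q W : ℝ), N₁ ≤ N → 0 < q → q ≤ (N : ℝ) ^ (1 - δ) → (e : ℝ) ≤ c * Real.log N →
      0 < W → (∀ K : ℕ, 1 ≤ K → ((N : ℝ) / (D * ρ ^ (K + e) * q)) ^ K ≤ N * W) →
      Real.exp (c * Real.log N ^ 2) ≤ W := by
  have hlρ : 0 < Real.log ρ := Real.log_pos hρ
  have hlD : 0 ≤ Real.log D := Real.log_nonneg hD
  obtain ⟨a, ha⟩ : ∃ a, a = min 1 (δ / (8 * Real.log ρ)) := ⟨_, rfl⟩
  have ha0 : 0 < a := by rw [ha]; exact lt_min one_pos (by positivity)
  have haρ : a * Real.log ρ ≤ δ / 8 := by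
    have : a ≤ δ / (8 * Real.log ρ) := by rw [ha]; exact min_le_right _ _
    calc a * Real.log ρ ≤ δ / (8 * Real.log ρ) * Real.log ρ :=
          mul_le_mul_of_nonneg_right this hlρ.le
      _ = δ / 8 := by field_simp
  obtain ⟨c, hc⟩ : ∃ c, c = min a (δ * a / 8) := ⟨_, rfl⟩
  have hc0 : 0 < c := by rw [hc]; exact lt_min ha0 (by positivity)
  have hca : c ≤ a := by rw [hc]; exact min_le_left _ _
  have hcd : c ≤ δ * a / 8 := by rw [hc]; exact min_le_right _ _
  -- choose N₁ with log N₁ large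
  obtain ⟨B, hB⟩ : ∃ B, B = 1 / a + (Real.log D) * (8 / δ) + 8 / (δ * a) * (δ + 1) := ⟨_, rfl⟩
  obtain ⟨N₁, hN₁⟩ := exists_nat_gt (Real.exp B)
  refine ⟨c, hc0, N₁ + 2, ?_⟩
  intro N e q W hN hq hqN he hW h
  have hNR : (N₁ : ℝ) ≤ N := by exact_mod_cast (by omega : N₁ ≤ N)
  have hN2 : (2 : ℝ) ≤ N := by exact_mod_cast (by omega : 2 ≤ N)
  have hN0 : (0 : ℝ) < N := by linarith
  obtain ⟨L, hL⟩ : ∃ L, L = Real.log N := ⟨_, rfl⟩
  have hLB : B ≤ L := by
    rw [hL, Real.le_log_iff_exp_le hN0]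
    linarith
  have hB0 : 0 < B := by rw [hB]; positivity
  have hL0 : 0 < L := by linarith
  have hL1 : 1 ≤ a * L := by
    have : 1 / a ≤ L := by
      refine le_trans ?_ hLB
      rw [hB]
      have h1 : 0 ≤ (Real.log D) * (8 / δ) := by positivity
      have h2 : 0 ≤ 8 / (δ * a) * (δ + 1) := by positivity
      linarith
    rw [div_le_iff₀ ha0] at this
    linarith
  have hLD : Real.log D ≤ δ / 8 * L := by
    have : (Real.log D) * (8 / δ) ≤ L := by
      refine le_trans ?_ hLB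
      rw [hB]
      have h1 : 0 ≤ 1 / a := by positivity
      have h2 : 0 ≤ 8 / (δ * a) * (δ + 1) := by positivity
      linarith
    have h3 := mul_le_mul_of_nonneg_left this (show 0 ≤ δ / 8 by positivity)
    have h4 : δ / 8 * (Real.log D * (8 / δ)) = Real.log D := by field_simp
    linarith
  have hL3 : δ + 1 ≤ δ * a / 8 * L := by
    have : 8 / (δ * a) * (δ + 1) ≤ L := by
      refine le_trans ?_ hLB
      rw [hB]
      have h1 : 0 ≤ 1 / a := by positivity
      have h2 : 0 ≤ (Real.log D) * (8 / δ) := by positivity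
      linarith
    have h3 := mul_le_mul_of_nonneg_left this (show 0 ≤ δ * a / 8 by positivity)
    have h4 : δ * a / 8 * (8 / (δ * a) * (δ + 1)) = δ + 1 := by field_simp
    linarith
  obtain ⟨K, hK⟩ : ∃ K, K = ⌊a * L⌋₊ := ⟨_, rfl⟩
  have hK1 : 1 ≤ K := by rw [hK]; exact Nat.le_floor (by simpa using hL1)
  have hKl : (K : ℝ) ≤ a * L := by rw [hK]; exact Nat.floor_le (by positivity)
  have hKg : a * L - 1 < K := by
    have := Nat.lt_floor_add_one (a * L)
    rw [← hK] at this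
    linarith
  have hK0 : (0 : ℝ) < K := by exact_mod_cast hK1
  have h1 := h K hK1
  have hpos : 0 < D * ρ ^ (K + e) * q := by positivity
  have hx : 0 < (N : ℝ) / (D * ρ ^ (K + e) * q) := by positivity
  have h2 : (K : ℝ) * Real.log ((N : ℝ) / (D * ρ ^ (K + e) * q)) ≤ L + Real.log W := by
    rw [← Real.log_pow, hL, ← Real.log_mul hN0.ne' hW.ne']
    exact Real.log_le_log (by positivity) h1
  have hlq : Real.log q ≤ (1 - δ) * L := by
    rw [hL, ← Real.log_rpow hN0]
    exact Real.log_le_log hq hqN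
  have h3 : δ / 2 * L ≤ Real.log ((N : ℝ) / (D * ρ ^ (K + e) * q)) := by
    rw [Real.log_div hN0.ne' hpos.ne', Real.log_mul (by positivity) hq.ne',
      Real.log_mul (by positivity) (by positivity), Real.log_pow, ← hL]
    push_cast
    have h4 : ((K : ℝ) + e) * Real.log ρ ≤ (2 * (a * L)) * Real.log ρ := by
      refine mul_le_mul_of_nonneg_right ?_ hlρ.le
      rw [← hL] at he
      nlinarith
    have h5 : (2 * (a * L)) * Real.log ρ ≤ δ / 4 * L := by nlinarith
    linarith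
  have h6 : (a * L - 1) * (δ / 2 * L) ≤ L + Real.log W := by
    refine le_trans ?_ h2
    refine le_trans (mul_le_mul_of_nonneg_right hKg.le (by positivity)) ?_
    exact mul_le_mul_of_nonneg_left h3 hK0.le
  have h7 : c * L ^ 2 ≤ Real.log W := by
    have h8 : (δ + 1) * L ≤ δ * a / 8 * L * L := mul_le_mul_of_nonneg_right hL3 hL0.le
    have h9 : c * L ^ 2 ≤ δ * a / 8 * L ^ 2 := mul_le_mul_of_nonneg_right hcd (by positivity)
    nlinarith
  rw [← hL, ← Real.le_log_iff_exp_le hW]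
  exact h7

end Pool.Agent.X1.NfaConst
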