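import Mathlib
import Pool.Agent.X1.NfaConst

/-!
# Automata for sequences whose linear patterns take both values in intervals of linear length
-/

set_option autoImplicit false

namespace Pool.Agent.X1.NfaPat

open Finset Pool.Agent.X3.NfaWords Pool.Agent.X1.NfaAlg Pool.Agent.X1.NfaConst

variable {ι : Type} [Fintype ι]

/-- all nonzero linear patterns of length `L + 1` take all values in `[A, C (A + L + 1)]` -/
def Pat (f : ι → ℕ → ZMod 2) (C : ℕ) : Prop :=
  ∀ (L : ℕ) (c : ι → Fin (L + 1) → ZMod 2), c ≠ 0 → ∀ (κ : ZMod 2) (A : ℕ),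
    ∃ n, A ≤ n ∧ n ≤ C * (A + L + 1) ∧ ∑ t : ι, ∑ i : Fin (L + 1), c t i * f t (n + i) = κ

/-- extension of the coefficients by zero -/
def ext {L : ℕ} (c : ι → Fin (L + 1) → ZMod 2) (t : ι) (i : ℕ) : ZMod 2 :=
  if h : i < L + 1 then c t ⟨i, h⟩ else 0

lemma ext_sum {L : ℕ} (c : ι → Fin (L + 1) → ZMod 2) (f : ι → ℕ → ZMod 2) (n K : ℕ) (hK : L + 1 ≤ K) :
    ∑ t : ι, ∑ i : Fin (L + 1), c t i * f t (n + i) =
      ∑ t : ι, ∑ i ∈ range K, ext c t i * f t (n + i) := by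
  refine sum_congr rfl fun t _ => ?_
  have h1 : ∑ i : Fin (L + 1), c t i * f t (n + i) = ∑ i ∈ range (L + 1), ext c t i * f t (n + i) := by
    rw [Finset.sum_range]
    refine sum_congr rfl fun i _ => ?_
    rw [ext, dif_pos i.2]
  rw [h1]
  refine sum_subset (range_mono hK) fun i _ hi => ?_
  rw [ext, dif_neg (by simpa using hi), zero_mul]

/-- the pattern of the difference -/
def shiftC {L : ℕ} (c : ι → Fin (L + 1) → ZMod 2) (s : ℕ) : ι → Fin (L + s + 1) → ZMod 2 :=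
  fun t i => ext c t i + if s ≤ (i : ℕ) then ext c t (i - s) else 0

lemma shiftC_ne {L : ℕ} (c : ι → Fin (L + 1) → ZMod 2) (hc : c ≠ 0) (s : ℕ) (hs : 1 ≤ s) :
    shiftC c s ≠ 0 := by
  classical
  obtain ⟨t, ht⟩ := Function.ne_iff.1 hc
  obtain ⟨i, hi⟩ := Function.ne_iff.1 ht
  have hex : ∃ j : ℕ, ext c t j ≠ 0 := ⟨i, by rw [ext, dif_pos i.2]; exact hi⟩
  have h1 := Nat.find_spec hex
  have hlt : Nat.find hex < L + 1 := by
    by_contra hcon
    apply h1
    rw [ext, dif_neg hcon]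
  intro h0
  have h2 := congrFun (congrFun h0 t) ⟨Nat.find hex, by omega⟩
  simp only [shiftC, Pi.zero_apply] at h2
  split_ifs at h2 with h3
  · have h4 : ext c t (Nat.find hex - s) = 0 := by
      by_contra h5
      exact Nat.find_min hex (by omega) h5
    rw [h4, add_zero] at h2
    exact h1 h2
  · rw [add_zero] at h2
    exact h1 h2

lemma shiftC_sum {L : ℕ} (c : ι → Fin (L + 1) → ZMod 2) (f : ι → ℕ → ZMod 2) (n s : ℕ) :
    ∑ t : ι, ∑ i : Fin (L + s + 1), shiftC c s t i * f t (n + i) =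
      (∑ t : ι, ∑ i : Fin (L + 1), c t i * f t (n + i)) +
        ∑ t : ι, ∑ i : Fin (L + 1), c t i * f t (n + s + i) := by
  rw [ext_sum c f n (L + s + 1) (by omega), ext_sum c f (n + s) (L + 1) le_rfl, ← sum_add_distrib]
  refine sum_congr rfl fun t _ => ?_
  have h1 : ∑ i : Fin (L + s + 1), shiftC c s t i * f t (n + i) =
      ∑ i ∈ range (L + s + 1), (ext c t i + if s ≤ i then ext c t (i - s) else 0) * f t (n + i) := by
    rw [Finset.sum_range]
    rfl
  rw [h1]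
  simp only [add_mul]
  rw [sum_add_distrib]
  congr 1
  have h2 : ∑ i ∈ range (L + s + 1), (if s ≤ i then ext c t (i - s) else 0) * f t (n + i) =
      ∑ i ∈ range s, (if s ≤ i then ext c t (i - s) else 0) * f t (n + i) +
        ∑ i ∈ range (L + 1), (if s ≤ s + i then ext c t (s + i - s) else 0) * f t (n + (s + i)) := by
    rw [show L + s + 1 = s + (L + 1) by ring, sum_range_add]
  rw [h2]
  have h3 : ∑ i ∈ range s, (if s ≤ i then ext c t (i - s) else 0) * f t (n + i) = 0 := by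
    refine sum_eq_zero fun i hi => ?_
    rw [if_neg (by rw [mem_range] at hi; omega), zero_mul]
  rw [h3, zero_add]
  refine sum_congr rfl fun i _ => ?_
  rw [if_pos (by omega), Nat.add_sub_cancel_left, add_assoc]

/-- no long periodic stretches -/
theorem pat_noPer {f : ι → ℕ → ZMod 2} {C : ℕ} (hf : Pat f C) {L : ℕ}
    (c : ι → Fin (L + 1) → ZMod 2) (hc : c ≠ 0) :
    NoPer2 (fun n => ∑ t : ι, ∑ i : Fin (L + 1), c t i * f t (n + i)) ((C : ℝ) + 2) ((C : ℝ) + 1)
      (C * (L + 1)) := by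
  intro N hN s hs
  obtain ⟨n, h1, h2, h3⟩ := hf (L + s) (shiftC c s) (shiftC_ne c hc s hs) 1 N
  refine ⟨n, h1, ?_, ?_⟩
  · have h4 : n + s ≤ (C + 2) * N + (C + 1) * s := by
      calc n + s ≤ C * (N + (L + s) + 1) + s := by omega
        _ = C * N + C * (L + 1) + (C + 1) * s := by ring
        _ ≤ C * N + N + (C + 1) * s := by omega
        _ ≤ (C + 2) * N + (C + 1) * s := by
            have : (C + 2) * N = C * N + N + N := by ring
            omega
    exact_mod_cast h4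
  · rw [shiftC_sum] at h3
    intro heq
    simp only at heq
    rw [heq, CharTwo.add_self_eq_zero] at h3
    exact zero_ne_one h3

/-- many states -/
theorem pat_states (C L : ℕ) : ∃ B : ℝ, 0 < B ∧ ∀ (ι : Type) [Fintype ι] (f : ι → ℕ → ZMod 2),
    Pat f C → ∀ c : ι → Fin (L + 1) → ZMod 2, c ≠ 0 →
    ∀ (σ : Type) [Fintype σ] (M : NFA (ZMod 2) σ) (N : ℕ), 2 ≤ N →
      (List.range N).map (fun n => ∑ t : ι, ∑ i : Fin (L + 1), c t i * f t (n + i)) ∈ M.accepts →
      (∀ w ∈ M.accepts, w.length = N →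
        w = (List.range N).map (fun n => ∑ t : ι, ∑ i : Fin (L + 1), c t i * f t (n + i))) →
      (N : ℝ) * Real.exp (-B * √(Real.log N)) ≤ Fintype.card σ := by
  have hρ : (1 : ℝ) < (C : ℝ) + 2 := by
    have : (0 : ℝ) ≤ C := Nat.cast_nonneg _
    linarith
  obtain ⟨D, hD, hmain⟩ := const_words hρ (A := (C : ℝ) + 1) (by positivity) (C * (L + 1))
  obtain ⟨B, hB, hnum⟩ := num_states hρ hD
  refine ⟨B, hB, fun ι _ f hf c hc σ _ M N hN hacc huniq => ?_⟩
  have hq : 1 ≤ Fintype.card σ := cardG_pos hacc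
  have hacc1 : naccG M N = 1 := by
    unfold naccG
    rw [Set.ncard_eq_one]
    refine ⟨(List.range N).map (fun n => ∑ t : ι, ∑ i : Fin (L + 1), c t i * f t (n + i)), ?_⟩
    ext w
    simp only [Set.mem_setOf_eq, Set.mem_singleton_iff]
    constructor
    · rintro ⟨h1, h2⟩
      exact huniq w h1 h2
    · rintro rfl
      exact ⟨hacc, by simp⟩
  refine hnum N _ hN (by exact_mod_cast hq) fun K hK => ?_
  have h1 := hmain (ZMod 2) σ _ (pat_noPer hf c hc) M N _ hacc K hK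
  simp only [ne_eq, not_true_eq_false, Finset.filter_false, Finset.card_empty, add_zero] at h1
  rw [hacc1] at h1
  simpa using h1

/-- many words -/
theorem pat_words (C L : ℕ) {δ : ℝ} (hδ : 0 < δ) : ∃ a : ℝ, 0 < a ∧ ∃ N₁ : ℕ,
    ∀ (ι : Type) [Fintype ι] (f : ι → ℕ → ZMod 2),
    Pat f C → ∀ c : ι → Fin (L + 1) → ZMod 2, c ≠ 0 →
    ∀ (σ : Type) [Fintype σ] (M : NFA (ZMod 2) σ) (N : ℕ), N₁ ≤ N →
      (Fintype.card σ : ℝ) ≤ (N : ℝ) ^ (1 - δ) → ∀ d : ℕ → ZMod 2,
      (((range N).filter fun n => d n ≠ ∑ t : ι, ∑ i : Fin (L + 1), c t i * f t (n + i)).card : ℝ) ≤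
        a * Real.log N → (List.range N).map d ∈ M.accepts →
      Real.exp (a * Real.log N ^ 2) ≤ ({w : List (ZMod 2) | w ∈ M.accepts ∧ w.length = N}.ncard : ℝ) := by
  have hρ : (1 : ℝ) < (C : ℝ) + 2 := by
    have : (0 : ℝ) ≤ C := Nat.cast_nonneg _
    linarith
  obtain ⟨D, hD, hmain⟩ := const_words hρ (A := (C : ℝ) + 1) (by positivity) (C * (L + 1))
  obtain ⟨a, ha, N₁, hnum⟩ := num_words hρ hD hδ
  refine ⟨a, ha, N₁, fun ι _ f hf c hc σ _ M N hN hq d hd hacc => ?_⟩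
  have hq1 : 1 ≤ Fintype.card σ := cardG_pos hacc
  exact hnum N _ _ _ hN (by exact_mod_cast hq1) hq hd (by exact_mod_cast naccG_pos hacc)
    fun K hK => hmain (ZMod 2) σ _ (pat_noPer hf c hc) M N d hacc K hK

end Pool.Agent.X1.NfaPat
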