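import Mathlib
import Pool.Agent.X1.NfaLin

/-!
# Words accepted by small automata: finite words with short periodic stretches
-/

set_option autoImplicit false

namespace Pool.Agent.X1.NfaAlg

open Finset Pool.Agent.X3.NfaWords

/-- inside the first `N` letters every stretch with period `s` is shorter than `2 s + E` -/
def NoPerF {α : Type} (x : ℕ → α) (N E : ℕ) : Prop :=
  ∀ t s : ℕ, 1 ≤ s → t + 2 * s + E ≤ N → ∃ i, t ≤ i ∧ i + s < t + 2 * s + E ∧ x (i + s) ≠ x i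

/-- the property is symmetric -/
lemma NoPerF.reverse {α : Type} {x : ℕ → α} {N E : ℕ} (h : NoPerF x N E) :
    NoPerF (fun i => x (N - 1 - i)) N E := by
  intro t s hs ht
  obtain ⟨i, hi1, hi2, hi3⟩ := h (N - (t + 2 * s + E)) s hs (by omega)
  refine ⟨N - 1 - (i + s), by omega, by omega, ?_⟩
  have e1 : N - 1 - (N - 1 - (i + s) + s) = i := by omega
  have e2 : N - 1 - (N - 1 - (i + s)) = i + s := by omega
  show x (N - 1 - (N - 1 - (i + s) + s)) ≠ x (N - 1 - (N - 1 - (i + s)))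
  rw [e1, e2]
  exact hi3.symm

/-- **Many words.** Regions of equal lengths. -/
theorem fin_words {α σ : Type} [Fintype σ] {z x : ℕ → α} {M : NFA α σ} {N E K k l : ℕ}
    (hN : (K + k) * (3 * l + E + 1) ≤ N) (hz : NoPerF z N E)
    (hacc : seg x 0 N ∈ M.accepts) (B : Finset ℕ) (hB : ∀ i, i < N → i ∉ B → x i = z i)
    (hBk : B.card ≤ k) (r : ℕ) (hr : r * Fintype.card σ ≤ l + Fintype.card σ) :
    ∃ W : Finset (List α), (∀ w ∈ W, w.length = N ∧ w ∈ M.accepts) ∧
      r ^ K / (K * l + 1) ≤ W.card := by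
  classical
  rw [NFA.accepts_iff_exists_path] at hacc
  obtain ⟨s, hs, t, ht, ⟨p⟩⟩ := hacc
  obtain ⟨f, hf0, hfN, hf⟩ := run_of_P N 0 s t (by simpa using P_of_path p)
  rw [Nat.zero_add] at hfN
  have hrun : Run M x f N := fun i hi => hf i (Nat.zero_le _) (by omega)
  have hacc' : ∀ w, P M s w t → w ∈ M.accepts := by
    intro w hw
    rw [NFA.accepts_iff_exists_path]
    exact ⟨s, hs, t, ht, path_of_P hw⟩
  obtain ⟨R, hR⟩ : ∃ R, R = 3 * l + E + 1 := ⟨_, rfl⟩
  rw [← hR] at hN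
  have hR1 : 1 ≤ R := by omega
  -- the good regions
  obtain ⟨G, hG⟩ : ∃ G : Finset ℕ, G = (range (K + k)).filter fun i =>
      ∀ e ∈ B, ¬ (i * R ≤ e ∧ e < (i + 1) * R) := ⟨_, rfl⟩
  have hGcard : K ≤ G.card := by
    have h1 : ((range (K + k)).filter fun i =>
        ¬ ∀ e ∈ B, ¬ (i * R ≤ e ∧ e < (i + 1) * R)).card ≤ B.card := by
      have hch : ∀ i ∈ (range (K + k)).filter (fun i =>
          ¬ ∀ e ∈ B, ¬ (i * R ≤ e ∧ e < (i + 1) * R)),
          ∃ e ∈ B, i * R ≤ e ∧ e < (i + 1) * R := by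
        intro i hi
        have := (mem_filter.1 hi).2
        push Not at this
        exact this
      choose! g hg1 hg2 using hch
      refine card_le_card_of_injOn g (fun i hi => hg1 i hi) ?_
      intro i hi j hj he
      have a1 := hg2 i hi
      have a2 := hg2 j hj
      rw [he] at a1
      rcases lt_trichotomy i j with h | h | h
      · have := Nat.mul_le_mul_right R (show i + 1 ≤ j by omega)
        omega
      · exact h
      · have := Nat.mul_le_mul_right R (show j + 1 ≤ i by omega)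
        omega
    have h2 := card_filter_add_card_filter_not (s := range (K + k)) (fun i =>
      ∀ e ∈ B, ¬ (i * R ≤ e ∧ e < (i + 1) * R))
    rw [card_range] at h2
    rw [hG]
    omega
  obtain ⟨g, hg⟩ : ∃ g : Fin K ↪o ℕ, g = G.orderEmbOfCardLe hGcard := ⟨_, rfl⟩
  have hgm : ∀ i, g i ∈ G := by
    intro i
    rw [hg]
    exact orderEmbOfCardLe_mem _ _ _
  have hgK : ∀ i, g i < K + k := by
    intro i
    have := hgm i
    rw [hG, mem_filter, mem_range] at this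
    exact this.1
  have hgN : ∀ i, (g i + 1) * R ≤ N := by
    intro i
    refine le_trans (Nat.mul_le_mul_right R ?_) hN
    have := hgK i
    omega
  obtain ⟨a, ha⟩ : ∃ a : ℕ → ℕ, a = fun m => if h : m < K then g ⟨m, h⟩ * R else N :=
    ⟨_, rfl⟩
  have ha1 : ∀ m (h : m < K), a m = g ⟨m, h⟩ * R := by
    intro m h
    rw [ha]
    simp [h]
  have haK : a K = N := by
    rw [ha]
    simp
  have hnext : ∀ m (h : m < K), (g ⟨m, h⟩ + 1) * R ≤ a (m + 1) := by
    intro m h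
    rcases Nat.lt_or_ge (m + 1) K with h2 | h2
    · rw [ha1 _ h2]
      apply Nat.mul_le_mul_right
      have : g ⟨m, h⟩ < g ⟨m + 1, h2⟩ := g.strictMono (by simp)
      omega
    · have : m + 1 = K := by omega
      rw [this, haK]
      exact hgN _
  have hsep : ∀ i, i < K → a i + l ≤ a (i + 1) ∧ Sep x l (a i) (a (i + 1)) := by
    intro i hi
    have h1 := hnext i hi
    have h3 : (g ⟨i, hi⟩ + 1) * R = g ⟨i, hi⟩ * R + R := by ring
    have h4 := hgN ⟨i, hi⟩
    rw [ha1 i hi]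
    refine ⟨by omega, ?_⟩
    intro u s' hu1 hu2 hs1 hs2
    have hGi := hgm ⟨i, hi⟩
    rw [hG, mem_filter] at hGi
    obtain ⟨j, hj1, hj2, hj3⟩ := hz u s' hs1 (by omega)
    have hxz : ∀ n, g ⟨i, hi⟩ * R ≤ n → n < (g ⟨i, hi⟩ + 1) * R → x n = z n := by
      intro n hn1 hn2
      refine hB n (by omega) fun hmem => ?_
      exact hGi.2 n hmem ⟨hn1, hn2⟩
    refine ⟨j, hj1, by omega, ?_⟩
    rw [hxz (j + s') (by omega) (by omega), hxz j (by omega) (by omega)]
    exact hj3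
  have hq : 1 ≤ Fintype.card σ := Fintype.card_pos_iff.2 ⟨s⟩
  obtain ⟨W, hW1, hW2⟩ := regions hrun K l r a haK.le hsep (by
    intro n hn
    by_contra hcon
    push Not at hcon
    have h1 : (n + 1) * Fintype.card σ ≤ r * Fintype.card σ := Nat.mul_le_mul_right _ hcon
    have h2 : (n + 1) * Fintype.card σ = n * Fintype.card σ + Fintype.card σ := by ring
    omega)
  refine ⟨W, fun w hw => ⟨(hW1 w hw).1, hacc' _ ?_⟩, hW2⟩
  have := (hW1 w hw).2
  rwa [hf0, hfN] at this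

/-- **Many words**, asymptotic form -/
theorem fin_main (K : ℕ) {δ : ℝ} (hδ : 0 < δ) : ∃ J N₁ : ℕ, 1 ≤ J ∧ ∀ (α σ : Type)
    [DecidableEq α] [Fintype σ] (z x : ℕ → α) (M : NFA α σ) (N E : ℕ), N₁ ≤ N → J * E ≤ N →
      NoPerF z N E → (Fintype.card σ : ℝ) ≤ (N : ℝ) ^ (1 - δ) →
      ((range N).filter fun i => x i ≠ z i).card ≤ K →
      (List.range N).map x ∈ M.accepts →
      ∃ W : Finset (List α), (∀ w ∈ W, w.length = N ∧ w ∈ M.accepts) ∧ N ^ K ≤ W.card := by
  obtain ⟨K₁, hK₁⟩ := exists_nat_gt (((K : ℝ) + 2) / δ)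
  have hK₁0 : (0 : ℝ) < K₁ := lt_of_le_of_lt (by positivity) hK₁
  have hK₁1 : 1 ≤ K₁ := by exact_mod_cast hK₁0
  rw [div_lt_iff₀ hδ] at hK₁
  obtain ⟨P, hP⟩ : ∃ P : ℕ, P = K₁ + K := ⟨_, rfl⟩
  have hP1 : 1 ≤ P := by omega
  have hPR : (1 : ℝ) ≤ P := by exact_mod_cast hP1
  obtain ⟨N₁, hN₁⟩ := exists_nat_gt ((16 * (P : ℝ)) ^ K₁ * 2 + 16 * P)
  refine ⟨2 * P, N₁, by omega, ?_⟩
  intro α σ _ _ z x M N E hN hE hz hq hk hacc
  have hNR : (N₁ : ℝ) ≤ N := by exact_mod_cast hN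
  have hpw : (0 : ℝ) < (16 * (P : ℝ)) ^ K₁ := by positivity
  have hN16 : 16 * (P : ℝ) < N := by linarith
  have hN16' : 16 * P < N := by exact_mod_cast hN16
  have hNpos : (0 : ℝ) < N := by linarith
  have hN1 : (1 : ℝ) ≤ N := by linarith
  obtain ⟨l, hl⟩ : ∃ l : ℕ, l = N / (8 * P) := ⟨_, rfl⟩
  have hl1 : 1 ≤ l := by
    rw [hl, Nat.one_le_div_iff (by omega)]
    omega
  have hl2 : l * (8 * P) ≤ N := by rw [hl]; exact Nat.div_mul_le_self _ _
  have hl3 : N < (l + 1) * (8 * P) := by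
    rw [hl]
    have := Nat.lt_mul_div_succ N (show 0 < 8 * P by omega)
    nlinarith
  have hc1 : 1 ≤ Fintype.card σ := cardG_pos hacc
  have hcR : (1 : ℝ) ≤ Fintype.card σ := by exact_mod_cast hc1
  obtain ⟨r, hr⟩ : ∃ r : ℕ, r = (l + Fintype.card σ) / Fintype.card σ := ⟨_, rfl⟩
  have hr1 : r * Fintype.card σ ≤ l + Fintype.card σ := by rw [hr]; exact Nat.div_mul_le_self _ _
  have hr2 : l < r * Fintype.card σ := by
    have h1 := Nat.lt_mul_div_succ (l + Fintype.card σ) (show 0 < Fintype.card σ by omega)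
    rw [← hr] at h1
    nlinarith
  obtain ⟨W, hW1, hW2⟩ := fin_words (z := z) (x := x) (M := M) (N := N) (E := E) (K := K₁) (k := K)
    (l := l) (by
      rw [← hP]
      have h1 : P * (3 * l + E + 1) = 3 * (P * l) + P * E + P := by ring
      have h2 : l * (8 * P) = 8 * (P * l) := by ring
      have h3 : 2 * P * E = 2 * (P * E) := by ring
      omega) hz (by rw [seg_zero]; exact hacc) ((range N).filter fun i => x i ≠ z i) (by
      intro i hi hn
      by_contra hne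
      exact hn (mem_filter.2 ⟨mem_range.2 hi, hne⟩)) hk r hr1
  refine ⟨W, hW1, ?_⟩
  -- the numbers
  have hrR : (N : ℝ) ^ δ ≤ (16 * P) * r := by
    have h1 : (N : ℝ) < ((l : ℝ) + 1) * (8 * P) := by exact_mod_cast hl3
    have h2 : ((l : ℝ) + 1) ≤ r * Fintype.card σ := by exact_mod_cast hr2
    have h3 : (N : ℝ) ≤ (8 * P) * r * Fintype.card σ := by
      calc (N : ℝ) ≤ ((l : ℝ) + 1) * (8 * P) := h1.le
        _ ≤ (r * Fintype.card σ) * (8 * P) := mul_le_mul_of_nonneg_right h2 (by positivity)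
        _ = _ := by ring
    have h4 : (N : ℝ) ≤ (8 * P) * r * (N : ℝ) ^ (1 - δ) :=
      h3.trans (mul_le_mul_of_nonneg_left hq (by positivity))
    have h5 : (N : ℝ) ^ (1 - δ) * (N : ℝ) ^ δ = N := by
      rw [← Real.rpow_add hNpos]
      norm_num
    have h6 : 0 < (N : ℝ) ^ (1 - δ) := Real.rpow_pos_of_pos hNpos _
    have h7 : (N : ℝ) ^ δ * (N : ℝ) ^ (1 - δ) ≤ ((8 * P) * r) * (N : ℝ) ^ (1 - δ) := by
      rw [mul_comm, h5]
      exact h4
    have h8 := le_of_mul_le_mul_right h7 h6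
    have h9 : (0 : ℝ) ≤ P * r := by positivity
    linarith
  have hrK : (N : ℝ) ^ (K + 2) ≤ (16 * P : ℝ) ^ K₁ * (r : ℝ) ^ K₁ := by
    rw [← mul_pow]
    calc (N : ℝ) ^ (K + 2) = (N : ℝ) ^ (((K : ℝ)) + 2) := by
          rw [← Real.rpow_natCast]
          push_cast
          rfl
      _ ≤ (N : ℝ) ^ (δ * K₁) := by
          apply Real.rpow_le_rpow_of_exponent_le hN1
          linarith
      _ = ((N : ℝ) ^ δ) ^ K₁ := by rw [Real.rpow_mul hNpos.le, Real.rpow_natCast]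
      _ ≤ ((16 * P) * r) ^ K₁ := pow_le_pow_left₀ (by positivity) hrR _
  by_contra hcon
  push Not at hcon
  have h1 : r ^ K₁ < (K₁ * l + 1) * (W.card + 1) := by
    calc r ^ K₁ < (K₁ * l + 1) * (r ^ K₁ / (K₁ * l + 1) + 1) := Nat.lt_mul_div_succ _ (by omega)
      _ ≤ _ := Nat.mul_le_mul_left _ (by omega)
  have h2 : K₁ * l + 1 ≤ N := by
    have h3 : K₁ * l ≤ P * l := Nat.mul_le_mul_right _ (by omega)
    have h4 : l * (8 * P) = 8 * (P * l) := by ring
    have h5 : 1 ≤ P * l := Nat.mul_pos (by omega) (by omega)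
    omega
  have h3 : r ^ K₁ < N * N ^ K := by
    calc r ^ K₁ < (K₁ * l + 1) * (W.card + 1) := h1
      _ ≤ N * N ^ K := Nat.mul_le_mul h2 (by omega)
  have h4 : (r : ℝ) ^ K₁ < (N : ℝ) ^ (K + 1) := by
    rw [pow_succ']
    exact_mod_cast h3
  have h5 : (N : ℝ) ^ (K + 2) < (16 * P : ℝ) ^ K₁ * (N : ℝ) ^ (K + 1) :=
    hrK.trans_lt (mul_lt_mul_of_pos_left h4 hpw)
  rw [pow_succ (N : ℝ) (K + 1), mul_comm] at h5
  have h6 := lt_of_mul_lt_mul_right h5 (by positivity)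
  linarith

end Pool.Agent.X1.NfaAlg
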