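import Mathlib
import Pool.Agent.X1.NfaFin
import Pool.Agent.X2.RidMul

/-!
# Periodic stretches in the digits of multiples of large powers
-/

set_option autoImplicit false

namespace Pool.Agent.X1.NfaAlg

open Finset Pool.Agent.X3.NfaWords

/-- the quotients at two places which agree along `l` digits -/
lemma quot_agree (q m t s l : ℕ)
    (h : ∀ i, t ≤ i → i < t + l → m / q ^ (i + s) % q = m / q ^ i % q) :
    ((m / q ^ (t + s) : ℕ) : ℤ) - (m / q ^ t : ℕ) =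
      (q : ℤ) ^ l * (((m / q ^ (t + l + s) : ℕ) : ℤ) - (m / q ^ (t + l) : ℕ)) := by
  induction l with
  | zero => simp
  | succ l ih =>
    rw [ih (fun i hi1 hi2 => h i hi1 (by omega))]
    have h1 := h (t + l) (by omega) (by omega)
    have e1 : t + (l + 1) + s = (t + l + s) + 1 := by ring
    have e2 : t + (l + 1) = (t + l) + 1 := by ring
    have h2 : m / q ^ (t + l + s) = q * (m / q ^ (t + l + s + 1)) + m / q ^ (t + l + s) % q := by
      rw [pow_succ, ← Nat.div_div_eq_div_mul]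
      exact (Nat.div_add_mod _ _).symm
    have h3 : m / q ^ (t + l) = q * (m / q ^ (t + l + 1)) + m / q ^ (t + l) % q := by
      rw [pow_succ, ← Nat.div_div_eq_div_mul]
      exact (Nat.div_add_mod _ _).symm
    have h2' : ((m / q ^ (t + l + s) : ℕ) : ℤ) =
        q * (m / q ^ (t + l + s + 1) : ℕ) + (m / q ^ (t + l + s) % q : ℕ) := by
      exact_mod_cast congrArg (Nat.cast : ℕ → ℤ) h2
    have h3' : ((m / q ^ (t + l) : ℕ) : ℤ) =
        q * (m / q ^ (t + l + 1) : ℕ) + (m / q ^ (t + l) % q : ℕ) := by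
      exact_mod_cast congrArg (Nat.cast : ℕ → ℤ) h3
    rw [e1, e2, h2', h3', h1]
    ring

/-- the identity behind a periodic stretch -/
lemma stretch_eq (q m t s l : ℕ)
    (h : ∀ i, t ≤ i → i < t + l → m / q ^ (i + s) % q = m / q ^ i % q) :
    ((q : ℤ) ^ s - 1) * m = (((m / q ^ (t + l) : ℕ) : ℤ) - (m / q ^ (t + l + s) : ℕ)) *
      (q : ℤ) ^ (t + l + s) + ((q : ℤ) ^ s * (m % q ^ t : ℕ) - (m % q ^ (t + s) : ℕ)) := by
  have h1 := quot_agree q m t s l h
  have h2 : ((m : ℕ) : ℤ) = (q : ℤ) ^ t * (m / q ^ t : ℕ) + (m % q ^ t : ℕ) := by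
    exact_mod_cast (Nat.div_add_mod m (q ^ t)).symm
  have h3 : ((m : ℕ) : ℤ) = (q : ℤ) ^ (t + s) * (m / q ^ (t + s) : ℕ) + (m % q ^ (t + s) : ℕ) := by
    exact_mod_cast (Nat.div_add_mod m (q ^ (t + s))).symm
  have e1 : (q : ℤ) ^ (t + s) = q ^ t * q ^ s := pow_add _ _ _
  have e2 : (q : ℤ) ^ (t + l + s) = q ^ t * q ^ l * q ^ s := by rw [pow_add, pow_add]
  rw [e2]
  rw [e1] at h3
  linear_combination (q : ℤ) ^ s * h2 - h3 - (q : ℤ) ^ t * q ^ s * h1

/-- the size of the remainder -/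
lemma stretch_small {q : ℕ} (hq : 1 ≤ q) (m t s : ℕ) :
    |(q : ℝ) ^ s * ((m % q ^ t : ℕ) : ℝ) - ((m % q ^ (t + s) : ℕ) : ℝ)| ≤ (q : ℝ) ^ (t + s) := by
  have hqR : (1 : ℝ) ≤ q := by exact_mod_cast hq
  have h1 : ((m % q ^ t : ℕ) : ℝ) ≤ (q : ℝ) ^ t := by
    exact_mod_cast (Nat.mod_lt _ (by positivity)).le
  have h2 : ((m % q ^ (t + s) : ℕ) : ℝ) ≤ (q : ℝ) ^ (t + s) := by
    exact_mod_cast (Nat.mod_lt _ (by positivity)).le
  have h3 : (q : ℝ) ^ s * ((m % q ^ t : ℕ) : ℝ) ≤ (q : ℝ) ^ (t + s) := by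
    rw [pow_add, mul_comm ((q : ℝ) ^ t)]
    exact mul_le_mul_of_nonneg_left h1 (by positivity)
  have h4 : 0 ≤ (q : ℝ) ^ s * ((m % q ^ t : ℕ) : ℝ) := by positivity
  have h5 : (0 : ℝ) ≤ ((m % q ^ (t + s) : ℕ) : ℝ) := Nat.cast_nonneg _
  rw [abs_le]
  constructor <;> linarith

/-- The digits of the multiples `u p ^ n` of the powers of `p` in base `q`: short periodic
stretches. -/
theorem pow_noPerF {p q : ℕ} (hp : 2 ≤ p) (hq : 2 ≤ q) (hpq : q.Coprime p) (η : ℝ) (hη : 0 < η) :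
    ∃ C : ℝ, ∀ u n N E : ℕ, 1 ≤ u → q ^ (N - 1) ≤ u * p ^ n → u * p ^ n < q ^ N →
      Real.logb q u + η * N + C < E → NoPerF (fun i => u * p ^ n / q ^ i % q) N E := by
  obtain ⟨κ, hκ, hR⟩ := Pool.Agent.X2.RidMul.ridout_mul hq hp hpq (η / 2) (by positivity)
  refine ⟨|Real.logb q κ| + 1, fun u n N E hu hN1 hN2 hE => ?_⟩
  have hqR : (2 : ℝ) ≤ q := by exact_mod_cast hq
  have hq0 : (0 : ℝ) < q := by linarith
  have hq1 : (1 : ℝ) < q := by linarith
  have huR : (1 : ℝ) ≤ u := by exact_mod_cast hu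
  have hlu : 0 ≤ Real.logb q u := Real.logb_nonneg hq1 huR
  have hE1 : (1 : ℝ) < E := by
    have h1 : 0 ≤ η * (N : ℝ) := by positivity
    have h2 := abs_nonneg (Real.logb q κ)
    linarith
  have hE1' : 1 < E := by exact_mod_cast hE1
  intro t s hs ht
  by_contra hcon
  push Not at hcon
  obtain ⟨l, hl⟩ : ∃ l, l = s + E - 1 := ⟨_, rfl⟩
  obtain ⟨m, hm⟩ : ∃ m, m = u * p ^ n := ⟨_, rfl⟩
  have hst := stretch_eq q m t s l (by
    intro i hi1 hi2
    have := hcon i hi1 (by omega)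
    rw [hm]
    exact this)
  have hsm := stretch_small (show 1 ≤ q by omega) m t s
  have hbs : 2 ≤ q ^ s := by
    calc 2 ≤ q := hq
      _ = q ^ 1 := (pow_one q).symm
      _ ≤ q ^ s := Nat.pow_le_pow_right (by omega) hs
  have hn0 : 1 ≤ (q ^ s - 1) * u := Nat.mul_pos (by omega) hu
  have hNν : t + l + s ≤ N - 1 := by omega
  have hcast : ((q ^ s - 1 : ℕ) : ℝ) = (q : ℝ) ^ s - 1 := by
    push_cast [Nat.cast_sub (show 1 ≤ q ^ s by omega)]
    ring
  have hcastZ : ((q ^ s - 1 : ℕ) : ℤ) = (q : ℤ) ^ s - 1 := by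
    push_cast [Nat.cast_sub (show 1 ≤ q ^ s by omega)]
    ring
  have hlow : q ^ (t + l + s) ≤ (q ^ s - 1) * u * p ^ n := by
    calc q ^ (t + l + s) ≤ q ^ (N - 1) := Nat.pow_le_pow_right (by omega) hNν
      _ ≤ u * p ^ n := hN1
      _ ≤ (q ^ s - 1) * (u * p ^ n) := Nat.le_mul_of_pos_left _ (by omega)
      _ = _ := by ring
  have hR1 := hR ((q ^ s - 1) * u) (t + l + s) n
    (((m / q ^ (t + l) : ℕ) : ℤ) - (m / q ^ (t + l + s) : ℕ)) hn0 (by exact_mod_cast hlow) (by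
      intro he
      -- then `q ^ ν` divides `u`
      have hdvd : q ^ (t + l + s) ∣ (q ^ s - 1) * u * p ^ n := by
        have h1 : ((q ^ (t + l + s) : ℕ) : ℤ) ∣ (((q ^ s - 1) * u * p ^ n : ℕ) : ℤ) := by
          push_cast at he ⊢
          rw [he]
          exact Dvd.intro_left _ rfl
        exact Int.natCast_dvd_natCast.1 h1
      have hc1 : (q ^ (t + l + s)).Coprime (p ^ n) := Nat.Coprime.pow _ _ hpq
      have h2 := hc1.dvd_of_dvd_mul_right hdvd
      have hc2 : (q ^ (t + l + s)).Coprime (q ^ s - 1) := by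
        apply Nat.Coprime.pow_left
        have h3 : (q ^ s).Coprime (q ^ s - 1) := by
          have h4 : (q ^ s - 1 + 1).Coprime (q ^ s - 1) := by
            rw [Nat.coprime_self_add_left]
            exact Nat.coprime_one_left _
          rwa [Nat.sub_add_cancel (by omega)] at h4
        exact Nat.Coprime.coprime_dvd_left (dvd_pow_self q (by omega)) h3
      have h3 := hc2.dvd_of_dvd_mul_left h2
      have h4 := Nat.le_of_dvd (by omega) h3
      have h5 : (q : ℝ) ^ (t + l + s) ≤ u := by exact_mod_cast h4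
      have h6 : ((t + l + s : ℕ) : ℝ) ≤ Real.logb q u := by
        rw [Real.le_logb_iff_rpow_le hq1 (by linarith), Real.rpow_natCast]
        exact h5
      have h7 : (E : ℝ) ≤ ((t + l + s : ℕ) : ℝ) := by exact_mod_cast (by omega)
      have h8 : 0 ≤ η * (N : ℝ) := by positivity
      have h9 := abs_nonneg (Real.logb q κ)
      linarith)
  -- the remainder
  have hrem : |(((q ^ s - 1) * u : ℕ) : ℝ) * (p : ℝ) ^ n -
      ((((m / q ^ (t + l) : ℕ) : ℤ) - (m / q ^ (t + l + s) : ℕ) : ℤ) : ℝ) *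
        (q : ℝ) ^ (t + l + s)| ≤ (q : ℝ) ^ (t + s) := by
    have h1 : (((q ^ s - 1) * u : ℕ) : ℝ) * (p : ℝ) ^ n -
      ((((m / q ^ (t + l) : ℕ) : ℤ) - (m / q ^ (t + l + s) : ℕ) : ℤ) : ℝ) *
        (q : ℝ) ^ (t + l + s) =
        (q : ℝ) ^ s * ((m % q ^ t : ℕ) : ℝ) - ((m % q ^ (t + s) : ℕ) : ℝ) := by
      have h2 : ((q : ℝ) ^ s - 1) * m = (((m / q ^ (t + l) : ℕ) : ℝ) -
          ((m / q ^ (t + l + s) : ℕ) : ℝ)) * (q : ℝ) ^ (t + l + s) +
          ((q : ℝ) ^ s * ((m % q ^ t : ℕ) : ℝ) - ((m % q ^ (t + s) : ℕ) : ℝ)) := by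
        exact_mod_cast congrArg (Int.cast : ℤ → ℝ) hst
      have h3 : (m : ℝ) = u * (p : ℝ) ^ n := by rw [hm]; push_cast; ring
      have h4 : ((((m / q ^ (t + l) : ℕ) : ℤ) - (m / q ^ (t + l + s) : ℕ) : ℤ) : ℝ) =
          ((m / q ^ (t + l) : ℕ) : ℝ) - ((m / q ^ (t + l + s) : ℕ) : ℝ) := by
        rw [Int.cast_sub, Int.cast_natCast, Int.cast_natCast]
      rw [Nat.cast_mul, hcast, h4, mul_assoc ((q : ℝ) ^ s - 1) (u : ℝ), ← h3, h2]
      ring
    rw [h1]
    exact hsm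
  -- the numbers
  have hmR : (u : ℝ) * (p : ℝ) ^ n ≤ (q : ℝ) ^ N := by exact_mod_cast hN2.le
  have hm0 : (0 : ℝ) < (u : ℝ) * (p : ℝ) ^ n := by
    have : (0 : ℝ) < p := by
      have : 0 < p := by omega
      exact_mod_cast this
    positivity
  have hqs : (q : ℝ) ^ s - 1 ≤ (q : ℝ) ^ s := by linarith
  have hqs1 : (1 : ℝ) ≤ (q : ℝ) ^ s - 1 := by
    have : (2 : ℝ) ≤ (q : ℝ) ^ s := by exact_mod_cast hbs
    linarith
  have hbase : (((q ^ s - 1) * u : ℕ) : ℝ) * (p : ℝ) ^ n ≤ (q : ℝ) ^ (s + N) := by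
    rw [Nat.cast_mul, hcast, pow_add, mul_assoc]
    exact mul_le_mul hqs hmR hm0.le (by positivity)
  have hbase0 : 0 ≤ (((q ^ s - 1) * u : ℕ) : ℝ) * (p : ℝ) ^ n := by positivity
  have h1 : κ * (q : ℝ) ^ (t + l + s) ≤
      ((q : ℝ) ^ s * u) * (((q : ℝ) ^ (s + N)) ^ (η / 2) * (q : ℝ) ^ (t + s)) := by
    refine hR1.trans ?_
    apply mul_le_mul
    · rw [Nat.cast_mul, hcast]
      exact mul_le_mul_of_nonneg_right hqs (by linarith)
    · apply mul_le_mul
      · exact Real.rpow_le_rpow hbase0 hbase (by positivity)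
      · exact hrem
      · exact abs_nonneg _
      · positivity
    · exact mul_nonneg (Real.rpow_nonneg hbase0 _) (abs_nonneg _)
    · positivity
  have h2 := Real.logb_le_logb_of_le hq1 (by positivity) h1
  rw [Real.logb_mul hκ.ne' (by positivity), Real.logb_mul (by positivity) (by positivity),
    Real.logb_mul (by positivity) (by positivity), Real.logb_mul (by positivity) (by positivity),
    Real.logb_rpow_eq_mul_logb_of_pos (by positivity)] at h2
  have hlp : ∀ k : ℕ, Real.logb q ((q : ℝ) ^ k) = k := by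
    intro k
    rw [← Real.rpow_natCast, Real.logb_rpow hq0 hq1.ne']
  rw [hlp, hlp, hlp, hlp] at h2
  have h3 := neg_abs_le (Real.logb q κ)
  have h4 : (l : ℝ) = s + E - 1 := by
    rw [hl, Nat.cast_sub (by omega)]
    push_cast
    ring
  have h5 : (s : ℝ) ≤ N := by exact_mod_cast (by omega : s ≤ N)
  push_cast at h2
  nlinarith

lemma NoPerF.congr {α : Type} {x y : ℕ → α} {N E : ℕ} (h : NoPerF x N E)
    (hxy : ∀ i, i < N → y i = x i) : NoPerF y N E := by
  intro t s hs ht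
  obtain ⟨i, hi1, hi2, hi3⟩ := h t s hs ht
  refine ⟨i, hi1, hi2, ?_⟩
  rw [hxy _ (by omega), hxy _ (by omega)]
  exact hi3

lemma NoPerF.window {α : Type} {x : ℕ → α} {N E : ℕ} (h : NoPerF x N E) {t L : ℕ}
    (hL : t + L ≤ N) : NoPerF (fun i => x (t + i)) L E := by
  intro t' s hs ht
  obtain ⟨i, hi1, hi2, hi3⟩ := h (t + t') s hs (by omega)
  refine ⟨i - t, by omega, by omega, ?_⟩
  have e1 : t + (i - t + s) = i + s := by omega
  have e2 : t + (i - t) = i := by omega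
  show x (t + (i - t + s)) ≠ x (t + (i - t))
  rw [e1, e2]
  exact hi3

set_option maxHeartbeats 1000000 in
/-- the multiples of large powers: many accepted words -/
theorem pow_words {p q : ℕ} (hp : 2 ≤ p) (hq : 2 ≤ q) (hpq : p.Coprime q) {ε δ : ℝ} (hε : 0 < ε)
    (hδ : 0 < δ) (K : ℕ) : ∃ η : ℝ, 0 < η ∧ ∃ n₀ : ℕ, ∀ n m t L : ℕ, n₀ ≤ n → p ^ n ∣ m → 0 < m →
      (m : ℝ) ≤ (p : ℝ) ^ ((1 + η) * n) → t + L ≤ (Nat.digits q m).length → ε * n ≤ L →
      ∀ y : ℕ → ℕ,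
      ((∀ i, i < L → y i = m / q ^ (t + i) % q) ∨
        (∀ i, i < L → y i = m / q ^ (t + (L - 1 - i)) % q)) →
      ∀ (σ : Type) [Fintype σ] (M : NFA ℕ σ), (Fintype.card σ : ℝ) ≤ (L : ℝ) ^ (1 - δ) →
      ∀ d : ℕ → ℕ, ((range L).filter fun i => d i ≠ y i).card ≤ K →
      (List.range L).map d ∈ M.accepts →
      ∃ W : Finset (List ℕ), (∀ w ∈ W, w.length = L ∧ w ∈ M.accepts) ∧ L ^ K ≤ W.card := by
  obtain ⟨J, N₁, hJ, hmain⟩ := fin_main K hδ
  have hJR : (1 : ℝ) ≤ J := by exact_mod_cast hJ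
  have hJ0 : (0 : ℝ) < J := by linarith
  have hqR : (2 : ℝ) ≤ q := by exact_mod_cast hq
  have hpR : (2 : ℝ) ≤ p := by exact_mod_cast hp
  have hq0 : (0 : ℝ) < q := by linarith
  have hq1 : (1 : ℝ) < q := by linarith
  obtain ⟨c, hc⟩ : ∃ c, c = Real.logb q p := ⟨_, rfl⟩
  have hc0 : 0 < c := by rw [hc]; exact Real.logb_pos hq1 (by linarith)
  obtain ⟨η, hη⟩ : ∃ η : ℝ, η = min 1 (ε / (4 * J * (c + 1))) := ⟨_, rfl⟩
  have hη0 : 0 < η := by rw [hη]; positivity
  have hη1 : η ≤ 1 := by rw [hη]; exact min_le_left _ _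
  have hη2 : η * (c + 1) ≤ ε / (4 * J) := by
    have h1 : η ≤ ε / (4 * J * (c + 1)) := by rw [hη]; exact min_le_right _ _
    calc η * (c + 1) ≤ ε / (4 * J * (c + 1)) * (c + 1) :=
          mul_le_mul_of_nonneg_right h1 (by linarith)
      _ = ε / (4 * J) := by field_simp
  obtain ⟨η', hη'⟩ : ∃ η' : ℝ, η' = ε / (16 * J * (c + 1)) := ⟨_, rfl⟩
  have hη'0 : 0 < η' := by rw [hη']; positivity
  obtain ⟨C, hC⟩ := pow_noPerF hp hq hpq.symm η' hη'0
  obtain ⟨n₀, hn₀⟩ := exists_nat_gt ((N₁ + 2 * J * (|C| + 2)) / ε + 1 / c)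
  refine ⟨η, hη0, n₀, ?_⟩
  intro n m t L hn hdvd hm hmη htL hεL y hy σ _ M hq' d hd hacc
  obtain ⟨u, hu⟩ := hdvd
  have hu1 : 1 ≤ u := by
    rcases Nat.eq_zero_or_pos u with h | h
    · rw [h] at hu; omega
    · exact h
  have hmu : m = u * p ^ n := by rw [hu, mul_comm]
  have hp0 : (0 : ℝ) < (p : ℝ) ^ n := by positivity
  obtain ⟨N, hN⟩ : ∃ N, N = (Nat.digits q m).length := ⟨_, rfl⟩
  rw [← hN] at htL
  have hlen : N = Nat.log q m + 1 := by rw [hN, Nat.length_digits q m (by omega) (by omega)]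
  have hN1 : q ^ (N - 1) ≤ m := by
    rw [hlen, Nat.add_sub_cancel]
    exact Nat.pow_log_le_self q (by omega)
  have hN2 : m < q ^ N := by
    rw [hlen]
    exact Nat.lt_pow_succ_log_self (by omega) m
  -- the size of `N`
  have hnR : (n₀ : ℝ) ≤ n := by exact_mod_cast hn
  have hn0R : (0 : ℝ) ≤ n := Nat.cast_nonneg _
  have hpos1 : 0 ≤ ((N₁ : ℝ) + 2 * J * (|C| + 2)) / ε := by positivity
  have hpos2 : 0 < 1 / c := by positivity
  have hn1c : 1 ≤ n * c := by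
    have h1 : 1 / c ≤ n := by linarith
    rwa [div_le_iff₀ hc0] at h1
  have hNup : (N : ℝ) ≤ 4 * (n * c) := by
    have h1 : ((N - 1 : ℕ) : ℝ) ≤ (1 + η) * n * c := by
      have h2 : (q : ℝ) ^ (N - 1) ≤ (p : ℝ) ^ ((1 + η) * n) :=
        le_trans (by exact_mod_cast hN1) hmη
      have h3 := Real.logb_le_logb_of_le hq1 (by positivity) h2
      rw [← Real.rpow_natCast, Real.logb_rpow hq0 hq1.ne',
        Real.logb_rpow_eq_mul_logb_of_pos (by linarith), ← hc] at h3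
      exact h3
    have h2 : ((N - 1 : ℕ) : ℝ) = N - 1 := by
      rw [Nat.cast_sub (by omega)]
      push_cast
      ring
    have h3 : (1 + η) * n * c ≤ 2 * (n * c) := by nlinarith
    linarith
  have hbig : (N₁ : ℝ) + 2 * J * (|C| + 2) < L := by
    have h1 : ((N₁ : ℝ) + 2 * J * (|C| + 2)) / ε < n := by linarith
    rw [div_lt_iff₀ hε] at h1
    linarith
  have hN₁ : N₁ ≤ L := by
    have h1 : 0 ≤ 2 * (J : ℝ) * (|C| + 2) := by positivity
    have h2 : (N₁ : ℝ) ≤ L := by linarith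
    exact_mod_cast h2
  obtain ⟨E, hE⟩ : ∃ E : ℕ, E = L / J := ⟨_, rfl⟩
  have hE1 : J * E ≤ L := by rw [hE]; exact Nat.mul_div_le L J
  have hE2 : (L : ℝ) / J - 1 < E := by
    have h1 : L < J * (E + 1) := by rw [hE]; exact Nat.lt_mul_div_succ L (by omega)
    have h2 : (L : ℝ) < J * (E + 1) := by exact_mod_cast h1
    rw [sub_lt_iff_lt_add, div_lt_iff₀ hJ0]
    linarith
  have hlu : Real.logb q u ≤ (L : ℝ) / J / 4 := by
    have h1 : (u : ℝ) ≤ (p : ℝ) ^ (η * n) := by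
      have h2 : (u : ℝ) * (p : ℝ) ^ n ≤ (p : ℝ) ^ (η * n) * (p : ℝ) ^ n := by
        calc (u : ℝ) * (p : ℝ) ^ n = m := by rw [hmu]; push_cast; ring
          _ ≤ (p : ℝ) ^ ((1 + η) * n) := hmη
          _ = (p : ℝ) ^ (η * n) * (p : ℝ) ^ n := by
              rw [← Real.rpow_natCast, ← Real.rpow_add (by linarith)]
              congr 1
              ring
      exact le_of_mul_le_mul_right h2 hp0
    have h2 := Real.logb_le_logb_of_le hq1 (by exact_mod_cast hu1) h1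
    rw [Real.logb_rpow_eq_mul_logb_of_pos (by linarith), ← hc] at h2
    have h3 : η * n * c ≤ (ε / (4 * J)) * n := by
      calc η * n * c = (η * c) * n := by ring
        _ ≤ (η * (c + 1)) * n := mul_le_mul_of_nonneg_right
            (mul_le_mul_of_nonneg_left (by linarith) hη0.le) hn0R
        _ ≤ (ε / (4 * J)) * n := mul_le_mul_of_nonneg_right hη2 hn0R
    have h4 : (ε / (4 * J)) * n = ε * n / J / 4 := by field_simp
    have h5 : ε * n / J / 4 ≤ (L : ℝ) / J / 4 := by gcongr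
    linarith
  have hηN : η' * N ≤ (L : ℝ) / J / 4 := by
    have h1 : η' * N ≤ η' * (4 * (n * c)) := mul_le_mul_of_nonneg_left hNup hη'0.le
    have h2 : η' * (4 * (n * c)) ≤ η' * (c + 1) * (4 * n) := by
      calc η' * (4 * (n * c)) = (η' * c) * (4 * n) := by ring
        _ ≤ (η' * (c + 1)) * (4 * n) :=
          mul_le_mul_of_nonneg_right (mul_le_mul_of_nonneg_left (by linarith) hη'0.le)
            (by linarith)
    have h3 : η' * (c + 1) * (4 * n) = ε * n / J / 4 := by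
      rw [hη']
      field_simp
      ring
    have h5 : ε * n / J / 4 ≤ (L : ℝ) / J / 4 := by gcongr
    linarith
  have hNP := hC u n N E hu1 (by rw [← hmu]; exact hN1) (by rw [← hmu]; exact hN2) (by
    have h2 : 2 * (|C| + 2) < (L : ℝ) / J := by
      rw [lt_div_iff₀ hJ0]
      have : (0 : ℝ) ≤ N₁ := Nat.cast_nonneg _
      linarith
    have h3 := le_abs_self C
    linarith)
  have hz : NoPerF y L E := by
    rcases hy with hy | hy
    · refine (hNP.window htL).congr fun i hi => ?_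
      rw [hy i hi, hmu]
    · refine (hNP.window htL).reverse.congr fun i hi => ?_
      rw [hy i hi, hmu]
  exact hmain ℕ σ y d M L E hN₁ hE1 hz hq' hd hacc

end Pool.Agent.X1.NfaAlg
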