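import Mathlib
import Pool.Agent.X1.MobC

/-!
# The elements of a number field are dense at the expected scale
-/

set_option autoImplicit false

namespace Pool.Agent.X1.SchP

open Finset Filter Topology

lemma layer_count {T : ℕ} (ξ : Fin T → ℝ) (hpos : ∀ k : ℕ, 1 ≤ k → ∀ i, 0 < nd (k * ξ i))
    (B : ℕ) (s : ℝ) (D : ℝ) (hD : ∀ K : ℕ, ∑ k ∈ Icc 1 K, G ξ B k ≤ D * K) (R : ℕ) (hR : 1 ≤ R)
    (i : ℕ) :
    (((box T B).filter fun a => nd (s + ∑ i, (a i : ℝ) * ξ i) ≤ 2 ^ (i + 1) / (R : ℝ)).card : ℝ) ≤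
      128 * 2 ^ i * (B : ℝ) ^ T / R + 8 * D := by
  have hR0 : (0 : ℝ) < R := by exact_mod_cast hR
  have hD0 : 0 ≤ D := by
    have := hD 1
    rw [Nat.cast_one, mul_one] at this
    exact le_trans (Finset.sum_nonneg fun k _ => G_nonneg ξ B k) this
  rcases Nat.lt_or_ge R (2 ^ (i + 4)) with h | h
  · have h1 : (((box T B).filter fun a => nd (s + ∑ i, (a i : ℝ) * ξ i) ≤
        2 ^ (i + 1) / (R : ℝ)).card : ℝ) ≤ (B : ℝ) ^ T := by
      rw [← card_box]
      exact_mod_cast Finset.card_le_card (filter_subset _ _)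
    refine h1.trans ?_
    have h2 : (R : ℝ) ≤ 16 * 2 ^ i := by
      have : (R : ℝ) ≤ ((2 ^ (i + 4) : ℕ) : ℝ) := by exact_mod_cast h.le
      refine this.trans (le_of_eq ?_)
      push_cast
      rw [pow_add]; ring
    have h3 : (B : ℝ) ^ T ≤ 128 * 2 ^ i * (B : ℝ) ^ T / R := by
      rw [le_div_iff₀ hR0]
      have h4 : (0 : ℝ) ≤ (B : ℝ) ^ T := by positivity
      have h5 : (0 : ℝ) < 2 ^ i := by positivity
      nlinarith
    linarith
  · set H : ℕ := R / 2 ^ (i + 4) with hH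
    have hH1 : 1 ≤ H := (Nat.one_le_div_iff (by positivity)).2 h
    have hH0 : (0 : ℝ) < H := by exact_mod_cast hH1
    have h1 : (H : ℝ) * 2 ^ (i + 4) ≤ R := by
      have := Nat.div_mul_le_self R (2 ^ (i + 4))
      rw [← hH] at this
      exact_mod_cast this
    have h2 : (R : ℝ) ≤ H * (32 * 2 ^ i) := by
      have h3 : R < 2 ^ (i + 4) * (H + 1) := Nat.lt_mul_div_succ R (by positivity)
      have h4 : R ≤ H * (32 * 2 ^ i) := by
        have h5 : (2 : ℕ) ^ (i + 4) = 16 * 2 ^ i := by rw [pow_add]; ring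
        rw [h5] at h3
        have h6 : 16 * 2 ^ i * (H + 1) ≤ 16 * 2 ^ i * (2 * H) :=
          Nat.mul_le_mul_left _ (by omega)
        nlinarith
      exact_mod_cast h4
    have h3 := count_general (box T B) (fun a => s + ∑ i, (a i : ℝ) * ξ i) H hH1
    have hsub : ((box T B).filter fun a => nd (s + ∑ i, (a i : ℝ) * ξ i) ≤
        2 ^ (i + 1) / (R : ℝ)) ⊆ (box T B).filter fun a =>
          nd (s + ∑ i, (a i : ℝ) * ξ i) ≤ 1 / (8 * H) := by
      intro a ha
      rw [mem_filter] at ha ⊢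
      refine ⟨ha.1, ha.2.trans ?_⟩
      rw [div_le_div_iff₀ hR0 (by positivity)]
      have h4 : (2 : ℝ) ^ (i + 4) = 8 * 2 ^ (i + 1) := by rw [pow_add, pow_add]; ring
      rw [h4] at h1
      linarith
    have h4 : (((box T B).filter fun a => nd (s + ∑ i, (a i : ℝ) * ξ i) ≤
        2 ^ (i + 1) / (R : ℝ)).card : ℝ) ≤ _ := le_trans (by exact_mod_cast card_le_card hsub) h3
    refine h4.trans ?_
    rw [card_box]
    apply add_le_add
    · rw [mul_div_assoc', div_le_div_iff₀ hH0 hR0]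
      have h5 : (0 : ℝ) ≤ (B : ℝ) ^ T := by positivity
      calc 4 * (B : ℝ) ^ T * R ≤ 4 * (B : ℝ) ^ T * (H * (32 * 2 ^ i)) :=
            mul_le_mul_of_nonneg_left h2 (by positivity)
        _ = 128 * 2 ^ i * (B : ℝ) ^ T * H := by ring
    · have h5 : ∑ h ∈ Ico 1 H, ‖∑ z ∈ box T B, E (h * (s + ∑ i, (z i : ℝ) * ξ i))‖ ≤ D * H := by
        calc ∑ h ∈ Ico 1 H, ‖∑ z ∈ box T B, E (h * (s + ∑ i, (z i : ℝ) * ξ i))‖
            ≤ ∑ h ∈ Ico 1 H, G ξ B h := by
              apply Finset.sum_le_sum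
              intro h hh
              exact boxsum ξ hpos B s h (mem_Ico.1 hh).1
          _ ≤ ∑ h ∈ Icc 1 H, G ξ B h := by
              apply Finset.sum_le_sum_of_subset_of_nonneg
              · intro h hh
                rw [mem_Ico] at hh
                rw [mem_Icc]
                omega
              · intro h _ _; exact G_nonneg ξ B h
          _ ≤ D * H := hD H
      calc 8 / (H : ℝ) * ∑ h ∈ Ico 1 H, ‖∑ z ∈ box T B, E (h * (s + ∑ i, (z i : ℝ) * ξ i))‖
          ≤ 8 / (H : ℝ) * (D * H) := mul_le_mul_of_nonneg_left h5 (by positivity)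
        _ = 8 * D := by field_simp

/-- if there is no point near the origin then the box is small -/
lemma no_point {T : ℕ} (ξ : Fin T → ℝ) (hpos : ∀ k : ℕ, 1 ≤ k → ∀ i, 0 < nd (k * ξ i))
    (B : ℕ) (s : ℝ) (D : ℝ) (hD : ∀ K : ℕ, ∑ k ∈ Icc 1 K, G ξ B k ≤ D * K) (R : ℕ) (hR : 1 ≤ R)
    (hno : ∀ a ∈ box T B, 1 / (R : ℝ) < nd (s + ∑ i, (a i : ℝ) * ξ i)) :
    (B : ℝ) ^ T ≤ 700 * R * D := by
  classical
  have hR0 : (0 : ℝ) < R := by exact_mod_cast hR
  have hD0 : 0 ≤ D := by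
    have := hD 1
    rw [Nat.cast_one, mul_one] at this
    exact le_trans (Finset.sum_nonneg fun k _ => G_nonneg ξ B k) this
  set N : ℝ := (B : ℝ) ^ T with hN
  have hN0 : 0 ≤ N := by positivity
  have h1 := second_low ξ hpos B s (256 * R)
  have h2 := hD (256 * R)
  push_cast at h1 h2
  have h3 : ∑ a ∈ box T B, ‖∑ j ∈ range (256 * R), E (j * (s + ∑ i, (a i : ℝ) * ξ i))‖ ^ 2 ≤
      64 * R * N + 4 * (R : ℝ) ^ 2 * D := by
    calc ∑ a ∈ box T B, ‖∑ j ∈ range (256 * R), E (j * (s + ∑ i, (a i : ℝ) * ξ i))‖ ^ 2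
        ≤ ∑ a ∈ box T B, ∑ i ∈ range (Nat.log 2 R + 1),
          (if nd (s + ∑ i, (a i : ℝ) * ξ i) ≤ 2 ^ (i + 1) / (R : ℝ) then
            (R : ℝ) ^ 2 / 4 ^ (i + 1) else 0) := by
          apply Finset.sum_le_sum
          intro a ha
          refine le_trans ?_ (layer R hR _ (hno a ha))
          have h0 : 0 < nd (s + ∑ i, (a i : ℝ) * ξ i) := lt_trans (by positivity) (hno a ha)
          exact pow_le_pow_left₀ (norm_nonneg _) ((geo _ _ h0).trans (min_le_right _ _)) 2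
      _ = ∑ i ∈ range (Nat.log 2 R + 1), ((R : ℝ) ^ 2 / 4 ^ (i + 1)) *
            (((box T B).filter fun a => nd (s + ∑ i, (a i : ℝ) * ξ i) ≤
              2 ^ (i + 1) / (R : ℝ)).card : ℝ) := by
          rw [Finset.sum_comm]
          apply Finset.sum_congr rfl
          intro i _
          rw [← Finset.sum_filter, Finset.sum_const, nsmul_eq_mul, mul_comm]
      _ ≤ ∑ i ∈ range (Nat.log 2 R + 1), ((32 * R * N) * (1 / 2) ^ i +
            (2 * (R : ℝ) ^ 2 * D) * (1 / 2) ^ i) := by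
          apply Finset.sum_le_sum
          intro i _
          have h4 := layer_count ξ hpos B s D hD R hR i
          calc ((R : ℝ) ^ 2 / 4 ^ (i + 1)) * (((box T B).filter fun a =>
                nd (s + ∑ i, (a i : ℝ) * ξ i) ≤ 2 ^ (i + 1) / (R : ℝ)).card : ℝ)
              ≤ ((R : ℝ) ^ 2 / 4 ^ (i + 1)) * (128 * 2 ^ i * N / R + 8 * D) :=
                mul_le_mul_of_nonneg_left h4 (by positivity)
            _ = (32 * R * N) * (2 ^ i / 4 ^ i) + (2 * (R : ℝ) ^ 2 * D) * (1 / 4 ^ i) := by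
                rw [pow_succ (4 : ℝ) i]
                field_simp
                ring
            _ ≤ (32 * R * N) * (1 / 2) ^ i + (2 * (R : ℝ) ^ 2 * D) * (1 / 2) ^ i := by
                apply add_le_add
                · apply le_of_eq
                  congr 1
                  rw [← div_pow]; norm_num
                · apply mul_le_mul_of_nonneg_left _ (by positivity)
                  rw [← one_div_pow]
                  exact pow_le_pow_left₀ (by norm_num) (by norm_num) i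
      _ = (32 * R * N + 2 * (R : ℝ) ^ 2 * D) * ∑ i ∈ range (Nat.log 2 R + 1), (1 / 2 : ℝ) ^ i := by
          rw [Finset.sum_add_distrib, ← Finset.mul_sum, ← Finset.mul_sum]
          ring
      _ ≤ (32 * R * N + 2 * (R : ℝ) ^ 2 * D) * 2 := by
          apply mul_le_mul_of_nonneg_left _ (by positivity)
          rw [geom_sum_eq (by norm_num)]
          have : (0 : ℝ) < (1 / 2) ^ (Nat.log 2 R + 1) := by positivity
          rw [div_le_iff_of_neg (by norm_num)]
          linarith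
      _ = 64 * R * N + 4 * (R : ℝ) ^ 2 * D := by ring
  have h4 : 2 * (256 * (R : ℝ)) * ∑ k ∈ Icc 1 (256 * R), G ξ B k ≤
      2 * (256 * (R : ℝ)) * (D * (256 * R)) := mul_le_mul_of_nonneg_left h2 (by positivity)
  have h5 : (R : ℝ) * (192 * N) ≤ R * (131076 * R * D) := by
    nlinarith
  have h6 := le_of_mul_le_mul_left h5 hR0
  have h7 : 0 ≤ (R : ℝ) * D := by positivity
  nlinarith

/-- **Density at the expected scale.** -/
theorem dense {T : ℕ} (hT : 1 ≤ T) (ξ : Fin T → ℝ) (hξ : ∀ i, IsAlgebraic ℚ (ξ i))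
    (hind : ∀ (y0 : ℤ) (y : Fin T → ℤ), (y0 : ℝ) + ∑ i, (y i : ℝ) * ξ i = 0 → y0 = 0 ∧ y = 0)
    (δ : ℝ) (hδ : 0 < δ) :
    ∃ R₀ : ℕ, 1 ≤ R₀ ∧ ∀ R : ℕ, R₀ ≤ R → ∀ B : ℕ, (R : ℝ) ^ (1 / (T : ℝ) + δ) ≤ B → ∀ s : ℝ,
      ∃ a ∈ box T B, nd (s + ∑ i, (a i : ℝ) * ξ i) ≤ 1 / R := by
  have hT0 : (0 : ℝ) < T := by exact_mod_cast hT
  set θ : ℝ := 1 / (T : ℝ) + δ with hθ
  have hθ0 : 0 < θ := by positivity
  set τ : ℝ := 1 / θ with hτ
  have hτT : τ < T := by
    rw [hτ, div_lt_iff₀ hθ0, hθ, mul_add, mul_one_div_cancel hT0.ne']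
    nlinarith
  have hτ0 : 0 < τ := by positivity
  obtain ⟨ε, hε0, hε1, hε2⟩ : ∃ ε : ℝ, 0 < ε ∧ ε ≤ 1 ∧ ((T : ℝ) + 1) * ε ≤ (T - τ) / 2 := by
    have hg : 0 < (T : ℝ) - τ := by linarith
    refine ⟨min 1 ((T - τ) / 2 / (T + 1)), lt_min one_pos (by positivity), min_le_left _ _, ?_⟩
    calc ((T : ℝ) + 1) * min 1 ((T - τ) / 2 / (T + 1)) ≤ ((T : ℝ) + 1) * ((T - τ) / 2 / (T + 1)) :=
          mul_le_mul_of_nonneg_left (min_le_right _ _) (by positivity)
      _ = (T - τ) / 2 := by field_simp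
  obtain ⟨c0, hc0, hS⟩ := schmidt ξ hξ hind ε hε0 hε1
  obtain ⟨C1, hC1, hsum⟩ := sum_bound ξ ε c0 hε0 hc0 hS
  have hpos := fun k hk i => nd_pos ξ hind k hk i
  have hev : ∀ᶠ R : ℕ in atTop, 700 * C1 < (R : ℝ) ^ (δ * ((T - τ) / 2)) :=
    ((tendsto_rpow_atTop (by
      have : 0 < (T : ℝ) - τ := by linarith
      positivity)).comp tendsto_natCast_atTop_atTop).eventually (eventually_gt_atTop (700 * C1))
  obtain ⟨R₀, hR₀⟩ := eventually_atTop.1 hev
  refine ⟨max R₀ 1, le_max_right _ _, fun R hR B hB s => ?_⟩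
  have hR1 : 1 ≤ R := (le_max_right _ _).trans hR
  have hRR : (1 : ℝ) ≤ R := by exact_mod_cast hR1
  have hR0 : (0 : ℝ) < R := by linarith
  have hbig := hR₀ R ((le_max_left _ _).trans hR)
  have hBR : (1 : ℝ) ≤ B := le_trans (Real.one_le_rpow hRR hθ0.le) hB
  have hB0 : (0 : ℝ) < B := by linarith
  have hB1 : 1 ≤ B := by exact_mod_cast hBR
  by_contra hcon
  push Not at hcon
  have h1 := no_point ξ hpos B s (C1 * (B : ℝ) ^ ((T + 1) * ε)) (by
    intro K
    refine (hsum K B hB1).trans (le_of_eq ?_)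
    ring) R hR1 hcon
  have h2 : (R : ℝ) ≤ (B : ℝ) ^ τ := by
    have h3 := Real.rpow_le_rpow (by positivity) hB hτ0.le
    rw [← Real.rpow_mul hR0.le, hτ, mul_one_div_cancel hθ0.ne', Real.rpow_one] at h3
    exact h3
  have h3 : (R : ℝ) ^ (δ * ((T - τ) / 2)) ≤ (B : ℝ) ^ ((T - τ) / 2) := by
    rw [Real.rpow_mul hR0.le]
    apply Real.rpow_le_rpow (by positivity) _ (by linarith)
    refine le_trans ?_ hB
    apply Real.rpow_le_rpow_of_exponent_le hRR
    rw [hθ]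
    have : 0 < 1 / (T : ℝ) := by positivity
    linarith
  have h4 : (B : ℝ) ^ ((T + 1) * ε) ≤ (B : ℝ) ^ ((T - τ) / 2) :=
    Real.rpow_le_rpow_of_exponent_le hBR hε2
  have h5 : (B : ℝ) ^ T = (B : ℝ) ^ τ * ((B : ℝ) ^ ((T - τ) / 2) * (B : ℝ) ^ ((T - τ) / 2)) := by
    rw [← Real.rpow_natCast, ← Real.rpow_add hB0, ← Real.rpow_add hB0]
    congr 1
    ring
  have h6 : 700 * (R : ℝ) * (C1 * (B : ℝ) ^ ((T + 1) * ε)) < (B : ℝ) ^ T := by
    rw [h5]
    calc 700 * (R : ℝ) * (C1 * (B : ℝ) ^ ((T + 1) * ε))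
        = R * ((700 * C1) * (B : ℝ) ^ ((T + 1) * ε)) := by ring
      _ ≤ (B : ℝ) ^ τ * ((700 * C1) * (B : ℝ) ^ ((T - τ) / 2)) :=
          mul_le_mul h2 (mul_le_mul_of_nonneg_left h4 (by positivity)) (by positivity)
            (by positivity)
      _ < (B : ℝ) ^ τ * ((B : ℝ) ^ ((T - τ) / 2) * (B : ℝ) ^ ((T - τ) / 2)) := by
          apply mul_lt_mul_of_pos_left _ (by positivity)
          apply mul_lt_mul_of_pos_right _ (by positivity)
          linarith
  linarith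

/-- partial summation -/
lemma abel (u : ℕ → ℂ) (w : ℂ) (hw : ‖w‖ = 1) (M : ℝ) (R : ℕ)
    (hM : ∀ r ≤ R, ‖∑ n ∈ range (r + 1), u n‖ ≤ M) :
    ‖∑ n ∈ range (R + 1), u n * w ^ n‖ ≤ M * (1 + R * ‖w - 1‖) := by
  have h1 : ∀ R : ℕ, ∑ n ∈ range (R + 1), u n * w ^ n =
      (∑ n ∈ range (R + 1), u n) * w ^ R -
        ∑ r ∈ range R, (∑ n ∈ range (r + 1), u n) * (w ^ (r + 1) - w ^ r) := by
    intro R
    induction R with
    | zero => simp
    | succ R ih =>
      rw [Finset.sum_range_succ, ih, Finset.sum_range_succ u (R + 1),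
        Finset.sum_range_succ (fun r => (∑ n ∈ range (r + 1), u n) * (w ^ (r + 1) - w ^ r)) R]
      ring
  have hM0 : 0 ≤ M := (norm_nonneg _).trans (hM 0 (Nat.zero_le R))
  rw [h1 R]
  refine (norm_sub_le _ _).trans ?_
  rw [mul_add, mul_one]
  apply add_le_add
  · rw [norm_mul, norm_pow, hw, one_pow, mul_one]
    exact hM R le_rfl
  · refine (norm_sum_le _ _).trans ?_
    calc ∑ r ∈ range R, ‖(∑ n ∈ range (r + 1), u n) * (w ^ (r + 1) - w ^ r)‖
        ≤ ∑ _r ∈ range R, M * ‖w - 1‖ := by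
          apply Finset.sum_le_sum
          intro r hr
          rw [mem_range] at hr
          rw [norm_mul]
          apply mul_le_mul (hM r hr.le) _ (norm_nonneg _) hM0
          rw [pow_succ, show w ^ r * w - w ^ r = w ^ r * (w - 1) by ring, norm_mul, norm_pow, hw,
            one_pow, one_mul]
      _ = M * (R * ‖w - 1‖) := by
          rw [Finset.sum_const, card_range, nsmul_eq_mul]; ring

lemma norm_E_sub_one_le (x : ℝ) : ‖E x - 1‖ ≤ 2 * Real.pi * nd x := by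
  rw [E_nd]
  unfold E nd
  rw [mul_comm]
  have h := Real.norm_exp_I_mul_ofReal_sub_one_le (x := 2 * Real.pi * (x - round x))
  rw [mul_comm] at h
  refine h.trans (le_of_eq ?_)
  rw [Real.norm_eq_abs, abs_mul, abs_of_pos (by positivity : 0 < 2 * Real.pi)]

/-- from a point to a near point -/
lemma transfer (c : ℕ → ℂ) (R : ℕ) (hR : 1 ≤ R) (x y : ℝ) (hxy : nd (x - y) ≤ 1 / R) :
    ∃ r ≤ R, ‖Fs c R x‖ ≤ 8 * ‖Fs c r y‖ := by
  have hR0 : (0 : ℝ) < R := by exact_mod_cast hR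
  obtain ⟨r, hr, hmax⟩ := Finset.exists_max_image (range (R + 1)) (fun r => ‖Fs c r y‖)
    ⟨0, mem_range.2 (by omega)⟩
  rw [mem_range, Nat.lt_succ_iff] at hr
  refine ⟨r, hr, ?_⟩
  have h1 := abel (fun n => c n * E (n * y)) (E (x - y)) (norm_E _) ‖Fs c r y‖ R (by
    intro r' hr'
    exact hmax r' (mem_range.2 (by omega)))
  have h2 : Fs c R x = ∑ n ∈ range (R + 1), (fun n => c n * E (n * y)) n * E (x - y) ^ n := by
    unfold Fs
    apply Finset.sum_congr rfl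
    intro n _
    simp only
    rw [← E_nat_mul, mul_assoc, ← E_add]
    congr 2
    ring
  rw [h2]
  refine h1.trans ?_
  have h3 := norm_E_sub_one_le (x - y)
  have h4 : (R : ℝ) * ‖E (x - y) - 1‖ ≤ 2 * Real.pi := by
    calc (R : ℝ) * ‖E (x - y) - 1‖ ≤ R * (2 * Real.pi * (1 / R)) := by
          apply mul_le_mul_of_nonneg_left _ hR0.le
          refine h3.trans ?_
          exact mul_le_mul_of_nonneg_left hxy (by positivity)
      _ = 2 * Real.pi := by field_simp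
  have h5 : 1 + (R : ℝ) * ‖E (x - y) - 1‖ ≤ 8 := by
    have := Real.pi_lt_d2
    linarith
  rw [mul_comm]
  exact mul_le_mul_of_nonneg_right h5 (norm_nonneg _)

end Pool.Agent.X1.SchP
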