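import Mathlib
import Pool.Agent.X1.MobD

/-!
# Points without good rational approximations: a recursion over the continued fraction tree
-/

set_option autoImplicit false

namespace Pool.Agent.X1.SchP

open Finset Filter

/-- the number of the points of the box in an interval -/
lemma int_count {T : ℕ} (ξ : Fin T → ℝ) (hpos : ∀ k : ℕ, 1 ≤ k → ∀ i, 0 < nd (k * ξ i))
    (B : ℕ) (s : ℝ) (D : ℝ) (hD : ∀ K : ℕ, ∑ k ∈ Icc 1 K, G ξ B k ≤ D * K) (r : ℝ)
    (hr : 0 < r) :
    (((box T B).filter fun a => nd (s + ∑ i, (a i : ℝ) * ξ i) ≤ r).card : ℝ) ≤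
      64 * r * (B : ℝ) ^ T + 8 * D := by
  have hD0 : 0 ≤ D := by
    have := hD 1
    rw [Nat.cast_one, mul_one] at this
    exact le_trans (Finset.sum_nonneg fun k _ => G_nonneg ξ B k) this
  have hBT : (0 : ℝ) ≤ (B : ℝ) ^ T := by positivity
  rcases le_or_gt (1 / 8) r with h | h
  · have h1 : (((box T B).filter fun a => nd (s + ∑ i, (a i : ℝ) * ξ i) ≤ r).card : ℝ) ≤
        (B : ℝ) ^ T := by
      rw [← card_box]
      exact_mod_cast Finset.card_le_card (filter_subset _ _)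
    nlinarith
  · have hX : 1 < 1 / (8 * r) := by
      rw [lt_div_iff₀ (by positivity)]
      linarith
    set H : ℕ := ⌊1 / (8 * r)⌋₊ with hH
    have hH1 : 1 ≤ H := Nat.le_floor (by rw [Nat.cast_one]; exact hX.le)
    have hH0 : (0 : ℝ) < H := by exact_mod_cast hH1
    have hH1' : (1 : ℝ) ≤ H := by exact_mod_cast hH1
    have hle : (H : ℝ) ≤ 1 / (8 * r) := Nat.floor_le (by linarith)
    have hge : 1 / (8 * r) ≤ 2 * H := by
      have := Nat.lt_floor_add_one (1 / (8 * r))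
      rw [← hH] at this
      linarith
    have h3 := count_general (box T B) (fun a => s + ∑ i, (a i : ℝ) * ξ i) H hH1
    have hr8 : r ≤ 1 / (8 * H) := by
      rw [le_div_iff₀ (by positivity)]
      rw [le_div_iff₀ (by positivity)] at hle
      linarith
    have hsub : ((box T B).filter fun a => nd (s + ∑ i, (a i : ℝ) * ξ i) ≤ r) ⊆
        (box T B).filter fun a => nd (s + ∑ i, (a i : ℝ) * ξ i) ≤ 1 / (8 * H) := by
      intro a ha
      rw [mem_filter] at ha ⊢
      exact ⟨ha.1, ha.2.trans hr8⟩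
    have h4 : (((box T B).filter fun a => nd (s + ∑ i, (a i : ℝ) * ξ i) ≤ r).card : ℝ) ≤ _ :=
      le_trans (by exact_mod_cast card_le_card hsub) h3
    refine h4.trans ?_
    rw [card_box]
    apply add_le_add
    · have h5 : 1 / (H : ℝ) ≤ 16 * r := by
        rw [div_le_iff₀ hH0]
        rw [div_le_iff₀ (by positivity)] at hge
        linarith
      calc 4 * ((B : ℝ) ^ T / H) = 4 * (B : ℝ) ^ T * (1 / H) := by ring
        _ ≤ 4 * (B : ℝ) ^ T * (16 * r) := mul_le_mul_of_nonneg_left h5 (by positivity)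
        _ = 64 * r * (B : ℝ) ^ T := by ring
    · have h5 : ∑ h ∈ Ico 1 H, ‖∑ z ∈ box T B, E (h * (s + ∑ i, (z i : ℝ) * ξ i))‖ ≤ D * H := by
        calc ∑ h ∈ Ico 1 H, ‖∑ z ∈ box T B, E (h * (s + ∑ i, (z i : ℝ) * ξ i))‖
            ≤ ∑ h ∈ Ico 1 H, G ξ B h := by
              apply Finset.sum_le_sum
              intro h hh
              exact boxsum ξ hpos B s h (mem_Ico.1 hh).1
          _ ≤ ∑ h ∈ Icc 1 H, G ξ B h := by
              apply Finset.sum_le_sum_of_subset_of_nonneg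
              · intro h hh
                rw [mem_Ico] at hh
                rw [mem_Icc]
                omega
              · intro h _ _; exact G_nonneg ξ B h
          _ ≤ D * H := hD H
      calc 8 / (H : ℝ) * ∑ h ∈ Ico 1 H, ‖∑ z ∈ box T B, E (h * (s + ∑ i, (z i : ℝ) * ξ i))‖
          ≤ 8 / (H : ℝ) * (D * H) := mul_le_mul_of_nonneg_left h5 (by positivity)
        _ = 8 * D := by field_simp

/-! ### the sums over the children -/

lemma sum_child (q q' : ℝ) (hq : 0 < q) (hq' : 0 ≤ q') (A : ℕ) (hA : 1 ≤ A) :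
    ∑ b ∈ Ico 1 A, 1 / ((b * q + q') * (b * q + q' + q)) =
      1 / q * (1 / (q + q') - 1 / (A * q + q')) := by
  induction A, hA using Nat.le_induction with
  | base => simp
  | succ A hA ih =>
    rw [Finset.sum_Ico_succ_top hA, ih]
    have h1 : 0 < (A : ℝ) * q + q' := by
      have : (1 : ℝ) ≤ A := by exact_mod_cast hA
      nlinarith
    have h2 : 0 < q + q' := by linarith
    push_cast
    field_simp
    ring

lemma sum_child_le (q q' : ℝ) (hq : 0 < q) (hq' : 0 ≤ q') (A : ℕ) (hA : 1 ≤ A) :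
    ∑ b ∈ Ico 1 A, 1 / ((b * q + q') * (b * q + q' + q)) ≤
      (1 - 1 / A) * (1 / (q * (q + q'))) := by
  rw [sum_child q q' hq hq' A hA]
  have hA0 : (0 : ℝ) < A := by exact_mod_cast hA
  have h1 : 0 < (A : ℝ) * q + q' := by positivity
  have h2 : 0 < q + q' := by linarith
  have h3 : 1 / (A * (q + q')) ≤ 1 / ((A : ℝ) * q + q') := by
    apply one_div_le_one_div_of_le h1
    have : (1 : ℝ) ≤ A := by exact_mod_cast hA
    nlinarith
  have h4 : (1 - 1 / (A : ℝ)) * (1 / (q * (q + q'))) =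
      1 / q * (1 / (q + q') - 1 / (A * (q + q'))) := by
    field_simp
  rw [h4]
  apply mul_le_mul_of_nonneg_left _ (by positivity)
  linarith

lemma sum_sqrt (A : ℕ) (hA : 1 ≤ A) :
    ∑ b ∈ Ico 1 A, 1 / (Real.sqrt b * (b + 1)) ≤ 2 - 2 / Real.sqrt A := by
  induction A, hA using Nat.le_induction with
  | base => simp
  | succ A hA ih =>
    rw [Finset.sum_Ico_succ_top hA]
    have hA0 : (0 : ℝ) < A := by exact_mod_cast hA
    have h1 : 0 < Real.sqrt A := Real.sqrt_pos.2 hA0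
    have h2 : 0 < Real.sqrt (A + 1) := Real.sqrt_pos.2 (by linarith)
    have h3 : Real.sqrt A * Real.sqrt A = A := Real.mul_self_sqrt hA0.le
    have h4 : Real.sqrt (A + 1) * Real.sqrt (A + 1) = A + 1 := Real.mul_self_sqrt (by linarith)
    have h5 : Real.sqrt A ≤ Real.sqrt (A + 1) := Real.sqrt_le_sqrt (by linarith)
    have h6 : 1 / (Real.sqrt A * ((A : ℝ) + 1)) ≤ 2 / Real.sqrt A - 2 / Real.sqrt (A + 1) := by
      have h7 : 2 / Real.sqrt A - 2 / Real.sqrt (A + 1) =
          2 * (Real.sqrt (A + 1) - Real.sqrt A) / (Real.sqrt A * Real.sqrt (A + 1)) := by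
        field_simp
      have h8 : (Real.sqrt (A + 1) - Real.sqrt A) * (Real.sqrt (A + 1) + Real.sqrt A) = 1 := by
        nlinarith
      have h9 : 1 ≤ 2 * (Real.sqrt (A + 1) - Real.sqrt A) * Real.sqrt (A + 1) := by
        nlinarith [mul_nonneg (sub_nonneg.2 h5) (sub_nonneg.2 h5)]
      rw [h7, div_le_div_iff₀ (by positivity) (by positivity)]
      calc 1 * (Real.sqrt A * Real.sqrt (A + 1))
          ≤ (2 * (Real.sqrt (A + 1) - Real.sqrt A) * Real.sqrt (A + 1)) *
            (Real.sqrt A * Real.sqrt (A + 1)) := mul_le_mul_of_nonneg_right h9 (by positivity)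
        _ = 2 * (Real.sqrt (A + 1) - Real.sqrt A) *
            (Real.sqrt A * (Real.sqrt (A + 1) * Real.sqrt (A + 1))) := by ring
        _ = 2 * (Real.sqrt (A + 1) - Real.sqrt A) * (Real.sqrt A * ((A : ℝ) + 1)) := by rw [h4]
    push_cast
    linarith

lemma sum_child_sqrt (q q' Q : ℝ) (hq : 0 < q) (hq' : 0 ≤ q') (hqq : q' ≤ q) (hQ : 0 < Q)
    (A : ℕ) (hA : 1 ≤ A) :
    ∑ b ∈ Ico 1 A, Real.sqrt ((b * q + q') / Q) * (1 / ((b * q + q') * (b * q + q' + q))) ≤
      4 * Real.sqrt (q / Q) * (1 / (q * (q + q'))) := by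
  have hsq : 0 < Real.sqrt q := Real.sqrt_pos.2 hq
  have hsQ : 0 < Real.sqrt Q := Real.sqrt_pos.2 hQ
  have hterm : ∀ b ∈ Ico 1 A,
      Real.sqrt ((b * q + q') / Q) * (1 / ((b * q + q') * (b * q + q' + q))) ≤
        1 / (Real.sqrt Q * Real.sqrt q * q) * (1 / (Real.sqrt b * (b + 1))) := by
    intro b hb
    have hb1 : (1 : ℝ) ≤ b := by exact_mod_cast (mem_Ico.1 hb).1
    have hb0 : (0 : ℝ) < b := by linarith
    have h0 : 0 < (b : ℝ) * q + q' := by positivity
    have h1 : 0 < Real.sqrt ((b : ℝ) * q + q') := Real.sqrt_pos.2 h0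
    have h2 : Real.sqrt ((b : ℝ) * q + q') * Real.sqrt ((b : ℝ) * q + q') = b * q + q' :=
      Real.mul_self_sqrt h0.le
    have h3 : Real.sqrt b * Real.sqrt q ≤ Real.sqrt ((b : ℝ) * q + q') := by
      rw [← Real.sqrt_mul hb0.le]
      exact Real.sqrt_le_sqrt (by linarith)
    have hsb : 0 < Real.sqrt b := Real.sqrt_pos.2 hb0
    rw [Real.sqrt_div h0.le]
    have h4 : Real.sqrt ((b : ℝ) * q + q') / Real.sqrt Q *
        (1 / ((b * q + q') * (b * q + q' + q))) =
        1 / (Real.sqrt Q * (Real.sqrt ((b : ℝ) * q + q') * (b * q + q' + q))) := by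
      rw [div_mul_div_comm, div_eq_div_iff (by positivity) (by positivity)]
      calc Real.sqrt (↑b * q + q') * 1 * (Real.sqrt Q * (Real.sqrt (↑b * q + q') *
            (↑b * q + q' + q)))
          = (Real.sqrt (↑b * q + q') * Real.sqrt (↑b * q + q')) * (Real.sqrt Q *
            (↑b * q + q' + q)) := by ring
        _ = (↑b * q + q') * (Real.sqrt Q * (↑b * q + q' + q)) := by rw [h2]
        _ = _ := by ring
    rw [h4, one_div_mul_one_div]
    apply one_div_le_one_div_of_le (by positivity)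
    calc Real.sqrt Q * Real.sqrt q * q * (Real.sqrt b * (b + 1))
        = Real.sqrt Q * ((Real.sqrt b * Real.sqrt q) * (b * q + q)) := by ring
      _ ≤ Real.sqrt Q * (Real.sqrt (b * q + q') * (b * q + q' + q)) := by
          apply mul_le_mul_of_nonneg_left _ hsQ.le
          exact mul_le_mul h3 (by linarith) (by positivity) h1.le
  refine (Finset.sum_le_sum hterm).trans ?_
  rw [← Finset.mul_sum]
  have h5 : ∑ b ∈ Ico 1 A, 1 / (Real.sqrt b * ((b : ℝ) + 1)) ≤ 2 := by
    refine (sum_sqrt A hA).trans ?_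
    have : 0 ≤ 2 / Real.sqrt A := by positivity
    linarith
  refine (mul_le_mul_of_nonneg_left h5 (by positivity)).trans ?_
  rw [Real.sqrt_div hq.le]
  have hqs : Real.sqrt q * Real.sqrt q = q := Real.mul_self_sqrt hq.le
  have h6 : 4 * (Real.sqrt q / Real.sqrt Q) * (1 / (q * (q + q'))) =
      4 / (Real.sqrt Q * Real.sqrt q * (q + q')) := by
    rw [mul_one_div, mul_div_assoc', div_div, div_eq_div_iff (by positivity) (by positivity)]
    calc 4 * Real.sqrt q * (Real.sqrt Q * Real.sqrt q * (q + q'))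
        = 4 * (Real.sqrt q * Real.sqrt q) * (Real.sqrt Q * (q + q')) := by ring
      _ = 4 * q * (Real.sqrt Q * (q + q')) := by rw [hqs]
      _ = _ := by ring
  rw [h6, one_div_mul_eq_div, div_le_div_iff₀ (by positivity) (by positivity)]
  have h7 : 0 < Real.sqrt Q * Real.sqrt q := by positivity
  nlinarith

/-- `x` has no approximation `p / q` with `q ≤ Q` and error `< 1 / (A q ^ 2)` -/
def NoApprox (A Q : ℕ) (x : ℝ) : Prop :=
  ∀ (p : ℤ) (q : ℕ), 1 ≤ q → q ≤ Q → 1 / ((A : ℝ) * (q : ℝ) ^ 2) ≤ |x - p / q|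

/-- `x` lies between `p / q` and `(p + p') / (q + q')` -/
def InCyl (p p' : ℤ) (q q' : ℕ) (x : ℝ) : Prop :=
  ∃ t : ℝ, 0 ≤ t ∧ t ≤ 1 ∧ x * (q + t * q') = p + t * p'

lemma inCyl_dist {p p' : ℤ} {q q' : ℕ} (hq : 1 ≤ q) (hdet : |p * q' - p' * q| = 1) {x : ℝ}
    (h : InCyl p p' q q' x) :
    |x - ((p : ℝ) / q + (p + p') / (q + q')) / 2| ≤ 1 / (2 * (q * (q + q'))) := by
  obtain ⟨t, ht0, ht1, hx⟩ := h
  have hq0 : (0 : ℝ) < q := by exact_mod_cast hq
  have hq'0 : (0 : ℝ) ≤ q' := Nat.cast_nonneg _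
  have hw : (0 : ℝ) < q + t * q' := by positivity
  have hs : (0 : ℝ) < q + q' := by positivity
  have hdetR : |(p : ℝ) * q' - p' * q| = 1 := by exact_mod_cast hdet
  have hxe : x = (p + t * p') / (q + t * q') := by
    rw [eq_div_iff hw.ne', hx]
  have h1 : x - ((p : ℝ) / q + (p + p') / (q + q')) / 2 =
      (p * q' - p' * q) * ((q + t * q' - 2 * t * (q + q')) / (2 * (q + t * q') * (q * (q + q')))) := by
    rw [hxe]
    field_simp
    ring
  rw [h1, abs_mul, hdetR, one_mul, abs_div, abs_of_pos (by positivity :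
    (0 : ℝ) < 2 * (q + t * q') * (q * (q + q'))), div_le_div_iff₀ (by positivity) (by positivity),
    one_mul]
  have h2 : |(q : ℝ) + t * q' - 2 * t * (q + q')| ≤ q + t * q' := by
    rw [abs_le]
    constructor
    · nlinarith [mul_nonneg ht0 hq'0]
    · nlinarith [mul_nonneg ht0 hq'0]
  have h3 : (0 : ℝ) ≤ 2 * (q * (q + q')) := by positivity
  calc |(q : ℝ) + t * q' - 2 * t * (q + q')| * (2 * (q * (q + q')))
      ≤ (q + t * q') * (2 * (q * (q + q'))) := mul_le_mul_of_nonneg_right h2 h3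
    _ = 2 * (q + t * q') * (q * (q + q')) := by ring

lemma inCyl_child {p p' : ℤ} {q q' : ℕ} (hq : 1 ≤ q) (hdet : |p * q' - p' * q| = 1) {A : ℕ}
    (hA : 2 ≤ A) {x : ℝ} (h1 : 1 / ((A : ℝ) * (q : ℝ) ^ 2) ≤ |x - (p : ℝ) / q|)
    (h : InCyl p p' q q' x) :
    ∃ b ∈ Ico 1 A, InCyl (b * p + p') p (b * q + q') q x := by
  obtain ⟨t, ht0, ht1, hxt⟩ := h
  have hq0 : (0 : ℝ) < q := by exact_mod_cast hq
  have hq'0 : (0 : ℝ) ≤ q' := Nat.cast_nonneg _
  have hA0 : (0 : ℝ) < A := by exact_mod_cast (by omega : 0 < A)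
  have hw : (0 : ℝ) < q + t * q' := by positivity
  have hdetR : |(p : ℝ) * q' - p' * q| = 1 := by exact_mod_cast hdet
  have hxe : x = (p + t * p') / (q + t * q') := by
    rw [eq_div_iff hw.ne', hxt]
  have h2 : x - (p : ℝ) / q = (p * q' - p' * q) * (-t / (q * (q + t * q'))) := by
    rw [hxe]
    field_simp
    ring
  rw [h2, abs_mul, hdetR, one_mul, abs_div, abs_neg, abs_of_nonneg ht0, abs_of_pos (by positivity :
    (0 : ℝ) < q * (q + t * q')), div_le_div_iff₀ (by positivity) (by positivity), one_mul] at h1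
  have h3 : 1 ≤ A * t := by
    have h4 : (q : ℝ) * q ≤ q * (q + t * q') := by
      apply mul_le_mul_of_nonneg_left _ hq0.le
      have := mul_nonneg ht0 hq'0
      linarith
    have h5 : (q : ℝ) * q * 1 ≤ q * q * (A * t) := by nlinarith
    exact le_of_mul_le_mul_left h5 (by positivity)
  have ht : 0 < t := by
    rcases ht0.lt_or_eq with h | h
    · exact h
    · rw [← h, mul_zero] at h3; linarith
  -- the digit
  have h6 : 1 ≤ 1 / t := by rw [le_div_iff₀ ht]; linarith
  have h7 : 1 / t ≤ A := by rw [div_le_iff₀ ht]; linarith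
  set f : ℕ := ⌊1 / t⌋₊ with hf
  have hf1 : 1 ≤ f := Nat.le_floor (by rw [Nat.cast_one]; exact h6)
  have hfle : (f : ℝ) ≤ 1 / t := Nat.floor_le (by linarith)
  have hflt : 1 / t < f + 1 := Nat.lt_floor_add_one _
  obtain ⟨b, hb1, hbA, hble, hblt⟩ : ∃ b : ℕ, 1 ≤ b ∧ b < A ∧ (b : ℝ) ≤ 1 / t ∧ 1 / t ≤ b + 1 := by
    rcases lt_or_ge f A with h | h
    · exact ⟨f, hf1, h, hfle, hflt.le⟩
    · refine ⟨A - 1, by omega, by omega, ?_, ?_⟩
      · have : ((A - 1 : ℕ) : ℝ) ≤ f := by exact_mod_cast (by omega : A - 1 ≤ f)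
        linarith
      · have : ((A - 1 : ℕ) : ℝ) + 1 = A := by
          rw [Nat.cast_sub (by omega)]; push_cast; ring
        rw [this]; exact h7
  refine ⟨b, mem_Ico.2 ⟨hb1, hbA⟩, 1 / t - b, by linarith, by linarith, ?_⟩
  push_cast
  have h8 : (b : ℝ) * q + q' + (1 / t - b) * q = (q + t * q') / t := by
    field_simp
    ring
  have h9 : (b : ℝ) * p + p' + (1 / t - b) * p = (p + t * p') / t := by
    field_simp
    ring
  rw [h8, h9, mul_div_assoc', hxt]

open Classical in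
/-- **the recursion** -/
theorem tree {ι : Type*} (Ω : Finset ι) (x : ι → ℝ) (W Z : ℝ) (hW : 0 ≤ W) (hZ : 0 ≤ Z)
    (hcount : ∀ y r : ℝ, 0 < r → ((Ω.filter fun z => |x z - y| ≤ r).card : ℝ) ≤ 2 * r * W + Z)
    (A Q : ℕ) (hA : 2 ≤ A) (hQ : 1 ≤ Q) (n : ℕ) :
    ∀ (p p' : ℤ) (q q' : ℕ), 1 ≤ q → q' ≤ q → q ≤ A * Q → |p * q' - p' * q| = 1 →
      ((Ω.filter fun z => NoApprox A Q (x z) ∧ InCyl p p' q q' (x z)).card : ℝ) ≤
        (W * ((1 - 1 / (A : ℝ)) ^ n + 4 ^ n * Real.sqrt (q / Q)) + 2 * (A : ℝ) ^ 2 * (Q : ℝ) ^ 2 * Z) *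
          (1 / ((q : ℝ) * (q + q'))) := by
  have hA0 : (0 : ℝ) < A := by exact_mod_cast (by omega : 0 < A)
  have hQ0 : (0 : ℝ) < Q := by exact_mod_cast hQ
  have hA1 : (0 : ℝ) ≤ 1 - 1 / (A : ℝ) := by
    rw [sub_nonneg, div_le_one hA0]
    exact_mod_cast (by omega : 1 ≤ A)
  -- the trivial bound
  have htriv : ∀ (p p' : ℤ) (q q' : ℕ), 1 ≤ q → q' ≤ q → q ≤ A * Q → |p * q' - p' * q| = 1 →
      ((Ω.filter fun z => NoApprox A Q (x z) ∧ InCyl p p' q q' (x z)).card : ℝ) ≤
        (W + 2 * (A : ℝ) ^ 2 * (Q : ℝ) ^ 2 * Z) * (1 / ((q : ℝ) * (q + q'))) := by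
    intro p p' q q' hq hq' hqAQ hdet
    have hq0 : (0 : ℝ) < q := by exact_mod_cast hq
    have hq'R : (q' : ℝ) ≤ q := by exact_mod_cast hq'
    have hqR : (q : ℝ) ≤ A * Q := by exact_mod_cast hqAQ
    have h1 := hcount (((p : ℝ) / q + (p + p') / (q + q')) / 2) (1 / (2 * (q * (q + q'))))
      (by positivity)
    have h2 : ((Ω.filter fun z => NoApprox A Q (x z) ∧ InCyl p p' q q' (x z)).card : ℝ) ≤
        ((Ω.filter fun z => |x z - ((p : ℝ) / q + (p + p') / (q + q')) / 2| ≤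
          1 / (2 * (q * (q + q')))).card : ℝ) := by
      have hsub : (Ω.filter fun z => NoApprox A Q (x z) ∧ InCyl p p' q q' (x z)) ⊆
          (Ω.filter fun z => |x z - ((p : ℝ) / q + (p + p') / (q + q')) / 2| ≤
            1 / (2 * (q * (q + q')))) := by
        intro z hz
        rw [mem_filter] at hz ⊢
        exact ⟨hz.1, inCyl_dist hq hdet hz.2.2⟩
      exact_mod_cast Finset.card_le_card hsub
    refine h2.trans (h1.trans ?_)
    have h3 : (q : ℝ) * (q + q') ≤ 2 * (A : ℝ) ^ 2 * (Q : ℝ) ^ 2 := by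
      calc (q : ℝ) * (q + q') ≤ q * (2 * q) := mul_le_mul_of_nonneg_left (by linarith) hq0.le
        _ = 2 * (q * q) := by ring
        _ ≤ 2 * ((A * Q) * (A * Q)) := by
            apply mul_le_mul_of_nonneg_left _ (by norm_num)
            exact mul_le_mul hqR hqR hq0.le (by positivity)
        _ = _ := by ring
    have h4 : Z ≤ 2 * (A : ℝ) ^ 2 * (Q : ℝ) ^ 2 * Z * (1 / ((q : ℝ) * (q + q'))) := by
      rw [mul_one_div, le_div_iff₀ (by positivity)]
      rw [mul_comm]
      exact mul_le_mul_of_nonneg_right h3 hZ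
    have h5 : 2 * (1 / (2 * ((q : ℝ) * (q + q')))) * W = W * (1 / ((q : ℝ) * (q + q'))) := by
      field_simp
    rw [h5, add_mul]
    linarith
  induction n with
  | zero =>
    intro p p' q q' hq hq' hqAQ hdet
    refine (htriv p p' q q' hq hq' hqAQ hdet).trans ?_
    apply mul_le_mul_of_nonneg_right _ (by positivity)
    rw [pow_zero, pow_zero, one_mul]
    have := Real.sqrt_nonneg ((q : ℝ) / Q)
    nlinarith
  | succ n ih =>
    intro p p' q q' hq hq' hqAQ hdet
    have hq0 : (0 : ℝ) < q := by exact_mod_cast hq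
    have hq'0 : (0 : ℝ) ≤ q' := Nat.cast_nonneg _
    have hq'R : (q' : ℝ) ≤ q := by exact_mod_cast hq'
    rcases lt_or_ge Q q with h | h
    · refine (htriv p p' q q' hq hq' hqAQ hdet).trans ?_
      apply mul_le_mul_of_nonneg_right _ (by positivity)
      have h1 : 1 ≤ Real.sqrt ((q : ℝ) / Q) := by
        rw [Real.one_le_sqrt, le_div_iff₀ hQ0, one_mul]
        exact_mod_cast h.le
      have h2 : (1 : ℝ) ≤ 4 ^ (n + 1) := one_le_pow₀ (by norm_num)
      have h3 : (1 : ℝ) ≤ 4 ^ (n + 1) * Real.sqrt ((q : ℝ) / Q) := by nlinarith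
      have h4 : 0 ≤ (1 - 1 / (A : ℝ)) ^ (n + 1) := pow_nonneg hA1 _
      nlinarith
    · have hcov : (Ω.filter fun z => NoApprox A Q (x z) ∧ InCyl p p' q q' (x z)) ⊆
          (Ico 1 A).biUnion fun b => Ω.filter fun z => NoApprox A Q (x z) ∧
            InCyl (b * p + p') p (b * q + q') q (x z) := by
        intro z hz
        rw [mem_filter] at hz
        obtain ⟨b, hb, hbz⟩ := inCyl_child hq hdet hA (hz.2.1 p q hq h) hz.2.2
        rw [mem_biUnion]
        exact ⟨b, hb, mem_filter.2 ⟨hz.1, hz.2.1, hbz⟩⟩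
      have h1 : ((Ω.filter fun z => NoApprox A Q (x z) ∧ InCyl p p' q q' (x z)).card : ℝ) ≤
          ∑ b ∈ Ico 1 A, ((Ω.filter fun z => NoApprox A Q (x z) ∧
            InCyl (b * p + p') p (b * q + q') q (x z)).card : ℝ) := by
        exact_mod_cast (Finset.card_le_card hcov).trans Finset.card_biUnion_le
      refine h1.trans ?_
      have h2 : ∀ b ∈ Ico 1 A, ((Ω.filter fun z => NoApprox A Q (x z) ∧
            InCyl (b * p + p') p (b * q + q') q (x z)).card : ℝ) ≤
          (W * (1 - 1 / (A : ℝ)) ^ n + 2 * (A : ℝ) ^ 2 * (Q : ℝ) ^ 2 * Z) *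
            (1 / ((b * q + q') * (b * q + q' + q))) +
          W * 4 ^ n * (Real.sqrt ((b * q + q') / Q) * (1 / ((b * q + q') * (b * q + q' + q)))) := by
        intro b hb
        rw [mem_Ico] at hb
        have h3 := ih (b * p + p') p (b * q + q') q (by nlinarith) (by nlinarith)
          (by
            calc b * q + q' ≤ b * q + q := by omega
              _ = (b + 1) * q := by ring
              _ ≤ A * Q := Nat.mul_le_mul (by omega) h)
          (by
            rw [← hdet, ← abs_neg]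
            congr 1
            push_cast
            ring)
        refine h3.trans (le_of_eq ?_)
        push_cast
        ring
      refine (Finset.sum_le_sum h2).trans ?_
      rw [Finset.sum_add_distrib, ← Finset.mul_sum, ← Finset.mul_sum]
      have h4 := sum_child_le q q' hq0 hq'0 A (by omega)
      have h5 := sum_child_sqrt q q' Q hq0 hq'0 hq'R hQ0 A (by omega)
      have h6 : 0 ≤ (1 - 1 / (A : ℝ)) ^ n := pow_nonneg hA1 _
      have h7 : (1 - 1 / (A : ℝ)) ≤ 1 := by
        have : 0 ≤ 1 / (A : ℝ) := by positivity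
        linarith
      have h8 : 0 ≤ 2 * (A : ℝ) ^ 2 * (Q : ℝ) ^ 2 * Z := by positivity
      have h9 : 0 ≤ 1 / ((q : ℝ) * (q + q')) := by positivity
      calc (W * (1 - 1 / (A : ℝ)) ^ n + 2 * (A : ℝ) ^ 2 * (Q : ℝ) ^ 2 * Z) *
            (∑ b ∈ Ico 1 A, 1 / (((b : ℝ) * q + q') * (b * q + q' + q))) +
          W * 4 ^ n * ∑ b ∈ Ico 1 A, Real.sqrt ((b * q + q') / Q) *
            (1 / (((b : ℝ) * q + q') * (b * q + q' + q)))
          ≤ (W * (1 - 1 / (A : ℝ)) ^ n + 2 * (A : ℝ) ^ 2 * (Q : ℝ) ^ 2 * Z) *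
            ((1 - 1 / A) * (1 / (q * (q + q')))) +
          W * 4 ^ n * (4 * Real.sqrt (q / Q) * (1 / (q * (q + q')))) := by
            apply add_le_add
            · exact mul_le_mul_of_nonneg_left h4 (by positivity)
            · exact mul_le_mul_of_nonneg_left h5 (by positivity)
        _ = (W * (1 - 1 / (A : ℝ)) ^ (n + 1) + W * 4 ^ (n + 1) * Real.sqrt (q / Q) +
            (1 - 1 / (A : ℝ)) * (2 * (A : ℝ) ^ 2 * (Q : ℝ) ^ 2 * Z)) * (1 / (q * (q + q'))) := by
            rw [pow_succ, pow_succ]; ring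
        _ ≤ _ := by
            apply mul_le_mul_of_nonneg_right _ h9
            have h10 : (1 - 1 / (A : ℝ)) * (2 * (A : ℝ) ^ 2 * (Q : ℝ) ^ 2 * Z) ≤
                2 * (A : ℝ) ^ 2 * (Q : ℝ) ^ 2 * Z := by
              calc _ ≤ 1 * (2 * (A : ℝ) ^ 2 * (Q : ℝ) ^ 2 * Z) :=
                    mul_le_mul_of_nonneg_right h7 h8
                _ = _ := one_mul _
            linarith

/-- `x` has no approximation `p / q` with `q ≤ Q` and error `< 1 / (A(q) q ^ 2)` -/
def NoApproxV (A : ℕ → ℕ) (Q : ℕ) (x : ℝ) : Prop :=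
  ∀ (p : ℤ) (q : ℕ), 1 ≤ q → q ≤ Q → 1 / ((A q : ℝ) * (q : ℝ) ^ 2) ≤ |x - p / q|

open Classical in
/-- **the recursion with a potential** -/
theorem tree2 {ι : Type*} (Ω : Finset ι) (x : ι → ℝ) (W Z : ℝ) (hW : 0 ≤ W) (hZ : 0 ≤ Z)
    (hcount : ∀ y r : ℝ, 0 < r → ((Ω.filter fun z => |x z - y| ≤ r).card : ℝ) ≤ 2 * r * W + Z)
    (A : ℕ → ℕ) (hA : ∀ q, 1 ≤ q → 2 ≤ A q) (Q Am : ℕ) (hAm : ∀ q, 1 ≤ q → q ≤ Q → A q ≤ Am)
    (V : ℕ → ℝ) (hV1 : ∀ q, Q < q → 1 ≤ V q)
    (hV : ∀ q q' : ℕ, 1 ≤ q → q' ≤ q → q ≤ Q →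
      ∑ b ∈ Ico 1 (A q), V (b * q + q') * (1 / (((b : ℝ) * q + q') * (b * q + q' + q))) ≤
        V q * (1 / ((q : ℝ) * (q + q')))) (n : ℕ) :
    ∀ (p p' : ℤ) (q q' : ℕ), 1 ≤ q → q' ≤ q → q ≤ Am * Q → |p * q' - p' * q| = 1 →
      2 * Q < n + (q + q') →
      ((Ω.filter fun z => NoApproxV A Q (x z) ∧ InCyl p p' q q' (x z)).card : ℝ) ≤
        (W * V q + 2 * (Am : ℝ) ^ 2 * (Q : ℝ) ^ 2 * Z) * (1 / ((q : ℝ) * (q + q'))) := by
  -- the trivial bound
  have htriv : ∀ (p p' : ℤ) (q q' : ℕ), 1 ≤ q → q' ≤ q → q ≤ Am * Q → |p * q' - p' * q| = 1 →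
      Q < q →
      ((Ω.filter fun z => NoApproxV A Q (x z) ∧ InCyl p p' q q' (x z)).card : ℝ) ≤
        (W * V q + 2 * (Am : ℝ) ^ 2 * (Q : ℝ) ^ 2 * Z) * (1 / ((q : ℝ) * (q + q'))) := by
    intro p p' q q' hq hq' hqAQ hdet hQq
    have hq0 : (0 : ℝ) < q := by exact_mod_cast hq
    have hq'R : (q' : ℝ) ≤ q := by exact_mod_cast hq'
    have hqR : (q : ℝ) ≤ Am * Q := by exact_mod_cast hqAQ
    have h1 := hcount (((p : ℝ) / q + (p + p') / (q + q')) / 2) (1 / (2 * (q * (q + q'))))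
      (by positivity)
    have h2 : ((Ω.filter fun z => NoApproxV A Q (x z) ∧ InCyl p p' q q' (x z)).card : ℝ) ≤
        ((Ω.filter fun z => |x z - ((p : ℝ) / q + (p + p') / (q + q')) / 2| ≤
          1 / (2 * (q * (q + q')))).card : ℝ) := by
      have hsub : (Ω.filter fun z => NoApproxV A Q (x z) ∧ InCyl p p' q q' (x z)) ⊆
          (Ω.filter fun z => |x z - ((p : ℝ) / q + (p + p') / (q + q')) / 2| ≤
            1 / (2 * (q * (q + q')))) := by
        intro z hz
        rw [mem_filter] at hz ⊢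
        exact ⟨hz.1, inCyl_dist hq hdet hz.2.2⟩
      exact_mod_cast Finset.card_le_card hsub
    refine h2.trans (h1.trans ?_)
    have h3 : (q : ℝ) * (q + q') ≤ 2 * (Am : ℝ) ^ 2 * (Q : ℝ) ^ 2 := by
      calc (q : ℝ) * (q + q') ≤ q * (2 * q) := mul_le_mul_of_nonneg_left (by linarith) hq0.le
        _ = 2 * (q * q) := by ring
        _ ≤ 2 * ((Am * Q) * (Am * Q)) := by
            apply mul_le_mul_of_nonneg_left _ (by norm_num)
            exact mul_le_mul hqR hqR hq0.le (by positivity)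
        _ = _ := by ring
    have h4 : Z ≤ 2 * (Am : ℝ) ^ 2 * (Q : ℝ) ^ 2 * Z * (1 / ((q : ℝ) * (q + q'))) := by
      rw [mul_one_div, le_div_iff₀ (by positivity)]
      rw [mul_comm]
      exact mul_le_mul_of_nonneg_right h3 hZ
    have h5 : 2 * (1 / (2 * ((q : ℝ) * (q + q')))) * W = W * (1 / ((q : ℝ) * (q + q'))) := by
      field_simp
    have h6 : W * (1 / ((q : ℝ) * (q + q'))) ≤ W * V q * (1 / ((q : ℝ) * (q + q'))) := by
      apply mul_le_mul_of_nonneg_right _ (by positivity)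
      calc W = W * 1 := (mul_one W).symm
        _ ≤ W * V q := mul_le_mul_of_nonneg_left (hV1 q hQq) hW
    rw [h5, add_mul]
    linarith
  induction n with
  | zero =>
    intro p p' q q' hq hq' hqAQ hdet hn
    exact htriv p p' q q' hq hq' hqAQ hdet (by omega)
  | succ n ih =>
    intro p p' q q' hq hq' hqAQ hdet hn
    have hq0 : (0 : ℝ) < q := by exact_mod_cast hq
    have hq'0 : (0 : ℝ) ≤ q' := Nat.cast_nonneg _
    have hq'R : (q' : ℝ) ≤ q := by exact_mod_cast hq'
    rcases lt_or_ge Q q with h | h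
    · exact htriv p p' q q' hq hq' hqAQ hdet h
    · have hA2 := hA q hq
      have hAq0 : (0 : ℝ) < A q := by exact_mod_cast (by omega : 0 < A q)
      have hcov : (Ω.filter fun z => NoApproxV A Q (x z) ∧ InCyl p p' q q' (x z)) ⊆
          (Ico 1 (A q)).biUnion fun b => Ω.filter fun z => NoApproxV A Q (x z) ∧
            InCyl (b * p + p') p (b * q + q') q (x z) := by
        intro z hz
        rw [mem_filter] at hz
        obtain ⟨b, hb, hbz⟩ := inCyl_child hq hdet hA2 (hz.2.1 p q hq h) hz.2.2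
        rw [mem_biUnion]
        exact ⟨b, hb, mem_filter.2 ⟨hz.1, hz.2.1, hbz⟩⟩
      have h1 : ((Ω.filter fun z => NoApproxV A Q (x z) ∧ InCyl p p' q q' (x z)).card : ℝ) ≤
          ∑ b ∈ Ico 1 (A q), ((Ω.filter fun z => NoApproxV A Q (x z) ∧
            InCyl (b * p + p') p (b * q + q') q (x z)).card : ℝ) := by
        exact_mod_cast (Finset.card_le_card hcov).trans Finset.card_biUnion_le
      refine h1.trans ?_
      have h2 : ∀ b ∈ Ico 1 (A q), ((Ω.filter fun z => NoApproxV A Q (x z) ∧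
            InCyl (b * p + p') p (b * q + q') q (x z)).card : ℝ) ≤
          W * (V (b * q + q') * (1 / (((b : ℝ) * q + q') * (b * q + q' + q)))) +
          (2 * (Am : ℝ) ^ 2 * (Q : ℝ) ^ 2 * Z) *
            (1 / (((b : ℝ) * q + q') * (b * q + q' + q))) := by
        intro b hb
        rw [mem_Ico] at hb
        have h3 := ih (b * p + p') p (b * q + q') q (by nlinarith) (by nlinarith)
          (by
            calc b * q + q' ≤ b * q + q := by omega
              _ = (b + 1) * q := by ring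
              _ ≤ Am * Q := Nat.mul_le_mul ((by omega : b + 1 ≤ A q).trans (hAm q hq h)) h)
          (by
            rw [← hdet, ← abs_neg]
            congr 1
            push_cast
            ring)
          (by
            have : q ≤ b * q := Nat.le_mul_of_pos_left q (by omega)
            omega)
        refine h3.trans (le_of_eq ?_)
        push_cast
        ring
      refine (Finset.sum_le_sum h2).trans ?_
      rw [Finset.sum_add_distrib, ← Finset.mul_sum, ← Finset.mul_sum]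
      have h4 := sum_child_le q q' hq0 hq'0 (A q) (by omega)
      have h5 := hV q q' hq hq' h
      have h7 : (1 - 1 / (A q : ℝ)) ≤ 1 := by
        have : 0 ≤ 1 / (A q : ℝ) := by positivity
        linarith
      have h8 : 0 ≤ 2 * (Am : ℝ) ^ 2 * (Q : ℝ) ^ 2 * Z := by positivity
      have h9 : 0 ≤ 1 / ((q : ℝ) * (q + q')) := by positivity
      have h10 : ∑ b ∈ Ico 1 (A q), 1 / (((b : ℝ) * q + q') * (b * q + q' + q)) ≤
          1 / ((q : ℝ) * (q + q')) := by
        refine h4.trans ?_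
        calc (1 - 1 / (A q : ℝ)) * (1 / (q * (q + q'))) ≤ 1 * (1 / (q * (q + q'))) :=
              mul_le_mul_of_nonneg_right h7 h9
          _ = _ := one_mul _
      calc W * ∑ b ∈ Ico 1 (A q), V (b * q + q') * (1 / (((b : ℝ) * q + q') * (b * q + q' + q))) +
            (2 * (Am : ℝ) ^ 2 * (Q : ℝ) ^ 2 * Z) *
              ∑ b ∈ Ico 1 (A q), 1 / (((b : ℝ) * q + q') * (b * q + q' + q))
          ≤ W * (V q * (1 / ((q : ℝ) * (q + q')))) +
            (2 * (Am : ℝ) ^ 2 * (Q : ℝ) ^ 2 * Z) * (1 / ((q : ℝ) * (q + q'))) :=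
            add_le_add (mul_le_mul_of_nonneg_left h5 hW) (mul_le_mul_of_nonneg_left h10 h8)
        _ = _ := by ring

/-- `log (1 + x) ≤ √x` -/
lemma log_le_sqrt (x : ℝ) (hx : 0 ≤ x) : Real.log (1 + x) ≤ Real.sqrt x := by
  have h0 := Real.sqrt_nonneg x
  have h1 : x = Real.sqrt x ^ 2 := (Real.sq_sqrt hx).symm
  have h2 : 1 + x ≤ Real.exp (Real.sqrt x) := by
    have h3 := Real.quadratic_le_exp_of_nonneg h0
    have h4 := Real.sum_le_exp_of_nonneg h0 4
    rw [Finset.sum_range_succ, Finset.sum_range_succ, Finset.sum_range_succ,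
      Finset.sum_range_succ, Finset.sum_range_zero] at h4
    norm_num [Nat.factorial] at h4
    have h5 : 1 + Real.sqrt x ^ 2 ≤
        1 + Real.sqrt x + Real.sqrt x ^ 2 / 2 + Real.sqrt x ^ 3 / 6 := by
      nlinarith [mul_nonneg h0 (sq_nonneg (Real.sqrt x - 3 / 2))]
    calc 1 + x = 1 + Real.sqrt x ^ 2 := by rw [← h1]
      _ ≤ _ := h5
      _ ≤ _ := h4
  rw [Real.log_le_iff_le_exp (by linarith)]
  exact h2

/-- the logarithmic sum over the children -/
lemma sum_child_log (q q' : ℝ) (hq : 0 < q) (hq' : 0 ≤ q') (hqq : q' ≤ q) (A : ℕ) (hA : 1 ≤ A) :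
    ∑ b ∈ Ico 1 A, Real.log (1 + b) * (1 / ((b * q + q') * (b * q + q' + q))) ≤
      4 * (1 / (q * (q + q'))) := by
  have hterm : ∀ b ∈ Ico 1 A,
      Real.log (1 + b) * (1 / ((b * q + q') * (b * q + q' + q))) ≤
        1 / (q * q) * (1 / (Real.sqrt b * (b + 1))) := by
    intro b hb
    have hb1 : (1 : ℝ) ≤ b := by exact_mod_cast (mem_Ico.1 hb).1
    have hb0 : (0 : ℝ) < b := by linarith
    have hsb : 0 < Real.sqrt b := Real.sqrt_pos.2 hb0
    have h1 : 1 / ((b * q + q') * (b * q + q' + q)) ≤ 1 / ((b * q) * ((b + 1) * q)) := by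
      apply one_div_le_one_div_of_le (by positivity)
      exact mul_le_mul (by linarith) (by linarith) (by positivity) (by positivity)
    have h2 : 0 ≤ Real.log (1 + b) := Real.log_nonneg (by linarith)
    calc Real.log (1 + b) * (1 / ((b * q + q') * (b * q + q' + q)))
        ≤ Real.sqrt b * (1 / ((b * q) * ((b + 1) * q))) :=
          mul_le_mul (log_le_sqrt b hb0.le) h1 (by positivity) hsb.le
      _ = Real.sqrt b * (1 / ((Real.sqrt b * Real.sqrt b * q) * ((b + 1) * q))) := by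
          rw [Real.mul_self_sqrt hb0.le]
      _ = 1 / (q * q) * (1 / (Real.sqrt b * (b + 1))) := by
          field_simp
  refine (Finset.sum_le_sum hterm).trans ?_
  rw [← Finset.mul_sum]
  have h5 : ∑ b ∈ Ico 1 A, 1 / (Real.sqrt b * ((b : ℝ) + 1)) ≤ 2 := by
    refine (sum_sqrt A hA).trans ?_
    have : 0 ≤ 2 / Real.sqrt A := by positivity
    linarith
  calc 1 / (q * q) * ∑ b ∈ Ico 1 A, 1 / (Real.sqrt b * ((b : ℝ) + 1))
      ≤ 1 / (q * q) * 2 := mul_le_mul_of_nonneg_left h5 (by positivity)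
    _ = 4 * (1 / (q * (q + q))) := by field_simp; ring
    _ ≤ 4 * (1 / (q * (q + q'))) := by
        apply mul_le_mul_of_nonneg_left _ (by norm_num)
        apply one_div_le_one_div_of_le (by positivity)
        exact mul_le_mul_of_nonneg_left (by linarith) hq.le

end Pool.Agent.X1.SchP
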