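import Mathlib
import Pool.Agent.X1.LangT
import Pool.Agent.X1.SchM

/-!
# The order of the minimum of `q ‖q x‖` for almost all elements of a number field
-/

set_option autoImplicit false

namespace Pool.Agent.X1.SchP

open Finset Filter Topology

/-- the counting function of the intervals, for the fractional parts -/
lemma frac_count {T : ℕ} (ξ : Fin T → ℝ) (hpos : ∀ k : ℕ, 1 ≤ k → ∀ i, 0 < nd (k * ξ i))
    (B : ℕ) (s : ℝ) (D : ℝ) (hD : ∀ K : ℕ, ∑ k ∈ Icc 1 K, G ξ B k ≤ D * K) (y r : ℝ)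
    (hr : 0 < r) :
    (((box T B).filter fun a => |Int.fract (s + ∑ i, (a i : ℝ) * ξ i) - y| ≤ r).card : ℝ) ≤
      2 * r * (32 * (B : ℝ) ^ T) + 8 * D := by
  have h1 := int_count ξ hpos B (s - y) D hD r hr
  have hsub : ((box T B).filter fun a => |Int.fract (s + ∑ i, (a i : ℝ) * ξ i) - y| ≤ r) ⊆
      (box T B).filter fun a => nd (s - y + ∑ i, (a i : ℝ) * ξ i) ≤ r := by
    intro a ha
    rw [mem_filter] at ha ⊢
    refine ⟨ha.1, (nd_le _ ⌊s + ∑ i, (a i : ℝ) * ξ i⌋).trans ?_⟩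
    have h2 : s - y + ∑ i, (a i : ℝ) * ξ i - ⌊s + ∑ i, (a i : ℝ) * ξ i⌋ =
        Int.fract (s + ∑ i, (a i : ℝ) * ξ i) - y := by
      unfold Int.fract
      ring
    rw [h2]
    exact ha.2
  have h3 : (((box T B).filter fun a =>
      |Int.fract (s + ∑ i, (a i : ℝ) * ξ i) - y| ≤ r).card : ℝ) ≤ _ :=
    le_trans (by exact_mod_cast card_le_card hsub) h1
  refine h3.trans (le_of_eq ?_)
  ring

/-- approximations of the fractional part -/
lemma fract_approx (x : ℝ) (p : ℤ) (q : ℕ) (hq : 1 ≤ q) :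
    |Int.fract x - (p : ℝ) / q| = |x - ((p + ⌊x⌋ * q : ℤ) : ℝ) / q| := by
  have hq0 : (0 : ℝ) < q := by exact_mod_cast hq
  congr 1
  push_cast
  unfold Int.fract
  field_simp
  ring

lemma inCyl_root (x : ℝ) : InCyl 0 1 1 0 (Int.fract x) := by
  refine ⟨Int.fract x, Int.fract_nonneg x, (Int.fract_lt_one x).le, ?_⟩
  push_cast
  ring

/-- an eventual inequality -/
lemma ev_small (T : ℕ) (hT1 : (1 : ℝ) ≤ T) (C1 κ1 c1 η : ℝ) (hC1 : 0 < C1) (hκ10 : 0 < κ1)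
    (hc10 : 0 < c1) (hη : 0 < η) :
    ∀ᶠ B : ℕ in atTop, 16 * C1 * ((2 * κ1 * Real.log B + 1) / c1) ^ 2 * (B : ℝ) ^ ((T : ℝ) / 2) ≤
      η / 2 * (B : ℝ) ^ (T : ℝ) := by
  have h0 : (fun x : ℝ => Real.log x) =o[atTop] fun x => x ^ ((T : ℝ) / 16) :=
    isLittleO_log_rpow_atTop (by positivity)
  have h1 : ∀ᶠ B : ℕ in atTop, ‖Real.log B‖ ≤ 1 * ‖(B : ℝ) ^ ((T : ℝ) / 16)‖ :=
    tendsto_natCast_atTop_atTop.eventually (h0.def one_pos)
  have h2 : Tendsto (fun B : ℕ => (B : ℝ) ^ ((T : ℝ) * 3 / 8)) atTop atTop :=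
    (tendsto_rpow_atTop (by positivity)).comp tendsto_natCast_atTop_atTop
  filter_upwards [h1, h2.eventually (eventually_ge_atTop
    (16 * C1 * ((2 * κ1 + 1) / c1) ^ 2 / (η / 2))), eventually_ge_atTop 1] with B hB hB' hB1
  have hB0 : (0 : ℝ) < B := by exact_mod_cast hB1
  have hB1' : (1 : ℝ) ≤ B := by exact_mod_cast hB1
  have hl0 : 0 ≤ Real.log B := Real.log_nonneg hB1'
  have hp1 : 1 ≤ (B : ℝ) ^ ((T : ℝ) / 16) := Real.one_le_rpow hB1' (by positivity)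
  rw [Real.norm_of_nonneg hl0, Real.norm_of_nonneg (by positivity), one_mul] at hB
  rw [div_le_iff₀ (by positivity)] at hB'
  have h3 : (2 * κ1 * Real.log B + 1) / c1 ≤ (2 * κ1 + 1) / c1 * (B : ℝ) ^ ((T : ℝ) / 16) := by
    rw [div_mul_eq_mul_div, div_le_div_iff_of_pos_right hc10]
    nlinarith
  have h4 : ((2 * κ1 * Real.log B + 1) / c1) ^ 2 ≤
      ((2 * κ1 + 1) / c1) ^ 2 * (B : ℝ) ^ ((T : ℝ) / 8) := by
    calc ((2 * κ1 * Real.log B + 1) / c1) ^ 2
        ≤ ((2 * κ1 + 1) / c1 * (B : ℝ) ^ ((T : ℝ) / 16)) ^ 2 :=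
          pow_le_pow_left₀ (by positivity) h3 2
      _ = ((2 * κ1 + 1) / c1) ^ 2 * ((B : ℝ) ^ ((T : ℝ) / 16) * (B : ℝ) ^ ((T : ℝ) / 16)) := by
          ring
      _ = _ := by rw [← Real.rpow_add hB0]; congr 2; ring
  calc 16 * C1 * ((2 * κ1 * Real.log B + 1) / c1) ^ 2 * (B : ℝ) ^ ((T : ℝ) / 2)
      ≤ 16 * C1 * (((2 * κ1 + 1) / c1) ^ 2 * (B : ℝ) ^ ((T : ℝ) / 8)) * (B : ℝ) ^ ((T : ℝ) / 2) := by
        gcongr
    _ = 16 * C1 * ((2 * κ1 + 1) / c1) ^ 2 * ((B : ℝ) ^ ((T : ℝ) / 8) * (B : ℝ) ^ ((T : ℝ) / 2)) := by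
        ring
    _ ≤ ((B : ℝ) ^ ((T : ℝ) * 3 / 8) * (η / 2)) *
        ((B : ℝ) ^ ((T : ℝ) / 8) * (B : ℝ) ^ ((T : ℝ) / 2)) :=
        mul_le_mul_of_nonneg_right hB' (by positivity)
    _ = η / 2 * (B : ℝ) ^ (T : ℝ) := by
        rw [show (T : ℝ) = (T : ℝ) * 3 / 8 + (T / 8 + T / 2) by ring, Real.rpow_add hB0,
          Real.rpow_add hB0]
        ring_nf

/-- the potential -/
lemma potential (c1 : ℝ) (hc10 : 0 < c1) (hc12 : c1 ≤ 1 / 2) (Q : ℕ) (hlQ0 : 0 ≤ Real.log Q)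
    (A : ℕ → ℕ) (hA2 : ∀ q, 1 ≤ q → 2 ≤ A q)
    (hAle : ∀ q : ℕ, 1 ≤ q → (A q : ℝ) ≤ (1 + Real.log q) / c1) :
    ∀ q q' : ℕ, 1 ≤ q → q' ≤ q → q ≤ Q →
      ∑ b ∈ Ico 1 (A q), ((1 + Real.log ((b * q + q' : ℕ) : ℝ)) / (1 + Real.log Q)) ^ (c1 / 4) *
        (1 / (((b : ℝ) * q + q') * (b * q + q' + q))) ≤
        ((1 + Real.log q) / (1 + Real.log Q)) ^ (c1 / 4) * (1 / ((q : ℝ) * (q + q'))) := by
  set γ : ℝ := c1 / 4 with hγ
  have hγ0 : 0 < γ := by positivity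
  have hγ1 : γ ≤ 1 := by rw [hγ]; linarith
  set V : ℕ → ℝ := fun q => ((1 + Real.log q) / (1 + Real.log Q)) ^ γ with hV
  have hlq : ∀ q : ℕ, 1 ≤ q → 0 ≤ Real.log q := fun q hq => Real.log_nonneg (by exact_mod_cast hq)
  have hVs : ∀ q q' : ℕ, 1 ≤ q → q' ≤ q → q ≤ Q →
      ∑ b ∈ Ico 1 (A q), V (b * q + q') * (1 / (((b : ℝ) * q + q') * (b * q + q' + q))) ≤
        V q * (1 / ((q : ℝ) * (q + q'))) := by
    intro q q' hq hq' hqQ
    have hq0 : (0 : ℝ) < q := by exact_mod_cast hq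
    have hq'0 : (0 : ℝ) ≤ q' := Nat.cast_nonneg _
    have hq'R : (q' : ℝ) ≤ q := by exact_mod_cast hq'
    have hlq0 := hlq q hq
    have hV0 : 0 ≤ V q := by positivity
    have hterm : ∀ b ∈ Ico 1 (A q), V (b * q + q') ≤
        V q * (1 + γ / (1 + Real.log q) * Real.log (1 + b)) := by
      intro b hb
      have hb1 : 1 ≤ b := (mem_Ico.1 hb).1
      have hb1' : (1 : ℝ) ≤ b := by exact_mod_cast hb1
      have hlb : 0 ≤ Real.log (1 + b) := Real.log_nonneg (by linarith)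
      have h1 : Real.log ((b * q + q' : ℕ) : ℝ) ≤ Real.log q + Real.log (1 + b) := by
        rw [← Real.log_mul hq0.ne' (by positivity)]
        apply Real.log_le_log
        · push_cast; positivity
        · push_cast; nlinarith
      have h1' : 0 ≤ Real.log ((b * q + q' : ℕ) : ℝ) := hlq _ (by nlinarith)
      have h2 : (1 + Real.log ((b * q + q' : ℕ) : ℝ)) / (1 + Real.log Q) ≤
          ((1 + Real.log q) / (1 + Real.log Q)) * (1 + Real.log (1 + b) / (1 + Real.log q)) := by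
        have h3 : ((1 + Real.log q) / (1 + Real.log Q)) *
            (1 + Real.log (1 + b) / (1 + Real.log q)) =
            (1 + Real.log q + Real.log (1 + b)) / (1 + Real.log Q) := by
          field_simp
        rw [h3]
        exact div_le_div_of_nonneg_right (by linarith) (by linarith)
      calc V (b * q + q') = ((1 + Real.log ((b * q + q' : ℕ) : ℝ)) / (1 + Real.log Q)) ^ γ := rfl
        _ ≤ (((1 + Real.log q) / (1 + Real.log Q)) *
            (1 + Real.log (1 + b) / (1 + Real.log q))) ^ γ :=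
            Real.rpow_le_rpow (by positivity) h2 hγ0.le
        _ = V q * (1 + Real.log (1 + b) / (1 + Real.log q)) ^ γ := by
            rw [Real.mul_rpow (by positivity) (by positivity)]
        _ ≤ V q * (1 + γ * (Real.log (1 + b) / (1 + Real.log q))) := by
            apply mul_le_mul_of_nonneg_left _ hV0
            exact rpow_one_add_le_one_add_mul_self
              (by have : 0 ≤ Real.log (1 + (b : ℝ)) / (1 + Real.log q) := by positivity
                  linarith) hγ0.le hγ1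
        _ = _ := by ring
    have h4 := sum_child_le q q' hq0 hq'0 (A q) (by have := hA2 q hq; omega)
    have h5 := sum_child_log q q' hq0 hq'0 hq'R (A q) (by have := hA2 q hq; omega)
    have h6 : ∑ b ∈ Ico 1 (A q), V (b * q + q') * (1 / (((b : ℝ) * q + q') * (b * q + q' + q))) ≤
        V q * ∑ b ∈ Ico 1 (A q), 1 / (((b : ℝ) * q + q') * (b * q + q' + q)) +
        V q * (γ / (1 + Real.log q)) * ∑ b ∈ Ico 1 (A q),
          Real.log (1 + b) * (1 / (((b : ℝ) * q + q') * (b * q + q' + q))) := by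
      rw [Finset.mul_sum, Finset.mul_sum, ← Finset.sum_add_distrib]
      apply Finset.sum_le_sum
      intro b hb
      have hb1 : (1 : ℝ) ≤ b := by exact_mod_cast (mem_Ico.1 hb).1
      calc V (b * q + q') * (1 / (((b : ℝ) * q + q') * (b * q + q' + q)))
          ≤ (V q * (1 + γ / (1 + Real.log q) * Real.log (1 + b))) *
            (1 / (((b : ℝ) * q + q') * (b * q + q' + q))) :=
            mul_le_mul_of_nonneg_right (hterm b hb) (by positivity)
        _ = _ := by ring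
    refine h6.trans ?_
    have hu0 : 0 ≤ 1 / ((q : ℝ) * (q + q')) := by positivity
    have hAq := hAle q hq
    have hAq0 : (0 : ℝ) < A q := by exact_mod_cast (by have := hA2 q hq; omega : 0 < A q)
    have h7 : c1 / (1 + Real.log q) ≤ 1 / (A q : ℝ) := by
      rw [div_le_div_iff₀ (by linarith) hAq0]
      rw [le_div_iff₀ hc10] at hAq
      linarith
    calc V q * ∑ b ∈ Ico 1 (A q), 1 / (((b : ℝ) * q + q') * (b * q + q' + q)) +
        V q * (γ / (1 + Real.log q)) * ∑ b ∈ Ico 1 (A q),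
          Real.log (1 + b) * (1 / (((b : ℝ) * q + q') * (b * q + q' + q)))
        ≤ V q * ((1 - 1 / (A q : ℝ)) * (1 / (q * (q + q')))) +
          V q * (γ / (1 + Real.log q)) * (4 * (1 / (q * (q + q')))) :=
          add_le_add (mul_le_mul_of_nonneg_left h4 hV0)
            (mul_le_mul_of_nonneg_left h5 (by positivity))
      _ = V q * (1 / (q * (q + q'))) * (1 - 1 / (A q : ℝ) + c1 / (1 + Real.log q)) := by
          rw [hγ]; ring
      _ ≤ V q * (1 / (q * (q + q'))) * 1 :=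
          mul_le_mul_of_nonneg_left (by linarith) (by positivity)
      _ = _ := mul_one _
  exact hVs

open Classical in
/-- **Upper bound, Khinchin's borderline.** -/
theorem upper2 {T : ℕ} (hT : 1 ≤ T) (ξ : Fin T → ℝ) (hξ : ∀ i, IsAlgebraic ℚ (ξ i))
    (hind : ∀ (y0 : ℤ) (y : Fin T → ℤ), (y0 : ℝ) + ∑ i, (y i : ℝ) * ξ i = 0 → y0 = 0 ∧ y = 0)
    (κ η c : ℝ) (hκ : 0 < κ) (hη : 0 < η) (hc : 0 < c) :
    ∃ B₀ : ℕ, ∀ B : ℕ, B₀ ≤ B → ∀ s : ℝ,
      (((box T B).filter fun a => ∀ (p : ℤ) (q : ℕ), 2 ≤ q → (q : ℝ) ≤ (B : ℝ) ^ κ →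
        c / ((q : ℝ) ^ 2 * Real.log q) < |s + ∑ i, (a i : ℝ) * ξ i - (p : ℝ) / q|).card : ℝ) ≤
          η * (B : ℝ) ^ T := by
  have hT1 : (1 : ℝ) ≤ T := by exact_mod_cast hT
  obtain ⟨κ1, hκ10, hκ1κ, hκ1T⟩ : ∃ κ1 : ℝ, 0 < κ1 ∧ κ1 ≤ κ ∧ κ1 ≤ T / 8 :=
    ⟨min κ (T / 8), lt_min hκ (by positivity), min_le_left _ _, min_le_right _ _⟩
  obtain ⟨ε1, hε10, hε11, hε12⟩ : ∃ ε1 : ℝ, 0 < ε1 ∧ ε1 ≤ 1 ∧ (T + 1) * ε1 ≤ T / 4 := by
    refine ⟨min 1 (T / 4 / (T + 1)), lt_min one_pos (by positivity), min_le_left _ _, ?_⟩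
    calc ((T : ℝ) + 1) * min (1 : ℝ) ((T : ℝ) / 4 / (T + 1)) ≤ (T + 1) * (T / 4 / (T + 1)) :=
          mul_le_mul_of_nonneg_left (min_le_right _ _) (by positivity)
      _ = T / 4 := by field_simp
  obtain ⟨c0, hc0, hS⟩ := schmidt ξ hξ hind ε1 hε10 hε11
  obtain ⟨C1, hC1, hsum⟩ := sum_bound ξ ε1 c0 hε10 hc0 hS
  have hpos := fun k hk i => nd_pos ξ hind k hk i
  -- the constants
  obtain ⟨c1, hc10, hc12, hc1c, hc1c'⟩ : ∃ c1 : ℝ, 0 < c1 ∧ c1 ≤ 1 / 2 ∧ 2 * c1 ≤ c ∧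
      16 * c1 ≤ c :=
    ⟨min (1 / 2) (c / 16), lt_min (by norm_num) (by positivity), min_le_left _ _,
      by have := min_le_right (1 / 2) (c / 16); linarith,
      by have := min_le_right (1 / 2) (c / 16); linarith⟩
  set γ : ℝ := c1 / 4 with hγ
  have hγ0 : 0 < γ := by positivity
  have hγ1 : γ ≤ 1 := by rw [hγ]; linarith
  set A : ℕ → ℕ := fun q => ⌊(1 + Real.log q) / c1⌋₊ with hA
  have hlq : ∀ q : ℕ, 1 ≤ q → 0 ≤ Real.log q := fun q hq => Real.log_nonneg (by exact_mod_cast hq)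
  have hA2 : ∀ q, 1 ≤ q → 2 ≤ A q := by
    intro q hq
    apply Nat.le_floor
    have h1 := hlq q hq
    rw [le_div_iff₀ hc10]
    push_cast
    linarith
  have hAle : ∀ q : ℕ, 1 ≤ q → (A q : ℝ) ≤ (1 + Real.log q) / c1 := fun q hq =>
    Nat.floor_le (by have := hlq q hq; positivity)
  have hAge : ∀ q : ℕ, 1 ≤ q → (1 + Real.log q) / (2 * c1) ≤ A q := by
    intro q hq
    have h1 := Nat.lt_floor_add_one ((1 + Real.log q) / c1)
    change (1 + Real.log q) / c1 < (A q : ℝ) + 1 at h1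
    have h2 : (2 : ℝ) ≤ A q := by exact_mod_cast hA2 q hq
    have h3 : (1 + Real.log q) / (2 * c1) = ((1 + Real.log q) / c1) / 2 := by
      rw [div_div, mul_comm]
    rw [h3]
    linarith
  -- the eventual conditions
  have hlogt : Tendsto (fun B : ℕ => Real.log B) atTop atTop :=
    Real.tendsto_log_atTop.comp tendsto_natCast_atTop_atTop
  have hev1 : ∀ᶠ B : ℕ in atTop, (128 / η) ^ (1 / γ) ≤ κ1 * Real.log B - Real.log 2 := by
    have h1 : Tendsto (fun B : ℕ => κ1 * Real.log B - Real.log 2) atTop atTop :=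
      tendsto_atTop_add_const_right _ _ (hlogt.const_mul_atTop hκ10)
    exact h1.eventually (eventually_ge_atTop _)
  have hev2 := ev_small T hT1 C1 κ1 c1 η hC1 hκ10 hc10 hη
  have hev3 : ∀ᶠ B : ℕ in atTop, (2 : ℝ) ≤ (B : ℝ) ^ κ1 :=
    ((tendsto_rpow_atTop hκ10).comp tendsto_natCast_atTop_atTop).eventually
      (eventually_ge_atTop _)
  obtain ⟨B₀, hB₀⟩ := eventually_atTop.1 (hev1.and (hev2.and (hev3.and (eventually_ge_atTop 1))))
  refine ⟨B₀, fun B hB s => ?_⟩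
  obtain ⟨hb1, hb2, hb3, hB1⟩ := hB₀ B hB
  have hBR : (1 : ℝ) ≤ B := by exact_mod_cast hB1
  have hB0 : (0 : ℝ) < B := by linarith
  have hl0 : 0 ≤ Real.log B := Real.log_nonneg hBR
  set Q : ℕ := ⌊(B : ℝ) ^ κ1⌋₊ with hQ
  have hQle : (Q : ℝ) ≤ (B : ℝ) ^ κ1 := Nat.floor_le (by positivity)
  have hQ1 : 1 ≤ Q := Nat.le_floor (by rw [Nat.cast_one]; linarith)
  have hQ0 : (0 : ℝ) < Q := by exact_mod_cast hQ1
  have hQge : (B : ℝ) ^ κ1 / 2 ≤ Q := by
    have := Nat.lt_floor_add_one ((B : ℝ) ^ κ1)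
    rw [← hQ] at this
    linarith
  have hlogQ : κ1 * Real.log B - Real.log 2 ≤ Real.log Q := by
    rw [← Real.log_rpow hB0, ← Real.log_div (by positivity) (by norm_num)]
    exact Real.log_le_log (by positivity) hQge
  have hlogQ' : Real.log Q ≤ κ1 * Real.log B := by
    rw [← Real.log_rpow hB0]
    exact Real.log_le_log hQ0 hQle
  have hlQ0 := hlq Q hQ1
  -- the potential
  set V : ℕ → ℝ := fun q => ((1 + Real.log q) / (1 + Real.log Q)) ^ γ with hV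
  have hV1 : ∀ q, Q < q → 1 ≤ V q := by
    intro q hq
    apply Real.one_le_rpow _ hγ0.le
    rw [le_div_iff₀ (by linarith), one_mul]
    have := Real.log_le_log hQ0 (by exact_mod_cast hq.le : (Q : ℝ) ≤ q)
    linarith
  have hVs := potential c1 hc10 hc12 Q hlQ0 A hA2 hAle
  -- the application
  set D : ℝ := C1 * (B : ℝ) ^ ((T + 1) * ε1) with hD
  have hD0 : 0 ≤ D := by positivity
  have hcount := fun y r hr => frac_count ξ hpos B s D (fun K => by
    refine (hsum K B hB1).trans (le_of_eq ?_)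
    rw [hD]; ring) y r hr
  have hmain := tree2 (box T B) (fun a => Int.fract (s + ∑ i, (a i : ℝ) * ξ i))
    (32 * (B : ℝ) ^ T) (8 * D) (by positivity) (by positivity) hcount A hA2 Q (A Q)
    (fun q hq hqQ => Nat.floor_le_floor (by
      apply div_le_div_of_nonneg_right _ hc10.le
      have := Real.log_le_log (by exact_mod_cast hq : (0 : ℝ) < q)
        (by exact_mod_cast hqQ : (q : ℝ) ≤ Q)
      linarith)) V hV1 hVs (2 * Q) 0 1 1 0 le_rfl (by norm_num)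
    (Nat.mul_pos (by have := hA2 Q hQ1; omega) hQ1) (by norm_num) (by omega)
  have hsub : ((box T B).filter fun a => ∀ (p : ℤ) (q : ℕ), 2 ≤ q → (q : ℝ) ≤ (B : ℝ) ^ κ →
        c / ((q : ℝ) ^ 2 * Real.log q) < |s + ∑ i, (a i : ℝ) * ξ i - (p : ℝ) / q|) ⊆
      (box T B).filter fun a => NoApproxV A Q (Int.fract (s + ∑ i, (a i : ℝ) * ξ i)) ∧
        InCyl 0 1 1 0 (Int.fract (s + ∑ i, (a i : ℝ) * ξ i)) := by
    intro a ha
    rw [mem_filter] at ha ⊢
    refine ⟨ha.1, ?_, inCyl_root _⟩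
    intro p q hq hqQ
    rw [fract_approx _ p q hq]
    have hq0 : (0 : ℝ) < q := by exact_mod_cast hq
    have hAq0 : (0 : ℝ) < A q := by exact_mod_cast (by have := hA2 q hq; omega : 0 < A q)
    have hqκ : (B : ℝ) ^ κ1 ≤ (B : ℝ) ^ κ := Real.rpow_le_rpow_of_exponent_le hBR hκ1κ
    have hqR : (q : ℝ) ≤ Q := by exact_mod_cast hqQ
    rcases Nat.lt_or_ge q 2 with hq2 | hq2
    · -- `q = 1`
      have hq1 : q = 1 := by omega
      subst hq1
      have h1 := ha.2 (2 * (p + ⌊s + ∑ i, (a i : ℝ) * ξ i⌋ * (1 : ℕ))) 2 le_rfl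
        (by push_cast; linarith)
      have h2 : ((2 * (p + ⌊s + ∑ i, (a i : ℝ) * ξ i⌋ * (1 : ℕ)) : ℤ) : ℝ) / ((2 : ℕ) : ℝ) =
          ((p + ⌊s + ∑ i, (a i : ℝ) * ξ i⌋ * (1 : ℕ) : ℤ) : ℝ) / ((1 : ℕ) : ℝ) := by
        push_cast
        ring
      rw [h2] at h1
      refine le_trans ?_ h1.le
      have h3 := hAge 1 le_rfl
      rw [Nat.cast_one, Real.log_one, add_zero] at h3
      have hlog2 : Real.log 2 < 1 := by have := Real.log_two_lt_d9; linarith
      have hlog20 : 0 < Real.log 2 := Real.log_pos (by norm_num)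
      rw [Nat.cast_one, one_pow, mul_one]
      push_cast
      have h4 : 2 * c1 ≤ c / (2 ^ 2 * Real.log 2) := by
        rw [le_div_iff₀ (by positivity)]
        nlinarith
      refine le_trans ?_ h4
      rw [div_le_iff₀ (by exact_mod_cast (by have := hA2 1 le_rfl; omega : 0 < A 1))]
      rw [div_le_iff₀ (by positivity)] at h3
      linarith
    · have h1 := ha.2 (p + ⌊s + ∑ i, (a i : ℝ) * ξ i⌋ * q) q hq2 (by linarith)
      refine le_trans ?_ h1.le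
      have hlq1 : 0 < Real.log q := Real.log_pos (by exact_mod_cast hq2)
      rw [div_le_div_iff₀ (by positivity) (by positivity)]
      have h3 := hAge q hq
      rw [div_le_iff₀ (by positivity)] at h3
      have h4 : Real.log q ≤ c * A q := by nlinarith
      calc 1 * ((q : ℝ) ^ 2 * Real.log q) ≤ (q : ℝ) ^ 2 * (c * A q) := by
            rw [one_mul]
            exact mul_le_mul_of_nonneg_left h4 (by positivity)
        _ = c * (A q * (q : ℝ) ^ 2) := by ring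
  have hcard : (((box T B).filter fun a => ∀ (p : ℤ) (q : ℕ), 2 ≤ q → (q : ℝ) ≤ (B : ℝ) ^ κ →
        c / ((q : ℝ) ^ 2 * Real.log q) < |s + ∑ i, (a i : ℝ) * ξ i - (p : ℝ) / q|).card : ℝ) ≤ _ :=
    le_trans (by exact_mod_cast card_le_card hsub) hmain
  refine hcard.trans ?_
  have hVone : V 1 ≤ η / 128 := by
    have h1 : V 1 = (1 / (1 + Real.log Q)) ^ γ := by
      simp only [hV, Nat.cast_one, Real.log_one, add_zero]
    rw [h1, Real.div_rpow zero_le_one (by linarith), Real.one_rpow]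
    have h2 : 128 / η ≤ (1 + Real.log Q) ^ γ := by
      have h3 : (128 / η) ^ (1 / γ) ≤ 1 + Real.log Q := by linarith
      calc 128 / η = ((128 / η) ^ (1 / γ)) ^ γ := by
            rw [← Real.rpow_mul (by positivity), one_div_mul_cancel hγ0.ne', Real.rpow_one]
        _ ≤ (1 + Real.log Q) ^ γ := Real.rpow_le_rpow (by positivity) h3 hγ0.le
    have h4 : (0 : ℝ) < 128 / η := by positivity
    calc 1 / (1 + Real.log Q) ^ γ ≤ 1 / (128 / η) := one_div_le_one_div_of_le h4 h2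
      _ = η / 128 := by field_simp
  have hAQ : (A Q : ℝ) ≤ (2 * κ1 * Real.log B + 1) / c1 := by
    refine (hAle Q hQ1).trans ?_
    apply div_le_div_of_nonneg_right _ hc10.le
    nlinarith [mul_nonneg hκ10.le hl0]
  have hQ2 : (Q : ℝ) ^ 2 * (B : ℝ) ^ ((T + 1) * ε1) ≤ (B : ℝ) ^ ((T : ℝ) / 2) := by
    calc (Q : ℝ) ^ 2 * (B : ℝ) ^ ((T + 1) * ε1)
        ≤ ((B : ℝ) ^ κ1) ^ 2 * (B : ℝ) ^ ((T + 1) * ε1) := by gcongr
      _ = (B : ℝ) ^ (κ1 + κ1 + (T + 1) * ε1) := by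
          rw [Real.rpow_add hB0, Real.rpow_add hB0, sq]
      _ ≤ _ := Real.rpow_le_rpow_of_exponent_le hBR (by linarith)
  have h8 : 2 * (A Q : ℝ) ^ 2 * (Q : ℝ) ^ 2 * (8 * D) ≤ η / 2 * (B : ℝ) ^ T := by
    rw [← Real.rpow_natCast (B : ℝ) T]
    refine le_trans ?_ hb2
    calc 2 * (A Q : ℝ) ^ 2 * (Q : ℝ) ^ 2 * (8 * D)
        = 16 * C1 * (A Q : ℝ) ^ 2 * ((Q : ℝ) ^ 2 * (B : ℝ) ^ ((T + 1) * ε1)) := by rw [hD]; ring
      _ ≤ 16 * C1 * ((2 * κ1 * Real.log B + 1) / c1) ^ 2 * (B : ℝ) ^ ((T : ℝ) / 2) := by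
          gcongr
  have h9 : 32 * (B : ℝ) ^ T * V 1 ≤ η / 4 * (B : ℝ) ^ T := by
    calc 32 * (B : ℝ) ^ T * V 1 ≤ 32 * (B : ℝ) ^ T * (η / 128) :=
          mul_le_mul_of_nonneg_left hVone (by positivity)
      _ = η / 4 * (B : ℝ) ^ T := by ring
  have hBT : (0 : ℝ) ≤ (B : ℝ) ^ T := by positivity
  have h10 : (1 : ℝ) / (((1 : ℕ) : ℝ) * (((1 : ℕ) : ℝ) + ((0 : ℕ) : ℝ))) = 1 := by norm_num
  rw [h10, mul_one]
  nlinarith

end Pool.Agent.X1.SchP
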