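import Mathlib
import Pool.Agent.X1.LangU

/-!
# The order of the minimum of `q ‖q x‖` for almost all elements of a number field, II
-/

set_option autoImplicit false

namespace Pool.Agent.X1.SchP

open Finset Filter Topology

/-- an eventual inequality -/
lemma ev_small2 (T : ℕ) (hT1 : (1 : ℝ) ≤ T) (C1 κ1 η : ℝ) (hC1 : 0 < C1) (hκ10 : 0 < κ1)
    (hη : 0 < η) :
    ∀ᶠ B : ℕ in atTop, 16 * C1 * (κ1 * Real.log B) ^ 2 * (B : ℝ) ^ ((T : ℝ) / 2) ≤
      η / 2 * (B : ℝ) ^ (T : ℝ) := by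
  filter_upwards [ev_small T hT1 C1 κ1 1 η hC1 hκ10 one_pos hη, eventually_ge_atTop 1] with B hB hB1
  refine le_trans ?_ hB
  have hl0 : 0 ≤ Real.log B := Real.log_nonneg (by exact_mod_cast hB1)
  have h1 : κ1 * Real.log B ≤ (2 * κ1 * Real.log B + 1) / 1 := by
    rw [div_one]
    nlinarith [mul_nonneg hκ10.le hl0]
  gcongr

open Classical in
/-- **Upper bound for the minimum.** -/
theorem upper {T : ℕ} (hT : 1 ≤ T) (ξ : Fin T → ℝ) (hξ : ∀ i, IsAlgebraic ℚ (ξ i))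
    (hind : ∀ (y0 : ℤ) (y : Fin T → ℤ), (y0 : ℝ) + ∑ i, (y i : ℝ) * ξ i = 0 → y0 = 0 ∧ y = 0)
    (κ η : ℝ) (hκ : 0 < κ) (hη : 0 < η) :
    ∃ C : ℝ, 0 < C ∧ ∃ B₀ : ℕ, ∀ B : ℕ, B₀ ≤ B → ∀ s : ℝ,
      (((box T B).filter fun a => ∀ (p : ℤ) (q : ℕ), 1 ≤ q → (q : ℝ) ≤ (B : ℝ) ^ κ →
        C / ((q : ℝ) ^ 2 * Real.log B) < |s + ∑ i, (a i : ℝ) * ξ i - (p : ℝ) / q|).card : ℝ) ≤
          η * (B : ℝ) ^ T := by
  have hT1 : (1 : ℝ) ≤ T := by exact_mod_cast hT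
  obtain ⟨κ1, hκ10, hκ1κ, hκ1T⟩ : ∃ κ1 : ℝ, 0 < κ1 ∧ κ1 ≤ κ ∧ κ1 ≤ T / 8 :=
    ⟨min κ (T / 8), lt_min hκ (by positivity), min_le_left _ _, min_le_right _ _⟩
  obtain ⟨ε1, hε10, hε11, hε12⟩ : ∃ ε1 : ℝ, 0 < ε1 ∧ ε1 ≤ 1 ∧ (T + 1) * ε1 ≤ T / 4 := by
    refine ⟨min 1 (T / 4 / (T + 1)), lt_min one_pos (by positivity), min_le_left _ _, ?_⟩
    calc ((T : ℝ) + 1) * min (1 : ℝ) ((T : ℝ) / 4 / (T + 1)) ≤ (T + 1) * (T / 4 / (T + 1)) :=
          mul_le_mul_of_nonneg_left (min_le_right _ _) (by positivity)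
      _ = T / 4 := by field_simp
  obtain ⟨c0, hc0, hS⟩ := schmidt ξ hξ hind ε1 hε10 hε11
  obtain ⟨C1, hC1, hsum⟩ := sum_bound ξ ε1 c0 hε10 hc0 hS
  have hpos := fun k hk i => nd_pos ξ hind k hk i
  -- the constants
  obtain ⟨ℓ, hℓ1, hℓ⟩ : ∃ ℓ : ℝ, 1 ≤ ℓ ∧ Real.exp (-ℓ) ≤ η / 128 := by
    refine ⟨max 1 (Real.log (128 / η)), le_max_left _ _, ?_⟩
    calc Real.exp (-max 1 (Real.log (128 / η))) ≤ Real.exp (-Real.log (128 / η)) :=
          Real.exp_le_exp.2 (neg_le_neg (le_max_right _ _))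
      _ = η / 128 := by
          rw [Real.exp_neg, Real.exp_log (by positivity), inv_div]
  have hℓ0 : 0 < ℓ := by linarith
  refine ⟨32 * ℓ / κ1, by positivity, ?_⟩
  -- the eventual conditions
  have hlogt : Tendsto (fun B : ℕ => Real.log B) atTop atTop :=
    Real.tendsto_log_atTop.comp tendsto_natCast_atTop_atTop
  have hev1 : ∀ᶠ B : ℕ in atTop, 8 * ℓ ≤ κ1 * Real.log B / 8 :=
    ((hlogt.const_mul_atTop hκ10).atTop_div_const (by norm_num)).eventually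
      (eventually_ge_atTop _)
  have hev2 := ev_small2 T hT1 C1 κ1 η hC1 hκ10 hη
  have hev3 : ∀ᶠ B : ℕ in atTop, (2 : ℝ) ≤ (B : ℝ) ^ κ1 :=
    ((tendsto_rpow_atTop hκ10).comp tendsto_natCast_atTop_atTop).eventually
      (eventually_ge_atTop _)
  have hev4 : ∀ᶠ B : ℕ in atTop, (256 / η) ≤ (B : ℝ) ^ (κ1 / 4) :=
    ((tendsto_rpow_atTop (by positivity)).comp tendsto_natCast_atTop_atTop).eventually
      (eventually_ge_atTop _)
  obtain ⟨B₀, hB₀⟩ := eventually_atTop.1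
    (hev1.and (hev2.and (hev3.and (hev4.and (eventually_ge_atTop 1)))))
  refine ⟨B₀, fun B hB s => ?_⟩
  obtain ⟨hb1, hb2, hb3, hb4, hB1⟩ := hB₀ B hB
  have hBR : (1 : ℝ) ≤ B := by exact_mod_cast hB1
  have hB0 : (0 : ℝ) < B := by linarith
  have hl0 : 0 ≤ Real.log B := Real.log_nonneg hBR
  have hl1 : 0 < Real.log B := by
    rcases hl0.lt_or_eq with h | h
    · exact h
    · rw [← h] at hb1; linarith
  set Q : ℕ := ⌊(B : ℝ) ^ κ1⌋₊ with hQ
  have hQle : (Q : ℝ) ≤ (B : ℝ) ^ κ1 := Nat.floor_le (by positivity)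
  have hQ1 : 1 ≤ Q := Nat.le_floor (by rw [Nat.cast_one]; linarith)
  have hQ0 : (0 : ℝ) < Q := by exact_mod_cast hQ1
  have hQge : (B : ℝ) ^ κ1 / 2 ≤ Q := by
    have := Nat.lt_floor_add_one ((B : ℝ) ^ κ1)
    rw [← hQ] at this
    linarith
  set n : ℕ := ⌊κ1 * Real.log B / 8⌋₊ with hn
  have hnle : (n : ℝ) ≤ κ1 * Real.log B / 8 := Nat.floor_le (by linarith)
  have hnge : κ1 * Real.log B / 16 ≤ n := by
    have := Nat.lt_floor_add_one (κ1 * Real.log B / 8)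
    rw [← hn] at this
    linarith
  have hn4 : 4 * ℓ ≤ n := by linarith
  set A : ℕ := ⌊(n : ℝ) / ℓ⌋₊ with hA
  have hnℓ : 4 ≤ (n : ℝ) / ℓ := by rw [le_div_iff₀ hℓ0]; linarith
  have hA2 : 2 ≤ A := Nat.le_floor (by push_cast; linarith)
  have hA0 : (0 : ℝ) < A := by exact_mod_cast (by omega : 0 < A)
  have hAle : (A : ℝ) ≤ n / ℓ := Nat.floor_le (by positivity)
  have hAge : (n : ℝ) / (2 * ℓ) ≤ A := by
    have h1 := Nat.lt_floor_add_one ((n : ℝ) / ℓ)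
    rw [← hA] at h1
    have h2 : (2 : ℝ) ≤ A := by exact_mod_cast hA2
    have h3 : (n : ℝ) / (2 * ℓ) = (n / ℓ) / 2 := by rw [div_div, mul_comm]
    rw [h3]
    linarith
  -- the application
  set D : ℝ := C1 * (B : ℝ) ^ ((T + 1) * ε1) with hD
  have hD0 : 0 ≤ D := by positivity
  have hcount := fun y r hr => frac_count ξ hpos B s D (fun K => by
    refine (hsum K B hB1).trans (le_of_eq ?_)
    rw [hD]; ring) y r hr
  have hmain := tree (box T B) (fun a => Int.fract (s + ∑ i, (a i : ℝ) * ξ i))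
    (32 * (B : ℝ) ^ T) (8 * D) (by positivity) (by positivity) hcount A Q hA2 hQ1 n 0 1 1 0
    le_rfl (by norm_num) (Nat.mul_pos (by omega) hQ1) (by norm_num)
  have hsub : ((box T B).filter fun a => ∀ (p : ℤ) (q : ℕ), 1 ≤ q → (q : ℝ) ≤ (B : ℝ) ^ κ →
        32 * ℓ / κ1 / ((q : ℝ) ^ 2 * Real.log B) < |s + ∑ i, (a i : ℝ) * ξ i - (p : ℝ) / q|) ⊆
      (box T B).filter fun a => NoApprox A Q (Int.fract (s + ∑ i, (a i : ℝ) * ξ i)) ∧
        InCyl 0 1 1 0 (Int.fract (s + ∑ i, (a i : ℝ) * ξ i)) := by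
    intro a ha
    rw [mem_filter] at ha ⊢
    refine ⟨ha.1, ?_, inCyl_root _⟩
    intro p q hq hqQ
    rw [fract_approx _ p q hq]
    have hq0 : (0 : ℝ) < q := by exact_mod_cast hq
    have hqκ : (B : ℝ) ^ κ1 ≤ (B : ℝ) ^ κ := Real.rpow_le_rpow_of_exponent_le hBR hκ1κ
    have hqR : (q : ℝ) ≤ Q := by exact_mod_cast hqQ
    have h1 := ha.2 (p + ⌊s + ∑ i, (a i : ℝ) * ξ i⌋ * q) q hq (by linarith)
    refine le_trans ?_ h1.le
    rw [div_div, div_le_div_iff₀ (by positivity) (by positivity)]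
    have h4 : κ1 * Real.log B ≤ 32 * ℓ * A := by
      rw [div_le_iff₀ (by positivity)] at hAge
      nlinarith
    calc 1 * (κ1 * ((q : ℝ) ^ 2 * Real.log B)) = (q : ℝ) ^ 2 * (κ1 * Real.log B) := by ring
      _ ≤ (q : ℝ) ^ 2 * (32 * ℓ * A) := mul_le_mul_of_nonneg_left h4 (by positivity)
      _ = 32 * ℓ * (A * (q : ℝ) ^ 2) := by ring
  have hcard : (((box T B).filter fun a => ∀ (p : ℤ) (q : ℕ), 1 ≤ q → (q : ℝ) ≤ (B : ℝ) ^ κ →
        32 * ℓ / κ1 / ((q : ℝ) ^ 2 * Real.log B) <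
          |s + ∑ i, (a i : ℝ) * ξ i - (p : ℝ) / q|).card : ℝ) ≤ _ :=
    le_trans (by exact_mod_cast card_le_card hsub) hmain
  refine hcard.trans ?_
  have h10 : (1 : ℝ) / (((1 : ℕ) : ℝ) * (((1 : ℕ) : ℝ) + ((0 : ℕ) : ℝ))) = 1 := by norm_num
  rw [h10, mul_one]
  have hBT : (0 : ℝ) ≤ (B : ℝ) ^ T := by positivity
  -- the first term
  have e1 : (1 - 1 / (A : ℝ)) ^ n ≤ η / 128 := by
    refine le_trans ?_ hℓ
    have h1 : 1 - 1 / (A : ℝ) ≤ Real.exp (-(1 / (A : ℝ))) := by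
      have := Real.add_one_le_exp (-(1 / (A : ℝ)))
      linarith
    have h2 : 0 ≤ 1 - 1 / (A : ℝ) := by
      rw [sub_nonneg, div_le_one hA0]
      exact_mod_cast (by omega : 1 ≤ A)
    calc (1 - 1 / (A : ℝ)) ^ n ≤ Real.exp (-(1 / (A : ℝ))) ^ n := pow_le_pow_left₀ h2 h1 n
      _ = Real.exp (-((n : ℝ) / A)) := by
          rw [← Real.exp_nat_mul]
          congr 1
          ring
      _ ≤ Real.exp (-ℓ) := by
          apply Real.exp_le_exp.2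
          rw [neg_le_neg_iff, le_div_iff₀ hA0]
          rw [le_div_iff₀ hℓ0] at hAle
          linarith
  -- the second term
  have e2 : (4 : ℝ) ^ n * Real.sqrt (((1 : ℕ) : ℝ) / Q) ≤ η / 128 := by
    have h1 : (4 : ℝ) ^ n ≤ (B : ℝ) ^ (κ1 / 4) := by
      have h2 : (4 : ℝ) ≤ Real.exp 2 := by
        have h3 := Real.sum_le_exp_of_nonneg (by norm_num : (0 : ℝ) ≤ 2) 4
        norm_num [Finset.sum_range_succ, Nat.factorial] at h3
        linarith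
      calc (4 : ℝ) ^ n ≤ Real.exp 2 ^ n := pow_le_pow_left₀ (by norm_num) h2 n
        _ = Real.exp (n * 2) := by rw [← Real.exp_nat_mul]
        _ ≤ Real.exp (Real.log B * (κ1 / 4)) := Real.exp_le_exp.2 (by linarith)
        _ = (B : ℝ) ^ (κ1 / 4) := by rw [Real.rpow_def_of_pos hB0]
    have h2 : Real.sqrt (((1 : ℕ) : ℝ) / Q) ≤ 2 * (B : ℝ) ^ (-(κ1 / 2)) := by
      rw [Real.sqrt_le_left (by positivity), mul_pow, ← Real.rpow_natCast ((B : ℝ) ^ (-(κ1 / 2))),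
        ← Real.rpow_mul hB0.le]
      rw [Nat.cast_one, div_le_iff₀ hQ0]
      have h3 : (B : ℝ) ^ (-(κ1 / 2) * ((2 : ℕ) : ℝ)) * (B : ℝ) ^ κ1 = 1 := by
        rw [← Real.rpow_add hB0]
        push_cast
        rw [show -(κ1 / 2) * 2 + κ1 = 0 by ring, Real.rpow_zero]
      have h4 : (0 : ℝ) < (B : ℝ) ^ (-(κ1 / 2) * ((2 : ℕ) : ℝ)) := by positivity
      nlinarith
    calc (4 : ℝ) ^ n * Real.sqrt (((1 : ℕ) : ℝ) / Q)
        ≤ (B : ℝ) ^ (κ1 / 4) * (2 * (B : ℝ) ^ (-(κ1 / 2))) :=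
          mul_le_mul h1 h2 (Real.sqrt_nonneg _) (by positivity)
      _ = 2 * ((B : ℝ) ^ (κ1 / 4) * (B : ℝ) ^ (-(κ1 / 2))) := by ring
      _ = 2 * ((B : ℝ) ^ (κ1 / 4))⁻¹ := by
          rw [← Real.rpow_add hB0, ← Real.rpow_neg hB0.le]
          congr 2
          ring
      _ ≤ 2 * (256 / η)⁻¹ := by
          apply mul_le_mul_of_nonneg_left _ (by norm_num)
          exact inv_anti₀ (by positivity) hb4
      _ = η / 128 := by
          rw [inv_div]; ring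
  -- the third term
  have hAL : (A : ℝ) ≤ κ1 * Real.log B := by
    have h1 : (n : ℝ) / ℓ ≤ n := div_le_self (Nat.cast_nonneg _) hℓ1
    have h2 := mul_nonneg hκ10.le hl0
    linarith
  have hQ2 : (Q : ℝ) ^ 2 * (B : ℝ) ^ ((T + 1) * ε1) ≤ (B : ℝ) ^ ((T : ℝ) / 2) := by
    calc (Q : ℝ) ^ 2 * (B : ℝ) ^ ((T + 1) * ε1)
        ≤ ((B : ℝ) ^ κ1) ^ 2 * (B : ℝ) ^ ((T + 1) * ε1) := by gcongr
      _ = (B : ℝ) ^ (κ1 + κ1 + (T + 1) * ε1) := by
          rw [Real.rpow_add hB0, Real.rpow_add hB0, sq]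
      _ ≤ _ := Real.rpow_le_rpow_of_exponent_le hBR (by linarith)
  have e3 : 2 * (A : ℝ) ^ 2 * (Q : ℝ) ^ 2 * (8 * D) ≤ η / 2 * (B : ℝ) ^ T := by
    rw [← Real.rpow_natCast (B : ℝ) T]
    refine le_trans ?_ hb2
    calc 2 * (A : ℝ) ^ 2 * (Q : ℝ) ^ 2 * (8 * D)
        = 16 * C1 * (A : ℝ) ^ 2 * ((Q : ℝ) ^ 2 * (B : ℝ) ^ ((T + 1) * ε1)) := by rw [hD]; ring
      _ ≤ 16 * C1 * (κ1 * Real.log B) ^ 2 * (B : ℝ) ^ ((T : ℝ) / 2) := by
          gcongr
  have e4 : 32 * (B : ℝ) ^ T * ((1 - 1 / (A : ℝ)) ^ n +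
      4 ^ n * Real.sqrt (((1 : ℕ) : ℝ) / Q)) ≤ η / 2 * (B : ℝ) ^ T := by
    calc 32 * (B : ℝ) ^ T * ((1 - 1 / (A : ℝ)) ^ n + 4 ^ n * Real.sqrt (((1 : ℕ) : ℝ) / Q))
        ≤ 32 * (B : ℝ) ^ T * (η / 128 + η / 128) :=
          mul_le_mul_of_nonneg_left (add_le_add e1 e2) (by positivity)
      _ = η / 2 * (B : ℝ) ^ T := by ring
  linarith

open Classical in
/-- **Lower bound for the minimum.** -/
theorem lower {T : ℕ} (hT : 1 ≤ T) (ξ : Fin T → ℝ) (hξ : ∀ i, IsAlgebraic ℚ (ξ i))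
    (hind : ∀ (y0 : ℤ) (y : Fin T → ℤ), (y0 : ℝ) + ∑ i, (y i : ℝ) * ξ i = 0 → y0 = 0 ∧ y = 0)
    (κ η : ℝ) (hκ0 : 0 ≤ κ) (hκ : κ < T) (hη : 0 < η) :
    ∃ c : ℝ, 0 < c ∧ ∃ B₀ : ℕ, ∀ B : ℕ, B₀ ≤ B → ∀ t : ℝ,
      (((box T B).filter fun a => ∃ (p : ℤ) (q : ℕ), 1 ≤ q ∧ (q : ℝ) ≤ (B : ℝ) ^ κ ∧
        |t + ∑ i, (a i : ℝ) * ξ i - (p : ℝ) / q| ≤ c / ((q : ℝ) ^ 2 * Real.log B)).card : ℝ) ≤
          η * (B : ℝ) ^ T := by
  have hlog2 : 0 < Real.log 2 := Real.log_pos (by norm_num)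
  set c : ℝ := η / (128 * (κ / Real.log 2 + 1)) with hc
  have hc0 : 0 < c := by positivity
  refine ⟨c, hc0, ?_⟩
  set a4 : ℝ := (T - κ) / 4 with ha4
  have ha40 : 0 < a4 := by rw [ha4]; linarith
  obtain ⟨ε1, hε10, hε11, hε12⟩ : ∃ ε1 : ℝ, 0 < ε1 ∧ ε1 ≤ 1 ∧
      ε1 * (2 * κ + 1 + (T + 1)) ≤ a4 := by
    have hD : 0 < 2 * κ + 1 + ((T : ℝ) + 1) := by positivity
    refine ⟨min 1 (a4 / (2 * κ + 1 + (T + 1))), lt_min one_pos (by positivity),
      min_le_left _ _, ?_⟩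
    calc min 1 (a4 / (2 * κ + 1 + (T + 1))) * (2 * κ + 1 + (T + 1))
        ≤ (a4 / (2 * κ + 1 + (T + 1))) * (2 * κ + 1 + (T + 1)) :=
          mul_le_mul_of_nonneg_right (min_le_right _ _) hD.le
      _ = a4 := by field_simp
  obtain ⟨C, hC, hblock⟩ := block ξ hξ hind ε1 hε10 hε11
  -- the eventual conditions
  have hlogt : Tendsto (fun B : ℕ => Real.log B) atTop atTop :=
    Real.tendsto_log_atTop.comp tendsto_natCast_atTop_atTop
  have hev1 : ∀ᶠ B : ℕ in atTop, max (8 * c) 1 ≤ Real.log B :=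
    hlogt.eventually (eventually_ge_atTop _)
  have hev2 : ∀ᶠ B : ℕ in atTop, Real.log B ≤ (8 * c) * (B : ℝ) := by
    have h0 : (fun x : ℝ => Real.log x) =o[atTop] fun x => x := Real.isLittleO_log_id_atTop
    filter_upwards [tendsto_natCast_atTop_atTop.eventually (h0.def (by positivity : 0 < 8 * c)),
      eventually_ge_atTop 1] with B hB hB1
    rw [Real.norm_of_nonneg (Nat.cast_nonneg _)] at hB
    exact le_trans (le_abs_self _) hB
  have hev3 : ∀ᶠ B : ℕ in atTop, (κ / Real.log 2 + 1) * Real.log B ≤ (B : ℝ) ^ a4 := by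
    have h0 : (fun x : ℝ => Real.log x) =o[atTop] fun x => x ^ a4 :=
      isLittleO_log_rpow_atTop ha40
    filter_upwards [tendsto_natCast_atTop_atTop.eventually
      (h0.def (by positivity : 0 < 1 / (κ / Real.log 2 + 1))), eventually_ge_atTop 1] with B hB hB1
    have hB0 : (0 : ℝ) < B := by exact_mod_cast hB1
    rw [Real.norm_of_nonneg (by positivity : (0 : ℝ) ≤ (B : ℝ) ^ a4)] at hB
    have h1 := le_trans (le_abs_self _) hB
    rw [one_div, inv_mul_eq_div, le_div_iff₀ (by positivity)] at h1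
    linarith
  have hev4 : ∀ᶠ B : ℕ in atTop, C * (B : ℝ) ^ (κ + 2 * a4) ≤ η / 2 * (B : ℝ) ^ (T : ℝ) := by
    have h1 : Tendsto (fun B : ℕ => (B : ℝ) ^ ((T : ℝ) - κ - 2 * a4)) atTop atTop :=
      (tendsto_rpow_atTop (by rw [ha4]; linarith)).comp tendsto_natCast_atTop_atTop
    filter_upwards [h1.eventually (eventually_ge_atTop (C / (η / 2))), eventually_ge_atTop 1]
      with B hB hB1
    have hB0 : (0 : ℝ) < B := by exact_mod_cast hB1
    rw [div_le_iff₀ (by positivity)] at hB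
    have h2 : (B : ℝ) ^ (T : ℝ) = (B : ℝ) ^ ((T : ℝ) - κ - 2 * a4) * (B : ℝ) ^ (κ + 2 * a4) := by
      rw [← Real.rpow_add hB0]
      congr 1
      ring
    rw [h2]
    calc C * (B : ℝ) ^ (κ + 2 * a4)
        ≤ ((B : ℝ) ^ ((T : ℝ) - κ - 2 * a4) * (η / 2)) * (B : ℝ) ^ (κ + 2 * a4) :=
          mul_le_mul_of_nonneg_right hB (by positivity)
      _ = _ := by ring
  obtain ⟨B₀, hB₀⟩ := eventually_atTop.1
    (hev1.and (hev2.and (hev3.and (hev4.and (eventually_ge_atTop 1)))))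
  refine ⟨B₀, fun B hB t => ?_⟩
  obtain ⟨hb1, hb2, hb3, hb4, hB1⟩ := hB₀ B hB
  have hBR : (1 : ℝ) ≤ B := by exact_mod_cast hB1
  have hB0 : (0 : ℝ) < B := by linarith
  have hL8 : 8 * c ≤ Real.log B := (le_max_left _ _).trans hb1
  have hL1 : 1 ≤ Real.log B := (le_max_right _ _).trans hb1
  set J : ℕ := Nat.log 2 ⌊(B : ℝ) ^ κ⌋₊ with hJ
  have hfl1 : 1 ≤ ⌊(B : ℝ) ^ κ⌋₊ :=
    Nat.le_floor (by rw [Nat.cast_one]; exact Real.one_le_rpow hBR hκ0)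
  have h2J : (2 : ℝ) ^ J ≤ (B : ℝ) ^ κ := by
    have h1 : 2 ^ J ≤ ⌊(B : ℝ) ^ κ⌋₊ := Nat.pow_log_le_self 2 (by omega)
    calc (2 : ℝ) ^ J = ((2 ^ J : ℕ) : ℝ) := by push_cast; rfl
      _ ≤ (⌊(B : ℝ) ^ κ⌋₊ : ℝ) := by exact_mod_cast h1
      _ ≤ (B : ℝ) ^ κ := Nat.floor_le (by positivity)
  have hJL : (J : ℝ) + 1 ≤ (κ / Real.log 2 + 1) * Real.log B := by
    have h1 : (J : ℝ) * Real.log 2 ≤ κ * Real.log B := by
      rw [← Real.log_pow, ← Real.log_rpow hB0]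
      exact Real.log_le_log (by positivity) h2J
    have h2 : (J : ℝ) ≤ κ * Real.log B / Real.log 2 := by
      rw [le_div_iff₀ hlog2]; exact h1
    have h3 : κ * Real.log B / Real.log 2 = κ / Real.log 2 * Real.log B := by ring
    rw [add_mul, ← h3]
    linarith
  -- the sizes
  set X : ℕ → ℝ := fun j => (2 : ℝ) ^ j * Real.log B / (8 * c) with hX
  set H : ℕ → ℕ := fun j => ⌊X j⌋₊ with hH
  have hX1 : ∀ j, 1 ≤ X j := by
    intro j
    simp only [hX]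
    rw [le_div_iff₀ (by positivity)]
    have h1 : (1 : ℝ) ≤ (2 : ℝ) ^ j := one_le_pow₀ (by norm_num)
    nlinarith
  have hH1 : ∀ j, 1 ≤ H j := fun j => Nat.le_floor (by rw [Nat.cast_one]; exact hX1 j)
  have hHX : ∀ j, (H j : ℝ) ≤ X j ∧ X j / 2 ≤ H j := by
    intro j
    have h1 := hX1 j
    refine ⟨Nat.floor_le (by linarith), ?_⟩
    have h2 := Nat.lt_floor_add_one (X j)
    have h3 : (1 : ℝ) ≤ H j := by exact_mod_cast hH1 j
    change X j < (H j : ℝ) + 1 at h2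
    linarith
  -- the covering by the blocks
  set S : ℕ → Finset (ℕ × (Fin T → ℕ)) := fun j =>
    ((Ico (2 ^ j) (2 * 2 ^ j)) ×ˢ (Fintype.piFinset fun _ : Fin T => range B)).filter
      fun z => nd (z.1 * ∑ i, (z.2 i : ℝ) * ξ i + z.1 * t) ≤ 1 / (8 * H j) with hS
  have hcover : ((box T B).filter fun a => ∃ (p : ℤ) (q : ℕ),
      1 ≤ q ∧ (q : ℝ) ≤ (B : ℝ) ^ κ ∧ |t + ∑ i, (a i : ℝ) * ξ i - (p : ℝ) / q| ≤
        c / ((q : ℝ) ^ 2 * Real.log B)) ⊆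
      (range (J + 1)).biUnion fun j => (S j).image Prod.snd := by
    intro a ha
    rw [mem_filter] at ha
    obtain ⟨haB, p, q, hq1, hqκ, hle⟩ := ha
    have hq0 : (0 : ℝ) < q := by exact_mod_cast hq1
    set j : ℕ := Nat.log 2 q with hj
    have hjq : 2 ^ j ≤ q := Nat.pow_log_le_self 2 (by omega)
    have hqj : q < 2 * 2 ^ j := by
      have := Nat.lt_pow_succ_log_self (b := 2) (by norm_num) q
      rw [← hj, Nat.pow_succ] at this
      omega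
    rw [mem_biUnion]
    refine ⟨j, ?_, ?_⟩
    · rw [mem_range, Nat.lt_succ_iff]
      exact Nat.log_mono_right (Nat.le_floor hqκ)
    · rw [mem_image]
      refine ⟨(q, a), ?_, rfl⟩
      simp only [hS]
      rw [mem_filter, mem_product, mem_Ico]
      refine ⟨⟨⟨hjq, hqj⟩, haB⟩, ?_⟩
      have h1 : nd ((q : ℝ) * ∑ i, (a i : ℝ) * ξ i + q * t) ≤ c / (q * Real.log B) := by
        refine (nd_le _ p).trans ?_
        have h2 : (q : ℝ) * ∑ i, (a i : ℝ) * ξ i + q * t - p =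
            q * (t + ∑ i, (a i : ℝ) * ξ i - (p : ℝ) / q) := by
          field_simp
          ring
        rw [h2, abs_mul, abs_of_pos hq0]
        calc (q : ℝ) * |t + ∑ i, (a i : ℝ) * ξ i - (p : ℝ) / q|
            ≤ q * (c / ((q : ℝ) ^ 2 * Real.log B)) :=
              mul_le_mul_of_nonneg_left hle hq0.le
          _ = c / (q * Real.log B) := by field_simp
      refine h1.trans ?_
      have hHp : (0 : ℝ) < H j := by exact_mod_cast hH1 j
      have h3 : c / (q * Real.log B) ≤ c / ((2 : ℝ) ^ j * Real.log B) := by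
        apply div_le_div_of_nonneg_left hc0.le (by positivity)
        exact mul_le_mul_of_nonneg_right (by exact_mod_cast hjq) (by linarith)
      refine h3.trans ?_
      have h4 : c / ((2 : ℝ) ^ j * Real.log B) = 1 / (8 * X j) := by
        simp only [hX]
        field_simp
      rw [h4]
      apply div_le_div_of_nonneg_left zero_le_one (by positivity)
      have := (hHX j).1
      linarith
  have hcard : (((box T B).filter fun a => ∃ (p : ℤ) (q : ℕ),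
      1 ≤ q ∧ (q : ℝ) ≤ (B : ℝ) ^ κ ∧ |t + ∑ i, (a i : ℝ) * ξ i - (p : ℝ) / q| ≤
        c / ((q : ℝ) ^ 2 * Real.log B)).card : ℝ) ≤ ∑ j ∈ range (J + 1), ((S j).card : ℝ) := by
    refine (Nat.cast_le.2 ((card_le_card hcover).trans card_biUnion_le)).trans ?_
    rw [Nat.cast_sum]
    exact Finset.sum_le_sum fun j _ => Nat.cast_le.2 card_image_le
  refine hcard.trans ?_
  have hterm : ∀ j ∈ range (J + 1), ((S j).card : ℝ) ≤
      64 * c / Real.log B * (B : ℝ) ^ T + C * (B : ℝ) ^ (κ + a4) := by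
    intro j hj
    rw [mem_range, Nat.lt_succ_iff] at hj
    have h1 := hblock B (2 ^ j) (H j) hB1 (Nat.one_le_two_pow) (hH1 j) (fun q => q * t)
    have h2 : ((S j).card : ℝ) ≤ 4 * ((B : ℝ) ^ T * ((2 ^ j : ℕ) : ℝ) / H j) +
        C * ((2 ^ j : ℕ) : ℝ) * (((2 ^ j : ℕ) : ℝ) * H j) ^ ε1 * (B : ℝ) ^ ((T + 1) * ε1) := h1
    refine h2.trans ?_
    have hHp : (0 : ℝ) < H j := by exact_mod_cast hH1 j
    have h2j : (0 : ℝ) < (2 : ℝ) ^ j := by positivity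
    have h2jB : (2 : ℝ) ^ j ≤ (B : ℝ) ^ κ :=
      (pow_le_pow_right₀ (by norm_num) hj).trans h2J
    push_cast
    apply add_le_add
    · have h3 : (2 : ℝ) ^ j / H j ≤ 16 * c / Real.log B := by
        rw [div_le_div_iff₀ hHp (by linarith)]
        have h4 := (hHX j).2
        simp only [hX] at h4
        rw [div_div, div_le_iff₀ (by positivity)] at h4
        linarith
      calc 4 * ((B : ℝ) ^ T * (2 : ℝ) ^ j / H j) = 4 * (B : ℝ) ^ T * ((2 : ℝ) ^ j / H j) := by ring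
        _ ≤ 4 * (B : ℝ) ^ T * (16 * c / Real.log B) :=
            mul_le_mul_of_nonneg_left h3 (by positivity)
        _ = _ := by ring
    · have h5 : (2 : ℝ) ^ j * H j ≤ (B : ℝ) ^ (2 * κ + 1) := by
        have h6 : (H j : ℝ) ≤ (B : ℝ) ^ κ * B := by
          refine (hHX j).1.trans ?_
          simp only [hX]
          rw [div_le_iff₀ (by positivity)]
          calc (2 : ℝ) ^ j * Real.log B ≤ (B : ℝ) ^ κ * ((8 * c) * B) :=
                mul_le_mul h2jB hb2 (by linarith) (by positivity)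
            _ = _ := by ring
        calc (2 : ℝ) ^ j * H j ≤ (B : ℝ) ^ κ * ((B : ℝ) ^ κ * B) :=
              mul_le_mul h2jB h6 hHp.le (by positivity)
          _ = (B : ℝ) ^ (2 * κ + 1) := by
              rw [show 2 * κ + 1 = κ + (κ + 1) by ring, Real.rpow_add hB0, Real.rpow_add hB0,
                Real.rpow_one]
      have h7 : ((2 : ℝ) ^ j * H j) ^ ε1 ≤ (B : ℝ) ^ ((2 * κ + 1) * ε1) := by
        rw [Real.rpow_mul hB0.le]
        exact Real.rpow_le_rpow (by positivity) h5 hε10.le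
      calc C * (2 : ℝ) ^ j * ((2 : ℝ) ^ j * H j) ^ ε1 * (B : ℝ) ^ ((T + 1) * ε1)
          ≤ C * (B : ℝ) ^ κ * (B : ℝ) ^ ((2 * κ + 1) * ε1) * (B : ℝ) ^ ((T + 1) * ε1) := by
            gcongr
        _ = C * (B : ℝ) ^ (κ + (2 * κ + 1) * ε1 + (T + 1) * ε1) := by
            rw [Real.rpow_add hB0, Real.rpow_add hB0]; ring
        _ ≤ C * (B : ℝ) ^ (κ + a4) := by
            apply mul_le_mul_of_nonneg_left _ hC.le
            apply Real.rpow_le_rpow_of_exponent_le hBR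
            linarith
  refine (Finset.sum_le_sum hterm).trans ?_
  rw [Finset.sum_const, card_range, nsmul_eq_mul]
  push_cast
  have hBT : (0 : ℝ) ≤ (B : ℝ) ^ T := by positivity
  have f1 : ((J : ℝ) + 1) * (64 * c / Real.log B * (B : ℝ) ^ T) ≤ η / 2 * (B : ℝ) ^ T := by
    calc ((J : ℝ) + 1) * (64 * c / Real.log B * (B : ℝ) ^ T)
        ≤ ((κ / Real.log 2 + 1) * Real.log B) * (64 * c / Real.log B * (B : ℝ) ^ T) :=
          mul_le_mul_of_nonneg_right hJL (by positivity)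
      _ = (κ / Real.log 2 + 1) * 64 * c * (B : ℝ) ^ T := by field_simp
      _ = η / 2 * (B : ℝ) ^ T := by
          rw [hc]
          field_simp
          ring
  have f2 : ((J : ℝ) + 1) * (C * (B : ℝ) ^ (κ + a4)) ≤ η / 2 * (B : ℝ) ^ T := by
    rw [← Real.rpow_natCast (B : ℝ) T]
    refine le_trans ?_ hb4
    calc ((J : ℝ) + 1) * (C * (B : ℝ) ^ (κ + a4)) ≤ (B : ℝ) ^ a4 * (C * (B : ℝ) ^ (κ + a4)) :=
          mul_le_mul_of_nonneg_right (hJL.trans hb3) (by positivity)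
      _ = C * ((B : ℝ) ^ (κ + a4) * (B : ℝ) ^ a4) := by ring
      _ = C * (B : ℝ) ^ (κ + 2 * a4) := by
          rw [← Real.rpow_add hB0]
          congr 2
          ring
  linarith

end Pool.Agent.X1.SchP
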