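import Mathlib
import Pool.Agent.X1.NfaPow
import Pool.Agent.H429R2.Auto

/-!
# Periodic stretches in the digits of multiples of powers: a base with a common factor
-/

set_option autoImplicit false

namespace Pool.Agent.X1.NfaAlg

open Finset Pool.Agent.X3.NfaWords

set_option maxHeartbeats 1000000 in
/-- The digits of the multiples `u c ^ n` in base `a c`, where `a` and `c` are coprime: short
periodic stretches. -/
theorem pow2_noPerF {a c : ℕ} (ha : 2 ≤ a) (hc : 2 ≤ c) (hac : a.Coprime c) (η : ℝ) (hη : 0 < η) :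
    ∃ C : ℝ, ∀ u n N E : ℕ, 1 ≤ u → N ≤ n + 1 → (a * c) ^ (N - 1) ≤ u * c ^ n →
      u * c ^ n < (a * c) ^ N → Real.logb a u + η * N + C < E →
      NoPerF (fun i => u * c ^ n / (a * c) ^ i % (a * c)) N E := by
  obtain ⟨κ, hκ, hR⟩ := Pool.Agent.X2.RidMul.ridout_mul ha hc hac (η / 2) (by positivity)
  obtain ⟨q, hqe⟩ : ∃ q, q = a * c := ⟨_, rfl⟩
  refine ⟨|Real.logb q κ| + 1, fun u n N E hu hNn hN1 hN2 hE => ?_⟩
  rw [← hqe] at hN1 hN2 ⊢
  have haR : (2 : ℝ) ≤ a := by exact_mod_cast ha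
  have hcR : (2 : ℝ) ≤ c := by exact_mod_cast hc
  have haq : a ≤ q := by rw [hqe]; exact Nat.le_mul_of_pos_right _ (by omega)
  have hq : 2 ≤ q := by omega
  have hqR : (2 : ℝ) ≤ q := by exact_mod_cast hq
  have haqR : (a : ℝ) ≤ q := by exact_mod_cast haq
  have hqac : (q : ℝ) = a * c := by rw [hqe]; push_cast; ring
  have hq0 : (0 : ℝ) < q := by linarith
  have hq1 : (1 : ℝ) < q := by linarith
  have ha1 : (1 : ℝ) < a := by linarith
  have hc0 : (0 : ℝ) < c := by linarith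
  have huR : (1 : ℝ) ≤ u := by exact_mod_cast hu
  have hlu : 0 ≤ Real.logb a u := Real.logb_nonneg ha1 huR
  have hlu2 : Real.logb q u ≤ Real.logb a u := by
    unfold Real.logb
    have h1 : 0 < Real.log a := Real.log_pos ha1
    have h2 : Real.log a ≤ Real.log q := Real.log_le_log (by linarith) haqR
    have h3 : 0 ≤ Real.log u := Real.log_nonneg huR
    exact div_le_div_of_nonneg_left h3 h1 h2
  have hE1 : (1 : ℝ) < E := by
    have h1 : 0 ≤ η * (N : ℝ) := by positivity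
    have h2 := abs_nonneg (Real.logb q κ)
    linarith
  have hE1' : 1 < E := by exact_mod_cast hE1
  intro t s hs ht
  by_contra hcon
  push Not at hcon
  obtain ⟨l, hl⟩ : ∃ l, l = s + E - 1 := ⟨_, rfl⟩
  obtain ⟨m, hm⟩ : ∃ m, m = u * c ^ n := ⟨_, rfl⟩
  have hst := stretch_eq q m t s l (by
    intro i hi1 hi2
    have := hcon i hi1 (by omega)
    rw [hm]
    exact this)
  have hsm := stretch_small (show 1 ≤ q by omega) m t s
  have hbs : 2 ≤ q ^ s := by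
    calc 2 ≤ q := hq
      _ = q ^ 1 := (pow_one q).symm
      _ ≤ q ^ s := Nat.pow_le_pow_right (by omega) hs
  have hn0 : 1 ≤ (q ^ s - 1) * u := Nat.mul_pos (by omega) hu
  obtain ⟨ν, hν⟩ : ∃ ν, ν = t + l + s := ⟨_, rfl⟩
  rw [← hν] at hst
  have hNν : ν ≤ N - 1 := by omega
  have hνn : ν ≤ n := by omega
  obtain ⟨i, hi⟩ : ∃ i, i = n - ν := ⟨_, rfl⟩
  have hni : n = i + ν := by omega
  have hcast : ((q ^ s - 1 : ℕ) : ℝ) = (q : ℝ) ^ s - 1 := by
    push_cast [Nat.cast_sub (show 1 ≤ q ^ s by omega)]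
    ring
  have hlow : q ^ ν ≤ (q ^ s - 1) * u * c ^ n := by
    calc q ^ ν ≤ q ^ (N - 1) := Nat.pow_le_pow_right (by omega) hNν
      _ ≤ u * c ^ n := hN1
      _ ≤ (q ^ s - 1) * (u * c ^ n) := Nat.le_mul_of_pos_left _ (by omega)
      _ = _ := by ring
  have hlow2 : a ^ ν ≤ (q ^ s - 1) * u * c ^ i := by
    have h1 : a ^ ν * c ^ ν ≤ ((q ^ s - 1) * u * c ^ i) * c ^ ν := by
      rw [← mul_pow, ← hqe, mul_assoc _ (c ^ i), ← pow_add, ← hni]
      exact hlow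
    exact Nat.le_of_mul_le_mul_right h1 (by positivity)
  obtain ⟨Y, hY⟩ : ∃ Y : ℤ, Y = ((m / q ^ (t + l) : ℕ) : ℤ) - (m / q ^ ν : ℕ) := ⟨_, rfl⟩
  rw [← hY] at hst
  have hR1 := hR ((q ^ s - 1) * u) ν i Y hn0 (by exact_mod_cast hlow2) (by
      intro he
      have hdvd : a ^ ν ∣ (q ^ s - 1) * u * c ^ i := by
        have h1 : ((a ^ ν : ℕ) : ℤ) ∣ (((q ^ s - 1) * u * c ^ i : ℕ) : ℤ) := by
          push_cast at he ⊢
          rw [he]
          exact Dvd.intro_left _ rfl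
        exact Int.natCast_dvd_natCast.1 h1
      have hc1 : (a ^ ν).Coprime (c ^ i) := Nat.Coprime.pow _ _ hac
      have h2 := hc1.dvd_of_dvd_mul_right hdvd
      have hc2 : (a ^ ν).Coprime (q ^ s - 1) := by
        apply Nat.Coprime.pow_left
        have h3 : (q ^ s).Coprime (q ^ s - 1) := by
          have h4 : (q ^ s - 1 + 1).Coprime (q ^ s - 1) := by
            rw [Nat.coprime_self_add_left]
            exact Nat.coprime_one_left _
          rwa [Nat.sub_add_cancel (by omega)] at h4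
        refine Nat.Coprime.coprime_dvd_left ?_ h3
        exact dvd_trans (by rw [hqe]; exact Dvd.intro _ rfl) (dvd_pow_self q (by omega))
      have h3 := hc2.dvd_of_dvd_mul_left h2
      have h4 := Nat.le_of_dvd (by omega) h3
      have h5 : (a : ℝ) ^ ν ≤ u := by exact_mod_cast h4
      have h6 : (ν : ℝ) ≤ Real.logb a u := by
        rw [Real.le_logb_iff_rpow_le ha1 (by linarith), Real.rpow_natCast]
        exact h5
      have h7 : (E : ℝ) ≤ (ν : ℝ) := by exact_mod_cast (by omega : E ≤ ν)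
      have h8 : 0 ≤ η * (N : ℝ) := by positivity
      have h9 := abs_nonneg (Real.logb q κ)
      linarith)
  -- the remainder
  have hcν : (0 : ℝ) < (c : ℝ) ^ ν := by positivity
  have hrem : (c : ℝ) ^ ν * |(((q ^ s - 1) * u : ℕ) : ℝ) * (c : ℝ) ^ i - (Y : ℝ) * (a : ℝ) ^ ν| ≤
      (q : ℝ) ^ (t + s) := by
    have h1 : (c : ℝ) ^ ν * ((((q ^ s - 1) * u : ℕ) : ℝ) * (c : ℝ) ^ i - (Y : ℝ) * (a : ℝ) ^ ν) =
        (q : ℝ) ^ s * ((m % q ^ t : ℕ) : ℝ) - ((m % q ^ (t + s) : ℕ) : ℝ) := by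
      have h2 : ((q : ℝ) ^ s - 1) * m = (Y : ℝ) * (q : ℝ) ^ ν +
          ((q : ℝ) ^ s * ((m % q ^ t : ℕ) : ℝ) - ((m % q ^ (t + s) : ℕ) : ℝ)) := by
        exact_mod_cast congrArg (Int.cast : ℤ → ℝ) hst
      have h3 : (m : ℝ) = u * ((c : ℝ) ^ i * (c : ℝ) ^ ν) := by
        rw [hm, hni]
        push_cast
        rw [pow_add]
      rw [h3, hqac, mul_pow (a : ℝ) (c : ℝ) ν, ← hqac] at h2
      rw [Nat.cast_mul, hcast]
      linarith
    have h0 : (c : ℝ) ^ ν * |(((q ^ s - 1) * u : ℕ) : ℝ) * (c : ℝ) ^ i - (Y : ℝ) * (a : ℝ) ^ ν| =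
        |(c : ℝ) ^ ν *
          ((((q ^ s - 1) * u : ℕ) : ℝ) * (c : ℝ) ^ i - (Y : ℝ) * (a : ℝ) ^ ν)| := by
      rw [abs_mul, abs_of_pos hcν]
    rw [h0, h1]
    exact hsm
  -- the numbers
  have hmR : (u : ℝ) * (c : ℝ) ^ n ≤ (q : ℝ) ^ N := by exact_mod_cast hN2.le
  have hm0 : (0 : ℝ) < (u : ℝ) * (c : ℝ) ^ n := by positivity
  have hqs : (q : ℝ) ^ s - 1 ≤ (q : ℝ) ^ s := by linarith
  have hqs1 : (1 : ℝ) ≤ (q : ℝ) ^ s - 1 := by
    have : (2 : ℝ) ≤ (q : ℝ) ^ s := by exact_mod_cast hbs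
    linarith
  have hbase : (((q ^ s - 1) * u : ℕ) : ℝ) * (c : ℝ) ^ i ≤ (q : ℝ) ^ (s + N) := by
    have h0 : (((q ^ s - 1) * u : ℕ) : ℝ) * (c : ℝ) ^ i ≤
        (((q ^ s - 1) * u : ℕ) : ℝ) * (c : ℝ) ^ n :=
      mul_le_mul_of_nonneg_left (pow_le_pow_right₀ (by linarith) (by omega)) (Nat.cast_nonneg _)
    refine h0.trans ?_
    rw [Nat.cast_mul, hcast, pow_add, mul_assoc]
    exact mul_le_mul hqs hmR hm0.le (by positivity)
  have hbase0 : 0 ≤ (((q ^ s - 1) * u : ℕ) : ℝ) * (c : ℝ) ^ i := by positivity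
  have h1 : κ * (q : ℝ) ^ ν ≤
      ((q : ℝ) ^ s * u) * (((q : ℝ) ^ (s + N)) ^ (η / 2) * (q : ℝ) ^ (t + s)) := by
    have h0 : κ * (q : ℝ) ^ ν = (c : ℝ) ^ ν * (κ * (a : ℝ) ^ ν) := by
      rw [hqac, mul_pow]
      ring
    rw [h0]
    calc (c : ℝ) ^ ν * (κ * (a : ℝ) ^ ν) ≤ (c : ℝ) ^ ν * ((((q ^ s - 1) * u : ℕ) : ℝ) *
          (((((q ^ s - 1) * u : ℕ) : ℝ) * (c : ℝ) ^ i) ^ (η / 2) *
            |(((q ^ s - 1) * u : ℕ) : ℝ) * (c : ℝ) ^ i - (Y : ℝ) * (a : ℝ) ^ ν|)) :=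
          mul_le_mul_of_nonneg_left hR1 hcν.le
      _ = (((q ^ s - 1) * u : ℕ) : ℝ) *
          (((((q ^ s - 1) * u : ℕ) : ℝ) * (c : ℝ) ^ i) ^ (η / 2) *
            ((c : ℝ) ^ ν *
              |(((q ^ s - 1) * u : ℕ) : ℝ) * (c : ℝ) ^ i - (Y : ℝ) * (a : ℝ) ^ ν|)) := by
          ring
      _ ≤ _ := by
          apply mul_le_mul
          · rw [Nat.cast_mul, hcast]
            exact mul_le_mul_of_nonneg_right hqs (by linarith)
          · apply mul_le_mul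
            · exact Real.rpow_le_rpow hbase0 hbase (by positivity)
            · exact hrem
            · positivity
            · positivity
          · exact mul_nonneg (Real.rpow_nonneg hbase0 _) (by positivity)
          · positivity
  have h2 := Real.logb_le_logb_of_le hq1 (by positivity) h1
  rw [Real.logb_mul hκ.ne' (by positivity), Real.logb_mul (by positivity) (by positivity),
    Real.logb_mul (by positivity) (by positivity), Real.logb_mul (by positivity) (by positivity),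
    Real.logb_rpow_eq_mul_logb_of_pos (by positivity)] at h2
  have hlp : ∀ k : ℕ, Real.logb q ((q : ℝ) ^ k) = k := by
    intro k
    rw [← Real.rpow_natCast, Real.logb_rpow hq0 hq1.ne']
  rw [hlp, hlp, hlp, hlp] at h2
  have h3 := neg_abs_le (Real.logb q κ)
  have h4 : (l : ℝ) = s + E - 1 := by
    rw [hl, Nat.cast_sub (by omega)]
    push_cast
    ring
  have h5 : (s : ℝ) ≤ N := by exact_mod_cast (by omega : s ≤ N)
  have h6 : (ν : ℝ) = t + l + s := by rw [hν]; push_cast; ring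
  rw [h6, h4] at h2
  push_cast at h2
  have h7 : η / 2 * ((s : ℝ) + N) ≤ η * N := by
    have : η / 2 * (s : ℝ) ≤ η / 2 * N := mul_le_mul_of_nonneg_left h5 (by positivity)
    linarith
  linarith

open Pool.Agent.H429R2.Auto (Conf F Rep IsFin rep_iter exists_rep)

/-- the letters of the rows are digits -/
lemma row_letter {x : Conf} {m k : ℕ} (hrep : Rep x ((m : ℝ) / 6 ^ k)) (n : ℕ) (i : ℤ) (r : ℕ)
    (hi : i + r = n + k) : ((F^[n] x i : Fin 6) : ℕ) = m * 9 ^ n / 6 ^ r % 6 := by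
  have h1 := rep_iter (by positivity) hrep n i
  rw [h1]
  congr 1
  have h6 : (0 : ℝ) < (6 : ℝ) ^ r := by positivity
  have e : (6 : ℝ) ^ i * ((3 / 2) ^ n * ((m : ℝ) / 6 ^ k)) = ((m * 9 ^ n : ℕ) : ℝ) / ((6 ^ r : ℕ) : ℝ) := by
    have hi' : i = (n : ℤ) + k - r := by omega
    rw [hi', zpow_sub₀ (by norm_num), zpow_add₀ (by norm_num), zpow_natCast, zpow_natCast,
      zpow_natCast]
    push_cast
    have e1 : (6 : ℝ) ^ n * (3 / 2) ^ n = 9 ^ n := by rw [← mul_pow]; norm_num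
    have h6k : (6 : ℝ) ^ k ≠ 0 := by positivity
    field_simp
    rw [← e1]
    ring
  rw [e, Nat.floor_div_natCast, Nat.floor_natCast]

/-- the cells on the right are empty -/
lemma row_zero {x : Conf} {m k : ℕ} (hrep : Rep x ((m : ℝ) / 6 ^ k)) (n : ℕ) (i : ℤ)
    (hi : (n : ℤ) + k < i) : F^[n] x i = 0 := by
  have h1 := rep_iter (by positivity) hrep n i
  obtain ⟨r, hr⟩ : ∃ r : ℕ, i = n + k + (r + 1 : ℕ) := ⟨(i - n - k - 1).toNat, by omega⟩
  have e : (6 : ℝ) ^ i * ((3 / 2) ^ n * ((m : ℝ) / 6 ^ k)) = ((6 ^ (r + 1) * (m * 9 ^ n) : ℕ) : ℝ) := by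
    rw [hr, zpow_add₀ (by norm_num), zpow_add₀ (by norm_num), zpow_natCast, zpow_natCast,
      zpow_natCast]
    push_cast
    have e1 : (6 : ℝ) ^ n * (3 / 2) ^ n = 9 ^ n := by rw [← mul_pow]; norm_num
    have h6k : (6 : ℝ) ^ k ≠ 0 := by positivity
    field_simp
    rw [← e1]
    ring
  rw [e, Nat.floor_natCast] at h1
  apply Fin.ext
  rw [h1]
  have : 6 ^ (r + 1) * (m * 9 ^ n) = 6 * (6 ^ r * (m * 9 ^ n)) := by ring
  rw [this, Nat.mul_mod_right]
  rfl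

set_option maxHeartbeats 1000000 in
/-- the rows of the automaton: many accepted words -/
theorem row_words (x : Conf) (hfin : {i | x i ≠ 0}.Finite) (hx : ∃ i, x i ≠ 0) {ε δ : ℝ}
    (hε : 0 < ε) (hδ : 0 < δ) (K : ℕ) : ∃ n₀ : ℕ, ∀ n L : ℕ, ∀ A : ℤ, n₀ ≤ n → ε * n ≤ L →
      (∃ i ≤ A, F^[n] x i ≠ 0) → (∃ j, A + L ≤ j + 1 ∧ F^[n] x j ≠ 0) →
      ∀ (σ : Type) [Fintype σ] (M : NFA (Fin 6) σ), (Fintype.card σ : ℝ) ≤ (L : ℝ) ^ (1 - δ) →
      ∀ d : ℕ → Fin 6, ((range L).filter fun i => d i ≠ F^[n] x (A + i)).card ≤ K →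
      (List.range L).map d ∈ M.accepts →
      ∃ W : Finset (List (Fin 6)), (∀ w ∈ W, w.length = L ∧ w ∈ M.accepts) ∧ L ^ K ≤ W.card := by
  obtain ⟨m, k, hrep, hm, -⟩ := exists_rep (x := x) hfin
  have hm : 0 < m := hm (by
    rintro rfl
    obtain ⟨i, hi⟩ := hx
    exact hi rfl)
  obtain ⟨J, N₁, hJ, hmain⟩ := fin_main K hδ
  have hJR : (1 : ℝ) ≤ J := by exact_mod_cast hJ
  have hJ0 : (0 : ℝ) < J := by linarith
  obtain ⟨η, hη⟩ : ∃ η : ℝ, η = ε / (12 * J) := ⟨_, rfl⟩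
  have hη0 : 0 < η := by rw [hη]; positivity
  obtain ⟨C, hC⟩ := pow2_noPerF (a := 2) (c := 3) (by norm_num) (by norm_num) (by norm_num) η hη0
  obtain ⟨G, hG⟩ : ∃ G : ℝ, G = Real.logb 2 m + |C| + 1 + η := ⟨_, rfl⟩
  have hlm : 0 ≤ Real.logb 2 m := Real.logb_nonneg (by norm_num) (by exact_mod_cast hm)
  have hG0 : 0 < G := by rw [hG]; positivity
  obtain ⟨n₀, hn₀⟩ := exists_nat_gt ((N₁ + 2 * J * (G + 1)) / ε + m + 1)
  refine ⟨n₀, ?_⟩
  intro n L A hn hεL hleft hright σ _ M hq' d hd hacc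
  have hnR : (n₀ : ℝ) ≤ n := by exact_mod_cast hn
  have hmR : (0 : ℝ) < m := by exact_mod_cast hm
  have hpos1 : 0 ≤ ((N₁ : ℝ) + 2 * J * (G + 1)) / ε := by positivity
  have hnm : m < n := by
    have : (m : ℝ) < n := by linarith
    exact_mod_cast this
  have hbig : (N₁ : ℝ) + 2 * J * (G + 1) < L := by
    have h1 : ((N₁ : ℝ) + 2 * J * (G + 1)) / ε < n := by linarith
    rw [div_lt_iff₀ hε] at h1
    linarith
  have hN₁ : N₁ ≤ L := by
    have h1 : 0 ≤ 2 * (J : ℝ) * (G + 1) := by positivity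
    have h2 : (N₁ : ℝ) ≤ L := by linarith
    exact_mod_cast h2
  have hL1 : 1 ≤ L := by
    have h1 : 0 < 2 * (J : ℝ) * (G + 1) := by positivity
    have h2 : (0 : ℝ) ≤ N₁ := Nat.cast_nonneg _
    have h3 : (0 : ℝ) < L := by linarith
    have h4 : 0 < L := by exact_mod_cast h3
    omega
  -- the number of digits
  obtain ⟨V, hV⟩ : ∃ V, V = m * 9 ^ n := ⟨_, rfl⟩
  have hVpos : V ≠ 0 := by rw [hV]; positivity
  obtain ⟨N, hN⟩ : ∃ N, N = Nat.log 6 V + 1 := ⟨_, rfl⟩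
  have hN1 : 6 ^ (N - 1) ≤ V := by
    rw [hN, Nat.add_sub_cancel]
    exact Nat.pow_log_le_self 6 hVpos
  have hN2 : V < 6 ^ N := by
    rw [hN]
    exact Nat.lt_pow_succ_log_self (by norm_num) V
  have hNn : N ≤ 2 * n + 1 := by
    have h1 : V ≤ 6 ^ (2 * n) := by
      rw [hV]
      calc m * 9 ^ n ≤ 4 ^ n * 9 ^ n := by
            apply Nat.mul_le_mul_right
            exact hnm.le.trans (Nat.lt_pow_self (by norm_num)).le
        _ = 6 ^ (2 * n) := by rw [← mul_pow, pow_mul]; norm_num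
    have h2 : N - 1 ≤ 2 * n := (Nat.pow_le_pow_iff_right (by norm_num)).1 (hN1.trans h1)
    omega
  -- the window
  obtain ⟨i₀, hi₀, hi₀'⟩ := hleft
  obtain ⟨j₀, hj₀, hj₀'⟩ := hright
  have hjk : j₀ ≤ n + k := by
    by_contra hcon
    exact hj₀' (row_zero hrep n j₀ (by omega))
  obtain ⟨t, ht⟩ : ∃ t : ℕ, A + L - 1 + t = n + k := ⟨(n + k - (A + L - 1)).toNat, by omega⟩
  have htL : t + L ≤ N := by
    obtain ⟨r, hr⟩ : ∃ r : ℕ, i₀ + r = n + k := ⟨(n + k - i₀).toNat, by omega⟩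
    have h1 := row_letter hrep n i₀ r hr
    have h2 : V / 6 ^ r ≠ 0 := by
      intro h0
      rw [← hV, h0] at h1
      exact hi₀' (Fin.ext h1)
    have h3 : 6 ^ r ≤ V := by
      by_contra hcon
      exact h2 (Nat.div_eq_of_lt (by omega))
    have h4 : r < N := by
      have h5 : 6 ^ r < 6 ^ N := lt_of_le_of_lt h3 hN2
      exact (Nat.pow_lt_pow_iff_right (by norm_num)).1 h5
    omega
  obtain ⟨E, hE⟩ : ∃ E : ℕ, E = L / J := ⟨_, rfl⟩
  have hE1 : J * E ≤ L := by rw [hE]; exact Nat.mul_div_le L J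
  have hE2 : (L : ℝ) / J - 1 < E := by
    have h1 : L < J * (E + 1) := by rw [hE]; exact Nat.lt_mul_div_succ L (by omega)
    have h2 : (L : ℝ) < J * (E + 1) := by exact_mod_cast h1
    rw [sub_lt_iff_lt_add, div_lt_iff₀ hJ0]
    linarith
  have hηN : η * N ≤ (L : ℝ) / J / 2 + η := by
    have h1 : (N : ℝ) ≤ 2 * n + 1 := by exact_mod_cast hNn
    have h2 : η * N ≤ η * (2 * n + 1) := mul_le_mul_of_nonneg_left h1 hη0.le
    have h3 : η * (2 * n) = ε * n / J / 6 := by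
      rw [hη]
      field_simp
      ring
    have h4 : ε * n / J / 6 ≤ (L : ℝ) / J / 6 := by gcongr
    have h5 : 0 ≤ (L : ℝ) / J := by positivity
    linarith
  have hNP := hC m (2 * n) N E hm hNn (by
      have e : 3 ^ (2 * n) = 9 ^ n := by rw [pow_mul]; norm_num
      rw [e, ← hV]
      exact hN1) (by
      have e : 3 ^ (2 * n) = 9 ^ n := by rw [pow_mul]; norm_num
      rw [e, ← hV]
      exact hN2) (by
    have h2 : 2 * (G + 1) < (L : ℝ) / J := by
      rw [lt_div_iff₀ hJ0]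
      have : (0 : ℝ) ≤ N₁ := Nat.cast_nonneg _
      linarith
    have h3 := le_abs_self C
    push_cast
    linarith)
  have hz : NoPerF (fun i : ℕ => F^[n] x (A + i)) L E := by
    have h1 := (hNP.window htL).reverse
    intro t' s' hs' ht'
    obtain ⟨i, hi1, hi2, hi3⟩ := h1 t' s' hs' ht'
    refine ⟨i, hi1, hi2, fun he => hi3 ?_⟩
    have e : 3 ^ (2 * n) = 9 ^ n := by rw [pow_mul]; norm_num
    have h2 := row_letter hrep n (A + (i + s' : ℕ)) (t + (L - 1 - (i + s'))) (by push_cast; omega)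
    have h3 := row_letter hrep n (A + (i : ℕ)) (t + (L - 1 - i)) (by push_cast; omega)
    have h4 := congrArg Fin.val he
    simp only at h4
    rw [h2, h3] at h4
    simp only [e]
    exact h4
  exact hmain (Fin 6) σ (fun i : ℕ => F^[n] x (A + i)) d M L E hN₁ hE1 hz hq' hd hacc

end Pool.Agent.X1.NfaAlg
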