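import Mathlib
import Pool.Agent.X1.NfaRow

/-!
# Periodic stretches in the columns of the multiply-by-3/2 automaton
-/

set_option autoImplicit false

namespace Pool.Agent.X1.NfaAlg

open Finset Pool.Agent.X3.NfaWords

/-- the carry -/
noncomputable def carry (r : ℝ) (n : ℕ) : ℤ :=
  2 * ⌊r * (3 / 2 : ℝ) ^ (n + 1)⌋ - 3 * ⌊r * (3 / 2 : ℝ) ^ n⌋

lemma carry_range (r : ℝ) (n : ℕ) : -1 ≤ carry r n ∧ carry r n ≤ 2 := by
  have h1 := Int.floor_le (r * (3 / 2 : ℝ) ^ (n + 1))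
  have h2 := Int.lt_floor_add_one (r * (3 / 2 : ℝ) ^ (n + 1))
  have h3 := Int.floor_le (r * (3 / 2 : ℝ) ^ n)
  have h4 := Int.lt_floor_add_one (r * (3 / 2 : ℝ) ^ n)
  have e : r * (3 / 2 : ℝ) ^ (n + 1) = 3 / 2 * (r * (3 / 2 : ℝ) ^ n) := by rw [pow_succ]; ring
  rw [e] at h1 h2
  unfold carry
  rw [e]
  constructor
  · have : (-2 : ℝ) < ((2 * ⌊3 / 2 * (r * (3 / 2 : ℝ) ^ n)⌋ - 3 * ⌊r * (3 / 2 : ℝ) ^ n⌋ : ℤ) : ℝ) := by
      push_cast
      linarith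
    have h5 : (-2 : ℤ) < 2 * ⌊3 / 2 * (r * (3 / 2 : ℝ) ^ n)⌋ - 3 * ⌊r * (3 / 2 : ℝ) ^ n⌋ := by
      exact_mod_cast this
    omega
  · have : ((2 * ⌊3 / 2 * (r * (3 / 2 : ℝ) ^ n)⌋ - 3 * ⌊r * (3 / 2 : ℝ) ^ n⌋ : ℤ) : ℝ) < 3 := by
      push_cast
      linarith
    have h5 : 2 * ⌊3 / 2 * (r * (3 / 2 : ℝ) ^ n)⌋ - 3 * ⌊r * (3 / 2 : ℝ) ^ n⌋ < (3 : ℤ) := by
      exact_mod_cast this
    omega

/-- the fractional parts at two times which agree along `l + 1` steps -/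
lemma col_agree (r : ℝ) (N s l : ℕ)
    (h : ∀ i, N ≤ i → i ≤ N + l → ⌊r * (3 / 2 : ℝ) ^ (i + s)⌋ % 6 = ⌊r * (3 / 2 : ℝ) ^ i⌋ % 6) :
    ((3 : ℝ) / 2) ^ l * ((r * (3 / 2 : ℝ) ^ (N + s) - ⌊r * (3 / 2 : ℝ) ^ (N + s)⌋) -
      (r * (3 / 2 : ℝ) ^ N - ⌊r * (3 / 2 : ℝ) ^ N⌋)) =
      (r * (3 / 2 : ℝ) ^ (N + l + s) - ⌊r * (3 / 2 : ℝ) ^ (N + l + s)⌋) -
      (r * (3 / 2 : ℝ) ^ (N + l) - ⌊r * (3 / 2 : ℝ) ^ (N + l)⌋) := by
  induction l with
  | zero => simp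
  | succ l ih =>
    have ih' := ih (fun i hi1 hi2 => h i hi1 (by omega))
    have h1 := h (N + l) (by omega) (by omega)
    have h2 := h (N + l + 1) (by omega) (by omega)
    have e0 : N + l + 1 + s = (N + l + s) + 1 := by ring
    rw [e0] at h2
    have hc : carry r (N + l + s) = carry r (N + l) := by
      have r1 := carry_range r (N + l + s)
      have r2 := carry_range r (N + l)
      unfold carry at r1 r2 ⊢
      omega
    have hcR : (2 * (⌊r * (3 / 2 : ℝ) ^ (N + l + s + 1)⌋ : ℝ) -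
        3 * (⌊r * (3 / 2 : ℝ) ^ (N + l + s)⌋ : ℝ)) =
        2 * (⌊r * (3 / 2 : ℝ) ^ (N + l + 1)⌋ : ℝ) - 3 * (⌊r * (3 / 2 : ℝ) ^ (N + l)⌋ : ℝ) := by
      unfold carry at hc
      exact_mod_cast hc
    have e1 : N + (l + 1) + s = (N + l + s) + 1 := by ring
    have e2 : N + (l + 1) = (N + l) + 1 := by ring
    rw [e1, e2, pow_succ ((3 : ℝ) / 2) l, mul_comm (((3 : ℝ) / 2) ^ l) (3 / 2), mul_assoc, ih']
    have p1 : r * (3 / 2 : ℝ) ^ (N + l + s + 1) = 3 / 2 * (r * (3 / 2 : ℝ) ^ (N + l + s)) := by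
      rw [pow_succ]; ring
    have p2 : r * (3 / 2 : ℝ) ^ (N + l + 1) = 3 / 2 * (r * (3 / 2 : ℝ) ^ (N + l)) := by
      rw [pow_succ]; ring
    linarith

set_option maxHeartbeats 1000000 in
/-- the integer parts of `r (3/2)^n` modulo six, for rational `r > 0` -/
theorem floor_noPer (a B : ℕ) (ha : 1 ≤ a) (hB : 1 ≤ B) (ε : ℝ) (hε : 0 < ε) : ∃ N₀ : ℕ,
    ∀ (α : Type) (z : ℕ → α), (∀ i i' : ℕ, z i = z i' →
      ⌊(a : ℝ) / B * (3 / 2 : ℝ) ^ i⌋ % 6 = ⌊(a : ℝ) / B * (3 / 2 : ℝ) ^ i'⌋ % 6) →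
      NoPer2 z (1 + ε) 5 N₀ := by
  obtain ⟨η, hη⟩ : ∃ η : ℝ, η = min ε 1 / 28 := ⟨_, rfl⟩
  have hη0 : 0 < η := by rw [hη]; positivity
  have hη1 : 28 * η ≤ ε := by rw [hη]; linarith [min_le_left ε 1]
  have hη2 : 28 * η ≤ 1 := by rw [hη]; linarith [min_le_right ε 1]
  obtain ⟨κ, hκ, hR⟩ := Pool.Agent.X2.RidMul.ridout_mul (b := 2) (c := 3) (by norm_num)
    (by norm_num) (by norm_num) η hη0
  have hl0 : 0 < Real.log (3 / 2) := Real.log_pos (by norm_num)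
  have hl3 : 5 * Real.log 3 ≤ 14 * Real.log (3 / 2) := by
    have h1 : Real.log ((3 : ℝ) ^ 5) ≤ Real.log ((3 / 2 : ℝ) ^ 14) :=
      Real.log_le_log (by norm_num) (by norm_num)
    rw [Real.log_pow, Real.log_pow] at h1
    push_cast at h1
    exact h1
  have haR : (1 : ℝ) ≤ a := by exact_mod_cast ha
  obtain ⟨G, hG⟩ : ∃ G : ℝ, G = (|Real.log κ| + 2 * Real.log a + Real.log B) /
    Real.log (3 / 2) + 1 := ⟨_, rfl⟩
  have hla : 0 ≤ Real.log a := Real.log_nonneg haR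
  have hBR : (1 : ℝ) ≤ B := by exact_mod_cast hB
  have hB0 : (0 : ℝ) < B := by linarith
  have hl6 : 0 ≤ Real.log B := Real.log_nonneg hBR
  have hG0 : 0 < G := by rw [hG]; positivity
  obtain ⟨N₀, hN₀⟩ := exists_nat_gt (2 * (G + 2) / ε + a + 2)
  refine ⟨N₀, fun α z hz N hN s hs => ?_⟩
  have hNR : (N₀ : ℝ) ≤ N := by exact_mod_cast hN
  have hsR : (1 : ℝ) ≤ s := by exact_mod_cast hs
  have hp1 : 0 ≤ 2 * (G + 2) / ε := by positivity
  have hNa : a + 2 < N := by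
    have : (a : ℝ) + 2 < N := by linarith
    exact_mod_cast this
  have hbig : 2 * (G + 2) < ε * N := by
    have h1 : 2 * (G + 2) / ε < N := by linarith
    rw [div_lt_iff₀ hε] at h1
    linarith
  obtain ⟨l, hl⟩ : ∃ l, l = ⌈ε / 10 * N + 29 / 10 * s + G⌉₊ := ⟨_, rfl⟩
  have hl1 : ε / 10 * N + 29 / 10 * s + G ≤ l := by rw [hl]; exact Nat.le_ceil _
  have hl2 : (l : ℝ) < ε / 10 * N + 29 / 10 * s + G + 1 := by
    rw [hl]; exact Nat.ceil_lt_add_one (by positivity)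
  by_contra hcon
  push Not at hcon
  obtain ⟨r, hr⟩ : ∃ r : ℝ, r = (a : ℝ) / B := ⟨_, rfl⟩
  rw [← hr] at hz
  have hag := col_agree r N s l (by
    intro i hi1 hi2
    refine hz _ _ (hcon i hi1 ?_)
    have h2 : (i : ℝ) ≤ ((N + l : ℕ) : ℝ) := by exact_mod_cast hi2
    push_cast at h2 ⊢
    nlinarith)
  obtain ⟨θ, hθ⟩ : ∃ θ : ℝ, θ = (r * (3 / 2 : ℝ) ^ (N + s) - ⌊r * (3 / 2 : ℝ) ^ (N + s)⌋) -
      (r * (3 / 2 : ℝ) ^ N - ⌊r * (3 / 2 : ℝ) ^ N⌋) := ⟨_, rfl⟩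
  rw [← hθ] at hag
  have hθ1 : ((3 : ℝ) / 2) ^ l * |θ| ≤ 1 := by
    have h0 : (0 : ℝ) < (3 / 2 : ℝ) ^ l := by positivity
    have e : ((3 : ℝ) / 2) ^ l * |θ| = |((3 : ℝ) / 2) ^ l * θ| := by rw [abs_mul, abs_of_pos h0]
    rw [e, hag]
    have b1 := Int.floor_le (r * (3 / 2 : ℝ) ^ (N + l + s))
    have b2 := Int.lt_floor_add_one (r * (3 / 2 : ℝ) ^ (N + l + s))
    have b3 := Int.floor_le (r * (3 / 2 : ℝ) ^ (N + l))
    have b4 := Int.lt_floor_add_one (r * (3 / 2 : ℝ) ^ (N + l))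
    rw [abs_le]
    constructor <;> linarith
  -- Ridout's theorem
  have h23 : 2 ^ s ≤ 3 ^ s := Nat.pow_le_pow_left (by norm_num) s
  have h23' : 2 ^ (s - 1) ≤ 3 ^ s - 2 ^ s := by
    obtain ⟨s', rfl⟩ : ∃ s', s = s' + 1 := ⟨s - 1, by omega⟩
    have h1 : 2 ^ s' ≤ 3 ^ s' := Nat.pow_le_pow_left (by norm_num) s'
    have h2 : 3 ^ (s' + 1) = 3 * 3 ^ s' := by ring
    have h3 : 2 ^ (s' + 1) = 2 * 2 ^ s' := by ring
    rw [Nat.add_sub_cancel]
    omega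
  have hpos2 : 0 < 2 ^ (s - 1) := by positivity
  obtain ⟨n0, hn0⟩ : ∃ n0, n0 = a * (3 ^ s - 2 ^ s) := ⟨_, rfl⟩
  have hn01 : 1 ≤ n0 := by rw [hn0]; exact Nat.mul_pos (by omega) (by omega)
  obtain ⟨Y, hY⟩ : ∃ Y : ℤ, Y = B * (⌊r * (3 / 2 : ℝ) ^ (N + s)⌋ - ⌊r * (3 / 2 : ℝ) ^ N⌋) :=
    ⟨_, rfl⟩
  have hcast : ((3 ^ s - 2 ^ s : ℕ) : ℝ) = (3 : ℝ) ^ s - 2 ^ s := by
    push_cast [Nat.cast_sub h23]
    ring
  have hlow : 2 ^ (N + s) ≤ n0 * 3 ^ N := by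
    have h1 : 2 * 2 ^ N ≤ 3 ^ N := by
      obtain ⟨N', rfl⟩ : ∃ N', N = N' + 2 := ⟨N - 2, by omega⟩
      have h2 : 2 ^ N' ≤ 3 ^ N' := Nat.pow_le_pow_left (by norm_num) N'
      have h3 : 2 ^ (N' + 2) = 4 * 2 ^ N' := by ring
      have h4 : 3 ^ (N' + 2) = 9 * 3 ^ N' := by ring
      omega
    calc 2 ^ (N + s) = 2 ^ (s - 1) * (2 * 2 ^ N) := by
          have e : N + s = (s - 1) + (N + 1) := by omega
          rw [e, pow_add, pow_succ]
          ring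
      _ ≤ (3 ^ s - 2 ^ s) * 3 ^ N := Nat.mul_le_mul h23' h1
      _ ≤ n0 * 3 ^ N := by
          apply Nat.mul_le_mul_right
          rw [hn0]
          exact Nat.le_mul_of_pos_left _ (by omega)
  have hR1 := hR n0 (N + s) N Y hn01 (by exact_mod_cast hlow) (by
    intro he
    have hdvd : 2 ^ (N + s) ∣ a * (3 ^ s - 2 ^ s) * 3 ^ N := by
      have h1 : ((2 ^ (N + s) : ℕ) : ℤ) ∣ ((n0 * 3 ^ N : ℕ) : ℤ) := by
        push_cast at he ⊢
        rw [he]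
        exact Dvd.intro_left _ rfl
      rw [← hn0]
      exact Int.natCast_dvd_natCast.1 h1
    have hc1 : (2 ^ (N + s)).Coprime (3 ^ N) := Nat.Coprime.pow _ _ (by norm_num)
    have h2 := hc1.dvd_of_dvd_mul_right hdvd
    have hodd : (2 ^ (N + s)).Coprime (3 ^ s - 2 ^ s) := by
      apply Nat.Coprime.pow_left
      rw [Nat.coprime_two_left]
      apply Nat.Odd.sub_even h23
      · exact Odd.pow (by decide)
      · exact (Nat.even_pow.2 ⟨even_two, by omega⟩)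
    have h3 := hodd.dvd_of_dvd_mul_right h2
    have h4 := Nat.le_of_dvd (by omega) h3
    have h5 : N + s < 2 ^ (N + s) := Nat.lt_pow_self (by norm_num)
    omega)
  have hrem : |(n0 : ℝ) * (3 : ℝ) ^ N - (Y : ℝ) * (2 : ℝ) ^ (N + s)| =
      B * 2 ^ (N + s) * |θ| := by
    have h1 : (n0 : ℝ) * (3 : ℝ) ^ N - (Y : ℝ) * (2 : ℝ) ^ (N + s) =
        B * 2 ^ (N + s) * θ := by
      rw [hn0, hY, hθ, Nat.cast_mul, hcast]
      push_cast
      have e1 : (2 : ℝ) ^ (N + s) * (3 / 2 : ℝ) ^ (N + s) = 3 ^ N * 3 ^ s := by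
        rw [← mul_pow, ← pow_add]; norm_num
      have e2 : (2 : ℝ) ^ (N + s) * (3 / 2 : ℝ) ^ N = 3 ^ N * 2 ^ s := by
        rw [pow_add, mul_right_comm, ← mul_pow]; norm_num
      have e3 : (B : ℝ) * r = a := by
        rw [hr]
        field_simp
      have e4 : (B : ℝ) * 2 ^ (N + s) * (r * (3 / 2 : ℝ) ^ (N + s)) = a * (3 ^ N * 3 ^ s) := by
        calc _ = ((B : ℝ) * r) * (2 ^ (N + s) * (3 / 2 : ℝ) ^ (N + s)) := by ring
          _ = _ := by rw [e1, e3]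
      have e5 : (B : ℝ) * 2 ^ (N + s) * (r * (3 / 2 : ℝ) ^ N) = a * (3 ^ N * 2 ^ s) := by
        calc _ = ((B : ℝ) * r) * (2 ^ (N + s) * (3 / 2 : ℝ) ^ N) := by ring
          _ = _ := by rw [e2, e3]
      linear_combination e5 - e4
    rw [h1, abs_mul, abs_of_pos (by positivity)]
  push_cast at hR1
  rw [hrem] at hR1
  -- the numbers
  have hn0R : (n0 : ℝ) ≤ a * 3 ^ s := by
    rw [hn0, Nat.cast_mul, hcast]
    have : (0 : ℝ) < 2 ^ s := by positivity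
    exact mul_le_mul_of_nonneg_left (by linarith) (by linarith)
  have hn0R0 : (0 : ℝ) < n0 := by exact_mod_cast hn01
  have h1 : κ * ((3 : ℝ) / 2) ^ l ≤ (a * 3 ^ s) * ((a * 3 ^ s * 3 ^ N) ^ η * B) := by
    have h2 : κ * 2 ^ (N + s) ≤ (a * 3 ^ s) * ((a * 3 ^ s * 3 ^ N) ^ η *
        (B * 2 ^ (N + s) * |θ|)) := by
      refine hR1.trans ?_
      apply mul_le_mul hn0R
      · apply mul_le_mul_of_nonneg_right
        · exact Real.rpow_le_rpow (by positivity)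
            (mul_le_mul_of_nonneg_right hn0R (by positivity)) hη0.le
        · positivity
      · positivity
      · positivity
    have h3 : κ ≤ (a * 3 ^ s) * ((a * 3 ^ s * 3 ^ N) ^ η * (B * |θ|)) := by
      have h4 : κ * 2 ^ (N + s) ≤ ((a * 3 ^ s) * ((a * 3 ^ s * 3 ^ N) ^ η * (B * |θ|))) *
          2 ^ (N + s) := by
        calc _ ≤ _ := h2
          _ = _ := by ring
      exact le_of_mul_le_mul_right h4 (by positivity)
    calc κ * ((3 : ℝ) / 2) ^ l ≤ ((a * 3 ^ s) * ((a * 3 ^ s * 3 ^ N) ^ η * (B * |θ|))) *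
          ((3 : ℝ) / 2) ^ l := mul_le_mul_of_nonneg_right h3 (by positivity)
      _ = ((a * 3 ^ s) * ((a * 3 ^ s * 3 ^ N) ^ η * B)) * (((3 : ℝ) / 2) ^ l * |θ|) := by ring
      _ ≤ ((a * 3 ^ s) * ((a * 3 ^ s * 3 ^ N) ^ η * B)) * 1 :=
          mul_le_mul_of_nonneg_left hθ1 (by positivity)
      _ = _ := mul_one _
  have h2 := Real.log_le_log (by positivity) h1
  have ha0 : (0 : ℝ) < a := by linarith
  rw [Real.log_mul hκ.ne' (by positivity), Real.log_mul (by positivity) (by positivity),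
    Real.log_mul (by positivity) (by positivity), Real.log_mul (by positivity) (by positivity),
    Real.log_rpow (by positivity), Real.log_mul (by positivity) (by positivity),
    Real.log_mul (by positivity) (by positivity), Real.log_pow, Real.log_pow, Real.log_pow] at h2
  have h3 := neg_abs_le (Real.log κ)
  obtain ⟨lam, hlam⟩ : ∃ lam : ℝ, lam = Real.log (3 / 2) := ⟨_, rfl⟩
  rw [← hlam] at h2 hl0 hl3 hG
  have hlog3 : 0 < Real.log 3 := Real.log_pos (by norm_num)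
  have hGe : (G - 1) * lam = |Real.log κ| + 2 * Real.log a + Real.log B := by
    rw [hG]
    field_simp
    ring
  have h4 : (s : ℝ) * Real.log 3 ≤ s * (14 / 5 * lam) :=
    mul_le_mul_of_nonneg_left (by linarith) (by linarith)
  have hN0R : (0 : ℝ) ≤ N := Nat.cast_nonneg _
  have h5 : η * (Real.log a + s * Real.log 3 + N * Real.log 3) ≤
      Real.log a + (s + ε * N) * (lam / 10) := by
    have a1 : η * Real.log a ≤ Real.log a := by nlinarith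
    have a2 : η * (s * Real.log 3) ≤ s * (lam / 10) := by
      calc η * (s * Real.log 3) = s * (η * Real.log 3) := by ring
        _ ≤ s * (lam / 10) := by
          apply mul_le_mul_of_nonneg_left _ (by linarith)
          calc η * Real.log 3 ≤ η * (14 / 5 * lam) :=
                mul_le_mul_of_nonneg_left (by linarith) hη0.le
            _ = (28 * η) * (lam / 10) := by ring
            _ ≤ 1 * (lam / 10) := mul_le_mul_of_nonneg_right hη2 (by positivity)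
            _ = lam / 10 := one_mul _
    have a3 : η * (N * Real.log 3) ≤ (ε * N) * (lam / 10) := by
      calc η * (N * Real.log 3) = N * (η * Real.log 3) := by ring
        _ ≤ N * (ε * (lam / 10)) := by
          apply mul_le_mul_of_nonneg_left _ hN0R
          calc η * Real.log 3 ≤ η * (14 / 5 * lam) :=
                mul_le_mul_of_nonneg_left (by linarith) hη0.le
            _ = (28 * η) * (lam / 10) := by ring
            _ ≤ ε * (lam / 10) := mul_le_mul_of_nonneg_right hη1 (by positivity)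
        _ = _ := by ring
    linarith
  have h6 : (l : ℝ) * lam ≤ (ε / 10 * N + 29 / 10 * s + (G - 1)) * lam := by
    have e : (ε / 10 * N + 29 / 10 * s + (G - 1)) * lam =
        (G - 1) * lam + s * (14 / 5 * lam) + (s + ε * N) * (lam / 10) := by ring
    rw [e, hGe]
    linarith
  have h7 := le_of_mul_le_mul_right h6 hl0
  linarith

open Pool.Agent.H429R2.Auto (Conf F Rep IsFin rep_iter exists_rep)

/-- the columns of the automaton -/
theorem col_noPer (x : Conf) (hfin : {i | x i ≠ 0}.Finite) (hx : ∃ i, x i ≠ 0) (j : ℤ) (ε : ℝ)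
    (hε : 0 < ε) : ∃ N₀ : ℕ, NoPer2 (fun n : ℕ => F^[n] x j) (1 + ε) 5 N₀ := by
  obtain ⟨m, k, hrep, hm, -⟩ := exists_rep (x := x) hfin
  have hm : 0 < m := hm (by
    rintro rfl
    obtain ⟨i, hi⟩ := hx
    exact hi rfl)
  obtain ⟨a, B, ha, hB, haB⟩ : ∃ a B : ℕ, 1 ≤ a ∧ 1 ≤ B ∧
      (6 : ℝ) ^ j * ((m : ℝ) / 6 ^ k) = (a : ℝ) / B := by
    have h6k : (6 : ℝ) ^ k ≠ 0 := by positivity
    rcases le_or_gt (k : ℤ) j with h | h
    · obtain ⟨t, ht⟩ : ∃ t : ℕ, j = k + t := ⟨(j - k).toNat, by omega⟩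
      refine ⟨m * 6 ^ t, 1, Nat.mul_pos hm (by positivity), le_rfl, ?_⟩
      rw [ht, zpow_add₀ (by norm_num), zpow_natCast, zpow_natCast]
      push_cast
      field_simp
    · obtain ⟨t, ht⟩ : ∃ t : ℕ, (k : ℤ) = j + t := ⟨(k - j).toNat, by omega⟩
      refine ⟨m, 6 ^ t, hm, Nat.one_le_pow _ _ (by norm_num), ?_⟩
      have e : (6 : ℝ) ^ k = (6 : ℝ) ^ j * 6 ^ t := by
        rw [← zpow_natCast, ht, zpow_add₀ (by norm_num), zpow_natCast]
      have h6j : (6 : ℝ) ^ j ≠ 0 := by positivity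
      rw [e]
      push_cast
      field_simp
  obtain ⟨N₀, hN₀⟩ := floor_noPer a B ha hB ε hε
  refine ⟨N₀, hN₀ (Fin 6) _ fun i i' h => ?_⟩
  have h1 := rep_iter (by positivity) hrep i j
  have h2 := rep_iter (by positivity) hrep i' j
  have h3 : ((F^[i] x j : Fin 6) : ℕ) = ((F^[i'] x j : Fin 6) : ℕ) := congrArg Fin.val h
  rw [h1, h2] at h3
  have e : ∀ n : ℕ, (6 : ℝ) ^ j * ((3 / 2) ^ n * ((m : ℝ) / 6 ^ k)) =
      (a : ℝ) / B * (3 / 2 : ℝ) ^ n := by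
    intro n
    rw [← haB]
    ring
  rw [e, e] at h3
  have hnn : ∀ n : ℕ, 0 ≤ (a : ℝ) / B * (3 / 2 : ℝ) ^ n := fun n => by positivity
  rw [← Int.natCast_floor_eq_floor (hnn i), ← Int.natCast_floor_eq_floor (hnn i')]
  exact_mod_cast h3

end Pool.Agent.X1.NfaAlg
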