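import Mathlib

/-!
# Tools for Zeckendorf expansions

Concatenation of Zeckendorf expansions and the shift lemma: if `a, b ≤ F_j` then the expansion of
`a F_k + b F_{k+1}` just moves up by one place when `k ≥ j + 1` grows by one.
-/

namespace Pool.Agent.X1.ZeckTools

open Nat Real

local instance : IsTrans ℕ fun a b ↦ b + 2 ≤ a where
  trans _a _b _c hba hcb := hcb.trans <| le_self_add.trans hba

/-- Zeckendorf representations as pairwise conditions. -/
lemma zrep_iff (l : List ℕ) :
    l.IsZeckendorfRep ↔ (∀ a ∈ l, 2 ≤ a) ∧ l.Pairwise (fun a b ↦ b + 2 ≤ a) := by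
  unfold List.IsZeckendorfRep
  rw [List.isChain_iff_pairwise, List.pairwise_append]
  constructor
  · rintro ⟨h1, _, h3⟩
    exact ⟨fun a ha => by simpa using h3 a ha 0 (by simp), h1⟩
  · rintro ⟨h1, h2⟩
    refine ⟨h2, by simp, ?_⟩
    intro a ha b hb
    simp only [List.mem_singleton] at hb
    subst hb
    simpa using h1 a ha

lemma fib_le_of_mem {l : List ℕ} {e : ℕ} (he : e ∈ l) : fib e ≤ (l.map fib).sum := by
  apply List.single_le_sum (by intro x _; exact Nat.zero_le x)
  exact List.mem_map_of_mem he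

lemma mem_lt {y c e : ℕ} (hy : y < fib c) (he : e ∈ zeckendorf y) : e < c := by
  by_contra h
  push Not at h
  have h1 := fib_le_of_mem he
  rw [sum_zeckendorf_fib] at h1
  have h2 := fib_mono h
  omega

lemma two_le_of_mem {y e : ℕ} (he : e ∈ zeckendorf y) : 2 ≤ e :=
  ((zrep_iff _).1 (isZeckendorfRep_zeckendorf y)).1 e he

lemma concat {x y c : ℕ} (hx : ∀ e ∈ zeckendorf x, c + 1 ≤ e) (hy : y < fib c) :
    zeckendorf (x + y) = zeckendorf x ++ zeckendorf y := by
  have hrep : (zeckendorf x ++ zeckendorf y).IsZeckendorfRep := by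
    rw [zrep_iff]
    constructor
    · intro a ha
      rcases List.mem_append.1 ha with h | h
      · exact two_le_of_mem h
      · exact two_le_of_mem h
    · rw [List.pairwise_append]
      refine ⟨((zrep_iff _).1 (isZeckendorfRep_zeckendorf x)).2,
        ((zrep_iff _).1 (isZeckendorfRep_zeckendorf y)).2, ?_⟩
      intro a ha b hb
      have h1 := hx a ha
      have h2 := mem_lt hy hb
      omega
  have := zeckendorf_sum_fib hrep
  rw [List.map_append, List.sum_append, sum_zeckendorf_fib, sum_zeckendorf_fib] at this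
  exact this

lemma concat_length {x y c : ℕ} (hx : ∀ e ∈ zeckendorf x, c + 1 ≤ e) (hy : y < fib c) :
    (zeckendorf (x + y)).length = (zeckendorf x).length + (zeckendorf y).length := by
  rw [concat hx hy, List.length_append]

/-- The shifted value of a list of indices. -/
lemma sum_shift (l : List ℕ) :
    (((l.map (fun e => fib (e + 1))).sum : ℕ) : ℝ) - goldenRatio * ((l.map fib).sum : ℕ)
      = (l.map (fun e => goldenConj ^ e)).sum := by
  induction l with
  | nil => simp
  | cons a l ih =>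
    simp only [List.map_cons, List.sum_cons]
    push_cast
    have h := fib_succ_sub_goldenRatio_mul_fib a
    push_cast at ih
    linarith

/-- The small positive root `q = -ψ = 0.618…`. -/
noncomputable def qq : ℝ := -goldenConj

lemma qq_pos : 0 < qq := by unfold qq; linarith [goldenConj_neg]

lemma qq_lt_one : qq < 1 := by unfold qq; linarith [neg_one_lt_goldenConj]

lemma qq_sq : qq ^ 2 = 1 - qq := by
  unfold qq
  have := goldenConj_sq
  nlinarith

lemma qq_mul_phi : qq * goldenRatio = 1 := by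
  unfold qq
  have := goldenConj_mul_goldenRatio
  linarith

lemma qq_pow_add (n : ℕ) : qq ^ (n + 1) + qq ^ (n + 2) = qq ^ n := by
  have := qq_sq
  have h : qq ^ (n + 1) + qq ^ (n + 2) = qq ^ n * (qq + qq ^ 2) := by ring
  rw [h, this]; ring

/-- The potential bound for sums of powers of `q` over Zeckendorf lists. -/
lemma sum_qq_le : ∀ (l : List ℕ), (∀ a ∈ l, 2 ≤ a) → l.Pairwise (fun a b ↦ b + 2 ≤ a) →
    (l.map (fun e => qq ^ e)).sum ≤ qq - qq ^ (l.headD 0 + 1)
  | [], _, _ => by simp
  | a :: l, h2, hp => by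
    rw [List.pairwise_cons] at hp
    have ih := sum_qq_le l (fun b hb => h2 b (List.mem_cons_of_mem _ hb)) hp.2
    have ha : 2 ≤ a := h2 a List.mem_cons_self
    have hh : l.headD 0 + 2 ≤ a := by
      cases l with
      | nil => simpa using ha
      | cons b l => simpa using hp.1 b List.mem_cons_self
    simp only [List.map_cons, List.sum_cons, List.headD_cons]
    obtain ⟨a', rfl⟩ : ∃ a', a = a' + 2 := ⟨a - 2, by omega⟩
    have h3 : qq ^ (a' + 2) + qq ^ (a' + 2 + 1) = qq ^ (a' + 1) := by
      have := qq_pow_add (a' + 1)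
      exact this
    have h4 : qq ^ (a' + 1) ≤ qq ^ (l.headD 0 + 1) :=
      pow_le_pow_of_le_one qq_pos.le qq_lt_one.le (by omega)
    linarith

lemma abs_sum_psi_le (l : List ℕ) :
    |(l.map (fun e => goldenConj ^ e)).sum| ≤ (l.map (fun e => qq ^ e)).sum := by
  induction l with
  | nil => simp
  | cons a l ih =>
    simp only [List.map_cons, List.sum_cons]
    calc |goldenConj ^ a + (l.map (fun e => goldenConj ^ e)).sum|
        ≤ |goldenConj ^ a| + |(l.map (fun e => goldenConj ^ e)).sum| := abs_add_le _ _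
      _ ≤ qq ^ a + (l.map (fun e => qq ^ e)).sum := by
        have : |goldenConj ^ a| = qq ^ a := by
          rw [abs_pow, abs_of_neg goldenConj_neg]; rfl
        linarith

lemma abs_sum_psi_lt (n : ℕ) :
    |((zeckendorf n).map (fun e => goldenConj ^ e)).sum| < qq := by
  have h := (zrep_iff _).1 (isZeckendorfRep_zeckendorf n)
  have h1 := abs_sum_psi_le (zeckendorf n)
  have h2 := sum_qq_le _ h.1 h.2
  have h3 : 0 < qq ^ ((zeckendorf n).headD 0 + 1) := pow_pos qq_pos _
  linarith

lemma fib_le_phi_pow (j : ℕ) : (fib (j + 1) : ℝ) ≤ goldenRatio ^ j := by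
  induction j using Nat.twoStepInduction with
  | zero => simp
  | one => simp [one_lt_goldenRatio.le]
  | more n h1 h2 =>
    rw [show n + 2 + 1 = (n + 1) + 2 by ring, fib_add_two]
    push_cast
    have : goldenRatio ^ (n + 2) = goldenRatio ^ n + goldenRatio ^ (n + 1) := by
      have := goldenRatio_sq
      rw [pow_add, this]; ring
    rw [this]
    have e1 : n + 1 + 1 = n + 2 := rfl
    rw [e1] at *
    linarith

/-- The error term of the shift is small. -/
lemma err_small {a b j k : ℕ} (hj : 1 ≤ j) (ha : a ≤ fib j) (hb : b ≤ fib j) (hk : j + 1 ≤ k) :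
    |(a : ℝ) * goldenConj ^ k + b * goldenConj ^ (k + 1)| ≤ qq ^ 2 := by
  obtain ⟨j, rfl⟩ : ∃ i, j = i + 1 := ⟨j - 1, by omega⟩
  have ha' : (a : ℝ) ≤ goldenRatio ^ j := le_trans (by exact_mod_cast ha) (fib_le_phi_pow j)
  have hb' : (b : ℝ) ≤ goldenRatio ^ j := le_trans (by exact_mod_cast hb) (fib_le_phi_pow j)
  have hq := qq_pos
  have hq1 := qq_lt_one
  have h0 : goldenConj = - qq := by unfold qq; ring
  have key : (a : ℝ) * goldenConj ^ k + b * goldenConj ^ (k + 1)
      = goldenConj ^ k * (a - b * qq) := by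
    rw [pow_succ, h0]; ring
  rw [key, abs_mul, abs_pow]
  have h1 : |goldenConj| = qq := by rw [abs_of_neg goldenConj_neg]; rfl
  rw [h1]
  have h2 : |(a : ℝ) - b * qq| ≤ goldenRatio ^ j := by
    rw [abs_le]
    have hb0 : (0 : ℝ) ≤ b := Nat.cast_nonneg b
    have ha0 : (0 : ℝ) ≤ a := Nat.cast_nonneg a
    have hbq : (b : ℝ) * qq ≤ b := by nlinarith
    have hbq0 : 0 ≤ (b : ℝ) * qq := mul_nonneg hb0 hq.le
    constructor <;> linarith
  obtain ⟨i, rfl⟩ : ∃ i, k = j + (i + 2) := ⟨k - j - 2, by omega⟩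
  calc qq ^ (j + (i + 2)) * |(a : ℝ) - b * qq| ≤ qq ^ (j + (i + 2)) * goldenRatio ^ j := by
        gcongr
    _ = qq ^ (i + 2) * (qq * goldenRatio) ^ j := by
        rw [mul_pow]
        generalize goldenRatio ^ j = Y
        ring
    _ = qq ^ (i + 2) := by rw [qq_mul_phi]; ring
    _ ≤ qq ^ 2 := pow_le_pow_of_le_one hq.le hq1.le (by omega)

/-- **Shift lemma.** -/
theorem shift {a b j k : ℕ} (hj : 1 ≤ j) (ha : a ≤ fib j) (hb : b ≤ fib j) (hk : j + 1 ≤ k) :
    zeckendorf (a * fib (k + 1) + b * fib (k + 2))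
      = (zeckendorf (a * fib k + b * fib (k + 1))).map (· + 1) := by
  set x := a * fib k + b * fib (k + 1) with hx
  have hrep := (zrep_iff _).1 (isZeckendorfRep_zeckendorf x)
  have hrep' : ((zeckendorf x).map (· + 1)).IsZeckendorfRep := by
    rw [zrep_iff]
    constructor
    · intro c hc
      obtain ⟨d, hd, rfl⟩ := List.mem_map.1 hc
      have := hrep.1 d hd
      omega
    · rw [List.pairwise_map]
      refine hrep.2.imp ?_
      intro c d h
      omega
  have h1 := zeckendorf_sum_fib hrep'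
  rw [List.map_map] at h1
  have h2 : (fib ∘ (· + 1)) = (fun e => fib (e + 1)) := rfl
  rw [h2] at h1
  rw [← h1]
  congr 1
  have e1 := sum_shift (zeckendorf x)
  rw [sum_zeckendorf_fib] at e1
  have e2 := abs_sum_psi_lt x
  rw [← e1] at e2
  have e3 := err_small hj ha hb hk
  have e4 : (a : ℝ) * goldenConj ^ k + b * goldenConj ^ (k + 1)
      = ((a * fib (k + 1) + b * fib (k + 2) : ℕ) : ℝ) - goldenRatio * (x : ℕ) := by
    rw [← fib_succ_sub_goldenRatio_mul_fib, ← fib_succ_sub_goldenRatio_mul_fib, hx]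
    push_cast
    ring
  rw [e4] at e3
  have e5 : qq + qq ^ 2 = 1 := by rw [qq_sq]; ring
  have e6 : |((a * fib (k + 1) + b * fib (k + 2) : ℕ) : ℝ)
      - (((zeckendorf x).map (fun e => fib (e + 1))).sum : ℕ)| < 1 := by
    rw [abs_lt] at e2 ⊢
    rw [abs_le] at e3
    constructor <;> linarith [e2.1, e2.2, e3.1, e3.2]
  have e7 : |((a * fib (k + 1) + b * fib (k + 2) : ℕ) : ℤ)
      - (((zeckendorf x).map (fun e => fib (e + 1))).sum : ℕ)| < 1 := by
    exact_mod_cast e6
  rw [Int.abs_lt_one_iff] at e7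
  omega

theorem shift_iter {a b j k : ℕ} (hj : 1 ≤ j) (ha : a ≤ fib j) (hb : b ≤ fib j)
    (hk : j + 1 ≤ k) (i : ℕ) :
    zeckendorf (a * fib (k + i) + b * fib (k + i + 1))
      = (zeckendorf (a * fib k + b * fib (k + 1))).map (· + i) := by
  induction i with
  | zero => simp
  | succ i ih =>
    have := shift (k := k + i) hj ha hb (by omega)
    rw [ih, List.map_map] at this
    rw [show k + (i + 1) = k + i + 1 by ring, this]
    apply List.map_congr_left
    intro c _
    simp only [Function.comp]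
    ring

theorem length_const {a b j k k' : ℕ} (hj : 1 ≤ j) (ha : a ≤ fib j) (hb : b ≤ fib j)
    (hk : j + 1 ≤ k) (hk' : j + 1 ≤ k') :
    (zeckendorf (a * fib k + b * fib (k + 1))).length
      = (zeckendorf (a * fib k' + b * fib (k' + 1))).length := by
  obtain ⟨i, rfl⟩ : ∃ i, k = j + 1 + i := ⟨k - (j + 1), by omega⟩
  obtain ⟨i', rfl⟩ : ∃ i, k' = j + 1 + i := ⟨k' - (j + 1), by omega⟩
  rw [shift_iter hj ha hb le_rfl, shift_iter hj ha hb le_rfl, List.length_map, List.length_map]

theorem low_index {a b j k e : ℕ} (hj : 1 ≤ j) (ha : a ≤ fib j) (hb : b ≤ fib j)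
    (hk : j + 1 ≤ k) (he : e ∈ zeckendorf (a * fib k + b * fib (k + 1))) :
    k + 1 ≤ e + j := by
  obtain ⟨i, rfl⟩ : ∃ i, k = j + 1 + i := ⟨k - (j + 1), by omega⟩
  rw [shift_iter hj ha hb le_rfl] at he
  obtain ⟨d, hd, rfl⟩ := List.mem_map.1 he
  have := two_le_of_mem hd
  omega

end Pool.Agent.X1.ZeckTools
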