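import Mathlib
import Pool.Agent.X1.ZeckTools

/-!
# Zeckendorf digit sums of squares near Lucas numbers
-/

namespace Pool.Agent.X1.ZeckSquares

open Nat Pool.Agent.X1.ZeckTools

/-- `luc k = F_k + F_{k+2}` is the Lucas number `L_{k+1}`. -/
def luc (k : ℕ) : ℕ := fib k + fib (k + 2)

lemma luc_add_two (k : ℕ) : luc (k + 2) = luc k + luc (k + 1) := by
  unfold luc
  have h1 := fib_add_two (n := k)
  have h2 := fib_add_two (n := k + 1)
  have h3 := fib_add_two (n := k + 2)
  simp only [show k + 1 + 2 = k + 3 by ring, show k + 1 + 1 = k + 2 by ring,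
    show k + 2 + 2 = k + 4 by ring] at *
  omega

lemma luc_zero : luc 0 = 1 := by decide

lemma luc_one : luc 1 = 3 := by decide

lemma luc_mono_succ (k : ℕ) : luc k ≤ luc (k + 1) := by
  unfold luc
  have h1 := fib_mono (show k ≤ k + 1 by omega)
  have h2 := fib_mono (show k + 2 ≤ k + 1 + 2 by omega)
  omega

lemma luc_mono : Monotone luc := monotone_nat_of_le_succ luc_mono_succ

/-- Cassini's identity. -/
lemma cassini (k : ℕ) : (fib (k + 1) : ℤ) ^ 2 = fib k * fib (k + 1) + fib k ^ 2 + (-1) ^ k := by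
  induction k with
  | zero => simp
  | succ k ih =>
    have h : (fib (k + 1 + 1) : ℤ) = fib k + fib (k + 1) := by
      exact_mod_cast fib_add_two (n := k)
    rw [h, pow_succ (-1 : ℤ) k]
    nlinarith [ih]

lemma luc_sq (k : ℕ) :
    (luc k : ℤ) ^ 2 + 2 * (-1) ^ k = fib (2 * k + 3) + fib (2 * k + 1) := by
  have h1 : (fib (2 * k + 1) : ℤ) = fib (k + 1) ^ 2 + fib k ^ 2 := by
    exact_mod_cast fib_two_mul_add_one k
  have h2 : (fib (2 * k + 3) : ℤ) = fib (k + 2) ^ 2 + fib (k + 1) ^ 2 := by
    exact_mod_cast fib_two_mul_add_one (k + 1)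
  have h3 : (fib (k + 2) : ℤ) = fib k + fib (k + 1) := by
    exact_mod_cast fib_add_two (n := k)
  have h4 := cassini k
  rw [h1, h2]
  unfold luc
  push_cast
  rw [h3]
  nlinarith [h4]

/-- The small last block of `(luc k + r)^2`. -/
def tail (k r : ℕ) : ℕ := if k % 2 = 0 then r ^ 2 - 2 else r ^ 2 + 2

lemma tail_le (k r : ℕ) : tail k r ≤ r ^ 2 + 2 := by
  unfold tail
  split_ifs <;> omega

lemma tail_add_two (k r : ℕ) : tail (k + 2) r = tail k r := by
  unfold tail
  simp

lemma tail_cast {k r : ℕ} (hr : 2 ≤ r) : (tail k r : ℤ) = r ^ 2 - 2 * (-1) ^ k := by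
  have h4 : 2 ≤ r ^ 2 := by nlinarith
  unfold tail
  split_ifs with h
  · have : Even k := Nat.even_iff.2 h
    rw [this.neg_one_pow]
    push_cast [Nat.cast_sub h4]
    ring
  · have : Odd k := Nat.odd_iff.2 (by omega)
    rw [this.neg_one_pow]
    push_cast
    ring

lemma sq_decomp {k r : ℕ} (hr : 2 ≤ r) :
    (luc k + r) ^ 2 = (fib (2 * k + 3) + fib (2 * k + 1))
      + ((4 * r) * fib k + (2 * r) * fib (k + 1) + tail k r) := by
  have h1 := luc_sq k
  have h2 := tail_cast (k := k) hr
  have h3 : (fib (k + 2) : ℤ) = fib k + fib (k + 1) := by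
    exact_mod_cast fib_add_two (n := k)
  have h4 : (luc k : ℤ) = 2 * fib k + fib (k + 1) := by
    unfold luc; push_cast; rw [h3]; ring
  zify
  rw [h2, ← h1]
  have : ((luc k : ℤ) + r) ^ 2 = (luc k : ℤ) ^ 2 + 2 * r * luc k + r ^ 2 := by ring
  rw [this, h4]
  ring

lemma fib_sq_le (j : ℕ) : fib j ^ 2 ≤ fib (2 * j) := by
  rw [fib_two_mul]
  have h := fib_mono (show j ≤ j + 1 by omega)
  rw [sq]
  apply Nat.mul_le_mul_left
  omega

lemma fib_mul_le (k : ℕ) : fib k * fib (k + 1) ≤ fib (2 * k) := by
  rw [fib_two_mul]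
  have h := fib_mono (show k ≤ k + 1 by omega)
  apply Nat.mul_le_mul_left
  omega

lemma top_block (k : ℕ) : zeckendorf (fib (2 * k + 3) + fib (2 * k + 1)) = [2 * k + 3, 2 * k + 1]
    ∨ k = 0 := by
  rcases Nat.eq_zero_or_pos k with h | h
  · exact Or.inr h
  left
  have : (List.IsZeckendorfRep [2 * k + 3, 2 * k + 1]) := by
    rw [zrep_iff]
    constructor
    · intro a ha
      simp only [List.mem_cons, List.not_mem_nil, or_false] at ha
      omega
    · simp
  have h2 := zeckendorf_sum_fib this
  simpa using h2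

/-- Length of the Zeckendorf expansion of `(luc k + r)^2`. -/
theorem length_sq {j k r : ℕ} (hr : 2 ≤ r) (hj : 4 * r ≤ fib j) (hk : 3 * j ≤ k) :
    (zeckendorf ((luc k + r) ^ 2)).length
      = 2 + (zeckendorf ((4 * r) * fib k + (2 * r) * fib (k + 1))).length
        + (zeckendorf (tail k r)).length := by
  have hj6 : 6 ≤ j := by
    by_contra h
    push Not at h
    have : fib j ≤ fib 5 := fib_mono (by omega)
    have h5 : fib 5 = 5 := by decide
    omega
  have hkpos : 0 < k := by omega
  have ht := tail_le k r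
  have hjsq : 16 * r ^ 2 ≤ fib (2 * j) := by
    have := fib_sq_le j
    nlinarith
  have ht2 : tail k r < fib (k - j) := by
    have : fib (2 * j) ≤ fib (k - j) := fib_mono (by omega)
    nlinarith
  set x := (4 * r) * fib k + (2 * r) * fib (k + 1) with hx
  have hlow : ∀ e ∈ zeckendorf x, (k - j) + 1 ≤ e := by
    intro e he
    have := low_index (j := j) (k := k) (by omega) hj (by omega) (by omega) he
    omega
  have hbig : x + tail k r < fib (2 * k) := by
    have h1 := fib_mul_le k
    have h2 : fib (3 * j + 1) ≤ fib (k + 1) := fib_mono (by omega)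
    have h3 : fib (j + 2 * j + 1) = fib j * fib (2 * j) + fib (j + 1) * fib (2 * j + 1) :=
      fib_add j (2 * j)
    have h4 : fib (3 * j + 1) = fib j * fib (2 * j) + fib (j + 1) * fib (2 * j + 1) := by
      rw [← h3]; congr 1; ring
    have h5 : fib (2 * j) ≥ 144 := by
      have : fib 12 ≤ fib (2 * j) := fib_mono (by omega)
      have h12 : fib 12 = 144 := by decide
      omega
    have h6 : fib (k + 1) ≤ 2 * fib k := by
      obtain ⟨m, rfl⟩ : ∃ m, k = m + 1 := ⟨k - 1, by omega⟩
      rw [show m + 1 + 1 = m + 2 by ring, fib_add_two]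
      have := fib_mono (show m ≤ m + 1 by omega)
      omega
    have h7 : 144 * fib j ≤ fib (k + 1) := by
      calc 144 * fib j ≤ fib j * fib (2 * j) := by nlinarith
        _ ≤ fib (3 * j + 1) := by rw [h4]; exact Nat.le_add_right _ _
        _ ≤ fib (k + 1) := h2
    have h8 : fib (2 * j) ≤ fib k := fib_mono (by omega)
    have h9 : tail k r ≤ fib k := by nlinarith
    have h10 : 0 < fib k := fib_pos.2 hkpos
    have h11 : x ≤ 2 * fib j * fib k := by
      rw [hx]
      calc (4 * r) * fib k + (2 * r) * fib (k + 1) ≤ fib j * fib k + (2 * r) * (2 * fib k) := by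
            gcongr
        _ = fib j * fib k + (4 * r) * fib k := by ring
        _ ≤ fib j * fib k + fib j * fib k := by gcongr
        _ = 2 * fib j * fib k := by ring
    have h12 : 144 * fib j * fib k ≤ fib (2 * k) := by
      calc 144 * fib j * fib k ≤ fib (k + 1) * fib k := by gcongr
        _ = fib k * fib (k + 1) := by ring
        _ ≤ _ := h1
    have h13 : 8 ≤ fib j := by omega
    nlinarith [Nat.mul_le_mul_right (fib k) h13]
  have htop := (top_block k).resolve_right (by omega)
  rw [sq_decomp hr, concat_length (c := 2 * k) _ hbig, htop, concat_length hlow ht2]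
  · simp only [List.length_cons, List.length_nil]
    ring
  · intro e he
    rw [htop] at he
    simp only [List.mem_cons, List.not_mem_nil, or_false] at he
    omega

/-- The lengths at `luc k + r` and `luc (k+2) + r` agree. -/
theorem length_sq_add_two {j k r : ℕ} (hr : 2 ≤ r) (hj : 4 * r ≤ fib j) (hk : 3 * j ≤ k) :
    (zeckendorf ((luc (k + 2) + r) ^ 2)).length = (zeckendorf ((luc k + r) ^ 2)).length := by
  have hj1 : 1 ≤ j := by
    by_contra h
    have : j = 0 := by omega
    subst this
    simp at hj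
    omega
  rw [length_sq hr hj hk, length_sq hr hj (show 3 * j ≤ k + 2 by omega), tail_add_two]
  rw [length_const (j := j) (k := k + 2) (k' := k) hj1 hj (by omega) (by omega) (by omega)]

/-- The lengths at `luc k + 2` and `luc (k+1) + 2` have different parity. -/
theorem length_sq_two {j k : ℕ} (hj : 8 ≤ fib j) (hk : 3 * j ≤ k) :
    ((zeckendorf ((luc (k + 1) + 2) ^ 2)).length : ZMod 2)
      ≠ ((zeckendorf ((luc k + 2) ^ 2)).length : ZMod 2) := by
  have hj1 : 1 ≤ j := by
    by_contra h
    have : j = 0 := by omega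
    subst this
    simp at hj
  have e1 := length_sq (r := 2) (j := j) (k := k) le_rfl (by omega) hk
  have e2 := length_sq (r := 2) (j := j) (k := k + 1) le_rfl (by omega) (by omega)
  rw [length_const (j := j) (k := k + 1) (k' := k) hj1 (by omega) (by omega) (by omega) (by omega)]
    at e2
  have z2 : (zeckendorf 2).length = 1 := by
    have h := zeckendorf_sum_fib (l := [3]) (by rw [zrep_iff]; simp)
    have h3 : (List.map fib [3]).sum = 2 := by decide
    rw [h3] at h
    rw [h]; rfl
  have z6 : (zeckendorf 6).length = 2 := by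
    have h := zeckendorf_sum_fib (l := [5, 2]) (by rw [zrep_iff]; simp)
    have h3 : (List.map fib [5, 2]).sum = 6 := by decide
    rw [h3] at h
    rw [h]; rfl
  rw [e1, e2]
  generalize (zeckendorf ((4 * 2) * fib k + (2 * 2) * fib (k + 1))).length = g
  unfold tail
  rcases Nat.even_or_odd k with h | h
  · have h1 : k % 2 = 0 := Nat.even_iff.1 h
    have h2 : ¬ (k + 1) % 2 = 0 := by omega
    rw [if_pos h1, if_neg h2]
    simp only [show 2 ^ 2 + 2 = 6 by norm_num, show 2 ^ 2 - 2 = 2 by norm_num, z2, z6]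
    intro hc
    have hc' := (ZMod.natCast_eq_natCast_iff _ _ _).1 hc
    have := hc'
    unfold Nat.ModEq at this
    omega
  · have h1 : ¬ k % 2 = 0 := by rw [Nat.odd_iff] at h; omega
    have h2 : (k + 1) % 2 = 0 := by rw [Nat.odd_iff] at h; omega
    rw [if_neg h1, if_pos h2]
    simp only [show 2 ^ 2 + 2 = 6 by norm_num, show 2 ^ 2 - 2 = 2 by norm_num, z2, z6]
    intro hc
    have hc' := (ZMod.natCast_eq_natCast_iff _ _ _).1 hc
    have := hc'
    unfold Nat.ModEq at this
    omega

end Pool.Agent.X1.ZeckSquares
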