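import Mathlib
import Pool.Agent.X1.TMFib

/-!
# Ratio bounds for the Thue–Morse-twisted Fibonacci sequence
-/

set_option autoImplicit false

namespace Pool.Agent.X1.TMFib

lemma p_four_two (q : ℕ) : p (4 * q + 2) = -1 := by
  rw [show 4 * q + 2 = 2 * (2 * q + 1) by ring, p_two_mul _ (by omega), p_odd]

/-- All recurrences in a block of four. -/
lemma G_block (q : ℕ) : G (4 * q + 2) = G (4 * q + 1) - G (4 * q) ∧
    G (4 * q + 3) = G (4 * q + 2) + G (4 * q + 1) ∧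
    (G (4 * q + 4) = G (4 * q + 3) + G (4 * q + 2) ∨ G (4 * q + 4) = G (4 * q + 3) - G (4 * q + 2)) ∧
    G (4 * q + 5) = G (4 * q + 4) + G (4 * q + 3) ∧
    0 ≤ G (4 * q) ∧ 1 ≤ G (4 * q + 1) ∧ 1 ≤ G (4 * q + 2) ∧ 1 ≤ G (4 * q + 3) ∧ 1 ≤ G (4 * q + 4) := by
  refine ⟨?_, ?_, ?_, ?_, G_nonneg _, G_pos _ (by omega), G_pos _ (by omega), G_pos _ (by omega),
    G_pos _ (by omega)⟩
  · have := G_rec (4 * q)
    rw [p_four_two] at this
    linarith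
  · have := G_odd (2 * q)
    rw [show 2 * (2 * q) = 4 * q by ring] at this
    exact this
  · have := G_rec (4 * q + 2)
    rw [show 4 * q + 2 + 2 = 4 * q + 4 by ring, show 4 * q + 2 + 1 = 4 * q + 3 by ring] at this
    rcases p_pm (4 * q + 4) with h | h <;> rw [h] at this
    · left; linarith
    · right; linarith
  · have := G_odd (2 * q + 1)
    rw [show 2 * (2 * q + 1) = 4 * q + 2 by ring] at this
    exact this

/-- `2 G_N ≤ 3 G_{N-1}` for even `N ≥ 2`. -/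
lemma G_even_le (m : ℕ) : 2 * G (2 * m + 2) ≤ 3 * G (2 * m + 1) := by
  obtain ⟨q, hq | hq⟩ := Nat.even_or_odd' m
  · obtain ⟨h1, h2, h3, h4, h5, h6, h7, h8, h9⟩ := G_block q
    rw [hq, show 2 * (2 * q) + 2 = 4 * q + 2 by ring, show 2 * (2 * q) + 1 = 4 * q + 1 by ring]
    omega
  · obtain ⟨h1, h2, h3, h4, h5, h6, h7, h8, h9⟩ := G_block q
    rw [hq, show 2 * (2 * q + 1) + 2 = 4 * q + 4 by ring, show 2 * (2 * q + 1) + 1 = 4 * q + 3 by ring]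
    omega

/-- `2 G_N ≤ 7 G_{N-1}` for `N ≥ 2`. -/
lemma G_le_seven (n : ℕ) : 2 * G (n + 2) ≤ 7 * G (n + 1) := by
  obtain ⟨q, r, hr, hn⟩ : ∃ q r, r < 4 ∧ n = 4 * q + r := ⟨n / 4, n % 4, by omega, by omega⟩
  obtain ⟨h1, h2, h3, h4, h5, h6, h7, h8, h9⟩ := G_block q
  subst hn
  interval_cases r
  · rw [show 4 * q + 0 + 2 = 4 * q + 2 by ring, show 4 * q + 0 + 1 = 4 * q + 1 by ring]
    omega
  · rw [show 4 * q + 1 + 2 = 4 * q + 3 by ring, show 4 * q + 1 + 1 = 4 * q + 2 by ring]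
    rcases Nat.eq_zero_or_pos q with h0 | h0
    · subst h0
      rw [show 4 * 0 + 3 = 3 by ring, show 4 * 0 + 2 = 2 by ring, G_two, G_three]
      norm_num
    · obtain ⟨q', rfl⟩ : ∃ q', q = q' + 1 := ⟨q - 1, by omega⟩
      have h10 := G_even_le (2 * q' + 1)
      rw [show 2 * (2 * q' + 1) + 2 = 4 * q' + 4 by ring,
        show 2 * (2 * q' + 1) + 1 = 4 * q' + 3 by ring] at h10
      obtain ⟨k1, k2, k3, k4, k5, k6, k7, k8, k9⟩ := G_block q'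
      rw [show 4 * (q' + 1) + 2 = 4 * q' + 6 by ring] at *
      rw [show 4 * (q' + 1) + 3 = 4 * q' + 7 by ring] at *
      rw [show 4 * (q' + 1) + 1 = 4 * q' + 5 by ring] at *
      rw [show 4 * (q' + 1) = 4 * q' + 4 by ring] at h1
      omega
  · rw [show 4 * q + 2 + 2 = 4 * q + 4 by ring, show 4 * q + 2 + 1 = 4 * q + 3 by ring]
    omega
  · rw [show 4 * q + 3 + 2 = 4 * q + 5 by ring, show 4 * q + 3 + 1 = 4 * q + 4 by ring]
    omega

/-- `5 G_N ≤ 17 G_{N-1}` for `N ≥ 8`. -/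
lemma G_le_seventeen (n : ℕ) (hn8 : 6 ≤ n) : 5 * G (n + 2) ≤ 17 * G (n + 1) := by
  obtain ⟨q, r, hr, hn⟩ : ∃ q r, r < 4 ∧ n = 4 * q + r := ⟨n / 4, n % 4, by omega, by omega⟩
  obtain ⟨h1, h2, h3, h4, h5, h6, h7, h8, h9⟩ := G_block q
  subst hn
  interval_cases r
  · rw [show 4 * q + 0 + 2 = 4 * q + 2 by ring, show 4 * q + 0 + 1 = 4 * q + 1 by ring]
    omega
  · rw [show 4 * q + 1 + 2 = 4 * q + 3 by ring, show 4 * q + 1 + 1 = 4 * q + 2 by ring]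
    obtain ⟨q', rfl⟩ : ∃ q', q = q' + 2 := ⟨q - 2, by omega⟩
    obtain ⟨k1, k2, k3, k4, k5, k6, k7, k8, k9⟩ := G_block (q' + 1)
    obtain ⟨l1, l2, l3, l4, l5, l6, l7, l8, l9⟩ := G_block q'
    rw [show 4 * (q' + 2) + 2 = 4 * q' + 10 by ring] at *
    rw [show 4 * (q' + 2) + 3 = 4 * q' + 11 by ring] at *
    rw [show 4 * (q' + 2) + 1 = 4 * q' + 9 by ring] at *
    rw [show 4 * (q' + 2) = 4 * q' + 8 by ring] at h1
    rw [show 4 * (q' + 1) + 2 = 4 * q' + 6 by ring] at *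
    rw [show 4 * (q' + 1) + 3 = 4 * q' + 7 by ring] at *
    rw [show 4 * (q' + 1) + 4 = 4 * q' + 8 by ring] at *
    rw [show 4 * (q' + 1) + 5 = 4 * q' + 9 by ring] at *
    rw [show 4 * (q' + 1) + 1 = 4 * q' + 5 by ring] at *
    rw [show 4 * (q' + 1) = 4 * q' + 4 by ring] at k1
    omega
  · rw [show 4 * q + 2 + 2 = 4 * q + 4 by ring, show 4 * q + 2 + 1 = 4 * q + 3 by ring]
    omega
  · rw [show 4 * q + 3 + 2 = 4 * q + 5 by ring, show 4 * q + 3 + 1 = 4 * q + 4 by ring]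
    omega

/-- `2 G_{N-2} ≤ 3 G_N` for `N ≥ 2`. -/
lemma G_skip (n : ℕ) : 2 * G n ≤ 3 * G (n + 2) := by
  obtain ⟨q, r, hr, hn⟩ : ∃ q r, r < 4 ∧ n = 4 * q + r := ⟨n / 4, n % 4, by omega, by omega⟩
  obtain ⟨h1, h2, h3, h4, h5, h6, h7, h8, h9⟩ := G_block q
  subst hn
  interval_cases r
  · rw [show 4 * q + 0 + 2 = 4 * q + 2 by ring, show 4 * q + 0 = 4 * q by ring]
    rcases Nat.eq_zero_or_pos q with h0 | h0
    · subst h0
      rw [show 4 * 0 + 2 = 2 by ring, show 4 * 0 = 0 by ring, G_two, G_zero]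
      norm_num
    · obtain ⟨q', rfl⟩ : ∃ q', q = q' + 1 := ⟨q - 1, by omega⟩
      have h10 := G_even_le (2 * q' + 1)
      rw [show 2 * (2 * q' + 1) + 2 = 4 * q' + 4 by ring,
        show 2 * (2 * q' + 1) + 1 = 4 * q' + 3 by ring] at h10
      obtain ⟨k1, k2, k3, k4, k5, k6, k7, k8, k9⟩ := G_block q'
      rw [show 4 * (q' + 1) + 2 = 4 * q' + 6 by ring] at *
      rw [show 4 * (q' + 1) + 1 = 4 * q' + 5 by ring] at *
      rw [show 4 * (q' + 1) = 4 * q' + 4 by ring] at *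
      omega
  · rw [show 4 * q + 1 + 2 = 4 * q + 3 by ring]
    omega
  · rw [show 4 * q + 2 + 2 = 4 * q + 4 by ring]
    omega
  · rw [show 4 * q + 3 + 2 = 4 * q + 5 by ring]
    omega

end Pool.Agent.X1.TMFib
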