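import Mathlib

/-!
# The two-pointer machine behind the perturbed Hofstadter sequence
-/

namespace Pool.Agent.X1.TwoPointer

/-- The machine: `p(0) = 0`, `p(t+1) = z(p(t)) + z(t - p(t))`. -/
def mach (z : ℕ → ℕ) : ℕ → ℕ
  | 0 => 0
  | t + 1 => z (mach z t) + z (t - mach z t)

/-- Admissible counting functions `z` on `[0, n]`. -/
structure Zw (n : ℕ) (z : ℕ → ℕ) : Prop where
  pos : 1 ≤ n
  zero : z 0 = 0
  slow : ∀ k < n, z (k + 1) = z k ∨ z (k + 1) = z k + 1
  low : ∀ k < n, 2 * z k ≤ k
  last : 2 * z n = n + 1

/-- Balanced slow paths of length `2n`. -/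
structure Path (n : ℕ) (p : ℕ → ℕ) : Prop where
  zero : p 0 = 0
  slow : ∀ t < 2 * n, p (t + 1) = p t ∨ p (t + 1) = p t + 1
  low : ∀ t, 0 < t → t < 2 * n → 2 * p t + 1 ≤ t
  last : p (2 * n) = n

lemma Zw.upper {n : ℕ} {z : ℕ → ℕ} (h : Zw n z) : ∀ d k, k + d = n → z n ≤ z k + d := by
  intro d
  induction d with
  | zero => intro k hk; subst hk; simp
  | succ d ih =>
    intro k hk
    have h1 := ih (k + 1) (by omega)
    have h2 := h.slow k (by omega)
    omega

structure Inv (n : ℕ) (z : ℕ → ℕ) (t : ℕ) : Prop where
  i1 : mach z t ≤ t ∧ t - mach z t ≤ n ∧ mach z t ≤ n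
  i2 : 0 < t → t < 2 * n → 2 * mach z t + 1 ≤ t
  i3 : t - mach z t = n → z (mach z t) + n = z n + mach z t
  i4 : t < 2 * n → mach z (t + 1) = mach z t ∨ mach z (t + 1) = mach z t + 1
  i5 : t < 2 * n → mach z (t + 1) = mach z t + 1 →
    1 ≤ t - mach z t ∧ z (t - mach z t) = z (t - mach z t - 1) + 1

lemma inv {n : ℕ} {z : ℕ → ℕ} (h : Zw n z) : ∀ t, t ≤ 2 * n → Inv n z t := by
  intro t
  induction t with
  | zero =>
    intro _
    have h1 : mach z 1 = 0 := by simp [mach, h.zero]
    refine ⟨by simp [mach], by omega, ?_, ?_, ?_⟩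
    · intro hn
      have := h.pos
      simp [mach] at hn
      omega
    · intro _; left; rw [h1]; rfl
    · intro _ h2
      rw [h1] at h2
      simp [mach] at h2
  | succ t ih =>
    intro ht
    obtain ⟨⟨a1, a2, a3⟩, b, c, d, e⟩ := ih (by omega)
    have hrec : mach z (t + 1) = z (mach z t) + z (t - mach z t) := rfl
    have hrec2 : mach z (t + 1 + 1) = z (mach z (t + 1)) + z (t + 1 - mach z (t + 1)) := rfl
    have d' := d (by omega)
    have e' := e (by omega)
    have hpos := h.pos
    have hlast := h.last
    generalize hp : mach z t = p at *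
    generalize hp' : mach z (t + 1) = p' at *
    generalize hp'' : mach z (t + 1 + 1) = p'' at *
    obtain ⟨q, hq⟩ : ∃ q, t = p + q := ⟨t - p, by omega⟩
    have htq : t - p = q := by omega
    rw [htq] at a2 c hrec e e'
    -- the last increment of z
    have hz1 : z (n - 1) + 1 = z n := by
      have h1 := h.slow (n - 1) (by omega)
      have h2 := h.low (n - 1) (by omega)
      rw [show n - 1 + 1 = n by omega] at h1
      omega
    rcases d' with hc | hc
    · -- `q` moves
      have hqn : q < n := by
        by_contra hcon
        have hqn : q = n := by omega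
        have := c hqn
        rw [hqn] at hrec
        omega
      have hq' : t + 1 - p' = q + 1 := by omega
      rw [hq'] at hrec2
      have hsl := h.slow q hqn
      have hlq := h.low q hqn
      refine ⟨⟨by omega, by omega, by omega⟩, ?_, ?_, ?_, ?_⟩
      · intro _ h2n
        have hpn : p < n := by
          rcases Nat.eq_zero_or_pos t with h0 | h0
          · omega
          · have := b h0 (by omega); omega
        have := h.low p hpn
        omega
      · intro hn
        rw [hp', hq'] at hn
        rw [hp']
        have hqe : q = n - 1 := by omega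
        rw [hqe] at hrec
        rw [hc] at hrec ⊢
        omega
      · intro _
        rw [hp', hp'']
        rw [hc] at hrec hrec2 ⊢
        omega
      · intro _ h3
        rw [hp', hp''] at h3
        rw [hp', hq']
        refine ⟨by omega, ?_⟩
        rw [show q + 1 - 1 = q by omega]
        rw [hc] at hrec hrec2 h3
        omega
    · -- `p` moves
      have hpn : p < n := by
        rcases Nat.eq_zero_or_pos t with h0 | h0
        · omega
        · have := b h0 (by omega); omega
      have hq' : t + 1 - p' = q := by omega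
      rw [hq'] at hrec2
      have hsl := h.slow p hpn
      have hlp := h.low p hpn
      refine ⟨⟨by omega, by omega, by omega⟩, ?_, ?_, ?_, ?_⟩
      · intro _ h2n
        rcases lt_or_ge q n with hqn | hqn
        · have := h.low q hqn
          omega
        · omega
      · intro hn
        rw [hp', hq'] at hn
        rw [hp']
        have hcc := c hn
        have hup := h.upper (n - (p + 1)) (p + 1) (by omega)
        rw [hc]
        omega
      · intro _
        rw [hp', hp'']
        rw [hc] at hrec hrec2 ⊢
        omega
      · intro _ h3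
        rw [hp', hq']
        exact e' hc

theorem mach_path {n : ℕ} {z : ℕ → ℕ} (h : Zw n z) : Path n (mach z) := by
  refine ⟨rfl, fun t ht => (inv h t ht.le).i4 ht, fun t h1 h2 => (inv h t h2.le).i2 h1 h2, ?_⟩
  have := (inv h (2 * n) le_rfl).i1
  omega

/-- The second recurrence. -/
theorem mach_second {n : ℕ} {z : ℕ → ℕ} (h : Zw n z) {t : ℕ} (ht : t < 2 * n) :
    mach z (t + 1) ≤ t ∧ t - mach z (t + 1) + 1 ≤ n ∧ mach z t + 1 ≤ n ∧ t - mach z t ≤ n ∧
      mach z t ≤ t ∧ z (t - mach z (t + 1)) + z (mach z t) = mach z t := by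
  obtain ⟨⟨a1, a2, a3⟩, b, c, d, e⟩ := inv h t ht.le
  have hrec : mach z (t + 1) = z (mach z t) + z (t - mach z t) := rfl
  have d' := d ht
  have e' := e ht
  have hpos := h.pos
  have hlast := h.last
  generalize hp : mach z t = p at *
  generalize hp' : mach z (t + 1) = p' at *
  have hpn : p < n := by
    rcases Nat.eq_zero_or_pos t with h0 | h0
    · omega
    · have := b h0 (by omega); omega
  rcases d' with hc | hc
  · have hqn : t - p < n := by
      by_contra hcon
      have hqn : t - p = n := by omega
      have := c hqn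
      rw [hqn] at hrec
      omega
    refine ⟨by omega, by omega, by omega, by omega, by omega, ?_⟩
    rw [hc] at hrec ⊢
    omega
  · obtain ⟨h1, h2⟩ := e' hc
    refine ⟨by omega, by omega, by omega, by omega, by omega, ?_⟩
    rw [show t - p' = t - p - 1 by omega]
    omega

end Pool.Agent.X1.TwoPointer
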