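import Mathlib

/-! Power sums over the residues prime to `q`. -/

set_option autoImplicit false

namespace Pool.Agent.X1.Mos

open Finset

/-- `x ^ m` if `q ∤ x`, and `0` otherwise -/
def term (q m : ℕ) (x : ℕ) : ℤ := if q ∣ x then 0 else (x : ℤ) ^ m

/-- the sum of `x ^ m` over `x < N` prime to `q` -/
def S (q N m : ℕ) : ℤ := ∑ x ∈ range N, term q m x

lemma term_shift (q m Q x : ℕ) (hQ : q ∣ Q) (T : ℕ) (hm : Even m) (m' : ℕ) (hm' : m = 2 * m')
    (h1 : 1 ≤ m') : ∃ c : ℤ, term q m (Q * T + x) =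
      term q m x + 2 * m' * Q * T * term q (m - 1) x + (Q : ℤ) ^ 2 * c := by
  have hd : q ∣ Q * T + x ↔ q ∣ x := (Nat.dvd_add_right (hQ.mul_right T))
  by_cases h : q ∣ x
  · refine ⟨0, ?_⟩
    have h2 : q ∣ Q * T + x := hd.2 h
    simp [term, h, h2]
  · have h2 : ¬ q ∣ Q * T + x := fun h' => h (hd.1 h')
    obtain ⟨c, hc⟩ := Polynomial.powAddExpansion (x : ℤ) ((Q : ℤ) * T) m
    refine ⟨c * T ^ 2, ?_⟩
    simp only [term, h, h2, if_false]
    push_cast
    rw [add_comm ((Q : ℤ) * T) x, hc, hm']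
    push_cast
    ring

lemma block (q m Q : ℕ) (hQ : q ∣ Q) (m' : ℕ) (hm' : m = 2 * m') (h1 : 1 ≤ m') (T : ℕ) :
    ∃ c : ℤ, ∑ x ∈ range Q, term q m (Q * T + x) =
      S q Q m + 2 * m' * Q * T * S q Q (m - 1) + (Q : ℤ) ^ 2 * c := by
  have h := fun x => term_shift q m Q x hQ T ⟨m', by omega⟩ m' hm' h1
  choose c hc using h
  refine ⟨∑ x ∈ range Q, c x, ?_⟩
  rw [sum_congr rfl (fun x _ => hc x), sum_add_distrib, sum_add_distrib, ← mul_sum, ← mul_sum]
  rfl

lemma long (q m Q : ℕ) (hQ : q ∣ Q) (m' : ℕ) (hm' : m = 2 * m') (h1 : 1 ≤ m') (T : ℕ) :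
    ∃ c : ℤ, S q (Q * T) m =
      T * S q Q m + m' * Q * (T * (T - 1)) * S q Q (m - 1) + (Q : ℤ) ^ 2 * c := by
  induction T with
  | zero => exact ⟨0, by simp [S]⟩
  | succ T ih =>
    obtain ⟨c, hc⟩ := ih
    obtain ⟨d, hd⟩ := block q m Q hQ m' hm' h1 T
    refine ⟨c + d, ?_⟩
    have h2 : S q (Q * (T + 1)) m = S q (Q * T) m + ∑ x ∈ range Q, term q m (Q * T + x) := by
      unfold S
      rw [mul_add, mul_one, sum_range_add]
    rw [h2, hc, hd]
    push_cast
    ring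

lemma step (q e m : ℕ) (he : 1 ≤ e) (hm : Even m) (h0 : 1 ≤ m) :
    (q : ℤ) ^ (e + 1) ∣ S q (q ^ (e + 1)) m - q * S q (q ^ e) m := by
  obtain ⟨m', hm'⟩ := hm
  obtain ⟨c, hc⟩ := long q m (q ^ e) (dvd_pow_self q (by omega)) m' (by omega) (by omega) q
  rw [pow_succ q e, hc]
  have h1 : (q : ℤ) ^ (e + 1) ∣ ((q ^ e : ℕ) : ℤ) ^ 2 := by
    push_cast
    rw [← pow_mul]
    exact pow_dvd_pow _ (by omega)
  have h2 : (q : ℤ) ^ (e + 1) ∣ m' * ((q ^ e : ℕ) : ℤ) * (q * (q - 1)) := by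
    push_cast
    exact ⟨m' * (q - 1), by ring⟩
  have h3 : (q : ℤ) * S q (q ^ e) m + m' * ((q ^ e : ℕ) : ℤ) * (q * (q - 1)) * S q (q ^ e) (m - 1) +
      ((q ^ e : ℕ) : ℤ) ^ 2 * c - q * S q (q ^ e) m =
      m' * ((q ^ e : ℕ) : ℤ) * (q * (q - 1)) * S q (q ^ e) (m - 1) +
      ((q ^ e : ℕ) : ℤ) ^ 2 * c := by ring
  rw [h3]
  exact dvd_add (h2.mul_right _) (h1.mul_right _)

lemma base (q m : ℕ) (hq : q.Prime) (h : q - 1 ∣ m) : ¬ (q : ℤ) ∣ S q q m := by
  intro hd
  have h1 : ((S q q m : ℤ) : ZMod q) = 0 := (ZMod.intCast_zmod_eq_zero_iff_dvd _ _).2 hd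
  have : Fact q.Prime := ⟨hq⟩
  obtain ⟨l, rfl⟩ := h
  have h2 : ∀ x ∈ range q, ((term q ((q - 1) * l) x : ℤ) : ZMod q) = if x = 0 then 0 else 1 := by
    intro x hx
    rw [mem_range] at hx
    by_cases hx0 : x = 0
    · simp [term, hx0]
    · have h3 : ¬ q ∣ x := fun h' => by
        have := Nat.le_of_dvd (by omega) h'
        omega
      have h4 : (x : ZMod q) ≠ 0 := by
        intro h5
        exact h3 ((ZMod.natCast_eq_zero_iff _ _).1 h5)
      simp only [term, h3, if_false, hx0]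
      push_cast
      rw [pow_mul, ZMod.pow_card_sub_one_eq_one h4, one_pow]
  have h5 : ((S q q ((q - 1) * l) : ℤ) : ZMod q) = -1 := by
    unfold S
    rw [Int.cast_sum, sum_congr rfl h2, sum_ite, sum_const_zero, zero_add, sum_const]
    have h6 : ((range q).filter (fun x => ¬ x = 0)).card = q - 1 := by
      have h7 : (range q).filter (fun x => ¬ x = 0) = (range q).erase 0 := by
        ext x
        simp only [mem_filter, mem_erase, mem_range]
        tauto
      rw [h7, card_erase_of_mem (mem_range.2 hq.pos), card_range]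
    rw [h6]
    have h8 := hq.one_le
    simp [Nat.cast_sub h8]
  rw [h5] at h1
  exact (neg_ne_zero.2 one_ne_zero) h1

/-- For even `m` divisible by `q - 1` the sum over the residues prime to `q` modulo `q ^ e` is not
divisible by `q ^ e`. -/
lemma not_dvd_S (q m : ℕ) (hq : q.Prime) (h : q - 1 ∣ m) (hm : Even m) (h0 : 1 ≤ m) (e : ℕ)
    (he : 1 ≤ e) : ¬ (q : ℤ) ^ e ∣ S q (q ^ e) m := by
  induction e, he using Nat.le_induction with
  | base => simpa using base q m hq h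
  | succ e he ih =>
    intro hd
    apply ih
    have h1 := step q e m he hm h0
    have h2 : (q : ℤ) ^ (e + 1) ∣ q * S q (q ^ e) m := by
      have := dvd_sub hd h1
      simpa using this
    rw [pow_succ, mul_comm] at h2
    exact Int.dvd_of_mul_dvd_mul_left (by exact_mod_cast hq.ne_zero) h2

/-- Reflection for odd exponents and `q = 2`. -/
lemma odd_S (N m : ℕ) (hN : 2 ∣ N) (hm : Odd m) :
    (N : ℤ) ^ 2 ∣ 2 * S 2 N m - N * m * S 2 N (m - 1) := by
  have h1 : S 2 N m = ∑ x ∈ range (N + 1), term 2 m x := by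
    rw [sum_range_succ]
    simp [term, hN, S]
  have h1' : S 2 N (m - 1) = ∑ x ∈ range (N + 1), term 2 (m - 1) x := by
    rw [sum_range_succ]
    simp [term, hN, S]
  have h2 : ∑ x ∈ range (N + 1), term 2 m x = ∑ x ∈ range (N + 1), term 2 m (N - x) := by
    rw [← sum_range_reflect]
    apply sum_congr rfl
    intro x hx
    simp
  have h3 : ∀ x ∈ range (N + 1), ∃ c : ℤ, term 2 m x + term 2 m (N - x) =
      N * m * term 2 (m - 1) x + (N : ℤ) ^ 2 * c := by
    intro x hx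
    rw [mem_range] at hx
    have hx' : x ≤ N := by omega
    by_cases h : 2 ∣ x
    · have h' : 2 ∣ N - x := Nat.dvd_sub hN h
      exact ⟨0, by simp [term, h, h']⟩
    · have h' : ¬ 2 ∣ N - x := by omega
      obtain ⟨c, hc⟩ := Polynomial.powAddExpansion (-(x : ℤ)) (N : ℤ) m
      refine ⟨c, ?_⟩
      simp only [term, h, h', if_false]
      have hodd : (-(x : ℤ)) ^ m = - (x : ℤ) ^ m := hm.neg_pow _
      have heven : (-(x : ℤ)) ^ (m - 1) = (x : ℤ) ^ (m - 1) := by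
        apply Even.neg_pow
        obtain ⟨t, ht⟩ := hm
        exact ⟨t, by omega⟩
      rw [Nat.cast_sub hx', sub_eq_add_neg, add_comm (N : ℤ), hc, hodd, heven]
      ring
  choose! c hc using h3
  have h4 : 2 * S 2 N m = ∑ x ∈ range (N + 1), (term 2 m x + term 2 m (N - x)) := by
    rw [sum_add_distrib, ← h2, ← h1]
    ring
  rw [h4, sum_congr rfl hc, sum_add_distrib, ← mul_sum, ← mul_sum, ← h1']
  exact ⟨∑ x ∈ range (N + 1), c x, by ring⟩

end Pool.Agent.X1.Mos
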