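import Pool.Agent.X1.Mos9

/-! The largest root for `s ≡ 2` modulo `4`: second order and assembly. -/

set_option autoImplicit false

namespace Pool.Agent.X1.Mos

open Finset Nat Filter Topology

lemma p_lt2 (p : ℕ) (hp : 4 ≤ p) : (p : ℝ) / (3 * 2 ^ (p - 3)) < 1 := by
  rw [div_lt_one (by positivity)]
  have : ∀ m : ℕ, m + 4 < 3 * 2 ^ (m + 1) := by
    intro m
    induction m with
    | zero => norm_num
    | succ m ih => rw [pow_succ]; omega
  have h := this (p - 4)
  have h1 : p - 4 + 4 = p := by omega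
  have h2 : p - 4 + 1 = p - 3 := by omega
  rw [h1, h2] at h
  exact_mod_cast h

lemma ratio_lim2 (β : ℝ) (hβ : 0 < β) (p : ℕ) (hp : 4 ≤ p) :
    Tendsto (fun k : ℕ => (p : ℝ) ^ k / (3 ^ k * (β * 2 ^ k) ^ (p - 3))) atTop (𝓝 0) := by
  have h1 : ∀ k : ℕ, (p : ℝ) ^ k / (3 ^ k * (β * 2 ^ k) ^ (p - 3)) =
      (β ^ (p - 3))⁻¹ * ((p : ℝ) / (3 * 2 ^ (p - 3))) ^ k := by
    intro k
    rw [mul_pow, div_pow, mul_pow, ← pow_mul, ← pow_mul, mul_comm k (p - 3)]
    field_simp
  simp_rw [h1]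
  have h2 := tendsto_pow_atTop_nhds_zero_of_lt_one (r := (p : ℝ) / (3 * 2 ^ (p - 3)))
    (by positivity) (p_lt2 p hp)
  simpa using h2.const_mul ((β ^ (p - 3))⁻¹)

/-- second order, `r = t + 2` -/
lemma second (t : ℕ) :
    ∀ᶠ k : ℕ in atTop, ∑ j ∈ range (t + 2 + 1), (-1) ^ (t + 2 - j) *
      (((t + 2 : ℕ) : ℝ) + 1 - j) ^ k *
      (D j (((t + 2 : ℕ) : ℝ) * 2 ^ k) / (j ! : ℝ)) ≠ 0 := by
  obtain ⟨β, hβe⟩ : ∃ β : ℝ, β = ((t + 2 : ℕ) : ℝ) := ⟨_, rfl⟩
  have hβ : 0 < β := by rw [hβe]; positivity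
  rw [← hβe]
  have hlim1 : Tendsto (fun k : ℕ => ∑ j ∈ range (t + 1), ((-1) ^ (t + 2 - j) / (j ! : ℝ)) *
      ((β + 1 - j) ^ k / (3 ^ k * (β * 2 ^ k) ^ (t - j))) *
        (D j (β * 2 ^ k) / (β * 2 ^ k) ^ j)) atTop
      (𝓝 (∑ j ∈ range (t + 1), ((-1) ^ (t + 2 - j) / (j ! : ℝ)) *
        (if j = t then 1 else 0) * 1)) := by
    apply tendsto_finsetSum
    intro j hj
    rw [mem_range] at hj
    apply Tendsto.mul _ (D_lim j _ (y_lim β hβ))
    apply Tendsto.const_mul
    by_cases h1 : j = t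
    · rw [if_pos h1, h1]
      have : ∀ k : ℕ, (β + 1 - t) ^ k / (3 ^ k * (β * 2 ^ k) ^ (t - t)) = 1 := by
        intro k
        have h3 : β + 1 - t = 3 := by rw [hβe]; push_cast; ring
        rw [Nat.sub_self, pow_zero, mul_one, h3]
        exact div_self (by positivity)
      simp_rw [this]
      exact tendsto_const_nhds
    · rw [if_neg h1]
      have h3 := ratio_lim2 β hβ (t + 3 - j) (by omega)
      have h4 : t + 3 - j - 3 = t - j := by omega
      have h5 : ((t + 3 - j : ℕ) : ℝ) = β + 1 - j := by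
        rw [Nat.cast_sub (by omega), hβe]
        push_cast
        ring
      rw [h4, h5] at h3
      exact h3
  have hval : (∑ j ∈ range (t + 1), ((-1) ^ (t + 2 - j) / (j ! : ℝ)) *
        (if j = t then 1 else 0) * 1) = 1 / (t ! : ℝ) := by
    rw [sum_range_succ, sum_eq_zero]
    · have h1 : t + 2 - t = 2 := by omega
      rw [if_pos rfl, h1]
      ring
    · intro j hj
      rw [mem_range] at hj
      rw [if_neg (by omega)]
      ring
  rw [hval] at hlim1
  have hlim2 : Tendsto (fun k : ℕ => -((t + 1 : ℝ) / (β * ((t + 1)! : ℝ))) *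
      (D (t + 1) (β * 2 ^ k) / (β * 2 ^ k) ^ (t + 1)) * (β * ((2 : ℝ) / 3) ^ k)) atTop
      (𝓝 (-((t + 1 : ℝ) / (β * ((t + 1)! : ℝ))) * 1 * (β * 0))) := by
    apply Tendsto.mul (Tendsto.const_mul _ (D_lim (t + 1) _ (y_lim β hβ)))
    exact Tendsto.const_mul _ (tendsto_pow_atTop_nhds_zero_of_lt_one (by norm_num) (by norm_num))
  have hlim := hlim1.add hlim2
  have hL : 1 / (t ! : ℝ) + -((t + 1 : ℝ) / (β * ((t + 1)! : ℝ))) * 1 * (β * 0) ≠ 0 := by
    have : (t ! : ℝ) ≠ 0 := by positivity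
    simp [this]
  filter_upwards [hlim.eventually_ne hL] with k hk h0
  apply hk
  have hpos : (0 : ℝ) < β * 2 ^ k := by positivity
  rw [sum_range_succ, sum_range_succ] at h0
  have hDt : D (t + 2) (β * 2 ^ k) = D (t + 1) (β * 2 ^ k) * (β * 2 ^ k - ((t + 1 : ℕ) : ℝ)) := by
    unfold D
    rw [prod_range_succ]
  have hfac : ((t + 2)! : ℝ) = β * ((t + 1)! : ℝ) := by
    rw [hβe]
    exact_mod_cast Nat.factorial_succ (t + 1)
  have e1 : t + 2 - (t + 1) = 1 := by omega
  have e2 : β + 1 - ((t + 1 : ℕ) : ℝ) = 2 := by rw [hβe]; push_cast; ring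
  have e3 : β + 1 - ((t + 2 : ℕ) : ℝ) = 1 := by rw [hβe]; ring
  have hf1 : ((t + 1)! : ℝ) ≠ 0 := by positivity
  have hbr : (-1) ^ (t + 2 - (t + 1)) * (β + 1 - ((t + 1 : ℕ) : ℝ)) ^ k *
      (D (t + 1) (β * 2 ^ k) / ((t + 1)! : ℝ)) +
      (-1) ^ (t + 2 - (t + 2)) * (β + 1 - ((t + 2 : ℕ) : ℝ)) ^ k *
      (D (t + 2) (β * 2 ^ k) / ((t + 2)! : ℝ)) =
      -((t + 1 : ℝ) / (β * ((t + 1)! : ℝ))) * D (t + 1) (β * 2 ^ k) := by
    rw [e1, e2, e3, Nat.sub_self, hDt, hfac, one_pow]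
    push_cast
    field_simp
    ring
  rw [add_assoc, hbr] at h0
  have h5 : ∑ j ∈ range (t + 1), ((-1) ^ (t + 2 - j) / (j ! : ℝ)) *
      ((β + 1 - j) ^ k / (3 ^ k * (β * 2 ^ k) ^ (t - j))) * (D j (β * 2 ^ k) / (β * 2 ^ k) ^ j) =
      (∑ j ∈ range (t + 1), (-1) ^ (t + 2 - j) * (β + 1 - j) ^ k *
      (D j (β * 2 ^ k) / (j ! : ℝ))) / (3 ^ k * (β * 2 ^ k) ^ t) := by
    rw [sum_div]
    apply sum_congr rfl
    intro j hj
    rw [mem_range] at hj
    have h6 : (β * 2 ^ k) ^ t = (β * 2 ^ k) ^ (t - j) * (β * 2 ^ k) ^ j := by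
      rw [← pow_add]
      congr 1
      omega
    rw [h6]
    field_simp
  have h7 : -((t + 1 : ℝ) / (β * ((t + 1)! : ℝ))) *
      (D (t + 1) (β * 2 ^ k) / (β * 2 ^ k) ^ (t + 1)) * (β * ((2 : ℝ) / 3) ^ k) =
      (-((t + 1 : ℝ) / (β * ((t + 1)! : ℝ))) * D (t + 1) (β * 2 ^ k)) /
        (3 ^ k * (β * 2 ^ k) ^ t) := by
    rw [pow_succ (β * 2 ^ k) t, div_pow]
    field_simp
  rw [h5, h7, ← add_div, h0, zero_div]

/-- The root near `r 2 ^ (k-1)` is no integer multiple of `2 ^ (k-1-M)`. -/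
lemma asym (r : ℕ) (hr : 2 ≤ r) (M w : ℕ) (hw : 1 ≤ w) :
    ∀ᶠ k : ℕ in atTop, ∀ n : ℕ, 2 ^ M * n = 2 ^ k * w → f r (k + 1) n ≠ 0 := by
  obtain ⟨β, hβe⟩ : ∃ β : ℝ, β = (w : ℝ) / 2 ^ M := ⟨_, rfl⟩
  have hβ : 0 < β := by
    rw [hβe]
    have : (0 : ℝ) < w := by exact_mod_cast hw
    positivity
  have hn : ∀ k n : ℕ, 2 ^ M * n = 2 ^ k * w → (n : ℝ) = β * 2 ^ k := by
    intro k n h
    have h1 : (2 : ℝ) ^ M * n = 2 ^ k * w := by exact_mod_cast h
    rw [hβe]
    field_simp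
    linarith
  by_cases hne : β = r
  · obtain ⟨t, rfl⟩ : ∃ t, r = t + 2 := ⟨r - 2, by omega⟩
    filter_upwards [second t] with k hk n h h0
    apply hk
    have h1 := f_real (t + 2) (k + 1) n
    rw [h0, Nat.add_sub_cancel, hn k n h, hne] at h1
    rw [← h1]
    simp
  · filter_upwards [first r hr β hβ hne] with k hk n h h0
    apply hk
    have h1 := f_real r (k + 1) n
    rw [h0, Nat.add_sub_cancel, hn k n h] at h1
    rw [← h1]
    simp

theorem gen_main2 (r : ℕ) (hr : 3 ≤ r) :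
    ∃ K : ℕ, ∀ k : ℕ, K ≤ k →
      (∀ q : ℕ, q.Prime → q ∣ r + 1 →
        ¬ (q : ℤ) ^ (2 * (r + 1).factorization q + (r !).factorization q) ∣ B r k) →
      ∀ n : ℕ, f r k n ≠ 0 := by
  have hfac := Nat.factorial_pos r
  obtain ⟨E, hE⟩ : ∃ E, E = 2 * (r + 1) + 2 * r ! := ⟨_, rfl⟩
  obtain ⟨N0, hN0⟩ : ∃ N0, N0 = r ! * (r + 1) ^ E := ⟨_, rfl⟩
  obtain ⟨Z, hZ⟩ : ∃ Z, Z = (r + 1) ^ E * (2 ^ (r + 1) * (r ! * r)) := ⟨_, rfl⟩
  obtain ⟨M2, hM2⟩ : ∃ M2, M2 = 2 * (r + 1).factorization 2 + (r !).factorization 2 := ⟨_, rfl⟩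
  obtain ⟨W, hW⟩ : ∃ W, W = 2 ^ M2 * (2 ^ (r + 1) * (r ! * r)) := ⟨_, rfl⟩
  have hasym : ∀ᶠ k : ℕ in atTop, ∀ w ∈ Finset.Icc 1 W, ∀ n : ℕ, 2 ^ M2 * n = 2 ^ k * w →
      f r (k + 1) n ≠ 0 := by
    rw [Filter.eventually_all_finset]
    intro w hw
    exact asym r (by omega) M2 w (Finset.mem_Icc.1 hw).1
  obtain ⟨K0, hK0⟩ := Filter.eventually_atTop.1 hasym
  refine ⟨r * (r * 2 ^ N0) + 2 * Z + 1 + K0, ?_⟩
  intro k hk hB n h0
  have hsmall : N0 < n := by
    by_contra hcon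
    rw [not_lt] at hcon
    refine small r k n ?_ h0
    calc r * (r ^ (k - 1) * 2 ^ n) ≤ r * (r ^ (k - 1) * 2 ^ N0) :=
          Nat.mul_le_mul_left _ (Nat.mul_le_mul_left _ (Nat.pow_le_pow_right (by norm_num) hcon))
      _ = r ^ (k - 1) * (r * 2 ^ N0) := by ring
      _ < (r + 1) ^ (k - 1) := bern r _ _ (by omega) (by omega)
  obtain ⟨N, rfl⟩ : ∃ N, n = N + 1 := ⟨n - 1, by omega⟩
  have hlarge : N + 1 < 2 ^ (k + r) * (r ! * r) := by
    by_contra hcon
    rw [not_lt] at hcon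
    exact large r k (N + 1) (by omega) (by omega) hcon h0
  have hval : ∀ q : ℕ, q.Prime → q ∣ r + 1 →
      (N + 1).factorization q ≤ 2 * (r + 1).factorization q + (r !).factorization q +
        (r !).factorization q := by
    intro q hq hqr
    have h1 : r + 1 = q ^ (r + 1).factorization q * ((r + 1) / q ^ (r + 1).factorization q) :=
      (Nat.ordProj_mul_ordCompl_eq_self (r + 1) q).symm
    have h2 : N + 1 = q ^ (N + 1).factorization q * ((N + 1) / q ^ (N + 1).factorization q) :=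
      (Nat.ordProj_mul_ordCompl_eq_self (N + 1) q).symm
    have h3 : ¬ q ∣ (N + 1) / q ^ (N + 1).factorization q :=
      Nat.not_dvd_ordCompl hq (Nat.succ_ne_zero N)
    have h3' : ¬ q ∣ (r + 1) / q ^ (r + 1).factorization q :=
      Nat.not_dvd_ordCompl hq (Nat.succ_ne_zero r)
    have he1 : 1 ≤ (r + 1).factorization q :=
      (hq.dvd_iff_one_le_factorization (Nat.succ_ne_zero r)).1 hqr
    rcases main' q r _ _ _ k _ N _ _ hq h1 (Nat.ordProj_dvd (r !) q)
      (Nat.pow_succ_factorization_not_dvd hfac.ne' hq) (hB q hq hqr) h0 h3 h2 with h | h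
    · exact h
    · exfalso
      by_cases h5 : 3 ≤ q ^ (r + 1).factorization q
      · have hM : 2 * (r + 1).factorization q + (r !).factorization q ≤ E := by
          have h6 := Nat.factorization_lt q (Nat.succ_ne_zero r)
          have h7 := Nat.factorization_lt q hfac.ne'
          rw [Nat.succ_eq_add_one] at h6
          omega
        have h6 : 3 ^ (k - 1) ≤ 2 ^ (k - 1) * Z := by
          calc 3 ^ (k - 1) ≤ (q ^ (r + 1).factorization q) ^ (k - 1) := Nat.pow_le_pow_left h5 _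
            _ = q ^ ((r + 1).factorization q * (k - 1)) := by rw [← pow_mul]
            _ ≤ q ^ ((N + 1).factorization q +
                (2 * (r + 1).factorization q + (r !).factorization q)) :=
                Nat.pow_le_pow_right hq.pos h
            _ = q ^ (N + 1).factorization q *
                q ^ (2 * (r + 1).factorization q + (r !).factorization q) := pow_add _ _ _
            _ ≤ (N + 1) * (r + 1) ^ E := by
                apply Nat.mul_le_mul
                · exact Nat.ordProj_le q (Nat.succ_ne_zero N)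
                · calc q ^ (2 * (r + 1).factorization q + (r !).factorization q) ≤
                      (r + 1) ^ (2 * (r + 1).factorization q + (r !).factorization q) :=
                        Nat.pow_le_pow_left (Nat.le_of_dvd (Nat.succ_pos r) hqr) _
                    _ ≤ _ := Nat.pow_le_pow_right (Nat.succ_pos r) hM
            _ ≤ (2 ^ (k + r) * (r ! * r)) * (r + 1) ^ E := Nat.mul_le_mul_right _ hlarge.le
            _ = 2 ^ (k - 1) * Z := by
                rw [hZ]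
                have : k + r = (k - 1) + (r + 1) := by omega
                rw [this, pow_add]
                ring
        have h7 : 2 ^ (k - 1) * Z < (2 + 1) ^ (k - 1) := bern 2 Z (k - 1) (by norm_num) (by omega)
        have h8 : (2 + 1) ^ (k - 1) = 3 ^ (k - 1) := rfl
        omega
      · have h6 : q = 2 := by
          rcases Nat.lt_or_ge 2 q with h6 | h6
          · exfalso
            apply h5
            calc 3 ≤ q := h6
              _ = q ^ 1 := (pow_one q).symm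
              _ ≤ _ := Nat.pow_le_pow_right hq.pos he1
          · exact le_antisymm h6 hq.two_le
        subst h6
        have h7 : k - 1 ≤ (N + 1).factorization 2 + M2 := by
          rw [hM2]
          calc k - 1 = 1 * (k - 1) := (one_mul _).symm
            _ ≤ (r + 1).factorization 2 * (k - 1) := Nat.mul_le_mul_right _ he1
            _ ≤ _ := h
        obtain ⟨d, hd⟩ : ∃ d, (N + 1).factorization 2 + M2 = (k - 1) + d :=
          ⟨(N + 1).factorization 2 + M2 - (k - 1), by omega⟩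
        obtain ⟨n', hn'⟩ : ∃ n', n' = (N + 1) / 2 ^ (N + 1).factorization 2 := ⟨_, rfl⟩
        rw [← hn'] at h2 h3
        have hn'1 : 1 ≤ n' := by
          rcases Nat.eq_zero_or_pos n' with h8 | h8
          · rw [h8] at h3
            exact absurd (dvd_zero 2) h3
          · exact h8
        have h8 : 2 ^ M2 * (N + 1) = 2 ^ (k - 1) * (2 ^ d * n') := by
          calc 2 ^ M2 * (N + 1) = 2 ^ M2 * (2 ^ (N + 1).factorization 2 * n') := by rw [← h2]
            _ = 2 ^ ((N + 1).factorization 2 + M2) * n' := by rw [pow_add]; ring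
            _ = _ := by rw [hd, pow_add]; ring
        have h9 : 2 ^ d * n' ≤ W := by
          have h10 : 2 ^ (k - 1) * (2 ^ d * n') ≤ 2 ^ (k - 1) * W := by
            rw [← h8, hW]
            calc 2 ^ M2 * (N + 1) ≤ 2 ^ M2 * (2 ^ (k + r) * (r ! * r)) :=
                  Nat.mul_le_mul_left _ hlarge.le
              _ = _ := by
                have : k + r = (k - 1) + (r + 1) := by omega
                rw [this, pow_add]
                ring
          exact Nat.le_of_mul_le_mul_left h10 (by positivity)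
        have h10 : 1 ≤ 2 ^ d * n' := Nat.mul_pos (by positivity) hn'1
        have h11 := hK0 (k - 1) (by omega) (2 ^ d * n') (Finset.mem_Icc.2 ⟨h10, h9⟩) (N + 1) h8
        have h12 : k - 1 + 1 = k := by omega
        rw [h12] at h11
        exact h11 h0
  have hN1 : N + 1 ≠ 0 := by omega
  have hr1 : r + 1 ≠ 0 := by omega
  have hdvd : N + 1 ∣ r ! * (r + 1) ^ E := by
    rw [← Nat.factorization_prime_le_iff_dvd hN1
      (Nat.mul_ne_zero hfac.ne' (pow_ne_zero _ hr1))]
    intro p hp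
    rw [Nat.factorization_mul hfac.ne' (pow_ne_zero _ hr1),
      Nat.factorization_pow]
    simp only [Finsupp.coe_add, Finsupp.coe_smul, Pi.add_apply, Pi.smul_apply, smul_eq_mul]
    by_cases hpr : p ∣ r + 1
    · have h1 := hval p hp hpr
      have he1 : 1 ≤ (r + 1).factorization p :=
        (hp.dvd_iff_one_le_factorization hr1).1 hpr
      have h6 := Nat.factorization_lt p hr1
      have h7 := Nat.factorization_lt p hfac.ne'
      have h8 : E ≤ E * (r + 1).factorization p := Nat.le_mul_of_pos_right _ he1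
      omega
    · have h1 := root_dvd r k N h0
      have h2 := (Nat.factorization_prime_le_iff_dvd hN1
        (Nat.mul_ne_zero hfac.ne' (pow_ne_zero _ hr1))).2 h1 p hp
      rw [Nat.factorization_mul hfac.ne' (pow_ne_zero _ hr1),
        Nat.factorization_pow] at h2
      simp only [Finsupp.coe_add, Finsupp.coe_smul, Pi.add_apply, Pi.smul_apply, smul_eq_mul] at h2
      have h3 : (r + 1).factorization p = 0 := Nat.factorization_eq_zero_of_not_dvd hpr
      rw [h3, mul_zero, add_zero] at h2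
      omega
  have h9 := Nat.le_of_dvd (by positivity) hdvd
  omega

theorem gen_final2 (s : ℕ) (hs : 4 ≤ s) :
    ∃ K : ℕ, ∀ k : ℕ, K ≤ k →
      ((Even k ∧ ∀ q : ℕ, q.Prime → q ∣ s → q - 1 ∣ k - 2) ∨
        (Odd k ∧ ∀ q : ℕ, q.Prime → q ∣ s → q - 1 ∣ k - 3 ∧ ¬ q ∣ k)) →
      ∀ x : ℤ, F s k x ≠ 0 := by
  obtain ⟨r, rfl⟩ : ∃ r, s = r + 1 := ⟨s - 1, by omega⟩
  have hfac := Nat.factorial_pos r
  obtain ⟨K, hK⟩ := gen_main2 r (by omega)
  refine ⟨K + 2 * (r + 1) + r ! + 5, ?_⟩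
  intro k hk hcl
  apply F_ne
  apply hK k (by omega)
  intro q hq hqr
  have h1 : r + 1 = q ^ (r + 1).factorization q * ((r + 1) / q ^ (r + 1).factorization q) :=
    (Nat.ordProj_mul_ordCompl_eq_self (r + 1) q).symm
  have h3' : ¬ q ∣ (r + 1) / q ^ (r + 1).factorization q :=
    Nat.not_dvd_ordCompl hq (Nat.succ_ne_zero r)
  have he1 : 1 ≤ (r + 1).factorization q :=
    (hq.dvd_iff_one_le_factorization (Nat.succ_ne_zero r)).1 hqr
  have h6 := Nat.factorization_lt q (Nat.succ_ne_zero r)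
  have h7 := Nat.factorization_lt q hfac.ne'
  rw [Nat.succ_eq_add_one] at h6
  rcases hcl with ⟨hev, hc⟩ | ⟨hodd, hc⟩
  · intro hd
    refine B_even' q r _ _ _ k hq h1 he1 h3' (Nat.ordProj_dvd (r !) q)
      (Nat.pow_succ_factorization_not_dvd hfac.ne' hq) (by omega) hev (hc q hq hqr) ?_
    exact (pow_dvd_pow _ (by omega)).trans hd
  · exact B_odd' q r _ _ _ k hq h1 he1 h3' (Nat.ordProj_dvd (r !) q)
      (Nat.pow_succ_factorization_not_dvd hfac.ne' hq) (by omega) hodd (hc q hq hqr).1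
      (hc q hq hqr).2

end Pool.Agent.X1.Mos
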