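import Pool.Agent.X1.Mos8

/-! An explicit bound for `s = 2 ^ e`. -/

set_option autoImplicit false

namespace Pool.Agent.X1.Mos

open Finset Nat

/-- small arguments are not roots -/
lemma small2 (r k n : ℕ) (hn : 1 ≤ n) (h : r * (r ^ (k - 1) * n ^ r) < (r + 1) ^ (k - 1)) :
    f r k n ≠ 0 := by
  intro h0
  rw [f_split] at h0
  have habs : |∑ i ∈ range r, (-1) ^ (r - 1 - i) * ((r : ℤ) - i) ^ (k - 1) *
      (n.choose (i + 1) : ℤ)| ≤ ((r * (r ^ (k - 1) * n ^ r) : ℕ) : ℤ) := by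
    refine (abs_sum_le_sum_abs _ _).trans ?_
    have h2 : ∀ i ∈ range r, |(-1) ^ (r - 1 - i) * ((r : ℤ) - i) ^ (k - 1) *
      (n.choose (i + 1) : ℤ)| ≤ ((r ^ (k - 1) * n ^ r : ℕ) : ℤ) := by
      intro i hi
      rw [mem_range] at hi
      have hi' : (i : ℤ) ≤ r := by exact_mod_cast hi.le
      rw [abs_mul, abs_mul, abs_pow, abs_neg, abs_one, one_pow, one_mul, Nat.abs_cast,
        abs_of_nonneg (by apply pow_nonneg; linarith)]
      push_cast
      apply mul_le_mul
      · apply pow_le_pow_left₀ (by linarith)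
        have : (0 : ℤ) ≤ i := by positivity
        linarith
      · have h3 : n.choose (i + 1) ≤ n ^ r :=
          (Nat.choose_le_pow n (i + 1)).trans (Nat.pow_le_pow_right hn (by omega))
        exact_mod_cast h3
      · positivity
      · positivity
    refine (sum_le_sum h2).trans ?_
    rw [sum_const, card_range, nsmul_eq_mul]
    push_cast
    rfl
  have h1 : |∑ i ∈ range r, (-1) ^ (r - 1 - i) * ((r : ℤ) - i) ^ (k - 1) *
      (n.choose (i + 1) : ℤ)| = (((r + 1) ^ (k - 1) : ℕ) : ℤ) := by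
    rw [show ∑ i ∈ range r, (-1) ^ (r - 1 - i) * ((r : ℤ) - i) ^ (k - 1) *
      (n.choose (i + 1) : ℤ) = -((-1) ^ r * ((r : ℤ) + 1) ^ (k - 1)) by linarith, abs_neg,
      abs_mul, abs_pow, abs_neg, abs_one, one_pow, one_mul]
    push_cast
    exact abs_of_nonneg (by positivity)
  rw [h1] at habs
  have h3 : (r + 1) ^ (k - 1) ≤ r * (r ^ (k - 1) * n ^ r) := by exact_mod_cast habs
  omega

lemma two_le (r : ℕ) (hr : 1 ≤ r) : 2 * r ^ r ≤ (r + 1) ^ r := by
  have h1 : (1 : ℝ) + r * (1 / (r : ℝ)) ≤ (1 + 1 / (r : ℝ)) ^ r :=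
    one_add_mul_le_pow (by
      have : (0 : ℝ) ≤ 1 / (r : ℝ) := by positivity
      linarith) r
  have hr0 : (0 : ℝ) < r := by exact_mod_cast hr
  have h2 : (r : ℝ) * (1 / (r : ℝ)) = 1 := by field_simp
  rw [h2] at h1
  have h3 : ((r : ℝ) + 1) ^ r = (r : ℝ) ^ r * (1 + 1 / (r : ℝ)) ^ r := by
    rw [← mul_pow]
    congr 1
    field_simp
  have h4 : 2 * (r : ℝ) ^ r ≤ ((r : ℝ) + 1) ^ r := by
    rw [h3]
    have : (0 : ℝ) < (r : ℝ) ^ r := by positivity
    nlinarith
  exact_mod_cast h4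

lemma grow (r Q m : ℕ) (hr : 1 ≤ r) (hm : r * (Q + 1) ≤ m) : r ^ m * 2 ^ Q < (r + 1) ^ m := by
  obtain ⟨t, rfl⟩ : ∃ t, m = r * (Q + 1) + t := ⟨m - r * (Q + 1), by omega⟩
  have h1 : 0 < r ^ (r * (Q + 1) + t) := by positivity
  calc r ^ (r * (Q + 1) + t) * 2 ^ Q < r ^ (r * (Q + 1) + t) * 2 ^ (Q + 1) := by
        apply Nat.mul_lt_mul_of_pos_left _ h1
        rw [pow_succ]
        have : 0 < 2 ^ Q := by positivity
        omega
    _ = (2 * r ^ r) ^ (Q + 1) * r ^ t := by
        rw [mul_pow, ← pow_mul, pow_add]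
        ring
    _ ≤ ((r + 1) ^ r) ^ (Q + 1) * (r + 1) ^ t :=
        Nat.mul_le_mul (Nat.pow_le_pow_left (two_le r hr) _) (Nat.pow_le_pow_left (by omega) _)
    _ = (r + 1) ^ (r * (Q + 1) + t) := by rw [← pow_mul, ← pow_add]

theorem explicit_nat (r e : ℕ) (he : 2 ≤ e) (hs : r + 1 = 2 ^ e) (k : ℕ)
    (hk : 2 * e * (r + 1) ^ 3 ≤ k) (n : ℕ) : f r k n ≠ 0 := by
  intro h0
  have h2e : 2 * e ≤ r + 1 := by
    rw [hs]
    have : ∀ m : ℕ, 2 * (m + 2) ≤ 2 ^ (m + 2) := by
      intro m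
      induction m with
      | zero => norm_num
      | succ m ih => rw [show m + 1 + 2 = (m + 2) + 1 by ring, pow_succ]; omega
    have h := this (e - 2)
    rwa [show e - 2 + 2 = e by omega] at h
  have hr3 : 3 ≤ r := by
    have : 2 ^ 2 ≤ 2 ^ e := Nat.pow_le_pow_right (by norm_num) he
    omega
  obtain ⟨v, d, hd, hv⟩ := Nat.exists_eq_pow_mul_and_not_dvd (Nat.factorial_ne_zero r) 2 (by norm_num)
  have hfac := Nat.factorial_pos r
  have hd1 : 1 ≤ d := by
    rcases Nat.eq_zero_or_pos d with h | h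
    · rw [h] at hd
      exact absurd (dvd_zero 2) hd
    · exact h
  have hfle : r ! ≤ 2 ^ (e * r) := by
    calc r ! ≤ r ^ r := Nat.factorial_le_pow r
      _ ≤ (2 ^ e) ^ r := Nat.pow_le_pow_left (by omega) _
      _ = 2 ^ (e * r) := by rw [← pow_mul]
  have h2v : 2 ^ v ≤ r ! := by
    rw [hv]
    exact Nat.le_mul_of_pos_right _ hd1
  have hver : v ≤ e * r := (Nat.pow_le_pow_iff_right (by norm_num)).1 (h2v.trans hfle)
  -- numerical facts
  have hs2 : e * r * 2 ≤ (r + 1) * r := by nlinarith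
  have hq : (r + 1) * (r + 1) * 16 ≤ k := by
    calc (r + 1) * (r + 1) * 16 = (2 * 2) * 4 * ((r + 1) * (r + 1)) := by ring
      _ ≤ (2 * e) * (r + 1) * ((r + 1) * (r + 1)) :=
          Nat.mul_le_mul_right _ (Nat.mul_le_mul (Nat.mul_le_mul_left _ he) (by omega))
      _ = 2 * e * (r + 1) ^ 3 := by ring
      _ ≤ k := hk
  have hP : (r + 1) * r + (r + 1) = (r + 1) * (r + 1) := by ring
  have hP2 : 4 * 4 ≤ (r + 1) * (r + 1) := Nat.mul_le_mul (by omega) (by omega)
  have hk0 : 16 ≤ k := by omega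
  rcases Nat.eq_zero_or_pos n with hn | hn
  · subst hn
    rw [f_split] at h0
    have h1 : ∑ i ∈ range r, (-1) ^ (r - 1 - i) * ((r : ℤ) - i) ^ (k - 1) *
        (Nat.choose 0 (i + 1) : ℤ) = 0 := by
      apply sum_eq_zero
      intro i _
      simp
    rw [h1, zero_add] at h0
    have h2 : ((-1 : ℤ) ^ r * ((r : ℤ) + 1) ^ (k - 1)) ≠ 0 := by
      apply mul_ne_zero (pow_ne_zero _ (by norm_num))
      positivity
    exact h2 h0
  · obtain ⟨N, rfl⟩ : ∃ N, n = N + 1 := ⟨n - 1, by omega⟩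
    obtain ⟨a, n', hn2, hn', hdvd, ha⟩ := cand r e v d k N hs hv hd h0
    have hn'1 : 1 ≤ n' := by
      rcases Nat.eq_zero_or_pos n' with h | h
      · rw [h] at hn'
        exact absurd (dvd_zero 2) hn'
      · exact h
    rcases dich r e v d k N a n' hs (by omega) hv hd (by omega) h0 hn2 hn' with h | h
    · have hnle : N + 1 ≤ 2 ^ (2 * e * (r + 1)) := by
        rw [hn2]
        calc 2 ^ a * n' ≤ 2 ^ (2 * e + v + v) * d :=
              Nat.mul_le_mul (Nat.pow_le_pow_right (by norm_num) h) (Nat.le_of_dvd hd1 hdvd)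
          _ = 2 ^ (2 * e + v) * r ! := by rw [hv, pow_add]; ring
          _ ≤ 2 ^ (2 * e + e * r) * 2 ^ (e * r) :=
              Nat.mul_le_mul (Nat.pow_le_pow_right (by norm_num) (by omega)) hfle
          _ = 2 ^ (2 * e * (r + 1)) := by
              rw [← pow_add]
              congr 1
              ring
      refine small2 r k (N + 1) (by omega) ?_ h0
      have hr2 : r ≤ 2 ^ e := by omega
      calc r * (r ^ (k - 1) * (N + 1) ^ r) ≤
            2 ^ e * (r ^ (k - 1) * (2 ^ (2 * e * (r + 1))) ^ r) :=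
            Nat.mul_le_mul hr2 (Nat.mul_le_mul_left _ (Nat.pow_le_pow_left hnle r))
        _ = r ^ (k - 1) * 2 ^ (e + 2 * e * (r + 1) * r) := by
            rw [← pow_mul, pow_add]
            ring
        _ < (r + 1) ^ (k - 1) := by
            apply grow r _ _ (by omega)
            have h5 : r * (e + 2 * e * (r + 1) * r + 1) + 1 ≤ k := by
              refine le_trans ?_ hk
              have h6 : 2 * e * (r + 1) ^ 3 = r * (e + 2 * e * (r + 1) * r + 1) + 1 +
                  (e * (4 * r ^ 2 + 5 * r + 2) - (r + 1)) := by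
                have h7 : r + 1 ≤ e * (4 * r ^ 2 + 5 * r + 2) := by
                  calc r + 1 ≤ 1 * (4 * r ^ 2 + 5 * r + 2) := by nlinarith
                    _ ≤ _ := Nat.mul_le_mul_right _ (by omega)
                zify [h7]
                ring
              omega
            omega
    · have hlarge : N + 1 < 2 ^ (k + r) * (r ! * r) := by
        by_contra hcon
        rw [not_lt] at hcon
        exact large r k (N + 1) (by omega) (by omega) hcon h0
      have h1 : 2 ^ (2 * (k - 1)) ≤ 2 ^ ((k + r) + e * r + e + (2 * e + e * r)) := by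
        calc 2 ^ (2 * (k - 1)) ≤ 2 ^ (e * (k - 1)) :=
              Nat.pow_le_pow_right (by norm_num) (Nat.mul_le_mul_right _ he)
          _ ≤ 2 ^ (a + (2 * e + v)) := Nat.pow_le_pow_right (by norm_num) h
          _ = 2 ^ a * 2 ^ (2 * e + v) := pow_add _ _ _
          _ ≤ (2 ^ a * n') * 2 ^ (2 * e + e * r) :=
              Nat.mul_le_mul (Nat.le_mul_of_pos_right _ hn'1)
                (Nat.pow_le_pow_right (by norm_num) (by omega))
          _ ≤ (2 ^ (k + r) * (2 ^ (e * r) * 2 ^ e)) * 2 ^ (2 * e + e * r) := by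
              apply Nat.mul_le_mul_right
              rw [← hn2]
              exact hlarge.le.trans (Nat.mul_le_mul_left _ (Nat.mul_le_mul hfle (by omega)))
          _ = _ := by
              rw [← pow_add, ← pow_add, ← pow_add]
              congr 1
              ring
      have h2 := (Nat.pow_le_pow_iff_right (by norm_num)).1 h1
      omega

theorem explicit (e : ℕ) (he : 2 ≤ e) (k : ℕ) (hk : 2 * e * (2 ^ e) ^ 3 ≤ k) (x : ℤ) :
    F (2 ^ e) k x ≠ 0 := by
  obtain ⟨r, hr⟩ : ∃ r, 2 ^ e = r + 1 := ⟨2 ^ e - 1, by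
    have := Nat.one_le_two_pow (n := e)
    omega⟩
  rw [hr] at hk ⊢
  exact F_ne r k (explicit_nat r e he hr.symm k hk) x

end Pool.Agent.X1.Mos
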