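import Pool.Agent.X1.Mos1

/-! The `q`-adic size of the sums `B`. -/

set_option autoImplicit false

namespace Pool.Agent.X1.Mos

open Finset Nat

/-- `r! / (r - t)` -/
def C (r t : ℕ) : ℤ := ((r ! / (r - t) : ℕ) : ℤ)

/-- `∑ p ^ (k-1) r! / (r + 1 - p)` over `1 ≤ p ≤ r` -/
def B (r k : ℕ) : ℤ := ∑ t ∈ range r, ((t : ℤ) + 1) ^ (k - 1) * C r t

lemma C_mul (r t : ℕ) (h : t < r) : ((r : ℤ) - t) * C r t = (r ! : ℤ) := by
  have h1 : (r - t) * (r ! / (r - t)) = r ! :=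
    Nat.mul_div_cancel' (Nat.dvd_factorial (by omega) (by omega))
  unfold C
  rw [← Nat.cast_sub h.le]
  exact_mod_cast h1

lemma C_dvd (r t q e f : ℕ) (hq : q.Prime) (h : t < r) (hs : r + 1 = q ^ e) (he : 1 ≤ e)
    (hf : q ^ f ∣ r !) (ht : ¬ q ∣ t + 1) : (q : ℤ) ^ f ∣ C r t := by
  have h1 : (r - t) * (r ! / (r - t)) = r ! :=
    Nat.mul_div_cancel' (Nat.dvd_factorial (by omega) (by omega))
  have h2 : ¬ q ∣ r - t := by
    intro h3
    have h4 : q ∣ (r - t) + (t + 1) := by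
      have : (r - t) + (t + 1) = q ^ e := by omega
      rw [this]
      exact dvd_pow_self q (by omega)
    exact ht ((Nat.dvd_add_right h3).1 h4)
  have h3 : Nat.Coprime (q ^ f) (r - t) := Nat.Coprime.pow_left f ((Nat.Prime.coprime_iff_not_dvd hq).2 h2)
  have h4 : q ^ f ∣ r ! / (r - t) := h3.dvd_of_dvd_mul_left (by rw [h1]; exact hf)
  unfold C
  exact_mod_cast h4

lemma S_eq (q r e m : ℕ) (hs : r + 1 = q ^ e) : S q (q ^ e) m = ∑ t ∈ range r, term q m (t + 1) := by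
  unfold S
  rw [← hs, sum_range_succ']
  simp [term]

lemma cancel (q r e f : ℕ) (hq : q.Prime) (hf : q ^ f ∣ r !) (hf' : ¬ q ^ (f + 1) ∣ r !) (X : ℤ)
    (h : (q : ℤ) ^ (e + f) ∣ (r ! : ℤ) * X) : (q : ℤ) ^ e ∣ X := by
  obtain ⟨d, hd⟩ := hf
  have hqd : ¬ q ∣ d := by
    rintro ⟨c, hc⟩
    apply hf'
    rw [hd, hc]
    exact ⟨c, by ring⟩
  have h1 : (q : ℤ) ^ f * (q : ℤ) ^ e ∣ (q : ℤ) ^ f * (d * X) := by
    have : (r ! : ℤ) = (q : ℤ) ^ f * d := by exact_mod_cast hd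
    rw [this] at h
    rw [← pow_add, add_comm f e]
    convert h using 1
    ring
  have h2 : (q : ℤ) ^ e ∣ d * X :=
    Int.dvd_of_mul_dvd_mul_left (pow_ne_zero _ (by exact_mod_cast hq.ne_zero)) h1
  have h3 : IsCoprime ((q : ℤ) ^ e) (d : ℤ) := by
    apply IsCoprime.pow_left
    rw [Nat.isCoprime_iff_coprime]
    exact (Nat.Prime.coprime_iff_not_dvd hq).2 hqd
  exact h3.dvd_of_dvd_mul_left h2

/-- first order -/
lemma B_even (q r e f k : ℕ) (hq : q.Prime) (hs : r + 1 = q ^ e) (he : 1 ≤ e)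
    (hf : q ^ f ∣ r !) (hf' : ¬ q ^ (f + 1) ∣ r !) (hk : e + f + 4 ≤ k) (hev : Even k)
    (hc : q - 1 ∣ k - 2) : ¬ (q : ℤ) ^ (e + f) ∣ B r k := by
  intro h
  have h1 : (q : ℤ) ^ (e + f) ∣ B r k + (r ! : ℤ) * S q (q ^ e) (k - 2) := by
    rw [S_eq q r e _ hs, mul_sum]
    unfold B
    rw [← sum_add_distrib]
    apply dvd_sum
    intro t ht
    rw [mem_range] at ht
    by_cases hqt : q ∣ t + 1
    · simp only [term, hqt, if_true, mul_zero, add_zero]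
      apply Dvd.dvd.mul_right
      have h2 : (q : ℤ) ∣ (t : ℤ) + 1 := by exact_mod_cast hqt
      exact (pow_dvd_pow (q : ℤ) (by omega)).trans (pow_dvd_pow_of_dvd h2 (k - 1))
    · simp only [term, hqt, if_false]
      obtain ⟨c, hc⟩ := C_dvd r t q e f hq ht hs he hf hqt
      have h3 := C_mul r t ht
      have h4 : k - 1 = (k - 2) + 1 := by omega
      have h5 : (r : ℤ) + 1 = (q : ℤ) ^ e := by exact_mod_cast hs
      refine ⟨((t : ℤ) + 1) ^ (k - 2) * c, ?_⟩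
      rw [h4, ← h3]
      push_cast
      calc ((t : ℤ) + 1) ^ (k - 2 + 1) * C r t + ((r : ℤ) - t) * C r t * ((t : ℤ) + 1) ^ (k - 2)
          = ((t : ℤ) + 1) ^ (k - 2) * (((r : ℤ) + 1) * C r t) := by ring
        _ = _ := by
          rw [h5, hc]
          ring
  have h2 : (q : ℤ) ^ (e + f) ∣ (r ! : ℤ) * S q (q ^ e) (k - 2) := by
    have := dvd_sub h1 h
    simpa using this
  have h3 := cancel q r e f hq hf hf' _ h2
  exact not_dvd_S q (k - 2) hq hc (by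
    obtain ⟨a, ha⟩ := hev
    exact ⟨a - 1, by omega⟩) (by omega) e he h3

/-- second order, `q = 2` -/
lemma B_odd (r e f k : ℕ) (hs : r + 1 = 2 ^ e) (he : 1 ≤ e)
    (hf : 2 ^ f ∣ r !) (hf' : ¬ 2 ^ (f + 1) ∣ r !) (hk : 2 * e + f + 5 ≤ k) (hodd : Odd k) :
    ¬ (2 : ℤ) ^ (2 * e + f) ∣ B r k := by
  intro h
  have hq := Nat.prime_two
  have h5 : (r : ℤ) + 1 = (2 : ℤ) ^ e := by exact_mod_cast hs
  have h1 : (2 : ℤ) ^ (2 * e + f) ∣
      B r k + (r ! : ℤ) * (2 ^ e * S 2 (2 ^ e) (k - 3) + S 2 (2 ^ e) (k - 2)) := by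
    rw [S_eq 2 r e _ hs, S_eq 2 r e _ hs, mul_sum, ← sum_add_distrib, mul_sum]
    unfold B
    rw [← sum_add_distrib]
    apply dvd_sum
    intro t ht
    rw [mem_range] at ht
    by_cases hqt : 2 ∣ t + 1
    · simp only [term, hqt, if_true, mul_zero, add_zero]
      apply Dvd.dvd.mul_right
      have h2 : (2 : ℤ) ∣ (t : ℤ) + 1 := by exact_mod_cast hqt
      exact (pow_dvd_pow (2 : ℤ) (by omega)).trans (pow_dvd_pow_of_dvd h2 (k - 1))
    · simp only [term, hqt, if_false]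
      obtain ⟨c, hc⟩ := C_dvd r t 2 e f hq ht hs he hf hqt
      have h3 := C_mul r t ht
      have h4 : k - 1 = (k - 3) + 2 := by omega
      have h4' : k - 2 = (k - 3) + 1 := by omega
      refine ⟨((t : ℤ) + 1) ^ (k - 3) * c, ?_⟩
      rw [h4, h4', ← h3, ← h5]
      push_cast at hc ⊢
      calc ((t : ℤ) + 1) ^ (k - 3 + 2) * C r t + ((r : ℤ) - t) * C r t *
            (((r : ℤ) + 1) * ((t : ℤ) + 1) ^ (k - 3) + ((t : ℤ) + 1) ^ (k - 3 + 1))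
          = ((t : ℤ) + 1) ^ (k - 3) * (((r : ℤ) + 1) * ((r : ℤ) + 1) * C r t) := by ring
        _ = _ := by
          rw [h5, hc]
          ring
  have h2 : (2 : ℤ) ^ (2 * e + f) ∣
      (r ! : ℤ) * (2 ^ e * S 2 (2 ^ e) (k - 3) + S 2 (2 ^ e) (k - 2)) := by
    have := dvd_sub h1 h
    simpa using this
  have h3 : ((2 : ℕ) : ℤ) ^ (2 * e) ∣ (2 : ℤ) ^ e * S 2 (2 ^ e) (k - 3) + S 2 (2 ^ e) (k - 2) :=
    cancel 2 r (2 * e) f hq hf hf' _ (by
      have h2' : ((2 : ℕ) : ℤ) ^ (2 * e + f) = (2 : ℤ) ^ (2 * e + f) := by norm_num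
      rw [h2']
      exact h2)
  have h6 := odd_S (2 ^ e) (k - 2) (dvd_pow_self 2 (by omega)) (by
    obtain ⟨a, ha⟩ := hodd
    exact ⟨a - 1, by omega⟩)
  have h7 : k - 2 - 1 = k - 3 := by omega
  rw [h7] at h6
  have h8 : (((2 ^ e : ℕ) : ℤ)) ^ 2 = (2 : ℤ) ^ e * 2 ^ e := by push_cast; ring
  have h9 : ((2 : ℕ) : ℤ) ^ (2 * e) = (2 : ℤ) ^ e * 2 ^ e := by push_cast; ring
  rw [h8] at h6
  rw [h9] at h3
  have h10 := dvd_sub (h3.mul_left 2) h6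
  have h11 : (2 : ℤ) * (2 ^ e * S 2 (2 ^ e) (k - 3) + S 2 (2 ^ e) (k - 2)) -
      (2 * S 2 (2 ^ e) (k - 2) - ((2 ^ e : ℕ) : ℤ) * ((k - 2 : ℕ) : ℤ) * S 2 (2 ^ e) (k - 3)) =
      2 ^ e * (k * S 2 (2 ^ e) (k - 3)) := by
    rw [Nat.cast_sub (by omega : 2 ≤ k)]
    push_cast
    ring
  rw [h11] at h10
  have h12 : (2 : ℤ) ^ e ∣ k * S 2 (2 ^ e) (k - 3) :=
    Int.dvd_of_mul_dvd_mul_left (by positivity) h10
  have h13 : IsCoprime ((2 : ℤ) ^ e) (k : ℤ) := by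
    apply IsCoprime.pow_left
    have : Nat.Coprime 2 k := (Nat.coprime_two_left).2 hodd
    exact_mod_cast Nat.isCoprime_iff_coprime.2 this
  have h14 := h13.dvd_of_dvd_mul_left h12
  exact not_dvd_S 2 (k - 3) hq (one_dvd _) (by
    obtain ⟨a, ha⟩ := hodd
    exact ⟨a - 1, by omega⟩) (by omega) e he (by exact_mod_cast h14)

end Pool.Agent.X1.Mos
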