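import Pool.Agent.X1.Mos2

/-! Roots of the Moser polynomials of prime power index. -/

set_option autoImplicit false

namespace Pool.Agent.X1.Mos

open Finset Nat

/-- the value of the Moser polynomial with `s = r + 1` at the natural number `n` -/
def f (r k n : ℕ) : ℤ :=
  ∑ j ∈ range (r + 1), (-1) ^ (r - j) * ((r : ℤ) + 1 - j) ^ (k - 1) * (n.choose j : ℤ)

def A (r k N : ℕ) : ℤ :=
  ∑ i ∈ range r, (-1) ^ (r - 1 - i) * ((r : ℤ) - i) ^ (k - 1) * ((r ! / (i + 1) : ℕ) : ℤ) *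
    (N.choose i : ℤ)

lemma f_split (r k n : ℕ) : f r k n =
    ∑ i ∈ range r, (-1) ^ (r - 1 - i) * ((r : ℤ) - i) ^ (k - 1) * (n.choose (i + 1) : ℤ) +
      (-1) ^ r * ((r : ℤ) + 1) ^ (k - 1) := by
  unfold f
  rw [sum_range_succ']
  congr 1
  · apply sum_congr rfl
    intro i hi
    have h1 : r - (i + 1) = r - 1 - i := by omega
    rw [h1]
    push_cast
    congr 3
    ring
  · simp

lemma f_identity (r k N : ℕ) : (r ! : ℤ) * f r k (N + 1) =
    (-1) ^ r * (r ! : ℤ) * ((r : ℤ) + 1) ^ (k - 1) + ((N : ℤ) + 1) * A r k N := by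
  rw [f_split, mul_add, mul_sum]
  unfold A
  rw [mul_sum, add_comm]
  congr 1
  · ring
  · apply sum_congr rfl
    intro i hi
    rw [mem_range] at hi
    have h1 : (i + 1) * (r ! / (i + 1)) = r ! :=
      Nat.mul_div_cancel' (Nat.dvd_factorial (by omega) (by omega))
    have h2 : (N + 1) * N.choose i = (N + 1).choose (i + 1) * (i + 1) :=
      Nat.add_one_mul_choose_eq N i
    have h1' : ((i : ℤ) + 1) * ((r ! / (i + 1) : ℕ) : ℤ) = (r ! : ℤ) := by exact_mod_cast h1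
    have h2' : ((N : ℤ) + 1) * (N.choose i : ℤ) = ((N + 1).choose (i + 1) : ℤ) * ((i : ℤ) + 1) := by
      exact_mod_cast h2
    rw [← h1']
    calc ((i : ℤ) + 1) * ((r ! / (i + 1) : ℕ) : ℤ) *
          ((-1) ^ (r - 1 - i) * ((r : ℤ) - i) ^ (k - 1) * ((N + 1).choose (i + 1) : ℤ))
        = ((-1) ^ (r - 1 - i) * ((r : ℤ) - i) ^ (k - 1) * ((r ! / (i + 1) : ℕ) : ℤ)) *
          (((N + 1).choose (i + 1) : ℤ) * ((i : ℤ) + 1)) := by ring
      _ = _ := by
        rw [← h2']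
        ring

lemma desc_dvd (N i : ℕ) : ((N : ℤ) + 1) ∣ (N.descFactorial i : ℤ) - (-1) ^ i * (i ! : ℤ) := by
  induction i with
  | zero => simp
  | succ i ih =>
    obtain ⟨c, hc⟩ := ih
    rw [Nat.descFactorial_succ, Nat.factorial_succ]
    rcases Nat.lt_or_ge N i with h | h
    · have h0 : N.descFactorial i = 0 := Nat.descFactorial_eq_zero_iff_lt.2 h
      rw [h0] at hc ⊢
      refine ⟨-((i : ℤ) + 1) * c, ?_⟩
      have hc' : (-1 : ℤ) ^ i * (i ! : ℤ) = -(((N : ℤ) + 1) * c) := by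
        rw [← hc]; push_cast; ring
      push_cast
      calc ((N - i : ℕ) : ℤ) * 0 - (-1) ^ (i + 1) * (((i : ℤ) + 1) * (i ! : ℤ))
          = ((i : ℤ) + 1) * ((-1) ^ i * (i ! : ℤ)) := by ring
        _ = _ := by rw [hc']; ring
    · have h1 : (N.descFactorial i : ℤ) = ((N : ℤ) + 1) * c + (-1) ^ i * (i ! : ℤ) := by
        linarith
      push_cast
      rw [Nat.cast_sub h, h1]
      refine ⟨((N : ℤ) - i) * c + (-1) ^ i * (i ! : ℤ), ?_⟩
      ring

lemma choose_dvd (r N i : ℕ) (h : i ≤ r) :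
    ((N : ℤ) + 1) ∣ (r ! : ℤ) * ((N.choose i : ℤ) - (-1) ^ i) := by
  obtain ⟨w, hw⟩ := Nat.factorial_dvd_factorial h
  have h1 := Nat.descFactorial_eq_factorial_mul_choose N i
  obtain ⟨c, hc⟩ := desc_dvd N i
  refine ⟨w * c, ?_⟩
  have h1' : (N.descFactorial i : ℤ) = (i ! : ℤ) * (N.choose i : ℤ) := by exact_mod_cast h1
  have hw' : (r ! : ℤ) = (i ! : ℤ) * w := by exact_mod_cast hw
  rw [h1'] at hc
  rw [hw']
  calc (i ! : ℤ) * w * ((N.choose i : ℤ) - (-1) ^ i)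
      = w * ((i ! : ℤ) * (N.choose i : ℤ) - (-1) ^ i * (i ! : ℤ)) := by ring
    _ = _ := by rw [hc]; ring

lemma B_reflect (r k : ℕ) :
    B r k = ∑ i ∈ range r, ((r : ℤ) - i) ^ (k - 1) * ((r ! / (i + 1) : ℕ) : ℤ) := by
  unfold B
  rw [← sum_range_reflect]
  apply sum_congr rfl
  intro i hi
  rw [mem_range] at hi
  unfold C
  have h1 : r - (r - 1 - i) = i + 1 := by omega
  have h2 : (((r - 1 - i : ℕ) : ℤ)) + 1 = (r : ℤ) - i := by
    rw [Nat.cast_sub (by omega), Nat.cast_sub (by omega)]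
    push_cast
    ring
  rw [h1, h2]

lemma A_dvd (r k N : ℕ) :
    ((N : ℤ) + 1) ∣ (r ! : ℤ) * (A r k N - (-1) ^ (r - 1) * B r k) := by
  have h : (r ! : ℤ) * (A r k N - (-1) ^ (r - 1) * B r k) =
      ∑ i ∈ range r, (-1) ^ (r - 1 - i) * ((r : ℤ) - i) ^ (k - 1) *
        ((r ! / (i + 1) : ℕ) : ℤ) * ((r ! : ℤ) * ((N.choose i : ℤ) - (-1) ^ i)) := by
    rw [B_reflect]
    unfold A
    rw [mul_sum, ← sum_sub_distrib, mul_sum]
    apply sum_congr rfl
    intro i hi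
    rw [mem_range] at hi
    have h1 : (-1 : ℤ) ^ (r - 1) = (-1) ^ (r - 1 - i) * (-1) ^ i := by
      rw [← pow_add]
      congr 1
      omega
    rw [h1]
    ring
  rw [h]
  apply dvd_sum
  intro i hi
  rw [mem_range] at hi
  exact (choose_dvd r N i hi.le).mul_left _

lemma main (q r e v k M N : ℕ) (hq : q.Prime) (hs : r + 1 = q ^ e)
    (hf : q ^ v ∣ r !) (hf' : ¬ q ^ (v + 1) ∣ r !) (hB : ¬ (q : ℤ) ^ M ∣ B r k)
    (h0 : f r k (N + 1) = 0) :
    N + 1 ≤ q ^ (M + v) * r ! ∨ (r + 1) ^ (k - 1) ≤ q ^ M * (N + 1) := by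
  have hid := f_identity r k N
  rw [h0, mul_zero] at hid
  obtain ⟨a, n', hn', hn⟩ := Nat.exists_eq_pow_mul_and_not_dvd (Nat.succ_ne_zero N) q hq.ne_one
  have hn2 : N + 1 = q ^ a * n' := hn
  have hnZ : (N : ℤ) + 1 = (q : ℤ) ^ a * n' := by exact_mod_cast hn2
  have hn'0 : 1 ≤ n' := by
    rcases Nat.eq_zero_or_pos n' with h | h
    · rw [h] at hn'
      exact absurd (dvd_zero q) hn'
    · exact h
  have hcop : Nat.Coprime q n' := (Nat.Prime.coprime_iff_not_dvd hq).2 hn'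
  rcases Nat.lt_or_ge (M + v) a with ha | ha
  · right
    have h1 : (q : ℤ) ^ (M + v) ∣ (r ! : ℤ) * (A r k N - (-1) ^ (r - 1) * B r k) := by
      refine dvd_trans ?_ (A_dvd r k N)
      rw [hnZ]
      exact (pow_dvd_pow _ ha.le).mul_right _
    have h2 := cancel q r M v hq hf hf' _ h1
    have h3 : ¬ (q : ℤ) ^ M ∣ A r k N := by
      intro h4
      have h5 := dvd_sub h4 h2
      rw [sub_sub_cancel] at h5
      apply hB
      rcases neg_one_pow_eq_or ℤ (r - 1) with h6 | h6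
      · rw [h6, one_mul] at h5
        exact h5
      · rw [h6, neg_one_mul, dvd_neg] at h5
        exact h5
    by_contra h7
    rw [not_le] at h7
    have h8 : a + M ≤ e * (k - 1) := by
      by_contra h9
      rw [not_le] at h9
      have h10 : (r + 1) ^ (k - 1) ≤ q ^ M * (N + 1) := by
        calc (r + 1) ^ (k - 1) = q ^ (e * (k - 1)) := by rw [hs, ← pow_mul]
          _ ≤ q ^ (a + M) := Nat.pow_le_pow_right hq.pos h9.le
          _ = q ^ M * q ^ a := by rw [pow_add, mul_comm]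
          _ ≤ q ^ M * (q ^ a * n') := Nat.mul_le_mul_left _ (Nat.le_mul_of_pos_right _ hn'0)
          _ = q ^ M * (N + 1) := by rw [hn2]
      omega
    apply h3
    have h11 : (q : ℤ) ^ a * (q : ℤ) ^ M ∣ (q : ℤ) ^ a * (n' * A r k N) := by
      have h12 : (q : ℤ) ^ a * (n' * A r k N) = -((-1) ^ r * (r ! : ℤ)) * (q : ℤ) ^ (e * (k - 1)) := by
        have h13 : (r : ℤ) + 1 = (q : ℤ) ^ e := by exact_mod_cast hs
        rw [← mul_assoc, ← hnZ, pow_mul, ← h13]
        linarith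
      rw [h12, ← pow_add]
      exact (pow_dvd_pow _ h8).mul_left _
    have h14 : (q : ℤ) ^ M ∣ n' * A r k N :=
      Int.dvd_of_mul_dvd_mul_left (pow_ne_zero _ (by exact_mod_cast hq.ne_zero)) h11
    have h15 : IsCoprime ((q : ℤ) ^ M) (n' : ℤ) := by
      apply IsCoprime.pow_left
      rw [Nat.isCoprime_iff_coprime]
      exact hcop
    exact h15.dvd_of_dvd_mul_left h14
  · left
    have h1 : ((n' : ℕ) : ℤ) ∣ ((r ! * q ^ (e * (k - 1)) : ℕ) : ℤ) := by
      have h13 : (r : ℤ) + 1 = (q : ℤ) ^ e := by exact_mod_cast hs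
      have h2 : (n' : ℤ) ∣ (-1) ^ r * (r ! : ℤ) * ((r : ℤ) + 1) ^ (k - 1) := by
        have h3 : (-1 : ℤ) ^ r * (r ! : ℤ) * ((r : ℤ) + 1) ^ (k - 1) = -(((N : ℤ) + 1) * A r k N) := by
          linarith
        rw [h3, dvd_neg, hnZ]
        exact ⟨(q : ℤ) ^ a * A r k N, by ring⟩
      rcases neg_one_pow_eq_or ℤ r with h6 | h6
      · rw [h6, one_mul, h13, ← pow_mul] at h2
        push_cast
        exact h2
      · rw [h6, neg_one_mul, neg_mul, dvd_neg, h13, ← pow_mul] at h2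
        push_cast
        exact h2
    have h2 : n' ∣ r ! * q ^ (e * (k - 1)) := by exact_mod_cast h1
    have h3 : n' ∣ r ! := by
      have h4 : Nat.Coprime n' (q ^ (e * (k - 1))) := Nat.Coprime.pow_right _ hcop.symm
      exact h4.dvd_of_dvd_mul_right h2
    calc N + 1 = q ^ a * n' := hn2
      _ ≤ q ^ (M + v) * r ! := Nat.mul_le_mul (Nat.pow_le_pow_right hq.pos ha)
        (Nat.le_of_dvd (Nat.factorial_pos r) h3)

/-- large arguments are not roots -/
lemma large (r k n : ℕ) (hr : 1 ≤ r) (hk : 1 ≤ k) (hn : 2 ^ (k + r) * (r ! * r) ≤ n) :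
    f r k n ≠ 0 := by
  have hfac := Nat.factorial_pos r
  have hrr : 1 ≤ r ! * r := Nat.mul_pos hfac hr
  have hn1 : 2 ^ (k - 1) ≤ n := by
    calc 2 ^ (k - 1) ≤ 2 ^ (k + r) := Nat.pow_le_pow_right (by norm_num) (by omega)
      _ ≤ 2 ^ (k + r) * (r ! * r) := Nat.le_mul_of_pos_right _ hrr
      _ ≤ n := hn
  have hn2 : 2 * r ≤ n := by
    calc 2 * r ≤ 2 ^ (k + r) * (r ! * r) := by
          apply Nat.mul_le_mul
          · calc 2 = 2 ^ 1 := rfl
              _ ≤ 2 ^ (k + r) := Nat.pow_le_pow_right (by norm_num) (by omega)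
          · exact Nat.le_mul_of_pos_left _ hfac
      _ ≤ n := hn
  have hterm : ∀ j ∈ range r, (r + 1 - j) ^ (k - 1) * n.choose j ≤ 2 ^ (k - 1) * n ^ (r - 1) := by
    intro j hj
    rw [mem_range] at hj
    obtain ⟨d, hd⟩ : ∃ d, r = j + 1 + d := ⟨r - j - 1, by omega⟩
    have h1 : r + 1 - j ≤ 2 ^ (d + 1) := by
      have h2 : r + 1 - j = (d + 1) + 1 := by omega
      rw [h2]
      exact Nat.lt_two_pow_self
    calc (r + 1 - j) ^ (k - 1) * n.choose j ≤ (2 ^ (d + 1)) ^ (k - 1) * n ^ j :=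
          Nat.mul_le_mul (Nat.pow_le_pow_left h1 _) (Nat.choose_le_pow n j)
      _ = 2 ^ (k - 1) * ((2 ^ (k - 1)) ^ d * n ^ j) := by
          rw [← pow_mul, ← pow_mul, ← mul_assoc, ← pow_add]
          congr 2
          ring
      _ ≤ 2 ^ (k - 1) * (n ^ d * n ^ j) :=
          Nat.mul_le_mul_left _ (Nat.mul_le_mul_right _ (Nat.pow_le_pow_left hn1 d))
      _ = 2 ^ (k - 1) * n ^ (r - 1) := by
          rw [← pow_add]
          congr 2
          omega
  have hsum : ∑ j ∈ range r, (r + 1 - j) ^ (k - 1) * n.choose j ≤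
      r * (2 ^ (k - 1) * n ^ (r - 1)) := by
    calc _ ≤ ∑ j ∈ range r, 2 ^ (k - 1) * n ^ (r - 1) := sum_le_sum hterm
      _ = _ := by rw [sum_const, card_range, smul_eq_mul]
  have hlead : n ^ r ≤ 2 ^ r * (r ! * n.choose r) := by
    rw [← Nat.descFactorial_eq_factorial_mul_choose]
    calc n ^ r ≤ (2 * (n + 1 - r)) ^ r := Nat.pow_le_pow_left (by omega) _
      _ = 2 ^ r * (n + 1 - r) ^ r := mul_pow _ _ _
      _ ≤ _ := Nat.mul_le_mul_left _ (Nat.pow_sub_le_descFactorial n r)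
  have hlt : ∑ j ∈ range r, (r + 1 - j) ^ (k - 1) * n.choose j < n.choose r := by
    by_contra hcon
    rw [not_lt] at hcon
    have h1 : n ^ r ≤ 2 ^ r * (r ! * (r * (2 ^ (k - 1) * n ^ (r - 1)))) :=
      hlead.trans (Nat.mul_le_mul_left _ (Nat.mul_le_mul_left _ (hcon.trans hsum)))
    have h2 : n ^ r = n * n ^ (r - 1) := by
      rw [← pow_succ']
      congr 1
      omega
    have h3 : 2 ^ r * (r ! * (r * (2 ^ (k - 1) * n ^ (r - 1)))) =
        (2 ^ (k - 1 + r) * (r ! * r)) * n ^ (r - 1) := by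
      rw [pow_add]
      ring
    rw [h2, h3] at h1
    have hnpos : 0 < n := lt_of_lt_of_le (by positivity) hn1
    have h4 := Nat.le_of_mul_le_mul_right h1 (pow_pos hnpos _)
    have h5 : 2 ^ (k + r) = 2 * 2 ^ (k - 1 + r) := by
      rw [← pow_succ']
      congr 1
      omega
    rw [h5] at hn
    have h6 : 0 < 2 ^ (k - 1 + r) * (r ! * r) := by positivity
    have h7 : 2 * 2 ^ (k - 1 + r) * (r ! * r) = 2 * (2 ^ (k - 1 + r) * (r ! * r)) := by ring
    rw [h7] at hn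
    omega
  have hf : f r k n = ∑ j ∈ range r, (-1) ^ (r - j) * ((r : ℤ) + 1 - j) ^ (k - 1) *
      (n.choose j : ℤ) + (n.choose r : ℤ) := by
    unfold f
    rw [sum_range_succ]
    simp
  have habs : |∑ j ∈ range r, (-1) ^ (r - j) * ((r : ℤ) + 1 - j) ^ (k - 1) *
      (n.choose j : ℤ)| ≤ ((∑ j ∈ range r, (r + 1 - j) ^ (k - 1) * n.choose j : ℕ) : ℤ) := by
    refine (abs_sum_le_sum_abs _ _).trans ?_
    rw [Nat.cast_sum]
    apply sum_le_sum
    intro j hj
    rw [mem_range] at hj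
    rw [abs_mul, abs_mul, abs_pow, abs_neg, abs_one, one_pow, one_mul]
    push_cast
    rw [Nat.cast_sub (by omega), Nat.abs_cast, abs_of_nonneg (by
      have : (j : ℤ) ≤ r := by exact_mod_cast hj.le
      apply pow_nonneg; linarith)]
    push_cast
    rfl
  intro h0
  rw [hf] at h0
  have h1 : |∑ j ∈ range r, (-1) ^ (r - j) * ((r : ℤ) + 1 - j) ^ (k - 1) *
      (n.choose j : ℤ)| = (n.choose r : ℤ) := by
    rw [show ∑ j ∈ range r, (-1) ^ (r - j) * ((r : ℤ) + 1 - j) ^ (k - 1) *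
      (n.choose j : ℤ) = -(n.choose r : ℤ) by linarith, abs_neg, Nat.abs_cast]
  rw [h1] at habs
  have h2 : n.choose r ≤ ∑ j ∈ range r, (r + 1 - j) ^ (k - 1) * n.choose j := by exact_mod_cast habs
  omega

end Pool.Agent.X1.Mos
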