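import Pool.Agent.X1.Mos3

/-! Roots of the Moser polynomials of prime power index: final statements. -/

set_option autoImplicit false

namespace Pool.Agent.X1.Mos

open Finset Nat

/-- small arguments are not roots -/
lemma small (r k n : ℕ) (h : r * (r ^ (k - 1) * 2 ^ n) < (r + 1) ^ (k - 1)) : f r k n ≠ 0 := by
  intro h0
  rw [f_split] at h0
  have habs : |∑ i ∈ range r, (-1) ^ (r - 1 - i) * ((r : ℤ) - i) ^ (k - 1) *
      (n.choose (i + 1) : ℤ)| ≤ ((r * (r ^ (k - 1) * 2 ^ n) : ℕ) : ℤ) := by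
    refine (abs_sum_le_sum_abs _ _).trans ?_
    have h2 : ∀ i ∈ range r, |(-1) ^ (r - 1 - i) * ((r : ℤ) - i) ^ (k - 1) *
      (n.choose (i + 1) : ℤ)| ≤ ((r ^ (k - 1) * 2 ^ n : ℕ) : ℤ) := by
      intro i hi
      rw [mem_range] at hi
      have hi' : (i : ℤ) ≤ r := by exact_mod_cast hi.le
      rw [abs_mul, abs_mul, abs_pow, abs_neg, abs_one, one_pow, one_mul, Nat.abs_cast,
        abs_of_nonneg (by apply pow_nonneg; linarith)]
      push_cast
      apply mul_le_mul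
      · apply pow_le_pow_left₀ (by linarith)
        have : (0 : ℤ) ≤ i := by positivity
        linarith
      · exact_mod_cast Nat.choose_le_two_pow n (i + 1)
      · positivity
      · positivity
    refine (sum_le_sum h2).trans ?_
    rw [sum_const, card_range, nsmul_eq_mul]
    push_cast
    rfl
  have h1 : |∑ i ∈ range r, (-1) ^ (r - 1 - i) * ((r : ℤ) - i) ^ (k - 1) *
      (n.choose (i + 1) : ℤ)| = (((r + 1) ^ (k - 1) : ℕ) : ℤ) := by
    rw [show ∑ i ∈ range r, (-1) ^ (r - 1 - i) * ((r : ℤ) - i) ^ (k - 1) *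
      (n.choose (i + 1) : ℤ) = -((-1) ^ r * ((r : ℤ) + 1) ^ (k - 1)) by linarith, abs_neg,
      abs_mul, abs_pow, abs_neg, abs_one, one_pow, one_mul]
    push_cast
    exact abs_of_nonneg (by positivity)
  rw [h1] at habs
  have h3 : (r + 1) ^ (k - 1) ≤ r * (r ^ (k - 1) * 2 ^ n) := by exact_mod_cast habs
  omega

lemma bern (r W m : ℕ) (hr : 1 ≤ r) (hm : r * W ≤ m) : r ^ m * W < (r + 1) ^ m := by
  have h1 : (1 : ℝ) + m * (1 / (r : ℝ)) ≤ (1 + 1 / (r : ℝ)) ^ m :=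
    one_add_mul_le_pow (by
      have : (0 : ℝ) ≤ 1 / (r : ℝ) := by positivity
      linarith) m
  have hr0 : (0 : ℝ) < r := by exact_mod_cast hr
  have h2 : (W : ℝ) ≤ m * (1 / (r : ℝ)) := by
    have : (r : ℝ) * W ≤ m := by exact_mod_cast hm
    rw [mul_one_div, le_div_iff₀ hr0]
    linarith
  have h3 : ((r : ℝ) + 1) ^ m = (r : ℝ) ^ m * (1 + 1 / (r : ℝ)) ^ m := by
    rw [← mul_pow]
    congr 1
    field_simp
  have h4 : (r : ℝ) ^ m * W < ((r : ℝ) + 1) ^ m := by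
    rw [h3]
    apply mul_lt_mul_of_pos_left _ (by positivity)
    linarith
  exact_mod_cast h4

/-- The general statement for natural arguments. -/
theorem nat_main (q r e : ℕ) (hq : q.Prime) (hs : r + 1 = q ^ e) (hr : 3 ≤ r) (M : ℕ)
    (v : ℕ) (hf : q ^ v ∣ r !) (hf' : ¬ q ^ (v + 1) ∣ r !) :
    ∃ K : ℕ, ∀ k : ℕ, K ≤ k → ¬ (q : ℤ) ^ M ∣ B r k → ∀ n : ℕ, f r k n ≠ 0 := by
  obtain ⟨N0, hN0⟩ : ∃ N0, N0 = q ^ (M + v) * r ! := ⟨_, rfl⟩
  obtain ⟨Z, hZ⟩ : ∃ Z, Z = q ^ M * (2 ^ (r + 1) * (r ! * r)) := ⟨_, rfl⟩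
  refine ⟨r * (r * 2 ^ N0) + Z + 1, ?_⟩
  intro k hk hB n h0
  have hsmall : N0 < n := by
    by_contra hcon
    rw [not_lt] at hcon
    refine small r k n ?_ h0
    calc r * (r ^ (k - 1) * 2 ^ n) ≤ r * (r ^ (k - 1) * 2 ^ N0) :=
          Nat.mul_le_mul_left _ (Nat.mul_le_mul_left _ (Nat.pow_le_pow_right (by norm_num) hcon))
      _ = r ^ (k - 1) * (r * 2 ^ N0) := by ring
      _ < (r + 1) ^ (k - 1) := bern r _ _ (by omega) (by omega)
  obtain ⟨N, rfl⟩ : ∃ N, n = N + 1 := ⟨n - 1, by omega⟩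
  rcases main q r e v k M N hq hs hf hf' hB h0 with h | h
  · rw [← hN0] at h
    omega
  · have hlarge : N + 1 < 2 ^ (k + r) * (r ! * r) := by
      by_contra hcon
      rw [not_lt] at hcon
      exact large r k (N + 1) (by omega) (by omega) hcon h0
    have h1 : (2 * 2) ^ (k - 1) ≤ q ^ M * (2 ^ (k + r) * (r ! * r)) := by
      calc (2 * 2) ^ (k - 1) ≤ (r + 1) ^ (k - 1) := Nat.pow_le_pow_left (by omega) _
        _ ≤ q ^ M * (N + 1) := h
        _ ≤ _ := Nat.mul_le_mul_left _ hlarge.le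
    have h2 : q ^ M * (2 ^ (k + r) * (r ! * r)) = 2 ^ (k - 1) * Z := by
      rw [hZ]
      have : k + r = (k - 1) + (r + 1) := by omega
      rw [this, pow_add]
      ring
    rw [h2, mul_pow] at h1
    have h3 : 2 ^ (k - 1) ≤ Z := Nat.le_of_mul_le_mul_left h1 (by positivity)
    have h4 : k - 1 < 2 ^ (k - 1) := Nat.lt_two_pow_self
    omega

/-- The Moser polynomial `F_{s,k}` at the integer `x`. -/
noncomputable def F (s k : ℕ) (x : ℤ) : ℤ :=
  ∑ p ∈ Finset.Icc 1 s, (-1) ^ (p - 1) * (p : ℤ) ^ (k - 1) * Ring.choose x (s - p)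

lemma F_reindex (r k : ℕ) (x : ℤ) : F (r + 1) k x =
    ∑ j ∈ range (r + 1), (-1) ^ (r - j) * ((r : ℤ) + 1 - j) ^ (k - 1) * Ring.choose x j := by
  unfold F
  symm
  apply sum_bij (fun j _ => r + 1 - j)
  · intro j hj
    rw [mem_range] at hj
    rw [mem_Icc]
    omega
  · intro a ha b hb hab
    rw [mem_range] at ha hb
    have hab' : r + 1 - a = r + 1 - b := hab
    omega
  · intro p hp
    rw [mem_Icc] at hp
    exact ⟨r + 1 - p, by rw [mem_range]; omega, by omega⟩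
  · intro j hj
    rw [mem_range] at hj
    have h1 : r + 1 - j - 1 = r - j := by omega
    have h2 : r + 1 - (r + 1 - j) = j := by omega
    rw [h1, h2, Nat.cast_sub (by omega)]
    push_cast
    rfl

lemma F_nat (r k n : ℕ) : F (r + 1) k (n : ℤ) = f r k n := by
  rw [F_reindex]
  unfold f
  apply sum_congr rfl
  intro j _
  rw [Ring.choose_natCast]

lemma F_neg (r k m : ℕ) (hm : 1 ≤ m) : F (r + 1) k (-(m : ℤ)) ≠ 0 := by
  rw [F_reindex]
  have h1 : ∀ j : ℕ, Ring.choose (-(m : ℤ)) j = (-1) ^ j * ((m + j - 1).choose j : ℤ) := by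
    intro j
    rw [Ring.choose_neg]
    have h2 : ((m : ℤ) + (j : ℤ) - 1) = ((m + j - 1 : ℕ) : ℤ) := by
      rw [Nat.cast_sub (by omega)]
      push_cast
      ring
    rw [h2, Ring.choose_natCast]
    simp [Int.negOnePow_def, Units.smul_def]
  have h3 : ∑ j ∈ range (r + 1), (-1) ^ (r - j) * ((r : ℤ) + 1 - j) ^ (k - 1) *
      Ring.choose (-(m : ℤ)) j =
      (-1) ^ r * ((∑ j ∈ range (r + 1), (r + 1 - j) ^ (k - 1) * (m + j - 1).choose j : ℕ) : ℤ) := by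
    push_cast
    rw [mul_sum]
    apply sum_congr rfl
    intro j hj
    rw [mem_range] at hj
    rw [h1 j, Nat.cast_sub (by omega)]
    have h4 : (-1 : ℤ) ^ r = (-1) ^ (r - j) * (-1) ^ j := by
      rw [← pow_add]
      congr 1
      omega
    rw [h4]
    push_cast
    ring
  rw [h3]
  apply mul_ne_zero
  · exact pow_ne_zero _ (by norm_num)
  · have h5 : 0 < ∑ j ∈ range (r + 1), (r + 1 - j) ^ (k - 1) * (m + j - 1).choose j := by
      apply Finset.sum_pos' (fun _ _ => Nat.zero_le _)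
      refine ⟨0, by simp, ?_⟩
      simp
    exact_mod_cast h5.ne'

lemma F_ne (r k : ℕ) (h : ∀ n : ℕ, f r k n ≠ 0) (x : ℤ) : F (r + 1) k x ≠ 0 := by
  rcases le_or_gt 0 x with hx | hx
  · obtain ⟨n, rfl⟩ := Int.eq_ofNat_of_zero_le hx
    rw [F_nat]
    exact h n
  · obtain ⟨m, hm⟩ := Int.eq_ofNat_of_zero_le (show 0 ≤ -x by omega)
    have : x = -(m : ℤ) := by omega
    rw [this]
    exact F_neg r k m (by omega)

/-- Powers of two. -/
theorem two_pow (e : ℕ) (he : 2 ≤ e) :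
    ∃ K : ℕ, ∀ k : ℕ, K ≤ k → ∀ x : ℤ, F (2 ^ e) k x ≠ 0 := by
  obtain ⟨r, hr⟩ : ∃ r, 2 ^ e = r + 1 := ⟨2 ^ e - 1, by
    have := Nat.one_le_two_pow (n := e)
    omega⟩
  have hr3 : 3 ≤ r := by
    have : 2 ^ 2 ≤ 2 ^ e := Nat.pow_le_pow_right (by norm_num) he
    omega
  obtain ⟨v, d, hd, hv⟩ := Nat.exists_eq_pow_mul_and_not_dvd (Nat.factorial_ne_zero r) 2 (by norm_num)
  have hf : 2 ^ v ∣ r ! := ⟨d, hv⟩
  have hf' : ¬ 2 ^ (v + 1) ∣ r ! := by
    rintro ⟨c, hc⟩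
    apply hd
    rw [hv, pow_succ, mul_assoc] at hc
    exact ⟨c, Nat.eq_of_mul_eq_mul_left (by positivity) hc⟩
  obtain ⟨K1, h1⟩ := nat_main 2 r e Nat.prime_two hr.symm hr3 (e + v) v hf hf'
  obtain ⟨K2, h2⟩ := nat_main 2 r e Nat.prime_two hr.symm hr3 (2 * e + v) v hf hf'
  refine ⟨K1 + K2 + (2 * e + v + 5), fun k hk x => ?_⟩
  rw [hr]
  apply F_ne
  rcases Nat.even_or_odd k with hk2 | hk2
  · exact h1 k (by omega) (B_even 2 r e v k Nat.prime_two hr.symm (by omega) hf hf' (by omega) hk2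
      (one_dvd _))
  · exact h2 k (by omega) (B_odd r e v k hr.symm (by omega) hf hf' (by omega) hk2)

/-- All prime powers. -/
theorem prime_pow (q e : ℕ) (hq : q.Prime) (hs : 4 ≤ q ^ e) :
    ∃ K : ℕ, ∀ k : ℕ, K ≤ k → Even k → (q - 1) ∣ k - 2 → ∀ x : ℤ, F (q ^ e) k x ≠ 0 := by
  obtain ⟨r, hr⟩ : ∃ r, q ^ e = r + 1 := ⟨q ^ e - 1, by omega⟩
  have he : 1 ≤ e := by
    rcases Nat.eq_zero_or_pos e with h | h
    · rw [h, pow_zero] at hs
      omega
    · exact h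
  obtain ⟨v, d, hd, hv⟩ := Nat.exists_eq_pow_mul_and_not_dvd (Nat.factorial_ne_zero r) q hq.ne_one
  have hf : q ^ v ∣ r ! := ⟨d, hv⟩
  have hf' : ¬ q ^ (v + 1) ∣ r ! := by
    rintro ⟨c, hc⟩
    apply hd
    rw [hv, pow_succ, mul_assoc] at hc
    exact ⟨c, Nat.eq_of_mul_eq_mul_left (pow_pos hq.pos _) hc⟩
  obtain ⟨K1, h1⟩ := nat_main q r e hq hr.symm (by omega) (e + v) v hf hf'
  refine ⟨K1 + (e + v + 4), fun k hk hk2 hc x => ?_⟩
  rw [hr]
  apply F_ne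
  exact h1 k (by omega) (B_even q r e v k hq hr.symm he hf hf' (by omega) hk2 hc)

end Pool.Agent.X1.Mos
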