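import Pool.Agent.X1.Mos4

/-! General index `s`. -/

set_option autoImplicit false

namespace Pool.Agent.X1.Mos

open Finset Nat

lemma not_dvd_S' (q m u : ℕ) (hq : q.Prime) (h : q - 1 ∣ m) (hm : Even m) (h0 : 1 ≤ m) (e : ℕ)
    (he : 1 ≤ e) (hu : ¬ q ∣ u) : ¬ (q : ℤ) ^ e ∣ S q (q ^ e * u) m := by
  intro hd
  obtain ⟨m', hm'⟩ := hm
  obtain ⟨c, hc⟩ := long q m (q ^ e) (dvd_pow_self q (by omega)) m' (by omega) (by omega) u
  rw [hc] at hd
  have h1 : (q : ℤ) ^ e ∣ m' * ((q ^ e : ℕ) : ℤ) * (u * (u - 1)) * S q (q ^ e) (m - 1) +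
      ((q ^ e : ℕ) : ℤ) ^ 2 * c := by
    push_cast
    exact ⟨m' * (u * (u - 1)) * S q (q ^ e) (m - 1) + q ^ e * c, by ring⟩
  have h2 : (q : ℤ) ^ e ∣ (u : ℤ) * S q (q ^ e) m := by
    have h3 := dvd_sub hd h1
    have h4 : (u : ℤ) * S q (q ^ e) m + m' * ((q ^ e : ℕ) : ℤ) * (u * (u - 1)) * S q (q ^ e) (m - 1) +
      ((q ^ e : ℕ) : ℤ) ^ 2 * c - (m' * ((q ^ e : ℕ) : ℤ) * (u * (u - 1)) * S q (q ^ e) (m - 1) +
      ((q ^ e : ℕ) : ℤ) ^ 2 * c) = u * S q (q ^ e) m := by ring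
    rw [h4] at h3
    exact h3
  have h5 : IsCoprime ((q : ℤ) ^ e) (u : ℤ) := by
    apply IsCoprime.pow_left
    rw [Nat.isCoprime_iff_coprime]
    exact (Nat.Prime.coprime_iff_not_dvd hq).2 hu
  exact not_dvd_S q m hq h ⟨m', hm'⟩ h0 e he (h5.dvd_of_dvd_mul_left h2)

/-- Reflection for odd exponents. -/
lemma odd_S' (q N m : ℕ) (hN : q ∣ N) (hm : Odd m) :
    (N : ℤ) ^ 2 ∣ 2 * S q N m - N * m * S q N (m - 1) := by
  have h1 : S q N m = ∑ x ∈ range (N + 1), term q m x := by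
    rw [sum_range_succ]
    simp [term, hN, S]
  have h1' : S q N (m - 1) = ∑ x ∈ range (N + 1), term q (m - 1) x := by
    rw [sum_range_succ]
    simp [term, hN, S]
  have h2 : ∑ x ∈ range (N + 1), term q m x = ∑ x ∈ range (N + 1), term q m (N - x) := by
    rw [← sum_range_reflect]
    apply sum_congr rfl
    intro x hx
    simp
  have h3 : ∀ x ∈ range (N + 1), ∃ c : ℤ, term q m x + term q m (N - x) =
      N * m * term q (m - 1) x + (N : ℤ) ^ 2 * c := by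
    intro x hx
    rw [mem_range] at hx
    have hx' : x ≤ N := by omega
    by_cases h : q ∣ x
    · have h' : q ∣ N - x := Nat.dvd_sub hN h
      exact ⟨0, by simp [term, h, h']⟩
    · have h' : ¬ q ∣ N - x := by
        intro h''
        apply h
        have := Nat.dvd_sub hN h''
        rwa [Nat.sub_sub_self hx'] at this
      obtain ⟨c, hc⟩ := Polynomial.powAddExpansion (-(x : ℤ)) (N : ℤ) m
      refine ⟨c, ?_⟩
      simp only [term, h, h', if_false]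
      have hodd : (-(x : ℤ)) ^ m = - (x : ℤ) ^ m := hm.neg_pow _
      have heven : (-(x : ℤ)) ^ (m - 1) = (x : ℤ) ^ (m - 1) := by
        apply Even.neg_pow
        obtain ⟨t, ht⟩ := hm
        exact ⟨t, by omega⟩
      rw [Nat.cast_sub hx', sub_eq_add_neg, add_comm (N : ℤ), hc, hodd, heven]
      ring
  choose! c hc using h3
  have h4 : 2 * S q N m = ∑ x ∈ range (N + 1), (term q m x + term q m (N - x)) := by
    rw [sum_add_distrib, ← h2, ← h1]
    ring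
  rw [h4, sum_congr rfl hc, sum_add_distrib, ← mul_sum, ← mul_sum, ← h1']
  exact ⟨∑ x ∈ range (N + 1), c x, by ring⟩

lemma C_dvd' (r t q f : ℕ) (hq : q.Prime) (h : t < r) (hs : q ∣ r + 1)
    (hf : q ^ f ∣ r !) (ht : ¬ q ∣ t + 1) : (q : ℤ) ^ f ∣ C r t := by
  have h1 : (r - t) * (r ! / (r - t)) = r ! :=
    Nat.mul_div_cancel' (Nat.dvd_factorial (by omega) (by omega))
  have h2 : ¬ q ∣ r - t := by
    intro h3
    have h4 : q ∣ (r - t) + (t + 1) := by
      have : (r - t) + (t + 1) = r + 1 := by omega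
      rw [this]
      exact hs
    exact ht ((Nat.dvd_add_right h3).1 h4)
  have h3 : Nat.Coprime (q ^ f) (r - t) := Nat.Coprime.pow_left f ((Nat.Prime.coprime_iff_not_dvd hq).2 h2)
  have h4 : q ^ f ∣ r ! / (r - t) := h3.dvd_of_dvd_mul_left (by rw [h1]; exact hf)
  unfold C
  exact_mod_cast h4

lemma S_eq' (q r m : ℕ) : S q (r + 1) m = ∑ t ∈ range r, term q m (t + 1) := by
  unfold S
  rw [sum_range_succ']
  simp [term]

/-- first order -/
lemma B_even' (q r e u f k : ℕ) (hq : q.Prime) (hs : r + 1 = q ^ e * u) (he : 1 ≤ e)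
    (hu : ¬ q ∣ u)
    (hf : q ^ f ∣ r !) (hf' : ¬ q ^ (f + 1) ∣ r !) (hk : e + f + 4 ≤ k) (hev : Even k)
    (hc : q - 1 ∣ k - 2) : ¬ (q : ℤ) ^ (e + f) ∣ B r k := by
  intro h
  have hqs : q ∣ r + 1 := by rw [hs]; exact (dvd_pow_self q (by omega)).mul_right u
  have h5 : (r : ℤ) + 1 = (q : ℤ) ^ e * u := by exact_mod_cast hs
  have h1 : (q : ℤ) ^ (e + f) ∣ B r k + (r ! : ℤ) * S q (r + 1) (k - 2) := by
    rw [S_eq', mul_sum]
    unfold B
    rw [← sum_add_distrib]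
    apply dvd_sum
    intro t ht
    rw [mem_range] at ht
    by_cases hqt : q ∣ t + 1
    · simp only [term, hqt, if_true, mul_zero, add_zero]
      apply Dvd.dvd.mul_right
      have h2 : (q : ℤ) ∣ (t : ℤ) + 1 := by exact_mod_cast hqt
      exact (pow_dvd_pow (q : ℤ) (by omega)).trans (pow_dvd_pow_of_dvd h2 (k - 1))
    · simp only [term, hqt, if_false]
      obtain ⟨c, hc⟩ := C_dvd' r t q f hq ht hqs hf hqt
      have h3 := C_mul r t ht
      have h4 : k - 1 = (k - 2) + 1 := by omega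
      refine ⟨((t : ℤ) + 1) ^ (k - 2) * c * u, ?_⟩
      rw [h4, ← h3]
      push_cast
      calc ((t : ℤ) + 1) ^ (k - 2 + 1) * C r t + ((r : ℤ) - t) * C r t * ((t : ℤ) + 1) ^ (k - 2)
          = ((t : ℤ) + 1) ^ (k - 2) * (((r : ℤ) + 1) * C r t) := by ring
        _ = _ := by
          rw [h5, hc]
          ring
  have h2 : (q : ℤ) ^ (e + f) ∣ (r ! : ℤ) * S q (r + 1) (k - 2) := by
    have := dvd_sub h1 h
    simpa using this
  have h3 := cancel q r e f hq hf hf' _ h2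
  rw [hs] at h3
  exact not_dvd_S' q (k - 2) u hq hc (by
    obtain ⟨a, ha⟩ := hev
    exact ⟨a - 1, by omega⟩) (by omega) e he hu h3

/-- second order -/
lemma B_odd' (q r e u f k : ℕ) (hq : q.Prime) (hs : r + 1 = q ^ e * u) (he : 1 ≤ e)
    (hu : ¬ q ∣ u)
    (hf : q ^ f ∣ r !) (hf' : ¬ q ^ (f + 1) ∣ r !) (hk : 2 * e + f + 5 ≤ k) (hodd : Odd k)
    (hc : q - 1 ∣ k - 3) (hqk : ¬ q ∣ k) :
    ¬ (q : ℤ) ^ (2 * e + f) ∣ B r k := by
  intro h
  have hqs : q ∣ r + 1 := by rw [hs]; exact (dvd_pow_self q (by omega)).mul_right u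
  have h5 : (r : ℤ) + 1 = (q : ℤ) ^ e * u := by exact_mod_cast hs
  have h1 : (q : ℤ) ^ (2 * e + f) ∣
      B r k + (r ! : ℤ) * (((r : ℤ) + 1) * S q (r + 1) (k - 3) + S q (r + 1) (k - 2)) := by
    rw [S_eq', S_eq', mul_sum, ← sum_add_distrib, mul_sum]
    unfold B
    rw [← sum_add_distrib]
    apply dvd_sum
    intro t ht
    rw [mem_range] at ht
    by_cases hqt : q ∣ t + 1
    · simp only [term, hqt, if_true, mul_zero, add_zero]
      apply Dvd.dvd.mul_right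
      have h2 : (q : ℤ) ∣ (t : ℤ) + 1 := by exact_mod_cast hqt
      exact (pow_dvd_pow (q : ℤ) (by omega)).trans (pow_dvd_pow_of_dvd h2 (k - 1))
    · simp only [term, hqt, if_false]
      obtain ⟨c, hc⟩ := C_dvd' r t q f hq ht hqs hf hqt
      have h3 := C_mul r t ht
      have h4 : k - 1 = (k - 3) + 2 := by omega
      have h4' : k - 2 = (k - 3) + 1 := by omega
      refine ⟨((t : ℤ) + 1) ^ (k - 3) * c * u ^ 2, ?_⟩
      rw [h4, h4', ← h3]
      push_cast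
      calc ((t : ℤ) + 1) ^ (k - 3 + 2) * C r t + ((r : ℤ) - t) * C r t *
            (((r : ℤ) + 1) * ((t : ℤ) + 1) ^ (k - 3) + ((t : ℤ) + 1) ^ (k - 3 + 1))
          = ((t : ℤ) + 1) ^ (k - 3) * (((r : ℤ) + 1) * ((r : ℤ) + 1) * C r t) := by ring
        _ = _ := by
          rw [h5, hc]
          ring
  have h2 : (q : ℤ) ^ (2 * e + f) ∣
      (r ! : ℤ) * (((r : ℤ) + 1) * S q (r + 1) (k - 3) + S q (r + 1) (k - 2)) := by
    have := dvd_sub h1 h
    simpa using this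
  have h3 := cancel q r (2 * e) f hq hf hf' _ h2
  have h6 := odd_S' q (r + 1) (k - 2) hqs (by
    obtain ⟨a, ha⟩ := hodd
    exact ⟨a - 1, by omega⟩)
  have h7 : k - 2 - 1 = k - 3 := by omega
  rw [h7] at h6
  have h8 : (q : ℤ) ^ (2 * e) ∣ ((r + 1 : ℕ) : ℤ) ^ 2 := by
    push_cast
    rw [h5]
    exact ⟨u ^ 2, by ring⟩
  have h10 := dvd_sub (h3.mul_left 2) (h8.trans h6)
  have h11 : (2 : ℤ) * (((r : ℤ) + 1) * S q (r + 1) (k - 3) + S q (r + 1) (k - 2)) -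
      (2 * S q (r + 1) (k - 2) - ((r + 1 : ℕ) : ℤ) * ((k - 2 : ℕ) : ℤ) * S q (r + 1) (k - 3)) =
      (q : ℤ) ^ e * (u * (k * S q (r + 1) (k - 3))) := by
    rw [Nat.cast_sub (by omega : 2 ≤ k)]
    push_cast
    rw [h5]
    ring
  have h9 : (q : ℤ) ^ (2 * e) = (q : ℤ) ^ e * (q : ℤ) ^ e := by ring
  rw [h11, h9] at h10
  have h12 : (q : ℤ) ^ e ∣ u * (k * S q (r + 1) (k - 3)) :=
    Int.dvd_of_mul_dvd_mul_left (pow_ne_zero _ (by exact_mod_cast hq.ne_zero)) h10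
  have h13 : IsCoprime ((q : ℤ) ^ e) (u : ℤ) := by
    apply IsCoprime.pow_left
    rw [Nat.isCoprime_iff_coprime]
    exact (Nat.Prime.coprime_iff_not_dvd hq).2 hu
  have h14 : IsCoprime ((q : ℤ) ^ e) (k : ℤ) := by
    apply IsCoprime.pow_left
    rw [Nat.isCoprime_iff_coprime]
    exact (Nat.Prime.coprime_iff_not_dvd hq).2 hqk
  have h15 := h14.dvd_of_dvd_mul_left (h13.dvd_of_dvd_mul_left h12)
  rw [hs] at h15
  exact not_dvd_S' q (k - 3) u hq hc (by
    obtain ⟨a, ha⟩ := hodd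
    exact ⟨a - 1, by omega⟩) (by omega) e he hu h15

/-- The dichotomy for the exponent of `q` in a root. -/
lemma main' (q r e u v k M N a n' : ℕ) (hq : q.Prime) (hs : r + 1 = q ^ e * u)
    (hf : q ^ v ∣ r !) (hf' : ¬ q ^ (v + 1) ∣ r !) (hB : ¬ (q : ℤ) ^ M ∣ B r k)
    (h0 : f r k (N + 1) = 0) (hn' : ¬ q ∣ n') (hn2 : N + 1 = q ^ a * n') :
    a ≤ M + v ∨ e * (k - 1) ≤ a + M := by
  have hid := f_identity r k N
  rw [h0, mul_zero] at hid
  have hnZ : (N : ℤ) + 1 = (q : ℤ) ^ a * n' := by exact_mod_cast hn2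
  have hcop : Nat.Coprime q n' := (Nat.Prime.coprime_iff_not_dvd hq).2 hn'
  rcases Nat.lt_or_ge (M + v) a with ha | ha
  · right
    have h1 : (q : ℤ) ^ (M + v) ∣ (r ! : ℤ) * (A r k N - (-1) ^ (r - 1) * B r k) := by
      refine dvd_trans ?_ (A_dvd r k N)
      rw [hnZ]
      exact (pow_dvd_pow _ ha.le).mul_right _
    have h2 := cancel q r M v hq hf hf' _ h1
    have h3 : ¬ (q : ℤ) ^ M ∣ A r k N := by
      intro h4
      have h5 := dvd_sub h4 h2
      rw [sub_sub_cancel] at h5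
      apply hB
      rcases neg_one_pow_eq_or ℤ (r - 1) with h6 | h6
      · rw [h6, one_mul] at h5
        exact h5
      · rw [h6, neg_one_mul, dvd_neg] at h5
        exact h5
    by_contra h7
    rw [not_le] at h7
    have h8 : a + M ≤ e * (k - 1) := h7.le
    apply h3
    have h11 : (q : ℤ) ^ a * (q : ℤ) ^ M ∣ (q : ℤ) ^ a * (n' * A r k N) := by
      have h12 : (q : ℤ) ^ a * (n' * A r k N) =
          -((-1) ^ r * (r ! : ℤ) * (u : ℤ) ^ (k - 1)) * (q : ℤ) ^ (e * (k - 1)) := by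
        have h13 : (r : ℤ) + 1 = (q : ℤ) ^ e * u := by exact_mod_cast hs
        have h14 : ((r : ℤ) + 1) ^ (k - 1) = (q : ℤ) ^ (e * (k - 1)) * (u : ℤ) ^ (k - 1) := by
          rw [h13, mul_pow, ← pow_mul]
        rw [h14] at hid
        rw [← mul_assoc, ← hnZ]
        linarith
      rw [h12, ← pow_add]
      exact (pow_dvd_pow _ h8).mul_left _
    have h14 : (q : ℤ) ^ M ∣ n' * A r k N :=
      Int.dvd_of_mul_dvd_mul_left (pow_ne_zero _ (by exact_mod_cast hq.ne_zero)) h11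
    have h15 : IsCoprime ((q : ℤ) ^ M) (n' : ℤ) := by
      apply IsCoprime.pow_left
      rw [Nat.isCoprime_iff_coprime]
      exact hcop
    exact h15.dvd_of_dvd_mul_left h14
  · left
    exact ha

/-- a root divides `r! s ^ (k-1)` -/
lemma root_dvd (r k N : ℕ) (h0 : f r k (N + 1) = 0) : N + 1 ∣ r ! * (r + 1) ^ (k - 1) := by
  have hid := f_identity r k N
  rw [h0, mul_zero] at hid
  have h2 : ((N + 1 : ℕ) : ℤ) ∣ (-1) ^ r * (r ! : ℤ) * ((r : ℤ) + 1) ^ (k - 1) := by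
    have h3 : (-1 : ℤ) ^ r * (r ! : ℤ) * ((r : ℤ) + 1) ^ (k - 1) = -(((N : ℤ) + 1) * A r k N) := by
      linarith
    rw [h3, dvd_neg]
    push_cast
    exact ⟨A r k N, by ring⟩
  have h4 : ((N + 1 : ℕ) : ℤ) ∣ ((r ! * (r + 1) ^ (k - 1) : ℕ) : ℤ) := by
    rcases neg_one_pow_eq_or ℤ r with h6 | h6
    · rw [h6, one_mul] at h2
      push_cast at h2 ⊢
      exact h2
    · rw [h6, neg_one_mul, neg_mul, dvd_neg] at h2
      push_cast at h2 ⊢
      exact h2
  exact_mod_cast h4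

end Pool.Agent.X1.Mos
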