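import Pool.Agent.X1.Mos5

/-! General index `s`: assembly. -/

set_option autoImplicit false

namespace Pool.Agent.X1.Mos

open Finset Nat

theorem gen_main (r : ℕ) (hr : 3 ≤ r) (h4 : (r + 1) % 4 ≠ 2) :
    ∃ K : ℕ, ∀ k : ℕ, K ≤ k →
      (∀ q : ℕ, q.Prime → q ∣ r + 1 →
        ¬ (q : ℤ) ^ (2 * (r + 1).factorization q + (r !).factorization q) ∣ B r k) →
      ∀ n : ℕ, f r k n ≠ 0 := by
  have hfac := Nat.factorial_pos r
  obtain ⟨E, hE⟩ : ∃ E, E = 2 * (r + 1) + 2 * r ! := ⟨_, rfl⟩
  obtain ⟨N0, hN0⟩ : ∃ N0, N0 = r ! * (r + 1) ^ E := ⟨_, rfl⟩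
  obtain ⟨Z, hZ⟩ : ∃ Z, Z = (r + 1) ^ E * (2 ^ (r + 1) * (r ! * r)) := ⟨_, rfl⟩
  refine ⟨r * (r * 2 ^ N0) + 2 * Z + 1, ?_⟩
  intro k hk hB n h0
  have hsmall : N0 < n := by
    by_contra hcon
    rw [not_lt] at hcon
    refine small r k n ?_ h0
    calc r * (r ^ (k - 1) * 2 ^ n) ≤ r * (r ^ (k - 1) * 2 ^ N0) :=
          Nat.mul_le_mul_left _ (Nat.mul_le_mul_left _ (Nat.pow_le_pow_right (by norm_num) hcon))
      _ = r ^ (k - 1) * (r * 2 ^ N0) := by ring
      _ < (r + 1) ^ (k - 1) := bern r _ _ (by omega) (by omega)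
  obtain ⟨N, rfl⟩ : ∃ N, n = N + 1 := ⟨n - 1, by omega⟩
  have hlarge : N + 1 < 2 ^ (k + r) * (r ! * r) := by
    by_contra hcon
    rw [not_lt] at hcon
    exact large r k (N + 1) (by omega) (by omega) hcon h0
  have hval : ∀ q : ℕ, q.Prime → q ∣ r + 1 →
      (N + 1).factorization q ≤ 2 * (r + 1).factorization q + (r !).factorization q +
        (r !).factorization q := by
    intro q hq hqr
    have h1 : r + 1 = q ^ (r + 1).factorization q * ((r + 1) / q ^ (r + 1).factorization q) :=
      (Nat.ordProj_mul_ordCompl_eq_self (r + 1) q).symm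
    have h2 : N + 1 = q ^ (N + 1).factorization q * ((N + 1) / q ^ (N + 1).factorization q) :=
      (Nat.ordProj_mul_ordCompl_eq_self (N + 1) q).symm
    have h3 : ¬ q ∣ (N + 1) / q ^ (N + 1).factorization q :=
      Nat.not_dvd_ordCompl hq (Nat.succ_ne_zero N)
    have h3' : ¬ q ∣ (r + 1) / q ^ (r + 1).factorization q :=
      Nat.not_dvd_ordCompl hq (Nat.succ_ne_zero r)
    have he1 : 1 ≤ (r + 1).factorization q :=
      (hq.dvd_iff_one_le_factorization (Nat.succ_ne_zero r)).1 hqr
    rcases main' q r _ _ _ k _ N _ _ hq h1 (Nat.ordProj_dvd (r !) q)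
      (Nat.pow_succ_factorization_not_dvd hfac.ne' hq) (hB q hq hqr) h0 h3 h2 with h | h
    · exact h
    · exfalso
      have h5 : 3 ≤ q ^ (r + 1).factorization q := by
        rcases Nat.lt_or_ge 2 q with h6 | h6
        · calc 3 ≤ q := h6
            _ = q ^ 1 := (pow_one q).symm
            _ ≤ _ := Nat.pow_le_pow_right hq.pos he1
        · have h7 : q = 2 := le_antisymm h6 hq.two_le
          subst h7
          have h8 : 2 ≤ (r + 1).factorization 2 := by
            by_contra h9
            have h10 : (r + 1).factorization 2 = 1 := by omega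
            rw [h10, pow_one] at h1 h3'
            omega
          calc 3 ≤ 2 ^ 2 := by norm_num
            _ ≤ _ := Nat.pow_le_pow_right (by norm_num) h8
      have hM : 2 * (r + 1).factorization q + (r !).factorization q ≤ E := by
        have h6 := Nat.factorization_lt q (Nat.succ_ne_zero r)
        have h7 := Nat.factorization_lt q hfac.ne'
        rw [Nat.succ_eq_add_one] at h6
        omega
      have h6 : 3 ^ (k - 1) ≤ 2 ^ (k - 1) * Z := by
        calc 3 ^ (k - 1) ≤ (q ^ (r + 1).factorization q) ^ (k - 1) := Nat.pow_le_pow_left h5 _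
          _ = q ^ ((r + 1).factorization q * (k - 1)) := by rw [← pow_mul]
          _ ≤ q ^ ((N + 1).factorization q +
              (2 * (r + 1).factorization q + (r !).factorization q)) :=
              Nat.pow_le_pow_right hq.pos h
          _ = q ^ (N + 1).factorization q *
              q ^ (2 * (r + 1).factorization q + (r !).factorization q) := pow_add _ _ _
          _ ≤ (N + 1) * (r + 1) ^ E := by
              apply Nat.mul_le_mul
              · exact Nat.ordProj_le q (Nat.succ_ne_zero N)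
              · calc q ^ (2 * (r + 1).factorization q + (r !).factorization q) ≤
                    (r + 1) ^ (2 * (r + 1).factorization q + (r !).factorization q) :=
                      Nat.pow_le_pow_left (Nat.le_of_dvd (Nat.succ_pos r) hqr) _
                  _ ≤ _ := Nat.pow_le_pow_right (Nat.succ_pos r) hM
          _ ≤ (2 ^ (k + r) * (r ! * r)) * (r + 1) ^ E := Nat.mul_le_mul_right _ hlarge.le
          _ = 2 ^ (k - 1) * Z := by
              rw [hZ]
              have : k + r = (k - 1) + (r + 1) := by omega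
              rw [this, pow_add]
              ring
      have h7 : 2 ^ (k - 1) * Z < (2 + 1) ^ (k - 1) := bern 2 Z (k - 1) (by norm_num) (by omega)
      have h8 : (2 + 1) ^ (k - 1) = 3 ^ (k - 1) := rfl
      omega
  have hN1 : N + 1 ≠ 0 := by omega
  have hr1 : r + 1 ≠ 0 := by omega
  have hdvd : N + 1 ∣ r ! * (r + 1) ^ E := by
    rw [← Nat.factorization_prime_le_iff_dvd hN1
      (Nat.mul_ne_zero hfac.ne' (pow_ne_zero _ hr1))]
    intro p hp
    rw [Nat.factorization_mul hfac.ne' (pow_ne_zero _ hr1),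
      Nat.factorization_pow]
    simp only [Finsupp.coe_add, Finsupp.coe_smul, Pi.add_apply, Pi.smul_apply, smul_eq_mul]
    by_cases hpr : p ∣ r + 1
    · have h1 := hval p hp hpr
      have he1 : 1 ≤ (r + 1).factorization p :=
        (hp.dvd_iff_one_le_factorization hr1).1 hpr
      have h6 := Nat.factorization_lt p hr1
      have h7 := Nat.factorization_lt p hfac.ne'
      have h8 : E ≤ E * (r + 1).factorization p := Nat.le_mul_of_pos_right _ he1
      omega
    · have h1 := root_dvd r k N h0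
      have h2 := (Nat.factorization_prime_le_iff_dvd hN1
        (Nat.mul_ne_zero hfac.ne' (pow_ne_zero _ hr1))).2 h1 p hp
      rw [Nat.factorization_mul hfac.ne' (pow_ne_zero _ hr1),
        Nat.factorization_pow] at h2
      simp only [Finsupp.coe_add, Finsupp.coe_smul, Pi.add_apply, Pi.smul_apply, smul_eq_mul] at h2
      have h3 : (r + 1).factorization p = 0 := Nat.factorization_eq_zero_of_not_dvd hpr
      rw [h3, mul_zero, add_zero] at h2
      omega
  have h9 := Nat.le_of_dvd (by positivity) hdvd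
  omega

theorem gen_final (s : ℕ) (hs : 4 ≤ s) (h4 : s % 4 ≠ 2) :
    ∃ K : ℕ, ∀ k : ℕ, K ≤ k →
      ((Even k ∧ ∀ q : ℕ, q.Prime → q ∣ s → q - 1 ∣ k - 2) ∨
        (Odd k ∧ ∀ q : ℕ, q.Prime → q ∣ s → q - 1 ∣ k - 3 ∧ ¬ q ∣ k)) →
      ∀ x : ℤ, F s k x ≠ 0 := by
  obtain ⟨r, rfl⟩ : ∃ r, s = r + 1 := ⟨s - 1, by omega⟩
  have hfac := Nat.factorial_pos r
  obtain ⟨K, hK⟩ := gen_main r (by omega) h4
  refine ⟨K + 2 * (r + 1) + r ! + 5, ?_⟩
  intro k hk hcl
  apply F_ne
  apply hK k (by omega)
  intro q hq hqr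
  have h1 : r + 1 = q ^ (r + 1).factorization q * ((r + 1) / q ^ (r + 1).factorization q) :=
    (Nat.ordProj_mul_ordCompl_eq_self (r + 1) q).symm
  have h3' : ¬ q ∣ (r + 1) / q ^ (r + 1).factorization q :=
    Nat.not_dvd_ordCompl hq (Nat.succ_ne_zero r)
  have he1 : 1 ≤ (r + 1).factorization q :=
    (hq.dvd_iff_one_le_factorization (Nat.succ_ne_zero r)).1 hqr
  have h6 := Nat.factorization_lt q (Nat.succ_ne_zero r)
  have h7 := Nat.factorization_lt q hfac.ne'
  rw [Nat.succ_eq_add_one] at h6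
  rcases hcl with ⟨hev, hc⟩ | ⟨hodd, hc⟩
  · intro hd
    refine B_even' q r _ _ _ k hq h1 he1 h3' (Nat.ordProj_dvd (r !) q)
      (Nat.pow_succ_factorization_not_dvd hfac.ne' hq) (by omega) hev (hc q hq hqr) ?_
    exact (pow_dvd_pow _ (by omega)).trans hd
  · exact B_odd' q r _ _ _ k hq h1 he1 h3' (Nat.ordProj_dvd (r !) q)
      (Nat.pow_succ_factorization_not_dvd hfac.ne' hq) (by omega) hodd (hc q hq hqr).1
      (hc q hq hqr).2

end Pool.Agent.X1.Mos
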