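import Pool.Agent.X1.Mos6

/-! The indices `4` and `8`. -/

set_option autoImplicit false

namespace Pool.Agent.X1.Mos

open Finset Nat

/-- The shape of a root for `s = 2 ^ e`. -/
lemma cand (r e v d k N : ℕ) (hs : r + 1 = 2 ^ e) (hv : r ! = 2 ^ v * d) (hd : ¬ 2 ∣ d)
    (h0 : f r k (N + 1) = 0) :
    ∃ a n' : ℕ, N + 1 = 2 ^ a * n' ∧ ¬ 2 ∣ n' ∧ n' ∣ d ∧ a ≤ v + e * (k - 1) := by
  have h1 := root_dvd r k N h0
  obtain ⟨a, n', hn', hn⟩ := Nat.exists_eq_pow_mul_and_not_dvd (Nat.succ_ne_zero N) 2 (by norm_num)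
  have hn2 : N + 1 = 2 ^ a * n' := hn
  have h2 : r ! * (r + 1) ^ (k - 1) = 2 ^ (v + e * (k - 1)) * d := by
    rw [hv, hs, ← pow_mul, pow_add]
    ring
  rw [h2, hn2] at h1
  refine ⟨a, n', hn2, hn', ?_, ?_⟩
  · have h3 : Nat.Coprime n' (2 ^ (v + e * (k - 1))) :=
      Nat.Coprime.pow_right _ ((Nat.Prime.coprime_iff_not_dvd Nat.prime_two).2 hn').symm
    exact h3.dvd_of_dvd_mul_left ((Dvd.intro_left _ rfl).trans h1)
  · have h3 : Nat.Coprime (2 ^ a) d :=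
      Nat.Coprime.pow_left _ ((Nat.Prime.coprime_iff_not_dvd Nat.prime_two).2 hd)
    have h4 : 2 ^ a ∣ 2 ^ (v + e * (k - 1)) := h3.dvd_of_dvd_mul_right ((Dvd.intro _ rfl).trans h1)
    exact (Nat.pow_dvd_pow_iff_le_right (by norm_num)).1 h4

/-- The exponent of `2` in a root for `s = 2 ^ e`. -/
lemma dich (r e v d k N a n' : ℕ) (hs : r + 1 = 2 ^ e) (he : 1 ≤ e) (hv : r ! = 2 ^ v * d)
    (hd : ¬ 2 ∣ d) (hk : 2 * e + v + 5 ≤ k) (h0 : f r k (N + 1) = 0) (hn : N + 1 = 2 ^ a * n')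
    (hn' : ¬ 2 ∣ n') : a ≤ 2 * e + v + v ∨ e * (k - 1) ≤ a + (2 * e + v) := by
  have hf : 2 ^ v ∣ r ! := ⟨d, hv⟩
  have hf' : ¬ 2 ^ (v + 1) ∣ r ! := by
    rintro ⟨c, hc⟩
    apply hd
    rw [hv, pow_succ, mul_assoc] at hc
    exact ⟨c, Nat.eq_of_mul_eq_mul_left (by positivity) hc⟩
  refine main' 2 r e 1 v k (2 * e + v) N a n' Nat.prime_two (by rw [hs, mul_one]) hf hf' ?_ h0 hn' hn
  rcases Nat.even_or_odd k with hk2 | hk2
  · intro h
    exact B_even 2 r e v k Nat.prime_two hs he hf hf' (by omega) hk2 (one_dvd _)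
      ((pow_dvd_pow _ (by omega)).trans h)
  · exact B_odd r e v k hs he hf hf' hk hk2

/-! ### `s = 4` -/

def pos4 (k n : ℕ) : ℕ := n * (n - 1) * (n - 2) + 6 * 3 ^ (k - 1) * n
def neg4 (k n : ℕ) : ℕ := 3 * 2 ^ (k - 1) * (n * (n - 1)) + 6 * 4 ^ (k - 1)

lemma desc_cast (n j c : ℕ) (hc : c * j ! = 6 ∨ c * j ! = 5040) :
    (c : ℤ) * (n.descFactorial j : ℤ) = ((c * j ! : ℕ) : ℤ) * (n.choose j : ℤ) := by
  rw [Nat.descFactorial_eq_factorial_mul_choose]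
  push_cast
  ring

lemma eq4 (k n : ℕ) : (6 : ℤ) * f 3 k n = (pos4 k n : ℤ) - (neg4 k n : ℤ) := by
  have h1 : (n.descFactorial 1 : ℤ) = ((1 ! : ℕ) : ℤ) * (n.choose 1 : ℤ) := by
    exact_mod_cast Nat.descFactorial_eq_factorial_mul_choose n 1
  have h2 : (n.descFactorial 2 : ℤ) = ((2 ! : ℕ) : ℤ) * (n.choose 2 : ℤ) := by
    exact_mod_cast Nat.descFactorial_eq_factorial_mul_choose n 2
  have h3 : (n.descFactorial 3 : ℤ) = ((3 ! : ℕ) : ℤ) * (n.choose 3 : ℤ) := by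
    exact_mod_cast Nat.descFactorial_eq_factorial_mul_choose n 3
  have e1 : (1 ! : ℕ) = 1 := rfl
  have e2 : (2 ! : ℕ) = 2 := rfl
  have e3 : (3 ! : ℕ) = 6 := rfl
  have p4 : pos4 k n = n.descFactorial 3 + 6 * 3 ^ (k - 1) * n.descFactorial 1 := by
    simp [pos4, Nat.descFactorial]
    ring
  have q4 : neg4 k n = 3 * 2 ^ (k - 1) * n.descFactorial 2 + 6 * 4 ^ (k - 1) := by
    simp [neg4, Nat.descFactorial]
    ring
  rw [p4, q4]
  push_cast
  rw [h1, h2, h3, e1, e2, e3]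
  unfold f
  simp only [sum_range_succ, range_zero, sum_empty, Nat.choose_zero_right]
  norm_num
  ring

def check4 : Bool :=
  (List.range 14).all fun i => (List.range 45).all fun a =>
    !(Nat.beq (pos4 (8 + i) (2 ^ a)) (neg4 (8 + i) (2 ^ a))) &&
    !(Nat.beq (pos4 (8 + i) (2 ^ a * 3)) (neg4 (8 + i) (2 ^ a * 3)))

lemma check4_true : check4 = true := by decide +kernel

/-! ### `s = 8` -/

def pos8 (k n : ℕ) : ℕ :=
  n.descFactorial 7 + 42 * 3 ^ (k - 1) * n.descFactorial 5 +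
    840 * 5 ^ (k - 1) * n.descFactorial 3 + 5040 * 7 ^ (k - 1) * n.descFactorial 1
def neg8 (k n : ℕ) : ℕ :=
  7 * 2 ^ (k - 1) * n.descFactorial 6 + 210 * 4 ^ (k - 1) * n.descFactorial 4 +
    2520 * 6 ^ (k - 1) * n.descFactorial 2 + 5040 * 8 ^ (k - 1)

lemma eq8 (k n : ℕ) : (5040 : ℤ) * f 7 k n = (pos8 k n : ℤ) - (neg8 k n : ℤ) := by
  have h : ∀ j, (n.descFactorial j : ℤ) = ((j ! : ℕ) : ℤ) * (n.choose j : ℤ) := fun j => by
    exact_mod_cast Nat.descFactorial_eq_factorial_mul_choose n j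
  have e1 : (1 ! : ℕ) = 1 := rfl
  have e2 : (2 ! : ℕ) = 2 := rfl
  have e3 : (3 ! : ℕ) = 6 := rfl
  have e4 : (4 ! : ℕ) = 24 := rfl
  have e5 : (5 ! : ℕ) = 120 := rfl
  have e6 : (6 ! : ℕ) = 720 := rfl
  have e7 : (7 ! : ℕ) = 5040 := rfl
  unfold pos8 neg8
  push_cast
  rw [h 1, h 2, h 3, h 4, h 5, h 6, h 7, e1, e2, e3, e4, e5, e6, e7]
  unfold f
  simp only [sum_range_succ, range_zero, sum_empty, Nat.choose_zero_right]
  norm_num
  ring

def divs : List ℕ := [1, 3, 5, 7, 9, 15, 21, 35, 45, 63, 105, 315]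

def check8a : Bool :=
  (List.range 110).all fun i => (List.range 15).all fun a => divs.all fun d =>
    !(Nat.beq (pos8 (18 + i) (2 ^ a * d)) (neg8 (18 + i) (2 ^ a * d)))

def check8b : Bool :=
  (List.range 2).all fun i => (List.range 56).all fun a => divs.all fun d =>
    !(Nat.beq (pos8 (16 + i) (2 ^ a * d)) (neg8 (16 + i) (2 ^ a * d)))

lemma check8b_true : check8b = true := by decide +kernel

lemma check8a_true : check8a = true := by decide +kernel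

end Pool.Agent.X1.Mos
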