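import Pool.Agent.X1.Mos7

/-! The indices `4` and `8`: no integer roots for `k ≥ 2 s`. -/

set_option autoImplicit false

namespace Pool.Agent.X1.Mos

open Finset Nat

lemma neg_big4 (k n : ℕ) (hk : 22 ≤ k) (hn : n ≤ 192) : pos4 k n < neg4 k n := by
  obtain ⟨d, hd⟩ : ∃ d, k - 1 = 21 + d := ⟨k - 22, by omega⟩
  have h1 : n * (n - 1) * (n - 2) ≤ 192 * 192 * 192 :=
    Nat.mul_le_mul (Nat.mul_le_mul hn (by omega)) (by omega)
  have h3 : 3 ^ d ≤ 4 ^ d := Nat.pow_le_pow_left (by norm_num) d
  have h4 : 1 ≤ 4 ^ d := Nat.one_le_pow _ _ (by norm_num)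
  calc pos4 k n = n * (n - 1) * (n - 2) + 6 * (3 ^ 21 * 3 ^ d) * n := by
        rw [pos4, hd, pow_add]
    _ ≤ 192 * 192 * 192 * 4 ^ d + 6 * (3 ^ 21 * 4 ^ d) * 192 := by
        apply Nat.add_le_add
        · exact h1.trans (Nat.le_mul_of_pos_right _ h4)
        · exact Nat.mul_le_mul (Nat.mul_le_mul_left _ (Nat.mul_le_mul_left _ h3)) hn
    _ = (192 * 192 * 192 + 6 * 3 ^ 21 * 192) * 4 ^ d := by ring
    _ < (6 * 4 ^ 21) * 4 ^ d := Nat.mul_lt_mul_of_pos_right (by norm_num) h4
    _ = 6 * 4 ^ (k - 1) := by rw [hd, pow_add]; ring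
    _ ≤ neg4 k n := by
        unfold neg4
        exact Nat.le_add_left _ _

theorem four (k : ℕ) (hk : 8 ≤ k) (x : ℤ) : F 4 k x ≠ 0 := by
  refine F_ne 3 k ?_ x
  intro n h0
  have hpn : pos4 k n = neg4 k n := by
    have h1 := eq4 k n
    rw [h0, mul_zero] at h1
    omega
  rcases Nat.eq_zero_or_pos n with hn | hn
  · subst hn
    have h1 : 0 < 4 ^ (k - 1) := by positivity
    simp [pos4, neg4] at hpn
  · obtain ⟨N, rfl⟩ : ∃ N, n = N + 1 := ⟨n - 1, by omega⟩
    obtain ⟨a, n', hn2, hn', hdvd, ha⟩ := cand 3 2 1 3 k N rfl rfl (by norm_num) h0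
    have hn3 : n' = 1 ∨ n' = 3 := (Nat.dvd_prime Nat.prime_three).1 hdvd
    rcases Nat.lt_or_ge k 22 with hk2 | hk2
    · have h1 := check4_true
      unfold check4 at h1
      rw [List.all_eq_true] at h1
      have h2 := h1 (k - 8) (List.mem_range.2 (by omega))
      rw [List.all_eq_true] at h2
      have h3 := h2 a (List.mem_range.2 (by omega))
      have h4 : 8 + (k - 8) = k := by omega
      rw [h4, Bool.and_eq_true] at h3
      rcases hn3 with h5 | h5
      · rw [h5, mul_one] at hn2
        rw [hn2] at hpn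
        have h6 := h3.1
        rw [hpn] at h6
        simp at h6
      · rw [h5] at hn2
        rw [hn2] at hpn
        have h6 := h3.2
        rw [hpn] at h6
        simp at h6
    · rcases dich 3 2 1 3 k N a n' rfl (by norm_num) rfl (by norm_num) (by omega) h0 hn2 hn'
        with h | h
      · have h1 : N + 1 ≤ 192 := by
          rw [hn2]
          calc 2 ^ a * n' ≤ 2 ^ 6 * 3 := Nat.mul_le_mul (Nat.pow_le_pow_right (by norm_num) h)
                (by omega)
            _ = 192 := by norm_num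
        exact absurd hpn (neg_big4 k (N + 1) hk2 h1).ne
      · have hlarge : N + 1 < 2 ^ (k + 3) * (3 ! * 3) := by
          by_contra hcon
          rw [not_lt] at hcon
          exact large 3 k (N + 1) (by omega) (by omega) hcon h0
        have hf : 3 ! * 3 = 18 := rfl
        rw [hf] at hlarge
        have h1 : 2 ^ (k - 1) * 2 ^ (k - 1) ≤ 2 ^ (k - 1) * 9216 := by
          calc 2 ^ (k - 1) * 2 ^ (k - 1) = 2 ^ (2 * (k - 1)) := by rw [two_mul, pow_add]
            _ ≤ 2 ^ (a + (2 * 2 + 1)) := Nat.pow_le_pow_right (by norm_num) h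
            _ = 2 ^ a * 32 := by rw [pow_add]; norm_num
            _ ≤ (2 ^ a * n') * 32 := by
                apply Nat.mul_le_mul_right
                apply Nat.le_mul_of_pos_right
                omega
            _ ≤ (2 ^ (k + 3) * 18) * 32 := Nat.mul_le_mul_right _ (by rw [← hn2]; exact hlarge.le)
            _ = 2 ^ (k - 1) * 9216 := by
                have : k + 3 = (k - 1) + 4 := by omega
                rw [this, pow_add]
                ring
        have h2 : 2 ^ (k - 1) ≤ 9216 := Nat.le_of_mul_le_mul_left h1 (by positivity)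
        have h3 : 2 ^ 14 ≤ 2 ^ (k - 1) := Nat.pow_le_pow_right (by norm_num) (by omega)
        norm_num at h3
        omega

lemma divs_mem : ∀ d < 316, d ∣ 315 → d ∈ divs := by decide +kernel

lemma neg_big8 (k n : ℕ) (hk : 128 ≤ k) (hn : n ≤ 5160960) : pos8 k n < neg8 k n := by
  obtain ⟨d, hd⟩ : ∃ d, k - 1 = 127 + d := ⟨k - 128, by omega⟩
  have hj : ∀ j, n.descFactorial j ≤ 5160960 ^ j := fun j =>
    (Nat.descFactorial_le_pow n j).trans (Nat.pow_le_pow_left hn j)
  have h3 : 3 ^ d ≤ 8 ^ d := Nat.pow_le_pow_left (by norm_num) d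
  have h5 : 5 ^ d ≤ 8 ^ d := Nat.pow_le_pow_left (by norm_num) d
  have h7 : 7 ^ d ≤ 8 ^ d := Nat.pow_le_pow_left (by norm_num) d
  have h4 : 1 ≤ 8 ^ d := Nat.one_le_pow _ _ (by norm_num)
  calc pos8 k n = n.descFactorial 7 + 42 * (3 ^ 127 * 3 ^ d) * n.descFactorial 5 +
      840 * (5 ^ 127 * 5 ^ d) * n.descFactorial 3 + 5040 * (7 ^ 127 * 7 ^ d) * n.descFactorial 1 := by
        rw [pos8, hd, pow_add, pow_add, pow_add]
    _ ≤ 5160960 ^ 7 * 8 ^ d + 42 * (3 ^ 127 * 8 ^ d) * 5160960 ^ 5 +
      840 * (5 ^ 127 * 8 ^ d) * 5160960 ^ 3 + 5040 * (7 ^ 127 * 8 ^ d) * 5160960 ^ 1 := by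
        refine Nat.add_le_add (Nat.add_le_add (Nat.add_le_add ?_ ?_) ?_) ?_
        · exact (hj 7).trans (Nat.le_mul_of_pos_right _ h4)
        · exact Nat.mul_le_mul (Nat.mul_le_mul_left _ (Nat.mul_le_mul_left _ h3)) (hj 5)
        · exact Nat.mul_le_mul (Nat.mul_le_mul_left _ (Nat.mul_le_mul_left _ h5)) (hj 3)
        · exact Nat.mul_le_mul (Nat.mul_le_mul_left _ (Nat.mul_le_mul_left _ h7)) (hj 1)
    _ = (5160960 ^ 7 + 42 * 3 ^ 127 * 5160960 ^ 5 + 840 * 5 ^ 127 * 5160960 ^ 3 +
          5040 * 7 ^ 127 * 5160960 ^ 1) * 8 ^ d := by ring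
    _ < (5040 * 8 ^ 127) * 8 ^ d := Nat.mul_lt_mul_of_pos_right (by norm_num) h4
    _ = 5040 * 8 ^ (k - 1) := by rw [hd, pow_add]; ring
    _ ≤ neg8 k n := by
        unfold neg8
        exact Nat.le_add_left _ _

theorem eight (k : ℕ) (hk : 16 ≤ k) (x : ℤ) : F 8 k x ≠ 0 := by
  refine F_ne 7 k ?_ x
  intro n h0
  have hpn : pos8 k n = neg8 k n := by
    have h1 := eq8 k n
    rw [h0, mul_zero] at h1
    omega
  rcases Nat.eq_zero_or_pos n with hn | hn
  · subst hn
    have h1 : 0 < 8 ^ (k - 1) := by positivity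
    simp [pos8, neg8, Nat.descFactorial] at hpn
  · obtain ⟨N, rfl⟩ : ∃ N, n = N + 1 := ⟨n - 1, by omega⟩
    obtain ⟨a, n', hn2, hn', hdvd, ha⟩ := cand 7 3 4 315 k N rfl rfl (by norm_num) h0
    have hle : n' ≤ 315 := Nat.le_of_dvd (by norm_num) hdvd
    have hmem : n' ∈ divs := divs_mem n' (by omega) hdvd
    rcases Nat.lt_or_ge k 18 with hk2 | hk2
    · have h1 := check8b_true
      unfold check8b at h1
      rw [List.all_eq_true] at h1
      have h2 := h1 (k - 16) (List.mem_range.2 (by omega))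
      rw [List.all_eq_true] at h2
      have h3 := h2 a (List.mem_range.2 (by omega))
      rw [List.all_eq_true] at h3
      have h6 := h3 n' hmem
      have h4 : 16 + (k - 16) = k := by omega
      rw [h4, ← hn2, hpn] at h6
      simp at h6
    · rcases dich 7 3 4 315 k N a n' rfl (by norm_num) rfl (by norm_num) (by omega) h0 hn2 hn'
        with h | h
      · rcases Nat.lt_or_ge k 128 with hk3 | hk3
        · have h1 := check8a_true
          unfold check8a at h1
          rw [List.all_eq_true] at h1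
          have h2 := h1 (k - 18) (List.mem_range.2 (by omega))
          rw [List.all_eq_true] at h2
          have h3 := h2 a (List.mem_range.2 (by omega))
          rw [List.all_eq_true] at h3
          have h6 := h3 n' hmem
          have h4 : 18 + (k - 18) = k := by omega
          rw [h4, ← hn2, hpn] at h6
          simp at h6
        · have h1 : N + 1 ≤ 5160960 := by
            rw [hn2]
            calc 2 ^ a * n' ≤ 2 ^ 14 * 315 := Nat.mul_le_mul
                  (Nat.pow_le_pow_right (by norm_num) h) hle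
              _ = 5160960 := by norm_num
          exact absurd hpn (neg_big8 k (N + 1) hk3 h1).ne
      · have hlarge : N + 1 < 2 ^ (k + 7) * (7 ! * 7) := by
          by_contra hcon
          rw [not_lt] at hcon
          exact large 7 k (N + 1) (by omega) (by omega) hcon h0
        have hf : 7 ! * 7 = 35280 := rfl
        rw [hf] at hlarge
        have h1 : 2 ^ (k - 1) * 2 ^ (2 * (k - 1)) ≤ 2 ^ (k - 1) * (2 ^ 18 * 35280) := by
          calc 2 ^ (k - 1) * 2 ^ (2 * (k - 1)) = 2 ^ (3 * (k - 1)) := by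
                rw [← pow_add]
                congr 1
                ring
            _ ≤ 2 ^ (a + (2 * 3 + 4)) := Nat.pow_le_pow_right (by norm_num) h
            _ = 2 ^ a * 1024 := by rw [pow_add]; norm_num
            _ ≤ (2 ^ a * n') * 1024 := by
                apply Nat.mul_le_mul_right
                apply Nat.le_mul_of_pos_right
                rcases Nat.eq_zero_or_pos n' with h5 | h5
                · rw [h5] at hn'
                  exact absurd (dvd_zero 2) hn'
                · exact h5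
            _ ≤ (2 ^ (k + 7) * 35280) * 1024 := Nat.mul_le_mul_right _ (by rw [← hn2]; exact hlarge.le)
            _ = 2 ^ (k - 1) * (2 ^ 18 * 35280) := by
                have : k + 7 = (k - 1) + 8 := by omega
                rw [this, pow_add]
                ring
        have h2 : 2 ^ (2 * (k - 1)) ≤ 2 ^ 18 * 35280 := Nat.le_of_mul_le_mul_left h1 (by positivity)
        have h3 : 2 ^ 34 ≤ 2 ^ (2 * (k - 1)) := Nat.pow_le_pow_right (by norm_num) (by omega)
        norm_num at h2 h3
        omega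

theorem root4 : F 4 7 8 = 0 := by
  have h := F_nat 3 7 8
  have h2 : f 3 7 8 = 0 := by
    have h3 := eq4 7 8
    norm_num [pos4, neg4] at h3
    exact h3
  exact_mod_cast h.trans h2

theorem root8 : F 8 15 16 = 0 := by
  have h := F_nat 7 15 16
  have h2 : f 7 15 16 = 0 := by
    have h3 := eq8 15 16
    norm_num [pos8, neg8, Nat.descFactorial] at h3
    exact h3
  exact_mod_cast h.trans h2

end Pool.Agent.X1.Mos
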