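import Pool.Agent.X1.Mos6

/-! The largest root for `s ≡ 2` modulo `4`. -/

set_option autoImplicit false

namespace Pool.Agent.X1.Mos

open Finset Nat Filter Topology

/-- falling factorial -/
noncomputable def D (j : ℕ) (y : ℝ) : ℝ := ∏ i ∈ range j, (y - i)

lemma D_nat (j n : ℕ) : D j (n : ℝ) = (n.descFactorial j : ℝ) := by
  unfold D
  induction j with
  | zero => simp
  | succ j ih =>
    rw [prod_range_succ, ih, Nat.descFactorial_succ]
    rcases Nat.lt_or_ge n j with h | h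
    · have : n.descFactorial j = 0 := Nat.descFactorial_eq_zero_iff_lt.2 h
      rw [this]
      simp
    · push_cast
      rw [Nat.cast_sub h]
      ring

lemma choose_D (j n : ℕ) : (n.choose j : ℝ) = D j n / (j ! : ℝ) := by
  rw [D_nat, Nat.descFactorial_eq_factorial_mul_choose]
  have : (j ! : ℝ) ≠ 0 := by positivity
  push_cast
  field_simp

/-- `(D j y) / y ^ j → 1` -/
lemma D_lim (j : ℕ) (y : ℕ → ℝ) (hy : Tendsto y atTop atTop) :
    Tendsto (fun k => D j (y k) / y k ^ j) atTop (𝓝 1) := by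
  have h1 : ∀ᶠ k in atTop, D j (y k) / y k ^ j = ∏ i ∈ range j, (1 - (i : ℝ) / y k) := by
    filter_upwards [hy.eventually_gt_atTop 0] with k hk
    unfold D
    rw [← card_range j, ← prod_const, card_range, ← prod_div_distrib]
    apply prod_congr rfl
    intro i _
    field_simp
  rw [tendsto_congr' h1]
  have h2 : Tendsto (fun k => ∏ i ∈ range j, (1 - (i : ℝ) / y k)) atTop
      (𝓝 (∏ i ∈ range j, ((1 : ℝ) - 0))) := by
    apply tendsto_finset_prod
    intro i _
    exact tendsto_const_nhds.sub (tendsto_const_nhds.div_atTop hy)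
  simpa using h2

/-- `f` as a real sum -/
lemma f_real (r k n : ℕ) : (f r k n : ℝ) =
    ∑ j ∈ range (r + 1), (-1) ^ (r - j) * ((r : ℝ) + 1 - j) ^ (k - 1) * (D j n / (j ! : ℝ)) := by
  unfold f
  push_cast
  apply sum_congr rfl
  intro j _
  rw [choose_D]

lemma p_lt (p : ℕ) (hp : 3 ≤ p) : (p : ℝ) / 2 ^ (p - 1) < 1 := by
  rw [div_lt_one (by positivity)]
  have : ∀ m : ℕ, m + 3 < 2 ^ (m + 2) := by
    intro m
    induction m with
    | zero => norm_num
    | succ m ih => rw [pow_succ]; omega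
  have h := this (p - 3)
  have h1 : p - 3 + 3 = p := by omega
  have h2 : p - 3 + 2 = p - 1 := by omega
  rw [h1, h2] at h
  exact_mod_cast h

/-- `p ^ k / (β 2 ^ k) ^ (p - 1)` -/
lemma ratio_lim (β : ℝ) (hβ : 0 < β) (p : ℕ) (hp : 3 ≤ p) :
    Tendsto (fun k : ℕ => (p : ℝ) ^ k / (β * 2 ^ k) ^ (p - 1)) atTop (𝓝 0) := by
  have h1 : ∀ k : ℕ, (p : ℝ) ^ k / (β * 2 ^ k) ^ (p - 1) =
      (β ^ (p - 1))⁻¹ * ((p : ℝ) / 2 ^ (p - 1)) ^ k := by
    intro k
    rw [mul_pow, div_pow, ← pow_mul, ← pow_mul, mul_comm k (p - 1)]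
    field_simp
  simp_rw [h1]
  have h2 := tendsto_pow_atTop_nhds_zero_of_lt_one (r := (p : ℝ) / 2 ^ (p - 1)) (by positivity)
    (p_lt p hp)
  simpa using h2.const_mul ((β ^ (p - 1))⁻¹)

lemma y_lim (β : ℝ) (hβ : 0 < β) : Tendsto (fun k : ℕ => β * (2 : ℝ) ^ k) atTop atTop :=
  (tendsto_pow_atTop_atTop_of_one_lt (by norm_num)).const_mul_atTop hβ

/-- first order -/
lemma first (r : ℕ) (hr : 2 ≤ r) (β : ℝ) (hβ : 0 < β) (hne : β ≠ r) :
    ∀ᶠ k : ℕ in atTop, ∑ j ∈ range (r + 1), (-1) ^ (r - j) * ((r : ℝ) + 1 - j) ^ k *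
      (D j (β * 2 ^ k) / (j ! : ℝ)) ≠ 0 := by
  have hlim : Tendsto (fun k : ℕ => ∑ j ∈ range (r + 1), ((-1) ^ (r - j) / (j ! : ℝ)) *
      (((r : ℝ) + 1 - j) ^ k / (β * 2 ^ k) ^ (r - j)) * (D j (β * 2 ^ k) / (β * 2 ^ k) ^ j)) atTop
      (𝓝 (∑ j ∈ range (r + 1), ((-1) ^ (r - j) / (j ! : ℝ)) *
        (if j = r then 1 else if j = r - 1 then β⁻¹ else 0) * 1)) := by
    apply tendsto_finset_sum
    intro j hj
    rw [mem_range] at hj
    apply Tendsto.mul _ (D_lim j _ (y_lim β hβ))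
    apply Tendsto.const_mul
    by_cases h1 : j = r
    · rw [if_pos h1, h1]
      have : ∀ k : ℕ, ((r : ℝ) + 1 - r) ^ k / (β * 2 ^ k) ^ (r - r) = 1 := by
        intro k
        rw [Nat.sub_self, pow_zero, div_one, add_sub_cancel_left, one_pow]
      simp_rw [this]
      exact tendsto_const_nhds
    · rw [if_neg h1]
      by_cases h2 : j = r - 1
      · rw [if_pos h2]
        have h3 : r - j = 1 := by omega
        have h4 : (r : ℝ) + 1 - j = 2 := by
          have : r = j + 1 := by omega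
          rw [this]
          push_cast
          ring
        have : ∀ k : ℕ, ((r : ℝ) + 1 - j) ^ k / (β * 2 ^ k) ^ (r - j) = β⁻¹ := by
          intro k
          rw [h3, h4, pow_one]
          field_simp
        simp_rw [this]
        exact tendsto_const_nhds
      · rw [if_neg h2]
        have h3 := ratio_lim β hβ (r + 1 - j) (by omega)
        have h4 : r + 1 - j - 1 = r - j := by omega
        rw [h4, Nat.cast_sub (by omega)] at h3
        push_cast at h3
        exact h3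
  have hval : (∑ j ∈ range (r + 1), ((-1) ^ (r - j) / (j ! : ℝ)) *
        (if j = r then 1 else if j = r - 1 then β⁻¹ else 0) * 1) =
        1 / (r ! : ℝ) - β⁻¹ / ((r - 1)! : ℝ) := by
    obtain ⟨t, rfl⟩ : ∃ t, r = t + 2 := ⟨r - 2, by omega⟩
    rw [sum_range_succ, sum_range_succ, sum_eq_zero]
    · have h1 : t + 2 - (t + 1) = 1 := by omega
      have h2 : t + 1 ≠ t + 2 := by omega
      have h3 : t + 2 - 1 = t + 1 := by omega
      rw [if_neg h2, h3, if_pos rfl, if_pos rfl, Nat.sub_self, h1]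
      ring
    · intro j hj
      rw [mem_range] at hj
      rw [if_neg (by omega), if_neg (by omega)]
      ring
  rw [hval] at hlim
  have hL : 1 / (r ! : ℝ) - β⁻¹ / ((r - 1)! : ℝ) ≠ 0 := by
    have h1 : (r ! : ℝ) = r * ((r - 1)! : ℝ) := by
      have : r ! = r * (r - 1)! := (Nat.mul_factorial_pred (by omega)).symm
      exact_mod_cast this
    have h2 : ((r - 1)! : ℝ) ≠ 0 := by positivity
    have h3 : (r : ℝ) ≠ 0 := by
      have : r ≠ 0 := by omega
      exact_mod_cast this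
    rw [h1]
    intro h4
    apply hne
    field_simp at h4
    linarith
  filter_upwards [hlim.eventually_ne hL] with k hk h0
  apply hk
  have hpos : (0 : ℝ) < β * 2 ^ k := by positivity
  have h5 : ∑ j ∈ range (r + 1), ((-1) ^ (r - j) / (j ! : ℝ)) *
      (((r : ℝ) + 1 - j) ^ k / (β * 2 ^ k) ^ (r - j)) * (D j (β * 2 ^ k) / (β * 2 ^ k) ^ j) =
      (∑ j ∈ range (r + 1), (-1) ^ (r - j) * ((r : ℝ) + 1 - j) ^ k *
      (D j (β * 2 ^ k) / (j ! : ℝ))) / (β * 2 ^ k) ^ r := by
    rw [sum_div]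
    apply sum_congr rfl
    intro j hj
    rw [mem_range] at hj
    have h6 : (β * 2 ^ k) ^ r = (β * 2 ^ k) ^ (r - j) * (β * 2 ^ k) ^ j := by
      rw [← pow_add]
      congr 1
      omega
    rw [h6]
    field_simp
  rw [h5, h0, zero_div]

end Pool.Agent.X1.Mos
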