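import Mathlib
import Pool.Agent.X1.NfaE2

/-!
# Automata and the digits of two numbers with a difference of irrationality exponent two
-/

set_option autoImplicit false

namespace Pool.Agent.X1.NfaAlg

open Finset Pool.Agent.X3.NfaWords

variable {α β : Type}

lemma sep_mono {x : ℕ → α} {l a a' a'' : ℕ} (h : Sep x l a a') (haa : a' ≤ a'') :
    Sep x l a a'' := by
  intro u s h1 h2 h3 h4
  obtain ⟨j, h5, h6, h7⟩ := h u s h1 h2 h3 h4
  exact ⟨j, h5, by omega, h7⟩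

/-- from good regions to words -/
lemma geo_core {ρ A B D : ℝ} (hρ : 1 < ρ) (hA : 0 ≤ A) (N₀ : ℕ) (hB1 : B * (ρ - 1) = ρ + A + 3)
    (hB0 : 0 < B) (hDB : N₀ + B ≤ D) (hD4 : 4 / (ρ - 1) ≤ D) (hD1 : 1 ≤ D)
    {σ : Type} [Fintype σ] (x : ℕ → α) (M : NFA α σ) (N n : ℕ) (hacc : seg x 0 N ∈ M.accepts)
    (K : ℕ) (hK : 1 ≤ K) (G : Finset ℕ) (hGn : ∀ i ∈ G, i < n) (hGcard : K ≤ G.card) (l : ℕ)
    (hl : l = ⌊(N : ℝ) / (D * ρ ^ n)⌋₊)
    (hG : 1 ≤ l → ∀ i ∈ G, Sep x l (Bt ρ A l N₀ i) (Bt ρ A l N₀ (i + 1))) :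
    ∃ W : Finset (List α), (∀ w ∈ W, w.length = N ∧ w ∈ M.accepts) ∧
      ((N : ℝ) / (D * ρ ^ n * (Fintype.card σ : ℝ))) ^ K ≤ N * W.card := by
  classical
  have hρ1 : 0 < ρ - 1 := by linarith
  have hN₀R : (0 : ℝ) ≤ N₀ := Nat.cast_nonneg _
  have hD0 : 0 < D := by linarith
  have hGr : G ⊆ range n := fun i hi => mem_range.2 (hGn i hi)
  have hKn : K ≤ n := by
    have := card_le_card hGr
    rw [card_range] at this
    omega
  have hD4K : 4 * (K : ℝ) ≤ D * ρ ^ n := by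
    have h1 := bern hρ.le K
    have h2 : ρ ^ K ≤ ρ ^ n := pow_le_pow_right₀ hρ.le hKn
    have h3 : 4 / (ρ - 1) * (1 + K * (ρ - 1)) = 4 / (ρ - 1) + 4 * K := by field_simp
    have h4 : 4 / (ρ - 1) * (1 + K * (ρ - 1)) ≤ D * ρ ^ n :=
      mul_le_mul hD4 (h1.trans h2) (by positivity) hD0.le
    have h5 : 0 < 4 / (ρ - 1) := by positivity
    linarith
  rw [NFA.accepts_iff_exists_path] at hacc
  obtain ⟨s, hs, t, ht, ⟨p⟩⟩ := hacc
  obtain ⟨f, hf0, hfN, hf⟩ := run_of_P N 0 s t (by simpa using P_of_path p)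
  rw [Nat.zero_add] at hfN
  have hrun : Run M x f N := fun i hi => hf i (Nat.zero_le _) (by omega)
  have hacc' : ∀ w, P M s w t → w ∈ M.accepts := by
    intro w hw
    rw [NFA.accepts_iff_exists_path]
    exact ⟨s, hs, t, ht, path_of_P hw⟩
  obtain ⟨q, hqe⟩ : ∃ q, q = Fintype.card σ := ⟨_, rfl⟩
  have hq : 1 ≤ q := by rw [hqe]; exact Fintype.card_pos_iff.2 ⟨s⟩
  have hqR : (1 : ℝ) ≤ q := by exact_mod_cast hq
  rw [← hqe]
  obtain ⟨X, hX⟩ : ∃ X : ℝ, X = (N : ℝ) / (D * ρ ^ n * (q : ℝ)) := ⟨_, rfl⟩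
  rw [← hX]
  have hρ0 : (0 : ℝ) < ρ := by linarith
  have hCk : (0 : ℝ) < D * ρ ^ n := by positivity
  have hX0 : 0 ≤ X := by rw [hX]; positivity
  -- the trivial set
  have htriv : X ^ K ≤ N → ∃ W : Finset (List α), (∀ w ∈ W, w.length = N ∧ w ∈ M.accepts) ∧
      X ^ K ≤ N * W.card := by
    intro h
    refine ⟨{seg x 0 N}, fun w hw => ?_, by rw [card_singleton]; simpa using h⟩
    rw [mem_singleton] at hw
    subst hw
    exact ⟨by rw [seg_length]; omega, hacc' _ (by simpa using P_of_path p)⟩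
  rcases Nat.eq_zero_or_pos N with hN0 | hNpos
  · apply htriv
    rw [hX, hN0]
    simp [show K ≠ 0 by omega]
  have hN1 : (1 : ℝ) ≤ N := by exact_mod_cast hNpos
  rcases le_or_gt X 1 with hX1 | hX1
  · apply htriv
    exact (pow_le_one₀ hX0 hX1).trans hN1
  have hNC : (N : ℝ) / (D * ρ ^ n) = X * q := by
    rw [hX]; field_simp
  have hl1 : (l : ℝ) ≤ N / (D * ρ ^ n) := by rw [hl]; exact Nat.floor_le (by positivity)
  have hl2 : (N : ℝ) / (D * ρ ^ n) < l + 1 := by rw [hl]; exact Nat.lt_floor_add_one _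
  have hl3 : 1 ≤ l := by
    rw [hl]
    apply Nat.le_floor
    rw [hNC]
    push_cast
    nlinarith
  have hlR : (1 : ℝ) ≤ l := by exact_mod_cast hl3
  have hlN : (l : ℝ) * (D * ρ ^ n) ≤ N := by
    rwa [le_div_iff₀ hCk] at hl1
  -- all regions are before `N`
  have hBN : Bt ρ A l N₀ n ≤ N := by
    have h1 := Bt_le hρ hA hB1 hl3 N₀ n
    have h2 : (Bt ρ A l N₀ n : ℝ) ≤ N := by
      have h3 : (N₀ : ℝ) + B * l ≤ (N₀ + B) * l := by nlinarith
      have h7 : (0 : ℝ) ≤ B * l := by positivity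
      have h8 : (0 : ℝ) ≤ ρ ^ n := by positivity
      calc (Bt ρ A l N₀ n : ℝ) ≤ ρ ^ n * (N₀ + B * l) := by linarith
        _ ≤ ρ ^ n * ((N₀ + B) * l) := mul_le_mul_of_nonneg_left h3 h8
        _ ≤ ρ ^ n * (D * l) :=
            mul_le_mul_of_nonneg_left (mul_le_mul_of_nonneg_right hDB (by linarith)) h8
        _ = l * (D * ρ ^ n) := by ring
        _ ≤ N := hlN
    exact_mod_cast h2
  have hBmono := Bt_mono hρ.le hA l N₀
  obtain ⟨g, hg⟩ : ∃ g : Fin K ↪o ℕ, g = G.orderEmbOfCardLe hGcard := ⟨_, rfl⟩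
  have hgm : ∀ i, g i ∈ G := by
    intro i
    rw [hg]
    exact orderEmbOfCardLe_mem _ _ _
  have hgK : ∀ i, g i < n := fun i => hGn _ (hgm i)
  obtain ⟨a, ha⟩ : ∃ a : ℕ → ℕ, a = fun m => if h : m < K then Bt ρ A l N₀ (g ⟨m, h⟩) else N :=
    ⟨_, rfl⟩
  have ha1 : ∀ m (h : m < K), a m = Bt ρ A l N₀ (g ⟨m, h⟩) := by
    intro m h
    rw [ha]
    simp [h]
  have haK : a K = N := by
    rw [ha]
    simp
  have hnext : ∀ m (h : m < K), Bt ρ A l N₀ (g ⟨m, h⟩ + 1) ≤ a (m + 1) := by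
    intro m h
    rcases Nat.lt_or_ge (m + 1) K with h2 | h2
    · rw [ha1 _ h2]
      apply hBmono.monotone
      have : g ⟨m, h⟩ < g ⟨m + 1, h2⟩ := g.strictMono (by simp)
      omega
    · have : m + 1 = K := by omega
      rw [this, haK]
      refine le_trans (hBmono.monotone ?_) hBN
      have := hgK ⟨m, h⟩
      omega
  have hsep : ∀ i, i < K → a i + l ≤ a (i + 1) ∧ Sep x l (a i) (a (i + 1)) := by
    intro i hi
    have h1 := hnext i hi
    have h2 := Bt_step hρ.le hA l N₀ (g ⟨i, hi⟩)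
    rw [ha1 i hi]
    exact ⟨by omega, sep_mono (hG hl3 _ (hgm ⟨i, hi⟩)) h1⟩
  obtain ⟨W, hW1, hW2⟩ := regions hrun K l ⌈X⌉₊ a haK.le hsep (by
    intro n hn
    apply Nat.ceil_le.2
    rw [← hqe] at hn
    have hnR : ((l : ℝ) + 1) ≤ n * q := by exact_mod_cast hn
    rw [hNC] at hl2
    have : X * q < n * q := by linarith
    exact (lt_of_mul_lt_mul_right this (by linarith)).le)
  rcases Nat.eq_zero_or_pos W.card with hWc | hWc
  · -- the bound is trivial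
    apply htriv
    rw [hWc] at hW2
    have h1 : ⌈X⌉₊ ^ K < K * l + 1 := by
      by_contra hcon
      push Not at hcon
      have := Nat.div_pos hcon (by omega)
      omega
    have h2 : X ^ K ≤ (⌈X⌉₊ : ℝ) ^ K := pow_le_pow_left₀ hX0 (Nat.le_ceil _) _
    have h3 : ((⌈X⌉₊ ^ K : ℕ) : ℝ) ≤ ((K * l : ℕ) : ℝ) := by exact_mod_cast (by omega)
    push_cast at h3
    have h4 : (K : ℝ) * l ≤ N := by
      have h5 : (K : ℝ) ≤ D * ρ ^ n := by
        have h6 : (0 : ℝ) ≤ K := Nat.cast_nonneg _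
        linarith
      calc (K : ℝ) * l ≤ (D * ρ ^ n) * l := mul_le_mul_of_nonneg_right h5 (by linarith)
        _ = l * (D * ρ ^ n) := by ring
        _ ≤ N := hlN
    linarith
  · refine ⟨W, fun w hw => ⟨(hW1 w hw).1, hacc' _ ?_⟩, ?_⟩
    · have := (hW1 w hw).2
      rwa [hf0, hfN] at this
    · have h1 : ⌈X⌉₊ ^ K < (K * l + 1) * (W.card + 1) := by
        calc ⌈X⌉₊ ^ K < (K * l + 1) * (⌈X⌉₊ ^ K / (K * l + 1) + 1) :=
              Nat.lt_mul_div_succ _ (by omega)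
          _ ≤ _ := Nat.mul_le_mul_left _ (by omega)
      have h2 : X ^ K ≤ (⌈X⌉₊ : ℝ) ^ K := pow_le_pow_left₀ hX0 (Nat.le_ceil _) _
      have h3 : ((⌈X⌉₊ ^ K : ℕ) : ℝ) ≤ (((K * l + 1) * (W.card + 1) : ℕ) : ℝ) := by
        exact_mod_cast h1.le
      push_cast at h3
      have hWR : (1 : ℝ) ≤ W.card := by exact_mod_cast hWc
      have hKR : (1 : ℝ) ≤ K := by exact_mod_cast hK
      have h4 : 4 * ((K : ℝ) * l) ≤ N := by
        calc 4 * ((K : ℝ) * l) = (4 * K) * l := by ring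
          _ ≤ (D * ρ ^ n) * l := mul_le_mul_of_nonneg_right hD4K (by linarith)
          _ = l * (D * ρ ^ n) := by ring
          _ ≤ N := hlN
      have h6 : (1 : ℝ) ≤ (K : ℝ) * l := by nlinarith
      calc X ^ K ≤ ((K : ℝ) * l + 1) * (W.card + 1) := h2.trans h3
        _ ≤ (2 * ((K : ℝ) * l)) * (2 * W.card) := by
            apply mul_le_mul <;> first | positivity | linarith
        _ = (4 * ((K : ℝ) * l)) * W.card := by ring
        _ ≤ N * W.card := mul_le_mul_of_nonneg_right h4 (by linarith)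

/-- the two sequences do not have long periodic stretches at the same place -/
def NoPerP (x : ℕ → α) (y : ℕ → β) (ρ A : ℝ) (N₀ : ℕ) : Prop :=
  ∀ N : ℕ, N₀ ≤ N → ∀ s s' : ℕ, 1 ≤ s → 1 ≤ s' → ∃ i : ℕ, N ≤ i ∧
    ((((i + s : ℕ) : ℝ) ≤ ρ * N + A * (s + s') ∧ x (i + s) ≠ x i) ∨
     (((i + s' : ℕ) : ℝ) ≤ ρ * N + A * (s + s') ∧ y (i + s') ≠ y i))

/-- **Many words for one of two automata.** -/
theorem many_pair {ρ A : ℝ} (hρ : 1 < ρ) (hA : 0 ≤ A) (N₀ : ℕ) :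
    ∃ D : ℝ, 1 ≤ D ∧ ∀ (α β σ τ : Type) [Fintype σ] [Fintype τ] (z : ℕ → α) (z' : ℕ → β),
      NoPerP z z' ρ A N₀ →
      ∀ (x : ℕ → α) (x' : ℕ → β) (M : NFA α σ) (M' : NFA β τ) (N : ℕ),
        seg x 0 N ∈ M.accepts → seg x' 0 N ∈ M'.accepts →
        ∀ E : Finset ℕ, (∀ i, i < N → i ∉ E → x i = z i ∧ x' i = z' i) → ∀ K : ℕ, 1 ≤ K →
        (∃ W : Finset (List α), (∀ w ∈ W, w.length = N ∧ w ∈ M.accepts) ∧
          ((N : ℝ) / (D * ρ ^ (2 * K + E.card) * (Fintype.card σ : ℝ))) ^ K ≤ N * W.card) ∨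
        (∃ W : Finset (List β), (∀ w ∈ W, w.length = N ∧ w ∈ M'.accepts) ∧
          ((N : ℝ) / (D * ρ ^ (2 * K + E.card) * (Fintype.card τ : ℝ))) ^ K ≤ N * W.card) := by
  classical
  obtain ⟨B, hB⟩ : ∃ B : ℝ, B = (ρ + 2 * A + 3) / (ρ - 1) := ⟨_, rfl⟩
  have hρ1 : 0 < ρ - 1 := by linarith
  have hA2 : 0 ≤ 2 * A := by linarith
  have hB1 : B * (ρ - 1) = ρ + 2 * A + 3 := by rw [hB]; field_simp
  have hB0 : 0 < B := by rw [hB]; positivity
  obtain ⟨D, hD⟩ : ∃ D : ℝ, D = N₀ + B + 4 / (ρ - 1) + 1 := ⟨_, rfl⟩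
  have hN₀R : (0 : ℝ) ≤ N₀ := Nat.cast_nonneg _
  have h4ρ : 0 < 4 / (ρ - 1) := by positivity
  have hD1 : 1 ≤ D := by rw [hD]; linarith
  have hDB : N₀ + B ≤ D := by rw [hD]; linarith
  have hD4 : 4 / (ρ - 1) ≤ D := by rw [hD]; linarith
  have hD0 : 0 < D := by linarith
  have hρ0 : (0 : ℝ) < ρ := by linarith
  refine ⟨D, hD1, ?_⟩
  intro α β σ τ _ _ z z' hz x x' M M' N hacc hacc' E hE K hK
  obtain ⟨n, hn⟩ : ∃ n, n = 2 * K + E.card := ⟨_, rfl⟩
  rw [← hn]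
  obtain ⟨l, hl⟩ : ∃ l : ℕ, l = ⌊(N : ℝ) / (D * ρ ^ n)⌋₊ := ⟨_, rfl⟩
  have hBmono := Bt_mono hρ.le hA2 l N₀
  -- the regions without errors
  obtain ⟨G, hG⟩ : ∃ G : Finset ℕ, G = (range n).filter fun i =>
      ∀ e ∈ E, ¬ (Bt ρ (2 * A) l N₀ i ≤ e ∧ e < Bt ρ (2 * A) l N₀ (i + 1)) := ⟨_, rfl⟩
  have hGcard : 2 * K ≤ G.card := by
    have h1 : ((range n).filter fun i =>
        ¬ ∀ e ∈ E, ¬ (Bt ρ (2 * A) l N₀ i ≤ e ∧ e < Bt ρ (2 * A) l N₀ (i + 1))).card ≤ E.card := by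
      have hch : ∀ i ∈ (range n).filter (fun i =>
          ¬ ∀ e ∈ E, ¬ (Bt ρ (2 * A) l N₀ i ≤ e ∧ e < Bt ρ (2 * A) l N₀ (i + 1))),
          ∃ e ∈ E, Bt ρ (2 * A) l N₀ i ≤ e ∧ e < Bt ρ (2 * A) l N₀ (i + 1) := by
        intro i hi
        have := (mem_filter.1 hi).2
        push Not at this
        exact this
      choose! g hg1 hg2 using hch
      refine card_le_card_of_injOn g (fun i hi => hg1 i hi) ?_
      intro i hi j hj he
      have a1 := hg2 i hi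
      have a2 := hg2 j hj
      rw [he] at a1
      rcases lt_trichotomy i j with h | h | h
      · have := hBmono.monotone (show i + 1 ≤ j by omega)
        omega
      · exact h
      · have := hBmono.monotone (show j + 1 ≤ i by omega)
        omega
    have h2 := card_filter_add_card_filter_not (s := range n) (fun i =>
      ∀ e ∈ E, ¬ (Bt ρ (2 * A) l N₀ i ≤ e ∧ e < Bt ρ (2 * A) l N₀ (i + 1)))
    rw [card_range] at h2
    rw [hG]
    omega
  have hBN : 1 ≤ l → Bt ρ (2 * A) l N₀ n ≤ N := by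
    intro hl3
    have hlR : (1 : ℝ) ≤ l := by exact_mod_cast hl3
    have hCk : (0 : ℝ) < D * ρ ^ n := by positivity
    have hl1 : (l : ℝ) ≤ N / (D * ρ ^ n) := by rw [hl]; exact Nat.floor_le (by positivity)
    have hlN : (l : ℝ) * (D * ρ ^ n) ≤ N := by
      rwa [le_div_iff₀ hCk] at hl1
    have h1 := Bt_le hρ hA2 hB1 hl3 N₀ n
    have h2 : (Bt ρ (2 * A) l N₀ n : ℝ) ≤ N := by
      have h3 : (N₀ : ℝ) + B * l ≤ (N₀ + B) * l := by nlinarith
      have h7 : (0 : ℝ) ≤ B * l := by positivity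
      have h8 : (0 : ℝ) ≤ ρ ^ n := by positivity
      calc (Bt ρ (2 * A) l N₀ n : ℝ) ≤ ρ ^ n * (N₀ + B * l) := by linarith
        _ ≤ ρ ^ n * ((N₀ + B) * l) := mul_le_mul_of_nonneg_left h3 h8
        _ ≤ ρ ^ n * (D * l) :=
            mul_le_mul_of_nonneg_left (mul_le_mul_of_nonneg_right hDB (by linarith)) h8
        _ = l * (D * ρ ^ n) := by ring
        _ ≤ N := hlN
    exact_mod_cast h2
  -- one of the two sequences separates each region
  have hor : 1 ≤ l → ∀ i ∈ G, ¬ Sep x l (Bt ρ (2 * A) l N₀ i) (Bt ρ (2 * A) l N₀ (i + 1)) →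
      Sep x' l (Bt ρ (2 * A) l N₀ i) (Bt ρ (2 * A) l N₀ (i + 1)) := by
    intro hl3 i hi hno
    unfold Pool.Agent.X3.NfaWords.Sep at hno
    push Not at hno
    obtain ⟨u, s, hu1, hu2, hs1, hs2, hper⟩ := hno
    intro u' s' hu1' hu2' hs1' hs2'
    by_contra hcon
    push Not at hcon
    rw [hG, mem_filter, mem_range] at hi
    obtain ⟨j, hj1, hj2⟩ := hz (max u u')
      ((Bt_ge hρ.le hA2 l N₀ i).trans (hu1.trans (le_max_left _ _))) s s' hs1 hs1'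
    have hmax : ((max u u' : ℕ) : ℝ) ≤ Bt ρ (2 * A) l N₀ i + l := by
      have : max u u' ≤ Bt ρ (2 * A) l N₀ i + l := by omega
      exact_mod_cast this
    have b2 : (s : ℝ) ≤ l := by exact_mod_cast hs2
    have b2' : (s' : ℝ) ≤ l := by exact_mod_cast hs2'
    have hbound : ρ * ((max u u' : ℕ) : ℝ) + A * (s + s') ≤
        (⌈ρ * ((Bt ρ (2 * A) l N₀ i : ℝ) + l) + 2 * A * l⌉₊ : ℝ) := by
      refine le_trans ?_ (Nat.le_ceil _)
      have b3 := mul_le_mul_of_nonneg_left hmax hρ0.le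
      have b4 : A * ((s : ℝ) + s') ≤ A * (l + l) := mul_le_mul_of_nonneg_left (by linarith) hA
      linarith
    have hlt : ∀ m : ℕ, (m : ℝ) ≤ ρ * ((max u u' : ℕ) : ℝ) + A * (s + s') →
        m < Bt ρ (2 * A) l N₀ (i + 1) := by
      intro m hm
      have h1 : m ≤ ⌈ρ * ((Bt ρ (2 * A) l N₀ i : ℝ) + l) + 2 * A * l⌉₊ := by
        exact_mod_cast hm.trans hbound
      show _ < ⌈ρ * ((Bt ρ (2 * A) l N₀ i : ℝ) + l) + 2 * A * l⌉₊ + 1 + l
      omega
    have hBl : Bt ρ (2 * A) l N₀ (i + 1) ≤ N :=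
      le_trans (hBmono.monotone (by omega)) (hBN hl3)
    have hxz : ∀ m, Bt ρ (2 * A) l N₀ i ≤ m → m < Bt ρ (2 * A) l N₀ (i + 1) →
        x m = z m ∧ x' m = z' m := by
      intro m hn1 hn2
      refine hE m (by omega) fun hmem => ?_
      exact hi.2 m hmem ⟨hn1, hn2⟩
    have hju : u ≤ j := (le_max_left _ _).trans hj1
    have hju' : u' ≤ j := (le_max_right _ _).trans hj1
    rcases hj2 with ⟨h1, h2⟩ | ⟨h1, h2⟩
    · have h3 := hlt _ h1
      apply h2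
      rw [← (hxz (j + s) (by omega) h3).1, ← (hxz j (by omega) (by omega)).1]
      exact hper j hju h3
    · have h3 := hlt _ h1
      apply h2
      rw [← (hxz (j + s') (by omega) h3).2, ← (hxz j (by omega) (by omega)).2]
      exact hcon j hju' h3
  have hsplit := card_filter_add_card_filter_not (s := G) (fun i =>
    Sep x l (Bt ρ (2 * A) l N₀ i) (Bt ρ (2 * A) l N₀ (i + 1)))
  have hGn : ∀ i ∈ G, i < n := by
    intro i hi
    rw [hG, mem_filter, mem_range] at hi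
    exact hi.1
  rcases Nat.lt_or_ge (G.filter (fun i =>
      Sep x l (Bt ρ (2 * A) l N₀ i) (Bt ρ (2 * A) l N₀ (i + 1)))).card K with hc | hc
  · right
    refine geo_core hρ hA2 N₀ hB1 hB0 hDB hD4 hD1 x' M' N n hacc' K hK (G.filter (fun i =>
      ¬ Sep x l (Bt ρ (2 * A) l N₀ i) (Bt ρ (2 * A) l N₀ (i + 1))))
      (fun i hi => hGn i (mem_filter.1 hi).1) (by omega) l hl ?_
    intro hl3 i hi
    rw [mem_filter] at hi
    exact hor hl3 i hi.1 hi.2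
  · left
    refine geo_core hρ hA2 N₀ hB1 hB0 hDB hD4 hD1 x M N n hacc K hK (G.filter (fun i =>
      Sep x l (Bt ρ (2 * A) l N₀ i) (Bt ρ (2 * A) l N₀ (i + 1))))
      (fun i hi => hGn i (mem_filter.1 hi).1) hc l hl ?_
    intro hl3 i hi
    exact (mem_filter.1 hi).2

end Pool.Agent.X1.NfaAlg
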