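import Mathlib
import Pool.Agent.X1.NfaPair

/-!
# The digits of two numbers with a difference of irrationality exponent two
-/

set_option autoImplicit false

namespace Pool.Agent.X1.NfaAlg

open Finset Pool.Agent.X3.NfaWords

/-- rational multiples -/
theorem exp2_mul {ξ : ℝ} (h : Pool.Agent.H43R2.Cplx.Exp2 ξ) (r : ℚ) (hr : r ≠ 0) :
    Pool.Agent.H43R2.Cplx.Exp2 (r * ξ) := by
  intro ε hε
  obtain ⟨c, hc, hq⟩ := h ε hε
  have hd : (0 : ℝ) < r.den := by exact_mod_cast r.den_pos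
  have hn : r.num ≠ 0 := Rat.num_ne_zero.2 hr
  have hn' : (1 : ℝ) ≤ |(r.num : ℝ)| := by
    have : (1 : ℤ) ≤ |r.num| := Int.one_le_abs hn
    exact_mod_cast this
  have hn0 : (0 : ℝ) < r.num.natAbs := by
    have : 0 < r.num.natAbs := Int.natAbs_pos.2 hn
    exact_mod_cast this
  have hnabs : ((r.num.natAbs : ℕ) : ℝ) = |(r.num : ℝ)| := by
    rw [Nat.cast_natAbs, Int.cast_abs]
  refine ⟨c / ((r.num.natAbs : ℝ) ^ (1 + ε) * r.den), by positivity, fun q hq1 m => ?_⟩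
  have hqR : (0 : ℝ) < q := by exact_mod_cast hq1
  -- `r = a / d`; `q a ξ - m d = d (q r ξ - m)`
  obtain ⟨σ, hσ⟩ : ∃ σ : ℤ, (r.num : ℤ) = σ * r.num.natAbs ∧ |σ| = 1 := by
    refine ⟨r.num.sign, (Int.sign_mul_natAbs _).symm, ?_⟩
    exact Int.abs_sign_of_ne_zero hn
  have h1 := hq (q * r.num.natAbs) (Nat.mul_pos hq1 (Int.natAbs_pos.2 hn)) (σ * m * r.den)
  have hσR : |(σ : ℝ)| = 1 := by
    rw [← Int.cast_abs, hσ.2, Int.cast_one]
  have hσ2 : (σ : ℝ) * σ = 1 := by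
    have := abs_mul_abs_self (σ : ℝ)
    rw [hσR] at this
    linarith
  have hrR : (r : ℝ) = r.num / r.den := by
    exact_mod_cast (Rat.num_div_den r).symm
  have hnum : (r.num : ℝ) = σ * (r.num.natAbs : ℝ) := by
    have h := congrArg (fun z : ℤ => (z : ℝ)) hσ.1
    simp only [Int.cast_mul, Int.cast_natCast] at h
    exact h
  have e1 : ((q * r.num.natAbs : ℕ) : ℝ) * ξ - ((σ * m * r.den : ℤ) : ℝ) =
      σ * (r.den * (q * (r * ξ) - m)) := by
    push_cast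
    rw [hrR]
    field_simp
    rw [hnum]
    linear_combination (-(q : ℝ) * (r.num.natAbs : ℝ) * ξ) * hσ2
  rw [e1, abs_mul, hσR, one_mul, abs_mul, abs_of_pos hd] at h1
  push_cast at h1
  rw [Real.mul_rpow (by positivity) (by positivity)] at h1
  rw [div_le_iff₀ (by positivity)]
  calc c ≤ _ := h1
    _ = _ := by ring

set_option maxHeartbeats 1000000 in
/-- two numbers whose difference has irrationality exponent two do not have long periodic
stretches of digits at the same place -/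
theorem exp2_noPerP {ξ : ℝ} (h2 : Pool.Agent.H43R2.Cplx.Exp2 ξ) (ε : ℝ) (hε : 0 < ε) :
    ∃ N₀ : ℕ, ∀ (b : ℕ) [NeZero b], 2 ≤ b → ∀ x y : ℝ, 0 ≤ x → 0 ≤ y → (∃ n : ℤ, x - y = ξ + n) →
      NoPerP (Real.digits x b) (Real.digits y b) (2 + ε) (3 + ε) N₀ := by
  obtain ⟨c, hc, hR⟩ := h2 (ε / 2) (by positivity)
  obtain ⟨N₀, hN₀⟩ := exists_nat_gt ((|Real.log c| / Real.log 2 + 2) / (ε / 2))
  refine ⟨N₀, fun b _ hb x y hx hy hxy N hN s s' hs hs' => ?_⟩
  obtain ⟨n, hn⟩ := hxy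
  have hl2 : 0 < Real.log 2 := Real.log_pos (by norm_num)
  have hbR : (2 : ℝ) ≤ b := by exact_mod_cast hb
  have hb0 : (0 : ℝ) < b := by linarith
  have hlb : 0 < Real.log b := Real.log_pos (by linarith)
  have hlb2 : Real.log 2 ≤ Real.log b := Real.log_le_log (by norm_num) hbR
  have hNR : (N₀ : ℝ) ≤ N := by exact_mod_cast hN
  have hsR : (1 : ℝ) ≤ s := by exact_mod_cast hs
  have hsR' : (1 : ℝ) ≤ s' := by exact_mod_cast hs'
  have hbig : |Real.log c| / Real.log 2 + 2 < ε / 2 * N := by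
    rw [div_lt_iff₀ (by positivity)] at hN₀
    nlinarith
  obtain ⟨l, hl⟩ : ∃ l, l = ⌈(1 + ε / 2) * (N + s + s') + (s + s') +
    |Real.log c| / Real.log 2⌉₊ := ⟨_, rfl⟩
  have hl1 : (1 + ε / 2) * (N + s + s') + (s + s') + |Real.log c| / Real.log 2 ≤ l := by
    rw [hl]; exact Nat.le_ceil _
  have hl3 : (l : ℝ) < (1 + ε / 2) * (N + s + s') + (s + s') + |Real.log c| / Real.log 2 + 1 := by
    rw [hl]; exact Nat.ceil_lt_add_one (by positivity)
  have key : ∀ y : ℝ, 0 ≤ y → ∀ j : ℕ,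
      ⌊y * (b : ℝ) ^ (j + 1)⌋ % (b : ℤ) = ((Real.digits y b j : ℕ) : ℤ) := by
    intro y hy j
    unfold Real.digits
    rw [Fin.val_ofNat]
    push_cast
    congr 1
    rw [Int.natCast_floor_eq_floor (by positivity)]
  by_contra hcon
  push Not at hcon
  have hup := run_upper x b hb N s l (by
    intro i hi1 hi2
    obtain ⟨t, rfl⟩ : ∃ t, i = t + 1 := ⟨i - 1, by omega⟩
    have e : t + 1 + s = (t + s) + 1 := by ring
    rw [e, key x hx, key x hx]
    have h1 : ((t + s : ℕ) : ℝ) ≤ (2 + ε) * N + (3 + ε) * (s + s') := by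
      have h2 : ((t + 1 : ℕ) : ℝ) ≤ ((N + l : ℕ) : ℝ) := by exact_mod_cast hi2
      push_cast at h2 ⊢
      nlinarith
    rw [(hcon t (by omega)).1 h1])
  have hup' := run_upper y b hb N s' l (by
    intro i hi1 hi2
    obtain ⟨t, rfl⟩ : ∃ t, i = t + 1 := ⟨i - 1, by omega⟩
    have e : t + 1 + s' = (t + s') + 1 := by ring
    rw [e, key y hy, key y hy]
    have h1 : ((t + s' : ℕ) : ℝ) ≤ (2 + ε) * N + (3 + ε) * (s + s') := by
      have h2 : ((t + 1 : ℕ) : ℝ) ≤ ((N + l : ℕ) : ℝ) := by exact_mod_cast hi2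
      push_cast at h2 ⊢
      nlinarith
    rw [(hcon t (by omega)).2 h1])
  have hbs : 1 ≤ b ^ s := Nat.one_le_pow _ _ (by omega)
  have hbs' : 1 ≤ b ^ s' := Nat.one_le_pow _ _ (by omega)
  have hbs1 : 1 ≤ b ^ s - 1 := by
    have : b ^ 1 ≤ b ^ s := Nat.pow_le_pow_right (by omega) hs
    rw [pow_one] at this
    omega
  have hbs1' : 1 ≤ b ^ s' - 1 := by
    have : b ^ 1 ≤ b ^ s' := Nat.pow_le_pow_right (by omega) hs'
    rw [pow_one] at this
    omega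
  obtain ⟨m, hm⟩ : ∃ m : ℤ, m = ⌊x * (b : ℝ) ^ (N + s)⌋ - ⌊x * (b : ℝ) ^ N⌋ := ⟨_, rfl⟩
  obtain ⟨m', hm'⟩ : ∃ m' : ℤ, m' = ⌊y * (b : ℝ) ^ (N + s')⌋ - ⌊y * (b : ℝ) ^ N⌋ := ⟨_, rfl⟩
  rw [← hm] at hup
  rw [← hm'] at hup'
  obtain ⟨B, hB⟩ : ∃ B : ℕ, B = b ^ s - 1 := ⟨_, rfl⟩
  obtain ⟨B', hB'⟩ : ∃ B' : ℕ, B' = b ^ s' - 1 := ⟨_, rfl⟩
  rw [← hB] at hup hbs1
  rw [← hB'] at hup' hbs1'
  obtain ⟨Q, hQ⟩ : ∃ Q : ℕ, Q = b ^ N * B * B' := ⟨_, rfl⟩
  have hQ1 : 1 ≤ Q := by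
    rw [hQ]; exact Nat.mul_pos (Nat.mul_pos (by positivity) hbs1) hbs1'
  have hRQ := hR Q hQ1 (B' * m - B * m' - Q * n)
  obtain ⟨D, hD⟩ : ∃ D : ℝ, D = |(Q : ℝ) * ξ - ((B' * m - B * m' - Q * n : ℤ) : ℝ)| := ⟨_, rfl⟩
  rw [← hD] at hRQ
  have hBR : (0 : ℝ) < B := by exact_mod_cast hbs1
  have hBR' : (0 : ℝ) < B' := by exact_mod_cast hbs1'
  have hbl : (0 : ℝ) < (b : ℝ) ^ l := by positivity
  have hsum : (B : ℝ) + B' ≤ (b : ℝ) ^ (s + s') := by
    have h1 : B + B' ≤ b ^ (s + s') := by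
      have e1 : b ^ s = B + 1 := by omega
      have e2 : b ^ s' = B' + 1 := by omega
      rw [pow_add, e1, e2]
      nlinarith
    exact_mod_cast h1
  have hDl : D * (b : ℝ) ^ l < (b : ℝ) ^ (s + s') := by
    have e1 : (Q : ℝ) * ξ - ((B' * m - B * m' - Q * n : ℤ) : ℝ) =
        B' * (((b ^ N * B : ℕ) : ℝ) * x - m) - B * (((b ^ N * B' : ℕ) : ℝ) * y - m') := by
      have hξ : ξ = x - y - n := by linarith
      rw [hξ, hQ]
      push_cast
      ring
    have h1 : D ≤ B' * |((b ^ N * B : ℕ) : ℝ) * x - m| + B * |((b ^ N * B' : ℕ) : ℝ) * y - m'| := by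
      rw [hD, e1]
      refine (abs_sub _ _).trans ?_
      rw [abs_mul, abs_mul, abs_of_pos hBR, abs_of_pos hBR']
    have h2 : B' * (|((b ^ N * B : ℕ) : ℝ) * x - m| * (b : ℝ) ^ l) < B' * 1 :=
      mul_lt_mul_of_pos_left hup hBR'
    have h3 : B * (|((b ^ N * B' : ℕ) : ℝ) * y - m'| * (b : ℝ) ^ l) < B * 1 :=
      mul_lt_mul_of_pos_left hup' hBR
    have h4 := mul_le_mul_of_nonneg_right h1 hbl.le
    nlinarith
  have hQpos : (0 : ℝ) < Q := by exact_mod_cast hQ1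
  have hQle : (Q : ℝ) ≤ (b : ℝ) ^ (N + s + s') := by
    have h1 : Q ≤ b ^ (N + s + s') := by
      rw [hQ, pow_add, pow_add]
      exact Nat.mul_le_mul (Nat.mul_le_mul_left _ (by omega)) (by omega)
    exact_mod_cast h1
  have h1 : c * (b : ℝ) ^ l < (Q : ℝ) ^ (1 + ε / 2) * (b : ℝ) ^ (s + s') := by
    have h2 : 0 < (Q : ℝ) ^ (1 + ε / 2) := Real.rpow_pos_of_pos hQpos _
    calc c * (b : ℝ) ^ l ≤ (Q : ℝ) ^ (1 + ε / 2) * D * (b : ℝ) ^ l :=
          mul_le_mul_of_nonneg_right hRQ (by positivity)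
      _ = (Q : ℝ) ^ (1 + ε / 2) * (D * (b : ℝ) ^ l) := by ring
      _ < _ := mul_lt_mul_of_pos_left hDl h2
  have h2 := Real.log_lt_log (by positivity) h1
  rw [Real.log_mul hc.ne' (by positivity), Real.log_pow,
    Real.log_mul (Real.rpow_pos_of_pos hQpos _).ne' (by positivity), Real.log_rpow hQpos,
    Real.log_pow] at h2
  push_cast at h2
  have h3 : Real.log Q ≤ (N + s + s') * Real.log b := by
    have := Real.log_le_log hQpos hQle
    rw [Real.log_pow] at this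
    push_cast at this
    exact this
  have h4 : (1 + ε / 2) * Real.log Q ≤ (1 + ε / 2) * ((N + s + s') * Real.log b) :=
    mul_le_mul_of_nonneg_left h3 (by positivity)
  have h5 : -(|Real.log c| / Real.log 2 * Real.log b) ≤ Real.log c := by
    have h6 : |Real.log c| / Real.log 2 * Real.log 2 ≤ |Real.log c| / Real.log 2 * Real.log b :=
      mul_le_mul_of_nonneg_left hlb2 (by positivity)
    rw [div_mul_cancel₀ _ hl2.ne'] at h6
    have := neg_abs_le (Real.log c)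
    linarith
  have h6 : ((l : ℝ) - |Real.log c| / Real.log 2 - (s + s') - (1 + ε / 2) * (N + s + s')) *
      Real.log b < 0 := by
    have e : ((l : ℝ) - |Real.log c| / Real.log 2 - (s + s') - (1 + ε / 2) * (N + s + s')) *
      Real.log b = l * Real.log b - |Real.log c| / Real.log 2 * Real.log b -
        (s + s') * Real.log b - (1 + ε / 2) * ((N + s + s') * Real.log b) := by ring
    rw [e]
    linarith
  have h7 : 0 ≤ (l : ℝ) - |Real.log c| / Real.log 2 - (s + s') - (1 + ε / 2) * (N + s + s') := by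
    linarith
  have h8 := mul_nonneg h7 hlb.le
  linarith

end Pool.Agent.X1.NfaAlg
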