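import Mathlib
import Pool.Agent.X1.NfaPair2

/-!
# Automatic complexity of two numbers with a difference of irrationality exponent two
-/

set_option autoImplicit false

namespace Pool.Agent.X1.NfaAlg

open Finset Pool.Agent.X3.NfaWords

/-- many words for one of two automata -/
theorem pair_words {ξ : ℝ} (h2 : Pool.Agent.H43R2.Cplx.Exp2 ξ) {δ η c : ℝ}
    (hη : 0 ≤ η) (hηδ : 2 * (η * Real.log 2) < δ) (hc0 : 0 ≤ c)
    (hc : c < (δ - 2 * (η * Real.log 2)) ^ 2 / (8 * Real.log 2)) :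
    ∃ N₁ : ℕ, ∀ (b : ℕ) [NeZero b], 2 ≤ b → ∀ x y : ℝ, 0 ≤ x → 0 ≤ y → (∃ n : ℤ, x - y = ξ + n) →
      ∀ (σ τ : Type) [Fintype σ] [Fintype τ] (M : NFA (Fin b) σ) (M' : NFA (Fin b) τ) (N : ℕ),
      N₁ ≤ N → (Fintype.card σ : ℝ) ≤ (N : ℝ) ^ (1 - δ) →
      (Fintype.card τ : ℝ) ≤ (N : ℝ) ^ (1 - δ) → ∀ d d' : ℕ → Fin b,
      (((Finset.range N).filter fun i => d i ≠ Real.digits x b i).card : ℝ) ≤ η * Real.log N →
      (((Finset.range N).filter fun i => d' i ≠ Real.digits y b i).card : ℝ) ≤ η * Real.log N →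
      (List.range N).map d ∈ M.accepts → (List.range N).map d' ∈ M'.accepts →
      Real.exp (c * Real.log N ^ 2) ≤ max (naccG M N) (naccG M' N) := by
  classical
  have hl2 : 0 < Real.log 2 := Real.log_pos (by norm_num)
  obtain ⟨κ, hκ⟩ : ∃ κ, κ = (δ - 2 * (η * Real.log 2)) / (4 * Real.log 2) := ⟨_, rfl⟩
  have hκ0 : 0 < κ := by rw [hκ]; apply div_pos (by linarith) (by positivity)
  have hval : κ * (δ - (κ + η) * (2 * Real.log 2)) =
      (δ - 2 * (η * Real.log 2)) ^ 2 / (8 * Real.log 2) := by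
    rw [hκ]; field_simp; ring
  obtain ⟨ε, hε0, hε⟩ : ∃ ε : ℝ, 0 < ε ∧ c < κ * (δ - (κ + η) * Real.log ((2 + ε) ^ 2)) := by
    have hcont : ContinuousAt (fun ε : ℝ => κ * (δ - (κ + η) * Real.log ((2 + ε) ^ 2))) 0 := by
      apply ContinuousAt.mul continuousAt_const
      apply ContinuousAt.sub continuousAt_const
      apply ContinuousAt.mul continuousAt_const
      apply ContinuousAt.log
      · fun_prop
      · norm_num
    have h0 : c < κ * (δ - (κ + η) * Real.log ((2 + 0) ^ 2)) := by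
      rw [add_zero, Real.log_pow]
      push_cast
      rw [hval]
      exact hc
    have hev := hcont.eventually (lt_mem_nhds h0)
    rw [Metric.eventually_nhds_iff] at hev
    obtain ⟨r, hr, h⟩ := hev
    refine ⟨r / 2, by positivity, h ?_⟩
    rw [Real.dist_eq, sub_zero, abs_of_pos (by positivity)]
    linarith
  have hρ2 : (1 : ℝ) < (2 + ε) ^ 2 := by nlinarith
  obtain ⟨N₀, hN₀⟩ := exp2_noPerP h2 ε hε0
  obtain ⟨D, hD, hmain⟩ := many_pair (ρ := 2 + ε) (A := 3 + ε) (by linarith) (by linarith) N₀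
  obtain ⟨N₁, hnum⟩ := num_words2 (ρ := (2 + ε) ^ 2) hρ2 hκ0 hε hc0 hD
  refine ⟨N₁, fun b _ hb x y hx hy hxy σ τ _ _ M M' N hN hq hq' d d' hk hk' hacc hacc' => ?_⟩
  obtain ⟨E, hE⟩ : ∃ E, E = (Finset.range N).filter fun i => d i ≠ Real.digits x b i := ⟨_, rfl⟩
  obtain ⟨E', hE'⟩ : ∃ E', E' = (Finset.range N).filter fun i => d' i ≠ Real.digits y b i :=
    ⟨_, rfl⟩
  rw [← hE] at hk
  rw [← hE'] at hk'
  have hkk : ((max E.card E'.card : ℕ) : ℝ) ≤ η * Real.log N := by
    rcases le_total E.card E'.card with h | h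
    · rw [max_eq_right h]; exact hk'
    · rw [max_eq_left h]; exact hk
  have hqq : ((max (Fintype.card σ) (Fintype.card τ) : ℕ) : ℝ) ≤ (N : ℝ) ^ (1 - δ) := by
    rcases le_total (Fintype.card σ) (Fintype.card τ) with h | h
    · rw [max_eq_right h]; exact hq'
    · rw [max_eq_left h]; exact hq
  have hpos : (0 : ℝ) < ((max (naccG M N) (naccG M' N) : ℕ) : ℝ) := by
    have := naccG_pos hacc
    have h2 : 0 < max (naccG M N) (naccG M' N) := lt_of_lt_of_le this (le_max_left _ _)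
    exact_mod_cast h2
  have hfin := hnum N (max (Fintype.card σ) (Fintype.card τ)) (max E.card E'.card) hN
    ((cardG_pos hacc).trans (le_max_left _ _)) hqq hkk
    ((max (naccG M N) (naccG M' N) : ℕ) : ℝ) hpos (fun K hK => ?_)
  · exact hfin
  have hD0 : 0 < D := by linarith
  have hpow : ((2 + ε) ^ (2 * K + (E ∪ E').card) : ℝ) ≤ ((2 + ε) ^ 2) ^ (K + max E.card E'.card) := by
    rw [← pow_mul]
    apply pow_le_pow_right₀ (by linarith)
    have h1 := card_union_le E E'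
    omega
  have hN' : (0 : ℝ) ≤ N := Nat.cast_nonneg _
  -- comparison for one of the automata
  have hcmp : ∀ q : ℕ, 1 ≤ q → q ≤ max (Fintype.card σ) (Fintype.card τ) →
      ((N : ℝ) / (D * ((2 + ε) ^ 2) ^ (K + max E.card E'.card) *
        ((max (Fintype.card σ) (Fintype.card τ) : ℕ) : ℝ))) ^ K ≤
      ((N : ℝ) / (D * (2 + ε) ^ (2 * K + (E ∪ E').card) * (q : ℝ))) ^ K := by
    intro q hq1 hq2
    have hqR : (1 : ℝ) ≤ q := by exact_mod_cast hq1
    have hqR2 : (q : ℝ) ≤ ((max (Fintype.card σ) (Fintype.card τ) : ℕ) : ℝ) := by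
      exact_mod_cast hq2
    apply pow_le_pow_left₀ (by positivity)
    apply div_le_div_of_nonneg_left hN' (by positivity)
    apply mul_le_mul _ hqR2 (by positivity) (by positivity)
    exact mul_le_mul_of_nonneg_left hpow hD0.le
  have hor := hmain (Fin b) (Fin b) σ τ (Real.digits x b) (Real.digits y b)
    (hN₀ b hb x y hx hy hxy) d d' M M' N (by rw [seg_zero]; exact hacc)
    (by rw [seg_zero]; exact hacc') (E ∪ E') (by
      intro i hi hn
      rw [mem_union, not_or] at hn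
      constructor
      · by_contra hne
        exact hn.1 (by rw [hE]; exact Finset.mem_filter.2 ⟨Finset.mem_range.2 hi, hne⟩)
      · by_contra hne
        exact hn.2 (by rw [hE']; exact Finset.mem_filter.2 ⟨Finset.mem_range.2 hi, hne⟩)) K hK
  rcases hor with ⟨W, hW1, hW2⟩ | ⟨W, hW1, hW2⟩
  · refine (hcmp _ (cardG_pos hacc) (le_max_left _ _)).trans (hW2.trans
      (mul_le_mul_of_nonneg_left ?_ hN'))
    exact_mod_cast (naccG_ge M N W hW1).trans (le_max_left _ _)
  · refine (hcmp _ (cardG_pos hacc') (le_max_right _ _)).trans (hW2.trans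
      (mul_le_mul_of_nonneg_left ?_ hN'))
    exact_mod_cast (naccG_ge M' N W hW1).trans (le_max_right _ _)

/-- many states for one of two automata -/
theorem pair_states {ξ : ℝ} (h2 : Pool.Agent.H43R2.Cplx.Exp2 ξ) {c : ℝ}
    (hc : 2 * √(2 * Real.log 2) < c) :
    ∃ N₁ : ℕ, ∀ (b : ℕ) [NeZero b], 2 ≤ b → ∀ x y : ℝ, 0 ≤ x → 0 ≤ y → (∃ n : ℤ, x - y = ξ + n) →
      ∀ (σ τ : Type) [Fintype σ] [Fintype τ] (M : NFA (Fin b) σ) (M' : NFA (Fin b) τ) (N : ℕ),
      N₁ ≤ N →
      (List.range N).map (Real.digits x b) ∈ M.accepts →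
      (∀ w ∈ M.accepts, w.length = N → w = (List.range N).map (Real.digits x b)) →
      (List.range N).map (Real.digits y b) ∈ M'.accepts →
      (∀ w ∈ M'.accepts, w.length = N → w = (List.range N).map (Real.digits y b)) →
      (N : ℝ) * Real.exp (-(c * √(Real.log N))) ≤
        ((max (Fintype.card σ) (Fintype.card τ) : ℕ) : ℝ) := by
  classical
  obtain ⟨ε, hε0, hε⟩ : ∃ ε : ℝ, 0 < ε ∧ 2 * √(Real.log ((2 + ε) ^ 2)) < c := by
    have hcont : ContinuousAt (fun ε : ℝ => 2 * √(Real.log ((2 + ε) ^ 2))) 0 := by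
      apply ContinuousAt.mul continuousAt_const
      apply ContinuousAt.sqrt
      apply ContinuousAt.log
      · fun_prop
      · norm_num
    have h0 : 2 * √(Real.log ((2 + 0) ^ 2)) < c := by
      rw [add_zero, Real.log_pow]
      push_cast
      exact hc
    have hev := hcont.eventually (gt_mem_nhds h0)
    rw [Metric.eventually_nhds_iff] at hev
    obtain ⟨r, hr, h⟩ := hev
    refine ⟨r / 2, by positivity, h ?_⟩
    rw [Real.dist_eq, sub_zero, abs_of_pos (by positivity)]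
    linarith
  have hρ2 : (1 : ℝ) < (2 + ε) ^ 2 := by nlinarith
  obtain ⟨N₀, hN₀⟩ := exp2_noPerP h2 ε hε0
  obtain ⟨D, hD, hmain⟩ := many_pair (ρ := 2 + ε) (A := 3 + ε) (by linarith) (by linarith) N₀
  obtain ⟨N₁, hnum⟩ := num_states2 (ρ := (2 + ε) ^ 2) hρ2 hε hD
  refine ⟨N₁, fun b _ hb x y hx hy hxy σ τ _ _ M M' N hN hacc hu hacc' hu' => ?_⟩
  refine hnum N _ hN ((cardG_pos hacc).trans (le_max_left _ (Fintype.card τ))) (fun K hK => ?_)
  have hD0 : 0 < D := by linarith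
  have hN' : (0 : ℝ) ≤ N := Nat.cast_nonneg _
  have hcmp : ∀ q : ℕ, 1 ≤ q → q ≤ max (Fintype.card σ) (Fintype.card τ) →
      ((N : ℝ) / (D * ((2 + ε) ^ 2) ^ K *
        ((max (Fintype.card σ) (Fintype.card τ) : ℕ) : ℝ))) ^ K ≤
      ((N : ℝ) / (D * (2 + ε) ^ (2 * K + (∅ : Finset ℕ).card) * (q : ℝ))) ^ K := by
    intro q hq1 hq2
    have hqR : (1 : ℝ) ≤ q := by exact_mod_cast hq1
    have hqR2 : (q : ℝ) ≤ ((max (Fintype.card σ) (Fintype.card τ) : ℕ) : ℝ) := by
      exact_mod_cast hq2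
    apply pow_le_pow_left₀ (by positivity)
    apply div_le_div_of_nonneg_left hN' (by positivity)
    apply mul_le_mul _ hqR2 (by positivity) (by positivity)
    rw [card_empty, Nat.add_zero, pow_mul]
  have hor := hmain (Fin b) (Fin b) σ τ (Real.digits x b) (Real.digits y b)
    (hN₀ b hb x y hx hy hxy) (Real.digits x b) (Real.digits y b) M M' N
    (by rw [seg_zero]; exact hacc) (by rw [seg_zero]; exact hacc') ∅
    (fun i _ _ => ⟨rfl, rfl⟩) K hK
  rcases hor with ⟨W, hW1, hW2⟩ | ⟨W, hW1, hW2⟩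
  · have h2 : W.card ≤ 1 := by
      rw [Finset.card_le_one]
      intro u hu1 v hv1
      rw [hu u (hW1 u hu1).2 (hW1 u hu1).1, hu v (hW1 v hv1).2 (hW1 v hv1).1]
    have h3 : (W.card : ℝ) ≤ 1 := by exact_mod_cast h2
    refine (hcmp _ (cardG_pos hacc) (le_max_left _ _)).trans (hW2.trans ?_)
    nlinarith
  · have h2 : W.card ≤ 1 := by
      rw [Finset.card_le_one]
      intro u hu1 v hv1
      rw [hu' u (hW1 u hu1).2 (hW1 u hu1).1, hu' v (hW1 v hv1).2 (hW1 v hv1).1]
    have h3 : (W.card : ℝ) ≤ 1 := by exact_mod_cast h2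
    refine (hcmp _ (cardG_pos hacc') (le_max_right _ _)).trans (hW2.trans ?_)
    nlinarith

end Pool.Agent.X1.NfaAlg
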