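import Pool.Agent.TH441.SSE2.Basic

/-!
# Three-generator presentations of `[[λ, y], [0, μ]]` and their moves

The generators are `u`, `e`, `n u - e` (columns of `Fv n`), the rows of `Fu` are the attached
functionals.
-/

set_option autoImplicit false

namespace Pool.Agent.X1.SseR

open Matrix Pool.Agent.TH441.SSE2

/-- The functionals. -/
def Fu (lam mu n y s b : ℤ) : Matrix (Fin 3) (Fin 2) ℤ :=
  !![lam - n * s, y - n * b; s, b + mu; s, b]

/-- The generators `u`, `e`, `n u - e`. -/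
def Fv (n : ℤ) : Matrix (Fin 2) (Fin 3) ℤ := !![1, 0, n; 0, 1, -1]

/-- The `3 × 3` presentation matrix. -/
def Fm (lam mu n y s b : ℤ) : Matrix (Fin 3) (Fin 3) ℤ := Fu lam mu n y s b * Fv n

lemma up (lam mu n y s b : ℤ) (h1 : 0 ≤ lam - (n + 1) * s) (h2 : 0 ≤ y - (n + 1) * b)
    (h3 : 0 ≤ n * (lam - (n + 1) * s) - (y - (n + 1) * b)) (h4 : 0 ≤ s) (h5 : 0 ≤ b)
    (h6 : 0 ≤ b + mu) (h7 : 0 ≤ n * s - b - mu) (h8 : 0 ≤ n * s - b) :
    Q (Fm lam mu n y s b) (Fm lam mu (n + 1) y s b) := by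
  refine Q.move (Fu lam mu n y s b) (Fv n) (Fu lam mu (n + 1) y s b) (Fv (n + 1))
    !![1, 0, 1; 0, 1, 0; 0, 0, 1] ?_ ?_ ?_ ?_
  · intro i j; fin_cases i <;> fin_cases j <;> simp
  · intro i j
    fin_cases i <;> fin_cases j <;>
      simp [Fu, Fv, Matrix.mul_apply, Fin.sum_univ_succ] <;> linarith
  · ext i j; fin_cases i <;> fin_cases j <;>
      simp [Fu, Matrix.mul_apply, Fin.sum_univ_succ] <;> ring
  · ext i j; fin_cases i <;> fin_cases j <;>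
      simp [Fv, Matrix.mul_apply, Fin.sum_univ_succ] <;> ring

lemma lift (lam mu n y s b s' b' : ℤ) (hn : 0 ≤ n) (h1 : 0 ≤ lam - n * (s + s'))
    (h2 : 0 ≤ y - n * (b + b'))
    (h3 : 0 ≤ n * (lam - n * (s + s')) - (y - n * (b + b'))) (h4 : 0 ≤ s) (h5 : 0 ≤ b)
    (h6 : 0 ≤ b + mu) (h7 : 0 ≤ n * s - b - mu) (h8 : 0 ≤ n * s - b) (h9 : 0 ≤ s')
    (h10 : 0 ≤ b') (h11 : 0 ≤ n * s' - b') :
    Q (Fm lam mu n y s b) (Fm lam mu n y (s + s') (b + b')) := by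
  have hNN : NN ((!![lam - n * (s + s'), y - n * (b + b'); s, b + mu; s, b; s', b'] :
      Matrix (Fin 4) (Fin 2) ℤ) * Fv n) := by
    intro i j
    fin_cases i <;> fin_cases j <;>
      simp [Fv, Matrix.mul_apply, Fin.sum_univ_succ] <;> linarith
  have e1 : Q (Fm lam mu n y s b)
      ((!![lam - n * (s + s'), y - n * (b + b'); s, b + mu; s, b; s', b'] :
        Matrix (Fin 4) (Fin 2) ℤ) * (!![1, 0, n, n; 0, 1, -1, 0] : Matrix (Fin 2) (Fin 4) ℤ)) := by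
    refine Q.move (Fu lam mu n y s b) (Fv n) _ _
      !![1, 0, 0, n; 0, 1, 0, 0; 0, 0, 1, 0] ?_ hNN ?_ ?_
    · intro i j; fin_cases i <;> fin_cases j <;> simp [hn]
    · ext i j; fin_cases i <;> fin_cases j <;>
        simp [Fu, Matrix.mul_apply, Fin.sum_univ_succ] <;> ring
    · ext i j; fin_cases i <;> fin_cases j <;>
        simp [Fv, Matrix.mul_apply, Fin.sum_univ_succ]
  have e2 : Q (Fm lam mu n y (s + s') (b + b'))
      ((!![lam - n * (s + s'), y - n * (b + b'); s, b + mu; s, b; s', b'] :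
        Matrix (Fin 4) (Fin 2) ℤ) * (!![1, 0, n, n; 0, 1, -1, 0] : Matrix (Fin 2) (Fin 4) ℤ)) := by
    refine Q.move (Fu lam mu n y (s + s') (b + b')) (Fv n) _ _
      !![1, 0, 0, 0; 0, 1, 0, 1; 0, 0, 1, 1] ?_ hNN ?_ ?_
    · intro i j; fin_cases i <;> fin_cases j <;> simp
    · ext i j; fin_cases i <;> fin_cases j <;>
        simp [Fu, Matrix.mul_apply, Fin.sum_univ_succ] <;> ring
    · ext i j; fin_cases i <;> fin_cases j <;>
        simp [Fv, Matrix.mul_apply, Fin.sum_univ_succ]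
  exact e1.trans e2.symm

lemma mirror (lam mu n y s b : ℤ) (h1 : 0 ≤ lam - n * s)
    (h2 : 0 ≤ y - n * b)
    (h3 : 0 ≤ n * (lam - n * s) - (y - n * b)) (h4 : 0 ≤ s) (h5 : 0 ≤ b)
    (h6 : 0 ≤ b + mu) (h7 : 0 ≤ n * s - b - mu) (h8 : 0 ≤ n * s - b) :
    Q (Fm lam mu n y s b) (Fm lam mu n (n * (lam - mu) - y) s (n * s - b - mu)) := by
  refine Q.of_elem (Fm lam mu n y s b * !![1, 0, 0; 0, 0, 1; 0, 1, 0])
    !![1, 0, 0; 0, 0, 1; 0, 1, 0] ?_ ?_ ?_ ?_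
  · intro i j
    fin_cases i <;> fin_cases j <;>
      simp [Fm, Fu, Fv, Matrix.mul_apply, Fin.sum_univ_succ] <;> linarith
  · intro i j; fin_cases i <;> fin_cases j <;> simp
  · ext i j; fin_cases i <;> fin_cases j <;>
      simp [Fm, Fu, Fv, Matrix.mul_apply, Fin.sum_univ_succ]
  · ext i j; fin_cases i <;> fin_cases j <;>
      simp [Fm, Fu, Fv, Matrix.mul_apply, Fin.sum_univ_succ] <;> ring

lemma pstep_lam (q mu n y s b p : ℤ) (hp : 0 ≤ p) (h1 : 0 ≤ q - n * s)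
    (h2 : 0 ≤ y - n * b)
    (h3 : 0 ≤ n * (p * q - p * (n * s)) - (y - n * b)) (h4 : 0 ≤ s) (h5 : 0 ≤ b)
    (h6 : 0 ≤ b + mu) (h7 : 0 ≤ n * (p * s) - b - mu) (h8 : 0 ≤ n * (p * s) - b) :
    Q (Fm (p * q) mu n y (p * s) b) (Fm (p * q) mu (p * n) (p * y) s b) := by
  refine Q.of_elem !![q - n * s, y - n * b, n * (p * q - p * (n * s)) - (y - n * b);
      s, b + mu, n * (p * s) - b - mu; s, b, n * (p * s) - b]
    !![p, 0, 0; 0, 1, 0; 0, 0, 1] ?_ ?_ ?_ ?_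
  · intro i j
    fin_cases i <;> fin_cases j <;> simp <;> linarith
  · intro i j; fin_cases i <;> fin_cases j <;> simp [hp]
  · ext i j; fin_cases i <;> fin_cases j <;>
      simp [Fm, Fu, Fv, Matrix.mul_apply, Fin.sum_univ_succ] <;> ring
  · ext i j; fin_cases i <;> fin_cases j <;>
      simp [Fm, Fu, Fv, Matrix.mul_apply, Fin.sum_univ_succ] <;> ring

lemma pstep_mu (lam nu n y s b p : ℤ) (hp : 0 ≤ p) (h1 : 0 ≤ lam - n * (p * s))
    (h2 : 0 ≤ y - n * (p * b))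
    (h3 : 0 ≤ n * (lam - n * (p * s)) - (y - n * (p * b))) (h4 : 0 ≤ s) (h5 : 0 ≤ b)
    (h6 : 0 ≤ b + nu) (h7 : 0 ≤ n * s - b - nu) (h8 : 0 ≤ n * s - b) :
    Q (Fm lam (p * nu) n y (p * s) (p * b)) (Fm lam (p * nu) (p * n) (p * y) s (p * b)) := by
  refine Q.of_elem !![1, 0, 0; 0, p, 0; 0, 0, p] !![lam - n * (p * s), y - n * (p * b),
      n * (lam - n * (p * s)) - (y - n * (p * b)); s, b + nu, n * s - b - nu;
      s, b, n * s - b] ?_ ?_ ?_ ?_
  · intro i j; fin_cases i <;> fin_cases j <;> simp [hp]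
  · intro i j
    fin_cases i <;> fin_cases j <;> simp <;> linarith
  · ext i j; fin_cases i <;> fin_cases j <;>
      simp [Fm, Fu, Fv, Matrix.mul_apply, Fin.sum_univ_succ] <;> ring
  · ext i j; fin_cases i <;> fin_cases j <;>
      simp [Fm, Fu, Fv, Matrix.mul_apply, Fin.sum_univ_succ] <;> ring

end Pool.Agent.X1.SseR
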