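import Pool.Agent.X1.SseR1

/-!
# The descent to level two and the multipliers
-/

set_option autoImplicit false

namespace Pool.Agent.X1.SseR

open Matrix Pool.Agent.TH441.SSE2

/-- The data: eigenvalues `lam > |mu| = m`, `b0 = max(0, -mu)`. -/
structure Dat (lam mu b0 m : ℤ) : Prop where
  hb : 0 ≤ b0
  hb' : 0 ≤ b0 + mu
  hm : m = 2 * b0 + mu
  hm1 : 1 ≤ m
  hl : 490 * m ≤ lam

/-- Central parameters at level `n`. -/
def Cen (K n y : ℤ) : Prop := K * n ≤ 4 * y ∧ 4 * y ≤ 3 * (K * n)

variable {lam mu b0 m : ℤ}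

lemma chg_le (D : Dat lam mu b0 m) (n y s t : ℤ) (hn : 1 ≤ n) (hy : Cen (lam - mu) n y)
    (hs1 : m ≤ n * s) (hst : s ≤ t) (ht2 : 5 * (n * t) ≤ lam) :
    Q (Fm lam mu n y s b0) (Fm lam mu n y t b0) := by
  obtain ⟨hb, hb', hm, hm1, hl⟩ := D
  obtain ⟨hy1, hy2⟩ := hy
  have h0 : 0 ≤ n * (t - s) := mul_nonneg (by linarith) (by linarith)
  have h00 : n * (t - s) = n * t - n * s := by ring
  have h1 : 0 ≤ n * (lam - mu - 4 * b0) := mul_nonneg (by linarith) (by linarith)
  have h2 : 0 ≤ n * (lam + 3 * mu - 4 * (n * t)) := mul_nonneg (by linarith) (by linarith)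
  have h3 : 0 ≤ n * b0 := mul_nonneg (by linarith) hb
  have hs : 0 ≤ s := by
    by_contra hneg
    push Not at hneg
    have : n * s ≤ n * 0 := mul_le_mul_of_nonneg_left hneg.le (by linarith)
    linarith
  have h := lift lam mu n y s b0 (t - s) 0 (by linarith)
    (by rw [add_sub_cancel]; linarith) (by rw [add_zero]; linarith)
    (by rw [add_sub_cancel, add_zero]; linarith) hs hb hb' (by linarith) (by linarith)
    (by linarith) le_rfl (by linarith)
  rw [add_sub_cancel, add_zero] at h
  exact h

lemma chg (D : Dat lam mu b0 m) (n y s t : ℤ) (hn : 1 ≤ n) (hy : Cen (lam - mu) n y)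
    (hs1 : m ≤ n * s) (hs2 : 5 * (n * s) ≤ lam) (ht1 : m ≤ n * t) (ht2 : 5 * (n * t) ≤ lam) :
    Q (Fm lam mu n y s b0) (Fm lam mu n y t b0) := by
  rcases le_total s t with h | h
  · exact chg_le D n y s t hn hy hs1 h ht2
  · exact (chg_le D n y t s hn hy ht1 h hs2).symm

lemma mir (D : Dat lam mu b0 m) (n y s : ℤ) (hn : 1 ≤ n) (hy : Cen (lam - mu) n y)
    (hs1 : m ≤ n * s) (hs2 : 5 * (n * s) ≤ lam) :
    Q (Fm lam mu n y s b0) (Fm lam mu n (n * (lam - mu) - y) s b0) := by
  obtain ⟨hb, hb', hm, hm1, hl⟩ := D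
  obtain ⟨hy1, hy2⟩ := hy
  have h1 : 0 ≤ n * (lam - mu - 4 * b0) := mul_nonneg (by linarith) (by linarith)
  have h1' : 0 ≤ n * (lam - mu - 4 * (n * s)) := mul_nonneg (by linarith) (by linarith)
  have h2 : 0 ≤ n * (lam + 3 * mu - 4 * (n * s)) := mul_nonneg (by linarith) (by linarith)
  have h2' : 0 ≤ n * (lam - mu - 4 * b0 - 4 * (n * s)) :=
    mul_nonneg (by linarith) (by linarith)
  have h3 : 0 ≤ n * b0 := mul_nonneg (by linarith) hb
  have h3' : 0 ≤ n * (b0 + mu) := mul_nonneg (by linarith) hb'
  have hs : 0 ≤ s := by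
    by_contra hneg
    push Not at hneg
    have : n * s ≤ n * 0 := mul_le_mul_of_nonneg_left hneg.le (by linarith)
    linarith
  have e0 := mirror lam mu n y s b0 (by linarith) (by linarith) (by linarith) hs hb hb'
    (by linarith) (by linarith)
  have e1 := lift lam mu n (n * (lam - mu) - y) s (n * s - b0 - mu) s 0 (by linarith)
    (by linarith) (by linarith) (by linarith) hs (by linarith) (by linarith)
    (by linarith) (by linarith) hs le_rfl (by linarith)
  have e2 := lift lam mu n (n * (lam - mu) - y) s b0 s (n * s - b0 - mu - b0) (by linarith)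
    (by linarith) (by linarith) (by linarith) hs hb hb' (by linarith) (by linarith) hs
    (by linarith) (by linarith)
  rw [add_sub_cancel] at e2
  rw [add_zero] at e1
  exact (e0.trans e1).trans e2.symm

lemma Cen.mir {K n y : ℤ} (h : Cen K n y) : Cen K n (n * K - y) := by
  obtain ⟨h1, h2⟩ := h
  constructor <;> linarith

/-- Change of the representative at level two. -/
lemma base (D : Dat lam mu b0 m) (y y' : ℤ) (hy : Cen (lam - mu) 2 y)
    (hy' : Cen (lam - mu) 2 y')
    (h : (lam - mu) ∣ y' - y ∨ (lam - mu) ∣ y' + y) :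
    Q (Fm lam mu 2 y m b0) (Fm lam mu 2 y' m b0) := by
  have hm := mir D 2 y m (by norm_num) hy (by have := D.hm1; linarith)
    (by have := D.hl; have := D.hm1; linarith)
  have hK : 1 ≤ lam - mu := by
    have := D.hl; have := D.hm1; have := D.hm; have := D.hb; have := D.hb'; linarith
  obtain ⟨h1, h2⟩ := hy
  obtain ⟨h3, h4⟩ := hy'
  have key : y' = y ∨ y' = 2 * (lam - mu) - y := by
    rcases h with ⟨k, hk⟩ | ⟨k, hk⟩
    · have hk1 : k ≤ 1 := by
        by_contra hneg
        push Not at hneg
        have : (lam - mu) * 2 ≤ (lam - mu) * k := mul_le_mul_of_nonneg_left (by linarith)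
          (by linarith)
        linarith
      have hk2 : -1 ≤ k := by
        by_contra hneg
        push Not at hneg
        have : (lam - mu) * k ≤ (lam - mu) * (-2) := mul_le_mul_of_nonneg_left (by linarith)
          (by linarith)
        linarith
      have : k = -1 ∨ k = 0 ∨ k = 1 := by omega
      rcases this with rfl | rfl | rfl
      · right; linarith
      · left; linarith
      · right; linarith
    · have hk1 : k ≤ 3 := by
        by_contra hneg
        push Not at hneg
        have : (lam - mu) * 4 ≤ (lam - mu) * k := mul_le_mul_of_nonneg_left (by linarith)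
          (by linarith)
        linarith
      have hk2 : 1 ≤ k := by
        by_contra hneg
        push Not at hneg
        have : (lam - mu) * k ≤ (lam - mu) * 0 := mul_le_mul_of_nonneg_left (by linarith)
          (by linarith)
        linarith
      have : k = 1 ∨ k = 2 ∨ k = 3 := by omega
      rcases this with rfl | rfl | rfl
      · left; linarith
      · right; linarith
      · left; linarith
  rcases key with h | h
  · rw [h]; exact Q.refl _
  · rw [h]; exact hm

/-- The descent. -/
lemma descent (D : Dat lam mu b0 m) (N : ℤ) (hN : 5 * (2 * m + N) ≤ lam) (k : ℕ) :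
    ∀ y s y' : ℤ, (k : ℤ) + 2 ≤ N → Cen (lam - mu) (k + 2) y → m ≤ (k + 2) * s →
      5 * ((k + 2) * s) ≤ lam → Cen (lam - mu) 2 y' →
      ((lam - mu) ∣ y' - y ∨ (lam - mu) ∣ y' + y) →
      Q (Fm lam mu (k + 2) y s b0) (Fm lam mu 2 y' m b0) := by
  have hm1 := D.hm1
  have hl := D.hl
  have hK : 1 ≤ lam - mu := by
    have := D.hm; have := D.hb; have := D.hb'; linarith
  induction k with
  | zero =>
    intro y s y' hkN hy hs1 hs2 hy' hyy
    norm_num at hkN hy hs1 hs2 ⊢
    exact (chg D 2 y s m (by norm_num) hy hs1 hs2 (by linarith) (by linarith)).trans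
      (base D y y' hy hy' hyy)
  | succ k ih =>
    intro y s y' hkN hy hs1 hs2 hy' hyy
    push_cast at hkN hy hs1 hs2 ⊢
    have e3 : (k : ℤ) + 1 + 2 = (k + 2) + 1 := by ring
    rw [e3] at hkN hy hs1 hs2 ⊢
    obtain ⟨n, hn⟩ : ∃ n : ℤ, n = (k : ℤ) + 2 := ⟨_, rfl⟩
    rw [← hn] at hkN hy hs1 hs2 ih ⊢
    have hn2 : 2 ≤ n := by rw [hn]; omega
    -- the reduced case
    have main : ∀ y : ℤ, Cen (lam - mu) (n + 1) y → 2 * y ≤ (n + 1) * (lam - mu) →
        ((lam - mu) ∣ y' - y ∨ (lam - mu) ∣ y' + y) →
        Q (Fm lam mu (n + 1) y s b0) (Fm lam mu 2 y' m b0) := by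
      intro y hy hy2 hyy
      obtain ⟨t, ht⟩ : ∃ t, t = (m + n - 1) / n := ⟨_, rfl⟩
      have ht3 := Int.emod_add_mul_ediv (m + n - 1) n
      have ht4 := Int.emod_nonneg (m + n - 1) (show n ≠ 0 by linarith)
      have ht5 := Int.emod_lt_of_pos (m + n - 1) (show 0 < n by linarith)
      rw [← ht] at ht3
      have ht1 : m ≤ n * t := by linarith
      have ht2 : n * t ≤ m + n - 1 := by linarith
      have ht0 : 1 ≤ t := by
        by_contra hneg
        push Not at hneg
        have : n * t ≤ n * 0 := mul_le_mul_of_nonneg_left (by linarith) (by linarith)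
        linarith
      have htm : t ≤ m := by
        by_contra hneg
        push Not at hneg
        have : n * (m + 1) ≤ n * t := mul_le_mul_of_nonneg_left (by linarith) (by linarith)
        have h6 : 0 ≤ (n - 1) * m := mul_nonneg (by linarith) (by linarith)
        nlinarith
      have hnt : 5 * ((n + 1) * t) ≤ lam := by
        have : (n + 1) * t = n * t + t := by ring
        linarith
      have q1 := chg D (n + 1) y s t (by linarith) hy hs1 hs2 (by linarith) hnt
      obtain ⟨hy3, hy4⟩ := hy
      have hyn : Cen (lam - mu) n y := by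
        constructor
        · linarith
        · have : 0 ≤ (lam - mu) * (n - 2) := mul_nonneg (by linarith) (by linarith)
          linarith
      have q2 : Q (Fm lam mu n y t b0) (Fm lam mu (n + 1) y t b0) := by
        obtain ⟨hb, hb', hm, _, _⟩ := D
        have g1 : 0 ≤ (n + 1) * (lam - mu - 4 * b0) := mul_nonneg (by linarith) (by linarith)
        have g2 : 0 ≤ n * (4 * lam - 4 * ((n + 1) * t) - 3 * (lam - mu)) :=
          mul_nonneg (by linarith) (by linarith)
        have g3 : 0 ≤ (n + 1) * b0 := mul_nonneg (by linarith) hb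
        exact up lam mu n y t b0 (by linarith) (by linarith)
          (by linarith [hyn.2]) (by linarith) hb hb' (by linarith) (by linarith)
      have q3 := ih y t y' (by linarith) hyn ht1 (by
        have : (n + 1) * t = n * t + t := by ring
        linarith) hy' hyy
      exact (q1.trans q2.symm).trans q3
    rcases le_total (2 * y) ((n + 1) * (lam - mu)) with h | h
    · exact main y hy h hyy
    · have q1 := mir D (n + 1) y s (by linarith) hy hs1 hs2
      refine q1.trans (main _ hy.mir (by linarith) ?_)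
      rcases hyy with h' | h'
      · right
        have : y' + ((n + 1) * (lam - mu) - y) = (y' - y) + (lam - mu) * (n + 1) := by ring
        rw [this]
        exact Dvd.dvd.add h' (Dvd.intro _ rfl)
      · left
        have : y' - ((n + 1) * (lam - mu) - y) = (y' + y) - (lam - mu) * (n + 1) := by ring
        rw [this]
        exact Dvd.dvd.sub h' (Dvd.intro _ rfl)

end Pool.Agent.X1.SseR
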