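import Pool.Agent.X1.SseR2

/-!
# The multipliers
-/

set_option autoImplicit false

namespace Pool.Agent.X1.SseR

open Matrix Pool.Agent.TH441.SSE2

/-- The level two presentations of the classes `c` and `d` are linked. -/
def EE (lam mu b0 m c d : ℤ) : Prop :=
  ∀ y y' : ℤ, Cen (lam - mu) 2 y → Cen (lam - mu) 2 y' → (lam - mu) ∣ y - c →
    (lam - mu) ∣ y' - d → Q (Fm lam mu 2 y m b0) (Fm lam mu 2 y' m b0)

/-- `r` is a multiplier. -/
def GG (lam mu b0 m r : ℤ) : Prop := ∀ c : ℤ, EE lam mu b0 m (r * c) c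

variable {lam mu b0 m : ℤ}

lemma Dat.K_pos (D : Dat lam mu b0 m) : 1 ≤ lam - mu := by
  have := D.hl; have := D.hm1; have := D.hm; have := D.hb; have := D.hb'; linarith

lemma exists_rep (K c : ℤ) (hK : 1 ≤ K) : ∃ y, Cen K 2 y ∧ K ∣ y - c := by
  have h1 := Int.emod_nonneg c (show K ≠ 0 by linarith)
  have h2 := Int.emod_lt_of_pos c (show 0 < K by linarith)
  have h3 := Int.emod_add_mul_ediv c K
  rcases le_total K (2 * (c % K)) with h | h
  · refine ⟨c % K, ⟨by linarith, by linarith⟩, ⟨-(c / K), by linarith⟩⟩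
  · refine ⟨c % K + K, ⟨by linarith, by linarith⟩, ⟨1 - c / K, by linarith⟩⟩

lemma EE.trans (D : Dat lam mu b0 m) {c d e : ℤ} (h1 : EE lam mu b0 m c d)
    (h2 : EE lam mu b0 m d e) : EE lam mu b0 m c e := by
  intro y y' hy hy' hc he
  obtain ⟨z, hz, hzd⟩ := exists_rep (lam - mu) d D.K_pos
  exact (h1 y z hy hz hc hzd).trans (h2 z y' hz hy' hzd he)

lemma EE.symm {c d : ℤ} (h1 : EE lam mu b0 m c d) : EE lam mu b0 m d c :=
  fun y y' hy hy' hc he => (h1 y' y hy' hy he hc).symm

lemma EE.congr {c d c' : ℤ} (h1 : EE lam mu b0 m c d) (h : (lam - mu) ∣ c' - c) :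
    EE lam mu b0 m c' d := by
  intro y y' hy hy' hc he
  refine h1 y y' hy hy' ?_ he
  have := Dvd.dvd.add hc h
  rwa [show y - c' + (c' - c) = y - c by ring] at this

lemma EE.pm (D : Dat lam mu b0 m) {c d : ℤ} (h : (lam - mu) ∣ d - c ∨ (lam - mu) ∣ d + c) :
    EE lam mu b0 m c d := by
  intro y y' hy hy' hc he
  refine base D y y' hy hy' ?_
  rcases h with h | h
  · left
    have := Dvd.dvd.sub (Dvd.dvd.add he h) hc
    rwa [show y' - d + (d - c) - (y - c) = y' - y by ring] at this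
  · right
    have := Dvd.dvd.add (Dvd.dvd.add he h) hc
    rwa [show y' - d + (d + c) + (y - c) = y' + y by ring] at this

lemma GG.one (D : Dat lam mu b0 m) : GG lam mu b0 m 1 := fun c =>
  EE.pm D (Or.inl (by rw [one_mul, sub_self]; exact dvd_zero _))

lemma GG.neg_one (D : Dat lam mu b0 m) : GG lam mu b0 m (-1) := fun c =>
  EE.pm D (Or.inr (by rw [show c + -1 * c = 0 by ring]; exact dvd_zero _))

lemma GG.mul (D : Dat lam mu b0 m) {r s : ℤ} (hr : GG lam mu b0 m r) (hs : GG lam mu b0 m s) :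
    GG lam mu b0 m (r * s) := by
  intro c
  have h1 := hr (s * c)
  rw [← mul_assoc] at h1
  exact h1.trans D (hs c)

lemma GG.cancel (D : Dat lam mu b0 m) {r s : ℤ} (hs : GG lam mu b0 m s)
    (hrs : GG lam mu b0 m (r * s)) : GG lam mu b0 m r := by
  intro c
  have h1 := hs (r * c)
  have h2 := hrs c
  rw [show r * s * c = s * (r * c) by ring] at h2
  exact h1.symm.trans D h2

lemma GG.of_abs (D : Dat lam mu b0 m) {r : ℤ} (h : GG lam mu b0 m |r|) : GG lam mu b0 m r := by
  rcases abs_choice r with h1 | h1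
  · rw [h1] at h; exact h
  · rw [h1] at h
    have := GG.mul D (GG.neg_one D) h
    rwa [show (-1 : ℤ) * -r = r by ring] at this

lemma GG.step (D : Dat lam mu b0 m) (p : ℤ) (hp : 1 ≤ p) (hpb : 5 * (2 * m + 2 * p) ≤ lam)
    (h : (p ∣ mu ∧ p ∣ b0) ∨ p ∣ lam) : GG lam mu b0 m p := by
  intro c
  refine EE.symm ?_
  intro y y' hy hy' hc hc'
  have hm1 := D.hm1
  have hl := D.hl
  have hb := D.hb
  have hb' := D.hb'
  have hm := D.hm
  have hK := D.K_pos
  obtain ⟨t, ht⟩ : ∃ t, t = (m + 2 * p - 1) / (2 * p) := ⟨_, rfl⟩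
  have ht3 := Int.emod_add_mul_ediv (m + 2 * p - 1) (2 * p)
  have ht4 := Int.emod_nonneg (m + 2 * p - 1) (show 2 * p ≠ 0 by linarith)
  have ht5 := Int.emod_lt_of_pos (m + 2 * p - 1) (show 0 < 2 * p by linarith)
  rw [← ht] at ht3
  have ht1 : m ≤ 2 * p * t := by linarith
  have ht2 : 2 * p * t ≤ m + 2 * p - 1 := by linarith
  have ht0 : 0 ≤ t := by
    by_contra hneg
    push Not at hneg
    have : 2 * p * t ≤ 2 * p * 0 := mul_le_mul_of_nonneg_left hneg.le (by linarith)
    linarith
  have q1 := chg D 2 y m (p * t) (by norm_num) hy (by linarith) (by linarith)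
    (by linarith) (by linarith)
  obtain ⟨hy1, hy2⟩ := hy
  have q2 : Q (Fm lam mu 2 y (p * t) b0) (Fm lam mu (p * 2) (p * y) t b0) := by
    rcases h with ⟨⟨nu, hnu⟩, ⟨b1, hb1⟩⟩ | ⟨q, hq⟩
    · have hp0 : 0 < p := by linarith
      have f1 : 0 ≤ b1 := by
        rw [hb1] at hb; exact nonneg_of_mul_nonneg_right hb hp0
      have f2 : 0 ≤ b1 + nu := by
        rw [hb1, hnu, ← mul_add] at hb'; exact nonneg_of_mul_nonneg_right hb' hp0
      have f3 : 0 ≤ 2 * t - b1 - nu := by
        have : 0 ≤ p * (2 * t - b1 - nu) := by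
          have e : p * (2 * t - b1 - nu) = 2 * p * t - b0 - mu := by rw [hb1, hnu]; ring
          rw [e]; linarith
        exact nonneg_of_mul_nonneg_right this hp0
      have f4 : 0 ≤ 2 * t - b1 := by
        have : 0 ≤ p * (2 * t - b1) := by
          have e : p * (2 * t - b1) = 2 * p * t - b0 := by rw [hb1]; ring
          rw [e]; linarith
        exact nonneg_of_mul_nonneg_right this hp0
      have := pstep_mu lam nu 2 y t b1 p hp0.le (by linarith) (by rw [← hb1]; linarith)
        (by rw [← hb1]; linarith) ht0 f1 f2 f3 f4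
      rw [← hnu, ← hb1] at this
      exact this
    · have hp0 : 0 < p := by linarith
      have f1 : 0 ≤ q - 2 * t := by
        have : 0 ≤ p * (q - 2 * t) := by
          have e : p * (q - 2 * t) = lam - 2 * p * t := by rw [hq]; ring
          rw [e]; linarith
        exact nonneg_of_mul_nonneg_right this hp0
      have := pstep_lam q mu 2 y t b0 p hp0.le f1 (by linarith)
        (by rw [← hq]; linarith) ht0 hb hb' (by linarith) (by linarith)
      rw [← hq] at this
      exact this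
  have q3 := descent D (2 * p) (by linarith) (2 * p - 2).toNat (p * y) t y'
    (by rw [Int.toNat_of_nonneg (by linarith)]; linarith)
    (by
      rw [Int.toNat_of_nonneg (by linarith)]
      have g1 : 0 ≤ p * (4 * y - (lam - mu) * 2) := mul_nonneg (by linarith) (by linarith)
      have g2 : 0 ≤ p * (3 * ((lam - mu) * 2) - 4 * y) := mul_nonneg (by linarith) (by linarith)
      constructor <;> linarith)
    (by rw [Int.toNat_of_nonneg (by linarith)]; linarith)
    (by rw [Int.toNat_of_nonneg (by linarith)]; linarith) hy'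
    (by
      left
      have e : y' - p * y = (y' - p * c) - (y - c) * p := by ring
      rw [e]
      exact Dvd.dvd.sub hc' (Dvd.dvd.mul_right hc p))
  rw [Int.toNat_of_nonneg (by linarith), show 2 * p - 2 + 2 = p * 2 by ring] at q3
  exact (q1.trans q2).trans q3

lemma GG.of_dvd_mu (D : Dat lam mu b0 m) (hd : b0 = 0 ∨ b0 = -mu) (p : ℤ) (hp : p ∣ mu) :
    GG lam mu b0 m p := by
  have hm1 := D.hm1
  have hl := D.hl
  have hm := D.hm
  have hmu : mu ≠ 0 := by
    intro h
    rw [h] at hd hm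
    rcases hd with h' | h' <;> rw [h'] at hm <;> linarith
  have hp0 : p ≠ 0 := by rintro rfl; exact hmu (zero_dvd_iff.mp hp)
  have hpm : |p| ≤ m := by
    have h1 : |p| ∣ |mu| := (abs_dvd_abs p mu).mpr hp
    have h2 := Int.le_of_dvd (abs_pos.mpr hmu) h1
    have h3 : |mu| ≤ m := by
      have := D.hb; have := D.hb'
      rw [abs_le]; constructor <;> linarith
    linarith
  refine GG.of_abs D (GG.step D |p| (Int.one_le_abs hp0) (by linarith) (Or.inl ⟨?_, ?_⟩))
  · exact (abs_dvd p mu).mpr hp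
  · rw [abs_dvd]
    rcases hd with h | h
    · rw [h]; exact dvd_zero p
    · rw [h]; exact (dvd_neg).mpr hp

lemma GG.of_lam (D : Dat lam mu b0 m) (hd : b0 = 0 ∨ b0 = -mu) : GG lam mu b0 m lam := by
  intro c
  exact (GG.of_dvd_mu D hd mu (dvd_refl _) c).congr ⟨c, by ring⟩

lemma GG.of_dvd_lam (D : Dat lam mu b0 m) (hd : b0 = 0 ∨ b0 = -mu) (p : ℤ) (hp : p ∣ lam) :
    GG lam mu b0 m p := by
  have hm1 := D.hm1
  have hl := D.hl
  have hm := D.hm
  have hlam : 0 < lam := by linarith
  have small : ∀ q : ℤ, 1 ≤ q → q * q ≤ lam → q ∣ lam → GG lam mu b0 m q := by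
    intro q hq hqq hql
    refine GG.step D q hq ?_ (Or.inr hql)
    by_contra hneg
    push Not at hneg
    have h1 : 48 * lam < 490 * q := by linarith
    have h2 : 48 * lam * (48 * lam) < 490 * q * (490 * q) :=
      mul_lt_mul'' h1 h1 (by linarith) (by linarith)
    have h3 : 0 ≤ lam * (lam - 490) := mul_nonneg hlam.le (by linarith)
    nlinarith
  have hp0 : p ≠ 0 := by rintro rfl; exact hlam.ne' (zero_dvd_iff.mp hp)
  have hpd : |p| ∣ lam := (abs_dvd p lam).mpr hp
  refine GG.of_abs D ?_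
  rcases le_or_gt (|p| * |p|) lam with h | h
  · exact small |p| (Int.one_le_abs hp0) h hpd
  · obtain ⟨q, hq⟩ := hpd
    have hpp : 0 < |p| := abs_pos.mpr hp0
    have hq0 : 0 < q := by
      by_contra hneg
      push Not at hneg
      have : |p| * q ≤ |p| * 0 := mul_le_mul_of_nonneg_left hneg hpp.le
      linarith
    have hqp : q < |p| := by
      by_contra hneg
      push Not at hneg
      have : |p| * |p| ≤ |p| * q := mul_le_mul_of_nonneg_left hneg hpp.le
      linarith
    refine GG.cancel D (s := q) (small q (by linarith) ?_ ⟨|p|, by rw [hq]; ring⟩) ?_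
    · rw [hq]
      exact mul_le_mul_of_nonneg_right hqp.le hq0.le
    · rw [← hq]
      exact GG.of_lam D hd

lemma GG.of_dvd_pow (D : Dat lam mu b0 m) (a : ℤ) (ha : ∀ p, p ∣ a → GG lam mu b0 m p) (l : ℕ) :
    ∀ r, r ∣ a ^ l → GG lam mu b0 m r := by
  induction l with
  | zero =>
    intro r hr
    rw [pow_zero] at hr
    rcases Int.isUnit_iff.mp (isUnit_of_dvd_one hr) with h | h
    · rw [h]; exact GG.one D
    · rw [h]; exact GG.neg_one D
  | succ l ih =>
    intro r hr
    rw [pow_succ] at hr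
    obtain ⟨r1, r2, h1, h2, rfl⟩ := exists_dvd_and_dvd_of_dvd_mul hr
    exact GG.mul D (ih r1 h1) (ha r2 h2)

end Pool.Agent.X1.SseR
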