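import Pool.Agent.X1.SseR3
import Pool.Agent.Y321.SEP.TransP

/-!
# From a nonnegative matrix to the level two presentation
-/

set_option autoImplicit false

namespace Pool.Agent.X1.SseR

open Matrix Pool.Agent.TH441.SSE2 Pool.Agent.Y321.SE2

variable {lam mu b0 m : ℤ}

/-- The triangular matrix. -/
def Tri (lam mu c : ℤ) : Matrix (Fin 2) (Fin 2) ℤ := !![lam, c; 0, mu]

lemma simQ {A A'' : Matrix (Fin 2) (Fin 2) ℤ} {T Δ : ℤ} (hA : NN A) (hA'' : NN A'')
    (hs : Sim A'' A) (hT : A.trace = T) (hD : A.det = Δ) (hT0 : 0 < T) (hD0 : Δ ≠ 0)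
    (hTD : 500 * |Δ| ≤ T ^ 2) (p1 : 1 ≤ A 0 1) (p2 : 1 ≤ A 1 0) (p3 : 1 ≤ A'' 0 1)
    (p4 : 1 ≤ A'' 1 0) : Q A A'' := by
  rcases lt_or_gt_of_ne hD0 with hneg | hpos
  · rw [abs_of_neg hneg] at hTD
    exact sim_Q (T := T) (D := -Δ) hA hA'' hs hT (by rw [hD]; ring) hT0 (by linarith)
      (by linarith)
  · rw [abs_of_pos hpos] at hTD
    obtain ⟨U, hU, hUA⟩ := hs
    obtain ⟨i1, i2⟩ := inv_entries hU hUA.symm hT (D := -Δ) (by rw [hD]; ring)
    rw [Matrix.trace_fin_two] at hT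
    rw [Matrix.det_fin_two] at hD
    have hAeta := Matrix.eta_fin_two A
    have hA''eta := Matrix.eta_fin_two A''
    have hUeta := Matrix.eta_fin_two U
    have hUdet : U 0 0 * U 1 1 - U 0 1 * U 1 0 = 1 ∨ U 0 0 * U 1 1 - U 0 1 * U 1 0 = -1 := by
      rw [← Matrix.det_fin_two]
      exact Int.isUnit_iff.mp hU
    rcases hUdet with h1 | h1
    · have h := river_one T Δ hT0 hpos (by linarith) (A 0 0) (A 0 1) (A 1 0) (A 1 1)
        (U 0 0) (U 0 1) (U 1 0) (U 1 1) (A'' 0 0) (A'' 0 1) (A'' 1 0) (A'' 1 1) p1 p2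
        hT.symm (by linarith) i1 (by linarith) h1 p3 p4
        (by rw [← hAeta, ← hUeta, ← hA''eta]; exact hUA.symm)
      rw [← hAeta, ← hA''eta] at h
      exact h
    · have h2 : !![A 0 0, A 0 1; A 1 0, A 1 1] * !![U 0 1, U 0 0; U 1 1, U 1 0] =
          !![U 0 1, U 0 0; U 1 1, U 1 0] * !![A'' 1 1, A'' 1 0; A'' 0 1, A'' 0 0] := by
        have k00 := congrFun (congrFun hUA 0) 0
        have k01 := congrFun (congrFun hUA 0) 1
        have k10 := congrFun (congrFun hUA 1) 0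
        have k11 := congrFun (congrFun hUA 1) 1
        simp only [Matrix.mul_apply, Fin.sum_univ_two] at k00 k01 k10 k11
        ext i j; fin_cases i <;> fin_cases j <;>
          simp [Matrix.mul_apply, Fin.sum_univ_two] <;> linarith
      have h := river_one T Δ hT0 hpos (by linarith) (A 0 0) (A 0 1) (A 1 0) (A 1 1)
        (U 0 1) (U 0 0) (U 1 1) (U 1 0) (A'' 1 1) (A'' 1 0) (A'' 0 1) (A'' 0 0) p1 p2
        hT.symm (by linarith) (by linarith) (by linarith) (by linarith) p4 p3 h2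
      rw [← hAeta] at h
      have h3 := Q.swap (A'' 0 0) (A'' 0 1) (A'' 1 0) (A'' 1 1) (hA'' 0 0) (hA'' 0 1) (hA'' 1 0)
        (hA'' 1 1)
      rw [← hA''eta] at h3
      exact h.trans h3.symm

lemma fm_W (D : Dat lam mu b0 m) (c : ℤ) (hc : 1 ≤ c) (hcK : 2 * c ≤ lam - mu) :
    Q (Fm lam mu 2 (c + (lam - mu)) m b0) (W (-mu) 0 c lam 1 (-mu) m) := by
  obtain ⟨hb, hb', hm, hm1, hl⟩ := D
  have e : Fm lam mu 2 (c + (lam - mu)) m b0 =
      (!![c - mu - 2 * b0 + 2 * m, lam - 2 * m; b0 + mu - m, m; b0 - m, m] :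
        Matrix (Fin 3) (Fin 2) ℤ) * (!![0, 1, -1; 1, 1, 1] : Matrix (Fin 2) (Fin 3) ℤ) := by
    ext i j; fin_cases i <;> fin_cases j <;>
      simp [Fm, Fu, Fv, Matrix.mul_apply, Fin.sum_univ_succ] <;> linarith
  rw [e]
  refine Q.move _ _ (Ur 1) (Vc (-mu) 0 c lam 1 (-mu) m)
    !![0, lam - 3 * m - c, c + m; b0, b0 + mu, 0; b0 + mu, b0, 0] ?_ ?_ ?_ ?_
  · intro i j; fin_cases i <;> fin_cases j <;> simp <;> linarith
  · intro i j
    fin_cases i <;> fin_cases j <;> simp [Ur, Matrix.mul_apply, Fin.sum_univ_succ]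
  · ext i j; fin_cases i <;> fin_cases j <;>
      simp [Ur, Matrix.mul_apply, Fin.sum_univ_succ] <;> linarith
  · ext i j; fin_cases i <;> fin_cases j <;>
      simp [Vc, Matrix.mul_apply, Fin.sum_univ_succ] <;> linarith

lemma k1_link (D : Dat lam mu b0 m) (hd : b0 = 0 ∨ b0 = -mu) (c : ℤ) (hc : 1 ≤ c)
    (hcK : 2 * c ≤ lam - mu) : ∃ j : ℤ, NN (K1 (-mu) 0 c lam j) ∧
      1 ≤ K1 (-mu) 0 c lam j 0 1 ∧ 1 ≤ K1 (-mu) 0 c lam j 1 0 ∧
      Q (K1 (-mu) 0 c lam j) (Fm lam mu 2 (c + (lam - mu)) m b0) := by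
  have hW := fm_W D c hc hcK
  obtain ⟨hb, hb', hm, hm1, hl⟩ := D
  have nn : ∀ j : ℤ, 1 ≤ j → m ≤ j * c → j * c ≤ c + m → NN (K1 (-mu) 0 c lam j) ∧
      1 ≤ K1 (-mu) 0 c lam j 0 1 ∧ 1 ≤ K1 (-mu) 0 c lam j 1 0 := by
    intro j hj h1 h2
    have h3 : 1 * 1 ≤ j * (lam - mu - j * c) := mul_le_mul hj (by linarith) (by norm_num)
      (by linarith)
    have h4 : K1 (-mu) 0 c lam j 0 1 = j * (lam - mu - j * c) := by
      simp [K1]; ring
    have h5 : K1 (-mu) 0 c lam j 1 0 = c := by simp [K1]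
    refine ⟨?_, by rw [h4]; linarith, by rw [h5]; exact hc⟩
    intro i k
    fin_cases i <;> fin_cases k
    · simp [K1]; linarith
    · show 0 ≤ K1 (-mu) 0 c lam j 0 1
      rw [h4]; linarith
    · show 0 ≤ K1 (-mu) 0 c lam j 1 0
      rw [h5]; linarith
    · simp [K1]; linarith
  have hI1 : InH 1 (-mu) m := ⟨by linarith, by linarith, by linarith⟩
  have hI3 : InH 1 (0 + 1 * (-mu) - 2 * 1 * (-mu)) (lam - 1 * c - 2 * 1 * m) :=
    ⟨by linarith, by linarith, by linarith⟩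
  rcases le_or_gt m c with h | h
  · obtain ⟨n1, n2, n3⟩ := nn 1 le_rfl (by linarith) (by linarith)
    refine ⟨1, n1, n2, n3, ?_⟩
    have := hl_a (-mu) 0 c lam 1 (-mu) m (by norm_num) (by linarith) (by linarith) (by linarith)
      hI1 hI3
    exact (hW.trans this).symm
  · obtain ⟨h4, h5⟩ := cd_spec m c hc
    have hj : 1 ≤ cd m c := by
      by_contra hneg
      push Not at hneg
      have : cd m c * c ≤ 0 * c := mul_le_mul_of_nonneg_right (by linarith) (by linarith)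
      linarith
    obtain ⟨n1, n2, n3⟩ := nn (cd m c) hj h4 (by linarith)
    refine ⟨cd m c, n1, n2, n3, ?_⟩
    refine (hW.trans ?_).symm
    rcases hd with h6 | h6
    · have hmm : m = mu := by linarith
      have := hl_b_neg mu 0 c lam 1 (-mu) m (by linarith) hc le_rfl (by linarith)
        (by rw [abs_zero]; linarith) hI1 ⟨by linarith, by linarith, by linarith⟩ hI3
      rw [← hmm] at this ⊢
      exact this
    · have hmm : m = -mu := by linarith
      have := hl_b (-mu) 0 c lam 1 (-mu) m (by linarith) hc le_rfl (by linarith)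
        (by rw [abs_zero]; linarith) hI1 ⟨by linarith, by linarith, by linarith⟩ hI3
      rw [← hmm] at this ⊢
      exact this

lemma tri_K1 (c j : ℤ) : Sim (K1 (-mu) 0 c lam j) (Tri lam mu c) := by
  refine (K1_sim (-mu) 0 c lam j).trans ⟨!![0, 1; 1, 0], by simp [Matrix.det_fin_two], ?_⟩
  ext i k; fin_cases i <;> fin_cases k <;>
    simp [Tri, Matrix.mul_apply, Fin.sum_univ_succ]

lemma tri_shift (c c' : ℤ) (h : (lam - mu) ∣ c' - c) : Sim (Tri lam mu c) (Tri lam mu c') := by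
  obtain ⟨k, hk⟩ := h
  refine ⟨!![1, -k; 0, 1], by simp [Matrix.det_fin_two], ?_⟩
  ext i j; fin_cases i <;> fin_cases j <;>
    simp [Tri, Matrix.mul_apply, Fin.sum_univ_succ] <;> linarith

lemma tri_neg (c : ℤ) : Sim (Tri lam mu c) (Tri lam mu (-c)) := by
  refine ⟨!![1, 0; 0, -1], by simp [Matrix.det_fin_two], ?_⟩
  ext i j; fin_cases i <;> fin_cases j <;>
    simp [Tri, Matrix.mul_apply, Fin.sum_univ_succ]

lemma not_dvd {A : Matrix (Fin 2) (Fin 2) ℤ} {c : ℤ} (hK : 1 ≤ lam - mu)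
    (hT : A.trace = lam + mu) (hD : A.det = lam * mu)
    (p1 : 1 ≤ A 0 1) (p2 : 1 ≤ A 1 0) (hs : Sim A (Tri lam mu c)) : ¬ (lam - mu) ∣ c := by
  rintro ⟨k, hk⟩
  obtain ⟨U, hU, hUA⟩ := hs
  have k00 := congrFun (congrFun hUA 0) 0
  have k01 := congrFun (congrFun hUA 0) 1
  have k10 := congrFun (congrFun hUA 1) 0
  have k11 := congrFun (congrFun hUA 1) 1
  simp [Tri, Matrix.mul_apply, Fin.sum_univ_two] at k00 k01 k10 k11
  rw [Matrix.trace_fin_two] at hT
  rw [Matrix.det_fin_two] at hD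
  have hUd : U.det * U.det = 1 := by
    rcases Int.isUnit_iff.mp hU with h | h <;> rw [h] <;> norm_num
  rw [Matrix.det_fin_two] at hUd
  -- `A 0 0 - mu` is divisible by `lam - mu`
  have h1 : (A 0 0 - mu) = (lam - mu) * ((U 0 0 * U 1 1 - U 0 1 * U 1 0) *
      (U 0 0 * U 1 1 + k * (U 1 0 * U 1 1))) := by
    have e0 : (A 0 0) * (U 0 0 * U 1 1 - U 0 1 * U 1 0) =
        U 1 1 * (lam * U 0 0 + c * U 1 0) - U 0 1 * (mu * U 1 0) := by
      linear_combination U 1 1 * k00 - U 0 1 * k10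
    rw [hk] at e0
    have e1 : (A 0 0 - mu) * (U 0 0 * U 1 1 - U 0 1 * U 1 0) =
        (lam - mu) * (U 0 0 * U 1 1 + k * (U 1 0 * U 1 1)) := by
      linear_combination e0
    linear_combination (U 0 0 * U 1 1 - U 0 1 * U 1 0) * e1 - (A 0 0 - mu) * hUd
  obtain ⟨q, hq⟩ : ∃ q, q = ((U 0 0 * U 1 1 - U 0 1 * U 1 0) *
      (U 0 0 * U 1 1 + k * (U 1 0 * U 1 1))) := ⟨_, rfl⟩
  rw [← hq] at h1
  have h2 : 0 < A 0 1 * A 1 0 := mul_pos (by linarith) (by linarith)
  have h3 : A 0 1 * A 1 0 = (lam - A 0 0) * (A 0 0 - mu) := by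
    have : A 1 1 = lam + mu - A 0 0 := by linarith
    rw [this] at hD
    linarith
  have h4 : lam - A 0 0 = (lam - mu) * (1 - q) := by linarith
  rw [h3, h4, h1] at h2
  have h5 : (lam - mu) * (1 - q) * ((lam - mu) * q) = (lam - mu) * (lam - mu) * (q * (1 - q)) := by
    ring
  rw [h5] at h2
  have h6 : q * (1 - q) ≤ 0 := by
    rcases le_or_gt q 0 with h | h
    · exact mul_nonpos_of_nonpos_of_nonneg h (by linarith)
    · exact mul_nonpos_of_nonneg_of_nonpos h.le (by linarith)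
  have h7 : 0 < (lam - mu) * (lam - mu) := mul_pos (by linarith) (by linarith)
  have h8 := mul_nonpos_of_nonneg_of_nonpos h7.le h6
  linarith

lemma toZ (D : Dat lam mu b0 m) (hd : b0 = 0 ∨ b0 = -mu) {A : Matrix (Fin 2) (Fin 2) ℤ}
    {c : ℤ} (hA : NN A) (hT : A.trace = lam + mu) (hD : A.det = lam * mu)
    (hmu : mu ≠ 0) (hTD : 500 * |lam * mu| ≤ (lam + mu) ^ 2)
    (p1 : 1 ≤ A 0 1) (p2 : 1 ≤ A 1 0) (hs : Sim A (Tri lam mu c)) (y : ℤ)
    (hy : Cen (lam - mu) 2 y) (hyc : (lam - mu) ∣ y - c) :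
    Q A (Fm lam mu 2 y m b0) := by
  have hK := D.K_pos
  have hnd := not_dvd hK hT hD p1 p2 hs
  have hm1 := D.hm1
  have hl := D.hl
  have hb := D.hb
  have hb' := D.hb'
  have hm := D.hm
  obtain ⟨c', hc1, hc2, hc3, hsim⟩ : ∃ c', 1 ≤ c' ∧ 2 * c' ≤ lam - mu ∧
      ((lam - mu) ∣ c - c' ∨ (lam - mu) ∣ c + c') ∧ Sim (Tri lam mu c') (Tri lam mu c) := by
    have h1 := Int.emod_nonneg c (show lam - mu ≠ 0 by linarith)
    have h2 := Int.emod_lt_of_pos c (show 0 < lam - mu by linarith)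
    have h3 := Int.emod_add_mul_ediv c (lam - mu)
    have h4 : 0 < c % (lam - mu) := by
      rcases h1.lt_or_eq with h | h
      · exact h
      · exact absurd (Int.dvd_of_emod_eq_zero h.symm) hnd
    rcases le_total (2 * (c % (lam - mu))) (lam - mu) with h | h
    · have h5 : (lam - mu) ∣ c - c % (lam - mu) := ⟨c / (lam - mu), by linarith⟩
      exact ⟨c % (lam - mu), by linarith, h, Or.inl h5, tri_shift _ _ h5⟩
    · have h5 : (lam - mu) ∣ c + (lam - mu - c % (lam - mu)) :=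
        ⟨c / (lam - mu) + 1, by linarith⟩
      refine ⟨lam - mu - c % (lam - mu), by linarith, by linarith, Or.inr h5, ?_⟩
      refine (tri_neg _).trans (tri_shift _ _ ?_)
      rwa [sub_neg_eq_add]
  obtain ⟨j, n1, n2, n3, hQ⟩ := k1_link D hd c' hc1 hc2
  have hs2 : Sim (K1 (-mu) 0 c' lam j) A := ((tri_K1 c' j).trans hsim).trans hs.symm
  have q1 := simQ hA n1 hs2 hT hD (by linarith) (mul_ne_zero (by linarith) hmu) hTD p1 p2 n2 n3
  refine (q1.trans hQ).trans (base D _ _ ⟨by linarith, by linarith⟩ hy ?_)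
  rcases hc3 with h | h
  · left
    have e : y - (c' + (lam - mu)) = (y - c) + (c - c') - (lam - mu) * 1 := by ring
    rw [e]
    exact Dvd.dvd.sub (Dvd.dvd.add hyc h) (Dvd.intro _ rfl)
  · right
    have e : y + (c' + (lam - mu)) = (y - c) + (c + c') + (lam - mu) * 1 := by ring
    rw [e]
    exact Dvd.dvd.add (Dvd.dvd.add hyc h) (Dvd.intro _ rfl)

end Pool.Agent.X1.SseR
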