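import Pool.Agent.X1.SseR4

/-!
# Shift equivalence over `ℤ` for matrices with integer eigenvalues
-/

set_option autoImplicit false

namespace Pool.Agent.X1.SseR

open Matrix Pool.Agent.TH441.SSE2 Pool.Agent.Y321.SE2

variable {lam mu b0 m : ℤ}

lemma tri_exists {A : Matrix (Fin 2) (Fin 2) ℤ} (hT : A.trace = lam + mu)
    (hD : A.det = lam * mu) (p1 : 1 ≤ A 0 1) : ∃ c, Sim A (Tri lam mu c) := by
  rw [Matrix.trace_fin_two] at hT
  rw [Matrix.det_fin_two] at hD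
  have hg : 0 < Int.gcd (A 0 1) (lam - A 0 0) := Int.gcd_pos_of_ne_zero_left _ (by linarith)
  obtain ⟨v0, v1, hco, h0, h1⟩ := Int.exists_gcd_one hg
  have hb := Int.gcd_eq_gcd_ab v0 v1
  rw [hco] at hb
  obtain ⟨α, hα⟩ : ∃ α, α = Int.gcdA v0 v1 := ⟨_, rfl⟩
  obtain ⟨β, hβ⟩ : ∃ β, β = Int.gcdB v0 v1 := ⟨_, rfl⟩
  rw [← hα, ← hβ] at hb
  push_cast at hb
  have hg' : ((Int.gcd (A 0 1) (lam - A 0 0) : ℕ) : ℤ) ≠ 0 := by exact_mod_cast hg.ne'
  obtain ⟨g, hgd⟩ : ∃ g : ℤ, g = ((Int.gcd (A 0 1) (lam - A 0 0) : ℕ) : ℤ) := ⟨_, rfl⟩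
  rw [← hgd] at h0 h1 hg'
  have e0 : A 0 0 * v0 + A 0 1 * v1 = lam * v0 := by
    apply mul_right_cancel₀ hg'
    have : A 0 0 * (v0 * g) + A 0 1 * (v1 * g) = lam * (v0 * g) := by
      rw [← h0, ← h1]; ring
    linarith
  have e1 : A 1 0 * v0 + A 1 1 * v1 = lam * v1 := by
    apply mul_right_cancel₀ hg'
    have : A 1 0 * (v0 * g) + A 1 1 * (v1 * g) = lam * (v1 * g) := by
      rw [← h0, ← h1]
      linear_combination -hD + lam * hT
    linarith
  refine ⟨α * (A 0 0 * (-β) + A 0 1 * α) + β * (A 1 0 * (-β) + A 1 1 * α), Sim.symm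
    ⟨!![v0, -β; v1, α], ?_, ?_⟩⟩
  · rw [Matrix.det_fin_two]
    simp
    rw [Int.isUnit_iff]
    left
    linarith
  · ext i j
    fin_cases i <;> fin_cases j <;> simp [Tri, Matrix.mul_apply, Fin.sum_univ_two]
    · linarith
    · linear_combination (-(A 0 0 * (-β) + A 0 1 * α)) * hb + β * (-β * e1 - α * e0 -
        (A 0 0 + A 1 1 - lam) * hb + hT)
    · linarith
    · linear_combination (-(A 1 0 * (-β) + A 1 1 * α)) * hb - α * (-β * e1 - α * e0 -
        (A 0 0 + A 1 1 - lam) * hb + hT)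

lemma tri_pow (c : ℤ) (l : ℕ) : (Tri lam mu c ^ l) 0 0 = lam ^ l ∧ (Tri lam mu c ^ l) 1 0 = 0 ∧
    (Tri lam mu c ^ l) 1 1 = mu ^ l := by
  induction l with
  | zero => simp
  | succ l ih =>
    obtain ⟨h1, h2, h3⟩ := ih
    rw [pow_succ]
    refine ⟨?_, ?_, ?_⟩
    · rw [Matrix.mul_apply, Fin.sum_univ_two, h1]; simp [Tri, pow_succ]
    · rw [Matrix.mul_apply, Fin.sum_univ_two, h2]; simp [Tri]
    · rw [Matrix.mul_apply, Fin.sum_univ_two, h2, h3]; simp [Tri, pow_succ]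

lemma tri_inter (hK : 1 ≤ lam - mu) {x x' : ℤ} {M : Matrix (Fin 2) (Fin 2) ℤ}
    (h : Tri lam mu x * M = M * Tri lam mu x') :
    M 1 0 = 0 ∧ (lam - mu) ∣ M 1 1 * x - M 0 0 * x' := by
  have k01 := congrFun (congrFun h 0) 1
  have k10 := congrFun (congrFun h 1) 0
  simp [Tri, Matrix.mul_apply, Fin.sum_univ_two] at k01 k10
  constructor
  · have : (lam - mu) * M 1 0 = 0 := by linarith
    rcases mul_eq_zero.mp this with h | h
    · linarith
    · exact h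
  · exact ⟨-M 0 1, by linarith⟩

lemma arith_of_se (hK : 1 ≤ lam - mu)
    {A B R S : Matrix (Fin 2) (Fin 2) ℤ} {x x' : ℤ} (hA : Sim A (Tri lam mu x))
    (hB : Sim B (Tri lam mu x')) (l : ℕ) (h1 : A ^ l = R * S) (h3 : A * R = R * B)
    (h4 : S * A = B * S) :
    ∃ r s : ℤ, r ∣ lam ^ l ∧ s ∣ mu ^ l ∧ (lam - mu) ∣ s * x - r * x' := by
  obtain ⟨U, hU, hUA⟩ := hA.symm
  obtain ⟨V, hV, hVB⟩ := hB.symm
  obtain ⟨iU1, iU2⟩ := inv_mul_of_det_one hU
  obtain ⟨iV1, iV2⟩ := inv_mul_of_det_one hV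
  have hUx : U⁻¹ * A * U = Tri lam mu x := conj_eq hU hUA.symm
  have hVx : V⁻¹ * B * V = Tri lam mu x' := conj_eq hV hVB.symm
  have e1 : Tri lam mu x * (U⁻¹ * R * V) = (U⁻¹ * R * V) * Tri lam mu x' := by
    calc Tri lam mu x * (U⁻¹ * R * V) = U⁻¹ * A * (U * U⁻¹) * R * V := by
          rw [← hUx]; simp only [Matrix.mul_assoc]
      _ = U⁻¹ * (A * R) * V := by rw [iU2, Matrix.mul_one]; simp only [Matrix.mul_assoc]
      _ = U⁻¹ * R * (B * V) := by rw [h3]; simp only [Matrix.mul_assoc]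
      _ = (U⁻¹ * R * V) * Tri lam mu x' := by rw [← hVB]; simp only [Matrix.mul_assoc]
  have e2 : Tri lam mu x' * (V⁻¹ * S * U) = (V⁻¹ * S * U) * Tri lam mu x := by
    calc Tri lam mu x' * (V⁻¹ * S * U) = V⁻¹ * B * (V * V⁻¹) * S * U := by
          rw [← hVx]; simp only [Matrix.mul_assoc]
      _ = V⁻¹ * (B * S) * U := by rw [iV2, Matrix.mul_one]; simp only [Matrix.mul_assoc]
      _ = V⁻¹ * S * (A * U) := by rw [← h4]; simp only [Matrix.mul_assoc]
      _ = (V⁻¹ * S * U) * Tri lam mu x := by rw [← hUA]; simp only [Matrix.mul_assoc]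
  have e3 : (U⁻¹ * R * V) * (V⁻¹ * S * U) = Tri lam mu x ^ l := by
    calc (U⁻¹ * R * V) * (V⁻¹ * S * U) = U⁻¹ * R * (V * V⁻¹) * S * U := by
          simp only [Matrix.mul_assoc]
      _ = U⁻¹ * (R * S) * U := by rw [iV2, Matrix.mul_one]; simp only [Matrix.mul_assoc]
      _ = U⁻¹ * (A ^ l * U) := by rw [← h1, Matrix.mul_assoc]
      _ = U⁻¹ * (U * Tri lam mu x ^ l) := by rw [pow_comm_rect hUA.symm]
      _ = Tri lam mu x ^ l := by rw [← Matrix.mul_assoc, iU1, Matrix.one_mul]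
  obtain ⟨M, hM⟩ : ∃ M, M = U⁻¹ * R * V := ⟨_, rfl⟩
  obtain ⟨M', hM'⟩ : ∃ M', M' = V⁻¹ * S * U := ⟨_, rfl⟩
  rw [← hM] at e1 e3
  rw [← hM'] at e2 e3
  obtain ⟨a1, a2⟩ := tri_inter hK e1
  obtain ⟨b1, b2⟩ := tri_inter hK e2
  obtain ⟨t1, t2, t3⟩ := tri_pow (lam := lam) (mu := mu) x l
  rw [← e3, Matrix.mul_apply, Fin.sum_univ_two, b1, mul_zero, add_zero] at t1
  rw [← e3, Matrix.mul_apply, Fin.sum_univ_two, a1, zero_mul, zero_add] at t3
  exact ⟨M 0 0, M 1 1, ⟨_, t1.symm⟩, ⟨_, t3.symm⟩, a2⟩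

lemma EE.of_arith (D : Dat lam mu b0 m) (hd : b0 = 0 ∨ b0 = -mu) {x x' r s : ℤ} (l : ℕ)
    (hr : r ∣ lam ^ l) (hs : s ∣ mu ^ l) (h : (lam - mu) ∣ s * x - r * x') :
    EE lam mu b0 m x x' := by
  have g1 := GG.of_dvd_pow D lam (GG.of_dvd_lam D hd) l r hr
  have g2 := GG.of_dvd_pow D mu (GG.of_dvd_mu D hd) l s hs
  exact (g2 x).symm.trans D ((g1 x').congr h)

/-- The data attached to the eigenvalues. -/
lemma dat_of (lam mu : ℤ) (hmu0 : mu ≠ 0) (hmabs : |mu| ≤ lam)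
    (hquad : 500 * |lam * mu| ≤ (lam + mu) ^ 2) :
    Dat lam mu (max 0 (-mu)) |mu| := by
  have hmpos : 1 ≤ |mu| := Int.one_le_abs hmu0
  have hlam0 : 0 < lam := by linarith
  have h490 : 490 * |mu| ≤ lam := by
    by_contra hneg
    push Not at hneg
    have h5 : 0 ≤ (490 * |mu| - lam) * (lam - |mu|) := mul_nonneg (by linarith) (by linarith)
    rw [abs_mul, abs_of_pos hlam0] at hquad
    have h6 : 0 < lam * |mu| := mul_pos hlam0 (by linarith)
    have h7 : (lam + mu) ^ 2 ≤ (lam + |mu|) ^ 2 := by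
      apply pow_le_pow_left₀
      · linarith [neg_abs_le mu]
      · linarith [le_abs_self mu]
    nlinarith
  rcases le_total 0 mu with h | h
  · have e1 : max 0 (-mu) = 0 := max_eq_left (by linarith)
    have e2 : |mu| = mu := abs_of_nonneg h
    rw [e2] at hmpos h490
    rw [e1, e2]
    exact ⟨le_rfl, by linarith, by linarith, by linarith, by linarith⟩
  · have e1 : max 0 (-mu) = -mu := max_eq_right (by linarith)
    have e2 : |mu| = -mu := abs_of_nonpos h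
    rw [e2] at hmpos h490
    rw [e1, e2]
    exact ⟨by linarith, by linarith, by linarith, by linarith, by linarith⟩

lemma trace_det_of_sim {A B : Matrix (Fin 2) (Fin 2) ℤ} (h : Sim A B) :
    A.trace = B.trace ∧ A.det = B.det := by
  obtain ⟨U, hU, hUA⟩ := h
  have h1 := conj_eq hU hUA.symm
  constructor
  · rw [← h1, Matrix.trace_mul_cycle, (inv_mul_of_det_one hU).2, Matrix.one_mul]
  · have h2 := congrArg Matrix.det hUA
    rw [Matrix.det_mul, Matrix.det_mul, mul_comm] at h2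
    exact mul_right_cancel₀ hU.ne_zero h2

/-- The arithmetic criterion is sufficient. -/
theorem Q_of_arith {A B : Matrix (Fin 2) (Fin 2) ℤ} (hA : NN A) (hB : NN B)
    (a1 : 1 ≤ A 0 1) (a2 : 1 ≤ A 1 0) (b1 : 1 ≤ B 0 1) (b2 : 1 ≤ B 1 0)
    (lam mu x x' r s : ℤ) (hmu0 : mu ≠ 0) (hmabs : |mu| ≤ lam)
    (hquad : 500 * |lam * mu| ≤ (lam + mu) ^ 2) (hx : Sim A (Tri lam mu x))
    (hx' : Sim B (Tri lam mu x')) (l : ℕ)
    (hr : r ∣ lam ^ l) (hs : s ∣ mu ^ l) (h : (lam - mu) ∣ s * x - r * x') : Q A B := by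
  have hD := dat_of lam mu hmu0 hmabs hquad
  have hd : max 0 (-mu) = 0 ∨ max 0 (-mu) = -mu := max_choice _ _
  obtain ⟨tA, dA⟩ := trace_det_of_sim hx
  obtain ⟨tB, dB⟩ := trace_det_of_sim hx'
  have tT : ∀ c, (Tri lam mu c).trace = lam + mu := by
    intro c; rw [Matrix.trace_fin_two]; simp [Tri]
  have dT : ∀ c, (Tri lam mu c).det = lam * mu := by
    intro c; rw [Matrix.det_fin_two]; simp [Tri]
  rw [tT] at tA tB
  rw [dT] at dA dB
  have hE := EE.of_arith hD hd l hr hs h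
  obtain ⟨y, hy, hyx⟩ := exists_rep (lam - mu) x hD.K_pos
  obtain ⟨y', hy', hyx'⟩ := exists_rep (lam - mu) x' hD.K_pos
  have q1 := toZ hD hd hA tA dA hmu0 hquad a1 a2 hx y hy hyx
  have q2 := toZ hD hd hB tB dB hmu0 hquad b1 b2 hx' y' hy' hyx'
  exact (q1.trans (hE y y' hy hy' hyx hyx')).trans q2.symm

/-- The main theorem of this folder. -/
theorem Q_rat {A B R S : Matrix (Fin 2) (Fin 2) ℤ} (hA : NN A) (hB : NN B)
    (a1 : 1 ≤ A 0 1) (a2 : 1 ≤ A 1 0) (b1 : 1 ≤ B 0 1) (b2 : 1 ≤ B 1 0)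
    (hdet : A.det ≠ 0) (hquad : 500 * |A.det| ≤ A.trace ^ 2)
    (hsq : IsSquare (A.trace ^ 2 - 4 * A.det)) (l : ℕ) (h1 : A ^ l = R * S)
    (h3 : A * R = R * B) (h4 : S * A = B * S) : Q A B := by
  -- determinant and trace of `B`
  have hRdet : R.det ≠ 0 := by
    intro h
    have h5 := congrArg Matrix.det h1
    rw [Matrix.det_pow, Matrix.det_mul, h, zero_mul] at h5
    exact pow_ne_zero l hdet h5
  have hdB : B.det = A.det := by
    have h5 := congrArg Matrix.det h3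
    rw [Matrix.det_mul, Matrix.det_mul, mul_comm] at h5
    exact (mul_left_cancel₀ hRdet h5).symm
  have htB : B.trace = A.trace := by
    have h5 : (R.adjugate * (A * R)).trace = (R.adjugate * (R * B)).trace := by rw [h3]
    rw [← Matrix.mul_assoc, ← Matrix.mul_assoc, Matrix.adjugate_mul, Matrix.trace_mul_comm,
      ← Matrix.mul_assoc, Matrix.mul_adjugate, Matrix.smul_mul, Matrix.smul_mul, Matrix.one_mul,
      Matrix.one_mul, Matrix.trace_smul, Matrix.trace_smul, smul_eq_mul, smul_eq_mul] at h5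
    exact (mul_left_cancel₀ hRdet h5).symm
  -- the eigenvalues
  obtain ⟨T, hT⟩ : ∃ T, T = A.trace := ⟨_, rfl⟩
  obtain ⟨Δ, hΔ⟩ : ∃ Δ, Δ = A.det := ⟨_, rfl⟩
  rw [← hT, ← hΔ] at hsq hquad
  rw [← hΔ] at hdet
  have hT0 : 0 < T := by
    have h0 : 0 ≤ T := by
      rw [hT, Matrix.trace_fin_two]; exact add_nonneg (hA 0 0) (hA 1 1)
    rcases h0.lt_or_eq with h | h
    · exact h
    · rw [← h] at hquad
      have := abs_pos.mpr hdet
      linarith
  obtain ⟨lam, mu, hlm, hlmΔ, hkk⟩ : ∃ lam mu : ℤ, lam + mu = T ∧ lam * mu = Δ ∧ mu ≤ lam := by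
    obtain ⟨k0, hk0⟩ := hsq
    obtain ⟨k, hk, hk2⟩ : ∃ k : ℤ, 0 ≤ k ∧ T ^ 2 - 4 * Δ = k * k :=
      ⟨|k0|, abs_nonneg _, by rw [abs_mul_abs_self]; exact hk0⟩
    have hpar : (T - k) % 2 = 0 := by
      have h5 : T * T - k * k = 4 * Δ := by linarith [sq T]
      rcases Int.emod_two_eq_zero_or_one T with h6 | h6 <;>
        rcases Int.emod_two_eq_zero_or_one k with h7 | h7
      · omega
      · exfalso
        have h8 : (T * T - k * k) % 2 = 1 := by
          rw [Int.sub_emod, Int.mul_emod, h6, Int.mul_emod k k, h7]; norm_num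
        rw [h5] at h8; omega
      · exfalso
        have h8 : (T * T - k * k) % 2 = 1 := by
          rw [Int.sub_emod, Int.mul_emod, h6, Int.mul_emod k k, h7]; norm_num
        rw [h5] at h8; omega
      · omega
    obtain ⟨mu, hmu⟩ : ∃ mu, T - k = 2 * mu := ⟨(T - k) / 2, by omega⟩
    refine ⟨mu + k, mu, by linarith, ?_, by linarith⟩
    have h8 : T = 2 * mu + k := by linarith
    rw [h8] at hk2
    linarith
  have hmu0 : mu ≠ 0 := by
    rintro rfl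
    apply hdet; rw [← hlmΔ, mul_zero]
  have hmabs : |mu| ≤ lam := by rw [abs_le]; constructor <;> linarith
  have hAT : A.trace = lam + mu := by rw [hlm, hT]
  have hAD : A.det = lam * mu := by rw [hlmΔ, hΔ]
  obtain ⟨x, hx⟩ := tri_exists hAT hAD a1
  obtain ⟨x', hx'⟩ := tri_exists (A := B) (by rw [htB, hAT]) (by rw [hdB, hAD]) b1
  have hTD : 500 * |lam * mu| ≤ (lam + mu) ^ 2 := by rw [hlmΔ, hlm]; exact hquad
  have hD := dat_of lam mu hmu0 hmabs hTD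
  obtain ⟨r, s, hr, hs, hrs⟩ := arith_of_se hD.K_pos hx hx' l h1 h3 h4
  exact Q_of_arith hA hB a1 a2 b1 b2 lam mu x x' r s hmu0 hmabs hTD hx hx' l hr hs hrs

end Pool.Agent.X1.SseR
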