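import Pool.Agent.X1.SseR5
import Pool.Agent.H812R2.SSE.Comp

/-!
# All `2 × 2` matrices with `500 |det| ≤ tr²`
-/

set_option autoImplicit false

namespace Pool.Agent.X1.SseR

open Matrix Pool.Agent.TH441.SSE2 Pool.Agent.Y321.SE2

/-- Chains of elementary equivalences over `ℕ`. -/
def SS {n m : ℕ} (A : Matrix (Fin n) (Fin n) ℕ) (B : Matrix (Fin m) (Fin m) ℕ) : Prop :=
  Relation.TransGen Pool.Agent.H812R2.SSE.Elem ⟨n, A⟩ ⟨m, B⟩

/-- Shift equivalence over a semiring. -/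
def SE (k : Type) [Semiring k] {n m : ℕ} (A : Matrix (Fin n) (Fin n) k)
    (B : Matrix (Fin m) (Fin m) k) : Prop :=
  ∃ l, 1 ≤ l ∧ ∃ (R : Matrix (Fin n) (Fin m) k) (S : Matrix (Fin m) (Fin n) k),
    A ^ l = R * S ∧ B ^ l = S * R ∧ A * R = R * B ∧ S * A = B * S

lemma SE.symm {k : Type} [Semiring k] {n m : ℕ} {A : Matrix (Fin n) (Fin n) k}
    {B : Matrix (Fin m) (Fin m) k} (h : SE k A B) : SE k B A := by
  obtain ⟨l, hl, R, S, h1, h2, h3, h4⟩ := h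
  exact ⟨l, hl, S, R, h2, h1, h4.symm, h3.symm⟩

lemma SS.symm {n m : ℕ} {A : Matrix (Fin n) (Fin n) ℕ} {B : Matrix (Fin m) (Fin m) ℕ}
    (h : SS A B) : SS B A := by
  have es : ∀ {X Y : Σ n : ℕ, Matrix (Fin n) (Fin n) ℕ}, Pool.Agent.H812R2.SSE.Elem X Y →
      Pool.Agent.H812R2.SSE.Elem Y X := by
    rintro X Y ⟨R, S, h1, h2⟩
    exact ⟨S, R, h2, h1⟩
  have key : ∀ {X Y : Σ n : ℕ, Matrix (Fin n) (Fin n) ℕ},
      Relation.TransGen Pool.Agent.H812R2.SSE.Elem X Y →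
      Relation.TransGen Pool.Agent.H812R2.SSE.Elem Y X := by
    intro X Y h
    induction h with
    | single h => exact Relation.TransGen.single (es h)
    | tail _ h ih => exact Relation.TransGen.head (es h) ih
  exact key h

lemma SS.trans {n m p : ℕ} {A : Matrix (Fin n) (Fin n) ℕ} {B : Matrix (Fin m) (Fin m) ℕ}
    {C : Matrix (Fin p) (Fin p) ℕ} (h : SS A B) (h' : SS B C) : SS A C :=
  Relation.TransGen.trans h h'

/-- Strong shift equivalent to a structured matrix. -/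
def Good (A : Matrix (Fin 2) (Fin 2) ℕ) : Prop :=
  ∃ (n : ℕ) (C : Matrix (Fin n) (Fin n) ℕ) (σ : Equiv.Perm (Fin n)) (lvl : Fin n → ℕ),
    Pool.Agent.H812R2.SSE.Str C σ lvl ∧ SS A C

lemma SS.refl {n : ℕ} (A : Matrix (Fin n) (Fin n) ℕ) : SS A A :=
  Relation.TransGen.single ⟨A, 1, by simp, by simp⟩

lemma ss_of_good {A B : Matrix (Fin 2) (Fin 2) ℕ} (hA : Good A) (hB : Good B)
    (h : SE ℕ A B) : SS A B := by
  obtain ⟨n, C, σ, lvl, hC, hAC⟩ := hA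
  obtain ⟨n', C', σ', lvl', hC', hBC'⟩ := hB
  obtain ⟨l, hl, R, S, h1, h2, h3, h4⟩ := h
  have hse : Pool.Agent.H812R2.SSE.SE' A B := ⟨l, hl, R, S, h1.symm, h2.symm, h3, h4⟩
  have hCC : Pool.Agent.H812R2.SSE.SE' C C' :=
    ((Pool.Agent.H812R2.SSE.se_of_transGen (X := ⟨2, A⟩) (Y := ⟨n, C⟩) hAC).symm.trans
      hse).trans (Pool.Agent.H812R2.SSE.se_of_transGen (X := ⟨2, B⟩) (Y := ⟨n', C'⟩) hBC')
  obtain ⟨ρ, c⟩ := Pool.Agent.H812R2.SSE.main_str C C' σ lvl σ' lvl' hC hC' hCC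
  have : SS C C' := Pool.Agent.H812R2.SSE.transGen_of_ch c
  exact (hAC.trans this).trans hBC'.symm

lemma good_01 {A : Matrix (Fin 2) (Fin 2) ℕ} (h : A 0 1 = 0) : Good A := by
  refine ⟨2, A, 1, ![1, 0], ⟨fun a => rfl, ?_, fun a => Or.inl rfl⟩, SS.refl A⟩
  intro a b hab
  fin_cases a <;> fin_cases b
  · left; rfl
  · exact absurd h hab
  · right; simp
  · left; rfl

lemma good_10 {A : Matrix (Fin 2) (Fin 2) ℕ} (h : A 1 0 = 0) : Good A := by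
  refine ⟨2, A, 1, ![0, 1], ⟨fun a => rfl, ?_, fun a => Or.inl rfl⟩, SS.refl A⟩
  intro a b hab
  fin_cases a <;> fin_cases b
  · left; rfl
  · right; simp
  · exact absurd h hab
  · left; rfl

lemma ss_full {A : Matrix (Fin 2) (Fin 2) ℕ} (h1 : A 0 1 ≠ 0) (h2 : A 1 0 ≠ 0)
    (h : A 0 0 * A 1 1 = A 0 1 * A 1 0) :
    SS A (fun _ _ : Fin 1 => A 0 0 + A 1 1) := by
  have hg : 0 < Nat.gcd (A 0 0) (A 0 1) := Nat.gcd_pos_of_pos_right _ (Nat.pos_of_ne_zero h1)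
  obtain ⟨a', b', hco, e0, e1⟩ := Nat.exists_coprime (A 0 0) (A 0 1)
  obtain ⟨g, hgd⟩ : ∃ g, g = Nat.gcd (A 0 0) (A 0 1) := ⟨_, rfl⟩
  rw [← hgd] at e0 e1 hg
  have e2 : a' * A 1 1 = b' * A 1 0 := by
    have : g * (a' * A 1 1) = g * (b' * A 1 0) := by
      calc g * (a' * A 1 1) = (a' * g) * A 1 1 := by ring
        _ = (b' * g) * A 1 0 := by rw [← e0, ← e1]; exact h
        _ = g * (b' * A 1 0) := by ring
    exact Nat.eq_of_mul_eq_mul_left hg this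
  obtain ⟨k, hk⟩ : a' ∣ A 1 0 := by
    have : a' ∣ b' * A 1 0 := ⟨A 1 1, e2.symm⟩
    exact hco.dvd_of_dvd_mul_left this
  have ha' : 0 < a' := by
    rcases Nat.eq_zero_or_pos a' with h3 | h3
    · rw [h3, zero_mul] at hk; exact absurd hk h2
    · exact h3
  have e3 : A 1 1 = b' * k := by
    rw [hk] at e2
    apply Nat.eq_of_mul_eq_mul_left ha'
    rw [e2]; ring
  refine Relation.TransGen.single ⟨!![g; k], !![a', b'], ?_, ?_⟩
  · ext i j
    fin_cases i <;> fin_cases j <;> simp [Matrix.mul_apply]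
    · rw [e0]; ring
    · rw [e1]; ring
    · rw [hk]; ring
    · rw [e3]; ring
  · ext i j
    fin_cases i; fin_cases j
    simp [Matrix.mul_apply, Fin.sum_univ_two]
    rw [e3, e0]

lemma good_det {A : Matrix (Fin 2) (Fin 2) ℕ} (h1 : A 0 1 ≠ 0) (h2 : A 1 0 ≠ 0)
    (h : A 0 0 * A 1 1 = A 0 1 * A 1 0) : Good A :=
  ⟨1, _, 1, fun _ => 0, ⟨fun _ => rfl, fun _ _ _ => Or.inl (Subsingleton.elim _ _),
    fun _ => Or.inl rfl⟩, ss_full h1 h2 h⟩

lemma det_cast (A : Matrix (Fin 2) (Fin 2) ℕ) :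
    (A.map (Nat.cast : ℕ → ℤ)).det = (A 0 0 : ℤ) * A 1 1 - A 0 1 * A 1 0 := by
  rw [Matrix.det_fin_two]; simp

lemma trace_cast (A : Matrix (Fin 2) (Fin 2) ℕ) :
    (A.map (Nat.cast : ℕ → ℤ)).trace = (A 0 0 : ℤ) + A 1 1 := by
  rw [Matrix.trace_fin_two]; simp

lemma det_zero_iff (A : Matrix (Fin 2) (Fin 2) ℕ) :
    (A.map (Nat.cast : ℕ → ℤ)).det = 0 ↔ A 0 0 * A 1 1 = A 0 1 * A 1 0 := by
  rw [det_cast, sub_eq_zero]
  exact_mod_cast Iff.rfl

lemma entry_zero {p q : Fin 2} {S R : Matrix (Fin 2) (Fin 2) ℕ} (h : (S * R) p q = 0)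
    (i : Fin 2) : S p i * R i q = 0 := by
  rw [Matrix.mul_apply, Finset.sum_eq_zero_iff] at h
  exact h i (Finset.mem_univ i)

lemma row_ne {S : Matrix (Fin 2) (Fin 2) ℤ} (h : S.det ≠ 0) (p : Fin 2) : ∃ i, S p i ≠ 0 := by
  by_contra hneg
  push Not at hneg
  exact h (Matrix.det_eq_zero_of_row_eq_zero p hneg)

lemma col_ne {S : Matrix (Fin 2) (Fin 2) ℤ} (h : S.det ≠ 0) (q : Fin 2) : ∃ i, S i q ≠ 0 := by
  by_contra hneg
  push Not at hneg
  exact h (Matrix.det_eq_zero_of_column_eq_zero q hneg)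

lemma pow_entry {B : Matrix (Fin 2) (Fin 2) ℕ} {p q : Fin 2} (hpq : p ≠ q) (h : B p q = 0)
    (k : ℕ) : (B ^ k) p q = 0 := by
  induction k with
  | zero => rw [pow_zero]; exact Matrix.one_apply_ne hpq
  | succ k ih =>
    rw [pow_succ, Matrix.mul_apply]
    apply Finset.sum_eq_zero
    intro r _
    by_cases hr : r = p
    · rw [hr, h, mul_zero]
    · have : r = q := by
        fin_cases r <;> fin_cases p <;> fin_cases q <;> simp_all
      rw [this, ih, zero_mul]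

/-- An irreducible nonsingular matrix is not shift equivalent to a triangular one. -/
lemma no_se {A B : Matrix (Fin 2) (Fin 2) ℕ} (a1 : A 0 1 ≠ 0) (a2 : A 1 0 ≠ 0)
    (hdet : (A.map (Nat.cast : ℕ → ℤ)).det ≠ 0) {p q : Fin 2} (hpq : p ≠ q) (hB : B p q = 0)
    (h : SE ℕ A B) : False := by
  obtain ⟨l, hl, R, S, h1, h2, h3, h4⟩ := h
  have hm : ∀ (X Y : Matrix (Fin 2) (Fin 2) ℕ),
      (X * Y).map (Nat.cast : ℕ → ℤ) = X.map (Nat.cast : ℕ → ℤ) * Y.map (Nat.cast : ℕ → ℤ) :=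
    fun X Y => Matrix.map_mul (f := Nat.castRingHom ℤ)
  have hp : ∀ (X : Matrix (Fin 2) (Fin 2) ℕ) (j : ℕ),
      (X ^ j).map (Nat.cast : ℕ → ℤ) = (X.map (Nat.cast : ℕ → ℤ)) ^ j :=
    fun X j => Matrix.map_pow (f := Nat.castRingHom ℤ) X j
  have e1 : (A.map (Nat.cast : ℕ → ℤ)).det ^ l =
      (R.map (Nat.cast : ℕ → ℤ)).det * (S.map (Nat.cast : ℕ → ℤ)).det := by
    rw [← Matrix.det_pow, ← hp, h1, hm, Matrix.det_mul]
  have hR : (R.map (Nat.cast : ℕ → ℤ)).det ≠ 0 := by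
    intro h; rw [h, zero_mul] at e1; exact pow_ne_zero l hdet e1
  have hS : (S.map (Nat.cast : ℕ → ℤ)).det ≠ 0 := by
    intro h; rw [h, mul_zero] at e1; exact pow_ne_zero l hdet e1
  obtain ⟨i, hi⟩ := row_ne hS p
  obtain ⟨j, hj⟩ := col_ne hR q
  simp at hi hj
  by_cases hij : i = j
  · have h5 := entry_zero (S := S) (R := R) (p := p) (q := q)
      (by rw [← h2]; exact pow_entry hpq hB l) i
    rw [hij] at h5 hi
    rcases Nat.mul_eq_zero.mp h5 with h6 | h6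
    · exact hi h6
    · exact hj h6
  · have h5 := entry_zero (S := S * A) (R := R) (p := p) (q := q)
      (by rw [h4, Matrix.mul_assoc, ← h2, ← pow_succ']; exact pow_entry hpq hB (l + 1)) j
    rcases Nat.mul_eq_zero.mp h5 with h6 | h6
    · have h7 := entry_zero h6 i
      rcases Nat.mul_eq_zero.mp h7 with h8 | h8
      · exact hi h8
      · have : A i j ≠ 0 := by
          fin_cases i <;> fin_cases j
          · exact absurd rfl hij
          · exact a1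
          · exact a2
          · exact absurd rfl hij
        exact this h8
    · exact hj h6

lemma se_det {A B : Matrix (Fin 2) (Fin 2) ℤ} (h : SE ℤ A B) (hdet : A.det = 0) : B.det = 0 := by
  obtain ⟨l, hl, R, S, h1, h2, h3, h4⟩ := h
  have e1 : B.det ^ l = A.det ^ l := by
    rw [← Matrix.det_pow, ← Matrix.det_pow, h1, h2, Matrix.det_mul, Matrix.det_mul, mul_comm]
  rw [hdet, zero_pow (by omega)] at e1
  exact pow_eq_zero_iff (by omega) |>.mp e1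

lemma pow_trace {A : Matrix (Fin 2) (Fin 2) ℤ} (hdet : A.det = 0) (l : ℕ) :
    (A ^ (l + 1)).trace = A.trace ^ (l + 1) := by
  have hsq : A * A = A.trace • A := by
    rw [Matrix.det_fin_two] at hdet
    ext i j
    rw [Matrix.trace_fin_two]
    fin_cases i <;> fin_cases j <;>
      simp [Matrix.mul_apply, Fin.sum_univ_two] <;> linarith
  have key : A ^ (l + 1) = A.trace ^ l • A := by
    induction l with
    | zero => simp
    | succ l ih => rw [pow_succ, ih, Matrix.smul_mul, hsq, smul_smul, ← pow_succ]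
  rw [key, Matrix.trace_smul, smul_eq_mul, ← pow_succ]

/-- Shift equivalence over `ℤ` implies strong shift equivalence for irreducible matrices. -/
theorem ss_irr (A B : Matrix (Fin 2) (Fin 2) ℕ) (a1 : A 0 1 ≠ 0) (a2 : A 1 0 ≠ 0)
    (b1 : B 0 1 ≠ 0) (b2 : B 1 0 ≠ 0)
    (hquad : 500 * |(A.map (Nat.cast : ℕ → ℤ)).det| ≤ (A.map (Nat.cast : ℕ → ℤ)).trace ^ 2)
    (h : SE ℤ (A.map (Nat.cast : ℕ → ℤ)) (B.map (Nat.cast : ℕ → ℤ))) : SS A B := by
  by_cases hdet : (A.map (Nat.cast : ℕ → ℤ)).det = 0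
  · have hdetB := se_det h hdet
    have f1 := ss_full a1 a2 ((det_zero_iff A).mp hdet)
    have f2 := ss_full b1 b2 ((det_zero_iff B).mp hdetB)
    have htr : A 0 0 + A 1 1 = B 0 0 + B 1 1 := by
      obtain ⟨l, hl, R, S, h1, h2, h3, h4⟩ := h
      obtain ⟨k, rfl⟩ : ∃ k, l = k + 1 := ⟨l - 1, by omega⟩
      have e : (A.map (Nat.cast : ℕ → ℤ)).trace ^ (k + 1) =
          (B.map (Nat.cast : ℕ → ℤ)).trace ^ (k + 1) := by
        rw [← pow_trace hdet, ← pow_trace hdetB, h1, h2, Matrix.trace_mul_comm]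
      rw [trace_cast, trace_cast] at e
      have e' : (A 0 0 + A 1 1) ^ (k + 1) = (B 0 0 + B 1 1) ^ (k + 1) := by exact_mod_cast e
      exact Nat.pow_left_injective (by omega) e'
    rw [htr] at f1
    exact f1.trans f2.symm
  · refine transGen_of_Q (r := Pool.Agent.H812R2.SSE.Elem) (fun _ _ R S => ⟨R, S, rfl, rfl⟩) A B ?_
    by_cases hsq : IsSquare ((A.map (Nat.cast : ℕ → ℤ)).trace ^ 2 -
      4 * (A.map (Nat.cast : ℕ → ℤ)).det)
    · obtain ⟨l, hl, R, S, h1, h2, h3, h4⟩ := h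
      have pos : ∀ {x : ℕ}, x ≠ 0 → (1 : ℤ) ≤ x := by
        intro x hx
        exact_mod_cast Nat.one_le_iff_ne_zero.mpr hx
      exact Q_rat (fun i j => by simp) (fun i j => by simp) (by simpa using pos a1)
        (by simpa using pos a2) (by simpa using pos b1) (by simpa using pos b2) hdet hquad hsq l
        h1 h3 h4
    · exact Q_of_seZ_all A B hquad hsq h

/-- For all `2 × 2` matrices over `ℕ` with `500 |det| ≤ tr²`, strong shift equivalence over `ℕ`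
is shift equivalence over `ℕ`, and, for irreducible matrices, shift equivalence over `ℤ`. -/
theorem main (A B : Matrix (Fin 2) (Fin 2) ℕ)
    (hquad : 500 * |(A.map (Nat.cast : ℕ → ℤ)).det| ≤ (A.map (Nat.cast : ℕ → ℤ)).trace ^ 2) :
    (SS A B ↔ SE ℕ A B) ∧
      (A 0 1 ≠ 0 → A 1 0 ≠ 0 → B 0 1 ≠ 0 → B 1 0 ≠ 0 →
        (SS A B ↔ SE ℤ (A.map (Nat.cast : ℕ → ℤ)) (B.map (Nat.cast : ℕ → ℤ)))) := by
  have h1 : SS A B → SE ℕ A B := fun h =>
    Pool.Agent.Y321.SE2.se_of_transGen (fun _ _ hXY => hXY) h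
  have h2 : SE ℕ A B → SE ℤ (A.map (Nat.cast : ℕ → ℤ)) (B.map (Nat.cast : ℕ → ℤ)) :=
    Pool.Agent.Y321.SE2.seZ_of_seN
  refine ⟨⟨h1, fun h => ?_⟩, fun a1 a2 b1 b2 => ⟨fun h => h2 (h1 h), fun h =>
    ss_irr A B a1 a2 b1 b2 hquad h⟩⟩
  have good : ∀ C : Matrix (Fin 2) (Fin 2) ℕ, ¬ (C 0 1 ≠ 0 ∧ C 1 0 ≠ 0 ∧
      (C.map (Nat.cast : ℕ → ℤ)).det ≠ 0) → Good C := by
    intro C hC
    by_cases c1 : C 0 1 = 0
    · exact good_01 c1
    by_cases c2 : C 1 0 = 0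
    · exact good_10 c2
    by_cases c3 : (C.map (Nat.cast : ℕ → ℤ)).det = 0
    · exact good_det c1 c2 ((det_zero_iff C).mp c3)
    · exact absurd ⟨c1, c2, c3⟩ hC
  have mixed : ∀ C D : Matrix (Fin 2) (Fin 2) ℕ, (C 0 1 ≠ 0 ∧ C 1 0 ≠ 0 ∧
      (C.map (Nat.cast : ℕ → ℤ)).det ≠ 0) → ¬ (D 0 1 ≠ 0 ∧ D 1 0 ≠ 0 ∧
      (D.map (Nat.cast : ℕ → ℤ)).det ≠ 0) → ¬ SE ℕ C D := by
    rintro C D ⟨c1, c2, c3⟩ hD hse
    have d3 : (D.map (Nat.cast : ℕ → ℤ)).det ≠ 0 := fun hd =>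
      c3 (se_det (SE.symm (Pool.Agent.Y321.SE2.seZ_of_seN hse)) hd)
    by_cases d1 : D 0 1 = 0
    · exact no_se c1 c2 c3 (by decide : (0 : Fin 2) ≠ 1) d1 hse
    by_cases d2 : D 1 0 = 0
    · exact no_se c1 c2 c3 (by decide : (1 : Fin 2) ≠ 0) d2 hse
    exact hD ⟨d1, d2, d3⟩
  by_cases hA : A 0 1 ≠ 0 ∧ A 1 0 ≠ 0 ∧ (A.map (Nat.cast : ℕ → ℤ)).det ≠ 0
  · by_cases hB : B 0 1 ≠ 0 ∧ B 1 0 ≠ 0 ∧ (B.map (Nat.cast : ℕ → ℤ)).det ≠ 0
    · exact ss_irr A B hA.1 hA.2.1 hB.1 hB.2.1 hquad (h2 h)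
    · exact absurd h (mixed A B hA hB)
  · by_cases hB : B 0 1 ≠ 0 ∧ B 1 0 ≠ 0 ∧ (B.map (Nat.cast : ℕ → ℤ)).det ≠ 0
    · exact absurd h.symm (mixed B A hB hA)
    · exact ss_of_good (good A hA) (good B hB) h

end Pool.Agent.X1.SseR
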