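import Pool.Agent.X1.SseR6

/-!
# The arithmetic criterion
-/

set_option autoImplicit false

namespace Pool.Agent.X1.SseR

open Matrix Pool.Agent.TH441.SSE2 Pool.Agent.Y321.SE2

/-- The arithmetic criterion for integer eigenvalues. -/
theorem crit (A B : Matrix (Fin 2) (Fin 2) ℕ) (a1 : A 0 1 ≠ 0) (a2 : A 1 0 ≠ 0)
    (b1 : B 0 1 ≠ 0) (b2 : B 1 0 ≠ 0) (lam mu x x' : ℤ) (hmu0 : mu ≠ 0) (hmabs : |mu| < lam)
    (hquad : 500 * |lam * mu| ≤ (lam + mu) ^ 2)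
    (hx : Sim (A.map (Nat.cast : ℕ → ℤ)) !![lam, x; 0, mu])
    (hx' : Sim (B.map (Nat.cast : ℕ → ℤ)) !![lam, x'; 0, mu]) :
    SS A B ↔ ∃ (l : ℕ) (r s : ℤ), r ∣ lam ^ l ∧ s ∣ mu ^ l ∧ (lam - mu) ∣ s * x - r * x' := by
  have hD := dat_of lam mu hmu0 hmabs.le hquad
  constructor
  · intro h
    obtain ⟨l, hl, R, S, h1, h2, h3, h4⟩ := Pool.Agent.Y321.SE2.seZ_of_seN
      (Pool.Agent.Y321.SE2.se_of_transGen (fun _ _ hXY => hXY) h)
    obtain ⟨r, s, hr, hs, hrs⟩ := arith_of_se hD.K_pos hx hx' l h1 h3 h4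
    exact ⟨l, r, s, hr, hs, hrs⟩
  · rintro ⟨l, r, s, hr, hs, hrs⟩
    refine transGen_of_Q (r := Pool.Agent.H812R2.SSE.Elem) (fun _ _ R S => ⟨R, S, rfl, rfl⟩) A B ?_
    have pos : ∀ {x : ℕ}, x ≠ 0 → (1 : ℤ) ≤ x := by
      intro x hx
      exact_mod_cast Nat.one_le_iff_ne_zero.mpr hx
    exact Q_of_arith (fun i j => by simp) (fun i j => by simp) (by simpa using pos a1)
      (by simpa using pos a2) (by simpa using pos b1) (by simpa using pos b2) lam mu x x' r s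
      hmu0 hmabs.le hquad hx hx' l hr hs hrs

/-- Every matrix with off-diagonal entry and integer eigenvalues is similar to a triangular one. -/
theorem exists_tri (A : Matrix (Fin 2) (Fin 2) ℕ) (a1 : A 0 1 ≠ 0) (lam mu : ℤ)
    (hT : (A.map (Nat.cast : ℕ → ℤ)).trace = lam + mu)
    (hD : (A.map (Nat.cast : ℕ → ℤ)).det = lam * mu) :
    ∃ x, Sim (A.map (Nat.cast : ℕ → ℤ)) !![lam, x; 0, mu] := by
  have pos : (1 : ℤ) ≤ A 0 1 := by exact_mod_cast Nat.one_le_iff_ne_zero.mpr a1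
  exact tri_exists hT hD (by simpa using pos)

end Pool.Agent.X1.SseR
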