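import Pool.Agent.X1.SseR7

/-!
# The criterion as a finite check
-/

set_option autoImplicit false

namespace Pool.Agent.X1.SseR

/-- Residues of the divisors of `a ^ l`. -/
def SL (K : ℕ) (a : ℤ) (l : ℕ) : Set (ZMod K) := {c | ∃ r : ℤ, r ∣ a ^ l ∧ (r : ZMod K) = c}

lemma SL_mono_succ (K : ℕ) (a : ℤ) (l : ℕ) : SL K a l ⊆ SL K a (l + 1) := by
  rintro c ⟨r, hr, hc⟩
  exact ⟨r, hr.trans ⟨a, by rw [pow_succ]⟩, hc⟩

lemma SL_stab (K : ℕ) (a : ℤ) (l : ℕ) (h : SL K a l = SL K a (l + 1)) :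
    SL K a (l + 1) = SL K a (l + 2) := by
  refine Set.Subset.antisymm (SL_mono_succ K a (l + 1)) ?_
  rintro c ⟨r, hr, hc⟩
  rw [show l + 2 = (l + 1) + 1 by ring, pow_succ] at hr
  obtain ⟨r1, r2, h1, h2, rfl⟩ := exists_dvd_and_dvd_of_dvd_mul hr
  have h3 : ((r1 : ℤ) : ZMod K) ∈ SL K a l := by rw [h]; exact ⟨r1, h1, rfl⟩
  obtain ⟨r1', h4, h5⟩ := h3
  refine ⟨r1' * r2, ?_, ?_⟩
  · rw [pow_succ]; exact mul_dvd_mul h4 h2
  · rw [← hc]; push_cast; rw [h5]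

lemma SL_sub (K : ℕ) (hK : 0 < K) (a : ℤ) (l : ℕ) : SL K a l ⊆ SL K a K := by
  haveI : NeZero K := ⟨hK.ne'⟩
  have hmono : Monotone (SL K a) := monotone_nat_of_le_succ (SL_mono_succ K a)
  rcases le_total l K with h | h
  · exact hmono h
  · have hf : Monotone (fun n => (SL K a n).ncard) := fun i j hij =>
      Set.ncard_le_ncard (hmono hij) (Set.toFinite _)
    have hb : ∀ n, (fun n => (SL K a n).ncard) n ≤ K := by
      intro n
      have := Set.ncard_le_card (SL K a n)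
      rwa [Nat.card_zmod] at this
    have hs : ∀ n, (fun n => (SL K a n).ncard) n = (fun n => (SL K a n).ncard) (n + 1) →
        (fun n => (SL K a n).ncard) (n + 1) = (fun n => (SL K a n).ncard) (n + 2) := by
      intro n hn
      have h1 : SL K a n = SL K a (n + 1) :=
        Set.eq_of_subset_of_ncard_le (SL_mono_succ K a n) (le_of_eq hn.symm) (Set.toFinite _)
      show (SL K a (n + 1)).ncard = (SL K a (n + 2)).ncard
      rw [SL_stab K a n h1]
    have h1 := Nat.stabilises_of_monotone hf hb hs h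
    have h2 : SL K a K = SL K a l :=
      Set.eq_of_subset_of_ncard_le (hmono h) (le_of_eq h1) (Set.toFinite _)
    rw [h2]

lemma finite_div (K : ℕ) (hK : 0 < K) (a : ℤ) (l : ℕ) (r : ℤ) (hr : r ∣ a ^ l) :
    ∃ r', r' ∣ a ^ K ∧ (K : ℤ) ∣ r - r' := by
  obtain ⟨r', h1, h2⟩ := SL_sub K hK a l (show ((r : ℤ) : ZMod K) ∈ SL K a l from ⟨r, hr, rfl⟩)
  refine ⟨r', h1, ?_⟩
  rw [← ZMod.intCast_zmod_eq_zero_iff_dvd (r - r') K]
  push_cast
  rw [h2, sub_self]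

/-- The criterion as a finite check. -/
lemma finite_crit (lam mu x x' : ℤ) (hK : 0 < lam - mu) :
    (∃ (l : ℕ) (r s : ℤ), r ∣ lam ^ l ∧ s ∣ mu ^ l ∧ (lam - mu) ∣ s * x - r * x') ↔
    ∃ (r s : ℤ), r ∣ lam ^ (lam - mu).toNat ∧ s ∣ mu ^ (lam - mu).toNat ∧
      (lam - mu) ∣ s * x - r * x' := by
  constructor
  · rintro ⟨l, r, s, hr, hs, h⟩
    have hK' : 0 < (lam - mu).toNat := by omega
    have e : (((lam - mu).toNat : ℕ) : ℤ) = lam - mu := Int.toNat_of_nonneg hK.le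
    obtain ⟨r', hr', h1⟩ := finite_div (lam - mu).toNat hK' lam l r hr
    obtain ⟨s', hs', h2⟩ := finite_div (lam - mu).toNat hK' mu l s hs
    rw [e] at h1 h2
    refine ⟨r', s', hr', hs', ?_⟩
    have : s' * x - r' * x' = (s * x - r * x') - (s - s') * x + (r - r') * x' := by ring
    rw [this]
    exact Dvd.dvd.add (Dvd.dvd.sub h (Dvd.dvd.mul_right h2 x)) (Dvd.dvd.mul_right h1 x')
  · rintro ⟨r, s, hr, hs, h⟩
    exact ⟨_, r, s, hr, hs, h⟩

end Pool.Agent.X1.SseR
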